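import Mathlib

/-!
# Tangent vectors of p-adic representations
-/

set_option linter.unusedSectionVars false

namespace Pool.Agent.U175.LP

open PadicInt Module

noncomputable section

variable (p : ℕ) [hp : Fact p.Prime]

section tan

variable {A : Type*} [Ring A] [Algebra ℤ_[p] A] {Γ : Type*} [Group Γ]

/-- `X` is a tangent vector of the image of `R`. -/
def TanA (R : Γ →* A) (X : A) : Prop := ∀ m : ℕ, ∃ n₀ : ℕ, ∀ n, n₀ ≤ n → ∃ (σ : Γ) (Z : A),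
  R σ = 1 + (p : ℤ_[p]) ^ n • (X + (p : ℤ_[p]) ^ m • Z)

variable {p} {R : Γ →* A}

theorem TanA_zero : TanA p R 0 := fun m => ⟨0, fun n _ => ⟨1, 0, by simp⟩⟩

theorem TanA_add {X X' : A} (h : TanA p R X) (h' : TanA p R X') : TanA p R (X + X') := by
  intro m
  obtain ⟨n₁, h1⟩ := h m
  obtain ⟨n₂, h2⟩ := h' m
  refine ⟨max (max n₁ n₂) m, fun n hn => ?_⟩
  obtain ⟨σ, Z, hσ⟩ := h1 n (by omega)
  obtain ⟨σ', Z', hσ'⟩ := h2 n (by omega)
  obtain ⟨k, rfl⟩ : ∃ k, n = m + k := ⟨n - m, by omega⟩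
  refine ⟨σ * σ', Z + Z' + (p : ℤ_[p]) ^ k • ((X + (p : ℤ_[p]) ^ m • Z) *
    (X' + (p : ℤ_[p]) ^ m • Z')), ?_⟩
  rw [map_mul, hσ, hσ']
  generalize hU : X + (p : ℤ_[p]) ^ m • Z = U
  generalize hU' : X' + (p : ℤ_[p]) ^ m • Z' = U'
  have e1 : X + X' + (p : ℤ_[p]) ^ m • (Z + Z' + (p : ℤ_[p]) ^ k • (U * U')) =
      U + U' + (p : ℤ_[p]) ^ (m + k) • (U * U') := by
    rw [← hU, ← hU', pow_add]
    module
  rw [e1]
  simp only [mul_add, add_mul, one_mul, mul_one, smul_add, mul_smul_comm, smul_mul_assoc]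
  abel

theorem pow_lin (U : A) (n N : ℕ) : ∃ V : A, (1 + (p : ℤ_[p]) ^ n • U) ^ N =
    1 + (p : ℤ_[p]) ^ n • ((N : ℤ_[p]) • U) + (p : ℤ_[p]) ^ (n + n) • V := by
  induction N with
  | zero => exact ⟨0, by simp⟩
  | succ N ih =>
    obtain ⟨V, hV⟩ := ih
    refine ⟨(N : ℤ_[p]) • (U * U) + V + (p : ℤ_[p]) ^ n • (V * U), ?_⟩
    rw [pow_succ, hV, pow_add (p : ℤ_[p]) n n]
    simp only [mul_add, add_mul, one_mul, mul_one, smul_add, mul_smul_comm, smul_mul_assoc,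
      Nat.cast_succ]
    module

theorem TanA_nat (N : ℕ) {X : A} (h : TanA p R X) : TanA p R ((N : ℤ_[p]) • X) := by
  intro m
  obtain ⟨n₁, h1⟩ := h m
  refine ⟨max n₁ m, fun n hn => ?_⟩
  obtain ⟨σ, Z, hσ⟩ := h1 n (by omega)
  obtain ⟨k, rfl⟩ : ∃ k, n = m + k := ⟨n - m, by omega⟩
  obtain ⟨V, hV⟩ := pow_lin (p := p) (X + (p : ℤ_[p]) ^ m • Z) (m + k) N
  refine ⟨σ ^ N, (N : ℤ_[p]) • Z + (p : ℤ_[p]) ^ k • V, ?_⟩
  rw [map_pow, hσ, hV]
  simp only [pow_add]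
  module

/-- Closedness. -/
theorem TanA_closed {X : A} (h : ∀ b : ℕ, ∃ W : A, TanA p R (X + (p : ℤ_[p]) ^ b • W)) :
    TanA p R X := by
  intro m
  obtain ⟨W, hW⟩ := h m
  obtain ⟨n₁, h1⟩ := hW m
  refine ⟨n₁, fun n hn => ?_⟩
  obtain ⟨σ, Z, hσ⟩ := h1 n hn
  exact ⟨σ, W + Z, by rw [hσ]; module⟩

theorem exists_nat_near (c : ℤ_[p]) (b : ℕ) : ∃ (N : ℕ) (z : ℤ_[p]), (N : ℤ_[p]) =
    c + (p : ℤ_[p]) ^ b * z := by
  refine ⟨c.appr b, ?_⟩
  have h1 := PadicInt.appr_spec b c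
  rw [Ideal.mem_span_singleton] at h1
  obtain ⟨z, hz⟩ := h1
  refine ⟨-z, ?_⟩
  linear_combination -hz

theorem TanA_smul (c : ℤ_[p]) {X : A} (h : TanA p R X) : TanA p R (c • X) := by
  refine TanA_closed fun b => ?_
  obtain ⟨N, z, hz⟩ := exists_nat_near c b
  refine ⟨z • X, ?_⟩
  have h1 := TanA_nat N h
  rw [hz] at h1
  convert! h1 using 1
  module

theorem TanA_neg {X : A} (h : TanA p R X) : TanA p R (-X) := by
  have h1 := TanA_smul (-1 : ℤ_[p]) h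
  rwa [neg_one_smul] at h1

theorem TanA_sub {X X' : A} (h : TanA p R X) (h' : TanA p R X') : TanA p R (X - X') := by
  rw [sub_eq_add_neg]
  exact TanA_add h (TanA_neg h')

theorem TanA_bracket {X X' : A} (h : TanA p R X) (h' : TanA p R X') :
    TanA p R (X * X' - X' * X) := by
  intro m
  obtain ⟨n₁, h1⟩ := h m
  obtain ⟨n₂, h2⟩ := h' m
  refine ⟨2 * (max (max n₁ n₂) m), fun n hn => ?_⟩
  obtain ⟨a, b, rfl, ha, hb, hab⟩ : ∃ a b, n = a + b ∧ max (max n₁ n₂) m ≤ a ∧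
      max (max n₁ n₂) m ≤ b ∧ a ≤ b := ⟨n / 2, n - n / 2, by omega, by omega, by omega, by omega⟩
  obtain ⟨σ, Z, hσ⟩ := h1 a (by omega)
  obtain ⟨σ', Z', hσ'⟩ := h2 b (by omega)
  set U := X + (p : ℤ_[p]) ^ m • Z with hU
  set U' := X' + (p : ℤ_[p]) ^ m • Z' with hU'
  obtain ⟨l, rfl⟩ : ∃ l, b = a + l := ⟨b - a, by omega⟩
  obtain ⟨k, rfl⟩ : ∃ k, a = m + k := ⟨a - m, by omega⟩
  -- the inverse
  obtain ⟨V, hV⟩ : ∃ V, R (σ' * σ)⁻¹ = 1 + (p : ℤ_[p]) ^ (m + k) • V := by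
    have h3 : R (σ' * σ)⁻¹ * R (σ' * σ) = 1 := by rw [← map_mul, inv_mul_cancel, map_one]
    have h4 : R (σ' * σ) = 1 + (p : ℤ_[p]) ^ (m + k) • ((p : ℤ_[p]) ^ l • U' + U +
        (p : ℤ_[p]) ^ (m + k + l) • (U' * U)) := by
      rw [map_mul, hσ, hσ']
      simp only [mul_add, add_mul, one_mul, mul_one, smul_add, mul_smul_comm, smul_mul_assoc,
        pow_add]
      module
    refine ⟨-(R (σ' * σ)⁻¹ * ((p : ℤ_[p]) ^ l • U' + U + (p : ℤ_[p]) ^ (m + k + l) • (U' * U))), ?_⟩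
    rw [h4, mul_add, mul_one, mul_smul_comm] at h3
    rw [smul_neg, ← h3]
    abel
  have h5 : R (σ * σ') = R (σ' * σ) + (p : ℤ_[p]) ^ (m + k + (m + k + l)) • (U * U' - U' * U) := by
    rw [map_mul, map_mul, hσ, hσ']
    simp only [mul_add, add_mul, one_mul, mul_one, smul_mul_smul_comm]
    rw [← pow_add, ← pow_add, add_comm (m + k + l) (m + k), smul_sub]
    abel
  refine ⟨σ * σ' * (σ' * σ)⁻¹, X * Z' + Z * X' + (p : ℤ_[p]) ^ m • (Z * Z') -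
    (X' * Z + Z' * X + (p : ℤ_[p]) ^ m • (Z' * Z)) +
    (p : ℤ_[p]) ^ k • ((U * U' - U' * U) * V), ?_⟩
  have h6 : R (σ' * σ) * R (σ' * σ)⁻¹ = 1 := by rw [← map_mul, mul_inv_cancel, map_one]
  rw [map_mul, h5, add_mul, h6, hV]
  congr 1
  rw [smul_mul_assoc]
  congr 1
  rw [mul_add, mul_one, mul_smul_comm, hU, hU']
  simp only [mul_add, add_mul, sub_mul, smul_mul_assoc, mul_smul_comm, smul_add, smul_sub,
    smul_smul, pow_add]
  module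

end tan

/-! ### limits -/

section limits

variable {p}

theorem mem_pow_smul {ι : Type*} [Finite ι] {n : ℕ} {x : ι → ℤ_[p]} :
    x ∈ (Ideal.span {(p : ℤ_[p])} ^ n • ⊤ : Submodule ℤ_[p] (ι → ℤ_[p])) ↔
      ∃ y, (p : ℤ_[p]) ^ n • y = x := by
  rw [Ideal.span_singleton_pow, Submodule.ideal_span_singleton_smul]
  constructor
  · intro h
    obtain ⟨y, -, hy⟩ := Submodule.mem_smul_pointwise_iff_exists _ _ _ |>.1 h
    exact ⟨y, hy⟩
  · rintro ⟨y, hy⟩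
    exact Submodule.mem_smul_pointwise_iff_exists _ _ _ |>.2 ⟨y, trivial, hy⟩

/-- Cauchy sequences of p-adic integers. -/
theorem exists_limit₁ (f : ℕ → ℤ_[p]) (hf : ∀ n, ∃ z, f (n + 1) - f n = (p : ℤ_[p]) ^ n * z) :
    ∃ L, ∀ n, ∃ z, L - f n = (p : ℤ_[p]) ^ n * z := by
  have h1 : ∀ n d, ∃ z, f (n + d) - f n = (p : ℤ_[p]) ^ n * z := by
    intro n d
    induction d with
    | zero => exact ⟨0, by simp⟩
    | succ d ih =>
      obtain ⟨z, hz⟩ := ih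
      obtain ⟨z', hz'⟩ := hf (n + d)
      refine ⟨z + (p : ℤ_[p]) ^ d * z', ?_⟩
      have e : f (n + (d + 1)) - f n = (f (n + d + 1) - f (n + d)) + (f (n + d) - f n) := by
        rw [← add_assoc]
        ring
      rw [e, hz, hz', pow_add]
      ring
  have hpp : ‖(p : ℤ_[p])‖ < 1 := by
    rw [PadicInt.norm_p]
    exact inv_lt_one_of_one_lt₀ (by exact_mod_cast hp.out.one_lt)
  have hcau : CauchySeq f := by
    rw [Metric.cauchySeq_iff']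
    intro ε hε
    obtain ⟨N, hN⟩ := exists_pow_lt_of_lt_one hε hpp
    refine ⟨N, fun n hn => ?_⟩
    obtain ⟨d, rfl⟩ := Nat.exists_eq_add_of_le hn
    obtain ⟨z, hz⟩ := h1 N d
    rw [dist_eq_norm, hz, norm_mul, norm_pow]
    calc ‖(p : ℤ_[p])‖ ^ N * ‖z‖ ≤ ‖(p : ℤ_[p])‖ ^ N * 1 :=
          mul_le_mul_of_nonneg_left (PadicInt.norm_le_one _) (by positivity)
      _ < ε := by rwa [mul_one]
  obtain ⟨L, hL⟩ := cauchySeq_tendsto_of_complete hcau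
  refine ⟨L, fun n => ?_⟩
  have h2 : ‖L - f n‖ ≤ (p : ℝ) ^ (-(n : ℤ)) := by
    have h3 : Filter.Tendsto (fun k => ‖f k - f n‖) Filter.atTop (nhds ‖L - f n‖) :=
      (hL.sub_const _).norm
    refine le_of_tendsto h3 (Filter.eventually_atTop.2 ⟨n, fun k hk => ?_⟩)
    obtain ⟨d, rfl⟩ := Nat.exists_eq_add_of_le hk
    obtain ⟨z, hz⟩ := h1 n d
    rw [hz, norm_mul, PadicInt.norm_p_pow]
    calc (p : ℝ) ^ (-(n : ℤ)) * ‖z‖ ≤ (p : ℝ) ^ (-(n : ℤ)) * 1 :=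
          mul_le_mul_of_nonneg_left (PadicInt.norm_le_one _) (by positivity)
      _ = _ := mul_one _
  rw [PadicInt.norm_le_pow_iff_mem_span_pow, Ideal.mem_span_singleton] at h2
  obtain ⟨z, hz⟩ := h2
  exact ⟨z, hz⟩

theorem exists_limit (N : Type*) [AddCommGroup N] [Module ℤ_[p] N] [Module.Finite ℤ_[p] N]
    [Module.Free ℤ_[p] N] (f : ℕ → N) (hf : ∀ n, ∃ z, f (n + 1) - f n = (p : ℤ_[p]) ^ n • z) :
    ∃ L, ∀ n, ∃ z, L - f n = (p : ℤ_[p]) ^ n • z := by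
  classical
  let b := Module.Free.chooseBasis ℤ_[p] N
  let e := b.equivFun
  have h1 : ∀ i, ∃ L, ∀ n, ∃ z, L - e (f n) i = (p : ℤ_[p]) ^ n * z := fun i =>
    exists_limit₁ (fun n => e (f n) i) fun n => by
      obtain ⟨z, hz⟩ := hf n
      refine ⟨e z i, ?_⟩
      have h2 := congrFun (congrArg e hz) i
      rw [map_sub, map_smul] at h2
      exact h2
  choose L z hL using h1
  refine ⟨e.symm L, fun n => ⟨e.symm fun i => z i n, ?_⟩⟩
  apply e.injective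
  rw [map_sub, map_smul, LinearEquiv.apply_symm_apply, LinearEquiv.apply_symm_apply]
  funext i
  exact hL i n

end limits

/-! ### logarithms -/

section log

variable {p} {A : Type*} [Ring A] [Algebra ℤ_[p] A]

theorem smul_pow_mul (c : ℤ_[p]) (x : A) (n : ℕ) : (c • x) ^ n = c ^ n • x ^ n := smul_pow c x n

/-- The `p`-th power of an element congruent to one. -/
theorem pow_step (hp3 : 3 ≤ p) (m : ℕ) (hm : 1 ≤ m) (Y : A) :
    ∃ Y' : A, (1 + (p : ℤ_[p]) ^ m • Y) ^ p = 1 + (p : ℤ_[p]) ^ (m + 1) • (Y + (p : ℤ_[p]) ^ m • Y') := by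
  have hpp := hp.out
  have key : ∀ k ∈ Finset.range p, k ≠ 0 → ∃ Z : A,
      (((p : ℤ_[p]) ^ m • Y) ^ (k + 1) * ((p.choose (k + 1) : ℕ) : A)) =
        (p : ℤ_[p]) ^ (m + 1) • (p : ℤ_[p]) ^ m • Z := by
    intro k hk hk0
    rw [Finset.mem_range] at hk
    rcases eq_or_ne (k + 1) p with hkp | hkp
    · rw [hkp, Nat.choose_self, Nat.cast_one, mul_one, smul_pow, ← pow_mul]
      obtain ⟨l, hl⟩ : ∃ l, m * p = (m + 1) + m + l := by
        have h1 : m * 3 ≤ m * p := Nat.mul_le_mul_left m hp3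
        exact ⟨m * p - (m + 1 + m), by omega⟩
      refine ⟨(p : ℤ_[p]) ^ l • Y ^ p, ?_⟩
      rw [hl, smul_smul, smul_smul]
      congr 1
      ring
    · have h1 : p ∣ p.choose (k + 1) := hpp.dvd_choose_self (Nat.succ_ne_zero k) (by omega)
      obtain ⟨c, hc⟩ := h1
      obtain ⟨j, rfl⟩ : ∃ j, k = j + 1 := ⟨k - 1, by omega⟩
      refine ⟨((p : ℤ_[p]) ^ (m * j) * (c : ℤ_[p])) • Y ^ (j + 1 + 1), ?_⟩
      have h2 : (((p.choose (j + 1 + 1) : ℕ) : A)) = ((p : ℤ_[p]) * (c : ℤ_[p])) • (1 : A) := by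
        have h6 : ((p : ℤ_[p]) * (c : ℤ_[p])) = ((p * c : ℕ) : ℤ_[p]) := by push_cast; ring
        rw [hc, h6, Nat.cast_smul_eq_nsmul, nsmul_one]
      rw [h2, smul_pow, mul_smul_comm, mul_one, smul_smul, smul_smul, smul_smul]
      congr 1
      rw [← pow_mul]
      ring
  rw [add_comm (1 : A), Commute.add_pow (Commute.one_right _)]
  simp only [one_pow, mul_one]
  rw [Finset.sum_range_succ']
  rw [← Finset.add_sum_erase (Finset.range p) _ (Finset.mem_range.2 hpp.pos)]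
  have h3 : ∀ k, ∃ Z : A, k ∈ (Finset.range p).erase 0 →
      (((p : ℤ_[p]) ^ m • Y) ^ (k + 1) * ((p.choose (k + 1) : ℕ) : A)) =
        (p : ℤ_[p]) ^ (m + 1) • (p : ℤ_[p]) ^ m • Z := by
    intro k
    by_cases hk : k ∈ (Finset.range p).erase 0
    · obtain ⟨Z, hZ⟩ := key k (Finset.mem_of_mem_erase hk) (Finset.ne_of_mem_erase hk)
      exact ⟨Z, fun _ => hZ⟩
    · exact ⟨0, fun h => absurd h hk⟩
  choose Z hZ using h3
  refine ⟨∑ k ∈ (Finset.range p).erase 0, Z k, ?_⟩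
  rw [Finset.sum_congr rfl fun k hk => hZ k hk]
  rw [zero_add, pow_one, Nat.choose_one_right, pow_zero, one_mul, Nat.choose_zero_right,
    Nat.cast_one, smul_add, Finset.smul_sum, Finset.smul_sum]
  have h4 : ((p : ℤ_[p]) ^ m • Y) * ((p : ℕ) : A) = (p : ℤ_[p]) ^ (m + 1) • Y := by
    have h5 : ((p : ℕ) : A) = (p : ℤ_[p]) • (1 : A) := by
      rw [Nat.cast_smul_eq_nsmul, nsmul_one]
    rw [h5, mul_smul_comm, mul_one, smul_smul, pow_succ, mul_comm]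
  rw [h4]
  abel

/-- **Logarithms.** -/
theorem exists_log (hp3 : 3 ≤ p) [Module.Finite ℤ_[p] A] [Module.Free ℤ_[p] A] {Γ : Type*} [Group Γ]
    {R : Γ →* A} {s : Γ} {X₀ : A} (h0 : R s = 1 + (p : ℤ_[p]) • X₀) :
    ∃ Z, TanA p R (X₀ + (p : ℤ_[p]) • Z) := by
  choose F hF using fun (m : ℕ) (Y : A) => pow_step (A := A) hp3 (m + 1) (Nat.succ_pos m) Y
  let Y : ℕ → A := fun n => Nat.rec X₀ (fun n Y => Y + (p : ℤ_[p]) ^ (n + 1) • F n Y) n
  have hY0 : Y 0 = X₀ := rfl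
  have hYs : ∀ n, Y (n + 1) = Y n + (p : ℤ_[p]) ^ (n + 1) • F n (Y n) := fun n => rfl
  have hpow : ∀ n, R (s ^ p ^ n) = 1 + (p : ℤ_[p]) ^ (n + 1) • Y n := by
    intro n
    induction n with
    | zero => rw [pow_zero, pow_one, zero_add, pow_one, h0, hY0]
    | succ n ih =>
      rw [pow_succ, pow_mul, map_pow, ih, hF n, hYs]
  obtain ⟨L, hL⟩ := exists_limit A Y fun n => ⟨(p : ℤ_[p]) • F n (Y n), by
    rw [hYs, add_sub_cancel_left, pow_succ, smul_smul]⟩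
  obtain ⟨z, hz⟩ := hL 1
  refine ⟨F 0 (Y 0) + z, ?_⟩
  have hLX : X₀ + (p : ℤ_[p]) • (F 0 (Y 0) + z) = L := by
    rw [sub_eq_iff_eq_add] at hz
    have h7 : Y 1 = X₀ + (p : ℤ_[p]) ^ (0 + 1) • F 0 (Y 0) := hYs 0
    rw [hz, h7, zero_add]
    module
  rw [hLX]
  intro m
  refine ⟨m + 1, fun n hn => ?_⟩
  obtain ⟨k, rfl⟩ : ∃ k, n = m + k + 1 := ⟨n - m - 1, by omega⟩
  obtain ⟨Z, hZ⟩ := hL (m + k)
  refine ⟨s ^ p ^ (m + k), -((p : ℤ_[p]) ^ k • Z), ?_⟩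
  rw [hpow]
  have h1 : Y (m + k) = L - (p : ℤ_[p]) ^ (m + k) • Z := by
    rw [← hZ]
    abel
  rw [h1, pow_add (p : ℤ_[p]) m k]
  module

end log

end

end Pool.Agent.U175.LP
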