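import Mathlib
import Pool.Agent.U175.LP.T1

/-!
# The symplectic Lie algebra of a sum of lattices
-/

set_option linter.unusedSectionVars false

namespace Pool.Agent.U175.LP

open PadicInt Module

noncomputable section

variable {p : ℕ} [hp : Fact p.Prime]

section so

variable {T : Type*} [AddCommGroup T] [Module ℤ_[p] T] (B : T →ₗ[ℤ_[p]] T →ₗ[ℤ_[p]] ℤ_[p])

/-- The symmetric product of two vectors, as an operator. -/
def so (u w : T) : Module.End ℤ_[p] T := (B u).smulRight w + (B w).smulRight u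

theorem so_apply (u w x : T) : so B u w x = B u x • w + B w x • u := rfl

theorem so_comm (u w : T) : so B u w = so B w u := add_comm _ _

theorem so_add_left (u u' w : T) : so B (u + u') w = so B u w + so B u' w := by
  ext x
  simp only [so_apply, LinearMap.add_apply, map_add, smul_add, add_smul]
  abel

theorem so_smul_left (c : ℤ_[p]) (u w : T) : so B (c • u) w = c • so B u w := by
  ext x
  simp only [so_apply, LinearMap.smul_apply, map_smul, smul_add, smul_smul, smul_eq_mul]
  rw [mul_comm (B w x) c]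

theorem so_add_right (u w w' : T) : so B u (w + w') = so B u w + so B u w' := by
  rw [so_comm, so_add_left, so_comm B w, so_comm B w']

theorem so_smul_right (c : ℤ_[p]) (u w : T) : so B u (c • w) = c • so B u w := by
  rw [so_comm, so_smul_left, so_comm]

theorem so_neg_left (u w : T) : so B (-u) w = -so B u w := by
  rw [← neg_one_smul ℤ_[p] u, so_smul_left, neg_one_smul]

theorem so_neg_right (u w : T) : so B u (-w) = -so B u w := by
  rw [so_comm, so_neg_left, so_comm]

theorem B_anti (halt : ∀ x, B x x = 0) (x y : T) : B x y = -B y x := by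
  have h1 := halt (x + y)
  simp only [map_add, LinearMap.add_apply, halt] at h1
  linear_combination h1

/-- The brackets with a similitude. -/
theorem bracket_norm {Y : Module.End ℤ_[p] T} {c : ℤ_[p]}
    (h : ∀ x y, B (Y x) y + B x (Y y) = c * B x y) (u w : T) :
    Y * so B u w - so B u w * Y = so B (Y u) w + so B u (Y w) - c • so B u w := by
  ext x
  have h1 : B u (Y x) = c * B u x - B (Y u) x := by linear_combination h u x
  have h2 : B w (Y x) = c * B w x - B (Y w) x := by linear_combination h w x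
  simp only [LinearMap.sub_apply, Module.End.mul_apply, so_apply, LinearMap.add_apply,
    LinearMap.smul_apply, map_add, map_smul, h1, h2]
  module

theorem so_inv (halt : ∀ x, B x x = 0) (u w x y : T) :
    B (so B u w x) y + B x (so B u w y) = 0 * B x y := by
  simp only [so_apply, map_add, map_smul, LinearMap.add_apply, LinearMap.smul_apply, smul_eq_mul]
  rw [B_anti B halt x w, B_anti B halt x u]
  ring

theorem bracket_so (halt : ∀ x, B x x = 0) (a b u w : T) :
    so B a b * so B u w - so B u w * so B a b = so B (so B a b u) w + so B u (so B a b w) := by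
  rw [bracket_norm B (so_inv B halt a b), zero_smul, sub_zero]

variable {ι : Type*} (π : ι → Module.End ℤ_[p] T)

/-- The symplectic Lie algebra of a summand. -/
def Si (i : ι) : Submodule ℤ_[p] (Module.End ℤ_[p] T) :=
  Submodule.span ℤ_[p] {X | ∃ u w, X = so B (π i u) (π i w)}

theorem so_mem_Si (i : ι) (u w : T) : so B (π i u) (π i w) ∈ Si B π i :=
  Submodule.subset_span ⟨u, w, rfl⟩

theorem so_mem_Si' {i : ι} {u w : T} (hu : π i u = u) (hw : π i w = w) :
    so B u w ∈ Si B π i := by
  rw [← hu, ← hw]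
  exact so_mem_Si B π i u w

theorem Si_bracket {i : ι} {Y : Module.End ℤ_[p] T} {c : ℤ_[p]}
    (h : ∀ x y, B (Y x) y + B x (Y y) = c * B x y) (hc : ∀ x, π i (Y x) = Y (π i x))
    {X : Module.End ℤ_[p] T} (hX : X ∈ Si B π i) : Y * X - X * Y ∈ Si B π i := by
  induction hX using Submodule.span_induction with
  | mem X hX =>
    obtain ⟨u, w, rfl⟩ := hX
    rw [bracket_norm B h, ← hc, ← hc]
    exact Submodule.sub_mem _ (Submodule.add_mem _ (so_mem_Si B π i _ _) (so_mem_Si B π i _ _))
      (Submodule.smul_mem _ _ (so_mem_Si B π i _ _))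
  | zero => rw [mul_zero, zero_mul, sub_zero]; exact Submodule.zero_mem _
  | add X X' _ _ h1 h2 =>
    have e : Y * (X + X') - (X + X') * Y = (Y * X - X * Y) + (Y * X' - X' * Y) := by
      rw [mul_add, add_mul]
      abel
    rw [e]
    exact Submodule.add_mem _ h1 h2
  | smul r X _ h1 =>
    rw [mul_smul_comm, smul_mul_assoc, ← smul_sub]
    exact Submodule.smul_mem _ _ h1

theorem Si_inv (halt : ∀ x, B x x = 0) {i : ι} {X : Module.End ℤ_[p] T} (hX : X ∈ Si B π i)
    (x y : T) : B (X x) y + B x (X y) = 0 := by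
  induction hX using Submodule.span_induction with
  | mem X hX =>
    obtain ⟨u, w, rfl⟩ := hX
    rw [so_inv B halt, zero_mul]
  | zero => simp
  | add X X' _ _ h1 h2 =>
    simp only [LinearMap.add_apply, map_add]
    linear_combination h1 + h2
  | smul r X _ h1 =>
    simp only [LinearMap.smul_apply, map_smul, smul_eq_mul]
    linear_combination r * h1

theorem Si_comm [DecidableEq ι] (hππ : ∀ q x, π q (π q x) = π q x)
    (hππ' : ∀ q r x, q ≠ r → π q (π r x) = 0) (hBπ : ∀ q x y, B (π q x) y = B x (π q y))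
    {i : ι} {X : Module.End ℤ_[p] T} (hX : X ∈ Si B π i) (j : ι) (x : T) :
    π j (X x) = X (π j x) := by
  induction hX using Submodule.span_induction with
  | mem X hX =>
    obtain ⟨u, w, rfl⟩ := hX
    rw [so_apply, so_apply, map_add, map_smul, map_smul]
    by_cases hd : j = i
    · subst hd
      rw [hππ, hππ, ← hBπ, ← hBπ, hππ, hππ]
    · rw [hππ' j i _ hd, hππ' j i _ hd, ← hBπ, ← hBπ, hππ' j i _ hd, hππ' j i _ hd]
      simp
  | zero => simp
  | add X X' _ _ h1 h2 => rw [LinearMap.add_apply, LinearMap.add_apply, map_add, h1, h2]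
  | smul r X _ h1 => rw [LinearMap.smul_apply, LinearMap.smul_apply, map_smul, h1]

variable {B π}

theorem isUnit_natCast (hp3 : 3 ≤ p) : IsUnit (2 : ℤ_[p]) := by
  have h1 : ‖((2 : ℕ) : ℤ_[p])‖ = 1 := by
    rw [PadicInt.norm_natCast_eq_one_iff]
    have h2 : Nat.Coprime p 2 := (Nat.coprime_primes hp.out Nat.prime_two).2 (by omega)
    exact h2
  rw [PadicInt.isUnit_iff]
  exact_mod_cast h1

theorem mem_of_smul_unit {M : Type*} [AddCommGroup M] [Module ℤ_[p] M] {Q : Submodule ℤ_[p] M}
    {c : ℤ_[p]} (hc : IsUnit c) {x : M} (h : c • x ∈ Q) : x ∈ Q := by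
  obtain ⟨c, rfl⟩ := hc
  have h1 := Q.smul_mem (((c⁻¹ : ℤ_[p]ˣ) : ℤ_[p])) h
  rwa [smul_smul, Units.inv_mul, one_smul] at h1

theorem so_mem_of_pair (hp3 : 3 ≤ p) (halt : ∀ x, B x x = 0) {i : ι}
    {Q : Submodule ℤ_[p] (Module.End ℤ_[p] T)}
    (hQ : ∀ X ∈ Si B π i, ∀ X' ∈ Si B π i, X * X' - X' * X ∈ Q) {u f w : T} (hu : π i u = u)
    (hf : π i f = f) (hw : π i w = w) (huf : B u f = 1) : so B u w ∈ Q := by
  have h2 := isUnit_natCast hp3
  have hfu : B f u = -1 := by rw [B_anti B halt, huf]
  have h1 : so B u f ∈ Q := by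
    have h3 := hQ _ (so_mem_Si' B π hu hu) _ (so_mem_Si' B π hf hf)
    rw [bracket_so B halt, so_apply, huf, one_smul, so_add_left, so_add_right, so_comm B f u] at h3
    refine mem_of_smul_unit h2 (mem_of_smul_unit h2 ?_)
    convert! h3 using 1
    module
  have h3 : so B u u ∈ Q := by
    have h4 := hQ _ (so_mem_Si' B π hu hf) _ (so_mem_Si' B π hu hu)
    rw [bracket_so B halt, so_apply, halt, hfu, zero_smul, zero_add, neg_one_smul, so_neg_left,
      so_neg_right] at h4
    refine mem_of_smul_unit h2 ?_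
    have h5 := Q.neg_mem h4
    convert! h5 using 1
    module
  have h4 := hQ _ (so_mem_Si' B π hu hf) _ (so_mem_Si' B π hu hw)
  rw [bracket_so B halt, so_apply B u f u, halt, hfu, zero_smul, zero_add, neg_one_smul,
    so_neg_left, so_apply, so_add_right, so_smul_right, so_smul_right] at h4
  have h5 := Q.sub_mem (Q.add_mem (Q.smul_mem (B u w) h1) (Q.smul_mem (B f w) h3)) h4
  convert! h5 using 1
  abel

/-- The symplectic Lie algebra is spanned by the brackets. -/
theorem Si_le_of_brackets (hp3 : 3 ≤ p) (halt : ∀ x, B x x = 0)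
    (hππ : ∀ q x, π q (π q x) = π q x) (hBπ : ∀ q x y, B (π q x) y = B x (π q y)) {i : ι}
    (hne : ∃ u w, IsUnit (B (π i u) w))
    {Q : Submodule ℤ_[p] (Module.End ℤ_[p] T)}
    (hQ : ∀ X ∈ Si B π i, ∀ X' ∈ Si B π i, X * X' - X' * X ∈ Q) : Si B π i ≤ Q := by
  have key : ∀ u w v, IsUnit (B (π i u) w) → so B (π i u) (π i v) ∈ Q := by
    rintro u w v ⟨c, hc⟩
    refine so_mem_of_pair hp3 halt hQ (f := π i ((((c⁻¹ : ℤ_[p]ˣ) : ℤ_[p])) • w)) (hππ _ _)
      (hππ _ _) (hππ _ _) ?_
    rw [← hBπ, hππ, map_smul, smul_eq_mul, ← hc, Units.inv_mul]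
  obtain ⟨u₀, w₀, h0⟩ := hne
  rw [Si, Submodule.span_le]
  rintro _ ⟨u, v, rfl⟩
  by_cases hu : IsUnit (B (π i u) w₀)
  · exact key u w₀ v hu
  · have h1 : IsUnit (B (π i (u₀ + u)) w₀) := by
      rw [map_add, map_add, LinearMap.add_apply]
      have h3 : IsUnit ((B (π i u₀) w₀ + B (π i u) w₀) + -(B (π i u) w₀)) := by
        rwa [add_neg_cancel_right]
      rcases IsLocalRing.isUnit_or_isUnit_of_isUnit_add h3 with h4 | h4
      · exact h4
      · exact absurd ((IsUnit.neg_iff _).1 h4) hu
    have h2 := Q.sub_mem (key _ w₀ v h1) (key u₀ w₀ v h0)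
    rw [map_add, so_add_left, add_sub_cancel_left] at h2
    exact h2

/-- A connected family of vectors which spans modulo `p`. -/
theorem Si_le_of_connected (hp3 : 3 ≤ p) (halt : ∀ x, B x x = 0) {i : ι} {K : Type*} (v : K → T)
    (hconn : ∀ k l, Relation.ReflTransGen (fun a b => IsUnit (B (v a) (v b))) k l)
    (hspan : ∀ x, ∃ y ∈ Submodule.span ℤ_[p] (Set.range v), ∃ z, π i x = y + (p : ℤ_[p]) • z)
    {Q : Submodule ℤ_[p] (Module.End ℤ_[p] T)}
    (hQ : ∀ X ∈ Q, ∀ X' ∈ Q, X * X' - X' * X ∈ Q)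
    (hpQ : ∀ X : Module.End ℤ_[p] T, (p : ℤ_[p]) • X ∈ Q) (hv : ∀ k, so B (v k) (v k) ∈ Q) :
    Si B π i ≤ Q := by
  have h2 := isUnit_natCast hp3
  have hadj : ∀ b d, IsUnit (B (v b) (v d)) → so B (v b) (v d) ∈ Q := by
    intro b d hbd
    have h3 := hQ _ (hv b) _ (hv d)
    rw [bracket_so B halt, so_apply, so_add_left, so_add_right, so_comm B (v d), so_smul_left] at h3
    refine mem_of_smul_unit h2 (mem_of_smul_unit h2 (mem_of_smul_unit hbd ?_))
    convert! h3 using 1
    module
  have hall : ∀ a d, so B (v a) (v d) ∈ Q := by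
    intro a d
    have h3 := hconn a d
    induction h3 with
    | refl => exact hv a
    | @tail b d _ hbd ih =>
      have h4 := hQ _ ih _ (hv d)
      rw [bracket_so B halt, so_comm B (v d) (so B (v a) (v b) (v d)), so_apply, so_add_left,
        so_smul_left, so_smul_left] at h4
      refine mem_of_smul_unit h2 (mem_of_smul_unit hbd ?_)
      have h5 := Q.sub_mem h4 (Q.smul_mem (2 * B (v a) (v d)) (hadj b d hbd))
      convert! h5 using 1
      module
  have h3 : ∀ a, ∀ w ∈ Submodule.span ℤ_[p] (Set.range v), so B (v a) w ∈ Q := by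
    intro a w hw
    induction hw using Submodule.span_induction with
    | mem w hw =>
      obtain ⟨d, rfl⟩ := hw
      exact hall a d
    | zero => rw [← zero_smul ℤ_[p] (0 : T), so_smul_right, zero_smul]; exact Q.zero_mem
    | add w w' _ _ h4 h5 => rw [so_add_right]; exact Q.add_mem h4 h5
    | smul r w _ h4 => rw [so_smul_right]; exact Q.smul_mem _ h4
  have h4 : ∀ u ∈ Submodule.span ℤ_[p] (Set.range v), ∀ w ∈ Submodule.span ℤ_[p] (Set.range v),
      so B u w ∈ Q := by
    intro u hu w hw
    induction hu using Submodule.span_induction with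
    | mem u hu =>
      obtain ⟨d, rfl⟩ := hu
      exact h3 d w hw
    | zero => rw [← zero_smul ℤ_[p] (0 : T), so_smul_left, zero_smul]; exact Q.zero_mem
    | add w w' _ _ h4 h5 => rw [so_add_left]; exact Q.add_mem h4 h5
    | smul r w _ h4 => rw [so_smul_left]; exact Q.smul_mem _ h4
  rw [Si, Submodule.span_le]
  rintro _ ⟨u, w, rfl⟩
  obtain ⟨y, hy, z, hz⟩ := hspan u
  obtain ⟨y', hy', z', hz'⟩ := hspan w
  have h5 : so B (π i u) (π i w) = so B y y' + (p : ℤ_[p]) • (so B y z' + so B z y' +
      (p : ℤ_[p]) • so B z z') := by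
    rw [hz, hz']
    simp only [so_add_left, so_add_right, so_smul_left, so_smul_right]
    module
  rw [h5]
  exact Q.add_mem (h4 y hy y' hy') (hpQ _)

end so

end

end Pool.Agent.U175.LP
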