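import Mathlib
import Pool.Agent.U175.LP.T2

/-!
# From transvections modulo `p` to tangent vectors
-/

set_option linter.unusedSectionVars false

namespace Pool.Agent.U175.LP

open PadicInt Module

noncomputable section

variable {p : ℕ} [hp : Fact p.Prime]

theorem eq_zero_of_dvd_pow {a : ℤ_[p]} (h : ∀ m : ℕ, ∃ z, a = (p : ℤ_[p]) ^ m * z) : a = 0 := by
  by_contra ha
  have h1 : 0 < ‖a‖ := norm_pos_iff.2 ha
  have hpp : ((p : ℝ))⁻¹ < 1 := inv_lt_one_of_one_lt₀ (by exact_mod_cast hp.out.one_lt)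
  obtain ⟨m, hm⟩ := exists_pow_lt_of_lt_one h1 hpp
  obtain ⟨z, hz⟩ := h m
  have h2 : ‖a‖ ≤ ((p : ℝ))⁻¹ ^ m := by
    rw [hz, norm_mul, norm_pow, PadicInt.norm_p]
    calc ((p : ℝ))⁻¹ ^ m * ‖z‖ ≤ ((p : ℝ))⁻¹ ^ m * 1 :=
          mul_le_mul_of_nonneg_left (PadicInt.norm_le_one _) (by positivity)
      _ = _ := mul_one _
  exact absurd hm (not_lt.2 h2)

theorem eq_zero_of_dvd_pow' {N : Type*} [AddCommGroup N] [Module ℤ_[p] N] [Module.Finite ℤ_[p] N]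
    [Module.Free ℤ_[p] N] {a : N} (h : ∀ m : ℕ, ∃ z, a = (p : ℤ_[p]) ^ m • z) : a = 0 := by
  let b := Module.Free.chooseBasis ℤ_[p] N
  refine b.forall_coord_eq_zero_iff.1 fun i => eq_zero_of_dvd_pow fun m => ?_
  obtain ⟨z, hz⟩ := h m
  exact ⟨b.coord i z, by rw [hz, map_smul, smul_eq_mul]⟩

theorem p_ne_zero : (p : ℤ_[p]) ≠ 0 := by
  exact_mod_cast hp.out.ne_zero

theorem p_cancel {N : Type*} [AddCommGroup N] [Module ℤ_[p] N] [Module.Finite ℤ_[p] N]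
    [Module.Free ℤ_[p] N] {n : ℕ} {a b : N} (h : (p : ℤ_[p]) ^ n • a = (p : ℤ_[p]) ^ n • b) :
    a = b := smul_right_injective N (pow_ne_zero n p_ne_zero) h

/-! ### powers of unipotent elements modulo `p` -/

theorem unip_pow (hp5 : 5 ≤ p) {A : Type*} [Ring A] [Algebra ℤ_[p] A] {E Z : A} (hE : E * E = 0) :
    ∃ W, (1 + (E + (p : ℤ_[p]) • Z)) ^ p = 1 + (p : ℤ_[p]) • (E + (p : ℤ_[p]) • W) := by
  have hpp := hp.out
  set N := E + (p : ℤ_[p]) • Z with hN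
  set W₁ : A := E * Z + Z * E + (p : ℤ_[p]) • (Z * Z) with hW₁
  have hN2 : N * N = (p : ℤ_[p]) • W₁ := by
    rw [hN, hW₁]
    simp only [mul_add, add_mul, hE, mul_smul_comm, smul_mul_assoc, zero_add]
    module
  have key : ∀ k ∈ Finset.range p, k ≠ 0 → ∃ Z : A,
      (N ^ (k + 1) * ((p.choose (k + 1) : ℕ) : A)) = (p : ℤ_[p]) • (p : ℤ_[p]) • Z := by
    intro k hk hk0
    rw [Finset.mem_range] at hk
    rcases eq_or_ne (k + 1) p with hkp | hkp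
    · rw [hkp, Nat.choose_self, Nat.cast_one, mul_one]
      obtain ⟨l, rfl⟩ : ∃ l, k = l + 3 := ⟨k - 3, by omega⟩
      refine ⟨N ^ l * (W₁ * W₁), ?_⟩
      have e0 : N ^ p = N ^ (l + 3 + 1) := congrArg (fun n => N ^ n) hkp.symm
      have e1 : N ^ (l + 3 + 1) = N ^ l * ((N * N) * (N * N)) := by
        have e2 : (N * N) * (N * N) = N ^ 4 := by
          simp only [pow_succ, pow_zero, one_mul, mul_assoc]
        rw [e2, ← pow_add]
      rw [e0, e1, hN2, smul_mul_smul_comm, mul_smul_comm, smul_smul]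
    · obtain ⟨c, hc⟩ : p ∣ p.choose (k + 1) := hpp.dvd_choose_self (Nat.succ_ne_zero k) (by omega)
      obtain ⟨j, rfl⟩ : ∃ j, k = j + 1 := ⟨k - 1, by omega⟩
      refine ⟨(c : ℤ_[p]) • (N ^ j * W₁), ?_⟩
      have h2 : (((p.choose (j + 1 + 1) : ℕ) : A)) = ((p : ℤ_[p]) * (c : ℤ_[p])) • (1 : A) := by
        have h6 : ((p : ℤ_[p]) * (c : ℤ_[p])) = ((p * c : ℕ) : ℤ_[p]) := by push_cast; ring
        rw [hc, h6, Nat.cast_smul_eq_nsmul, nsmul_one]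
      rw [h2, pow_succ, pow_succ, mul_assoc (N ^ j), hN2, mul_smul_comm, mul_smul_comm, mul_one,
        smul_smul, smul_smul, smul_smul]
      congr 1
      ring
  rw [add_comm (1 : A), Commute.add_pow (Commute.one_right _)]
  simp only [one_pow, mul_one]
  rw [Finset.sum_range_succ']
  rw [← Finset.add_sum_erase (Finset.range p) _ (Finset.mem_range.2 hpp.pos)]
  have h3 : ∀ k, ∃ Z : A, k ∈ (Finset.range p).erase 0 →
      (N ^ (k + 1) * ((p.choose (k + 1) : ℕ) : A)) = (p : ℤ_[p]) • (p : ℤ_[p]) • Z := by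
    intro k
    by_cases hk : k ∈ (Finset.range p).erase 0
    · obtain ⟨Z, hZ⟩ := key k (Finset.mem_of_mem_erase hk) (Finset.ne_of_mem_erase hk)
      exact ⟨Z, fun _ => hZ⟩
    · exact ⟨0, fun h => absurd h hk⟩
  choose Y hY using h3
  refine ⟨Z + ∑ k ∈ (Finset.range p).erase 0, Y k, ?_⟩
  rw [Finset.sum_congr rfl fun k hk => hY k hk]
  rw [zero_add, pow_one, Nat.choose_one_right, pow_zero, one_mul, Nat.choose_zero_right,
    Nat.cast_one]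
  have h5 : ((p : ℕ) : A) = (p : ℤ_[p]) • (1 : A) := by
    rw [Nat.cast_smul_eq_nsmul, nsmul_one]
  rw [h5, mul_smul_comm, mul_one, hN, ← Finset.smul_sum, ← Finset.smul_sum]
  module

section main

variable {T : Type*} [AddCommGroup T] [Module ℤ_[p] T] [Module.Finite ℤ_[p] T]
  [Module.Free ℤ_[p] T] {Γ : Type*} [Group Γ] (ρ : Representation ℤ_[p] Γ T)
  (κ : Γ →* ℤ_[p]ˣ) {A : Type*} [Ring A] [Algebra ℤ_[p] A] [Module.Finite ℤ_[p] A]
  [Module.Free ℤ_[p] A] (t : Γ →* A) (B : T →ₗ[ℤ_[p]] T →ₗ[ℤ_[p]] ℤ_[p])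
  {ι : Type*} [DecidableEq ι] (π : ι → Module.End ℤ_[p] T)

/-- The joint action. -/
def RR : Γ →* Module.End ℤ_[p] T × (A × ℤ_[p]) :=
  MonoidHom.prod ρ (t.prod ((Units.coeHom ℤ_[p]).comp κ))

theorem RR_apply (g : Γ) : RR ρ κ t g = (ρ g, (t g, (κ g : ℤ_[p]))) := rfl

variable {ρ κ t B π}

/-- Tangent vectors are infinitesimal similitudes. -/
theorem tan_norm (hB : ∀ s x y, B (ρ s x) (ρ s y) = (κ s : ℤ_[p]) * B x y)
    {Y : Module.End ℤ_[p] T} {M : A} {c : ℤ_[p]} (h : TanA p (RR ρ κ t) (Y, (M, c))) (x y : T) :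
    B (Y x) y + B x (Y y) = c * B x y := by
  refine sub_eq_zero.1 (eq_zero_of_dvd_pow fun m => ?_)
  obtain ⟨n₀, h0⟩ := h m
  obtain ⟨σ, ⟨Z, Z', z⟩, hσ⟩ := h0 (max n₀ m) (le_max_left _ _)
  obtain ⟨k, hk⟩ : ∃ k, max n₀ m = m + k := ⟨max n₀ m - m, by omega⟩
  rw [hk] at hσ
  have h1 : ρ σ = 1 + (p : ℤ_[p]) ^ (m + k) • (Y + (p : ℤ_[p]) ^ m • Z) := congrArg Prod.fst hσ
  have h2 : (κ σ : ℤ_[p]) = 1 + (p : ℤ_[p]) ^ (m + k) * (c + (p : ℤ_[p]) ^ m * z) :=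
    congrArg (fun w => w.2.2) hσ
  have h3 := hB σ x y
  rw [h1, h2] at h3
  set U := Y + (p : ℤ_[p]) ^ m • Z with hU
  simp only [LinearMap.add_apply, LinearMap.smul_apply, Module.End.one_apply, map_add, map_smul,
    smul_eq_mul] at h3
  have h4 : (p : ℤ_[p]) ^ (m + k) * (B (U x) y + B x (U y) + (p : ℤ_[p]) ^ (m + k) * B (U x) (U y)) =
      (p : ℤ_[p]) ^ (m + k) * ((c + (p : ℤ_[p]) ^ m * z) * B x y) := by
    linear_combination h3
  have h5 := mul_left_cancel₀ (pow_ne_zero (m + k) p_ne_zero) h4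
  refine ⟨z * B x y - B (Z x) y - B x (Z y) - (p : ℤ_[p]) ^ k * B (U x) (U y), ?_⟩
  have h6 : B (U x) y = B (Y x) y + (p : ℤ_[p]) ^ m * B (Z x) y := by
    rw [hU]
    simp only [LinearMap.add_apply, LinearMap.smul_apply, map_add, map_smul, smul_eq_mul]
  have h7 : B x (U y) = B x (Y y) + (p : ℤ_[p]) ^ m * B x (Z y) := by
    rw [hU]
    simp only [LinearMap.add_apply, LinearMap.smul_apply, map_add, map_smul, smul_eq_mul]
  rw [h6, h7, pow_add] at h5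
  linear_combination h5

/-- Tangent vectors respect the summands. -/
theorem tan_comm (hπρ : ∀ q s x, π q (ρ s x) = ρ s (π q x)) {Y : Module.End ℤ_[p] T}
    {M : A × ℤ_[p]} (h : TanA p (RR ρ κ t) (Y, M)) (q : ι) (x : T) :
    π q (Y x) = Y (π q x) := by
  refine sub_eq_zero.1 (eq_zero_of_dvd_pow' (p := p) fun m => ?_)
  obtain ⟨n₀, h0⟩ := h m
  obtain ⟨σ, ⟨Z, Z'⟩, hσ⟩ := h0 n₀ le_rfl
  have h1 : ρ σ = 1 + (p : ℤ_[p]) ^ n₀ • (Y + (p : ℤ_[p]) ^ m • Z) := congrArg Prod.fst hσ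
  have h3 := hπρ q σ x
  rw [h1] at h3
  simp only [LinearMap.add_apply, LinearMap.smul_apply, Module.End.one_apply, map_add, map_smul] at h3
  have h4 : (p : ℤ_[p]) ^ n₀ • (π q (Y x) + (p : ℤ_[p]) ^ m • π q (Z x)) =
      (p : ℤ_[p]) ^ n₀ • (Y (π q x) + (p : ℤ_[p]) ^ m • Z (π q x)) := add_left_cancel h3
  have h5 := p_cancel h4
  refine ⟨Z (π q x) - π q (Z x), ?_⟩
  rw [smul_sub, sub_eq_sub_iff_add_eq_add, h5]
  abel

variable (ρ κ t) in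
/-- The operators which are modulo `p ^ b` tangent vectors with zero on the values. -/
def Pb (b : ℕ) : Submodule ℤ_[p] (Module.End ℤ_[p] T) where
  carrier := {X | ∃ Z, TanA p (RR ρ κ t) ((X, 0) + (p : ℤ_[p]) ^ b • Z)}
  zero_mem' := ⟨0, by
    rw [smul_zero, add_zero]
    exact TanA_zero⟩
  add_mem' := by
    rintro X X' ⟨Z, hZ⟩ ⟨Z', hZ'⟩
    refine ⟨Z + Z', ?_⟩
    have h1 := TanA_add hZ hZ'
    convert! h1 using 1
    have e : ((X + X', 0) : Module.End ℤ_[p] T × (A × ℤ_[p])) = (X, 0) + (X', 0) := by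
      rw [Prod.mk_add_mk, add_zero]
    rw [e, smul_add]
    abel
  smul_mem' := by
    rintro c X ⟨Z, hZ⟩
    refine ⟨c • Z, ?_⟩
    have h1 := TanA_smul c hZ
    convert! h1 using 1
    have e : ((c • X, 0) : Module.End ℤ_[p] T × (A × ℤ_[p])) = c • (X, 0) := by
      rw [Prod.smul_mk, smul_zero]
    rw [e, smul_add, smul_comm]

theorem mem_Pb {b : ℕ} {X : Module.End ℤ_[p] T} :
    X ∈ Pb ρ κ t b ↔ ∃ Z, TanA p (RR ρ κ t) ((X, 0) + (p : ℤ_[p]) ^ b • Z) := Iff.rfl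

theorem Pb_bracket {b : ℕ} {X X' : Module.End ℤ_[p] T} (h : X ∈ Pb ρ κ t b)
    (h' : X' ∈ Pb ρ κ t b) : X * X' - X' * X ∈ Pb ρ κ t b := by
  obtain ⟨Z, hZ⟩ := h
  obtain ⟨Z', hZ'⟩ := h'
  have h1 := TanA_bracket hZ hZ'
  set U : Module.End ℤ_[p] T × (A × ℤ_[p]) := (X, 0) with hU
  set U' : Module.End ℤ_[p] T × (A × ℤ_[p]) := (X', 0) with hU'
  refine ⟨U * Z' + Z * U' + (p : ℤ_[p]) ^ b • (Z * Z') - (U' * Z + Z' * U +
    (p : ℤ_[p]) ^ b • (Z' * Z)), ?_⟩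
  convert! h1 using 1
  have e : ((X * X' - X' * X, 0) : Module.End ℤ_[p] T × (A × ℤ_[p])) = U * U' - U' * U := by
    rw [hU, hU']
    refine Prod.ext rfl (Prod.ext ?_ ?_)
    · change (0 : A) = 0 * 0 - 0 * 0
      simp
    · change (0 : ℤ_[p]) = 0 * 0 - 0 * 0
      simp
  rw [e]
  simp only [mul_add, add_mul, smul_mul_assoc, mul_smul_comm]
  module

theorem p_mem_P1 (X : Module.End ℤ_[p] T) : (p : ℤ_[p]) • X ∈ Pb ρ κ t 1 := by
  refine ⟨(-X, 0), ?_⟩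
  have e : (((p : ℤ_[p]) • X, 0) : Module.End ℤ_[p] T × (A × ℤ_[p])) +
      (p : ℤ_[p]) ^ 1 • (-X, 0) = 0 := by
    rw [pow_one, Prod.smul_mk, smul_zero, smul_neg, Prod.mk_add_mk, add_neg_cancel, add_zero]
    rfl
  rw [e]
  exact TanA_zero

/-- Transvections modulo `p`. -/
theorem transv_mem (hp5 : 5 ≤ p) {E : Module.End ℤ_[p] T} (hE : E * E = 0) {g : Γ}
    (hρ : ∃ Z, ρ g = 1 + (E + (p : ℤ_[p]) • Z)) (ht : ∃ M, t g = 1 + (p : ℤ_[p]) • M)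
    (hκ : ∃ z, (κ g : ℤ_[p]) = 1 + (p : ℤ_[p]) • z) : E ∈ Pb ρ κ t 1 := by
  obtain ⟨Z, hZ⟩ := hρ
  obtain ⟨M, hM⟩ := ht
  obtain ⟨z, hz⟩ := hκ
  obtain ⟨W, hW⟩ := unip_pow hp5 (Z := Z) hE
  obtain ⟨V, hV⟩ := pow_lin (p := p) M 1 p
  obtain ⟨v, hv⟩ := pow_lin (p := p) (z : ℤ_[p]) 1 p
  have h0 : RR ρ κ t (g ^ p) = 1 + (p : ℤ_[p]) • ((E, 0) + (p : ℤ_[p]) • (W, (M + V, z + v))) := by
    rw [map_pow, RR_apply, hZ, hM, hz]
    rw [Prod.pow_mk, Prod.pow_mk, hW]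
    rw [pow_one] at hV hv
    rw [hV, hv]
    refine Prod.ext ?_ (Prod.ext ?_ ?_)
    · rfl
    · change 1 + (p : ℤ_[p]) • ((p : ℤ_[p]) • M) + (p : ℤ_[p]) ^ (1 + 1) • V =
        1 + (p : ℤ_[p]) • (0 + (p : ℤ_[p]) • (M + V))
      module
    · change 1 + (p : ℤ_[p]) • ((p : ℤ_[p]) • z) + (p : ℤ_[p]) ^ (1 + 1) • v =
        1 + (p : ℤ_[p]) • (0 + (p : ℤ_[p]) • (z + v))
      module
  obtain ⟨Z', hZ'⟩ := exists_log (by omega) h0
  refine ⟨(W, (M + V, z + v)) + Z', ?_⟩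
  convert! hZ' using 1
  rw [pow_one]
  module

/-- The doubling of the precision. -/
theorem Pb_double (halt : ∀ x, B x x = 0) (hππ : ∀ q x, π q (π q x) = π q x)
    (hππ' : ∀ q r x, q ≠ r → π q (π r x) = 0) (hBπ : ∀ q x y, B (π q x) y = B x (π q y))
    (hB : ∀ s x y, B (ρ s x) (ρ s y) = (κ s : ℤ_[p]) * B x y)
    (hπρ : ∀ q s x, π q (ρ s x) = ρ s (π q x)) {i : ι} {b : ℕ}
    (h : Si B π i ≤ Pb ρ κ t b) {X X' : Module.End ℤ_[p] T} (hX : X ∈ Si B π i)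
    (hX' : X' ∈ Si B π i) : X * X' - X' * X ∈ Pb ρ κ t (b + b) := by
  obtain ⟨Z, hZ⟩ := h hX
  obtain ⟨Z', hZ'⟩ := h hX'
  obtain ⟨Z₁, M, z⟩ := Z
  obtain ⟨Z₁', M', z'⟩ := Z'
  have aux : ∀ {X Z₁ : Module.End ℤ_[p] T} {M : A} {z : ℤ_[p]}, X ∈ Si B π i →
      TanA p (RR ρ κ t) ((X, 0) + (p : ℤ_[p]) ^ b • (Z₁, M, z)) →
      (∀ x y, B (Z₁ x) y + B x (Z₁ y) = z * B x y) ∧ ∀ x, π i (Z₁ x) = Z₁ (π i x) := by
    intro X Z₁ M z hX hZ
    have e : ((X, 0) : Module.End ℤ_[p] T × (A × ℤ_[p])) + (p : ℤ_[p]) ^ b • (Z₁, M, z) =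
        (X + (p : ℤ_[p]) ^ b • Z₁, ((p : ℤ_[p]) ^ b • M, (p : ℤ_[p]) ^ b • z)) := by
      refine Prod.ext rfl (Prod.ext ?_ ?_)
      · change 0 + _ = _
        rw [zero_add]
        rfl
      · change 0 + _ = _
        rw [zero_add]
        rfl
    rw [e] at hZ
    constructor
    · intro x y
      have h1 := tan_norm hB hZ x y
      have h2 := Si_inv B π halt hX x y
      simp only [LinearMap.add_apply, LinearMap.smul_apply, map_add, map_smul, smul_eq_mul] at h1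
      refine mul_left_cancel₀ (pow_ne_zero b (p_ne_zero (p := p))) ?_
      linear_combination h1 - h2
    · intro x
      have h1 := tan_comm hπρ hZ i x
      have h2 := Si_comm B π hππ hππ' hBπ hX i x
      simp only [LinearMap.add_apply, LinearMap.smul_apply, map_add, map_smul] at h1
      rw [h2] at h1
      exact p_cancel (add_left_cancel h1)
  obtain ⟨a1, a2⟩ := aux hX hZ
  obtain ⟨b1, b2⟩ := aux hX' hZ'
  have hY : (X * Z₁' - Z₁' * X) + (Z₁ * X' - X' * Z₁) ∈ Si B π i := by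
    refine Submodule.add_mem _ ?_ (Si_bracket B π a1 a2 hX')
    have h1 := Submodule.neg_mem _ (Si_bracket B π b1 b2 hX)
    rwa [neg_sub] at h1
  obtain ⟨Z'', hZ''⟩ := h hY
  have h1 := TanA_sub (TanA_bracket hZ hZ') (TanA_smul ((p : ℤ_[p]) ^ b) hZ'')
  refine ⟨(Z₁, M, z) * (Z₁', M', z') - (Z₁', M', z') * (Z₁, M, z) - Z'', ?_⟩
  convert! h1 using 1
  generalize hW : ((Z₁, M, z) : Module.End ℤ_[p] T × (A × ℤ_[p])) = W
  generalize hW' : ((Z₁', M', z') : Module.End ℤ_[p] T × (A × ℤ_[p])) = W'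
  have e1 : (((X * Z₁' - Z₁' * X) + (Z₁ * X' - X' * Z₁), 0) :
      Module.End ℤ_[p] T × (A × ℤ_[p])) = (X, 0) * W' - W' * (X, 0) + (W * (X', 0) - (X', 0) * W) := by
    rw [← hW, ← hW']
    refine Prod.ext rfl (Prod.ext ?_ ?_)
    · change (0 : A) = 0 * M' - M' * 0 + (M * 0 - 0 * M)
      simp
    · change (0 : ℤ_[p]) = 0 * z' - z' * 0 + (z * 0 - 0 * z)
      simp
  have e2 : (((X * X' - X' * X), 0) : Module.End ℤ_[p] T × (A × ℤ_[p])) =
      (X, 0) * (X', 0) - (X', 0) * (X, 0) := by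
    refine Prod.ext rfl (Prod.ext ?_ ?_)
    · change (0 : A) = 0 * 0 - 0 * 0
      simp
    · change (0 : ℤ_[p]) = 0 * 0 - 0 * 0
      simp
  rw [e1, e2]
  simp only [mul_add, add_mul, smul_mul_assoc, mul_smul_comm, pow_add]
  module

/-- **Transvections modulo `p` give all tangent vectors.** -/
theorem tan_of_transv (hp5 : 5 ≤ p) (halt : ∀ x, B x x = 0) (hππ : ∀ q x, π q (π q x) = π q x)
    (hππ' : ∀ q r x, q ≠ r → π q (π r x) = 0) (hBπ : ∀ q x y, B (π q x) y = B x (π q y))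
    (hB : ∀ s x y, B (ρ s x) (ρ s y) = (κ s : ℤ_[p]) * B x y)
    (hπρ : ∀ q s x, π q (ρ s x) = ρ s (π q x)) {i : ι} {K : Type*} (v : K → T)
    (hne : ∃ u w, IsUnit (B (π i u) w))
    (hconn : ∀ k l, Relation.ReflTransGen (fun a b => IsUnit (B (v a) (v b))) k l)
    (hspan : ∀ x, ∃ y ∈ Submodule.span ℤ_[p] (Set.range v), ∃ z, π i x = y + (p : ℤ_[p]) • z)
    (hv : ∀ k, ∃ (g : Γ) (c : ℤ_[p]), IsUnit c ∧
      (∃ Z, ρ g = 1 + (c • so B (v k) (v k) + (p : ℤ_[p]) • Z)) ∧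
      (∃ M, t g = 1 + (p : ℤ_[p]) • M) ∧ ∃ z, (κ g : ℤ_[p]) = 1 + (p : ℤ_[p]) • z)
    {X : Module.End ℤ_[p] T} (hX : X ∈ Si B π i) : TanA p (RR ρ κ t) (X, 0) := by
  have h1 : Si B π i ≤ Pb ρ κ t 1 := by
    refine Si_le_of_connected (by omega) halt v hconn hspan (fun X hX X' hX' => Pb_bracket hX hX')
      p_mem_P1 fun k => ?_
    obtain ⟨g, c, hc, hg, hgt, hgκ⟩ := hv k
    refine mem_of_smul_unit hc (transv_mem hp5 ?_ hg hgt hgκ)
    have h3 : so B (v k) (v k) * so B (v k) (v k) = 0 := by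
      ext x
      simp only [Module.End.mul_apply, so_apply, map_add, map_smul, halt, smul_zero, add_zero,
        zero_smul, LinearMap.zero_apply]
    rw [smul_mul_smul_comm, h3, smul_zero]
  have h2 : ∀ n, Si B π i ≤ Pb ρ κ t (2 ^ n) := by
    intro n
    induction n with
    | zero => exact h1
    | succ n ih =>
      rw [pow_succ, mul_two]
      exact Si_le_of_brackets (by omega) halt hππ hBπ hne fun X hX X' hX' =>
        Pb_double halt hππ hππ' hBπ hB hπρ ih hX hX'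
  refine TanA_closed fun b => ?_
  obtain ⟨Z, hZ⟩ := h2 b hX
  obtain ⟨k, hk⟩ : ∃ k, 2 ^ b = b + k := ⟨2 ^ b - b, by have := (Nat.lt_two_pow_self (n := b)).le; omega⟩
  refine ⟨(p : ℤ_[p]) ^ k • Z, ?_⟩
  rw [smul_smul, ← pow_add, ← hk]
  exact hZ

end main

end

end Pool.Agent.U175.LP
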