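import Mathlib
import Pool.Agent.U175.LP.T3

/-!
# Lifting tangent vectors along homomorphisms of p-adic algebras
-/

set_option linter.unusedSectionVars false

namespace Pool.Agent.U175.LP

open PadicInt Module

noncomputable section

variable {p : ℕ} [hp : Fact p.Prime]

theorem TanA_cancel {A : Type*} [Ring A] [Algebra ℤ_[p] A] {Γ : Type*} [Group Γ] {R : Γ →* A}
    {X : A} (h : TanA p R ((p : ℤ_[p]) • X)) : TanA p R X := by
  intro m
  obtain ⟨n₁, h1⟩ := h (m + 1)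
  refine ⟨n₁ + 1, fun n hn => ?_⟩
  obtain ⟨k, rfl⟩ : ∃ k, n = k + 1 := ⟨n - 1, by omega⟩
  obtain ⟨σ, Z, hσ⟩ := h1 k (by omega)
  refine ⟨σ, Z, ?_⟩
  rw [hσ]
  simp only [pow_succ]
  module

theorem TanA_cancel_pow {A : Type*} [Ring A] [Algebra ℤ_[p] A] {Γ : Type*} [Group Γ] {R : Γ →* A}
    {X : A} (n : ℕ) (h : TanA p R ((p : ℤ_[p]) ^ n • X)) : TanA p R X := by
  induction n with
  | zero => rwa [pow_zero, one_smul] at h
  | succ n ih =>
    rw [pow_succ', mul_smul] at h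
    exact ih (TanA_cancel h)

theorem TanA_cancel_ne {A : Type*} [Ring A] [Algebra ℤ_[p] A] {Γ : Type*} [Group Γ] {R : Γ →* A}
    {X : A} {r : ℤ_[p]} (hr : r ≠ 0) (h : TanA p R (r • X)) : TanA p R X := by
  have h1 := PadicInt.unitCoeff_spec hr
  refine TanA_cancel_pow r.valuation ?_
  have h2 := TanA_smul ((((PadicInt.unitCoeff hr)⁻¹ : ℤ_[p]ˣ) : ℤ_[p])) h
  rw [smul_smul] at h2
  have h3 : ((((PadicInt.unitCoeff hr)⁻¹ : ℤ_[p]ˣ) : ℤ_[p])) * r = (p : ℤ_[p]) ^ r.valuation := by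
    calc _ = ((((PadicInt.unitCoeff hr)⁻¹ : ℤ_[p]ˣ) : ℤ_[p])) *
          (((PadicInt.unitCoeff hr : ℤ_[p]ˣ) : ℤ_[p]) * (p : ℤ_[p]) ^ r.valuation) :=
          congrArg _ h1
      _ = _ := by rw [← mul_assoc, Units.inv_mul, one_mul]
  rwa [h3] at h2

/-! ### logarithms -/

section log

variable {A : Type*} [Ring A] [Algebra ℤ_[p] A] {Γ : Type*} [Group Γ]

/-- `L` is `1 / p` times the logarithm of `R s`. -/
def IsLog (R : Γ →* A) (s : Γ) (L : A) : Prop :=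
  ∀ n : ℕ, ∃ Z, R (s ^ p ^ n) = 1 + (p : ℤ_[p]) ^ (n + 1) • (L + (p : ℤ_[p]) ^ n • Z)

theorem IsLog.tan {R : Γ →* A} {s : Γ} {L : A} (h : IsLog (p := p) R s L) : TanA p R L := by
  intro m
  refine ⟨m + 1, fun n hn => ?_⟩
  obtain ⟨k, rfl⟩ : ∃ k, n = m + k + 1 := ⟨n - m - 1, by omega⟩
  obtain ⟨Z, hZ⟩ := h (m + k)
  refine ⟨s ^ p ^ (m + k), (p : ℤ_[p]) ^ k • Z, ?_⟩
  rw [hZ, smul_smul, ← pow_add]

theorem IsLog.unique [Module.Finite ℤ_[p] A] [Module.Free ℤ_[p] A] {R : Γ →* A} {s : Γ} {L L' : A}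
    (h : IsLog (p := p) R s L) (h' : IsLog (p := p) R s L') : L = L' := by
  refine sub_eq_zero.1 (eq_zero_of_dvd_pow' (p := p) fun m => ?_)
  obtain ⟨Z, hZ⟩ := h m
  obtain ⟨Z', hZ'⟩ := h' m
  rw [hZ] at hZ'
  have h1 := p_cancel (add_left_cancel hZ')
  refine ⟨Z' - Z, ?_⟩
  rw [smul_sub, sub_eq_sub_iff_add_eq_add, h1]
  abel

theorem IsLog.map {A' : Type*} [Ring A'] [Algebra ℤ_[p] A'] (f : A →ₗ[ℤ_[p]] A') (h1 : f 1 = 1)
    {R : Γ →* A} {R' : Γ →* A'} (hR : ∀ s, f (R s) = R' s)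
    {s : Γ} {L : A} (h : IsLog (p := p) R s L) : IsLog (p := p) R' s (f L) := by
  intro n
  obtain ⟨Z, hZ⟩ := h n
  refine ⟨f Z, ?_⟩
  rw [← hR, hZ, map_add, h1, map_smul, map_add, map_smul]

/-- Logarithms of elements congruent to one. -/
theorem exists_isLog (hp3 : 3 ≤ p) [Module.Finite ℤ_[p] A] [Module.Free ℤ_[p] A]
    {R : Γ →* A} {s : Γ} {a : ℕ} {V : A} (h0 : R s = 1 + (p : ℤ_[p]) ^ (a + 1) • V) :
    ∃ Z, IsLog (p := p) R s ((p : ℤ_[p]) ^ a • (V + (p : ℤ_[p]) ^ (a + 1) • Z)) := by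
  choose F hF using fun (m : ℕ) (Y : A) => pow_step (A := A) hp3 (a + m + 1) (by omega) Y
  let Y : ℕ → A := fun n => Nat.rec V (fun n Y => Y + (p : ℤ_[p]) ^ (a + n + 1) • F n Y) n
  have hY0 : Y 0 = V := rfl
  have hYs : ∀ n, Y (n + 1) = Y n + (p : ℤ_[p]) ^ (a + n + 1) • F n (Y n) := fun n => rfl
  have hpow : ∀ n, R (s ^ p ^ n) = 1 + (p : ℤ_[p]) ^ (a + n + 1) • Y n := by
    intro n
    induction n with
    | zero => rw [pow_zero, pow_one, add_zero, h0, hY0]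
    | succ n ih =>
      rw [pow_succ p n, pow_mul, map_pow, ih, hF n, hYs]
      rfl
  obtain ⟨L, hL⟩ := exists_limit A Y fun n => ⟨(p : ℤ_[p]) ^ (a + 1) • F n (Y n), by
    rw [hYs, add_sub_cancel_left, smul_smul, ← pow_add]
    congr 2
    omega⟩
  have key : ∀ n, ∃ Z, L - Y n = (p : ℤ_[p]) ^ (a + n + 1) • Z := by
    intro n
    obtain ⟨Z, hZ⟩ := hL (a + n + 1)
    have h1 : ∀ k, ∃ Z, Y (n + k) - Y n = (p : ℤ_[p]) ^ (a + n + 1) • Z := by
      intro k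
      induction k with
      | zero => exact ⟨0, by simp⟩
      | succ k ih =>
        obtain ⟨Z, hZ⟩ := ih
        refine ⟨Z + (p : ℤ_[p]) ^ k • F (n + k) (Y (n + k)), ?_⟩
        have e : a + (n + k) + 1 = a + n + 1 + k := by omega
        rw [← add_assoc n k 1, hYs, e, pow_add, smul_add, ← hZ]
        module
    obtain ⟨Z', hZ'⟩ := h1 (a + 1)
    have e : n + (a + 1) = a + n + 1 := by omega
    rw [e] at hZ'
    exact ⟨Z + Z', by rw [smul_add, ← hZ, ← hZ']; abel⟩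
  obtain ⟨Z₀, hZ₀⟩ := key 0
  refine ⟨Z₀, fun n => ?_⟩
  have hL0 : V + (p : ℤ_[p]) ^ (a + 1) • Z₀ = L := by
    rw [hY0, add_zero] at hZ₀
    rw [← hZ₀]
    abel
  rw [hL0]
  obtain ⟨Z, hZ⟩ := key n
  refine ⟨-((p : ℤ_[p]) ^ (a + a + 1) • Z), ?_⟩
  rw [hpow]
  have h1 : Y n = L - (p : ℤ_[p]) ^ (a + n + 1) • Z := by
    rw [← hZ]
    abel
  have e1 : (p : ℤ_[p]) ^ (a + n + 1) = (p : ℤ_[p]) ^ (n + 1) * (p : ℤ_[p]) ^ a := by
    rw [← pow_add]
    congr 1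
    omega
  have e2 : (p : ℤ_[p]) ^ (a + n + 1) * (p : ℤ_[p]) ^ (a + n + 1) =
      (p : ℤ_[p]) ^ (n + 1) * ((p : ℤ_[p]) ^ n * (p : ℤ_[p]) ^ (a + a + 1)) := by
    rw [← pow_add, ← pow_add, ← pow_add]
    congr 1
    omega
  have e3 : (p : ℤ_[p]) ^ (a + n + 1) • (L - (p : ℤ_[p]) ^ (a + n + 1) • Z) =
      (p : ℤ_[p]) ^ (a + n + 1) • L - ((p : ℤ_[p]) ^ (a + n + 1) * (p : ℤ_[p]) ^ (a + n + 1)) • Z := by
    module
  rw [h1, e3, e2, e1]
  module

end log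

/-! ### powers congruent to one -/

theorem finite_quot {A : Type*} [Ring A] [Algebra ℤ_[p] A] [Module.Finite ℤ_[p] A]
    [Module.Free ℤ_[p] A] {Γ : Type*} [Group Γ] (R : Γ →* A) :
    ∃ e : ℕ, 0 < e ∧ ∀ s, ∃ V, R (s ^ e) = 1 + (p : ℤ_[p]) • V := by
  classical
  -- the subgroup of the elements congruent to one
  let H : Subgroup Γ :=
    { carrier := {s | ∃ V, R s = 1 + (p : ℤ_[p]) • V}
      one_mem' := ⟨0, by rw [map_one, smul_zero, add_zero]⟩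
      mul_mem' := by
        rintro s s' ⟨V, hV⟩ ⟨V', hV'⟩
        refine ⟨V + V' + (p : ℤ_[p]) • (V * V'), ?_⟩
        rw [map_mul, hV, hV']
        simp only [mul_add, add_mul, one_mul, mul_one, mul_smul_comm, smul_mul_assoc]
        module
      inv_mem' := by
        rintro s ⟨V, hV⟩
        refine ⟨-(R s⁻¹ * V), ?_⟩
        have h2 : R s⁻¹ * R s = 1 := by rw [← map_mul, inv_mul_cancel, map_one]
        rw [hV, mul_add, mul_one, mul_smul_comm] at h2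
        rw [smul_neg, ← h2]
        abel }
  -- the reduction
  let b := Module.Free.chooseBasis ℤ_[p] A
  let red : A → (Module.Free.ChooseBasisIndex ℤ_[p] A → ZMod p) := fun x i => toZMod (b.repr x i)
  have hred : ∀ x y, red x = red y → ∃ z, x = y + (p : ℤ_[p]) • z := by
    intro x y hxy
    have h1 : ∀ i, ∃ z, b.repr x i - b.repr y i = (p : ℤ_[p]) * z := by
      intro i
      have h2 : (toZMod (b.repr x i - b.repr y i) : ZMod p) = 0 := by
        rw [map_sub, sub_eq_zero]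
        exact congrFun hxy i
      rw [← RingHom.mem_ker, PadicInt.ker_toZMod, PadicInt.maximalIdeal_eq_span_p,
        Ideal.mem_span_singleton] at h2
      exact h2
    choose z hz using h1
    refine ⟨b.equivFun.symm z, ?_⟩
    apply b.equivFun.injective
    rw [map_add, map_smul, LinearEquiv.apply_symm_apply]
    funext i
    rw [Pi.add_apply, Pi.smul_apply, smul_eq_mul, ← hz]
    simp only [Module.Basis.equivFun_apply]
    ring
  let f : Γ ⧸ H → (Module.Free.ChooseBasisIndex ℤ_[p] A → ZMod p) := fun q => red (R q.out)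
  have hinj : Function.Injective f := by
    intro q q' hqq
    obtain ⟨z, hz⟩ := hred _ _ hqq
    rw [← q.out_eq', ← q'.out_eq']
    refine (QuotientGroup.eq.2 ?_).symm
    refine ⟨R (q'.out)⁻¹ * z, ?_⟩
    have h2 : R (q'.out)⁻¹ * R q'.out = 1 := by rw [← map_mul, inv_mul_cancel, map_one]
    rw [map_mul, hz, mul_add, h2, mul_smul_comm]
  have hfin : Finite (Γ ⧸ H) := Finite.of_injective f hinj
  have hidx : H.index ≠ 0 := by
    rw [Subgroup.index]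
    exact Nat.card_pos.ne'
  refine ⟨H.index.factorial, Nat.factorial_pos _, fun s => ?_⟩
  obtain ⟨n, hn0, hn, h⟩ := Subgroup.exists_pow_mem_of_index_ne_zero hidx s
  obtain ⟨c, hc⟩ := Nat.dvd_factorial hn0 hn
  rw [hc, pow_mul]
  exact H.pow_mem h c

/-! ### closed subspaces -/

theorem sat_mem {M : Type*} [AddCommGroup M] [Module ℤ_[p] M] [Module.Finite ℤ_[p] M]
    (P : Submodule ℤ_[p] M) {x : M} {e : ℤ_[p]} (he : e ≠ 0)
    (h : ∀ m : ℕ, ∃ (r : ℤ_[p]) (z : M), r ≠ 0 ∧ r • (e • x + (p : ℤ_[p]) ^ m • z) ∈ P) :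
    ∃ r : ℤ_[p], r ≠ 0 ∧ r • x ∈ P := by
  let Q : Submodule ℤ_[p] M :=
    { carrier := {y | ∃ r : ℤ_[p], r ≠ 0 ∧ r • y ∈ P}
      zero_mem' := ⟨1, one_ne_zero, by rw [smul_zero]; exact P.zero_mem⟩
      add_mem' := by
        rintro y y' ⟨r, hr, hy⟩ ⟨r', hr', hy'⟩
        refine ⟨r * r', mul_ne_zero hr hr', ?_⟩
        rw [smul_add, mul_comm, mul_smul, mul_comm, mul_smul]
        exact P.add_mem (P.smul_mem _ hy) (P.smul_mem _ hy')
      smul_mem' := by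
        rintro c y ⟨r, hr, hy⟩
        refine ⟨r, hr, ?_⟩
        rw [smul_comm]
        exact P.smul_mem _ hy }
  have htf : Module.IsTorsionFree ℤ_[p] (M ⧸ Q) := by
    rw [Module.isTorsionFree_iff_smul_eq_zero]
    intro r y hy
    induction y using Submodule.Quotient.induction_on with
    | H y =>
      rw [← Submodule.Quotient.mk_smul, Submodule.Quotient.mk_eq_zero] at hy
      by_cases hr : r = 0
      · exact Or.inl hr
      · refine Or.inr ?_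
        rw [Submodule.Quotient.mk_eq_zero]
        obtain ⟨r', hr', h1⟩ := hy
        exact ⟨r' * r, mul_ne_zero hr' hr, by rwa [mul_smul]⟩
  have hfree : Module.Free ℤ_[p] (M ⧸ Q) := inferInstance
  have h1 : (Submodule.Quotient.mk (e • x) : M ⧸ Q) = 0 := by
    refine eq_zero_of_dvd_pow' (p := p) fun m => ?_
    obtain ⟨r, z, hr, hz⟩ := h m
    refine ⟨-Submodule.Quotient.mk z, ?_⟩
    have h2 : (Submodule.Quotient.mk (e • x + (p : ℤ_[p]) ^ m • z) : M ⧸ Q) = 0 := by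
      rw [Submodule.Quotient.mk_eq_zero]
      exact ⟨r, hr, hz⟩
    rw [Submodule.Quotient.mk_add, Submodule.Quotient.mk_smul (x := z)] at h2
    rw [smul_neg]
    exact eq_neg_of_add_eq_zero_left h2
  rw [Submodule.Quotient.mk_eq_zero] at h1
  obtain ⟨r, hr, h2⟩ := h1
  exact ⟨r * e, mul_ne_zero hr he, by rwa [mul_smul]⟩

/-- **Lifting of tangent vectors.** -/
theorem TanA_lift (hp3 : 3 ≤ p) {A A' : Type*} [Ring A] [Algebra ℤ_[p] A] [Ring A']
    [Algebra ℤ_[p] A'] [Module.Finite ℤ_[p] A] [Module.Free ℤ_[p] A] [Module.Finite ℤ_[p] A']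
    [Module.Free ℤ_[p] A'] {Γ : Type*} [Group Γ] {R : Γ →* A} {R' : Γ →* A'}
    (f : A →ₗ[ℤ_[p]] A') (hf1 : f 1 = 1) (hR : ∀ s, f (R s) = R' s) {X : A'}
    (h : TanA p R' X) :
    ∃ (r : ℤ_[p]) (Y : A), r ≠ 0 ∧ TanA p R Y ∧ f Y = r • X := by
  obtain ⟨e, he0, he⟩ := finite_quot (p := p) R
  let P : Submodule ℤ_[p] A' :=
    { carrier := {x | ∃ Y, TanA p R Y ∧ f Y = x}
      zero_mem' := ⟨0, TanA_zero, map_zero f⟩
      add_mem' := by
        rintro _ _ ⟨Y, hY, rfl⟩ ⟨Y', hY', rfl⟩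
        exact ⟨Y + Y', TanA_add hY hY', map_add f _ _⟩
      smul_mem' := by
        rintro c _ ⟨Y, hY, rfl⟩
        exact ⟨c • Y, TanA_smul c hY, map_smul f _ _⟩ }
  have hee : ((e : ℕ) : ℤ_[p]) ≠ 0 := by exact_mod_cast he0.ne'
  obtain ⟨r, hr, Y, hY, h1⟩ := sat_mem P (x := X) hee fun m => by
    obtain ⟨n₀, h0⟩ := h m
    obtain ⟨σ, Z, hσ⟩ := h0 (max n₀ m + 1) (by omega)
    obtain ⟨k, hk⟩ : ∃ k, max n₀ m = m + k := ⟨max n₀ m - m, by omega⟩
    rw [hk] at hσ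
    obtain ⟨V, hV⟩ := he σ
    obtain ⟨V', hV'⟩ := pow_lin (p := p) (X + (p : ℤ_[p]) ^ m • Z) (m + k + 1) e
    obtain ⟨Z₁, hZ₁⟩ := exists_isLog hp3 (R := R) (s := σ ^ e) (a := 0) (V := V) (by
      rw [zero_add, pow_one]
      exact hV)
    obtain ⟨Z₂, hZ₂⟩ := exists_isLog hp3 (R := R') (s := σ ^ e) (a := m + k)
      (V := (e : ℤ_[p]) • (X + (p : ℤ_[p]) ^ m • Z) + (p : ℤ_[p]) ^ (m + k + 1) • V') (by
        rw [map_pow, hσ, hV', pow_add (p : ℤ_[p]) (m + k + 1) (m + k + 1)]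
        module)
    have h3 := IsLog.unique (hZ₁.map f hf1 hR) hZ₂
    refine ⟨(p : ℤ_[p]) ^ (m + k), (e : ℤ_[p]) • Z + (p : ℤ_[p]) ^ (k + 1) • V' +
      (p : ℤ_[p]) ^ (k + 1) • Z₂, pow_ne_zero _ p_ne_zero, _, hZ₁.tan, ?_⟩
    rw [h3]
    have e1 : (p : ℤ_[p]) ^ (m + k + 1) = (p : ℤ_[p]) ^ m * (p : ℤ_[p]) ^ (k + 1) := by
      rw [← pow_add]
      congr 1
    rw [e1]
    module
  exact ⟨r, Y, hr, hY, h1⟩

end

end Pool.Agent.U175.LP
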