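import Mathlib

/-!
# Hyperbolic bases from spanning sets of transvection vectors
-/

set_option autoImplicit false
set_option linter.unusedSectionVars false

namespace Pool.Agent.U175.LP

open Module

noncomputable section

section sk

variable {k : Type*} [Field k] {V : Type*} [AddCommGroup V] [Module k V] (B : V →ₗ[k] V →ₗ[k] k)

/-- The symmetric product of two vectors, as an operator. -/
def sk (u w : V) : Module.End k V := (B u).smulRight w + (B w).smulRight u

theorem sk_apply (u w x : V) : sk B u w x = B u x • w + B w x • u := rfl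

theorem sk_comm (u w : V) : sk B u w = sk B w u := add_comm _ _

theorem sk_add_left (u u' w : V) : sk B (u + u') w = sk B u w + sk B u' w := by
  ext x
  simp only [sk_apply, LinearMap.add_apply, map_add, smul_add, add_smul]
  abel

theorem sk_smul_left (c : k) (u w : V) : sk B (c • u) w = c • sk B u w := by
  ext x
  simp only [sk_apply, LinearMap.smul_apply, map_smul, smul_add, smul_smul, smul_eq_mul]
  rw [mul_comm (B w x) c]

theorem sk_add_right (u w w' : V) : sk B u (w + w') = sk B u w + sk B u w' := by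
  rw [sk_comm, sk_add_left, sk_comm B w, sk_comm B w']

theorem sk_smul_right (c : k) (u w : V) : sk B u (c • w) = c • sk B u w := by
  rw [sk_comm, sk_smul_left, sk_comm]

theorem Bk_anti (halt : ∀ x, B x x = 0) (x y : V) : B x y = -B y x := by
  have h1 := halt (x + y)
  simp only [map_add, LinearMap.add_apply, halt] at h1
  linear_combination h1

theorem bracket_sk (halt : ∀ x, B x x = 0) (a b u w : V) :
    sk B a b * sk B u w - sk B u w * sk B a b = sk B (sk B a b u) w + sk B u (sk B a b w) := by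
  ext x
  have h3 : B b u = -B u b := Bk_anti B halt _ _
  have h4 : B a u = -B u a := Bk_anti B halt _ _
  have h5 : B b w = -B w b := Bk_anti B halt _ _
  have h6 : B a w = -B w a := Bk_anti B halt _ _
  simp only [LinearMap.sub_apply, Module.End.mul_apply, sk_apply, LinearMap.add_apply,
    LinearMap.smul_apply, map_add, map_smul, smul_eq_mul, h3, h4, h5, h6]
  module

variable {B} {L : Submodule k (Module.End k V)}

theorem sk_mem_pair (h2 : (2 : k) ≠ 0) (halt : ∀ x, B x x = 0)
    (hL : ∀ X ∈ L, ∀ Y ∈ L, X * Y - Y * X ∈ L) {u f : V} (hu : sk B u u ∈ L) (hf : sk B f f ∈ L)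
    (h : B u f ≠ 0) : sk B u f ∈ L := by
  have h3 := hL _ hu _ hf
  rw [bracket_sk B halt, sk_apply, sk_add_left, sk_add_right, sk_comm B f, sk_smul_left] at h3
  have h4 : B u f • sk B u f + B u f • sk B u f + (B u f • sk B u f + B u f • sk B u f) =
      (2 * 2 * B u f) • sk B u f := by module
  rw [h4] at h3
  have h5 : (2 * 2 * B u f) ≠ 0 := mul_ne_zero (mul_ne_zero h2 h2) h
  have h6 := L.smul_mem (2 * 2 * B u f)⁻¹ h3
  rwa [smul_smul, inv_mul_cancel₀ h5, one_smul] at h6

theorem sk_mem_trans (h2 : (2 : k) ≠ 0) (halt : ∀ x, B x x = 0)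
    (hL : ∀ X ∈ L, ∀ Y ∈ L, X * Y - Y * X ∈ L) {v u f : V} (hvu : sk B v u ∈ L)
    (huf : sk B u f ∈ L) (hf : sk B f f ∈ L) (h : B u f ≠ 0) : sk B v f ∈ L := by
  have h3 := hL _ hvu _ hf
  rw [bracket_sk B halt, sk_comm B f (sk B v u f), sk_apply, sk_add_left, sk_smul_left,
    sk_smul_left] at h3
  have h5 := L.sub_mem h3 (L.smul_mem (2 * B v f) huf)
  have h4 : B v f • sk B u f + B u f • sk B v f + (B v f • sk B u f + B u f • sk B v f) -
      (2 * B v f) • sk B u f = (2 * B u f) • sk B v f := by module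
  rw [h4] at h5
  have h6 : (2 * B u f) ≠ 0 := mul_ne_zero h2 h
  have h7 := L.smul_mem (2 * B u f)⁻¹ h5
  rwa [smul_smul, inv_mul_cancel₀ h6, one_smul] at h7

theorem sk_mem_proj (h2 : (2 : k) ≠ 0) (halt : ∀ x, B x x = 0)
    (hL : ∀ X ∈ L, ∀ Y ∈ L, X * Y - Y * X ∈ L) {v u f : V} (hv : sk B v v ∈ L)
    (hu : sk B u u ∈ L) (hf : sk B f f ∈ L) (huf1 : B u f = 1) :
    sk B (v + (-B v f) • u + B v u • f) (v + (-B v f) • u + B v u • f) ∈ L := by
  have hfu1 : B f u = -1 := by rw [Bk_anti B halt, huf1]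
  have huf : sk B u f ∈ L := sk_mem_pair h2 halt hL hu hf (by rw [huf1]; exact one_ne_zero)
  by_cases h0 : B v u = 0 ∧ B v f = 0
  · rw [h0.1, h0.2, neg_zero, zero_smul, zero_smul, add_zero, add_zero]
    exact hv
  · have h3 : sk B v u ∈ L ∧ sk B v f ∈ L := by
      rcases not_and_or.1 h0 with h | h
      · have h4 := sk_mem_pair h2 halt hL hv hu h
        exact ⟨h4, sk_mem_trans h2 halt hL h4 huf hf (by rw [huf1]; exact one_ne_zero)⟩
      · have h4 := sk_mem_pair h2 halt hL hv hf h
        exact ⟨sk_mem_trans h2 halt hL h4 (by rw [sk_comm]; exact huf) hu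
          (by rw [hfu1]; exact neg_ne_zero.2 one_ne_zero), h4⟩
    simp only [sk_add_left, sk_add_right, sk_smul_left, sk_smul_right, sk_comm B u v,
      sk_comm B f v, sk_comm B f u]
    repeat' first
      | exact hv
      | exact h3.1
      | exact h3.2
      | exact hu
      | exact hf
      | exact huf
      | refine L.add_mem ?_ ?_
      | refine L.smul_mem _ ?_

variable (B L) in
/-- A hyperbolic family of vectors of transvections. -/
structure Hyp (m : ℕ) (u f : Fin m → V) : Prop where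
  uf : ∀ i j, B (u i) (f j) = if i = j then 1 else 0
  uu : ∀ i j, B (u i) (u j) = 0
  ff : ∀ i j, B (f i) (f j) = 0
  hu : ∀ i, sk B (u i) (u i) ∈ L
  hf : ∀ i, sk B (f i) (f i) ∈ L

variable (B) in
/-- The projection to the orthogonal complement. -/
def prj {m : ℕ} (u f : Fin m → V) (s : Finset (Fin m)) (v : V) : V :=
  v + ∑ i ∈ s, ((-B v (f i)) • u i + B v (u i) • f i)

variable {m : ℕ} {u f : Fin m → V}

theorem Hyp.fu (halt : ∀ x, B x x = 0) (h : Hyp B L m u f) (i j : Fin m) :
    B (f i) (u j) = if i = j then -1 else 0 := by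
  rw [Bk_anti B halt, h.uf]
  by_cases hij : i = j
  · rw [if_pos hij, if_pos hij.symm]
  · rw [if_neg hij, if_neg (Ne.symm hij), neg_zero]

theorem Hyp.prj_u (halt : ∀ x, B x x = 0) (h : Hyp B L m u f) (s : Finset (Fin m)) (v : V)
    (j : Fin m) : B (prj B u f s v) (u j) = if j ∈ s then 0 else B v (u j) := by
  rw [prj, map_add, LinearMap.add_apply, map_sum, LinearMap.sum_apply]
  have h1 : ∀ i ∈ s, B ((-B v (f i)) • u i + B v (u i) • f i) (u j) =
      if i = j then -B v (u j) else 0 := by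
    intro i _
    rw [map_add, LinearMap.add_apply, map_smul, map_smul, LinearMap.smul_apply,
      LinearMap.smul_apply, h.uu, h.fu halt, smul_zero, zero_add, smul_eq_mul]
    by_cases hij : i = j
    · rw [if_pos hij, if_pos hij, hij, mul_neg_one]
    · rw [if_neg hij, if_neg hij, mul_zero]
  rw [Finset.sum_congr rfl h1, Finset.sum_ite_eq']
  by_cases hj : j ∈ s
  · rw [if_pos hj, if_pos hj, add_neg_cancel]
  · rw [if_neg hj, if_neg hj, add_zero]

theorem Hyp.prj_f (h : Hyp B L m u f) (s : Finset (Fin m)) (v : V)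
    (j : Fin m) : B (prj B u f s v) (f j) = if j ∈ s then 0 else B v (f j) := by
  rw [prj, map_add, LinearMap.add_apply, map_sum, LinearMap.sum_apply]
  have h1 : ∀ i ∈ s, B ((-B v (f i)) • u i + B v (u i) • f i) (f j) =
      if i = j then -B v (f j) else 0 := by
    intro i _
    rw [map_add, LinearMap.add_apply, map_smul, map_smul, LinearMap.smul_apply,
      LinearMap.smul_apply, h.ff, h.uf, smul_zero, add_zero, smul_eq_mul]
    by_cases hij : i = j
    · rw [if_pos hij, if_pos hij, hij, mul_one]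
    · rw [if_neg hij, if_neg hij, mul_zero]
  rw [Finset.sum_congr rfl h1, Finset.sum_ite_eq']
  by_cases hj : j ∈ s
  · rw [if_pos hj, if_pos hj, add_neg_cancel]
  · rw [if_neg hj, if_neg hj, add_zero]

theorem Hyp.prj_mem (h2 : (2 : k) ≠ 0) (halt : ∀ x, B x x = 0)
    (hL : ∀ X ∈ L, ∀ Y ∈ L, X * Y - Y * X ∈ L) (h : Hyp B L m u f) {v : V} (hv : sk B v v ∈ L)
    (s : Finset (Fin m)) : sk B (prj B u f s v) (prj B u f s v) ∈ L := by
  classical
  induction s using Finset.induction_on with
  | empty =>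
    rw [prj, Finset.sum_empty, add_zero]
    exact hv
  | insert j s hj ih =>
    have h1 := sk_mem_proj h2 halt hL ih (h.hu j) (h.hf j) (by rw [h.uf, if_pos rfl])
    have h3 : prj B u f (insert j s) v = prj B u f s v + (-B (prj B u f s v) (f j)) • u j +
        B (prj B u f s v) (u j) • f j := by
      rw [h.prj_f, h.prj_u halt, if_neg hj, if_neg hj]
      rw [prj, prj, Finset.sum_insert hj]
      abel
    rw [h3]
    exact h1

/-- A hyperbolic family which does not span can be extended. -/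
theorem Hyp.extend (h2 : (2 : k) ≠ 0) (halt : ∀ x, B x x = 0)
    (hL : ∀ X ∈ L, ∀ Y ∈ L, X * Y - Y * X ∈ L) (hnd : ∀ v, (∀ w, B v w = 0) → v = 0)
    (hS : Submodule.span k {v | sk B v v ∈ L} = ⊤) (h : Hyp B L m u f)
    (hne : Submodule.span k (Set.range u ∪ Set.range f) ≠ ⊤) :
    ∃ u' f' : Fin (m + 1) → V, Hyp B L (m + 1) u' f' := by
  classical
  obtain ⟨v, hv, hv0⟩ : ∃ v, sk B v v ∈ L ∧ prj B u f Finset.univ v ≠ 0 := by
    by_contra hcon
    push Not at hcon
    refine hne (top_le_iff.1 ?_)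
    rw [← hS, Submodule.span_le]
    intro v hv
    have h1 := hcon v hv
    rw [prj, add_eq_zero_iff_eq_neg] at h1
    rw [SetLike.mem_coe, h1]
    refine Submodule.neg_mem _ (Submodule.sum_mem _ fun i _ => Submodule.add_mem _
      (Submodule.smul_mem _ _ (Submodule.subset_span (Or.inl ⟨i, rfl⟩)))
      (Submodule.smul_mem _ _ (Submodule.subset_span (Or.inr ⟨i, rfl⟩))))
  set a := prj B u f Finset.univ v with ha
  have haS : sk B a a ∈ L := h.prj_mem h2 halt hL hv _
  have hau : ∀ j, B a (u j) = 0 := fun j => by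
    rw [ha, h.prj_u halt, if_pos (Finset.mem_univ j)]
  have haf : ∀ j, B a (f j) = 0 := fun j => by
    rw [ha, h.prj_f, if_pos (Finset.mem_univ j)]
  obtain ⟨w, hw, hw0⟩ : ∃ w, sk B w w ∈ L ∧ B a w ≠ 0 := by
    by_contra hcon
    push Not at hcon
    refine hv0 (hnd a fun w => ?_)
    have h1 : Submodule.span k {v | sk B v v ∈ L} ≤ LinearMap.ker (B a) := by
      rw [Submodule.span_le]
      exact fun x hx => hcon x hx
    rw [hS] at h1
    exact h1 (Submodule.mem_top (x := w))
  set b := prj B u f Finset.univ w with hb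
  have hbS : sk B b b ∈ L := h.prj_mem h2 halt hL hw _
  have hbu : ∀ j, B b (u j) = 0 := fun j => by
    rw [hb, h.prj_u halt, if_pos (Finset.mem_univ j)]
  have hbf : ∀ j, B b (f j) = 0 := fun j => by
    rw [hb, h.prj_f, if_pos (Finset.mem_univ j)]
  have hab : B a b = B a w := by
    rw [hb, prj, map_add, map_sum, Finset.sum_eq_zero fun i _ => ?_, add_zero]
    rw [map_add, map_smul, map_smul, hau, haf, smul_zero, smul_zero, add_zero]
  have hab0 : B a b ≠ 0 := by rw [hab]; exact hw0
  refine ⟨Fin.snoc u a, Fin.snoc f ((B a b)⁻¹ • b), ?_, ?_, ?_, ?_, ?_⟩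
  · intro i j
    refine Fin.lastCases ?_ (fun i => ?_) i <;> refine Fin.lastCases ?_ (fun j => ?_) j
    · rw [Fin.snoc_last, Fin.snoc_last, map_smul, smul_eq_mul, inv_mul_cancel₀ hab0, if_pos rfl]
    · rw [Fin.snoc_last, Fin.snoc_castSucc, haf, if_neg (Fin.castSucc_lt_last j).ne']
    · rw [Fin.snoc_last, Fin.snoc_castSucc, map_smul, Bk_anti B halt (u i) b, hbu, neg_zero,
        smul_zero, if_neg (Fin.castSucc_lt_last i).ne]
    · rw [Fin.snoc_castSucc, Fin.snoc_castSucc, h.uf]
      simp only [Fin.castSucc_inj]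
  · intro i j
    refine Fin.lastCases ?_ (fun i => ?_) i <;> refine Fin.lastCases ?_ (fun j => ?_) j
    · rw [Fin.snoc_last, halt]
    · rw [Fin.snoc_last, Fin.snoc_castSucc, hau]
    · rw [Fin.snoc_last, Fin.snoc_castSucc, Bk_anti B halt, hau, neg_zero]
    · rw [Fin.snoc_castSucc, Fin.snoc_castSucc, h.uu]
  · intro i j
    refine Fin.lastCases ?_ (fun i => ?_) i <;> refine Fin.lastCases ?_ (fun j => ?_) j
    · rw [Fin.snoc_last, halt]
    · rw [Fin.snoc_last, Fin.snoc_castSucc, map_smul, LinearMap.smul_apply, hbf, smul_zero]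
    · rw [Fin.snoc_last, Fin.snoc_castSucc, map_smul, Bk_anti B halt (f i) b, hbf, neg_zero,
        smul_zero]
    · rw [Fin.snoc_castSucc, Fin.snoc_castSucc, h.ff]
  · intro i
    refine Fin.lastCases ?_ (fun i => ?_) i
    · rw [Fin.snoc_last]
      exact haS
    · rw [Fin.snoc_castSucc]
      exact h.hu i
  · intro i
    refine Fin.lastCases ?_ (fun i => ?_) i
    · rw [Fin.snoc_last, sk_smul_left, sk_smul_right]
      exact L.smul_mem _ (L.smul_mem _ hbS)
    · rw [Fin.snoc_castSucc]
      exact h.hf i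

theorem Hyp.li (halt : ∀ x, B x x = 0) (h : Hyp B L m u f) :
    LinearIndependent k (Sum.elim u f) := by
  rw [Fintype.linearIndependent_iff]
  intro g hg
  rw [Fintype.sum_sum_type] at hg
  simp only [Sum.elim_inl, Sum.elim_inr] at hg
  intro i
  rcases i with j | j
  · have h1 := congrArg (fun x => B x (f j)) hg
    simp only [map_add, map_sum, map_smul, LinearMap.add_apply, LinearMap.sum_apply,
      LinearMap.smul_apply, h.uf, h.ff, smul_eq_mul, mul_zero, Finset.sum_const_zero, add_zero,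
      map_zero, LinearMap.zero_apply, mul_ite, mul_one, Finset.sum_ite_eq',
      Finset.mem_univ, if_true] at h1
    exact h1
  · have h1 := congrArg (fun x => B x (u j)) hg
    simp only [map_add, map_sum, map_smul, LinearMap.add_apply, LinearMap.sum_apply,
      LinearMap.smul_apply, h.uu, h.fu halt, smul_eq_mul, mul_zero, Finset.sum_const_zero, zero_add,
      map_zero, LinearMap.zero_apply, mul_ite, mul_neg_one, Finset.sum_ite_eq',
      Finset.mem_univ, if_true] at h1
    exact neg_eq_zero.1 h1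

/-- **A hyperbolic basis of vectors of transvections.** -/
theorem exists_hyp [FiniteDimensional k V] (h2 : (2 : k) ≠ 0) (halt : ∀ x, B x x = 0)
    (hL : ∀ X ∈ L, ∀ Y ∈ L, X * Y - Y * X ∈ L) (hnd : ∀ v, (∀ w, B v w = 0) → v = 0)
    (hS : Submodule.span k {v | sk B v v ∈ L} = ⊤) :
    ∃ (m : ℕ) (u f : Fin m → V), Hyp B L m u f ∧
      Submodule.span k (Set.range u ∪ Set.range f) = ⊤ := by
  let Ms : Set ℕ := {m | ∃ u f : Fin m → V, Hyp B L m u f}
  have h0 : Ms.Nonempty := ⟨0, fun i => i.elim0, fun i => i.elim0,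
    ⟨fun i => i.elim0, fun i => i.elim0, fun i => i.elim0, fun i => i.elim0, fun i => i.elim0⟩⟩
  have hb : BddAbove Ms := by
    refine ⟨finrank k V, ?_⟩
    rintro m ⟨u, f, h⟩
    have h1 := (h.li halt).fintype_card_le_finrank
    rw [Fintype.card_sum, Fintype.card_fin] at h1
    omega
  obtain ⟨u, f, h⟩ := Nat.sSup_mem h0 hb
  refine ⟨_, u, f, h, ?_⟩
  by_contra hne
  have h1 : sSup Ms + 1 ∈ Ms := h.extend h2 halt hL hnd hS hne
  have h3 := le_csSup hb h1
  omega

end sk

section mat

variable {k : Type*} [Field k] {n : ℕ}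

/-- **Simultaneous diagonalization.** -/
theorem exists_torus {B : (Fin n → k) →ₗ[k] (Fin n → k) →ₗ[k] k}
    {L : Submodule k (Module.End k (Fin n → k))} (h2 : (2 : k) ≠ 0) (halt : ∀ x, B x x = 0)
    (hL : ∀ X ∈ L, ∀ Y ∈ L, X * Y - Y * X ∈ L) (hnd : ∀ v, (∀ w, B v w = 0) → v = 0)
    (hS : Submodule.span k {v | sk B v v ∈ L} = ⊤) :
    ∃ (m : ℕ), n = 2 * m ∧ ∃ (P : Matrix (Fin n) (Fin m ⊕ Fin m) k)
      (Q : Matrix (Fin m ⊕ Fin m) (Fin n) k), P * Q = 1 ∧ Q * P = 1 ∧
      ∀ i : Fin m, ∃ u f : Fin n → k, sk B u u ∈ L ∧ sk B f f ∈ L ∧ B u f = 1 ∧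
        LinearMap.toMatrix' (sk B u f) = P * Matrix.diagonal (Sum.elim
          (fun j => if j = i then (-1 : k) else 0) (fun j => if j = i then (1 : k) else 0)) * Q := by
  obtain ⟨m, u, f, h, hsp⟩ := exists_hyp h2 halt hL hnd hS
  let b : Basis (Fin m ⊕ Fin m) k (Fin n → k) := Basis.mk (h.li halt) (by
    rw [Set.Sum.elim_range, hsp])
  have hb : ∀ j, b j = Sum.elim u f j := fun j => by rw [Basis.mk_apply]
  have hn : n = 2 * m := by
    have h1 := Module.finrank_eq_card_basis b
    rw [Module.finrank_fin_fun, Fintype.card_sum, Fintype.card_fin] at h1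
    omega
  refine ⟨m, hn, (Pi.basisFun k (Fin n)).toMatrix b, b.toMatrix (Pi.basisFun k (Fin n)),
    Basis.toMatrix_mul_toMatrix_flip _ _, Basis.toMatrix_mul_toMatrix_flip _ _, fun i => ?_⟩
  refine ⟨u i, f i, h.hu i, h.hf i, by rw [h.uf, if_pos rfl], ?_⟩
  set P := (Pi.basisFun k (Fin n)).toMatrix b with hP
  set Q := b.toMatrix (Pi.basisFun k (Fin n)) with hQ
  have hPQ : P * Q = 1 := Basis.toMatrix_mul_toMatrix_flip _ _
  have h3 : LinearMap.toMatrix' (sk B (u i) (f i)) * P = P * Matrix.diagonal (Sum.elim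
          (fun j => if j = i then (-1 : k) else 0) (fun j => if j = i then (1 : k) else 0)) := by
    ext a j
    rw [Matrix.mul_diagonal]
    have h4 : (LinearMap.toMatrix' (sk B (u i) (f i)) * P) a j = (sk B (u i) (f i) (b j)) a := by
      rw [Matrix.mul_apply]
      have h5 := congrFun (LinearMap.toMatrix'_mulVec (sk B (u i) (f i)) (b j)) a
      rw [← h5]
      rfl
    rw [h4, hb, sk_apply]
    have h6 : P a j = Sum.elim u f j a := by rw [← hb]; rfl
    rw [h6]
    rcases j with j | j
    · simp only [Sum.elim_inl, h.uu, h.fu halt, zero_smul, zero_add]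
      by_cases hij : i = j
      · subst hij
        simp
      · rw [if_neg hij, if_neg (Ne.symm hij)]
        simp
    · simp only [Sum.elim_inr, h.uf, h.ff, zero_smul, add_zero]
      by_cases hij : i = j
      · subst hij
        simp
      · rw [if_neg hij, if_neg (Ne.symm hij)]
        simp
  rw [← h3, Matrix.mul_assoc, hPQ, Matrix.mul_one]

end mat

end

end Pool.Agent.U175.LP
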