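import Mathlib

/-!
# The product of all the sums of some of the numbers `a k` with signs
-/

set_option autoImplicit false

namespace Pool.Agent.U175.LP

open MvPolynomial

noncomputable section

variable (m : ℕ)

/-- The linear form with coefficients `0`, `1` and `-1`. -/
def lf (ε : Fin m → SignType) : MvPolynomial (Fin m) ℤ := ∑ k, C ((ε k : ℤ)) * X k

/-- The product of the nonzero linear forms with coefficients `0`, `1` and `-1`. -/
def pf : MvPolynomial (Fin m) ℤ := ∏ ε ∈ (Finset.univ : Finset (Fin m → SignType)).filter (· ≠ 0), lf m ε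

variable {m}

theorem lf_rename (σ : Equiv.Perm (Fin m)) (ε : Fin m → SignType) :
    rename σ (lf m ε) = lf m (ε ∘ σ.symm) := by
  rw [lf, lf, map_sum]
  rw [← Equiv.sum_comp σ (fun k => C (((ε ∘ σ.symm) k : ℤ)) * X k)]
  refine Finset.sum_congr rfl fun k _ => ?_
  rw [map_mul, rename_C, rename_X, Function.comp_apply, Equiv.symm_apply_apply]

theorem pf_symm : (pf m).IsSymmetric := by
  intro σ
  rw [pf, map_prod]
  refine Finset.prod_bij' (fun ε _ => ε ∘ σ.symm) (fun ε _ => ε ∘ σ) ?_ ?_ ?_ ?_ ?_
  · intro ε hε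
    rw [Finset.mem_filter] at hε ⊢
    refine ⟨Finset.mem_univ _, fun h => hε.2 ?_⟩
    funext k
    have h1 := congrFun h (σ k)
    rwa [Function.comp_apply, Equiv.symm_apply_apply] at h1
  · intro ε hε
    rw [Finset.mem_filter] at hε ⊢
    refine ⟨Finset.mem_univ _, fun h => hε.2 ?_⟩
    funext k
    have h1 := congrFun h (σ.symm k)
    rwa [Function.comp_apply, Equiv.apply_symm_apply] at h1
  · intro ε _
    funext k
    simp
  · intro ε _
    funext k
    simp
  · intro ε _
    exact lf_rename σ ε

/-- The change of the sign of one variable. -/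
def flip (j : Fin m) : MvPolynomial (Fin m) ℤ →ₐ[ℤ] MvPolynomial (Fin m) ℤ :=
  aeval fun k => if k = j then -X k else X k

/-- The change of one sign. -/
def flipS (j : Fin m) (ε : Fin m → SignType) : Fin m → SignType :=
  fun k => if k = j then -ε k else ε k

theorem flipS_flipS (j : Fin m) (ε : Fin m → SignType) : flipS j (flipS j ε) = ε := by
  funext k
  simp only [flipS]
  by_cases h : k = j
  · simp [h]
  · simp [h]

theorem flipS_ne {j : Fin m} {ε : Fin m → SignType} (h : ε ≠ 0) : flipS j ε ≠ 0 := by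
  intro h0
  apply h
  rw [← flipS_flipS j ε, h0]
  funext k
  simp [flipS]

theorem lf_flip (j : Fin m) (ε : Fin m → SignType) : flip j (lf m ε) = lf m (flipS j ε) := by
  rw [lf, lf, map_sum]
  refine Finset.sum_congr rfl fun k _ => ?_
  rw [map_mul, flip, aeval_C, aeval_X, flipS]
  by_cases h : k = j
  · rw [if_pos h, if_pos h]
    simp
  · rw [if_neg h, if_neg h]
    simp

theorem pf_flip (j : Fin m) : flip j (pf m) = pf m := by
  rw [pf, map_prod]
  refine Finset.prod_bij' (fun ε _ => flipS j ε) (fun ε _ => flipS j ε) ?_ ?_ ?_ ?_ ?_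
  · intro ε hε
    rw [Finset.mem_filter] at hε ⊢
    exact ⟨Finset.mem_univ _, flipS_ne hε.2⟩
  · intro ε hε
    rw [Finset.mem_filter] at hε ⊢
    exact ⟨Finset.mem_univ _, flipS_ne hε.2⟩
  · intro ε _
    exact flipS_flipS j ε
  · intro ε _
    exact flipS_flipS j ε
  · intro ε _
    exact lf_flip j ε

theorem flip_monomial (j : Fin m) (d : Fin m →₀ ℕ) (c : ℤ) :
    flip j (monomial d c) = (-1 : ℤ) ^ (d j) • monomial d c := by
  rw [flip, aeval_monomial, monomial_eq, Finsupp.prod_fintype _ _ (fun _ => pow_zero _),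
    Finsupp.prod_fintype _ _ (fun _ => pow_zero _)]
  have h1 : ∀ k : Fin m, (if k = j then -X k else X k : MvPolynomial (Fin m) ℤ) ^ d k =
      (if k = j then (-1 : MvPolynomial (Fin m) ℤ) ^ d j else 1) * X k ^ d k := by
    intro k
    by_cases h : k = j
    · subst h
      rw [if_pos rfl, if_pos rfl, neg_pow]
    · rw [if_neg h, if_neg h, one_mul]
  rw [Finset.prod_congr rfl fun k _ => h1 k, Finset.prod_mul_distrib, Finset.prod_ite_eq',
    if_pos (Finset.mem_univ j)]
  rw [zsmul_eq_mul]
  push_cast
  rw [eq_intCast]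
  have h2 : (C c : MvPolynomial (Fin m) ℤ) = (c : MvPolynomial (Fin m) ℤ) := by
    simp
  rw [h2]
  ring

theorem coeff_flip (j : Fin m) (q : MvPolynomial (Fin m) ℤ) (d : Fin m →₀ ℕ) :
    coeff d (flip j q) = (-1 : ℤ) ^ (d j) * coeff d q := by
  induction q using MvPolynomial.induction_on' with
  | monomial e c =>
    rw [flip_monomial, coeff_smul, coeff_monomial, smul_eq_mul]
    by_cases h : e = d
    · rw [if_pos h, h]
    · rw [if_neg h, mul_zero, mul_zero]
  | add q q' h h' => rw [map_add, coeff_add, h, h', coeff_add, mul_add]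

theorem pf_coeff {d : Fin m →₀ ℕ} (h : coeff d (pf m) ≠ 0) (j : Fin m) : Even (d j) := by
  by_contra hj
  rw [Nat.not_even_iff_odd] at hj
  have h1 := coeff_flip j (pf m) d
  rw [pf_flip, hj.neg_one_pow] at h1
  omega

variable (m) in
/-- The product of the linear forms as a polynomial in the squares of the variables. -/
def pg : MvPolynomial (Fin m) ℤ :=
  ∑ d ∈ (pf m).support, monomial (d.mapRange (· / 2) rfl) (coeff d (pf m))

theorem expand_pg : expand 2 (pg m) = pf m := by
  conv_rhs => rw [(pf m).as_sum]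
  rw [pg, map_sum]
  refine Finset.sum_congr rfl fun d hd => ?_
  rw [mem_support_iff] at hd
  rw [expand_monomial]
  have h1 : 2 • d.mapRange (· / 2) rfl = d := by
    ext k
    rw [Finsupp.smul_apply, Finsupp.mapRange_apply, smul_eq_mul]
    exact Nat.two_mul_div_two_of_even (pf_coeff hd k)
  rw [h1]

theorem pg_symm : (pg m).IsSymmetric := by
  intro σ
  apply expand_injective (n := 2) (by norm_num)
  rw [← rename_expand, expand_pg]
  exact pf_symm σ

variable (m) in
theorem exists_pq : ∃ q : MvPolynomial (Fin m) ℤ,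
    aeval (fun i : Fin m => esymm (Fin m) ℤ (i + 1)) q = pg m := by
  obtain ⟨q, hq⟩ := esymmAlgHom_surjective (σ := Fin m) ℤ (n := m) (by rw [Fintype.card_fin])
    ⟨pg m, pg_symm⟩
  refine ⟨q, ?_⟩
  rw [← esymmAlgHom_apply, hq]

variable (m) in
/-- The polynomial in the coefficients. -/
def pq : MvPolynomial (Fin m) ℤ := (exists_pq m).choose

theorem pq_spec : aeval (fun i : Fin m => esymm (Fin m) ℤ (i + 1)) (pq m) = pg m :=
  (exists_pq m).choose_spec

variable (m) in
/-- The function of the coefficients of a polynomial of degree `m`. -/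
def Phi {S : Type*} [CommRing S] (P : Polynomial S) : S :=
  aeval (fun i : Fin m => (-1) ^ (i.1 + 1) * P.coeff (m - (i.1 + 1))) (pq m)

theorem Phi_map {S S' : Type*} [CommRing S] [CommRing S'] (f : S →+* S') (P : Polynomial S) :
    Phi m (P.map f) = f (Phi m P) := by
  rw [Phi, Phi, map_aeval, aeval_def, coe_eval₂Hom]
  have h1 : f.comp (algebraMap ℤ S) = algebraMap ℤ S' := Subsingleton.elim _ _
  rw [h1]
  congr 1
  funext i
  rw [Polynomial.coeff_map, map_mul, map_pow, map_neg, map_one]

/-- The value for the polynomial with roots `y k`. -/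
theorem Phi_prod {S : Type*} [CommRing S] (y : Fin m → S) :
    Phi m (∏ k, (Polynomial.X - Polynomial.C (y k))) = aeval y (pg m) := by
  rw [← pq_spec, Phi]
  have h1 : aeval y (aeval (fun i : Fin m => esymm (Fin m) ℤ (i + 1)) (pq m)) =
      aeval (fun i : Fin m => aeval y (esymm (Fin m) ℤ (i + 1))) (pq m) := by
    rw [← AlgHom.comp_apply, comp_aeval]
  rw [h1]
  congr 2
  funext i
  rw [aeval_esymm_eq_multiset_esymm]
  have h2 : (∏ k, (Polynomial.X - Polynomial.C (y k))) =
      ((Finset.univ.val.map y).map fun t => Polynomial.X - Polynomial.C t).prod := by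
    rw [Multiset.map_map]
    rfl
  have h3 : Multiset.card (Finset.univ.val.map y) = m := by
    rw [Multiset.card_map, Finset.card_val, Finset.card_univ, Fintype.card_fin]
  have hi := i.2
  rw [h2, Multiset.prod_X_sub_C_coeff _ (by rw [h3]; omega), h3]
  have h4 : m - (m - (i.1 + 1)) = i.1 + 1 := by omega
  rw [h4, ← mul_assoc, ← mul_pow, neg_one_mul, neg_neg, one_pow, one_mul]

/-- The value for the polynomial with roots `a k ^ 2`. -/
theorem Phi_sq {S : Type*} [CommRing S] (a : Fin m → S) :
    Phi m (∏ k, (Polynomial.X - Polynomial.C (a k ^ 2))) =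
      ∏ ε ∈ (Finset.univ : Finset (Fin m → SignType)).filter (· ≠ 0), ∑ k, ((ε k : ℤ) : S) * a k := by
  rw [Phi_prod]
  have h1 : aeval (fun k => a k ^ 2) (pg m) = aeval a (expand 2 (pg m)) := by
    rw [aeval_expand]
    rfl
  rw [h1, expand_pg, pf, map_prod]
  refine Finset.prod_congr rfl fun ε _ => ?_
  rw [lf, map_sum]
  refine Finset.sum_congr rfl fun k _ => ?_
  rw [map_mul, aeval_C, aeval_X, eq_intCast]

end

end Pool.Agent.U175.LP
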