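import Mathlib
import Pool.Agent.R932.SQ.Near
import Pool.Agent.R932.OP.TypD
import Pool.Agent.U175.LP.R1
import Pool.Agent.U175.LP.R2

/-!
# Elements without isotropic relation from a torus modulo `p`
-/

set_option autoImplicit false
set_option linter.unusedSectionVars false

namespace Pool.Agent.U175.LP

open Matrix Pool.Agent.R932.SQ

noncomputable section

section torus

variable {k : Type} [Field k] {n m : ℕ}

/-- The sign vector which is nonzero at one index. -/
theorem sum_single {S : Type*} [CommRing S] (a : Fin m → S) (i : Fin m) (s : SignType) :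
    ∑ k, (((Pi.single i s : Fin m → SignType) k : ℤ) : S) * a k = ((s : ℤ) : S) * a i := by
  rw [Finset.sum_eq_single i]
  · rw [Pi.single_eq_same]
  · intro j _ hj
    rw [Pi.single_eq_of_ne hj]
    simp
  · intro h
    exact absurd (Finset.mem_univ i) h

/-- The linear forms are not zero. -/
theorem lin_ne {p : ℕ} [Fact p.Prime] {ε : Fin m → SignType} (hε : ε ≠ 0) :
    (∑ k, ((ε k : ℤ) : MvPolynomial (Fin m) (ZMod p)) * MvPolynomial.X k) ≠ 0 := by
  intro h
  obtain ⟨i, hi⟩ := Function.ne_iff.1 hε
  have h1 := congrArg (MvPolynomial.eval (Pi.single i 1)) h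
  rw [map_sum, Finset.sum_eq_single i, map_zero] at h1
  · simp only [map_mul, map_intCast, MvPolynomial.eval_X, Pi.single_eq_same, mul_one] at h1
    have h2 : ε i = 1 ∨ ε i = -1 := by
      rcases hh : ε i with _ | _ | _
      · exact absurd hh hi
      · exact Or.inr rfl
      · exact Or.inl rfl
    rcases h2 with h2 | h2
    · rw [h2] at h1
      simp at h1
    · rw [h2] at h1
      simp at h1
  · intro j _ hj
    simp [hj]
  · intro h
    exact absurd (Finset.mem_univ i) h

theorem charpoly_torus {S : Type*} [CommRing S] (hn : n = 2 * m)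
    (P : Matrix (Fin n) (Fin m ⊕ Fin m) S) (Q : Matrix (Fin m ⊕ Fin m) (Fin n) S)
    (hQP : Q * P = 1) (x : Fin m → S) :
    (P * diagonal (Sum.elim (fun j => -x j) x) * Q).charpoly =
      Polynomial.expand S 2 (∏ j, (Polynomial.X - Polynomial.C (x j ^ 2))) := by
  rw [Matrix.mul_assoc, charpoly_mul_comm_of_le]
  · rw [Matrix.mul_assoc, hQP, Matrix.mul_one, charpoly_diagonal, Fintype.card_sum,
      Fintype.card_fin, Fintype.card_fin, Fintype.prod_sum_type, map_prod]
    have h1 : n - (m + m) = 0 := by omega
    rw [h1, pow_zero, one_mul, ← Finset.prod_mul_distrib]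
    refine Finset.prod_congr rfl fun j _ => ?_
    simp only [Sum.elim_inl, Sum.elim_inr, map_sub, Polynomial.expand_X, Polynomial.expand_C,
      map_neg, map_pow]
    ring
  · rw [Fintype.card_sum, Fintype.card_fin, Fintype.card_fin]
    omega

end torus

section even

variable {ℓ : ℕ} [hℓ : Fact ℓ.Prime] {n m : ℕ}

theorem charpoly_even {J M : Matrix (Fin n) (Fin n) ℚ_[ℓ]} (hn : n = 2 * m) (hJ : J.det ≠ 0)
    (hM : Mᵀ * J + J * M = 0) :
    Polynomial.expand ℚ_[ℓ] 2 (Polynomial.contract 2 M.charpoly) = M.charpoly := by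
  have h1 : (-M).charpoly = M.charpoly := by
    have hu : IsUnit J.det := isUnit_iff_ne_zero.2 hJ
    have h2 : Mᵀ = J * (-M) * J⁻¹ := by
      rw [Matrix.mul_neg, ← eq_neg_of_add_eq_zero_left hM, Matrix.mul_assoc,
        Matrix.mul_nonsing_inv _ hu, Matrix.mul_one]
    rw [← Matrix.charpoly_transpose M, h2, charpoly_mul_comm, ← Matrix.mul_assoc,
      Matrix.nonsing_inv_mul _ hu, Matrix.one_mul]
  have h3 := Pool.Agent.R932.OP.charpoly_neg' M
  have h3' : (-1 : Polynomial ℚ_[ℓ]) ^ n = 1 := by rw [hn, pow_mul, neg_one_sq, one_pow]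
  rw [h1, h3', one_mul] at h3
  have h4 : ∀ k, ¬ 2 ∣ k → M.charpoly.coeff k = 0 := by
    intro k hk
    have h5 : M.charpoly.coeff k = (M.charpoly.comp (-Polynomial.X)).coeff k := by rw [← h3]
    have h6 : (-Polynomial.X : Polynomial ℚ_[ℓ]) = Polynomial.C (-1) * Polynomial.X := by simp
    rw [h6, Polynomial.comp_C_mul_X_coeff, Odd.neg_one_pow (by
      rw [← Nat.not_even_iff_odd]
      exact fun h => hk h.two_dvd)] at h5
    have h7 : (2 : ℚ_[ℓ]) * M.charpoly.coeff k = 0 := by linear_combination h5
    exact (mul_eq_zero.1 h7).resolve_left two_ne_zero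
  ext k
  rw [Polynomial.coeff_expand (by norm_num)]
  by_cases hk : 2 ∣ k
  · rw [if_pos hk, Polynomial.coeff_contract (by norm_num), Nat.div_mul_cancel hk]
  · rw [if_neg hk, h4 k hk]

end even

section norel

variable {ℓ : ℕ} [hℓ : Fact ℓ.Prime] {m : ℕ}

theorem exists_fun {α : Type*} (s : Multiset α) (hs : Multiset.card s = m) :
    ∃ b : Fin m → α, s = Finset.univ.val.map b := by
  induction s using Quotient.inductionOn with
  | h l =>
    have h1 : l.length = m := hs
    subst h1
    refine ⟨l.get, ?_⟩
    rw [Fin.univ_val_map, List.ofFn_get]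
    rfl

/-- No isotropic relation if the sums of the `a k` with signs are not zero. -/
theorem noRel_of {R : Polynomial ℚ_[ℓ]} {a : Fin m → Lb ℓ}
    (hR : R.map (algebraMap ℚ_[ℓ] (Lb ℓ)) =
      Polynomial.expand (Lb ℓ) 2 (∏ j, (Polynomial.X - Polynomial.C (a j ^ 2))))
    (ha : ∀ ε : Fin m → SignType, ε ≠ 0 → ∑ k, ((ε k : ℤ) : Lb ℓ) * a k ≠ 0) : NoRel R 0 := by
  classical
  have h0 : ∀ j, a j ≠ 0 := by
    intro j hj
    refine ha (Pi.single j 1) (fun h => ?_) ?_
    · have := congrFun h j
      rw [Pi.single_eq_same, Pi.zero_apply] at this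
      exact absurd this (by decide)
    · rw [sum_single, hj, mul_zero]
  have hpm : ∀ i j, i ≠ j → a i ≠ a j ∧ a i ≠ -a j := by
    intro i j hij
    have h3 : ∀ s : SignType, a i + ((s : ℤ) : Lb ℓ) * a j ≠ 0 := by
      intro s h
      refine ha (fun k => if k = i then 1 else if k = j then s else 0) (fun h' => ?_) ?_
      · have := congrFun h' i
        simp only [if_true, Pi.zero_apply] at this
        exact absurd this (by decide)
      · rw [Finset.sum_eq_add i j hij]
        · rw [if_pos rfl, if_neg (Ne.symm hij), if_pos rfl]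
          simpa using h
        · intro k _ hk
          rw [if_neg hk.1, if_neg hk.2]
          simp
        · intro h
          exact absurd (Finset.mem_univ i) h
        · intro h
          exact absurd (Finset.mem_univ j) h
    constructor
    · intro h
      refine h3 (-1) ?_
      rw [h]
      simp
    · intro h
      refine h3 1 ?_
      rw [h]
      simp
  let c : Fin m ⊕ Fin m → Lb ℓ := Sum.elim (fun j => -a j) a
  have hprod : R.map (algebraMap ℚ_[ℓ] (Lb ℓ)) = ∏ j, (Polynomial.X - Polynomial.C (c j)) := by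
    rw [hR, Fintype.prod_sum_type, map_prod, ← Finset.prod_mul_distrib]
    refine Finset.prod_congr rfl fun j _ => ?_
    simp only [c, Sum.elim_inl, Sum.elim_inr, map_sub, Polynomial.expand_X, Polynomial.expand_C,
      map_neg, map_pow]
    ring
  have hinj : Function.Injective c := by
    rintro (i | i) (j | j) h
    · simp only [c, Sum.elim_inl, neg_inj] at h
      by_contra hij
      exact (hpm i j (fun h' => hij (by rw [h']))).1 h
    · simp only [c, Sum.elim_inl, Sum.elim_inr] at h
      exfalso
      by_cases hij : i = j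
      · subst hij
        have h3 : (2 : Lb ℓ) * a i = 0 := by linear_combination -h
        exact h0 i ((mul_eq_zero.1 h3).resolve_left two_ne_zero)
      · exact (hpm j i (Ne.symm hij)).2 h.symm
    · simp only [c, Sum.elim_inl, Sum.elim_inr] at h
      exfalso
      by_cases hij : i = j
      · subst hij
        have h3 : (2 : Lb ℓ) * a i = 0 := by linear_combination h
        exact h0 i ((mul_eq_zero.1 h3).resolve_left two_ne_zero)
      · exact (hpm i j hij).2 h
    · simp only [c, Sum.elim_inr] at h
      by_contra hij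
      exact (hpm i j (fun h' => hij (by rw [h']))).1 h
  refine ⟨?_, fun I hI hr => ?_⟩
  · rw [← Polynomial.separable_map (algebraMap ℚ_[ℓ] (Lb ℓ)), hprod]
    exact (Polynomial.separable_prod_X_sub_C_iff (f := c)).mpr hinj
  · rw [map_zero, mul_zero]
    refine mul_ne_zero two_ne_zero ?_
    -- the roots
    have hroot : ∀ t ∈ I, ∃ j, c j = t := by
      intro t ht
      have h3 := (hr t ht).1
      rw [Polynomial.aeval_def, ← Polynomial.eval_map, hprod, Polynomial.eval_prod,
        Finset.prod_eq_zero_iff] at h3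
      obtain ⟨j, -, hj⟩ := h3
      refine ⟨j, ?_⟩
      rw [Polynomial.eval_sub, Polynomial.eval_X, Polynomial.eval_C, sub_eq_zero] at hj
      exact hj.symm
    have hneg : ∀ j, a j ∈ I → -a j ∉ I := by
      intro j hj
      have h3 := (hr _ hj).2
      rwa [map_zero, zero_sub] at h3
    let ε : Fin m → SignType := fun j => if a j ∈ I then 1 else if -a j ∈ I then -1 else 0
    have hsum : ∑ t ∈ I, t = ∑ k, ((ε k : ℤ) : Lb ℓ) * a k := by
      have h3 : ∑ t ∈ I, t = ∑ j, if c j ∈ I then c j else 0 := by
        rw [← Finset.sum_filter]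
        symm
        refine Finset.sum_nbij c ?_ hinj.injOn ?_ (fun _ _ => rfl)
        · intro j hj
          exact (Finset.mem_filter.1 hj).2
        · intro t ht
          obtain ⟨j, rfl⟩ := hroot t ht
          exact ⟨j, Finset.mem_coe.2 (Finset.mem_filter.2 ⟨Finset.mem_univ _, ht⟩), rfl⟩
      rw [h3, Fintype.sum_sum_type, ← Finset.sum_add_distrib]
      refine Finset.sum_congr rfl fun j _ => ?_
      have e1 : c (Sum.inl j) = -a j := rfl
      have e2 : c (Sum.inr j) = a j := rfl
      rw [e1, e2]
      by_cases h4 : a j ∈ I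
      · have e3 : ε j = 1 := if_pos h4
        rw [if_neg (hneg j h4), if_pos h4, e3]
        simp
      · by_cases h5 : -a j ∈ I
        · have e3 : ε j = -1 := by
            show (if a j ∈ I then (1 : SignType) else if -a j ∈ I then -1 else 0) = -1
            rw [if_neg h4, if_pos h5]
          rw [if_neg h4, if_pos h5, e3]
          simp
        · have e3 : ε j = 0 := by
            show (if a j ∈ I then (1 : SignType) else if -a j ∈ I then -1 else 0) = 0
            rw [if_neg h4, if_neg h5]
          rw [if_neg h4, if_neg h5, e3]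
          simp
    rw [hsum]
    refine ha ε fun hε => ?_
    obtain ⟨t, ht⟩ := hI
    obtain ⟨j, hj⟩ := hroot t ht
    rcases j with j | j
    · simp only [c, Sum.elim_inl] at hj
      have h3 := congrFun hε j
      simp only [ε, Pi.zero_apply] at h3
      rw [← hj] at ht
      by_cases h4 : a j ∈ I
      · exact hneg j h4 ht
      · rw [if_neg h4, if_pos ht] at h3
        exact absurd h3 (by decide)
    · simp only [c, Sum.elim_inr] at hj
      have h3 := congrFun hε j
      simp only [ε, Pi.zero_apply] at h3
      rw [← hj] at ht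
      rw [if_pos ht] at h3
      exact absurd h3 (by decide)

end norel

section main

variable {p : ℕ} [hp : Fact p.Prime] {n m : ℕ}

/-- **Elements without isotropic relation from a torus modulo `p`.** -/
theorem exists_noRel (hn : n = 2 * m) {J : Matrix (Fin n) (Fin n) ℤ_[p]} (hJ : J.det ≠ 0)
    (Y : Fin m → Matrix (Fin n) (Fin n) ℤ_[p]) (hY : ∀ i, (Y i)ᵀ * J + J * Y i = 0)
    (P : Matrix (Fin n) (Fin m ⊕ Fin m) (ZMod p)) (Q : Matrix (Fin m ⊕ Fin m) (Fin n) (ZMod p))
    (hQP : Q * P = 1) (hred : ∀ i, (Y i).map PadicInt.toZMod = P * Matrix.diagonal (Sum.elim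
      (fun j => if j = i then (-1 : ZMod p) else 0) (fun j => if j = i then (1 : ZMod p) else 0)) * Q) :
    ∃ t : Fin m → ℤ_[p], NoRel ((∑ i, t i • Y i).map (algebraMap ℤ_[p] ℚ_[p])).charpoly 0 := by
  classical
  let A : Matrix (Fin n) (Fin n) (MvPolynomial (Fin m) ℤ_[p]) :=
    ∑ i, (MvPolynomial.X i : MvPolynomial (Fin m) ℤ_[p]) • (Y i).map MvPolynomial.C
  let F : MvPolynomial (Fin m) ℤ_[p] := Phi m (Polynomial.contract 2 A.charpoly)
  have hF : F ≠ 0 := by
    intro h0
    let φ : MvPolynomial (Fin m) ℤ_[p] →+* MvPolynomial (Fin m) (ZMod p) :=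
      MvPolynomial.map PadicInt.toZMod
    have h1 : φ F = 0 := by rw [h0, map_zero]
    have h2 : φ F = Phi m (Polynomial.contract 2 (A.map φ).charpoly) := by
      rw [charpoly_map, ← Polynomial.map_contract (by norm_num), Phi_map]
    have h3 : A.map φ = (P.map (MvPolynomial.C (σ := Fin m))) * (diagonal (Sum.elim
        (fun j => -MvPolynomial.X j) MvPolynomial.X) :
          Matrix (Fin m ⊕ Fin m) (Fin m ⊕ Fin m) (MvPolynomial (Fin m) (ZMod p))) *
        (Q.map (MvPolynomial.C (σ := Fin m))) := by
      have e1 : A.map φ = ∑ i, (MvPolynomial.X i : MvPolynomial (Fin m) (ZMod p)) •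
          ((Y i).map PadicInt.toZMod).map MvPolynomial.C := by
        ext1 a b
        simp only [A, φ, Matrix.map_apply, Matrix.sum_apply, Matrix.smul_apply, smul_eq_mul,
          map_sum, map_mul, MvPolynomial.map_X, MvPolynomial.map_C]
      have e2 : (diagonal (Sum.elim (fun j => -MvPolynomial.X j) MvPolynomial.X) :
          Matrix (Fin m ⊕ Fin m) (Fin m ⊕ Fin m) (MvPolynomial (Fin m) (ZMod p))) =
          ∑ i, (MvPolynomial.X i : MvPolynomial (Fin m) (ZMod p)) • (Matrix.diagonal (Sum.elim
          (fun j => if j = i then (-1 : ZMod p) else 0)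
          (fun j => if j = i then (1 : ZMod p) else 0))).map MvPolynomial.C := by
        ext1 a b
        rw [Matrix.sum_apply]
        simp only [Matrix.smul_apply, Matrix.map_apply, smul_eq_mul]
        by_cases hab : a = b
        · subst hab
          simp only [diagonal_apply_eq]
          rcases a with j | j
          · simp only [Sum.elim_inl]
            rw [Finset.sum_eq_single j]
            · rw [if_pos rfl]
              simp
            · intro i _ hi
              rw [if_neg (Ne.symm hi)]
              simp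
            · intro h
              exact absurd (Finset.mem_univ j) h
          · simp only [Sum.elim_inr]
            rw [Finset.sum_eq_single j]
            · rw [if_pos rfl]
              simp
            · intro i _ hi
              rw [if_neg (Ne.symm hi)]
              simp
            · intro h
              exact absurd (Finset.mem_univ j) h
        · simp only [diagonal_apply_ne _ hab, map_zero, mul_zero, Finset.sum_const_zero]
      rw [e1, e2, Matrix.mul_sum, Matrix.sum_mul]
      refine Finset.sum_congr rfl fun i _ => ?_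
      rw [hred, Matrix.map_mul, Matrix.map_mul, Matrix.mul_smul, Matrix.smul_mul]
    rw [h2, h3, charpoly_torus hn _ _ (by
      rw [← Matrix.map_mul, hQP, Matrix.map_one _ (map_zero _) (map_one _)]),
      Polynomial.contract_expand _ (by norm_num), Phi_sq] at h1
    refine absurd h1 (Finset.prod_ne_zero_iff.2 fun ε hε => ?_)
    rw [Finset.mem_filter] at hε
    exact lin_ne hε.2
  obtain ⟨t, ht⟩ : ∃ t : Fin m → ℤ_[p], MvPolynomial.eval t F ≠ 0 := by
    by_contra hcon
    push Not at hcon
    exact hF (MvPolynomial.funext fun t => by rw [hcon, map_zero])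
  refine ⟨t, ?_⟩
  have hAt : A.map (MvPolynomial.eval t) = ∑ i, t i • Y i := by
    ext a b
    simp only [A, Matrix.map_apply, Matrix.sum_apply, Matrix.smul_apply, smul_eq_mul, map_sum,
      map_mul, MvPolynomial.eval_X, MvPolynomial.eval_C]
  set Z := ∑ i, t i • Y i with hZ
  have hZJ : Zᵀ * J + J * Z = 0 := by
    rw [hZ, transpose_sum, Finset.sum_mul, Finset.mul_sum, ← Finset.sum_add_distrib]
    refine Finset.sum_eq_zero fun i _ => ?_
    rw [transpose_smul, smul_mul_assoc, mul_smul_comm, ← smul_add, hY, smul_zero]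
  set M := Z.map (algebraMap ℤ_[p] ℚ_[p]) with hM
  have hMJ : Mᵀ * J.map (algebraMap ℤ_[p] ℚ_[p]) + J.map (algebraMap ℤ_[p] ℚ_[p]) * M = 0 := by
    rw [hM, ← transpose_map, ← Matrix.map_mul, ← Matrix.map_mul]
    ext a b
    have h1 := congrFun (congrFun hZJ a) b
    rw [Matrix.add_apply] at h1
    rw [Matrix.add_apply, Matrix.map_apply, Matrix.map_apply, ← map_add, h1, Matrix.zero_apply,
      Matrix.zero_apply, map_zero]
  have hJd : (J.map (algebraMap ℤ_[p] ℚ_[p])).det ≠ 0 := by
    have h1 : (J.map (algebraMap ℤ_[p] ℚ_[p])).det = algebraMap ℤ_[p] ℚ_[p] J.det := by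
      rw [RingHom.map_det]
      rfl
    rw [h1]
    exact fun h => hJ ((IsFractionRing.injective ℤ_[p] ℚ_[p]) (by rw [h, map_zero]))
  have heven := charpoly_even hn hJd hMJ
  -- over the algebraic closure
  let ψ : ℚ_[p] →+* Lb p := algebraMap ℚ_[p] (Lb p)
  set f := (Polynomial.contract 2 M.charpoly).map ψ with hf
  have hfm : f.Monic := by
    refine Polynomial.Monic.map _ ?_
    rw [← Polynomial.monic_expand_iff (p := 2) (by norm_num), heven]
    exact charpoly_monic M
  have hfd : f.natDegree = m := by
    have h1 := Polynomial.natDegree_expand 2 (Polynomial.contract 2 M.charpoly)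
    rw [heven, charpoly_natDegree_eq_dim, Fintype.card_fin] at h1
    rw [hf, Polynomial.natDegree_map]
    omega
  obtain ⟨b, hb⟩ := exists_fun f.roots (m := m) (by
    rw [← hfd]
    exact (IsAlgClosed.splits f).natDegree_eq_card_roots.symm)
  choose a ha using fun k => IsAlgClosed.exists_pow_nat_eq (b k) (n := 2) (by norm_num)
  have hfa : f = ∏ j, (Polynomial.X - Polynomial.C (a j ^ 2)) := by
    rw [(IsAlgClosed.splits f).eq_prod_roots_of_monic hfm, hb, Multiset.map_map]
    have h1 : (Polynomial.X - Polynomial.C · ) ∘ b = fun j => (Polynomial.X - Polynomial.C (a j ^ 2)) := by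
      funext j
      rw [Function.comp_apply, ha]
    change (Multiset.map ((Polynomial.X - Polynomial.C · ) ∘ b) Finset.univ.val).prod = _
    rw [h1]
    rfl
  have hR : M.charpoly.map (algebraMap ℚ_[p] (Lb p)) =
      Polynomial.expand (Lb p) 2 (∏ j, (Polynomial.X - Polynomial.C (a j ^ 2))) := by
    rw [← hfa, hf, ← Polynomial.map_expand, heven]
  refine noRel_of hR fun ε hε h0 => ht ?_
  have h1 : ψ (algebraMap ℤ_[p] ℚ_[p] (MvPolynomial.eval t F)) = 0 := by
    have h2 : MvPolynomial.eval t F = Phi m (Polynomial.contract 2 Z.charpoly) := by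
      rw [← hAt, charpoly_map, ← Polynomial.map_contract (by norm_num), Phi_map]
    rw [h2, ← Phi_map, ← Phi_map, Polynomial.map_contract (by norm_num), ← charpoly_map, ← hM,
      ← hf, hfa, Phi_sq]
    exact Finset.prod_eq_zero (Finset.mem_filter.2 ⟨Finset.mem_univ ε, hε⟩) h0
  have h2 := (map_eq_zero ψ).1 h1
  exact (IsFractionRing.injective ℤ_[p] ℚ_[p]) (by rw [h2, map_zero])

end main

end

end Pool.Agent.U175.LP
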