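import Mathlib
import Pool.Agent.U175.LP.R3

/-!
# Matrices without isotropic relation between the eigenvalues
-/

set_option autoImplicit false
set_option linter.unusedSectionVars false

namespace Pool.Agent.U175.LP

open Matrix Polynomial Pool.Agent.R932.SQ

noncomputable section

section phi

variable {S S' : Type*} [CommRing S] [CommRing S']

/-- The function of the coefficients of a polynomial of degree `2 m + r`. -/
def Phr (m r : ℕ) (P : S[X]) : S :=
  MvPolynomial.aeval (fun i : Fin m => (-1) ^ (i.1 + 1) * P.coeff ((m - (i.1 + 1)) * 2 + r)) (pq m)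

theorem Phr_map (m r : ℕ) (f : S →+* S') (P : S[X]) : Phr m r (P.map f) = f (Phr m r P) := by
  rw [Phr, Phr, MvPolynomial.map_aeval, MvPolynomial.aeval_def, MvPolynomial.coe_eval₂Hom]
  have h1 : f.comp (algebraMap ℤ S) = algebraMap ℤ S' := Subsingleton.elim _ _
  rw [h1]
  congr 1
  funext i
  rw [Polynomial.coeff_map, map_mul, map_pow, map_neg, map_one]

theorem Phr_expand (m r : ℕ) (Q : S[X]) : Phr m r (X ^ r * expand S 2 Q) = Phi m Q := by
  rw [Phr, Phi]
  have h1 : (fun i : Fin m => (-1) ^ (i.1 + 1) *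
      (X ^ r * expand S 2 Q : S[X]).coeff ((m - (i.1 + 1)) * 2 + r)) =
      fun i : Fin m => (-1) ^ (i.1 + 1) * Q.coeff (m - (i.1 + 1)) := by
    funext i
    rw [coeff_X_pow_mul, coeff_expand_mul (by norm_num)]
  rw [h1]

end phi

section parity

variable {K : Type*} [Field K] {n m r : ℕ}

theorem exists_expand {P : K[X]} (hr : r ≤ 1) (h : ∀ k, k % 2 ≠ r → P.coeff k = 0) :
    ∃ Q : K[X], P = X ^ r * expand K 2 Q := by
  interval_cases r
  · refine ⟨contract 2 P, ?_⟩
    rw [pow_zero, one_mul]
    ext k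
    rw [coeff_expand (by norm_num)]
    by_cases hk : 2 ∣ k
    · rw [if_pos hk, coeff_contract (by norm_num), Nat.div_mul_cancel hk]
    · rw [if_neg hk, h k (by omega)]
  · refine ⟨contract 2 P.divX, ?_⟩
    rw [pow_one]
    ext k
    rcases k with _ | k
    · rw [mul_coeff_zero, coeff_X_zero, zero_mul]
      exact h 0 (by norm_num)
    · rw [coeff_X_mul, coeff_expand (by norm_num)]
      by_cases hk : 2 ∣ k
      · rw [if_pos hk, coeff_contract (by norm_num), Nat.div_mul_cancel hk, coeff_divX]
      · rw [if_neg hk, h (k + 1) (by omega)]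

theorem charpoly_neg_comp (M : Matrix (Fin n) (Fin n) K) :
    (-M).charpoly = (-1) ^ n * M.charpoly.comp (-X) := by
  have h1 : (-M).charpoly.map (RingHom.id K) = (-M).charpoly := Polynomial.map_id
  rw [charpoly, charpoly, ← Polynomial.coe_compRingHom_apply, RingHom.map_det]
  have h2 : (-1 : K[X]) ^ n = (-1 : K[X]) ^ Fintype.card (Fin n) := by rw [Fintype.card_fin]
  rw [h2, ← det_smul]
  congr 1
  ext1 i j
  simp only [RingHom.mapMatrix_apply, Matrix.map_apply, Matrix.smul_apply, charmatrix_apply,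
    Matrix.neg_apply, smul_eq_mul, coe_compRingHom_apply, sub_comp, C_comp, map_neg]
  by_cases hij : i = j
  · subst hij
    simp only [diagonal_apply_eq, X_comp]
    ring
  · simp only [diagonal_apply_ne _ hij, zero_comp]
    ring

theorem charpoly_parity (h2 : (2 : K) ≠ 0) {J M : Matrix (Fin n) (Fin n) K} (hJ : J.det ≠ 0)
    (hM : Mᵀ * J + J * M = 0) (k : ℕ) (hk : k % 2 ≠ n % 2) : M.charpoly.coeff k = 0 := by
  have h1 : (-M).charpoly = M.charpoly := by
    have hu : IsUnit J.det := isUnit_iff_ne_zero.2 hJ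
    have h2 : Mᵀ = J * (-M) * J⁻¹ := by
      rw [Matrix.mul_neg, ← eq_neg_of_add_eq_zero_left hM, Matrix.mul_assoc,
        Matrix.mul_nonsing_inv _ hu, Matrix.mul_one]
    rw [← Matrix.charpoly_transpose M, h2, charpoly_mul_comm, ← Matrix.mul_assoc,
      Matrix.nonsing_inv_mul _ hu, Matrix.one_mul]
  have h3 := charpoly_neg_comp M
  rw [h1] at h3
  have h5 : M.charpoly.coeff k = ((-1) ^ n * M.charpoly.comp (-X)).coeff k := by rw [← h3]
  have h6 : (-Polynomial.X : K[X]) = C (-1) * X := by simp
  have h7 : ((-1) ^ n : K[X]) = C ((-1) ^ n) := by simp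
  rw [h6, h7, coeff_C_mul, comp_C_mul_X_coeff] at h5
  have h8 : ((-1 : K) ^ n) * (-1) ^ k = -1 := by
    rw [← pow_add]
    exact Odd.neg_one_pow (by rw [Nat.odd_iff]; omega)
  have h9 : (2 : K) * M.charpoly.coeff k = 0 := by
    linear_combination h5 + M.charpoly.coeff k * h8
  exact (mul_eq_zero.1 h9).resolve_left h2

/-- The roots come in pairs. -/
theorem exists_pairs {Ω : Type*} [Field Ω] [IsAlgClosed Ω] [Algebra K Ω] {P Q : K[X]}
    (hP : P.Monic) (hd : P.natDegree = 2 * m + r) (hQ : P = X ^ r * expand K 2 Q) :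
    ∃ a : Fin m → Ω, P.map (algebraMap K Ω) =
      X ^ r * expand Ω 2 (∏ j, (X - C (a j ^ 2))) := by
  have h1 : (expand K 2 Q).Monic := (monic_X_pow r).of_mul_monic_left (by rw [← hQ]; exact hP)
  have h2 : Q.Monic := (monic_expand_iff (by norm_num)).1 h1
  have h3 : Q.natDegree = m := by
    rw [hQ, (monic_X_pow r).natDegree_mul h1, natDegree_X_pow, natDegree_expand] at hd
    omega
  set f := Q.map (algebraMap K Ω) with hf
  have hfm : f.Monic := h2.map _
  have hfd : f.natDegree = m := by rw [hf, Polynomial.natDegree_map, h3]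
  obtain ⟨b, hb⟩ := exists_fun f.roots (m := m) (by
    rw [← hfd]
    exact (IsAlgClosed.splits f).natDegree_eq_card_roots.symm)
  choose a ha using fun k => IsAlgClosed.exists_pow_nat_eq (b k) (n := 2) (by norm_num)
  refine ⟨a, ?_⟩
  have hfa : f = ∏ j, (Polynomial.X - Polynomial.C (a j ^ 2)) := by
    rw [(IsAlgClosed.splits f).eq_prod_roots_of_monic hfm, hb, Multiset.map_map]
    have h1 : (Polynomial.X - Polynomial.C · ) ∘ b = fun j => (Polynomial.X - Polynomial.C (a j ^ 2)) := by
      funext j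
      rw [Function.comp_apply, ha]
    change (Multiset.map ((Polynomial.X - Polynomial.C · ) ∘ b) Finset.univ.val).prod = _
    rw [h1]
    rfl
  rw [← hfa, hf, hQ, Polynomial.map_mul, Polynomial.map_pow, Polynomial.map_X, Polynomial.map_expand]

end parity

end

end Pool.Agent.U175.LP
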