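import Mathlib
import Pool.Agent.U175.LP.R6

/-!
# Lifting elements without isotropic relation from characteristic `p`
-/

set_option autoImplicit false
set_option linter.unusedSectionVars false

namespace Pool.Agent.U175.LP

open Matrix Polynomial Pool.Agent.R932.SQ

noncomputable section

section rel

variable {Ω : Type*} [Field Ω] {m r : ℕ}

theorem expand_prod (a : Fin m → Ω) : expand Ω 2 (∏ j, (X - C (a j ^ 2))) =
    ∏ x : Fin m ⊕ Fin m, (X - C ((Sum.elim (fun j => -a j) a : Fin m ⊕ Fin m → Ω) x)) := by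
  rw [Fintype.prod_sum_type, map_prod, ← Finset.prod_mul_distrib]
  refine Finset.prod_congr rfl fun j _ => ?_
  simp only [Sum.elim_inl, Sum.elim_inr, map_sub, Polynomial.expand_X, Polynomial.expand_C,
    map_neg, map_pow]
  ring

theorem inj_of_sep {a : Fin m → Ω}
    (hs : (X ^ r * expand Ω 2 (∏ j, (X - C (a j ^ 2))) : Polynomial Ω).Separable) :
    Function.Injective (Sum.elim (fun j => -a j) a : Fin m ⊕ Fin m → Ω) := by
  have h1 := hs.of_mul_right
  rw [expand_prod] at h1
  exact separable_prod_X_sub_C_iff.1 h1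

/-- no isotropic relation between the roots -/
def NoIso {K : Type} [Field K] (P : K[X]) : Prop :=
  P.Separable ∧ ∀ I : Finset (AlgebraicClosure K), I.Nonempty →
    (∀ t ∈ I, aeval t P = 0 ∧ -t ∉ I) → ∑ t ∈ I, t ≠ 0

theorem sum_ne_of_noIso {K : Type} [Field K] {P : K[X]} (h : NoIso P)
    {a : Fin m → AlgebraicClosure K}
    (hP : P.map (algebraMap K (AlgebraicClosure K)) =
      X ^ r * expand (AlgebraicClosure K) 2 (∏ j, (X - C (a j ^ 2))))
    (ε : Fin m → SignType) (hε : ε ≠ 0) :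
    ∑ k, ((ε k : ℤ) : AlgebraicClosure K) * a k ≠ 0 := by
  classical
  have hinj : Function.Injective (Sum.elim (fun j => -a j) a : Fin m ⊕ Fin m → AlgebraicClosure K) :=
    inj_of_sep (r := r) (by
      rw [← hP]
      exact h.1.map)
  have hne : ∀ i j, a i ≠ -a j := fun i j hij => by
    have h1 := hinj (a₁ := Sum.inr i) (a₂ := Sum.inl j) hij
    exact absurd h1 (by simp)
  have hinj' : ∀ i j, a i = a j → i = j := fun i j hij => by
    have h1 := hinj (a₁ := Sum.inr i) (a₂ := Sum.inr j) hij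
    exact Sum.inr_injective h1
  -- the set of the summands
  let f : Fin m → AlgebraicClosure K := fun k => ((ε k : ℤ) : AlgebraicClosure K) * a k
  have hε3 : ∀ k, ε k ≠ 0 → (ε k = 1 ∧ f k = a k) ∨ (ε k = -1 ∧ f k = -a k) := by
    intro k hk
    rcases hh : ε k with _ | _ | _
    · exact absurd hh hk
    · right
      refine ⟨rfl, ?_⟩
      simp only [f, hh]
      change ((((-1 : SignType) : ℤ) : AlgebraicClosure K)) * a k = -a k
      simp
    · left
      refine ⟨rfl, ?_⟩
      simp only [f, hh]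
      change ((((1 : SignType) : ℤ) : AlgebraicClosure K)) * a k = a k
      simp
  let s := Finset.univ.filter fun k => ε k ≠ 0
  have hfs : ∀ k ∈ s, ∀ l ∈ s, f k = f l → k = l := by
    intro k hk l hl hkl
    rcases hε3 k (Finset.mem_filter.1 hk).2 with ⟨-, h1⟩ | ⟨-, h1⟩ <;>
      rcases hε3 l (Finset.mem_filter.1 hl).2 with ⟨-, h2⟩ | ⟨-, h2⟩
    · exact hinj' _ _ (by rw [← h1, ← h2, hkl])
    · exact absurd (by rw [← h1, ← h2, hkl]) (hne k l)
    · exact absurd (by rw [← h1, ← h2, hkl]) (hne l k)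
    · exact hinj' _ _ (neg_injective (by rw [← h1, ← h2, hkl]))
  have hsum : ∑ k, f k = ∑ t ∈ s.image f, t := by
    rw [Finset.sum_image (fun k hk l hl h => hfs k hk l hl h)]
    symm
    refine Finset.sum_subset (Finset.subset_univ s) fun k _ hk => ?_
    have h1 : ε k = 0 := by
      by_contra h1
      exact hk (Finset.mem_filter.2 ⟨Finset.mem_univ k, h1⟩)
    simp only [f]
    rw [h1]
    simp
  change ∑ k, f k ≠ 0
  rw [hsum]
  refine h.2 (s.image f) ?_ fun t ht => ?_
  · obtain ⟨k, hk⟩ := Function.ne_iff.1 hε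
    exact ⟨f k, Finset.mem_image_of_mem f (Finset.mem_filter.2 ⟨Finset.mem_univ k, hk⟩)⟩
  · obtain ⟨k, hk, rfl⟩ := Finset.mem_image.1 ht
    constructor
    · rw [aeval_def, ← eval_map, hP, expand_prod, eval_mul, eval_prod]
      refine mul_eq_zero_of_right _ ?_
      rcases hε3 k (Finset.mem_filter.1 hk).2 with ⟨-, h1⟩ | ⟨-, h1⟩
      · refine Finset.prod_eq_zero (Finset.mem_univ (Sum.inr k)) ?_
        rw [Sum.elim_inr, eval_sub, eval_X, eval_C, h1, sub_self]
      · refine Finset.prod_eq_zero (Finset.mem_univ (Sum.inl k)) ?_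
        rw [Sum.elim_inl, eval_sub, eval_X, eval_C, h1, sub_self]
    · intro hc
      obtain ⟨l, hl, hkl⟩ := Finset.mem_image.1 hc
      rcases hε3 k (Finset.mem_filter.1 hk).2 with ⟨e1, h1⟩ | ⟨e1, h1⟩ <;>
        rcases hε3 l (Finset.mem_filter.1 hl).2 with ⟨e2, h2⟩ | ⟨e2, h2⟩
      · rw [h1, h2] at hkl
        exact hne l k hkl
      · rw [h1, h2] at hkl
        have h3 := hinj' _ _ (neg_injective hkl)
        rw [h3, e1] at e2
        exact absurd e2 (by decide)
      · rw [h1, h2, neg_neg] at hkl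
        have h3 := hinj' _ _ hkl
        rw [h3, e1] at e2
        exact absurd e2 (by decide)
      · rw [h1, h2, neg_neg] at hkl
        exact hne k l hkl.symm

end rel

section norel

variable {ℓ : ℕ} [hℓ : Fact ℓ.Prime] {m r n : ℕ}

theorem noRel_mul_X {R : ℚ_[ℓ][X]} (h : NoRel R 0) (h0 : R.coeff 0 ≠ 0) : NoRel (X * R) 0 := by
  refine ⟨separable_X.mul h.1 (irreducible_X.coprime_iff_not_dvd.2 fun hd =>
    h0 (X_dvd_iff.1 hd)), fun I hI hr => h.2 I hI fun t ht => ?_⟩
  obtain ⟨h1, h2⟩ := hr t ht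
  refine ⟨?_, h2⟩
  rw [map_mul, aeval_X] at h1
  refine (mul_eq_zero.1 h1).resolve_left fun h3 => h2 ?_
  rw [h3, map_zero, sub_zero, ← h3]
  exact ht

theorem noRel_of_r {Q : ℚ_[ℓ][X]} {a : Fin m → Lb ℓ} (hr : r ≤ 1)
    (hR : (X ^ r * expand ℚ_[ℓ] 2 Q).map (algebraMap ℚ_[ℓ] (Lb ℓ)) =
      X ^ r * expand (Lb ℓ) 2 (∏ j, (X - C (a j ^ 2))))
    (ha : ∀ ε : Fin m → SignType, ε ≠ 0 → ∑ k, ((ε k : ℤ) : Lb ℓ) * a k ≠ 0) :
    NoRel (X ^ r * expand ℚ_[ℓ] 2 Q) 0 := by
  rw [Polynomial.map_mul, Polynomial.map_pow, Polynomial.map_X] at hR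
  have h1 := mul_left_cancel₀ (pow_ne_zero r X_ne_zero) hR
  have h2 := noRel_of h1 ha
  interval_cases r
  · rwa [pow_zero, one_mul]
  · rw [pow_one]
    refine noRel_mul_X h2 fun h0 => ?_
    have h3 : (∏ j, (X - C (a j ^ 2)) : (Lb ℓ)[X]).eval 0 = 0 := by
      have h4 : (expand (Lb ℓ) 2 (∏ j, (X - C (a j ^ 2)))).eval 0 = 0 := by
        rw [← h1, ← coeff_zero_eq_eval_zero, coeff_map, h0, map_zero]
      rwa [expand_eval, zero_pow (by norm_num)] at h4
    rw [eval_prod, Finset.prod_eq_zero_iff] at h3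
    obtain ⟨j, -, hj⟩ := h3
    rw [eval_sub, eval_X, eval_C, zero_sub, neg_eq_zero] at hj
    have hj' : a j = 0 := by simpa using hj
    refine ha (Pi.single j 1) (fun h => ?_) ?_
    · have := congrFun h j
      rw [Pi.single_eq_same, Pi.zero_apply] at this
      exact absurd this (by decide)
    · rw [sum_single, hj', mul_zero]

theorem noRel_shift {M : Matrix (Fin n) (Fin n) ℚ_[ℓ]} (s : ℚ_[ℓ])
    (h : NoRel (M - scalar (Fin n) s).charpoly 0) : NoRel M.charpoly (2 * s) := by
  classical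
  rw [charpoly_sub_scalar] at h
  set R := M.charpoly with hR
  have hq : (X + C s : ℚ_[ℓ][X]).comp (X - C s) = X := by simp
  refine ⟨?_, fun I hI hr => ?_⟩
  · have h1 : IsCoprime (R.comp (X + C s)) (derivative (R.comp (X + C s))) := h.1
    have h2 := h1.map (compRingHom (X - C s))
    rw [coe_compRingHom_apply, coe_compRingHom_apply, derivative_comp, mul_comp, comp_assoc,
      comp_assoc, hq, comp_X, comp_X] at h2
    have h3 : (derivative (X + C s : ℚ_[ℓ][X])).comp (X - C s) = 1 := by simp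
    rw [h3] at h2
    have h4 : IsCoprime R (derivative R) := by simpa using h2
    exact h4
  · set σ : Lb ℓ := algebraMap ℚ_[ℓ] (Lb ℓ) s with hσ
    have hinj : Function.Injective fun t : Lb ℓ => t - σ := sub_left_injective
    have h1 := h.2 (I.image fun t => t - σ) (hI.image _) (fun u hu => by
      obtain ⟨t, ht, rfl⟩ := Finset.mem_image.1 hu
      obtain ⟨h2, h3⟩ := hr t ht
      refine ⟨?_, fun h4 => h3 ?_⟩
      · rw [aeval_comp, map_add, aeval_X, aeval_C, ← hσ, sub_add_cancel]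
        exact h2
      · obtain ⟨t', ht', h5⟩ := Finset.mem_image.1 h4
        rw [map_zero, zero_sub] at h5
        have h6 : algebraMap ℚ_[ℓ] (Lb ℓ) (2 * s) - t = t' := by
          rw [map_mul, ← hσ, map_ofNat]
          linear_combination -h5
        rw [h6]
        exact ht')
    rw [Finset.sum_image (fun x _ y _ hxy => hinj hxy), map_zero, mul_zero] at h1
    intro h2
    apply h1
    rw [Finset.sum_sub_distrib, Finset.sum_const, nsmul_eq_mul, mul_sub, h2, map_mul, ← hσ,
      map_ofNat]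
    ring

end norel

end

end Pool.Agent.U175.LP
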