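import Mathlib
import Pool.Agent.U175.LP.R7

/-!
# Lifting elements without isotropic relation from characteristic `p`
-/

set_option autoImplicit false
set_option linter.unusedSectionVars false

namespace Pool.Agent.U175.LP

open Matrix Polynomial Pool.Agent.R932.SQ

noncomputable section

variable {p : ℕ} [hp : Fact p.Prime] {n D : ℕ}

theorem sum_form {S : Type*} [CommRing S] {J : Matrix (Fin n) (Fin n) S}
    (Y : Fin D → Matrix (Fin n) (Fin n) S) (hY : ∀ i, (Y i)ᵀ * J + J * Y i = 0) (t : Fin D → S) :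
    (∑ i, t i • Y i)ᵀ * J + J * (∑ i, t i • Y i) = 0 := by
  rw [transpose_sum, Finset.sum_mul, Finset.mul_sum, ← Finset.sum_add_distrib]
  refine Finset.sum_eq_zero fun i _ => ?_
  rw [transpose_smul, smul_mul_assoc, mul_smul_comm, ← smul_add, hY, smul_zero]

theorem map_form {S S' : Type*} [CommRing S] [CommRing S'] (φ : S →+* S')
    {J Y : Matrix (Fin n) (Fin n) S} (hY : Yᵀ * J + J * Y = 0) :
    (Y.map φ)ᵀ * J.map φ + J.map φ * Y.map φ = 0 := by
  rw [← transpose_map, ← Matrix.map_mul, ← Matrix.map_mul]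
  ext a b
  have h1 := congrFun (congrFun hY a) b
  rw [Matrix.add_apply] at h1
  rw [Matrix.add_apply, Matrix.map_apply, Matrix.map_apply, ← map_add, h1, Matrix.zero_apply,
    Matrix.zero_apply, map_zero]

/-- **Lifting elements without isotropic relation.** -/
theorem exists_noRel_gen {K : Type} [Field K] (φ : ℤ_[p] →+* K)
    {J : Matrix (Fin n) (Fin n) ℤ_[p]} (hJ : IsUnit J.det)
    (Y : Fin D → Matrix (Fin n) (Fin n) ℤ_[p]) (hY : ∀ i, (Y i)ᵀ * J + J * Y i = 0) (x : Fin D → K)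
    (hφ : (2 : K) ≠ 0) (hx : NoIso (∑ i, x i • (Y i).map φ).charpoly) :
    ∃ t : Fin D → ℤ_[p], NoRel ((∑ i, t i • Y i).map (algebraMap ℤ_[p] ℚ_[p])).charpoly 0 := by
  classical
  set m := n / 2 with hm
  set r := n % 2 with hr
  have hnm : n = 2 * m + r := by omega
  have hr1 : r ≤ 1 := by omega
  let A : Matrix (Fin n) (Fin n) (MvPolynomial (Fin D) ℤ_[p]) :=
    ∑ i, (MvPolynomial.X i : MvPolynomial (Fin D) ℤ_[p]) • (Y i).map MvPolynomial.C
  let F : MvPolynomial (Fin D) ℤ_[p] := Phr m r A.charpoly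
  have hF : F ≠ 0 := by
    intro h0
    set M : Matrix (Fin n) (Fin n) K := ∑ i, x i • (Y i).map φ with hM
    have hMJ : Mᵀ * J.map φ + J.map φ * M = 0 :=
      sum_form (fun i => (Y i).map φ) (fun i => map_form φ (hY i)) x
    have hJd : (J.map φ).det ≠ 0 := by
      have h1 : (J.map φ).det = φ J.det := by
        rw [RingHom.map_det]
        rfl
      rw [h1]
      exact (hJ.map φ).ne_zero
    obtain ⟨Q, hQ⟩ := exists_expand (P := M.charpoly) hr1
      (fun k hk => charpoly_parity hφ hJd hMJ k hk)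
    obtain ⟨a, ha⟩ := exists_pairs (Ω := AlgebraicClosure K) (charpoly_monic M)
      (by rw [charpoly_natDegree_eq_dim, Fintype.card_fin]; exact hnm) hQ
    have h1 := sum_ne_of_noIso hx ha
    let ψ : MvPolynomial (Fin D) ℤ_[p] →+* K := MvPolynomial.eval₂Hom φ x
    have h2 : ψ F = Phr m r M.charpoly := by
      have e1 : A.map ψ = M := by
        ext a b
        simp only [A, hM, ψ, Matrix.map_apply, Matrix.sum_apply, Matrix.smul_apply, smul_eq_mul,
          map_sum, map_mul, MvPolynomial.eval₂Hom_X', MvPolynomial.eval₂Hom_C]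
      rw [← e1, charpoly_map, Phr_map]
    have h3 : algebraMap K (AlgebraicClosure K) (Phr m r M.charpoly) ≠ 0 := by
      rw [← Phr_map, ha, Phr_expand, Phi_sq]
      refine Finset.prod_ne_zero_iff.2 fun ε hε => ?_
      rw [Finset.mem_filter] at hε
      exact h1 ε hε.2
    refine h3 ?_
    rw [← h2, h0, map_zero, map_zero]
  obtain ⟨t, ht⟩ : ∃ t : Fin D → ℤ_[p], MvPolynomial.eval t F ≠ 0 := by
    by_contra hcon
    push Not at hcon
    exact hF (MvPolynomial.funext fun t => by rw [hcon, map_zero])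
  refine ⟨t, ?_⟩
  have hAt : A.map (MvPolynomial.eval t) = ∑ i, t i • Y i := by
    ext a b
    simp only [A, Matrix.map_apply, Matrix.sum_apply, Matrix.smul_apply, smul_eq_mul, map_sum,
      map_mul, MvPolynomial.eval_X, MvPolynomial.eval_C]
  set Z := ∑ i, t i • Y i with hZ
  have hZJ : Zᵀ * J + J * Z = 0 := sum_form Y hY t
  set M := Z.map (algebraMap ℤ_[p] ℚ_[p]) with hM
  have hMJ : Mᵀ * J.map (algebraMap ℤ_[p] ℚ_[p]) + J.map (algebraMap ℤ_[p] ℚ_[p]) * M = 0 :=
    map_form _ hZJ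
  have hJd : (J.map (algebraMap ℤ_[p] ℚ_[p])).det ≠ 0 := by
    have h1 : (J.map (algebraMap ℤ_[p] ℚ_[p])).det = algebraMap ℤ_[p] ℚ_[p] J.det := by
      rw [RingHom.map_det]
      rfl
    rw [h1]
    exact (hJ.map (algebraMap ℤ_[p] ℚ_[p])).ne_zero
  obtain ⟨Q, hQ⟩ := exists_expand (P := M.charpoly) hr1
    (fun k hk => charpoly_parity two_ne_zero hJd hMJ k hk)
  obtain ⟨a, ha⟩ := exists_pairs (Ω := Lb p) (charpoly_monic M)
    (by rw [charpoly_natDegree_eq_dim, Fintype.card_fin]; exact hnm) hQ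
  rw [hQ] at ha ⊢
  refine noRel_of_r hr1 ha fun ε hε h0 => ht ?_
  let ψ : ℚ_[p] →+* Lb p := algebraMap ℚ_[p] (Lb p)
  have h1 : ψ (algebraMap ℤ_[p] ℚ_[p] (MvPolynomial.eval t F)) = 0 := by
    have h2 : MvPolynomial.eval t F = Phr m r Z.charpoly := by
      rw [← hAt, charpoly_map, Phr_map]
    rw [h2, ← Phr_map, ← Phr_map, ← charpoly_map, ← hM, hQ, ha, Phr_expand, Phi_sq]
    exact Finset.prod_eq_zero (Finset.mem_filter.2 ⟨Finset.mem_univ ε, hε⟩) h0
  have h2 := (map_eq_zero ψ).1 h1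
  exact (IsFractionRing.injective ℤ_[p] ℚ_[p]) (by rw [h2, map_zero])

end

end Pool.Agent.U175.LP
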