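import Mathlib
import Pool.Agent.TH125.Gal.Pub2

/-!
# Varieties whose transcendental cohomology has a large image modulo a prime number: definitions
-/

open CategoryTheory AlgebraicGeometry

universe u

namespace Pool.Agent.U175.LP.Pub

open Pool.Agent.TH125.Gal Pool.Agent.H914 Pool.Agent.H914.VarClass
  Pool.Agent.H914.VarClass.Obj Pool.Agent.H914.WeilCohomology Pool.Agent.H281R3.HT

noncomputable section

variable {Γ : Type} [Group Γ] {p : ℕ} [hp : Fact p.Prime] {C : Type} [Field C] [Algebra ℚ_[p] C]

variable (p C) in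
/-- The inclusion of the `p`-adic integers in a field which contains the `p`-adic numbers. -/
def incl : ℤ_[p] →+* C := (algebraMap ℚ_[p] C).comp (algebraMap ℤ_[p] ℚ_[p])

variable (C) in
/-- The action on the Tate twists: the inverse of the cyclotomic character `κ`, with values in a field
`C` which contains the `p`-adic numbers. -/
def twist (κ : Γ →* ℤ_[p]ˣ) : Γ →* Cˣ := (Units.map (incl p C : ℤ_[p] →* C)).comp κ⁻¹

variable (C) in
/-- The map `A` has the matrix `R` over the `p`-adic integers on the vectors `b`. -/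
def HasMatrix {M : Type} [AddCommGroup M] [Module C M] {n : ℕ} (A : M → M) (b : Fin n → M)
    (R : Matrix (Fin n) (Fin n) ℤ_[p]) : Prop :=
  ∀ a, A (b a) = ∑ c, incl p C (R c a) • b c

/-- A nonzero multiple of the form `t (x * y)` has the matrix `J` on the vectors `b`. -/
def HasGram {M : Type} [Ring M] [Algebra C M] {n : ℕ} (t : M →ₗ[C] C) (b : Fin n → M)
    (J : Matrix (Fin n) (Fin n) ℤ_[p]) : Prop :=
  ∃ r : C, r ≠ 0 ∧ ∀ a c, r * t (b a * b c) = incl p C (J a c)

/-- The vectors `b a` generate a lattice over the `p`-adic integers in the subspace `T` of `M`, stable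
under `Γ`; the action of `Γ` is given by the matrices `ρ g`, and a nonzero multiple of the form
`t (x * y)` by the matrix `J`, whose determinant is a `p`-adic unit. -/
structure IsLattice {M : Type} [Ring M] [Algebra C M] (υ : Γ →* (M ≃ₐ[C] M)) (t : M →ₗ[C] C)
    (T : Submodule C M) {n : ℕ} (b : Fin n → M) (J : Matrix (Fin n) (Fin n) ℤ_[p])
    (ρ : Γ →* Matrix (Fin n) (Fin n) ℤ_[p]) : Prop where
  span : Submodule.span C (Set.range b) = T
  act : ∀ g, HasMatrix C (υ g) b (ρ g)
  form : HasGram t b J
  unimodular : IsUnit J.det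

/-- The reduction of a `p`-adic matrix modulo `p`. -/
def red {m n : ℕ} (M : Matrix (Fin m) (Fin n) ℤ_[p]) : Matrix (Fin m) (Fin n) (ZMod p) :=
  M.map PadicInt.toZMod

/-- The product of two vectors modulo `p` for the form `J`. -/
def dot {n : ℕ} (J : Matrix (Fin n) (Fin n) ℤ_[p]) (v w : Fin n → ZMod p) : ZMod p :=
  v ⬝ᵥ (red J).mulVec w

variable {ι : Type} {N : ι → ℕ}

/-- The element `g` of `Γ` acts modulo `p` on the lattice `i` by a transvection
`x ↦ x + c * ⟨v, x⟩ * v` with `c ≠ 0`, and trivially modulo `p` on the other lattices of the same rank;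
if `N i * (N i + 1) ≤ 2 * d ^ 2` then `g` also acts trivially modulo `p` on the lattice of rank `d` with
the action `τ`. -/
structure Transvects (J : ∀ i, Matrix (Fin (N i)) (Fin (N i)) ℤ_[p])
    (ρ : ∀ i, Γ →* Matrix (Fin (N i)) (Fin (N i)) ℤ_[p]) {d : ℕ}
    (τ : Γ →* Matrix (Fin d) (Fin d) ℤ_[p]) (i : ι) (v : Fin (N i) → ZMod p) (g : Γ) : Prop where
  self : ∃ c : ZMod p, c ≠ 0 ∧ ∀ x, (red (ρ i g)).mulVec x = x + (c * dot (J i) v x) • v
  same_rank : ∀ j, j ≠ i → N j = N i → red (ρ j g) = 1
  base : N i * (N i + 1) ≤ 2 * d ^ 2 → red (τ g) = 1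

/-- The vectors `v a` modulo `p` span the space, and they are connected: any two of them are joined by a
chain in which consecutive vectors are not orthogonal. -/
structure Connected {n : ℕ} (J : Matrix (Fin n) (Fin n) ℤ_[p]) {K : Type}
    (v : K → Fin n → ZMod p) : Prop where
  spans : Submodule.span (ZMod p) (Set.range v) = ⊤
  chain : ∀ a b, Relation.ReflTransGen (fun a b => dot J (v a) (v b) ≠ 0) a b

/-- **Large images modulo `p`, relative to a base.** The space `A` has a lattice over the `p`-adic
integers, of rank `d`, which is stable under `Γ`, and for each `i` there is a connected spanning family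
of vectors modulo `p` on the lattice `i`, each of which is the vector of a transvection in the image of
`Γ` modulo `p`, given by an element which acts trivially modulo `p` on the other lattices of the same
rank, and on the lattice in `A` if `N i * (N i + 1) ≤ 2 * d ^ 2`. -/
def Large {A : Type} [Ring A] [Algebra C A] (υ : Γ →* (A ≃ₐ[C] A))
    (J : ∀ i, Matrix (Fin (N i)) (Fin (N i)) ℤ_[p])
    (ρ : ∀ i, Γ →* Matrix (Fin (N i)) (Fin (N i)) ℤ_[p]) : Prop :=
  ∃ (d : ℕ) (f : Module.Basis (Fin d) C A) (τ : Γ →* Matrix (Fin d) (Fin d) ℤ_[p]),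
    (∀ g, HasMatrix C (υ g) f (τ g)) ∧
    ∀ i, ∃ (K : Type) (v : K → Fin (N i) → ZMod p), Connected (J i) v ∧
      ∀ a, ∃ g : Γ, Transvects J ρ τ i (v a) g

variable {k : Type u} [Field k] {𝒱 : VarClass k} {ops : CycleOps 𝒱}
  {W : WeilCohomology.{u, 0} ops} [Algebra ℚ_[p] W.K]

/-- `G` is a class of varieties with an action of the group `Γ` on the cohomology with the formal
properties of a Galois action (with the cyclotomic character `κ`), closed under products. The variety
`Z` and the odd-dimensional varieties `X i` are members of `G`; the divisors `D i` on `X i` satisfy hard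
Lefschetz and the standard conjectures of Lefschetz and of Hodge type, and the transcendental
cohomology of `X i` is in the middle degree; it has a stable lattice with the basis `b i`, the
action `ρ i` and the unimodular form `J i`. -/
structure LatticeSystem (κ : Γ →* ℤ_[p]ˣ) (G : Set (GVar W Γ)) (X : ι → GVar W Γ)
    (D : ∀ i, (X i).X.Cycles) (Z : GVar W Γ) (b : ∀ i, Fin (N i) → W.H (X i).X)
    (J : ∀ i, Matrix (Fin (N i)) (Fin (N i)) ℤ_[p])
    (ρ : ∀ i, Γ →* Matrix (Fin (N i)) (Fin (N i)) ℤ_[p]) : Prop where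
  galois : GaloisClass (twist W.K κ) G
  mem : ∀ i, X i ∈ G
  mem_base : Z ∈ G
  odd : ∀ i, Odd (X i).X.dim
  pol : ∀ i, IsPolarization W (X i).X (D i)
  middle : ∀ i, transcendental W (X i).X ≤ W.gr (X i).X (X i).X.dim
  one_ne : ∀ i, (1 : W.H (X i).X) ≠ 0
  lattice : ∀ i, IsLattice (X i).act (W.tr (X i).X) (transcendental W (X i).X) (b i) (J i) (ρ i)

end

end Pool.Agent.U175.LP.Pub
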