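import Mathlib
import Pool.Agent.U175.LP.T3

/-!
# Tangent vectors kill forms
-/

set_option linter.unusedSectionVars false

namespace Pool.Agent.U175.LP

open PadicInt Module Function

noncomputable section

variable {p : ℕ} [hp : Fact p.Prime]

section forms

variable {T : Type*} [AddCommGroup T] [Module ℤ_[p] T] {S : Type*} [Fintype S] [DecidableEq S]
  (φ : MultilinearMap ℤ_[p] (fun _ : S => T) ℚ_[p])

theorem norm_smul_p (c : ℤ_[p]) (q : ℚ_[p]) : ‖c • q‖ = ‖c‖ * ‖q‖ := by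
  rw [Algebra.smul_def, norm_mul]
  rfl

theorem exists_bound [Module.Finite ℤ_[p] T] : ∃ C : ℝ, 0 ≤ C ∧ ∀ x, ‖φ x‖ ≤ C := by
  obtain ⟨n, s, hs⟩ := Module.Finite.exists_fin (R := ℤ_[p]) (M := T)
  refine ⟨∑ I : S → Fin n, ‖φ (fun k => s (I k))‖, Finset.sum_nonneg fun _ _ => norm_nonneg _,
    fun x => ?_⟩
  have h1 : ∀ k, ∃ c : Fin n → ℤ_[p], ∑ i, c i • s i = x k := by
    intro k
    have : x k ∈ Submodule.span ℤ_[p] (Set.range s) := by rw [hs]; trivial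
    exact (Submodule.mem_span_range_iff_exists_fun _).1 this
  choose c hc using h1
  have h2 : φ x = ∑ I : S → Fin n, (∏ k, c k (I k)) • φ (fun k => s (I k)) := by
    have h3 : x = fun k => ∑ i, c k i • s i := funext fun k => (hc k).symm
    rw [h3, φ.map_sum]
    refine Finset.sum_congr rfl fun I _ => ?_
    rw [← φ.map_smul_univ]
  rw [h2]
  refine (norm_sum_le _ _).trans (Finset.sum_le_sum fun I _ => ?_)
  rw [norm_smul_p]
  exact mul_le_of_le_one_left (norm_nonneg _) (norm_le_one _)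

theorem piecewise_smul (c : ℤ_[p]) (w z : S → T) (s : Finset S) :
    φ (s.piecewise (c • w) z) = c ^ s.card • φ (s.piecewise w z) := by
  have h := φ.map_piecewise_smul (fun _ => c) (s.piecewise w z) s
  rw [Finset.prod_const] at h
  rw [← h]
  congr 1
  funext k
  by_cases hk : k ∈ s
  · simp [hk]
  · simp [hk]

theorem second {C : ℝ} (hC : ∀ x, ‖φ x‖ ≤ C) (c : ℤ_[p]) (z w : S → T) :
    ‖φ (z + c • w) - φ z - c • ∑ k, φ (Function.update z k (w k))‖ ≤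
      2 ^ Fintype.card S * C * ‖c‖ ^ 2 := by
  have hC0 : 0 ≤ C := (norm_nonneg _).trans (hC 0)
  have h1 : φ (z + c • w) - φ z - c • ∑ k, φ (Function.update z k (w k)) =
      ∑ s ∈ Finset.univ.filter (fun s : Finset S => 2 ≤ s.card), φ (s.piecewise (c • w) z) := by
    have e1 : ∑ s ∈ Finset.univ.filter (fun s : Finset S => s.card = 0),
        φ (s.piecewise (c • w) z) = φ z := by
      have : Finset.univ.filter (fun s : Finset S => s.card = 0) = {∅} := by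
        ext s
        simp
      rw [this, Finset.sum_singleton, Finset.piecewise_empty]
    have e2 : ∑ s ∈ Finset.univ.filter (fun s : Finset S => s.card = 1),
        φ (s.piecewise (c • w) z) = c • ∑ k, φ (Function.update z k (w k)) := by
      rw [Finset.smul_sum]
      symm
      refine Finset.sum_bij (fun k _ => {k}) ?_ ?_ ?_ ?_
      · intro k _
        simp
      · intro a _ b _ h
        exact Finset.singleton_injective h
      · intro s hs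
        obtain ⟨k, hk⟩ := Finset.card_eq_one.1 (Finset.mem_filter.1 hs).2
        exact ⟨k, Finset.mem_univ _, hk.symm⟩
      · intro k _
        rw [piecewise_smul, Finset.card_singleton, pow_one, Finset.piecewise_singleton]
    rw [add_comm z, φ.map_add_univ, ← e1, ← e2, sub_sub, ← Finset.sum_union, ←
      Finset.filter_or, sub_eq_iff_eq_add, ← Finset.sum_union, ← Finset.filter_or]
    · refine Finset.sum_congr ?_ fun _ _ => rfl
      ext s
      simp only [Finset.mem_univ, Finset.mem_filter, true_and, true_iff]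
      omega
    · rw [Finset.disjoint_filter]
      intro s _ h
      omega
    · rw [Finset.disjoint_filter]
      intro s _ h
      omega
  rw [h1]
  refine (norm_sum_le _ _).trans ?_
  have h1 : ∀ s ∈ Finset.univ.filter (fun s : Finset S => 2 ≤ s.card),
      ‖φ (s.piecewise (c • w) z)‖ ≤ C * ‖c‖ ^ 2 := by
    intro s hs
    rw [piecewise_smul, norm_smul_p, norm_pow, mul_comm]
    apply mul_le_mul (hC _) _ (pow_nonneg (norm_nonneg _) _) hC0
    exact pow_le_pow_of_le_one (norm_nonneg _) (norm_le_one _) (Finset.mem_filter.1 hs).2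
  refine (Finset.sum_le_sum h1).trans ?_
  rw [Finset.sum_const, nsmul_eq_mul, mul_assoc]
  apply mul_le_mul_of_nonneg_right _ (mul_nonneg hC0 (pow_nonneg (norm_nonneg _) _))
  have h2 : (Finset.univ.filter (fun s : Finset S => 2 ≤ s.card)).card ≤ 2 ^ Fintype.card S := by
    refine (Finset.card_filter_le _ _).trans ?_
    rw [Finset.card_univ, Fintype.card_finset]
  exact_mod_cast h2

end forms

section kill

variable {T : Type*} [AddCommGroup T] [Module ℤ_[p] T] [Module.Finite ℤ_[p] T]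
  [Module.Free ℤ_[p] T] {Γ : Type*} [Group Γ] (ρ : Representation ℤ_[p] Γ T)
  (κ : Γ →* ℤ_[p]ˣ) {d : ℕ}

/-- Vector valued equivariant forms in coordinates. -/
def IsTW (S : Type*) (t : Γ →* Matrix (Fin d) (Fin d) ℤ_[p])
    (φ : Fin d → MultilinearMap ℤ_[p] (fun _ : S => T) ℚ_[p]) : Prop :=
  ∃ Δ : Subgroup Γ, Δ.FiniteIndex ∧ ∀ s ∈ Δ, ∀ j x,
    φ j (fun k => ρ s (x k)) = ∑ i, t s j i • φ i x

/-- The twist of a matrix representation by a power of the character. -/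
def tw (M : ℤ) (t : Γ →* Matrix (Fin d) (Fin d) ℤ_[p]) :
    Γ →* Matrix (Fin d) (Fin d) ℤ_[p] where
  toFun g := (((κ g) ^ M : ℤ_[p]ˣ) : ℤ_[p]) • t g
  map_one' := by rw [map_one, map_one, one_zpow, Units.val_one, one_smul]
  map_mul' g h := by rw [map_mul, map_mul, mul_zpow, Units.val_mul, smul_mul_smul_comm]

theorem tw_apply (M : ℤ) (t : Γ →* Matrix (Fin d) (Fin d) ℤ_[p]) (g : Γ) :
    tw κ M t g = (((κ g) ^ M : ℤ_[p]ˣ) : ℤ_[p]) • t g := rfl

/-- The symplectic Lie algebras of the pieces kill all forms with values in the twists of `t`. -/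
def KillsAll {ι : Type*} (B : T →ₗ[ℤ_[p]] T →ₗ[ℤ_[p]] ℤ_[p]) (π : ι → Module.End ℤ_[p] T)
    (t : Γ →* Matrix (Fin d) (Fin d) ℤ_[p]) (i : ι) : Prop :=
  ∀ (S : Type) [Fintype S] [DecidableEq S] (M : ℤ)
    (φ : Fin d → MultilinearMap ℤ_[p] (fun _ : S => T) ℚ_[p]), IsTW ρ S (tw κ M t) φ →
    ∀ u w j (x : S → T), ∑ s, φ j (update x s (so B (π i u) (π i w) (x s))) = 0

theorem pow_congr {c z : ℤ_[p]} (n : ℕ) : ∃ z', (1 + c * z) ^ n = 1 + c * z' := by
  induction n with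
  | zero => exact ⟨0, by simp⟩
  | succ n ih =>
    obtain ⟨z', hz'⟩ := ih
    exact ⟨z' + z + c * z' * z, by rw [pow_succ, hz']; ring⟩

theorem zpow_congr {u : ℤ_[p]ˣ} {c : ℤ_[p]} (h : ∃ z, (u : ℤ_[p]) = 1 + c * z) (M : ℤ) :
    ∃ z, ((u ^ M : ℤ_[p]ˣ) : ℤ_[p]) = 1 + c * z := by
  obtain ⟨n, rfl | rfl⟩ := M.eq_nat_or_neg
  · obtain ⟨z, hz⟩ := h
    rw [zpow_natCast, Units.val_pow_eq_pow_val, hz]
    exact pow_congr n
  · obtain ⟨z, hz⟩ := h
    have h1 : ((u⁻¹ : ℤ_[p]ˣ) : ℤ_[p]) = 1 + c * (-z * ((u⁻¹ : ℤ_[p]ˣ) : ℤ_[p])) := by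
      have h2 : (u : ℤ_[p]) * ((u⁻¹ : ℤ_[p]ˣ) : ℤ_[p]) = 1 := Units.mul_inv _
      rw [hz] at h2
      linear_combination h2
    rw [zpow_neg, zpow_natCast, ← inv_pow, Units.val_pow_eq_pow_val, h1]
    exact pow_congr n

theorem pow_mem_of_finiteIndex {Δ : Subgroup Γ} (hΔ : Δ.FiniteIndex) (σ : Γ) :
    σ ^ Δ.index.factorial ∈ Δ := by
  obtain ⟨n, hn0, hn, h⟩ := Subgroup.exists_pow_mem_of_index_ne_zero hΔ.index_ne_zero σ
  obtain ⟨c, hc⟩ := Nat.dvd_factorial hn0 hn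
  rw [hc, pow_mul]
  exact Δ.pow_mem h c

theorem eq_zero_of_le {x : ℚ_[p]} {K : ℝ} (h : ∀ n : ℕ, ‖x‖ ≤ K * ((p : ℝ)⁻¹) ^ n) : x = 0 := by
  rw [← norm_le_zero_iff]
  have hpp : ((p : ℝ))⁻¹ < 1 := inv_lt_one_of_one_lt₀ (by exact_mod_cast hp.out.one_lt)
  have h1 : Filter.Tendsto (fun n : ℕ => K * ((p : ℝ)⁻¹) ^ n) Filter.atTop (nhds (K * 0)) :=
    (tendsto_pow_atTop_nhds_zero_of_lt_one (by positivity) hpp).const_mul K
  rw [mul_zero] at h1
  exact ge_of_tendsto' h1 h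

variable {ρ κ}

/-- **Tangent vectors kill forms.** -/
theorem kill_of_tan {X : Module.End ℤ_[p] T} {t : Γ →* Matrix (Fin d) (Fin d) ℤ_[p]}
    (h : ∀ m : ℕ, ∃ n₀ : ℕ, ∀ n, n₀ ≤ n → ∃ (σ : Γ) (Z : Module.End ℤ_[p] T)
      (W : Matrix (Fin d) (Fin d) ℤ_[p]), ρ σ = 1 + (p : ℤ_[p]) ^ n • (X + (p : ℤ_[p]) ^ m • Z) ∧
        t σ = 1 + (p : ℤ_[p]) ^ (n + m) • W)
    {S : Type*} [Fintype S] [DecidableEq S]
    {φ : Fin d → MultilinearMap ℤ_[p] (fun _ : S => T) ℚ_[p]} (hφ : IsTW ρ S t φ) (j : Fin d)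
    (x : S → T) : ∑ s, φ j (update x s (X (x s))) = 0 := by
  obtain ⟨Δ, hΔ, hφ⟩ := hφ
  set N := Δ.index.factorial with hN
  have hN0 : (N : ℚ_[p]) ≠ 0 := by exact_mod_cast Nat.factorial_ne_zero _
  choose C hC0 hC using fun i => exists_bound (φ i)
  set D := ∑ s, φ j (update x s (X (x s))) with hD
  set K : ℝ := Fintype.card S * C j + ∑ i, C i + 2 ^ Fintype.card S * C j with hK
  have key : ∀ m : ℕ, ‖(N : ℚ_[p]) * D‖ ≤ K * ((p : ℝ)⁻¹) ^ m := by
    intro m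
    obtain ⟨n₀, h0⟩ := h m
    obtain ⟨σ, Z, W, h1, h2⟩ := h0 (max n₀ m) (le_max_left _ _)
    obtain ⟨k, hk⟩ : ∃ k, max n₀ m = m + k := ⟨max n₀ m - m, by omega⟩
    rw [hk] at h1 h2
    obtain ⟨V, hV⟩ := pow_lin (p := p) (X + (p : ℤ_[p]) ^ m • Z) (m + k) N
    obtain ⟨V', hV'⟩ := pow_lin (p := p) W (m + k + m) N
    set Z' := (N : ℤ_[p]) • Z + (p : ℤ_[p]) ^ k • V with hZ'
    set W' := (N : ℤ_[p]) • W + (p : ℤ_[p]) ^ (m + k + m) • V' with hW'
    have h3 : ρ (σ ^ N) = 1 + (p : ℤ_[p]) ^ (m + k) • ((N : ℤ_[p]) • X + (p : ℤ_[p]) ^ m • Z') := by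
      rw [map_pow, h1, hV, hZ']
      simp only [pow_add]
      module
    have h4 : t (σ ^ N) = 1 + (p : ℤ_[p]) ^ (m + k + m) • W' := by
      rw [map_pow, h2, hV', hW']
      simp only [pow_add]
      module
    set c : ℤ_[p] := (p : ℤ_[p]) ^ (m + k) with hc
    set w : S → T := fun s => (N : ℤ_[p]) • X (x s) + (p : ℤ_[p]) ^ m • Z' (x s) with hw
    have h5 : (fun s => ρ (σ ^ N) (x s)) = x + c • w := by
      funext s
      rw [h3]
      rfl
    have h6 := hφ _ (pow_mem_of_finiteIndex hΔ σ) j x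
    rw [← hN, h5, h4] at h6
    have h7 : ∑ i, (1 + (p : ℤ_[p]) ^ (m + k + m) • W') j i • φ i x =
        φ j x + (p : ℤ_[p]) ^ (m + k + m) • ∑ i, W' j i • φ i x := by
      simp only [Matrix.add_apply, Matrix.smul_apply, add_smul, Finset.sum_add_distrib,
        Matrix.one_apply, smul_eq_mul, mul_smul, ite_smul, one_smul, zero_smul,
        Finset.sum_ite_eq, Finset.mem_univ, if_true, Finset.smul_sum]
    rw [h7] at h6
    have h8 := second (φ j) (hC j) c x w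
    have h9 : ∑ s, φ j (update x s (w s)) = (N : ℤ_[p]) • D +
        (p : ℤ_[p]) ^ m • ∑ s, φ j (update x s (Z' (x s))) := by
      simp only [hw, MultilinearMap.map_update_add, MultilinearMap.map_update_smul,
        Finset.sum_add_distrib, ← Finset.smul_sum, hD]
    rw [h6, h9] at h8
    set A₂ := ∑ s, φ j (update x s (Z' (x s))) with hA₂
    set A₃ := ∑ i, W' j i • φ i x with hA₃
    have b2 : ‖A₂‖ ≤ Fintype.card S * C j := by
      refine (norm_sum_le _ _).trans ?_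
      refine (Finset.sum_le_sum fun s _ => hC j _).trans ?_
      rw [Finset.sum_const, nsmul_eq_mul, Finset.card_univ]
    have b3 : ‖A₃‖ ≤ ∑ i, C i := by
      refine (norm_sum_le _ _).trans (Finset.sum_le_sum fun i _ => ?_)
      rw [norm_smul_p]
      exact (mul_le_of_le_one_left (norm_nonneg _) (norm_le_one _)).trans (hC i _)
    set A₁ := φ j x + (p : ℤ_[p]) ^ (m + k + m) • A₃ - φ j x - c • ((N : ℤ_[p]) • D +
      (p : ℤ_[p]) ^ m • A₂) with hA₁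
    have e1 : c • ((N : ℤ_[p]) • D) = c • ((p : ℤ_[p]) ^ m • A₃) - c • ((p : ℤ_[p]) ^ m • A₂) -
        A₁ := by
      rw [hA₁, smul_add, smul_smul c ((p : ℤ_[p]) ^ m) A₃, hc, ← pow_add]
      abel
    have e2 : (N : ℤ_[p]) • D = (N : ℚ_[p]) * D := by
      rw [Algebra.smul_def]
      congr 1
    have hcn : ‖c‖ = ((p : ℝ)⁻¹) ^ (m + k) := by
      rw [hc, norm_pow, PadicInt.norm_p]
    have hp0 : (0 : ℝ) < (p : ℝ)⁻¹ := inv_pos.2 (by exact_mod_cast hp.out.pos)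
    have hp1 : (p : ℝ)⁻¹ ≤ 1 := inv_le_one_of_one_le₀ (by exact_mod_cast hp.out.one_lt.le)
    have hc0 : 0 < ‖c‖ := by rw [hcn]; positivity
    have hcm : ‖c‖ ≤ ((p : ℝ)⁻¹) ^ m := by
      rw [hcn]
      exact pow_le_pow_of_le_one hp0.le hp1 (by omega)
    have hpm : ‖((p : ℤ_[p]) ^ m)‖ = ((p : ℝ)⁻¹) ^ m := by rw [norm_pow, PadicInt.norm_p]
    have h10 : ‖c‖ * ‖(N : ℚ_[p]) * D‖ ≤ ‖c‖ * (K * ((p : ℝ)⁻¹) ^ m) := by
      rw [← e2, ← norm_smul_p, e1]
      refine (norm_sub_le _ _).trans ?_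
      refine (add_le_add (norm_sub_le _ _) h8).trans ?_
      rw [norm_smul_p, norm_smul_p, norm_smul_p, norm_smul_p, hpm]
      have i1 : ‖c‖ * (((p : ℝ)⁻¹) ^ m * ‖A₃‖) ≤ ‖c‖ * (((p : ℝ)⁻¹) ^ m * ∑ i, C i) := by
        gcongr
      have i2 : ‖c‖ * (((p : ℝ)⁻¹) ^ m * ‖A₂‖) ≤ ‖c‖ * (((p : ℝ)⁻¹) ^ m * (Fintype.card S * C j)) := by
        gcongr
      have i3 : 2 ^ Fintype.card S * C j * ‖c‖ ^ 2 ≤
          ‖c‖ * (((p : ℝ)⁻¹) ^ m * (2 ^ Fintype.card S * C j)) := by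
        have i4 : ‖c‖ ^ 2 ≤ ‖c‖ * ((p : ℝ)⁻¹) ^ m := by
          rw [pow_two]
          exact mul_le_mul_of_nonneg_left hcm hc0.le
        have i5 : 0 ≤ 2 ^ Fintype.card S * C j := mul_nonneg (by positivity) (hC0 j)
        calc 2 ^ Fintype.card S * C j * ‖c‖ ^ 2 ≤ 2 ^ Fintype.card S * C j *
              (‖c‖ * ((p : ℝ)⁻¹) ^ m) := mul_le_mul_of_nonneg_left i4 i5
          _ = _ := by ring
      rw [hK]
      calc _ ≤ ‖c‖ * (((p : ℝ)⁻¹) ^ m * ∑ i, C i) +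
            ‖c‖ * (((p : ℝ)⁻¹) ^ m * (Fintype.card S * C j)) +
            ‖c‖ * (((p : ℝ)⁻¹) ^ m * (2 ^ Fintype.card S * C j)) := by
            exact add_le_add (add_le_add i1 i2) i3
        _ = _ := by ring
    exact le_of_mul_le_mul_left h10 hc0
  have h1 := eq_zero_of_le key
  exact (mul_eq_zero.1 h1).resolve_left hN0

/-- Forms with values in the twists. -/
theorem killsAll_of_tan {ι : Type*} {B : T →ₗ[ℤ_[p]] T →ₗ[ℤ_[p]] ℤ_[p]}
    {π : ι → Module.End ℤ_[p] T} {t : Γ →* Matrix (Fin d) (Fin d) ℤ_[p]} {i : ι}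
    (h : ∀ X ∈ Si B π i, TanA p (RR ρ κ t) (X, 0)) : KillsAll ρ κ B π t i := by
  intro S _ _ M φ hφ u w j x
  refine kill_of_tan (fun m => ?_) hφ j x
  obtain ⟨n₀, h0⟩ := h _ (so_mem_Si B π i u w) m
  refine ⟨n₀, fun n hn => ?_⟩
  obtain ⟨σ, ⟨Z, W, z⟩, hσ⟩ := h0 n hn
  have h1 : ρ σ = 1 + (p : ℤ_[p]) ^ n • (so B (π i u) (π i w) + (p : ℤ_[p]) ^ m • Z) :=
    congrArg Prod.fst hσ
  have h2 : t σ = 1 + (p : ℤ_[p]) ^ n • (0 + (p : ℤ_[p]) ^ m • W) :=
    congrArg (fun w => w.2.1) hσ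
  have h3 : (κ σ : ℤ_[p]) = 1 + (p : ℤ_[p]) ^ n * (0 + (p : ℤ_[p]) ^ m * z) :=
    congrArg (fun w => w.2.2) hσ
  obtain ⟨z', hz'⟩ := zpow_congr (u := κ σ) (c := (p : ℤ_[p]) ^ (n + m)) ⟨z, by
    rw [h3, pow_add]
    ring⟩ M
  refine ⟨σ, Z, W + z' • (1 + (p : ℤ_[p]) ^ (n + m) • W), h1, ?_⟩
  rw [tw_apply, hz', h2, zero_add, smul_smul, ← pow_add]
  module

end kill

end

end Pool.Agent.U175.LP
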