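import Mathlib
import Pool.Agent.U175.LP.T4
import Pool.Agent.U175.LP.Pub

/-!
# Sums of lattices and transvections modulo `p`
-/

set_option linter.unusedSectionVars false

namespace Pool.Agent.U175.LP

open PadicInt Module Matrix Pool.Agent.U175.LP.Pub

noncomputable section

variable {p : ℕ} [hp : Fact p.Prime]

theorem toZMod_eq_zero (z : ℤ_[p]) : (toZMod z : ZMod p) = 0 ↔ ∃ y, z = (p : ℤ_[p]) * y := by
  rw [← RingHom.mem_ker, PadicInt.ker_toZMod, PadicInt.maximalIdeal_eq_span_p,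
    Ideal.mem_span_singleton]
  rfl

theorem isUnit_iff_toZMod (z : ℤ_[p]) : IsUnit z ↔ (toZMod z : ZMod p) ≠ 0 := by
  rw [Ne, ← RingHom.mem_ker, PadicInt.ker_toZMod, IsLocalRing.mem_maximalIdeal, mem_nonunits_iff,
    not_not]

theorem red_mul {m n q : ℕ} (A : Matrix (Fin m) (Fin n) ℤ_[p]) (B : Matrix (Fin n) (Fin q) ℤ_[p]) :
    red (A * B) = red A * red B := Matrix.map_mul

theorem red_one {n : ℕ} : red (1 : Matrix (Fin n) (Fin n) ℤ_[p]) = 1 :=
  Matrix.map_one _ (map_zero _) (map_one _)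

theorem red_apply {m n : ℕ} (A : Matrix (Fin m) (Fin n) ℤ_[p]) (a : Fin m) (b : Fin n) :
    red A a b = toZMod (A a b) := rfl

theorem red_pow {n : ℕ} (A : Matrix (Fin n) (Fin n) ℤ_[p]) (k : ℕ) : red (A ^ k) = red A ^ k := by
  induction k with
  | zero => rw [pow_zero, pow_zero, red_one]
  | succ k ih => rw [pow_succ, pow_succ, red_mul, ih]

theorem exists_of_red {m n : ℕ} {A B : Matrix (Fin m) (Fin n) ℤ_[p]} (h : red A = red B) :
    ∃ Z, A = B + (p : ℤ_[p]) • Z := by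
  have h3 : ∀ a b, (toZMod (A a b - B a b) : ZMod p) = 0 := by
    intro a b
    rw [map_sub, sub_eq_zero]
    exact congrFun (congrFun h a) b
  choose z hz using fun a b => (toZMod_eq_zero _).1 (h3 a b)
  refine ⟨Matrix.of z, ?_⟩
  ext a b
  rw [Matrix.add_apply, Matrix.smul_apply, Matrix.of_apply, smul_eq_mul, ← hz]
  ring

theorem toZMod_mulVec {m n : ℕ} (A : Matrix (Fin m) (Fin n) ℤ_[p]) (x : Fin n → ℤ_[p]) (a : Fin m) :
    (toZMod ((A *ᵥ x) a) : ZMod p) = (red A *ᵥ fun b => toZMod (x b)) a := by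
  simp only [mulVec, dotProduct, map_sum, map_mul]
  rfl

theorem toZMod_dot {n : ℕ} (J : Matrix (Fin n) (Fin n) ℤ_[p]) (x y : Fin n → ℤ_[p]) :
    (toZMod (x ⬝ᵥ J *ᵥ y) : ZMod p) =
      dot J (fun b => toZMod (x b)) (fun b => toZMod (y b)) := by
  rw [dot, dotProduct, dotProduct, map_sum]
  refine Finset.sum_congr rfl fun a _ => ?_
  rw [map_mul, toZMod_mulVec]

theorem form_apply {n : ℕ} (J : Matrix (Fin n) (Fin n) ℤ_[p]) (x y : Fin n → ℤ_[p]) :
    Matrix.toBilin' J x y = x ⬝ᵥ J *ᵥ y := Matrix.toBilin'_apply' J x y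

theorem form_alt {n : ℕ} {J : Matrix (Fin n) (Fin n) ℤ_[p]} (hJ : Jᵀ = -J) (x : Fin n → ℤ_[p]) :
    x ⬝ᵥ J *ᵥ x = 0 := by
  have h1 : x ⬝ᵥ J *ᵥ x = -(x ⬝ᵥ J *ᵥ x) := by
    conv_lhs => rw [dotProduct_mulVec, ← mulVec_transpose, hJ, neg_mulVec, neg_dotProduct,
      dotProduct_comm]
  have h2 : (2 : ℤ_[p]) * (x ⬝ᵥ J *ᵥ x) = 0 := by linear_combination h1
  exact (mul_eq_zero.1 h2).resolve_left two_ne_zero

/-- Unimodular forms. -/
theorem form_nd {n : ℕ} {J : Matrix (Fin n) (Fin n) ℤ_[p]} (hJ : IsUnit J.det)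
    (v : Fin n → ℤ_[p]) (hv : ∀ w, ¬ IsUnit (Matrix.toBilin' J v w)) :
    ∃ u, (p : ℤ_[p]) • u = v := by
  have h1 : ∀ a, ∃ y, (v ᵥ* J) a = (p : ℤ_[p]) * y := by
    intro a
    rw [← toZMod_eq_zero]
    by_contra h
    refine absurd ((isUnit_iff_toZMod _).2 h) ?_
    have h2 := hv (Pi.single a 1)
    rw [form_apply, dotProduct_mulVec] at h2
    rwa [dotProduct_single_one] at h2
  choose y hy using h1
  refine ⟨y ᵥ* J⁻¹, ?_⟩
  have h2 : v ᵥ* J = (p : ℤ_[p]) • y := funext fun a => by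
    rw [hy, Pi.smul_apply, smul_eq_mul]
  rw [← smul_vecMul, ← h2, vecMul_vecMul, Matrix.mul_nonsing_inv _ hJ, vecMul_one]

/-! ### the twisted representations -/

section rep

variable {Γ : Type} [Group Γ] {n : ℕ} (κ : Γ →* ℤ_[p]ˣ) (c : ℕ)
  (ρ : Γ →* Matrix (Fin n) (Fin n) ℤ_[p])

/-- The representation twisted by the power of the character. -/
def repT : Representation ℤ_[p] Γ (Fin n → ℤ_[p]) where
  toFun g := (((κ g) ^ c : ℤ_[p]ˣ) : ℤ_[p]) • Matrix.toLinAlgEquiv' (ρ g)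
  map_one' := by
    rw [map_one, one_pow, Units.val_one, one_smul, map_one, map_one]
  map_mul' g h := by
    rw [map_mul, map_mul, map_mul, mul_pow, Units.val_mul, smul_mul_smul_comm]

theorem repT_apply (g : Γ) (x : Fin n → ℤ_[p]) :
    repT κ c ρ g x = (((κ g) ^ c : ℤ_[p]ˣ) : ℤ_[p]) • (ρ g *ᵥ x) := rfl

/-- The forms. -/
theorem repT_form {J : Matrix (Fin n) (Fin n) ℤ_[p]} {w : ℕ} (hw : 2 * c = w + 1)
    (h : ∀ g, (ρ g)ᵀ * J * ρ g = ((((κ g)⁻¹) ^ w : ℤ_[p]ˣ) : ℤ_[p]) • J) (g : Γ)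
    (x y : Fin n → ℤ_[p]) :
    Matrix.toBilin' J (repT κ c ρ g x) (repT κ c ρ g y) = (κ g : ℤ_[p]) * Matrix.toBilin' J x y := by
  rw [repT_apply, repT_apply, form_apply, form_apply, smul_dotProduct, mulVec_smul,
    dotProduct_smul]
  have e1 : (ρ g *ᵥ x) ⬝ᵥ J *ᵥ (ρ g *ᵥ y) = x ⬝ᵥ ((ρ g)ᵀ * J * ρ g) *ᵥ y := by
    rw [← mulVec_mulVec, ← mulVec_mulVec, dotProduct_mulVec x, vecMul_transpose]
  rw [e1, h, smul_mulVec, dotProduct_smul]
  simp only [smul_eq_mul]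
  rw [← mul_assoc, ← mul_assoc, ← Units.val_mul, ← Units.val_mul]
  congr 2
  rw [← pow_add, ← two_mul, hw, pow_succ, inv_pow, mul_comm, ← mul_assoc, inv_mul_cancel, one_mul]

end rep

/-! ### the sum -/

section pi

variable {ι : Type} [Fintype ι] [DecidableEq ι] {N : ι → ℕ} {Γ : Type} [Group Γ]

/-- The sum of the representations. -/
def piR (r : ∀ i, Representation ℤ_[p] Γ (Fin (N i) → ℤ_[p])) :
    Representation ℤ_[p] Γ (∀ i, Fin (N i) → ℤ_[p]) where
  toFun g := LinearMap.pi fun i => r i g ∘ₗ LinearMap.proj i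
  map_one' := by
    refine LinearMap.ext fun x => funext fun i => ?_
    rw [LinearMap.pi_apply, map_one]
    rfl
  map_mul' g h := by
    refine LinearMap.ext fun x => funext fun i => ?_
    rw [LinearMap.pi_apply, map_mul]
    rfl

theorem piR_apply (r : ∀ i, Representation ℤ_[p] Γ (Fin (N i) → ℤ_[p])) (g : Γ)
    (x : ∀ i, Fin (N i) → ℤ_[p]) (i : ι) : piR r g x i = r i g (x i) := rfl

/-- The sum of the forms. -/
def piB (J : ∀ i, Matrix (Fin (N i)) (Fin (N i)) ℤ_[p]) :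
    (∀ i, Fin (N i) → ℤ_[p]) →ₗ[ℤ_[p]] (∀ i, Fin (N i) → ℤ_[p]) →ₗ[ℤ_[p]] ℤ_[p] :=
  ∑ i, (Matrix.toBilin' (J i)).compl₁₂ (LinearMap.proj i) (LinearMap.proj i)

theorem piB_apply (J : ∀ i, Matrix (Fin (N i)) (Fin (N i)) ℤ_[p]) (x y : ∀ i, Fin (N i) → ℤ_[p]) :
    piB J x y = ∑ i, Matrix.toBilin' (J i) (x i) (y i) := by
  rw [piB, LinearMap.sum_apply, LinearMap.sum_apply]
  rfl

variable (p N) in
/-- The projections. -/
def piP (i : ι) : Module.End ℤ_[p] (∀ i, Fin (N i) → ℤ_[p]) :=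
  LinearMap.single ℤ_[p] (fun i => Fin (N i) → ℤ_[p]) i ∘ₗ LinearMap.proj i

theorem piP_apply (i : ι) (x : ∀ i, Fin (N i) → ℤ_[p]) : piP p N i x = Pi.single i (x i) := rfl

theorem piP_sum (x : ∀ i, Fin (N i) → ℤ_[p]) : ∑ i, piP p N i x = x := Finset.univ_sum_single x

theorem piP_self (i : ι) (x : ∀ i, Fin (N i) → ℤ_[p]) : piP p N i (piP p N i x) = piP p N i x := by
  rw [piP_apply, piP_apply, Pi.single_eq_same]

theorem piP_ne (i j : ι) (x : ∀ i, Fin (N i) → ℤ_[p]) (h : i ≠ j) :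
    piP p N i (piP p N j x) = 0 := by
  rw [piP_apply, piP_apply, Pi.single_eq_of_ne h, Pi.single_zero]

variable {J : ∀ i, Matrix (Fin (N i)) (Fin (N i)) ℤ_[p]}

theorem piB_single_left (i : ι) (x : Fin (N i) → ℤ_[p]) (y : ∀ i, Fin (N i) → ℤ_[p]) :
    piB J (Pi.single i x) y = Matrix.toBilin' (J i) x (y i) := by
  rw [piB_apply, Finset.sum_eq_single i]
  · rw [Pi.single_eq_same]
  · intro j _ hj
    rw [Pi.single_eq_of_ne hj, map_zero, LinearMap.zero_apply]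
  · intro h
    exact absurd (Finset.mem_univ i) h

theorem piB_single_right (i : ι) (x : ∀ i, Fin (N i) → ℤ_[p]) (y : Fin (N i) → ℤ_[p]) :
    piB J x (Pi.single i y) = Matrix.toBilin' (J i) (x i) y := by
  rw [piB_apply, Finset.sum_eq_single i]
  · rw [Pi.single_eq_same]
  · intro j _ hj
    rw [Pi.single_eq_of_ne hj, map_zero]
  · intro h
    exact absurd (Finset.mem_univ i) h

theorem piB_piP (i : ι) (x y : ∀ i, Fin (N i) → ℤ_[p]) :
    piB J (piP p N i x) y = piB J x (piP p N i y) := by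
  rw [piP_apply, piP_apply, piB_single_left, piB_single_right]

theorem piB_self (hJ : ∀ i, (J i)ᵀ = -J i) (x : ∀ i, Fin (N i) → ℤ_[p]) : piB J x x = 0 := by
  rw [piB_apply]
  exact Finset.sum_eq_zero fun i _ => by rw [form_apply, form_alt (hJ i)]

theorem piB_nd (hJ : ∀ i, IsUnit (J i).det) (v : ∀ i, Fin (N i) → ℤ_[p])
    (hv : ∀ w, ¬ IsUnit (piB J v w)) : ∃ u, (p : ℤ_[p]) • u = v := by
  choose u hu using fun i => form_nd (hJ i) (v i) fun w hw => hv (Pi.single i w) (by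
    rwa [piB_single_right])
  exact ⟨u, funext hu⟩

theorem piB_inv {κ : Γ →* ℤ_[p]ˣ} {r : ∀ i, Representation ℤ_[p] Γ (Fin (N i) → ℤ_[p])}
    (hB : ∀ i s x y, Matrix.toBilin' (J i) (r i s x) (r i s y) =
      (κ s : ℤ_[p]) * Matrix.toBilin' (J i) x y) (s : Γ)
    (x y : ∀ i, Fin (N i) → ℤ_[p]) : piB J (piR r s x) (piR r s y) = (κ s : ℤ_[p]) * piB J x y := by
  rw [piB_apply, piB_apply, Finset.mul_sum]
  exact Finset.sum_congr rfl fun i _ => hB i s _ _

theorem piP_rho (r : ∀ i, Representation ℤ_[p] Γ (Fin (N i) → ℤ_[p])) (i : ι) (s : Γ)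
    (x : ∀ i, Fin (N i) → ℤ_[p]) : piP p N i (piR r s x) = piR r s (piP p N i x) := by
  funext j
  rw [piP_apply, piP_apply, piR_apply r s (Pi.single i (x i)) j]
  by_cases h : j = i
  · subst h
    rw [Pi.single_eq_same, Pi.single_eq_same, piR_apply]
  · rw [Pi.single_eq_of_ne h, Pi.single_eq_of_ne h, map_zero]

/-- Operators whose image is divisible by `p`. -/
theorem exists_div {T : Type*} [AddCommGroup T] [Module ℤ_[p] T] [Module.Free ℤ_[p] T]
    [Module.Finite ℤ_[p] T] (D : Module.End ℤ_[p] T) (h : ∀ x, ∃ y, D x = (p : ℤ_[p]) • y) :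
    ∃ Z : Module.End ℤ_[p] T, D = (p : ℤ_[p]) • Z := by
  let b := Module.Free.chooseBasis ℤ_[p] T
  choose y hy using h
  refine ⟨b.constr ℤ_[p] fun i => y (b i), b.ext fun i => ?_⟩
  rw [LinearMap.smul_apply, Module.Basis.constr_basis, hy]

theorem exists_div_pi {x : ∀ i, Fin (N i) → ℤ_[p]} (h : ∀ i a, (toZMod (x i a) : ZMod p) = 0) :
    ∃ y, x = (p : ℤ_[p]) • y := by
  choose y hy using fun i a => (toZMod_eq_zero _).1 (h i a)
  exact ⟨y, funext fun i => funext fun a => hy i a⟩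

theorem exists_lift {n : ℕ} (v : Fin n → ZMod p) :
    ∃ w : Fin n → ℤ_[p], ∀ a, (toZMod (w a) : ZMod p) = v a := by
  choose w hw using fun a => ZMod.ringHom_surjective (toZMod : ℤ_[p] →+* ZMod p) (v a)
  exact ⟨w, hw⟩

/-- Powers of transvections. -/
theorem transv_pow {n : ℕ} {J : Matrix (Fin n) (Fin n) ℤ_[p]} (hJ : Jᵀ = -J)
    {R : Matrix (Fin n) (Fin n) (ZMod p)} {v : Fin n → ZMod p} {c : ZMod p}
    (h : ∀ x, R *ᵥ x = x + (c * dot J v x) • v) (k : ℕ) (x : Fin n → ZMod p) :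
    (R ^ k) *ᵥ x = x + ((k : ZMod p) * c * dot J v x) • v := by
  have hvv : dot J v v = 0 := by
    obtain ⟨w, hw⟩ := exists_lift v
    have h1 := toZMod_dot J w w
    rw [form_alt hJ, map_zero] at h1
    have h2 : (fun b => (toZMod (w b) : ZMod p)) = v := funext hw
    rw [h2] at h1
    exact h1.symm
  induction k with
  | zero => rw [pow_zero, one_mulVec, Nat.cast_zero, zero_mul, zero_mul, zero_smul, add_zero]
  | succ k ih =>
    rw [pow_succ', ← mulVec_mulVec, ih, h]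
    have h3 : dot J v (x + ((k : ZMod p) * c * dot J v x) • v) = dot J v x := by
      rw [dot, mulVec_add, mulVec_smul, dotProduct_add, dotProduct_smul]
      have h4 : v ⬝ᵥ red J *ᵥ v = 0 := hvv
      rw [h4, smul_zero, add_zero]
      rfl
    rw [h3, Nat.cast_succ]
    module

end pi

end

end Pool.Agent.U175.LP
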