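import Mathlib
import Pool.Agent.Y142.ZO.Stm
import Pool.Agent.U175.LP.T6
import Pool.Agent.U175.LP.R3

/-!
# Elements of the Lie algebra without isotropic relation from transvections modulo `p`
-/

set_option autoImplicit false
set_option linter.unusedSectionVars false

namespace Pool.Agent.U175.LP

open PadicInt Module Matrix Filter Topology Pool.Agent.U175.LP.Pub Pool.Agent.R932.SQ
open Pool.Agent.Y142.ZO

noncomputable section

variable {p : ℕ} [hp : Fact p.Prime] {n : ℕ} {Γ : Type} [Group Γ]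
  (R : Γ →* Matrix (Fin n) (Fin n) ℤ_[p]) (κ : Γ →* ℤ_[p]ˣ)

/-- The action on the lattice together with the multiplier. -/
def Rm : Γ →* Matrix (Fin n) (Fin n) ℤ_[p] × ℤ_[p] := R.prod ((Units.coeHom ℤ_[p]).comp κ)

theorem Rm_apply (g : Γ) : Rm R κ g = (R g, (κ g : ℤ_[p])) := rfl

variable {R κ}

/-- Transvections modulo `p` give tangent vectors modulo `p`. -/
theorem Rm_transv (hp5 : 5 ≤ p) {E : Matrix (Fin n) (Fin n) ℤ_[p]} (hE : E * E = 0) {g : Γ}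
    (hR : ∃ Z, R g = 1 + (E + (p : ℤ_[p]) • Z))
    (hκ : ∃ z, (κ g : ℤ_[p]) = 1 + (p : ℤ_[p]) • z) :
    ∃ W, TanA p (Rm R κ) ((E, 0) + (p : ℤ_[p]) • W) := by
  obtain ⟨Z, hZ⟩ := hR
  obtain ⟨z, hz⟩ := hκ
  obtain ⟨W, hW⟩ := unip_pow hp5 (Z := Z) hE
  obtain ⟨v, hv⟩ := pow_lin (p := p) (z : ℤ_[p]) 1 p
  have h0 : Rm R κ (g ^ p) = 1 + (p : ℤ_[p]) • ((E, 0) + (p : ℤ_[p]) • (W, z + v)) := by
    rw [map_pow, Rm_apply, hZ, hz, Prod.pow_mk, hW]
    rw [pow_one] at hv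
    rw [hv]
    refine Prod.ext ?_ ?_
    · rfl
    · change 1 + (p : ℤ_[p]) • ((p : ℤ_[p]) • z) + (p : ℤ_[p]) ^ (1 + 1) • v =
        1 + (p : ℤ_[p]) • (0 + (p : ℤ_[p]) • (z + v))
      module
  obtain ⟨Z', hZ'⟩ := exists_log (by omega) h0
  refine ⟨(W, z + v) + Z', ?_⟩
  convert! hZ' using 1
  module

/-- Tangent vectors are infinitesimal similitudes. -/
theorem Rm_norm {J : Matrix (Fin n) (Fin n) ℤ_[p]}
    (hJ : ∀ g, (R g)ᵀ * J * R g = (κ g : ℤ_[p]) • J) {Y : Matrix (Fin n) (Fin n) ℤ_[p]} {c : ℤ_[p]}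
    (h : TanA p (Rm R κ) (Y, c)) : Yᵀ * J + J * Y = c • J := by
  refine sub_eq_zero.1 (eq_zero_of_dvd_pow' (p := p) fun m => ?_)
  obtain ⟨n₀, h0⟩ := h m
  obtain ⟨σ, ⟨Z, z⟩, hσ⟩ := h0 (max n₀ m) (le_max_left _ _)
  obtain ⟨k, hk⟩ : ∃ k, max n₀ m = m + k := ⟨max n₀ m - m, by omega⟩
  rw [hk] at hσ
  have h1 : R σ = 1 + (p : ℤ_[p]) ^ (m + k) • (Y + (p : ℤ_[p]) ^ m • Z) := congrArg Prod.fst hσ
  have h2 : (κ σ : ℤ_[p]) = 1 + (p : ℤ_[p]) ^ (m + k) * (c + (p : ℤ_[p]) ^ m * z) :=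
    congrArg Prod.snd hσ
  have h3 := hJ σ
  rw [h1, h2] at h3
  set U := Y + (p : ℤ_[p]) ^ m • Z with hU
  rw [transpose_add, transpose_one, transpose_smul, add_mul, add_mul, mul_add, mul_add, one_mul,
    mul_one, mul_one, smul_mul_assoc, smul_mul_assoc, mul_smul_comm, mul_smul_comm] at h3
  have h4 : (p : ℤ_[p]) ^ (m + k) • (Uᵀ * J + J * U + (p : ℤ_[p]) ^ (m + k) • (Uᵀ * J * U)) =
      (p : ℤ_[p]) ^ (m + k) • ((c + (p : ℤ_[p]) ^ m * z) • J) := by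
    have h5 : (p : ℤ_[p]) ^ (m + k) • (Uᵀ * J + J * U + (p : ℤ_[p]) ^ (m + k) • (Uᵀ * J * U)) =
        (J + (p : ℤ_[p]) ^ (m + k) • (Uᵀ * J) + ((p : ℤ_[p]) ^ (m + k) • (J * U) +
          (p : ℤ_[p]) ^ (m + k) • (p : ℤ_[p]) ^ (m + k) • (Uᵀ * J * U))) - J := by
      module
    have h6 : J + (p : ℤ_[p]) ^ (m + k) • (Uᵀ * J) + ((p : ℤ_[p]) ^ (m + k) • (J * U) +
          (p : ℤ_[p]) ^ (m + k) • (p : ℤ_[p]) ^ (m + k) • (Uᵀ * J * U)) =
        (1 + (p : ℤ_[p]) ^ (m + k) * (c + (p : ℤ_[p]) ^ m * z)) • J := by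
      rw [← h3]
      first
        | rfl
        | abel
    rw [h5, h6]
    module
  have h5 := p_cancel h4
  have h6 : Uᵀ * J + J * U = Yᵀ * J + J * Y + (p : ℤ_[p]) ^ m • (Zᵀ * J + J * Z) := by
    rw [hU, transpose_add, transpose_smul, add_mul, mul_add, smul_mul_assoc, mul_smul_comm]
    module
  refine ⟨z • J - (Zᵀ * J + J * Z) - (p : ℤ_[p]) ^ k • (Uᵀ * J * U), ?_⟩
  rw [h6] at h5
  have h7 : Yᵀ * J + J * Y = (c + (p : ℤ_[p]) ^ m * z) • J - (p : ℤ_[p]) ^ m • (Zᵀ * J + J * Z) -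
      (p : ℤ_[p]) ^ (m + k) • (Uᵀ * J * U) := by
    rw [← h5]
    abel
  rw [h7, pow_add]
  module

/-- Tangent vectors over the `p`-adic numbers. -/
theorem isTangent_of_tanA (ρ : Γ →* Matrix (Fin n) (Fin n) ℚ_[p])
    (hρ : ∀ g, ρ g = (R g).map (algebraMap ℤ_[p] ℚ_[p])) {Y : Matrix (Fin n) (Fin n) ℤ_[p]}
    {c : ℤ_[p]} (hX : TanA p (Rm R κ) (Y, c)) :
    IsTangent p ρ (Y.map (algebraMap ℤ_[p] ℚ_[p])) := by
  classical
  have key : ∀ m : ℕ, ∃ n₀ : ℕ, ∀ n', n₀ ≤ n' → ∃ (σ : Γ),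
      ∃ Z : Matrix (Fin n) (Fin n) ℤ_[p],
        R σ = 1 + (p : ℤ_[p]) ^ n' • (Y + (p : ℤ_[p]) ^ m • Z) := by
    intro m
    obtain ⟨n₀, h0⟩ := hX m
    refine ⟨n₀, fun n' hn => ?_⟩
    obtain ⟨σ, Z, hσ⟩ := h0 n' hn
    exact ⟨σ, Z.1, congrArg Prod.fst hσ⟩
  choose n₀ h0 using key
  let P : ℕ → ℕ → Prop := fun n' m => n₀ m ≤ n'
  have hσ : ∀ n' : ℕ, ∃ σ : Γ, (∃ m ≤ n', n₀ m ≤ n') →
      ∃ Z : Matrix (Fin n) (Fin n) ℤ_[p], R σ =
        1 + (p : ℤ_[p]) ^ n' • (Y + (p : ℤ_[p]) ^ (Nat.findGreatest (P n') n') • Z) := by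
    intro n'
    by_cases hn : ∃ m ≤ n', n₀ m ≤ n'
    · obtain ⟨m, hm, hmn⟩ := hn
      have h1 : P n' (Nat.findGreatest (P n') n') := Nat.findGreatest_spec (P := P n') hm hmn
      obtain ⟨σ, hσ⟩ := h0 _ n' h1
      exact ⟨σ, fun _ => hσ⟩
    · exact ⟨1, fun h' => absurd h' hn⟩
  choose σ hσ using hσ
  refine ⟨σ, ?_⟩
  refine tendsto_pi_nhds.2 fun a => tendsto_pi_nhds.2 fun b => ?_
  rw [Metric.tendsto_atTop]
  intro ε hε
  have hpp : ((p : ℝ))⁻¹ < 1 := inv_lt_one_of_one_lt₀ (by exact_mod_cast hp.out.one_lt)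
  have hpp0 : (0 : ℝ) ≤ ((p : ℝ))⁻¹ := by positivity
  obtain ⟨m, hm⟩ := exists_pow_lt_of_lt_one hε hpp
  refine ⟨max m (n₀ m), fun n' hn => ?_⟩
  have hmn : m ≤ n' := (le_max_left _ _).trans hn
  have hmn' : n₀ m ≤ n' := (le_max_right _ _).trans hn
  obtain ⟨Z, hZ⟩ := hσ n' ⟨m, hmn, hmn'⟩
  have hle : m ≤ Nat.findGreatest (P n') n' := Nat.le_findGreatest hmn hmn'
  set M := Nat.findGreatest (P n') n' with hM
  have h2 : (p : ℚ_[p]) ≠ 0 := by exact_mod_cast hp.out.ne_zero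
  have h1 : ρ (σ n') = 1 + (p : ℚ_[p]) ^ n' • (Y.map (algebraMap ℤ_[p] ℚ_[p]) +
      (p : ℚ_[p]) ^ M • Z.map (algebraMap ℤ_[p] ℚ_[p])) := by
    rw [hρ, hZ]
    ext a b
    simp only [Matrix.map_apply, Matrix.add_apply, Matrix.smul_apply, smul_eq_mul, map_add,
      map_mul, map_pow, map_natCast, Matrix.one_apply]
    congr 1
    split_ifs <;> simp
  have h3 : (((p : ℚ_[p]) ^ n')⁻¹ • (ρ (σ n') - 1)) a b = (Y.map (algebraMap ℤ_[p] ℚ_[p])) a b +
      (p : ℚ_[p]) ^ M * (algebraMap ℤ_[p] ℚ_[p] (Z a b)) := by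
    rw [h1, add_sub_cancel_left, smul_smul, inv_mul_cancel₀ (pow_ne_zero _ h2), one_smul]
    rfl
  rw [h3, dist_eq_norm, add_sub_cancel_left, norm_mul, norm_pow, Padic.norm_p]
  calc ((p : ℝ))⁻¹ ^ M * ‖algebraMap ℤ_[p] ℚ_[p] (Z a b)‖ ≤ ((p : ℝ))⁻¹ ^ M * 1 :=
        mul_le_mul_of_nonneg_left (Z a b).2 (by positivity)
    _ ≤ ((p : ℝ))⁻¹ ^ m := by
      rw [mul_one]
      exact pow_le_pow_of_le_one hpp0 hpp.le hle
    _ < ε := hm

/-- The matrix `M` acts modulo `p` as a transvection with the vector `v`. -/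
def IsTrv (J M : Matrix (Fin n) (Fin n) ℤ_[p]) (v : Fin n → ZMod p) : Prop :=
  ∃ c : ZMod p, c ≠ 0 ∧ ∀ x, (red M).mulVec x = x + (c * dot J v x) • v

variable (R κ) in
/-- `X` is the reduction of a tangent vector. -/
def LrP (X : Module.End (ZMod p) (Fin n → ZMod p)) : Prop :=
  ∃ (Y : Matrix (Fin n) (Fin n) ℤ_[p]) (c : ℤ_[p]), TanA p (Rm R κ) (Y, c) ∧
    LinearMap.toMatrix' X = red Y

theorem LrP_zero : LrP R κ 0 := by
  have h0 : TanA p (Rm R κ) (0 : Matrix (Fin n) (Fin n) ℤ_[p] × ℤ_[p]) := TanA_zero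
  refine ⟨0, 0, by rw [Prod.mk_zero_zero]; exact h0, ?_⟩
  rw [map_zero]
  ext a b
  rw [red_apply, Matrix.zero_apply, Matrix.zero_apply, map_zero]

theorem LrP_add {X X' : Module.End (ZMod p) (Fin n → ZMod p)} (h : LrP R κ X) (h' : LrP R κ X') :
    LrP R κ (X + X') := by
  obtain ⟨Y, c, h, h1⟩ := h
  obtain ⟨Y', c', h', h1'⟩ := h'
  have h2 := TanA_add h h'
  rw [Prod.mk_add_mk] at h2
  refine ⟨Y + Y', c + c', h2, ?_⟩
  rw [map_add, h1, h1']
  ext a b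
  rw [Matrix.add_apply, red_apply, red_apply, red_apply, Matrix.add_apply, map_add]

theorem LrP_smul (r : ZMod p) {X : Module.End (ZMod p) (Fin n → ZMod p)} (h : LrP R κ X) :
    LrP R κ (r • X) := by
  obtain ⟨Y, c, h, h1⟩ := h
  obtain ⟨s, hs⟩ := ZMod.ringHom_surjective (toZMod : ℤ_[p] →+* ZMod p) r
  have h2 := TanA_smul s h
  rw [Prod.smul_mk] at h2
  refine ⟨s • Y, s • c, h2, ?_⟩
  rw [map_smul, h1]
  ext a b
  rw [Matrix.smul_apply, red_apply, red_apply, Matrix.smul_apply, smul_eq_mul, smul_eq_mul,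
    map_mul, hs]

variable (R κ) in
/-- The reductions of the tangent vectors. -/
def Lr : Submodule (ZMod p) (Module.End (ZMod p) (Fin n → ZMod p)) where
  carrier := {X | LrP R κ X}
  zero_mem' := LrP_zero
  add_mem' := LrP_add
  smul_mem' := fun r _ h => LrP_smul r h

theorem mem_Lr {X : Module.End (ZMod p) (Fin n → ZMod p)} : X ∈ Lr R κ ↔ LrP R κ X := Iff.rfl

theorem red_sub {m q : ℕ} (A B : Matrix (Fin m) (Fin q) ℤ_[p]) : red (A - B) = red A - red B := by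
  ext a b
  rw [Matrix.sub_apply, red_apply, red_apply, red_apply, Matrix.sub_apply, map_sub]

theorem red_smul {m q : ℕ} (r : ℤ_[p]) (A : Matrix (Fin m) (Fin q) ℤ_[p]) :
    red (r • A) = (toZMod r : ZMod p) • red A := by
  ext a b
  rw [Matrix.smul_apply, red_apply, red_apply, Matrix.smul_apply, smul_eq_mul, smul_eq_mul, map_mul]

theorem Lr_bracket {X X' : Module.End (ZMod p) (Fin n → ZMod p)} (h : X ∈ Lr R κ)
    (h' : X' ∈ Lr R κ) : X * X' - X' * X ∈ Lr R κ := by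
  obtain ⟨Y, c, h, h1⟩ := mem_Lr.1 h
  obtain ⟨Y', c', h', h1'⟩ := mem_Lr.1 h'
  have h2 := TanA_bracket h h'
  rw [Prod.mk_mul_mk, Prod.mk_mul_mk, Prod.mk_sub_mk] at h2
  refine mem_Lr.2 ⟨Y * Y' - Y' * Y, c * c' - c' * c, h2, ?_⟩
  rw [map_sub, LinearMap.toMatrix'_mul, LinearMap.toMatrix'_mul, h1, h1', red_sub, red_mul, red_mul]

/-- The form modulo `p`. -/
def Br (J : Matrix (Fin n) (Fin n) ℤ_[p]) :
    (Fin n → ZMod p) →ₗ[ZMod p] (Fin n → ZMod p) →ₗ[ZMod p] ZMod p := Matrix.toBilin' (red J)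

theorem Br_apply (J : Matrix (Fin n) (Fin n) ℤ_[p]) (x y : Fin n → ZMod p) :
    Br J x y = dot J x y := Matrix.toBilin'_apply' (red J) x y

theorem Br_alt {J : Matrix (Fin n) (Fin n) ℤ_[p]} (hJ : Jᵀ = -J) (x : Fin n → ZMod p) :
    Br J x x = 0 := by
  rw [Br_apply]
  obtain ⟨w, hw⟩ := exists_lift x
  have h1 := toZMod_dot J w w
  rw [form_alt hJ, map_zero] at h1
  have h2 : (fun b => (toZMod (w b) : ZMod p)) = x := funext hw
  rw [h2] at h1
  exact h1.symm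

/-- The vectors of transvections. -/
theorem Lr_transv (hp5 : 5 ≤ p) {J : Matrix (Fin n) (Fin n) ℤ_[p]} (hJ : Jᵀ = -J) {g : Γ}
    {v : Fin n → ZMod p} (hg : IsTrv J (R g) v) : sk (Br J) v v ∈ Lr R κ := by
  classical
  have hpp := hp.out
  obtain ⟨c₀, hc₀, hself⟩ := hg
  obtain ⟨w, hw⟩ := exists_lift v
  have hw' : (fun b => (toZMod (w b) : ZMod p)) = v := funext hw
  obtain ⟨c', hc'⟩ := ZMod.ringHom_surjective (toZMod : ℤ_[p] →+* ZMod p) (-c₀)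
  have hpc : ((p - 1 : ℕ) : ZMod p) = -1 := by
    rw [Nat.cast_sub hpp.one_lt.le, ZMod.natCast_self]
    ring
  let E : Matrix (Fin n) (Fin n) ℤ_[p] := c' • vecMulVec w (w ᵥ* J)
  have hEx : ∀ x : Fin n → ZMod p, red E *ᵥ x = (-c₀ * dot J v x) • v := by
    intro x
    funext a
    obtain ⟨y, hy⟩ := exists_lift x
    have hy' : (fun b => (toZMod (y b) : ZMod p)) = x := funext hy
    have h1 := toZMod_mulVec E y a
    rw [hy'] at h1
    rw [← h1]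
    have h2 : (E *ᵥ y) a = c' * ((w ⬝ᵥ J *ᵥ y) * w a) := by
      simp only [E]
      rw [smul_mulVec, Pi.smul_apply, smul_eq_mul, vecMulVec_mulVec, dotProduct_mulVec]
      simp [mul_comm]
    rw [h2, map_mul, map_mul, toZMod_dot, hw', hy', hc', hw, Pi.smul_apply, smul_eq_mul]
    ring
  have hEE : E * E = 0 := by
    simp only [E]
    rw [smul_mul_smul_comm, vecMulVec_mul_vecMulVec]
    have h1 : (w ᵥ* J) ⬝ᵥ w = 0 := by rw [← dotProduct_mulVec, form_alt hJ]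
    rw [h1]
    simp
  have hκ : ∃ z, (κ (g ^ (p - 1)) : ℤ_[p]) = 1 + (p : ℤ_[p]) • z := by
    have h1 : (toZMod (((κ (g ^ (p - 1)) : ℤ_[p]ˣ) : ℤ_[p])) : ZMod p) = 1 := by
      rw [map_pow, Units.val_pow_eq_pow_val, map_pow]
      exact ZMod.pow_card_sub_one_eq_one ((isUnit_iff_toZMod _).1 (κ g).isUnit)
    obtain ⟨z, hz⟩ := (toZMod_eq_zero ((κ (g ^ (p - 1)) : ℤ_[p]) - 1)).1 (by
      rw [map_sub, h1, map_one, sub_self])
    exact ⟨z, by rw [smul_eq_mul, ← hz]; ring⟩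
  have hR : ∃ Z, R (g ^ (p - 1)) = 1 + (E + (p : ℤ_[p]) • Z) := by
    have h1 : red (R (g ^ (p - 1))) = red (1 + E) := by
      rw [map_pow, red_pow]
      refine Matrix.ext_of_mulVec_single fun b => ?_
      rw [transv_pow hJ hself, hpc]
      have h2 : red (1 + E) = 1 + red E := by
        ext a b
        rw [Matrix.add_apply, red_apply, red_apply, Matrix.add_apply, map_add, ← red_apply 1,
          red_one]
      rw [h2, add_mulVec, one_mulVec, hEx]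
      congr 2
      ring
    obtain ⟨Z, hZ⟩ := exists_of_red h1
    exact ⟨Z, by rw [hZ]; abel⟩
  obtain ⟨⟨W, z⟩, hW⟩ := Rm_transv hp5 hEE hR hκ
  rw [Prod.smul_mk, Prod.mk_add_mk] at hW
  have h3 : ∀ X : Module.End (ZMod p) (Fin n → ZMod p), LinearMap.toMatrix' X = red E →
      X ∈ Lr R κ := by
    intro X hX
    refine mem_Lr.2 ⟨E + (p : ℤ_[p]) • W, 0 + (p : ℤ_[p]) • z, hW, ?_⟩
    rw [hX]
    ext a b
    rw [red_apply, red_apply, Matrix.add_apply, Matrix.smul_apply, map_add, smul_eq_mul, map_mul]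
    have h4 : (toZMod (p : ℤ_[p]) : ZMod p) = 0 := by rw [map_natCast, ZMod.natCast_self]
    rw [h4, zero_mul, add_zero]
  have h2 : (2 : ZMod p) ≠ 0 := by
    intro h
    have h3 : ((2 : ℕ) : ZMod p) = 0 := by exact_mod_cast h
    rw [ZMod.natCast_eq_zero_iff] at h3
    exact absurd (Nat.le_of_dvd (by norm_num) h3) (by omega)
  have h5 : (-c₀ / 2) • sk (Br J) v v ∈ Lr R κ := by
    refine h3 _ ?_
    refine Matrix.ext_of_mulVec_single fun b => ?_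
    rw [LinearMap.toMatrix'_mulVec, hEx, LinearMap.smul_apply, sk_apply, Br_apply, ← add_smul,
      smul_smul]
    congr 1
    field_simp
    ring
  have h6 : (-c₀ / 2) ≠ 0 := div_ne_zero (neg_ne_zero.2 hc₀) h2
  have h7 := (Lr R κ).smul_mem (-c₀ / 2)⁻¹ h5
  rwa [smul_smul, inv_mul_cancel₀ h6, one_smul] at h7

/-- **Elements of the Lie algebra without isotropic relation from transvections modulo `p`.** -/
theorem exists_noRel_tan (hp5 : 5 ≤ p) {J : Matrix (Fin n) (Fin n) ℤ_[p]} (hJ : Jᵀ = -J)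
    (hJd : IsUnit J.det) (hinv : ∀ g, (R g)ᵀ * J * R g = (κ g : ℤ_[p]) • J)
    (hS : Submodule.span (ZMod p) {v | ∃ g, IsTrv J (R g) v} = ⊤) :
    ∃ M : Matrix (Fin n) (Fin n) ℤ_[p], TanA p (Rm R κ) (M, 0) ∧ Mᵀ * J + J * M = 0 ∧
      NoRel (M.map (algebraMap ℤ_[p] ℚ_[p])).charpoly 0 := by
  classical
  have h2 : (2 : ZMod p) ≠ 0 := by
    intro h
    have h3 : ((2 : ℕ) : ZMod p) = 0 := by exact_mod_cast h
    rw [ZMod.natCast_eq_zero_iff] at h3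
    exact absurd (Nat.le_of_dvd (by norm_num) h3) (by omega)
  obtain ⟨m, hn, P, Q, -, hQP, hY⟩ := exists_torus (B := Br J) (L := Lr R κ) h2 (Br_alt hJ)
    (fun X hX Y hY => Lr_bracket hX hY) (fun v hv => by
      have h3 : (red J).det ≠ 0 := by
        have h4 : (red J).det = toZMod J.det := by
          rw [RingHom.map_det]
          rfl
        rw [h4]
        exact (isUnit_iff_toZMod _).1 hJd
      refine Matrix.eq_zero_of_vecMul_eq_zero h3 (dotProduct_eq_zero_iff.1 fun w => ?_)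
      have h6 := hv w
      rw [Br_apply, dot, dotProduct_mulVec] at h6
      exact h6)
    (by
      rw [← top_le_iff, ← hS]
      refine Submodule.span_mono ?_
      rintro v ⟨g, hg⟩
      exact Lr_transv hp5 hJ hg)
  have hY' : ∀ i : Fin m, ∃ Y : Matrix (Fin n) (Fin n) ℤ_[p], TanA p (Rm R κ) (Y, 0) ∧
      red Y = P * Matrix.diagonal (Sum.elim
          (fun j => if j = i then (-1 : ZMod p) else 0)
          (fun j => if j = i then (1 : ZMod p) else 0)) * Q := by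
    intro i
    obtain ⟨u, f, ⟨Y, c, h, h1⟩, ⟨Y', c', h', h1'⟩, huf, hPQ⟩ := hY i
    obtain ⟨s, hs⟩ := ZMod.ringHom_surjective (toZMod : ℤ_[p] →+* ZMod p) (2 * 2)⁻¹
    refine ⟨s • (Y * Y' - Y' * Y), ?_, ?_⟩
    · have h3 := TanA_smul s (TanA_bracket h h')
      convert! h3 using 1
      refine Prod.ext rfl ?_
      change (0 : ℤ_[p]) = s * (c * c' - c' * c)
      ring
    · rw [red_smul, red_sub, red_mul, red_mul, ← h1, ← h1', ← LinearMap.toMatrix'_mul,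
        ← LinearMap.toMatrix'_mul, ← map_sub, bracket_sk _ (Br_alt hJ), ← hPQ, ← map_smul, hs]
      congr 1
      rw [sk_apply, huf, one_smul, sk_add_left, sk_add_right, sk_comm (Br J) f]
      have h4 : sk (Br J) u f + sk (Br J) u f + (sk (Br J) u f + sk (Br J) u f) =
          ((2 : ZMod p) * 2) • sk (Br J) u f := by module
      rw [h4, smul_smul, inv_mul_cancel₀ (mul_ne_zero h2 h2), one_smul]
  choose Y hYt hYr using hY'
  have hYJ : ∀ i, (Y i)ᵀ * J + J * Y i = 0 := fun i => by rw [Rm_norm hinv (hYt i), zero_smul]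
  obtain ⟨t, ht⟩ := exists_noRel hn (IsUnit.ne_zero hJd) Y hYJ P Q hQP hYr
  have hMt : ∀ s : Finset (Fin m), TanA p (Rm R κ) (∑ i ∈ s, t i • Y i, 0) := by
    intro s
    induction s using Finset.induction_on with
    | empty =>
      rw [Finset.sum_empty]
      exact TanA_zero
    | insert a s ha ih =>
      rw [Finset.sum_insert ha]
      have h3 := TanA_add (TanA_smul (t a) (hYt a)) ih
      convert! h3 using 1
      refine Prod.ext rfl ?_
      change (0 : ℤ_[p]) = t a * 0 + 0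
      ring
  refine ⟨∑ i, t i • Y i, hMt _, ?_, ht⟩
  rw [Rm_norm hinv (hMt Finset.univ), zero_smul]

end

end Pool.Agent.U175.LP
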