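import Mathlib
import Pool.Agent.U175.LP.R4

/-!
# Logarithms of unipotent elements modulo `p`
-/

set_option autoImplicit false
set_option linter.unusedSectionVars false

namespace Pool.Agent.U175.LP

open PadicInt Module Matrix Filter Topology Pool.Agent.U175.LP.Pub

noncomputable section

variable {p : ℕ} [hp : Fact p.Prime]

theorem choose_pred (i : ℕ) (hi : i < p) : (((p - 1).choose i : ℕ) : ZMod p) = (-1) ^ i := by
  induction i with
  | zero => simp
  | succ i ih =>
    have h1 : p.choose (i + 1) = (p - 1).choose i + (p - 1).choose (i + 1) := by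
      obtain ⟨q, hq⟩ : ∃ q, p = q + 1 := ⟨p - 1, by have := hp.out.pos; omega⟩
      have h2 : p - 1 = q := by omega
      rw [h2]
      have h3 : p.choose (i + 1) = (q + 1).choose (i + 1) := by rw [← hq]
      rw [h3, Nat.choose_succ_succ]
    have h2 : ((p.choose (i + 1) : ℕ) : ZMod p) = 0 := by
      rw [ZMod.natCast_eq_zero_iff]
      exact hp.out.dvd_choose_self (Nat.succ_ne_zero i) hi
    rw [h1, Nat.cast_add, ih (by omega)] at h2
    rw [pow_succ]
    linear_combination h2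

/-- The numbers `(p choose j) / p`. -/
def dj (p j : ℕ) : ℕ := p.choose j / p

theorem dj_spec {j : ℕ} (h0 : j ≠ 0) (hj : j < p) : p * dj p j = p.choose j :=
  Nat.mul_div_cancel' (hp.out.dvd_choose_self h0 hj)

theorem dj_cast {j : ℕ} (h0 : j ≠ 0) (hj : j < p) :
    ((dj p j : ℕ) : ZMod p) = (-1) ^ (j + 1) * ((j : ℕ) : ZMod p)⁻¹ := by
  obtain ⟨i, rfl⟩ : ∃ i, j = i + 1 := ⟨j - 1, by omega⟩
  have hj0 : (((i + 1 : ℕ)) : ZMod p) ≠ 0 := by
    intro h
    rw [ZMod.natCast_eq_zero_iff] at h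
    exact absurd (Nat.le_of_dvd (by omega) h) (by omega)
  have h1 : (i + 1) * dj p (i + 1) = (p - 1).choose i := by
    have h2 : p * ((i + 1) * dj p (i + 1)) = p * (p - 1).choose i := by
      have h3 : p * (p - 1).choose i = p.choose (i + 1) * (i + 1) := by
        obtain ⟨q, hq⟩ : ∃ q, p = q + 1 := ⟨p - 1, by have := hp.out.pos; omega⟩
        have h4 : p - 1 = q := by omega
        rw [h4]
        have h5 := Nat.add_one_mul_choose_eq q i
        rw [← hq] at h5
        exact h5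
      rw [h3, ← dj_spec h0 hj]
      ring
    exact Nat.eq_of_mul_eq_mul_left hp.out.pos h2
  have h2 := congrArg (fun t : ℕ => (t : ZMod p)) h1
  simp only [Nat.cast_mul] at h2
  rw [choose_pred i (by omega)] at h2
  rw [eq_comm, mul_comm, inv_mul_eq_iff_eq_mul₀ hj0, h2]
  ring

/-- The `p`-th power of an element which is nilpotent modulo `p`. -/
theorem nlog_pow {A : Type*} [Ring A] [Algebra ℤ_[p] A] {N F : A} {k : ℕ} (hk : 2 * k ≤ p)
    (hN : N ^ k = (p : ℤ_[p]) • F) :
    (1 + N) ^ p = 1 + (p : ℤ_[p]) • ((∑ j ∈ Finset.Ico 1 p, ((dj p j : ℕ) : ℤ_[p]) • N ^ j) +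
      (p : ℤ_[p]) • (N ^ (p - 2 * k) * (F * F))) := by
  have h1 : N ^ p = (p : ℤ_[p]) • (p : ℤ_[p]) • (N ^ (p - 2 * k) * (F * F)) := by
    have h2 : N ^ p = N ^ (p - 2 * k) * (N ^ k * N ^ k) := by
      rw [← pow_add, ← pow_add]
      congr 1
      omega
    rw [h2, hN, smul_mul_smul_comm, mul_smul_comm, smul_smul]
  rw [add_comm (1 : A), Commute.add_pow (Commute.one_right _)]
  simp only [one_pow, mul_one]
  rw [Finset.sum_range_succ, Nat.choose_self, Nat.cast_one, mul_one, h1, Finset.range_eq_Ico,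
    Finset.sum_eq_sum_Ico_succ_bot hp.out.pos, pow_zero, Nat.choose_zero_right, Nat.cast_one,
    one_mul, zero_add, smul_add, Finset.smul_sum]
  have h3 : ∑ j ∈ Finset.Ico 1 p, N ^ j * ((p.choose j : ℕ) : A) =
      ∑ j ∈ Finset.Ico 1 p, (p : ℤ_[p]) • ((dj p j : ℕ) : ℤ_[p]) • N ^ j := by
    refine Finset.sum_congr rfl fun j hj => ?_
    rw [Finset.mem_Ico] at hj
    rw [← dj_spec (p := p) (by omega : j ≠ 0) hj.2, smul_smul, ← Nat.cast_mul,
      Nat.cast_smul_eq_nsmul, nsmul_eq_mul, Nat.cast_commute]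
  rw [h3, add_assoc]

variable {n : ℕ}

/-- The logarithm of a unipotent matrix modulo `p`. -/
def nlog (u : Matrix (Fin n) (Fin n) (ZMod p)) : Matrix (Fin n) (Fin n) (ZMod p) :=
  ∑ j ∈ Finset.Ico 1 p, ((-1) ^ (j + 1) * ((j : ℕ) : ZMod p)⁻¹) • (u - 1) ^ j

theorem conj_pow' {F : Type*} [Field F] {K Y : Matrix (Fin n) (Fin n) F} (hK : IsUnit K.det) (k : ℕ) :
    (K⁻¹ * Y * K) ^ k = K⁻¹ * Y ^ k * K := by
  induction k with
  | zero => rw [pow_zero, pow_zero, mul_one, Matrix.nonsing_inv_mul _ hK]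
  | succ k ih =>
    rw [pow_succ, ih, pow_succ]
    have h1 : K⁻¹ * Y ^ k * K * (K⁻¹ * Y * K) = K⁻¹ * Y ^ k * (K * K⁻¹) * Y * K := by
      simp only [Matrix.mul_assoc]
    rw [h1, Matrix.mul_nonsing_inv _ hK, Matrix.mul_one, Matrix.mul_assoc K⁻¹]

/-- The multiplier of a unipotent similitude is `1`. -/
theorem mult_one {F : Type*} [Field F] (hn : 0 < n) {K u : Matrix (Fin n) (Fin n) F}
    (hK : IsUnit K.det) {c : F} (hu : uᵀ * K * u = c • K) {k : ℕ} (hk : (u - 1) ^ k = 0) : c = 1 := by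
  have hν : IsNilpotent (u - 1) := ⟨k, hk⟩
  have huu : IsUnit u := by
    have h1 := hν.isUnit_one_add
    rwa [add_sub_cancel] at h1
  set w := K⁻¹ * uᵀ * K with hw
  have h1 : w * u = c • 1 := by
    have h2 : w * u = K⁻¹ * (uᵀ * K * u) := by
      rw [hw]
      simp only [Matrix.mul_assoc]
    rw [h2, hu, mul_smul_comm, Matrix.nonsing_inv_mul _ hK]
  have h2 : IsNilpotent (w - 1) := by
    have h3 : w - 1 = K⁻¹ * (u - 1)ᵀ * K := by
      rw [transpose_sub, transpose_one, Matrix.mul_sub, Matrix.sub_mul, mul_one,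
        Matrix.nonsing_inv_mul _ hK]
    refine ⟨k, ?_⟩
    rw [h3, conj_pow' hK, ← transpose_pow, hk, transpose_zero, mul_zero, zero_mul]
  have h3 : u * w = c • 1 := by
    obtain ⟨U, hU⟩ := huu
    clear_value w
    have h4 : w = c • ((U⁻¹ : (Matrix (Fin n) (Fin n) F)ˣ) : Matrix (Fin n) (Fin n) F) := by
      have h5 : w * u * ((U⁻¹ : (Matrix (Fin n) (Fin n) F)ˣ) : Matrix (Fin n) (Fin n) F) = w := by
        rw [← hU, mul_assoc, Units.mul_inv, mul_one]
      rw [← h5, h1, smul_mul_assoc, one_mul]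
    rw [h4, mul_smul_comm, ← hU, Units.mul_inv]
  have h4 : Commute (w - 1) (u - 1) := by
    have h5 : Commute w u := by
      change w * u = u * w
      rw [h1, h3]
    exact (h5.sub_left (Commute.one_left u)).sub_right (Commute.one_right (w - 1))
  have h5 : IsNilpotent (w * u - 1) := by
    have h6 : w * u - 1 = (w - 1) + (u - 1) + (w - 1) * (u - 1) := by noncomm_ring
    rw [h6]
    have h7 : IsNilpotent ((w - 1) + (u - 1)) := h4.isNilpotent_add h2 hν
    have h8 : IsNilpotent ((w - 1) * (u - 1)) := h4.isNilpotent_mul_right h2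
    refine Commute.isNilpotent_add ?_ h7 h8
    have h9 : Commute (w - 1) ((w - 1) * (u - 1)) := (Commute.refl _).mul_right h4
    have h10 : Commute (u - 1) ((w - 1) * (u - 1)) := h4.symm.mul_right (Commute.refl _)
    exact h9.add_left h10
  obtain ⟨j, hj⟩ := h5
  rw [h1] at hj
  have h6 : (c • 1 - 1 : Matrix (Fin n) (Fin n) F) = (c - 1) • 1 := by rw [sub_smul, one_smul]
  rw [h6, smul_pow, one_pow] at hj
  have h7 := congrFun (congrFun hj ⟨0, hn⟩) ⟨0, hn⟩
  rw [Matrix.smul_apply, one_apply_eq, Matrix.zero_apply, smul_eq_mul, mul_one] at h7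
  exact sub_eq_zero.1 (eq_zero_of_pow_eq_zero h7)

end

end Pool.Agent.U175.LP
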