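import Mathlib
import Pool.Agent.U175.LP.R8
import Pool.Agent.U175.LP.R9

/-!
# Elements without isotropic relation from the Lie algebra of the image modulo `p`
-/

set_option autoImplicit false
set_option linter.unusedSectionVars false

namespace Pool.Agent.U175.LP

open PadicInt Module Matrix Filter Topology Pool.Agent.U175.LP.Pub Pool.Agent.R932.SQ

noncomputable section

variable {p : ℕ} [hp : Fact p.Prime] {n : ℕ} {Γ : Type} [Group Γ]
  {R : Γ →* Matrix (Fin n) (Fin n) ℤ_[p]} {κ : Γ →* ℤ_[p]ˣ}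

variable (R κ) in
/-- `X` is the reduction of a tangent vector with multiplier `0` modulo `p`. -/
def L1P (X : Matrix (Fin n) (Fin n) (ZMod p)) : Prop :=
  ∃ (Y : Matrix (Fin n) (Fin n) ℤ_[p]) (c : ℤ_[p]), TanA p (Rm R κ) (Y, c) ∧ red Y = X ∧
    (toZMod c : ZMod p) = 0

theorem red_add {m q : ℕ} (A B : Matrix (Fin m) (Fin q) ℤ_[p]) : red (A + B) = red A + red B := by
  ext a b
  rw [Matrix.add_apply, red_apply, red_apply, red_apply, Matrix.add_apply, map_add]

theorem red_sum {m q : ℕ} {α : Type*} (s : Finset α) (A : α → Matrix (Fin m) (Fin q) ℤ_[p]) :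
    red (∑ i ∈ s, A i) = ∑ i ∈ s, red (A i) := by
  classical
  induction s using Finset.induction_on with
  | empty =>
    ext a b
    rw [Finset.sum_empty, Finset.sum_empty, red_apply, Matrix.zero_apply, Matrix.zero_apply, map_zero]
  | insert a s ha ih => rw [Finset.sum_insert ha, Finset.sum_insert ha, red_add, ih]

theorem L1P_zero : L1P R κ 0 := by
  have h0 : TanA p (Rm R κ) (0 : Matrix (Fin n) (Fin n) ℤ_[p] × ℤ_[p]) := TanA_zero
  refine ⟨0, 0, by rw [Prod.mk_zero_zero]; exact h0, ?_, map_zero _⟩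
  ext a b
  rw [red_apply, Matrix.zero_apply, Matrix.zero_apply, map_zero]

theorem L1P_add {X X' : Matrix (Fin n) (Fin n) (ZMod p)} (h : L1P R κ X) (h' : L1P R κ X') :
    L1P R κ (X + X') := by
  obtain ⟨Y, c, h, h1, h3⟩ := h
  obtain ⟨Y', c', h', h1', h3'⟩ := h'
  have h2 := TanA_add h h'
  rw [Prod.mk_add_mk] at h2
  exact ⟨Y + Y', c + c', h2, by rw [red_add, h1, h1'], by rw [map_add, h3, h3', add_zero]⟩

theorem L1P_smul (r : ZMod p) {X : Matrix (Fin n) (Fin n) (ZMod p)} (h : L1P R κ X) :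
    L1P R κ (r • X) := by
  obtain ⟨Y, c, h, h1, h3⟩ := h
  obtain ⟨s, hs⟩ := ZMod.ringHom_surjective (toZMod : ℤ_[p] →+* ZMod p) r
  have h2 := TanA_smul s h
  rw [Prod.smul_mk] at h2
  exact ⟨s • Y, s • c, h2, by rw [red_smul, hs, h1], by rw [smul_eq_mul, map_mul, h3, mul_zero]⟩

theorem L1P_lie {X X' : Matrix (Fin n) (Fin n) (ZMod p)} (h : L1P R κ X) (h' : L1P R κ X') :
    L1P R κ (X * X' - X' * X) := by
  obtain ⟨Y, c, h, h1, h3⟩ := h
  obtain ⟨Y', c', h', h1', h3'⟩ := h'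
  have h2 := TanA_bracket h h'
  rw [Prod.mk_mul_mk, Prod.mk_mul_mk, Prod.mk_sub_mk] at h2
  refine ⟨Y * Y' - Y' * Y, c * c' - c' * c, h2, ?_, ?_⟩
  · rw [red_sub, red_mul, red_mul, h1, h1']
  · rw [mul_comm, sub_self, map_zero]

variable (R κ) in
/-- The Lie algebra of the reductions of the tangent vectors with multiplier `0` modulo `p`. -/
def L1 : Submodule (ZMod p) (Matrix (Fin n) (Fin n) (ZMod p)) where
  carrier := {X | L1P R κ X}
  zero_mem' := L1P_zero
  add_mem' := L1P_add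
  smul_mem' := fun r _ h => L1P_smul r h

theorem mem_L1 {X : Matrix (Fin n) (Fin n) (ZMod p)} : X ∈ L1 R κ ↔ L1P R κ X := Iff.rfl

/-- **Logarithms of unipotent elements modulo `p` are reductions of tangent vectors.** -/
theorem nlog_mem (hp3 : 3 ≤ p) {J : Matrix (Fin n) (Fin n) ℤ_[p]} (hJ : IsUnit J.det)
    (hinv : ∀ g, (R g)ᵀ * J * R g = (κ g : ℤ_[p]) • J) {g : Γ} {k : ℕ} (hk0 : 0 < k)
    (hk : 2 * k ≤ p) (hg : (red (R g) - 1) ^ k = 0) : L1P R κ (nlog (red (R g))) := by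
  rcases Nat.eq_zero_or_pos n with hn | hn
  · subst hn
    have h0 : nlog (red (R g)) = 0 := Subsingleton.elim _ _
    rw [h0]
    exact L1P_zero
  have hJr : IsUnit (red J).det := by
    have h4 : (red J).det = toZMod J.det := by
      rw [RingHom.map_det]
      rfl
    rw [h4]
    exact hJ.map toZMod
  have hκ : (toZMod (κ g : ℤ_[p]) : ZMod p) = 1 := by
    refine mult_one hn hJr (u := red (R g)) ?_ hg
    have h1 := congrArg red (hinv g)
    rw [red_mul, red_mul, red_smul] at h1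
    have h2 : red (R g)ᵀ = (red (R g))ᵀ := by
      ext a b
      rw [red_apply, transpose_apply, transpose_apply, red_apply]
    rwa [h2] at h1
  set N : Matrix (Fin n) (Fin n) ℤ_[p] × ℤ_[p] := (R g - 1, (κ g : ℤ_[p]) - 1) with hN
  obtain ⟨z, hz⟩ := (toZMod_eq_zero ((κ g : ℤ_[p]) - 1)).1 (by rw [map_sub, hκ, map_one, sub_self])
  have hredN : red (R g - 1) = red (R g) - 1 := by rw [red_sub, red_one]
  obtain ⟨F₁, hF₁⟩ : ∃ F₁ : Matrix (Fin n) (Fin n) ℤ_[p], (R g - 1) ^ k = (p : ℤ_[p]) • F₁ := by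
    have h1 : red ((R g - 1) ^ k) = red 0 := by
      rw [red_pow, hredN, hg]
      ext a b
      rw [red_apply, Matrix.zero_apply, Matrix.zero_apply, map_zero]
    obtain ⟨Z, hZ⟩ := exists_of_red h1
    exact ⟨Z, by rw [hZ, zero_add]⟩
  have hNk : N ^ k = (p : ℤ_[p]) • ((F₁, (p : ℤ_[p]) ^ (k - 1) * z ^ k) :
      Matrix (Fin n) (Fin n) ℤ_[p] × ℤ_[p]) := by
    rw [hN, Prod.pow_mk, hF₁, Prod.smul_mk]
    refine Prod.ext rfl ?_
    change ((κ g : ℤ_[p]) - 1) ^ k = (p : ℤ_[p]) • ((p : ℤ_[p]) ^ (k - 1) * z ^ k)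
    rw [hz, mul_pow, smul_eq_mul, ← mul_assoc, ← pow_succ', Nat.sub_add_cancel hk0]
  have h1 := nlog_pow hk hNk
  have h2 : Rm R κ (g ^ p) = (1 + N) ^ p := by
    rw [map_pow, Rm_apply, hN]
    congr 1
    refine Prod.ext ?_ ?_
    · change R g = 1 + (R g - 1)
      rw [add_sub_cancel]
    · change (κ g : ℤ_[p]) = 1 + ((κ g : ℤ_[p]) - 1)
      rw [add_sub_cancel]
  rw [← h2] at h1
  obtain ⟨Z', hZ'⟩ := exists_log hp3 h1
  -- the first and the second component
  have hfst : ∀ (s : Finset ℕ) (d : ℕ → ℤ_[p]), (∑ j ∈ s, d j • N ^ j) =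
      (∑ j ∈ s, d j • (R g - 1) ^ j, ∑ j ∈ s, d j * ((κ g : ℤ_[p]) - 1) ^ j) := by
    intro s d
    rw [hN]
    refine Prod.ext ?_ ?_
    · rw [Prod.fst_sum]
      rfl
    · rw [Prod.snd_sum]
      rfl
  rw [hfst] at hZ'
  obtain ⟨W, w⟩ := N ^ (p - 2 * k) * ((F₁, (p : ℤ_[p]) ^ (k - 1) * z ^ k) * (F₁, (p : ℤ_[p]) ^ (k - 1) * z ^ k))
  obtain ⟨Z'', z''⟩ := Z'
  rw [Prod.smul_mk, Prod.mk_add_mk, Prod.smul_mk, Prod.mk_add_mk] at hZ'
  have hp0 : (toZMod (p : ℤ_[p]) : ZMod p) = 0 := by rw [map_natCast, ZMod.natCast_self]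
  refine ⟨_, _, hZ', ?_, ?_⟩
  · rw [red_add, red_add, red_smul, red_smul, hp0, zero_smul, zero_smul, add_zero, add_zero,
      red_sum, nlog]
    refine Finset.sum_congr rfl fun j hj => ?_
    rw [Finset.mem_Ico] at hj
    rw [red_smul, red_pow, hredN, map_natCast, dj_cast (by omega) hj.2]
  · rw [map_add, map_add, smul_eq_mul, smul_eq_mul, map_mul, map_mul, hp0, zero_mul, zero_mul,
      add_zero, add_zero, map_sum]
    refine Finset.sum_eq_zero fun j hj => ?_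
    rw [Finset.mem_Ico] at hj
    rw [map_mul, map_pow, map_sub, hκ, map_one, sub_self, zero_pow (by omega), mul_zero]

/-- **Elements without isotropic relation from the Lie algebra of the image modulo `p`.** -/
theorem exists_noRel_lie (hp3 : 3 ≤ p) {J : Matrix (Fin n) (Fin n) ℤ_[p]} (hJ : IsUnit J.det)
    (hinv : ∀ g, (R g)ᵀ * J * R g = (κ g : ℤ_[p]) • J) {K : Type} [Field K] [Algebra (ZMod p) K]
    {L : Submodule (ZMod p) (Matrix (Fin n) (Fin n) (ZMod p))} (hL : L ≤ L1 R κ)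
    {X : Matrix (Fin n) (Fin n) K}
    (hX : X ∈ Submodule.span K {Z | ∃ Y ∈ L, Z = Y.map (algebraMap (ZMod p) K)})
    (hno : NoIso X.charpoly) :
    ∃ (M : Matrix (Fin n) (Fin n) ℤ_[p]) (c : ℤ_[p]), TanA p (Rm R κ) (M, c) ∧
      Mᵀ * J + J * M = c • J ∧
      NoRel (M.map (algebraMap ℤ_[p] ℚ_[p])).charpoly (algebraMap ℤ_[p] ℚ_[p] c) := by
  classical
  obtain ⟨D, x, g, hg⟩ := Submodule.mem_span_set'.1 hX
  have h1 : ∀ i, ∃ (Y : Matrix (Fin n) (Fin n) ℤ_[p]) (c : ℤ_[p]), TanA p (Rm R κ) (Y, c) ∧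
      (g i : Matrix (Fin n) (Fin n) K) = (red Y).map (algebraMap (ZMod p) K) ∧
      (toZMod c : ZMod p) = 0 := by
    intro i
    obtain ⟨Z, hZ, hgZ⟩ := (g i).2
    obtain ⟨Y, c, h2, h3, h4⟩ := mem_L1.1 (hL hZ)
    exact ⟨Y, c, h2, by rw [h3, ← hgZ], h4⟩
  choose Y c hY hgY hc using h1
  have h2z : IsUnit (2 : ℤ_[p]) := by
    have h2 : (toZMod (2 : ℤ_[p]) : ZMod p) ≠ 0 := by
      rw [map_ofNat]
      intro h
      have h3 : ((2 : ℕ) : ZMod p) = 0 := by exact_mod_cast h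
      rw [ZMod.natCast_eq_zero_iff] at h3
      exact absurd (Nat.le_of_dvd (by norm_num) h3) (by omega)
    exact (isUnit_iff_toZMod _).2 h2
  obtain ⟨h, hh⟩ : ∃ h : ℤ_[p], 2 * h = 1 := by
    obtain ⟨u, hu⟩ := h2z
    exact ⟨((u⁻¹ : ℤ_[p]ˣ) : ℤ_[p]), by rw [← hu, Units.mul_inv]⟩
  let Y0 : Fin D → Matrix (Fin n) (Fin n) ℤ_[p] := fun i => Y i - (c i * h) • 1
  have hY0 : ∀ i, (Y0 i)ᵀ * J + J * Y0 i = 0 := by
    intro i
    have h3 := Rm_norm hinv (hY i)
    simp only [Y0]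
    rw [transpose_sub, transpose_smul, transpose_one, Matrix.sub_mul, Matrix.mul_sub,
      smul_mul_assoc, one_mul, mul_smul_comm, mul_one]
    have h4 : (Y i)ᵀ * J - (c i * h) • J + (J * Y i - (c i * h) • J) =
        ((Y i)ᵀ * J + J * Y i) - (c i * (2 * h)) • J := by module
    rw [h4, h3, hh, mul_one, sub_self]
  let φ : ℤ_[p] →+* K := (algebraMap (ZMod p) K).comp toZMod
  have hφY : ∀ i, (Y0 i).map φ = (g i : Matrix (Fin n) (Fin n) K) := by
    intro i
    rw [hgY]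
    ext a b
    simp only [Y0, φ, Matrix.map_apply, Matrix.sub_apply, Matrix.smul_apply, RingHom.comp_apply,
      red_apply, smul_eq_mul]
    rw [map_sub, map_mul, map_mul, hc, zero_mul, zero_mul, sub_zero]
  have hφ2 : (2 : K) ≠ 0 := by
    have h3 : φ 2 ≠ 0 := (h2z.map φ).ne_zero
    rwa [map_ofNat] at h3
  obtain ⟨t, ht⟩ := exists_noRel_gen φ hJ Y0 hY0 x hφ2 (by
    have h3 : ∑ i, x i • (Y0 i).map φ = X := by
      rw [← hg]
      exact Finset.sum_congr rfl fun i _ => by rw [hφY]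
    rw [h3]
    exact hno)
  have hMt : ∀ s : Finset (Fin D), TanA p (Rm R κ) (∑ i ∈ s, t i • Y i, ∑ i ∈ s, t i * c i) := by
    intro s
    induction s using Finset.induction_on with
    | empty =>
      rw [Finset.sum_empty, Finset.sum_empty, Prod.mk_zero_zero]
      exact TanA_zero
    | insert a s ha ih =>
      rw [Finset.sum_insert ha, Finset.sum_insert ha]
      have h3 := TanA_add (TanA_smul (t a) (hY a)) ih
      rw [Prod.smul_mk, Prod.mk_add_mk, smul_eq_mul] at h3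
      exact h3
  refine ⟨∑ i, t i • Y i, ∑ i, t i * c i, hMt _, Rm_norm hinv (hMt Finset.univ), ?_⟩
  set M := ∑ i, t i • Y i with hM
  set C := ∑ i, t i * c i with hC
  have h4 : (∑ i, t i • Y0 i).map (algebraMap ℤ_[p] ℚ_[p]) =
      M.map (algebraMap ℤ_[p] ℚ_[p]) - scalar (Fin n) (algebraMap ℤ_[p] ℚ_[p] (C * h)) := by
    have h5 : ∑ i, t i • Y0 i = M - (C * h) • 1 := by
      simp only [Y0, smul_sub, smul_smul]
      rw [Finset.sum_sub_distrib, ← hM, ← Finset.sum_smul, hC, Finset.sum_mul]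
      congr 2
      exact Finset.sum_congr rfl fun i _ => by ring
    rw [h5]
    ext a b
    rw [Matrix.map_apply, Matrix.sub_apply, Matrix.sub_apply, map_sub, Matrix.map_apply,
      Matrix.smul_apply, smul_eq_mul, map_mul, Matrix.scalar_apply]
    by_cases hab : a = b
    · subst hab
      rw [one_apply_eq, map_one, mul_one, diagonal_apply_eq]
    · rw [one_apply_ne hab, map_zero, mul_zero, diagonal_apply_ne _ hab]
  rw [h4] at ht
  have h6 := noRel_shift _ ht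
  have h7 : (2 : ℚ_[p]) * algebraMap ℤ_[p] ℚ_[p] (C * h) = algebraMap ℤ_[p] ℚ_[p] C := by
    rw [← map_ofNat (algebraMap ℤ_[p] ℚ_[p]) 2, ← map_mul]
    congr 1
    linear_combination C * hh
  rw [h7] at h6
  exact h6

end

end Pool.Agent.U175.LP
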