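import Mathlib
import Pool.Agent.U175.LP.R10

/-!
# Logarithms of unipotent elements modulo `p`, traces of tangent vectors
-/

set_option autoImplicit false
set_option linter.unusedSectionVars false

namespace Pool.Agent.U175.LP

open PadicInt Module Matrix Filter Topology Pool.Agent.U175.LP.Pub

noncomputable section

variable {p : ℕ} [hp : Fact p.Prime]

section log

variable {A : Type*} [Ring A] [Algebra ℤ_[p] A]

/-- Logarithms with approximations. -/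
theorem exists_log' (hp3 : 3 ≤ p) [Module.Finite ℤ_[p] A] [Module.Free ℤ_[p] A] {Γ : Type*} [Group Γ]
    {R : Γ →* A} {s : Γ} {X₀ : A} (h0 : R s = 1 + (p : ℤ_[p]) • X₀) :
    ∃ L, TanA p R L ∧ ∀ n, ∃ Z, R (s ^ p ^ n) =
      1 + (p : ℤ_[p]) ^ (n + 1) • (L + (p : ℤ_[p]) ^ n • Z) := by
  choose F hF using fun (m : ℕ) (Y : A) => pow_step (A := A) hp3 (m + 1) (Nat.succ_pos m) Y
  let Y : ℕ → A := fun n => Nat.rec X₀ (fun n Y => Y + (p : ℤ_[p]) ^ (n + 1) • F n Y) n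
  have hY0 : Y 0 = X₀ := rfl
  have hYs : ∀ n, Y (n + 1) = Y n + (p : ℤ_[p]) ^ (n + 1) • F n (Y n) := fun n => rfl
  have hpow : ∀ n, R (s ^ p ^ n) = 1 + (p : ℤ_[p]) ^ (n + 1) • Y n := by
    intro n
    induction n with
    | zero => rw [pow_zero, pow_one, zero_add, pow_one, h0, hY0]
    | succ n ih =>
      rw [pow_succ, pow_mul, map_pow, ih, hF n, hYs]
  obtain ⟨L, hL⟩ := exists_limit A Y fun n => ⟨(p : ℤ_[p]) • F n (Y n), by
    rw [hYs, add_sub_cancel_left, pow_succ, smul_smul]⟩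
  refine ⟨L, ?_, fun n => ?_⟩
  · intro m
    refine ⟨m + 1, fun n hn => ?_⟩
    obtain ⟨k, rfl⟩ : ∃ k, n = m + k + 1 := ⟨n - m - 1, by omega⟩
    obtain ⟨Z, hZ⟩ := hL (m + k)
    refine ⟨s ^ p ^ (m + k), -((p : ℤ_[p]) ^ k • Z), ?_⟩
    rw [hpow]
    have h1 : Y (m + k) = L - (p : ℤ_[p]) ^ (m + k) • Z := by
      rw [← hZ]
      abel
    rw [h1, pow_add (p : ℤ_[p]) m k]
    module
  · obtain ⟨Z, hZ⟩ := hL n
    refine ⟨-Z, ?_⟩
    rw [hpow]
    have h1 : Y n = L - (p : ℤ_[p]) ^ n • Z := by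
      rw [← hZ]
      abel
    rw [h1]
    module

end log

/-- Powers of an element congruent to one. -/
theorem unit_pow (hp3 : 3 ≤ p) {δ u : ℤ_[p]} {a : ℕ} (ha : 1 ≤ a) (hu : IsUnit u)
    (hδ : δ = 1 + (p : ℤ_[p]) ^ a * u) (n : ℕ) :
    ∃ u', IsUnit u' ∧ δ ^ p ^ n = 1 + (p : ℤ_[p]) ^ (a + n) * u' := by
  induction n with
  | zero => exact ⟨u, hu, by rw [pow_zero, pow_one, add_zero, hδ]⟩
  | succ n ih =>
    obtain ⟨u', hu', h⟩ := ih
    obtain ⟨Y', hY'⟩ := pow_step (A := ℤ_[p]) hp3 (a + n) (by omega) u'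
    refine ⟨u' + (p : ℤ_[p]) ^ (a + n) • Y', ?_, ?_⟩
    · rw [isUnit_iff_toZMod] at hu' ⊢
      rw [map_add, smul_eq_mul, map_mul, map_pow]
      have hp0 : (toZMod (p : ℤ_[p]) : ZMod p) = 0 := by rw [map_natCast, ZMod.natCast_self]
      rw [hp0, zero_pow (by omega), zero_mul, add_zero]
      exact hu'
    · rw [pow_succ, pow_mul, h]
      rw [smul_eq_mul, smul_eq_mul] at hY'
      rw [hY', smul_eq_mul]
      rfl

variable {n : ℕ} {Γ : Type} [Group Γ] {R : Γ →* Matrix (Fin n) (Fin n) ℤ_[p]}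

/-- The trace is the derivative of the determinant. -/
theorem trace_eq {X : Matrix (Fin n) (Fin n) ℤ_[p]} {c : ℤ_[p]}
    (h : TanA p (R.prod ((detMonoidHom : Matrix (Fin n) (Fin n) ℤ_[p] →* ℤ_[p]).comp R)) (X, c)) :
    X.trace = c := by
  refine sub_eq_zero.1 (eq_zero_of_dvd_pow' (p := p) fun m => ?_)
  obtain ⟨n₀, h0⟩ := h m
  obtain ⟨σ, ⟨Z, z⟩, hσ⟩ := h0 (max n₀ m) (le_max_left _ _)
  obtain ⟨k, hk⟩ : ∃ k, max n₀ m = m + k := ⟨max n₀ m - m, by omega⟩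
  rw [hk] at hσ
  have h1 : R σ = 1 + (p : ℤ_[p]) ^ (m + k) • (X + (p : ℤ_[p]) ^ m • Z) := congrArg Prod.fst hσ
  have h2 : (R σ).det = 1 + (p : ℤ_[p]) ^ (m + k) * (c + (p : ℤ_[p]) ^ m * z) :=
    congrArg Prod.snd hσ
  rw [h1, det_one_add_smul] at h2
  set w := Polynomial.eval ((p : ℤ_[p]) ^ (m + k))
    (det (1 + (Polynomial.X : Polynomial ℤ_[p]) •
      (X + (p : ℤ_[p]) ^ m • Z).map Polynomial.C)).divX.divX with hw
  rw [trace_add, trace_smul, smul_eq_mul] at h2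
  have hp0 : (p : ℤ_[p]) ^ (m + k) ≠ 0 := pow_ne_zero _ (by exact_mod_cast hp.out.ne_zero)
  have h3 : (p : ℤ_[p]) ^ (m + k) * (X.trace - c) =
      (p : ℤ_[p]) ^ (m + k) * ((p : ℤ_[p]) ^ m * (z - Z.trace - (p : ℤ_[p]) ^ k * w)) := by
    rw [pow_add] at h2 ⊢
    linear_combination h2
  exact ⟨z - Z.trace - (p : ℤ_[p]) ^ k * w, mul_left_cancel₀ hp0 h3⟩

/-- Tangent vectors with nonzero trace. -/
theorem exists_trace (hp3 : 3 ≤ p) {g : Γ} (hg : ∀ m, 0 < m → (R g).det ^ m ≠ 1) :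
    ∃ T, TanA p R T ∧ T.trace ≠ 0 := by
  have hu : IsUnit (red (R g)) := by
    have h1 : R g * R g⁻¹ = 1 := by rw [← map_mul, mul_inv_cancel, map_one]
    have h2 : R g⁻¹ * R g = 1 := by rw [← map_mul, inv_mul_cancel, map_one]
    exact ⟨⟨red (R g), red (R g⁻¹), by rw [← red_mul, h1, red_one],
      by rw [← red_mul, h2, red_one]⟩, rfl⟩
  obtain ⟨U, hU⟩ := hu
  obtain ⟨N, hN, hUN⟩ := isOfFinOrder_iff_pow_eq_one.1 (isOfFinOrder_of_finite U)
  have hred : red (R (g ^ N)) = red (1 : Matrix (Fin n) (Fin n) ℤ_[p]) := by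
    rw [map_pow, red_pow, ← hU, ← Units.val_pow_eq_pow_val, hUN, Units.val_one, red_one]
  obtain ⟨X₀, hX₀⟩ := exists_of_red hred
  set δ := (R (g ^ N)).det with hδ
  have hδ1 : δ ≠ 1 := by
    rw [hδ, map_pow, det_pow]
    exact hg N hN
  have hδz : (toZMod (δ - 1) : ZMod p) = 0 := by
    have h4 : (red (R (g ^ N))).det = toZMod (R (g ^ N)).det := by
      rw [RingHom.map_det]
      rfl
    rw [map_sub, hδ, ← h4, hred, red_one, det_one, map_one, sub_self]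
  obtain ⟨δ₀, hδ₀⟩ := (toZMod_eq_zero _).1 hδz
  obtain ⟨⟨X, c⟩, hL, hLn⟩ := exists_log' hp3
    (R := R.prod ((detMonoidHom : Matrix (Fin n) (Fin n) ℤ_[p] →* ℤ_[p]).comp R)) (s := g ^ N)
    (X₀ := (X₀, δ₀)) (by
      refine Prod.ext ?_ ?_
      · exact hX₀
      · change δ = 1 + (p : ℤ_[p]) * δ₀
        rw [← hδ₀]
        ring)
  refine ⟨X, fun m => ?_, ?_⟩
  · obtain ⟨n₀, h0⟩ := hL m
    refine ⟨n₀, fun n' hn => ?_⟩
    obtain ⟨σ, Z, hσ⟩ := h0 n' hn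
    exact ⟨σ, Z.1, congrArg Prod.fst hσ⟩
  · rw [trace_eq hL]
    rintro rfl
    have hne : δ - 1 ≠ 0 := sub_ne_zero.2 hδ1
    set a := (δ - 1).valuation with ha
    have hspec := unitCoeff_spec hne
    have hu0 : IsUnit ((unitCoeff hne : ℤ_[p]ˣ) : ℤ_[p]) := Units.isUnit _
    have ha1 : 1 ≤ a := by
      by_contra hlt
      have h5 : a = 0 := by omega
      rw [← ha, h5, pow_zero, mul_one] at hspec
      rw [hspec] at hδz
      exact (isUnit_iff_toZMod _).1 hu0 hδz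
    obtain ⟨u', hu', hpow⟩ := unit_pow hp3 (δ := δ) ha1 hu0 (by
      rw [mul_comm, ← hspec]
      ring) a
    obtain ⟨Z, hZ⟩ := hLn a
    have h6 : δ ^ p ^ a = 1 + (p : ℤ_[p]) ^ (a + 1) * (0 + (p : ℤ_[p]) ^ a * Z.2) := by
      have h7 := congrArg Prod.snd hZ
      have h8 : (R ((g ^ N) ^ p ^ a)).det = δ ^ p ^ a := by rw [map_pow, det_pow]
      rw [← h8]
      exact h7
    rw [hpow] at h6
    have hp0 : (p : ℤ_[p]) ^ (a + a) ≠ 0 := pow_ne_zero _ (by exact_mod_cast hp.out.ne_zero)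
    have h9 : (p : ℤ_[p]) ^ (a + a) * u' = (p : ℤ_[p]) ^ (a + a) * ((p : ℤ_[p]) * Z.2) := by
      have h10 := add_left_cancel h6
      rw [h10]
      ring
    have h10 := mul_left_cancel₀ hp0 h9
    rw [isUnit_iff_toZMod, h10, map_mul, map_natCast, ZMod.natCast_self, zero_mul] at hu'
    exact hu' rfl

variable (R) in
/-- `X` is the reduction of a tangent vector. -/
def L0P (X : Matrix (Fin n) (Fin n) (ZMod p)) : Prop :=
  ∃ Y : Matrix (Fin n) (Fin n) ℤ_[p], TanA p R Y ∧ red Y = X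

variable (R) in
/-- `X` is the reduction of a tangent vector with trace zero. -/
def L2P (X : Matrix (Fin n) (Fin n) (ZMod p)) : Prop :=
  ∃ Y : Matrix (Fin n) (Fin n) ℤ_[p], TanA p R Y ∧ red Y = X ∧ Y.trace = 0

theorem red_zero' {m q : ℕ} : red (0 : Matrix (Fin m) (Fin q) ℤ_[p]) = 0 := by
  ext a b
  rw [red_apply, Matrix.zero_apply, Matrix.zero_apply, map_zero]

theorem L0P_lie {X X' : Matrix (Fin n) (Fin n) (ZMod p)} (h : L0P R X) (h' : L0P R X') :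
    L2P R (X * X' - X' * X) := by
  obtain ⟨Y, h, h1⟩ := h
  obtain ⟨Y', h', h1'⟩ := h'
  refine ⟨Y * Y' - Y' * Y, TanA_bracket h h', ?_, ?_⟩
  · rw [red_sub, red_mul, red_mul, h1, h1']
  · rw [trace_sub, trace_mul_comm, sub_self]

variable (R) in
/-- The Lie algebra of the reductions of the tangent vectors. -/
def L0 : Submodule (ZMod p) (Matrix (Fin n) (Fin n) (ZMod p)) where
  carrier := {X | L0P R X}
  zero_mem' := ⟨0, TanA_zero, red_zero'⟩
  add_mem' := by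
    rintro X X' ⟨Y, h, h1⟩ ⟨Y', h', h1'⟩
    exact ⟨Y + Y', TanA_add h h', by rw [red_add, h1, h1']⟩
  smul_mem' := by
    rintro r X ⟨Y, h, h1⟩
    obtain ⟨s, hs⟩ := ZMod.ringHom_surjective (toZMod : ℤ_[p] →+* ZMod p) r
    exact ⟨s • Y, TanA_smul s h, by rw [red_smul, hs, h1]⟩

variable (R) in
/-- The Lie algebra of the reductions of the tangent vectors with trace zero. -/
def L2 : Submodule (ZMod p) (Matrix (Fin n) (Fin n) (ZMod p)) where
  carrier := {X | L2P R X}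
  zero_mem' := ⟨0, TanA_zero, red_zero', trace_zero _ _⟩
  add_mem' := by
    rintro X X' ⟨Y, h, h1, h2⟩ ⟨Y', h', h1', h2'⟩
    exact ⟨Y + Y', TanA_add h h', by rw [red_add, h1, h1'], by rw [trace_add, h2, h2', add_zero]⟩
  smul_mem' := by
    rintro r X ⟨Y, h, h1, h2⟩
    obtain ⟨s, hs⟩ := ZMod.ringHom_surjective (toZMod : ℤ_[p] →+* ZMod p) r
    exact ⟨s • Y, TanA_smul s h, by rw [red_smul, hs, h1], by rw [trace_smul, h2, smul_zero]⟩

/-- **Logarithms of unipotent elements modulo `p` are reductions of tangent vectors.** -/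
theorem nlog_mem0 (hp3 : 3 ≤ p) {g : Γ} {k : ℕ} (hk : 2 * k ≤ p)
    (hg : (red (R g) - 1) ^ k = 0) : L0P R (nlog (red (R g))) := by
  set N : Matrix (Fin n) (Fin n) ℤ_[p] := R g - 1 with hN
  have hredN : red N = red (R g) - 1 := by rw [hN, red_sub, red_one]
  obtain ⟨F₁, hF₁⟩ : ∃ F₁ : Matrix (Fin n) (Fin n) ℤ_[p], N ^ k = (p : ℤ_[p]) • F₁ := by
    have h1 : red (N ^ k) = red 0 := by rw [red_pow, hredN, hg, red_zero']
    obtain ⟨Z, hZ⟩ := exists_of_red h1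
    exact ⟨Z, by rw [hZ, zero_add]⟩
  have h1 := nlog_pow hk hF₁
  have h2 : R (g ^ p) = (1 + N) ^ p := by rw [map_pow, hN, add_sub_cancel]
  rw [← h2] at h1
  obtain ⟨Z', hZ'⟩ := exists_log hp3 h1
  have hp0 : (toZMod (p : ℤ_[p]) : ZMod p) = 0 := by rw [map_natCast, ZMod.natCast_self]
  refine ⟨_, hZ', ?_⟩
  rw [red_add, red_add, red_smul, red_smul, hp0, zero_smul, zero_smul, add_zero, add_zero,
    red_sum, nlog]
  refine Finset.sum_congr rfl fun j hj => ?_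
  rw [Finset.mem_Ico] at hj
  rw [red_smul, red_pow, hredN, map_natCast, dj_cast (by omega) hj.2]

/-- The smallest subspace which contains `S` and is closed under commutators. -/
def genLie (S : Set (Matrix (Fin n) (Fin n) (ZMod p))) :
    Submodule (ZMod p) (Matrix (Fin n) (Fin n) (ZMod p)) :=
  sInf {L | S ⊆ L ∧ ∀ X ∈ L, ∀ Y ∈ L, X * Y - Y * X ∈ L}

/-- The commutators of a Lie algebra. -/
def derL (L : Submodule (ZMod p) (Matrix (Fin n) (Fin n) (ZMod p))) :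
    Submodule (ZMod p) (Matrix (Fin n) (Fin n) (ZMod p)) :=
  Submodule.span (ZMod p) {Z | ∃ X ∈ L, ∃ Y ∈ L, Z = X * Y - Y * X}

theorem derL_le (hp3 : 3 ≤ p) {S : Set (Matrix (Fin n) (Fin n) (ZMod p))}
    (hS : ∀ X ∈ S, ∃ g, (red (R g) - 1) ^ ((p - 1) / 2) = 0 ∧ X = nlog (red (R g))) :
    derL (genLie S) ≤ L2 R := by
  have h1 : genLie S ≤ L0 R := by
    refine sInf_le ⟨fun X hX => ?_, fun X hX Y hY => ?_⟩
    · obtain ⟨g, hg, rfl⟩ := hS X hX
      exact nlog_mem0 hp3 (by omega) hg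
    · obtain ⟨Z, h1, h2, -⟩ := L0P_lie (R := R) hX hY
      exact ⟨Z, h1, h2⟩
  refine Submodule.span_le.2 ?_
  rintro _ ⟨X, hX, Y, hY, rfl⟩
  exact L0P_lie (h1 hX) (h1 hY)

end

end Pool.Agent.U175.LP
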