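import Mathlib
import Pool.Agent.U175.LP.R12

/-!
# Differences of logarithms
-/

set_option autoImplicit false
set_option linter.unusedSectionVars false

namespace Pool.Agent.U175.LP

open PadicInt Module Matrix Filter Topology Pool.Agent.U175.LP.Pub

noncomputable section

variable {p : ℕ} [hp : Fact p.Prime]

section log

variable {A : Type*} [Ring A] [Algebra ℤ_[p] A] {Γ : Type*} [Group Γ]

variable (p) in
/-- `L` is the logarithm of `s`, divided by `p`. -/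
def LogOf (R : Γ →* A) (s : Γ) (L : A) : Prop :=
  ∀ n : ℕ, ∃ Z, R (s ^ p ^ n) = 1 + (p : ℤ_[p]) ^ (n + 1) • (L + (p : ℤ_[p]) ^ n • Z)

theorem pow_one_add (X : A) (i : ℕ) : ∃ E : A, (1 + (p : ℤ_[p]) • X) ^ i =
    1 + ((i : ℤ_[p]) * p) • X + (p : ℤ_[p]) ^ 2 • E := by
  induction i with
  | zero => exact ⟨0, by simp⟩
  | succ i ih =>
    obtain ⟨E, hE⟩ := ih
    refine ⟨E + (i : ℤ_[p]) • (X * X) + (p : ℤ_[p]) • (E * X), ?_⟩
    rw [pow_succ, hE]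
    push_cast
    simp only [mul_add, add_mul, smul_mul_assoc, mul_smul_comm, smul_add, one_mul, mul_one]
    module

theorem diff_pow {X X' V S U : A} {c : ℕ} (hS : S = 1 + (p : ℤ_[p]) • X)
    (hU : U = 1 + (p : ℤ_[p]) • X') (hUS : U = S + (p : ℤ_[p]) ^ c • V) (i : ℕ) :
    ∃ E : A, U ^ i = S ^ i + (p : ℤ_[p]) ^ c • ((i : ℤ_[p]) • V +
      (((i.choose 2 : ℕ) : ℤ_[p]) * p) • (X' * V + V * X) + (p : ℤ_[p]) ^ 2 • E) := by
  induction i with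
  | zero => exact ⟨0, by simp⟩
  | succ i ih =>
    obtain ⟨E, hE⟩ := ih
    obtain ⟨F, hF⟩ := pow_one_add (p := p) X' i
    rw [← hU] at hF
    refine ⟨E + ((i.choose 2 : ℕ) : ℤ_[p]) • ((X' * V + V * X) * X) + (p : ℤ_[p]) • (E * X) + F * V,
      ?_⟩
    have h1 : U ^ (i + 1) = U ^ i * S + (p : ℤ_[p]) ^ c • (U ^ i * V) := by
      have h0 : U ^ i * U = U ^ i * (S + (p : ℤ_[p]) ^ c • V) := by rw [← hUS]
      rw [pow_succ, h0, mul_add, mul_smul_comm]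
    have h2 : U ^ i * S = S ^ (i + 1) + (p : ℤ_[p]) ^ c • (((i : ℤ_[p]) • V +
      (((i.choose 2 : ℕ) : ℤ_[p]) * p) • (X' * V + V * X) + (p : ℤ_[p]) ^ 2 • E) *
        (1 + (p : ℤ_[p]) • X)) := by
      rw [hE, add_mul, ← pow_succ, smul_mul_assoc]
      congr 3
    have h3 : ((i + 1).choose 2 : ℕ) = i + i.choose 2 := by
      rw [Nat.choose_succ_succ' i 1, Nat.choose_one_right]
    rw [h1, h2, hF, h3]
    push_cast
    simp only [mul_add, add_mul, smul_mul_assoc, mul_smul_comm, smul_add, one_mul, mul_one]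
    module

theorem diff_p (hp3 : 3 ≤ p) {X V : A} {c : ℕ} (hc : 1 ≤ c) :
    ∃ V' : A, (1 + (p : ℤ_[p]) • X + (p : ℤ_[p]) ^ c • V) ^ p = (1 + (p : ℤ_[p]) • X) ^ p +
      (p : ℤ_[p]) ^ (c + 1) • (V + (p : ℤ_[p]) • V') := by
  obtain ⟨d, rfl⟩ : ∃ d, c = d + 1 := ⟨c - 1, by omega⟩
  obtain ⟨E, hE⟩ := diff_pow (p := p) (S := 1 + (p : ℤ_[p]) • X)
    (U := 1 + (p : ℤ_[p]) • X + (p : ℤ_[p]) ^ (d + 1) • V) (X := X)
    (X' := X + (p : ℤ_[p]) ^ d • V) (V := V) (c := d + 1) rfl (by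
      rw [smul_add, smul_smul, ← pow_succ', add_assoc]) rfl p
  obtain ⟨m, hm⟩ := hp.out.dvd_choose_self (k := 2) (by norm_num) (by omega)
  refine ⟨(m : ℤ_[p]) • ((X + (p : ℤ_[p]) ^ d • V) * V + V * X) + E, ?_⟩
  rw [hE, hm]
  push_cast
  module

theorem diff_iter (hp3 : 3 ≤ p) {R : Γ →* A} {s t : Γ} {X V : A} {c : ℕ} (hc : 1 ≤ c)
    (hs : R s = 1 + (p : ℤ_[p]) • X) (ht : R t = R s + (p : ℤ_[p]) ^ c • V) (n : ℕ) :
    ∃ V' : A, R (t ^ p ^ n) = R (s ^ p ^ n) + (p : ℤ_[p]) ^ (c + n) • (V + (p : ℤ_[p]) • V') := by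
  induction n with
  | zero => exact ⟨0, by rw [pow_zero, pow_one, pow_one, ht, smul_zero, add_zero, add_zero]⟩
  | succ n ih =>
    obtain ⟨V', hV'⟩ := ih
    obtain ⟨E, hE⟩ := pow_one_add (p := p) X (p ^ n)
    have h1 : R (s ^ p ^ n) = 1 + (p : ℤ_[p]) • (((p ^ n : ℕ) : ℤ_[p]) • X + (p : ℤ_[p]) • E) := by
      rw [map_pow, hs, hE]
      module
    obtain ⟨V'', hV''⟩ := diff_p (p := p) hp3
      (X := ((p ^ n : ℕ) : ℤ_[p]) • X + (p : ℤ_[p]) • E) (V := V + (p : ℤ_[p]) • V')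
      (c := c + n) (by omega)
    refine ⟨V' + V'', ?_⟩
    rw [← h1] at hV''
    have h2 : R (t ^ p ^ (n + 1)) = R (t ^ p ^ n) ^ p := by rw [pow_succ, pow_mul, map_pow]
    have h3 : R (s ^ p ^ (n + 1)) = R (s ^ p ^ n) ^ p := by rw [pow_succ, pow_mul, map_pow]
    rw [h2, h3, hV', hV'', ← add_assoc c n 1]
    module

theorem smul_cancel [Module.Free ℤ_[p] A] {a b : A} (n : ℕ)
    (h : (p : ℤ_[p]) ^ n • a = (p : ℤ_[p]) ^ n • b) : a = b := by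
  have hp0 : (p : ℤ_[p]) ^ n ≠ 0 := pow_ne_zero _ (by exact_mod_cast hp.out.ne_zero)
  exact smul_right_injective _ hp0 h

theorem log_diff (hp3 : 3 ≤ p) [Module.Free ℤ_[p] A] {R : Γ →* A} {s t : Γ} {X V L M : A} {c : ℕ}
    (hs : R s = 1 + (p : ℤ_[p]) • X) (ht : R t = R s + (p : ℤ_[p]) ^ (c + 1) • V)
    (hL : LogOf p R s L) (hM : LogOf p R t M) :
    ∃ E : A, M = L + (p : ℤ_[p]) ^ c • (V + (p : ℤ_[p]) • E) := by
  obtain ⟨V', hV'⟩ := diff_iter hp3 (by omega) hs ht (c + 1)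
  obtain ⟨Z, hZ⟩ := hL (c + 1)
  obtain ⟨Z', hZ'⟩ := hM (c + 1)
  refine ⟨V' - (Z' - Z), ?_⟩
  rw [hZ, hZ'] at hV'
  apply smul_cancel (p := p) (c + 1 + 1)
  have h1 : (p : ℤ_[p]) ^ (c + 1 + 1) • (M + (p : ℤ_[p]) ^ (c + 1) • Z') =
    (p : ℤ_[p]) ^ (c + 1 + 1) • (L + (p : ℤ_[p]) ^ (c + 1) • Z) +
      (p : ℤ_[p]) ^ (c + 1 + (c + 1)) • (V + (p : ℤ_[p]) • V') := by
    rw [add_assoc (1 : A)] at hV'
    exact add_left_cancel hV'
  have h2 : (p : ℤ_[p]) ^ (c + 1 + 1) • M = (p : ℤ_[p]) ^ (c + 1 + 1) • (L +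
      (p : ℤ_[p]) ^ (c + 1) • Z) + (p : ℤ_[p]) ^ (c + 1 + (c + 1)) • (V + (p : ℤ_[p]) • V') -
      (p : ℤ_[p]) ^ (c + 1 + 1) • (p : ℤ_[p]) ^ (c + 1) • Z' := by
    rw [← h1]
    module
  rw [h2]
  module

end log

end

end Pool.Agent.U175.LP
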