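import Mathlib
import Pool.Agent.U175.LP.V1
import Pool.Agent.U175.LP.T9

/-!
# Every tangent vector is a multiple of the logarithm of an element of a compact group
-/

set_option autoImplicit false
set_option linter.unusedSectionVars false

namespace Pool.Agent.U175.LP

open PadicInt Module Matrix Filter Topology Pool.Agent.U175.LP.Pub

noncomputable section

variable {p : ℕ} [hp : Fact p.Prime] {n : ℕ} {G : Type*} [Group G]
  {R : G →* Matrix (Fin n) (Fin n) ℤ_[p]}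

/-- The approximations are uniform. -/
theorem exists_uniform (R : G →* Matrix (Fin n) (Fin n) ℤ_[p]) :
    ∃ N : ℕ, ∀ W : Matrix (Fin n) (Fin n) ℤ_[p], TanA p R W → ∀ m, N ≤ m →
      ∃ (t : G) (Z : Matrix (Fin n) (Fin n) ℤ_[p]),
        R t = 1 + (p : ℤ_[p]) ^ m • (W + (p : ℤ_[p]) • Z) := by
  classical
  have key : ∀ x : Matrix (Fin n) (Fin n) (ZMod p), ∃ N : ℕ,
      ∀ W : Matrix (Fin n) (Fin n) ℤ_[p], TanA p R W → red W = x → ∀ m, N ≤ m →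
      ∃ (t : G) (Z : Matrix (Fin n) (Fin n) ℤ_[p]),
        R t = 1 + (p : ℤ_[p]) ^ m • (W + (p : ℤ_[p]) • Z) := by
    intro x
    by_cases h : ∃ W : Matrix (Fin n) (Fin n) ℤ_[p], TanA p R W ∧ red W = x
    · obtain ⟨W₀, h0, h1⟩ := h
      obtain ⟨N, hN⟩ := h0 1
      refine ⟨N, fun W hW hx m hm => ?_⟩
      obtain ⟨V, hV⟩ := exists_of_red (h1.trans hx.symm)
      obtain ⟨t, Z, hZ⟩ := hN m hm
      refine ⟨t, V + Z, ?_⟩
      rw [hZ, hV, pow_one]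
      module
    · exact ⟨0, fun W hW hx => absurd ⟨W, hW, hx⟩ h⟩
  choose f hf using key
  exact ⟨Finset.univ.sup f, fun W hW m hm =>
    hf (red W) W hW rfl m ((Finset.le_sup (Finset.mem_univ _)).trans hm)⟩

/-- One step of the approximation. -/
theorem approx_step (hp3 : 3 ≤ p) {N : ℕ}
    (hN : ∀ W : Matrix (Fin n) (Fin n) ℤ_[p], TanA p R W → ∀ m, N ≤ m →
      ∃ (t : G) (Z : Matrix (Fin n) (Fin n) ℤ_[p]),
        R t = 1 + (p : ℤ_[p]) ^ m • (W + (p : ℤ_[p]) • Z))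
    {Y : Matrix (Fin n) (Fin n) ℤ_[p]} (hY : TanA p R Y) (k : ℕ) (s : G)
    (hs : ∃ L X W : Matrix (Fin n) (Fin n) ℤ_[p], R s = 1 + (p : ℤ_[p]) • X ∧ TanA p R L ∧
      LogOf p R s L ∧ (p : ℤ_[p]) ^ N • Y = L + (p : ℤ_[p]) ^ (N + k) • W) :
    ∃ s' : G, (∃ L X W : Matrix (Fin n) (Fin n) ℤ_[p], R s' = 1 + (p : ℤ_[p]) • X ∧ TanA p R L ∧
      LogOf p R s' L ∧ (p : ℤ_[p]) ^ N • Y = L + (p : ℤ_[p]) ^ (N + (k + 1)) • W) ∧
      ∃ V, R s' = R s + (p : ℤ_[p]) ^ (N + k + 1) • V := by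
  obtain ⟨L, X, W, h1, h2, h3, h4⟩ := hs
  have hW : TanA p R W := by
    refine TanA_cancel_pow (N + k) ?_
    have h5 : (p : ℤ_[p]) ^ (N + k) • W = (p : ℤ_[p]) ^ N • Y - L := by
      rw [h4]
      abel
    rw [h5]
    exact TanA_sub (TanA_smul _ hY) h2
  obtain ⟨t, Z, hZ⟩ := hN W hW (N + k + 1) (by omega)
  have h6 : R (s * t) = R s + (p : ℤ_[p]) ^ (N + k + 1) • (W + (p : ℤ_[p]) •
      (Z + X * (W + (p : ℤ_[p]) • Z))) := by
    rw [map_mul, hZ, mul_add, mul_one, mul_smul_comm, h1]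
    simp only [mul_add, add_mul, smul_mul_assoc, mul_smul_comm, smul_add, one_mul, mul_one]
    module
  have h7 : ∃ X', R (s * t) = 1 + (p : ℤ_[p]) • X' :=
    ⟨X + (p : ℤ_[p]) ^ (N + k) • (W + (p : ℤ_[p]) • (Z + X * (W + (p : ℤ_[p]) • Z))), by
      rw [h6, h1, pow_succ]
      module⟩
  obtain ⟨X', hX'⟩ := h7
  obtain ⟨L', hL', hL''⟩ := exists_log' hp3 hX'
  obtain ⟨E, hE⟩ := log_diff hp3 h1 h6 h3 hL''
  refine ⟨s * t, ⟨L', X', -((Z + X * (W + (p : ℤ_[p]) • Z)) + E), hX', hL', hL'', ?_⟩, _, h6⟩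
  rw [hE, h4]
  module

variable [TopologicalSpace G] [CompactSpace G]

instance : CompactSpace (Matrix (Fin n) (Fin n) ℤ_[p]) :=
  inferInstanceAs (CompactSpace (Fin n → Fin n → ℤ_[p]))

theorem exists_exact (hp3 : 3 ≤ p) (hR : Continuous R) {Y : Matrix (Fin n) (Fin n) ℤ_[p]}
    (hY : TanA p R Y) : ∃ (N : ℕ) (s : G), LogOf p R s ((p : ℤ_[p]) ^ N • Y) := by
  classical
  obtain ⟨N, hN⟩ := exists_uniform R
  refine ⟨N, ?_⟩
  choose! f hf1 hf2 using approx_step hp3 hN hY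
  let s : ℕ → G := fun k => Nat.rec 1 (fun k s => f k s) k
  have hs0 : s 0 = 1 := rfl
  have hss : ∀ k, s (k + 1) = f k (s k) := fun k => rfl
  have hP : ∀ k, ∃ L X W : Matrix (Fin n) (Fin n) ℤ_[p], R (s k) = 1 + (p : ℤ_[p]) • X ∧
      TanA p R L ∧ LogOf p R (s k) L ∧
      (p : ℤ_[p]) ^ N • Y = L + (p : ℤ_[p]) ^ (N + k) • W := by
    intro k
    induction k with
    | zero =>
      refine ⟨0, 0, Y, ?_, TanA_zero, fun m => ⟨0, ?_⟩, ?_⟩
      · rw [hs0, map_one, smul_zero, add_zero]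
      · rw [hs0, one_pow, map_one, smul_zero, add_zero, smul_zero, add_zero]
      · rw [zero_add, add_zero]
    | succ k ih =>
      rw [hss]
      exact hf1 k (s k) ih
  have hstep : ∀ k j, ∃ V, R (s (k + j)) = R (s k) + (p : ℤ_[p]) ^ (N + k + 1) • V := by
    intro k j
    induction j with
    | zero => exact ⟨0, by rw [add_zero, smul_zero, add_zero]⟩
    | succ j ih =>
      obtain ⟨V, hV⟩ := ih
      obtain ⟨V', hV'⟩ := hf2 (k + j) (s (k + j)) (hP (k + j))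
      refine ⟨V + (p : ℤ_[p]) ^ j • V', ?_⟩
      rw [← add_assoc k j 1, hss, hV', hV]
      have h1 : (p : ℤ_[p]) ^ (N + (k + j) + 1) = (p : ℤ_[p]) ^ (N + k + 1) * (p : ℤ_[p]) ^ j := by
        rw [← pow_add]
        congr 1
        omega
      rw [h1]
      module
  obtain ⟨g, -, hg⟩ := isCompact_univ (X := G) (f := Filter.map s atTop) (by simp)
  have hcl : ∀ k, ∃ V, R g = R (s k) + (p : ℤ_[p]) ^ (N + k + 1) • V := by
    intro k
    have h1 : IsClosed (Set.range fun V : Matrix (Fin n) (Fin n) ℤ_[p] =>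
        R (s k) + (p : ℤ_[p]) ^ (N + k + 1) • V) :=
      (isCompact_range (by fun_prop)).isClosed
    have h2 : IsClosed (R ⁻¹' (Set.range fun V : Matrix (Fin n) (Fin n) ℤ_[p] =>
        R (s k) + (p : ℤ_[p]) ^ (N + k + 1) • V)) := h1.preimage hR
    by_contra hc
    have h3 : (R ⁻¹' (Set.range fun V : Matrix (Fin n) (Fin n) ℤ_[p] =>
        R (s k) + (p : ℤ_[p]) ^ (N + k + 1) • V))ᶜ ∈ 𝓝 g := by
      refine h2.isOpen_compl.mem_nhds ?_
      rintro ⟨V, hV⟩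
      exact hc ⟨V, hV.symm⟩
    have h4 := (clusterPt_iff_frequently.1 hg) _ h3
    have h5 : ∀ᶠ x in Filter.map s atTop, x ∈ (R ⁻¹' (Set.range
        fun V : Matrix (Fin n) (Fin n) ℤ_[p] => R (s k) + (p : ℤ_[p]) ^ (N + k + 1) • V)) := by
      rw [Filter.eventually_map, Filter.eventually_atTop]
      refine ⟨k, fun m hm => ?_⟩
      obtain ⟨j, rfl⟩ := Nat.exists_eq_add_of_le hm
      obtain ⟨V, hV⟩ := hstep k j
      exact ⟨V, hV.symm⟩
    obtain ⟨x, hx1, hx2⟩ := (h4.and_eventually h5).exists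
    exact hx1 hx2
  obtain ⟨X₀, hX₀⟩ : ∃ X₀, R g = 1 + (p : ℤ_[p]) • X₀ := by
    obtain ⟨V, hV⟩ := hcl 0
    refine ⟨(p : ℤ_[p]) ^ N • V, ?_⟩
    rw [hV, hs0, map_one, add_zero, pow_succ]
    module
  obtain ⟨L, -, hL⟩ := exists_log' hp3 hX₀
  have hLY : L = (p : ℤ_[p]) ^ N • Y := by
    have h1 : ∀ k, ∃ Z, L - (p : ℤ_[p]) ^ N • Y = (p : ℤ_[p]) ^ k • Z := by
      intro k
      obtain ⟨L', X, W, h1, h2, h3, h4⟩ := hP k
      obtain ⟨V, hV⟩ := hcl k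
      obtain ⟨E, hE⟩ := log_diff hp3 h1 hV h3 hL
      refine ⟨(p : ℤ_[p]) ^ N • (V + (p : ℤ_[p]) • E - W), ?_⟩
      rw [hE, h4, pow_add]
      module
    rw [← sub_eq_zero]
    ext i j
    refine eq_zero_of_dvd_pow' (p := p) fun k => ?_
    obtain ⟨Z, hZ⟩ := h1 k
    rw [hZ]
    exact ⟨Z i j, by rw [Matrix.smul_apply, smul_eq_mul]⟩
  rw [← hLY]
  exact ⟨g, hL⟩

end

end Pool.Agent.U175.LP
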