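import Mathlib
import Pool.Agent.U175.LP.V2

/-!
# Multiplicatively independent eigenvalues from linearly independent eigenvalues of a logarithm
-/

set_option autoImplicit false
set_option linter.unusedSectionVars false

namespace Pool.Agent.U175.LP

open PadicInt Module Matrix Filter Topology Pool.Agent.U175.LP.Pub

noncomputable section

variable {p : ℕ} [hp : Fact p.Prime] {n : ℕ}

theorem natCast_alg (k : ℕ) :
    algebraMap ℤ_[p] (PadicAlgCl p) ((p : ℤ_[p]) ^ k) = (p : PadicAlgCl p) ^ k := by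
  rw [map_pow, map_natCast]

theorem eq_zero_of_div {x : PadicAlgCl p}
    (h : ∀ k : ℕ, ∃ w, IsIntegral ℤ_[p] w ∧ x = (p : PadicAlgCl p) ^ k * w) : x = 0 := by
  by_contra hx
  have hp0 : (p : PadicAlgCl p) ≠ 0 := by exact_mod_cast hp.out.ne_zero
  have h1 : IsAlgebraic ℤ_[p] x⁻¹ :=
    (IsFractionRing.isAlgebraic_iff ℤ_[p] ℚ_[p] (PadicAlgCl p)).2
      (Algebra.IsAlgebraic.isAlgebraic x⁻¹)
  obtain ⟨y, hy0, hy⟩ := h1.exists_integral_multiple
  have h2 := PadicInt.unitCoeff_spec hy0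
  have h3 : IsIntegral ℤ_[p] ((p : PadicAlgCl p) ^ y.valuation * x⁻¹) := by
    have h4 := hy.smul (((PadicInt.unitCoeff hy0)⁻¹ : ℤ_[p]ˣ) : ℤ_[p])
    rw [smul_smul] at h4
    have h5 : (((PadicInt.unitCoeff hy0)⁻¹ : ℤ_[p]ˣ) : ℤ_[p]) * y = (p : ℤ_[p]) ^ y.valuation := by
      have h6 : (((PadicInt.unitCoeff hy0)⁻¹ : ℤ_[p]ˣ) : ℤ_[p]) * y =
          (((PadicInt.unitCoeff hy0)⁻¹ : ℤ_[p]ˣ) : ℤ_[p]) *
            (((PadicInt.unitCoeff hy0 : ℤ_[p]ˣ) : ℤ_[p]) * (p : ℤ_[p]) ^ y.valuation) :=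
        congrArg (fun z => (((PadicInt.unitCoeff hy0)⁻¹ : ℤ_[p]ˣ) : ℤ_[p]) * z) h2
      rw [h6, ← mul_assoc, Units.inv_mul, one_mul]
    rw [h5, Algebra.smul_def, natCast_alg] at h4
    exact h4
  obtain ⟨w, hw, hxw⟩ := h (y.valuation + 1)
  have h6 : (p : PadicAlgCl p)⁻¹ = (p : PadicAlgCl p) ^ y.valuation * x⁻¹ * w := by
    rw [eq_comm, ← mul_right_inj' hp0, mul_inv_cancel₀ hp0]
    have h7 : x * x⁻¹ = 1 := mul_inv_cancel₀ hx
    calc (p : PadicAlgCl p) * ((p : PadicAlgCl p) ^ y.valuation * x⁻¹ * w) =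
        ((p : PadicAlgCl p) ^ (y.valuation + 1) * w) * x⁻¹ := by ring
      _ = x * x⁻¹ := by rw [← hxw]
      _ = 1 := h7
  have h8 : IsIntegral ℤ_[p] ((algebraMap ℚ_[p] (PadicAlgCl p)) (p : ℚ_[p])⁻¹) := by
    rw [map_inv₀, map_natCast, h6]
    exact h3.mul hw
  have h9 : IsIntegral ℤ_[p] ((p : ℚ_[p])⁻¹) :=
    (isIntegral_algebraMap_iff (algebraMap ℚ_[p] (PadicAlgCl p)).injective).1 h8
  obtain ⟨z, hz⟩ := (IsIntegrallyClosed.isIntegral_iff (R := ℤ_[p]) (K := ℚ_[p])).1 h9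
  have h10 : ‖((p : ℚ_[p])⁻¹)‖ ≤ 1 := by
    rw [← hz]
    exact z.2
  rw [norm_inv, Padic.norm_p, inv_inv] at h10
  have h11 : (1 : ℝ) < p := by exact_mod_cast hp.out.one_lt
  linarith

variable (p) in
/-- `α` is the exponential of `p ^ (N + 1) * μ`. -/
def ExpOf (N : ℕ) (α μ : PadicAlgCl p) : Prop :=
  IsIntegral ℤ_[p] μ ∧ ∀ k : ℕ, ∃ z : PadicAlgCl p, IsIntegral ℤ_[p] z ∧
    α ^ p ^ k = 1 + (p : PadicAlgCl p) ^ (k + 1 + N) * μ + (p : PadicAlgCl p) ^ (2 * k + 1) * z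

theorem int_p (k : ℕ) : IsIntegral ℤ_[p] ((p : PadicAlgCl p) ^ k) := by
  rw [← natCast_alg]
  exact isIntegral_algebraMap

theorem ExpOf.one {N : ℕ} : ExpOf p N 1 0 :=
  ⟨isIntegral_zero, fun k => ⟨0, isIntegral_zero, by rw [one_pow, mul_zero, mul_zero, add_zero,
    add_zero]⟩⟩

theorem ExpOf.mul {N : ℕ} {α β μ ν : PadicAlgCl p} (h : ExpOf p N α μ) (h' : ExpOf p N β ν) :
    ExpOf p N (α * β) (μ + ν) := by
  refine ⟨h.1.add h'.1, fun k => ?_⟩
  obtain ⟨z, hz, h1⟩ := h.2 k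
  obtain ⟨w, hw, h2⟩ := h'.2 k
  refine ⟨z + w + (p : PadicAlgCl p) ^ (1 + 2 * N) * (μ * ν) +
    (p : PadicAlgCl p) ^ (k + 1 + N) * (μ * w + ν * z) + (p : PadicAlgCl p) ^ (2 * k + 1) * (z * w),
    ?_, ?_⟩
  · exact (((hz.add hw).add ((int_p _).mul (h.1.mul h'.1))).add
      ((int_p _).mul ((h.1.mul hw).add (h'.1.mul hz)))).add ((int_p _).mul (hz.mul hw))
  · rw [mul_pow, h1, h2]
    ring

theorem ExpOf.pow {N : ℕ} {α μ : PadicAlgCl p} (h : ExpOf p N α μ) (m : ℕ) :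
    ExpOf p N (α ^ m) ((m : PadicAlgCl p) * μ) := by
  induction m with
  | zero =>
    rw [pow_zero, Nat.cast_zero, zero_mul]
    exact ExpOf.one
  | succ m ih =>
    have h1 := ih.mul h
    rw [pow_succ, Nat.cast_succ, add_mul, one_mul]
    exact h1

theorem ExpOf.prod {N r : ℕ} {α μ : Fin r → PadicAlgCl p} (h : ∀ k, ExpOf p N (α k) (μ k))
    (m : Fin r → ℕ) (s : Finset (Fin r)) :
    ExpOf p N (∏ k ∈ s, α k ^ m k) (∑ k ∈ s, (m k : PadicAlgCl p) * μ k) := by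
  classical
  induction s using Finset.induction_on with
  | empty =>
    rw [Finset.prod_empty, Finset.sum_empty]
    exact ExpOf.one
  | insert a s ha ih =>
    rw [Finset.prod_insert ha, Finset.sum_insert ha]
    exact ((h a).pow _).mul ih

theorem ExpOf.unique {N : ℕ} {α μ ν : PadicAlgCl p} (h : ExpOf p N α μ) (h' : ExpOf p N α ν) :
    μ = ν := by
  have hp0 : (p : PadicAlgCl p) ≠ 0 := by exact_mod_cast hp.out.ne_zero
  rw [← sub_eq_zero]
  refine eq_zero_of_div fun k => ?_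
  obtain ⟨z, hz, h1⟩ := h.2 (N + k)
  obtain ⟨w, hw, h2⟩ := h'.2 (N + k)
  refine ⟨w - z, hw.sub hz, ?_⟩
  have h3 : (p : PadicAlgCl p) ^ (N + k + 1 + N) * (μ - ν) =
      (p : PadicAlgCl p) ^ (N + k + 1 + N) * ((p : PadicAlgCl p) ^ k * (w - z)) := by
    have h4 : (p : PadicAlgCl p) ^ (2 * (N + k) + 1) =
        (p : PadicAlgCl p) ^ (N + k + 1 + N) * (p : PadicAlgCl p) ^ k := by
      rw [← pow_add]
      congr 1
      ring
    rw [h4] at h1 h2
    linear_combination h2 - h1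
  exact mul_left_cancel₀ (pow_ne_zero _ hp0) h3

/-- Independence. -/
theorem ExpOf.indep {N r : ℕ} {α μ : Fin r → PadicAlgCl p} (h : ∀ k, ExpOf p N (α k) (μ k))
    (hα : ∀ k, α k ≠ 0)
    (hμ : ∀ m : Fin r → ℤ, ∑ k, (m k : PadicAlgCl p) * μ k = 0 → m = 0)
    (e : Fin r → ℤ) (he : ∏ k, α k ^ e k = 1) : e = 0 := by
  have h1 : ∏ k, α k ^ (e k).toNat = ∏ k, α k ^ (-e k).toNat := by
    have h2 : ∏ k, α k ^ e k = (∏ k, α k ^ (e k).toNat) / ∏ k, α k ^ (-e k).toNat := by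
      rw [← Finset.prod_div_distrib]
      refine Finset.prod_congr rfl fun k _ => ?_
      conv_lhs => rw [← Int.toNat_sub_toNat_neg (e k)]
      rw [zpow_sub₀ (hα k), zpow_natCast, zpow_natCast]
    rw [h2] at he
    exact (div_eq_one_iff_eq (Finset.prod_ne_zero_iff.2 fun k _ => pow_ne_zero _ (hα k))).1 he
  have h3 := ExpOf.prod h (fun k => (e k).toNat) Finset.univ
  have h4 := ExpOf.prod h (fun k => (-e k).toNat) Finset.univ
  rw [h1] at h3
  have h5 := h3.unique h4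
  refine hμ e ?_
  have h6 : ∀ k, (e k : PadicAlgCl p) = ((e k).toNat : PadicAlgCl p) - ((-e k).toNat : PadicAlgCl p) := by
    intro k
    have h7 := Int.toNat_sub_toNat_neg (e k)
    have h8 : ((((e k).toNat : ℤ) - ((-e k).toNat : ℤ) : ℤ) : PadicAlgCl p) = (e k : PadicAlgCl p) := by
      rw [h7]
    rw [← h8]
    push_cast
    ring
  calc ∑ k, (e k : PadicAlgCl p) * μ k =
      ∑ k, ((e k).toNat : PadicAlgCl p) * μ k - ∑ k, ((-e k).toNat : PadicAlgCl p) * μ k := by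
        rw [← Finset.sum_sub_distrib]
        refine Finset.sum_congr rfl fun k _ => ?_
        rw [h6 k, sub_mul]
    _ = 0 := by rw [h5, sub_self]

section eig

variable {Γ : Type*} [Group Γ] {R : Γ →* Matrix (Fin n) (Fin n) ℤ_[p]}

theorem exists_common {F : Type*} [Field F] [IsAlgClosed F] {M N : Matrix (Fin n) (Fin n) F}
    (hc : M * N = N * M) {μ : F} (h : N.charpoly.IsRoot μ) :
    ∃ (α : F) (v : Fin n → F), v ≠ 0 ∧ N *ᵥ v = μ • v ∧ M *ᵥ v = α • v := by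
  set f : Module.End F (Fin n → F) := M.mulVecLin with hf
  set g : Module.End F (Fin n → F) := N.mulVecLin with hg
  obtain ⟨v₀, hv₀, h0⟩ : ∃ v : Fin n → F, v ≠ 0 ∧ N *ᵥ v = μ • v := by
    have h1 : (scalar (Fin n) μ - N).det = 0 := by
      rw [← Matrix.eval_charpoly]
      exact h
    obtain ⟨v, hv, h2⟩ := Matrix.exists_mulVec_eq_zero_iff.2 h1
    refine ⟨v, hv, ?_⟩
    rw [sub_mulVec, sub_eq_zero] at h2
    rw [← h2]
    ext i
    simp [Matrix.scalar_apply, Matrix.mulVec_diagonal]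
  let W : Submodule F (Fin n → F) := Module.End.eigenspace g μ
  have hW : ∀ x, x ∈ W ↔ N *ᵥ x = μ • x := fun x => Module.End.mem_eigenspace_iff
  have hmaps : ∀ x ∈ W, f x ∈ W := by
    intro x hx
    rw [hW] at hx ⊢
    change N *ᵥ (M *ᵥ x) = μ • (M *ᵥ x)
    rw [mulVec_mulVec, ← hc, ← mulVec_mulVec, hx, mulVec_smul]
  have : Nontrivial W := ⟨⟨⟨v₀, (hW _).2 h0⟩, 0, fun h => hv₀ (congrArg Subtype.val h)⟩⟩
  obtain ⟨α, hα⟩ := Module.End.exists_eigenvalue (f.restrict hmaps)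
  obtain ⟨w, hw⟩ := hα.exists_hasEigenvector
  refine ⟨α, w.1, fun h => hw.2 (Subtype.ext h), (hW _).1 w.2, ?_⟩
  exact congrArg Subtype.val hw.apply_eq_smul

theorem map_sm (c : ℤ_[p]) (A : Matrix (Fin n) (Fin n) ℤ_[p]) :
    (c • A).map (algebraMap ℤ_[p] (PadicAlgCl p)) =
      algebraMap ℤ_[p] (PadicAlgCl p) c • A.map (algebraMap ℤ_[p] (PadicAlgCl p)) := by
  ext i j
  rw [Matrix.map_apply, Matrix.smul_apply, Matrix.smul_apply, Matrix.map_apply, smul_eq_mul,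
    smul_eq_mul, map_mul]

theorem comm_of_log {s : Γ} {Y : Matrix (Fin n) (Fin n) ℤ_[p]} {N : ℕ}
    (h : LogOf p R s ((p : ℤ_[p]) ^ N • Y)) : R s * Y = Y * R s := by
  rw [← sub_eq_zero]
  refine eq_zero_of_dvd_pow' (p := p) fun k => ?_
  obtain ⟨Z, hZ⟩ := h (N + k)
  have h1 : R s * R (s ^ p ^ (N + k)) = R (s ^ p ^ (N + k)) * R s := by
    rw [← map_mul, ← map_mul, ← pow_succ, ← pow_succ']
  refine ⟨Z * R s - R s * Z, ?_⟩
  apply smul_cancel (p := p) (N + k + 1 + N)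
  rw [hZ, mul_add, add_mul, one_mul, mul_one] at h1
  have h2 := add_left_cancel h1
  simp only [mul_add, add_mul, smul_mul_assoc, mul_smul_comm, smul_add, smul_smul, ← pow_add] at h2
  simp only [smul_sub, smul_smul, ← pow_add]
  have h3 : N + k + 1 + (N + k) = N + k + 1 + N + k := by ring
  rw [h3] at h2
  rw [sub_eq_sub_iff_add_eq_add]
  rw [h2]
  abel

/-- The eigenvalues of an element with a given logarithm. -/
theorem exists_expOf {s : Γ} {Y : Matrix (Fin n) (Fin n) ℤ_[p]} {N : ℕ}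
    (h : LogOf p R s ((p : ℤ_[p]) ^ N • Y)) {μ : PadicAlgCl p}
    (hμ : (Y.map (algebraMap ℤ_[p] (PadicAlgCl p))).charpoly.IsRoot μ) :
    ∃ α, α ≠ 0 ∧ ((R s).map (algebraMap ℤ_[p] (PadicAlgCl p))).charpoly.IsRoot α ∧
      ExpOf p N α μ := by
  have hp0 : (p : PadicAlgCl p) ≠ 0 := by exact_mod_cast hp.out.ne_zero
  set A := algebraMap ℤ_[p] (PadicAlgCl p) with hA
  have hc : (R s).map A * Y.map A = Y.map A * (R s).map A := by
    rw [← Matrix.map_mul, ← Matrix.map_mul, comm_of_log h]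
  obtain ⟨α, v, hv, h1, h2⟩ := exists_common hc hμ
  have hroot : ∀ (B : Matrix (Fin n) (Fin n) (PadicAlgCl p)) (β : PadicAlgCl p),
      B *ᵥ v = β • v → B.charpoly.IsRoot β := by
    intro B β hB
    rw [Polynomial.IsRoot, Matrix.eval_charpoly]
    refine Matrix.exists_mulVec_eq_zero_iff.1 ⟨v, hv, ?_⟩
    rw [sub_mulVec, hB, sub_eq_zero]
    ext i
    simp [Matrix.scalar_apply, Matrix.mulVec_diagonal]
  have hint : ∀ (B : Matrix (Fin n) (Fin n) ℤ_[p]) (β : PadicAlgCl p),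
      B.map A *ᵥ v = β • v → IsIntegral ℤ_[p] β := by
    intro B β hB
    refine ⟨B.charpoly, Matrix.charpoly_monic B, ?_⟩
    have h3 := hroot _ _ hB
    have h4 : (B.map A).charpoly = B.charpoly.map A := Matrix.charpoly_map B A
    rw [h4, Polynomial.IsRoot, Polynomial.eval_map] at h3
    exact h3
  refine ⟨α, ?_, hroot _ _ h2, hint _ _ h1, fun k => ?_⟩
  · rintro rfl
    apply hv
    have h3 : (R s⁻¹).map A * (R s).map A = 1 := by
      rw [← Matrix.map_mul, ← map_mul, inv_mul_cancel, map_one, Matrix.map_one _ (map_zero _) (map_one _)]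
    rw [← one_mulVec v, ← h3, ← mulVec_mulVec, h2, zero_smul, mulVec_zero]
  · obtain ⟨Z, hZ⟩ := h k
    have h3 : (R (s ^ p ^ k)).map A = ((R s).map A) ^ p ^ k := by
      rw [map_pow]
      exact (map_pow (RingHom.mapMatrix A) (R s) (p ^ k))
    have h4 : ∀ m : ℕ, ((R s).map A) ^ m *ᵥ v = α ^ m • v := by
      intro m
      induction m with
      | zero => rw [pow_zero, pow_zero, one_mulVec, one_smul]
      | succ m ih => rw [pow_succ', ← mulVec_mulVec, ih, mulVec_smul, h2, smul_smul, ← pow_succ]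
    have h5 : ((R s).map A) ^ p ^ k = 1 + (p : PadicAlgCl p) ^ (k + 1 + N) • Y.map A +
        (p : PadicAlgCl p) ^ (2 * k + 1) • Z.map A := by
      rw [← h3, hZ, smul_add, smul_smul, smul_smul, ← pow_add, ← pow_add, Matrix.map_add _ (map_add A),
        Matrix.map_add _ (map_add A), Matrix.map_one _ (map_zero _) (map_one _), map_sm, map_sm,
        natCast_alg, natCast_alg, ← add_assoc]
      congr 3
      ring
    have h6 := h4 (p ^ k)
    rw [h5, add_mulVec, add_mulVec, one_mulVec, smul_mulVec, smul_mulVec, h1] at h6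
    refine ⟨((p : PadicAlgCl p) ^ (2 * k + 1))⁻¹ * (α ^ p ^ k - 1 -
      (p : PadicAlgCl p) ^ (k + 1 + N) * μ), hint Z _ ?_, ?_⟩
    · have h7 : (p : PadicAlgCl p) ^ (2 * k + 1) • (Z.map A *ᵥ v) =
          (α ^ p ^ k - 1 - (p : PadicAlgCl p) ^ (k + 1 + N) * μ) • v := by
        rw [sub_smul, sub_smul, ← h6, one_smul, smul_smul]
        abel
      rw [mul_smul, ← h7, smul_smul, inv_mul_cancel₀ (pow_ne_zero _ hp0), one_smul]
    · rw [← mul_assoc, mul_inv_cancel₀ (pow_ne_zero _ hp0)]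
      ring

end eig

end

end Pool.Agent.U175.LP
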