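import Mathlib
import Pool.Agent.U175.LP.V3

/-!
# Linearly independent eigenvalues of a generic element
-/

set_option autoImplicit false
set_option linter.unusedSectionVars false

namespace Pool.Agent.U175.LP

open PadicInt Module Matrix Pool.Agent.U175.LP.Pub

noncomputable section

/-- Extension of homomorphisms along integral extensions. -/
theorem exists_lift_integral {P C Ω : Type} [CommRing P] [CommRing C] [IsDomain C] [Algebra P C]
    [Algebra.IsIntegral P C] (hinj : Function.Injective (algebraMap P C)) [Field Ω]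
    [IsAlgClosed Ω] (ψ : P →+* Ω) : ∃ φ : C →+* Ω, ∀ x, φ (algebraMap P C x) = ψ x := by
  have hprime : (RingHom.ker ψ).IsPrime := RingHom.ker_isPrime ψ
  obtain ⟨Q, hQ, hQ'⟩ := Ideal.exists_ideal_over_prime_of_isIntegral_of_isDomain (R := P) (S := C)
    (RingHom.ker ψ) (by
      rw [(RingHom.injective_iff_ker_eq_bot _).1 hinj]
      exact bot_le)
  let f : P ⧸ RingHom.ker ψ →+* C ⧸ Q := Ideal.quotientMap Q (algebraMap P C) hQ'.ge
  have hf : Function.Injective f := Ideal.quotientMap_injective' hQ'.le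
  let g : P ⧸ RingHom.ker ψ →+* Ω := RingHom.kerLift ψ
  have hg : Function.Injective g := RingHom.kerLift_injective ψ
  letI a1 : Algebra (P ⧸ RingHom.ker ψ) (C ⧸ Q) := f.toAlgebra
  letI a2 : Algebra (P ⧸ RingHom.ker ψ) Ω := g.toAlgebra
  have d1 : IsDomain (P ⧸ RingHom.ker ψ) := Ideal.Quotient.isDomain _
  have d2 : IsDomain (C ⧸ Q) := Ideal.Quotient.isDomain _
  have t1 : Module.IsTorsionFree (P ⧸ RingHom.ker ψ) (C ⧸ Q) :=
    Module.isTorsionFree_iff_algebraMap_injective.2 hf
  have t2 : Module.IsTorsionFree (P ⧸ RingHom.ker ψ) Ω :=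
    Module.isTorsionFree_iff_algebraMap_injective.2 hg
  have i1 : Algebra.IsIntegral (P ⧸ RingHom.ker ψ) (C ⧸ Q) := ⟨fun y => by
    obtain ⟨c, rfl⟩ := Ideal.Quotient.mk_surjective y
    exact IsIntegral.map_of_comp_eq (Ideal.Quotient.mk (RingHom.ker ψ)) (Ideal.Quotient.mk Q)
      (RingHom.ext fun x => rfl) (Algebra.IsIntegral.isIntegral (R := P) c)⟩
  have i2 : Algebra.IsAlgebraic (P ⧸ RingHom.ker ψ) (C ⧸ Q) := i1.isAlgebraic
  let h : (C ⧸ Q) →ₐ[P ⧸ RingHom.ker ψ] Ω := IsAlgClosed.lift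
  refine ⟨(h : (C ⧸ Q) →+* Ω).comp (Ideal.Quotient.mk Q), fun x => ?_⟩
  have h1 := h.commutes (Ideal.Quotient.mk (RingHom.ker ψ) x)
  exact h1

/-- Roots of the image of a polynomial are images of roots. -/
theorem exists_root_lift {C E Ω : Type} [CommRing C] [IsDomain C] [Field E] [IsAlgClosed E]
    [Algebra C E] (hinj : Function.Injective (algebraMap C E))
    (hcl : ∀ x : E, IsIntegral C x → ∃ c : C, algebraMap C E c = x) [Field Ω] (φ : C →+* Ω)
    (m : ℕ) (q : Polynomial C) (hq : q.Monic) (hm : q.natDegree = m) (ℓ : Ω)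
    (hℓ : (q.map φ).eval ℓ = 0) : ∃ c : C, q.eval c = 0 ∧ φ c = ℓ := by
  induction m generalizing q with
  | zero =>
    rw [hq.natDegree_eq_zero] at hm
    rw [hm, Polynomial.map_one, Polynomial.eval_one] at hℓ
    exact absurd hℓ one_ne_zero
  | succ m ih =>
    obtain ⟨a, ha⟩ : ∃ a : E, (q.map (algebraMap C E)).eval a = 0 := by
      have h1 : (q.map (algebraMap C E)).degree ≠ 0 := by
        rw [hq.degree_map, Polynomial.degree_eq_natDegree hq.ne_zero, hm]
        exact_mod_cast Nat.succ_ne_zero m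
      exact IsAlgClosed.exists_root _ h1
    obtain ⟨c, rfl⟩ := hcl a ⟨q, hq, by rwa [Polynomial.eval_map] at ha⟩
    have hc : q.IsRoot c := by
      apply hinj
      rw [map_zero, ← Polynomial.eval_map_apply]
      exact ha
    obtain ⟨q', hq'⟩ := Polynomial.dvd_iff_isRoot.2 hc
    have hmon : q'.Monic := (Polynomial.monic_X_sub_C c).of_mul_monic_left (hq' ▸ hq)
    rw [hq', Polynomial.map_mul, Polynomial.eval_mul, mul_eq_zero] at hℓ
    rcases hℓ with h | h
    · refine ⟨c, hc, ?_⟩
      rw [Polynomial.map_sub, Polynomial.map_X, Polynomial.map_C, Polynomial.eval_sub,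
        Polynomial.eval_X, Polynomial.eval_C, sub_eq_zero] at h
      exact h.symm
    · have hdeg : q'.natDegree = m := by
        have h1 := (Polynomial.monic_X_sub_C c).natDegree_mul hmon
        rw [← hq', hm, Polynomial.natDegree_X_sub_C] at h1
        omega
      obtain ⟨c', h1, h2⟩ := ih q' hmon hdeg h
      exact ⟨c', by rw [hq', Polynomial.eval_mul, h1, mul_zero], h2⟩

/-- Descent for integral relations. -/
theorem rel_zero {p r : ℕ} (hp : 1 < p) (S : (Fin r → ℤ) → Prop)
    (h : ∀ m, S m → ∃ m', m = (p : ℤ) • m' ∧ S m') (m : Fin r → ℤ) (hm : S m) : m = 0 := by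
  have h1 : ∀ N : ℕ, ∀ m, S m → ∃ m', m = ((p : ℤ) ^ N) • m' := by
    intro N
    induction N with
    | zero => exact fun m _ => ⟨m, by rw [pow_zero, one_smul]⟩
    | succ N ih =>
      intro m hm
      obtain ⟨m', rfl, hm'⟩ := h m hm
      obtain ⟨m'', rfl⟩ := ih m' hm'
      exact ⟨m'', by rw [smul_smul, pow_succ']⟩
  funext k
  obtain ⟨m', hm'⟩ := h1 (m k).natAbs m hm
  have h2 : m k = (p : ℤ) ^ (m k).natAbs * m' k := by
    conv_lhs => rw [hm']
    rw [Pi.smul_apply, smul_eq_mul]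
  refine Int.eq_zero_of_abs_lt_dvd (m := (p : ℤ) ^ (m k).natAbs) ⟨m' k, h2⟩ ?_
  have h3 : (m k).natAbs < p ^ (m k).natAbs := Nat.lt_pow_self hp
  have h4 : |m k| = ((m k).natAbs : ℤ) := (Int.natCast_natAbs _).symm
  rw [h4]
  exact_mod_cast h3

section generic

variable {p : ℕ} [hp : Fact p.Prime] {n r : ℕ}

/-- Eigenvalues of a matrix whose coefficients can be specialized to characteristic `p`. -/
theorem exists_eig {P Ω : Type} [CommRing P] [IsDomain P] [Field Ω] [IsAlgClosed Ω] (ψ : P →+* Ω)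
    (j : P →+* PadicAlgCl p) (hj : Function.Injective j) (𝒴 : Matrix (Fin n) (Fin n) P)
    (T T' : Matrix (Fin n) (Fin n) Ω) (hT : T * T' = 1) (l : Fin n → Ω)
    (hl : 𝒴.map ψ = T * diagonal l * T') (i : Fin r → Fin n)
    (hi : ∀ m : Fin r → ℤ, ∑ k, (m k : Ω) * l (i k) = 0 → ∃ m', m = (p : ℤ) • m') :
    ∃ μ : Fin r → PadicAlgCl p, (∀ k, (𝒴.map j).charpoly.IsRoot (μ k)) ∧
      ∀ m : Fin r → ℤ, ∑ k, (m k : PadicAlgCl p) * μ k = 0 → m = 0 := by
  have hp0 : ((p : ℤ) : PadicAlgCl p) ≠ 0 := by exact_mod_cast hp.out.ne_zero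
  let : Algebra P (PadicAlgCl p) := j.toAlgebra
  let C := integralClosure P (PadicAlgCl p)
  have hjC : Function.Injective (algebraMap P C) := fun x y hxy => hj (congrArg Subtype.val hxy)
  obtain ⟨φ, hφ⟩ := exists_lift_integral hjC ψ
  have hval : Function.Injective (algebraMap C (PadicAlgCl p)) := Subtype.val_injective
  have hcl : ∀ x : PadicAlgCl p, IsIntegral C x → ∃ c : C, algebraMap C (PadicAlgCl p) c = x :=
    fun x hx => ⟨⟨x, isIntegral_trans (R := P) (A := C) x hx⟩, rfl⟩
  have hχ : ((𝒴.map (algebraMap P C)).charpoly).map φ = ∏ k, (Polynomial.X - Polynomial.C (l k)) := by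
    have h1 : (𝒴.map (algebraMap P C)).map φ = 𝒴.map ψ := by
      ext a b
      exact hφ _
    have h2 : ((𝒴.map (algebraMap P C)).charpoly).map φ =
        ((𝒴.map (algebraMap P C)).map φ).charpoly := (Matrix.charpoly_map _ φ).symm
    rw [h2, h1, hl, Matrix.charpoly_mul_comm, ← Matrix.mul_assoc, mul_eq_one_comm.1 hT,
      Matrix.one_mul, charpoly_diagonal]
  have key : ∀ k, ∃ c : C, (𝒴.map (algebraMap P C)).charpoly.eval c = 0 ∧ φ c = l (i k) := by
    intro k
    refine exists_root_lift hval hcl φ _ _ (Matrix.charpoly_monic _) rfl _ ?_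
    rw [hχ, Polynomial.eval_prod]
    exact Finset.prod_eq_zero (Finset.mem_univ (i k)) (by simp)
  choose c hc1 hc2 using key
  refine ⟨fun k => algebraMap C (PadicAlgCl p) (c k), fun k => ?_, ?_⟩
  · have h1 : 𝒴.map j = (𝒴.map (algebraMap P C)).map (algebraMap C (PadicAlgCl p)) := by
      ext a b
      rfl
    have h2 : ((𝒴.map (algebraMap P C)).map (algebraMap C (PadicAlgCl p))).charpoly =
        ((𝒴.map (algebraMap P C)).charpoly).map (algebraMap C (PadicAlgCl p)) :=
      Matrix.charpoly_map _ _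
    rw [h1, h2, Polynomial.IsRoot, Polynomial.eval_map_apply, hc1, map_zero]
  · refine rel_zero hp.out.one_lt _ fun m hm => ?_
    have h1 : ∑ k, (m k : C) * c k = 0 := by
      apply hval
      rw [map_sum, map_zero, ← hm]
      refine Finset.sum_congr rfl fun k _ => ?_
      rw [map_mul, map_intCast]
    obtain ⟨m', rfl⟩ := hi m (by
      have h2 := congrArg φ h1
      rw [map_sum, map_zero] at h2
      rw [← h2]
      refine Finset.sum_congr rfl fun k _ => ?_
      rw [map_mul, map_intCast, hc2])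
    refine ⟨m', rfl, ?_⟩
    have h3 : ((p : ℤ) : PadicAlgCl p) * ∑ k, (m' k : PadicAlgCl p) *
        algebraMap C (PadicAlgCl p) (c k) = 0 := by
      rw [← hm, Finset.mul_sum]
      refine Finset.sum_congr rfl fun k _ => ?_
      rw [Pi.smul_apply, smul_eq_mul, Int.cast_mul, mul_assoc]
    exact (mul_eq_zero.1 h3).resolve_left hp0

/-- Algebraically independent integers over a countable ring. -/
theorem exists_algInd (A₀ : Subring ℤ_[p]) [Countable A₀] (D : ℕ) :
    ∃ t : Fin D → ℤ_[p], AlgebraicIndependent A₀ t := by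
  classical
  obtain ⟨s, hs⟩ := exists_isTranscendenceBasis A₀ ℤ_[p]
  by_cases hc : s.Countable
  · exfalso
    have h1 : Algebra.IsAlgebraic (Algebra.adjoin A₀ (Set.range ((↑) : s → ℤ_[p]))) ℤ_[p] :=
      hs.isAlgebraic
    have h2 := Algebra.IsAlgebraic.cardinalMk_le_max
      (Algebra.adjoin A₀ (Set.range ((↑) : s → ℤ_[p]))) ℤ_[p]
    have hsc : Countable s := hc.to_subtype
    have h3 : Cardinal.mk (Algebra.adjoin A₀ (Set.range ((↑) : s → ℤ_[p]))) ≤ Cardinal.aleph0 := by
      rw [← Cardinal.mk_congr hs.1.aevalEquiv.toEquiv]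
      refine MvPolynomial.cardinalMk_le_max.trans ?_
      exact max_le (max_le Cardinal.mk_le_aleph0 Cardinal.mk_le_aleph0) le_rfl
    have h4 : Cardinal.mk ℤ_[p] ≤ Cardinal.aleph0 := h2.trans (max_le h3 le_rfl)
    have h5 : Cardinal.mk ℚ_[p] ≤ Cardinal.aleph0 := by
      rw [IsFractionRing.cardinalMk ℤ_[p] ℚ_[p]]
      exact h4
    have h6 := continuum_le_cardinal_of_nontriviallyNormedField ℚ_[p]
    exact absurd (h6.trans h5) (not_le.2 Cardinal.aleph0_lt_continuum)
  · have hinf : Infinite s := by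
      rw [Set.infinite_coe_iff]
      exact fun h => hc h.countable
    let e : Fin D ↪ s := (Fin.valEmbedding.trans (Infinite.natEmbedding s))
    exact ⟨fun i => (e i : ℤ_[p]), hs.1.comp e e.injective⟩

end generic

end

end Pool.Agent.U175.LP
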