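import Mathlib
import Pool.Agent.U175.LP.V4

/-!
# Independent eigenvalues from a torus in the Lie algebra modulo `p`
-/

set_option autoImplicit false
set_option linter.unusedSectionVars false

namespace Pool.Agent.U175.LP

open PadicInt Module Matrix Pool.Agent.U175.LP.Pub

noncomputable section

variable {p : ℕ} [hp : Fact p.Prime] {n r : ℕ}

/-- The toral rank of `L` is at least `r`: over some extension `k'` of the prime field, the space
generated by `L` contains `r` linearly independent matrices which can be diagonalized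
simultaneously. -/
def ToralRank (L : Submodule (ZMod p) (Matrix (Fin n) (Fin n) (ZMod p))) (r : ℕ) : Prop :=
  ∃ (k' : Type) (_ : Field k') (_ : Algebra (ZMod p) k') (T T' : Matrix (Fin n) (Fin n) k')
    (d : Fin r → Fin n → k'), T * T' = 1 ∧ LinearIndependent k' d ∧
    ∀ j, T * diagonal (d j) * T' ∈ Submodule.span k'
      ((fun X : Matrix (Fin n) (Fin n) (ZMod p) => X.map (algebraMap (ZMod p) k')) '' L)

theorem exists_countable {ι : Type} [Countable ι] (f : ι → ℤ_[p]) :
    ∃ A₀ : Subring ℤ_[p], Countable A₀ ∧ ∀ i, f i ∈ A₀ := by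
  have h1 : Countable (MvPolynomial ι ℤ) := by
    rw [← Cardinal.mk_le_aleph0_iff]
    exact MvPolynomial.cardinalMk_le_max.trans
      (max_le (max_le Cardinal.mk_le_aleph0 Cardinal.mk_le_aleph0) le_rfl)
  refine ⟨(MvPolynomial.aeval f : MvPolynomial ι ℤ →ₐ[ℤ] ℤ_[p]).toRingHom.range, ?_, fun i => ?_⟩
  · exact (Set.countable_range (MvPolynomial.aeval f : MvPolynomial ι ℤ →ₐ[ℤ] ℤ_[p])).to_subtype
  · exact ⟨MvPolynomial.X i, MvPolynomial.aeval_X f i⟩

/-- Columns of a matrix of maximal rank. -/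
theorem exists_cols {k' : Type} [Field k'] {d : Fin r → Fin n → k'} (hd : LinearIndependent k' d) :
    ∃ i : Fin r → Fin n, LinearIndependent k' fun k => fun j => d j (i k) := by
  classical
  obtain ⟨κ, a, ha, hsp, hli⟩ := exists_linearIndependent' k' (fun (i : Fin n) (j : Fin r) => d j i)
  have : Finite κ := Finite.of_injective a ha
  let : Fintype κ := Fintype.ofFinite κ
  have h1 : (Matrix.of d).rank = r := by
    have h2 : LinearIndependent k' (Matrix.of d).row := hd
    rw [h2.rank_matrix, Fintype.card_fin]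
  rw [Matrix.rank_eq_finrank_span_cols] at h1
  have h3 : Set.range (Matrix.of d).col = Set.range (fun (i : Fin n) (j : Fin r) => d j i) := rfl
  rw [h3, ← hsp, finrank_span_eq_card hli] at h1
  let e : Fin r ≃ κ := (Fintype.equivFinOfCardEq h1).symm
  exact ⟨fun k => a (e k), hli.comp e e.injective⟩

theorem exists_generic {G : Type} [Group G] {R : G →* Matrix (Fin n) (Fin n) ℤ_[p]}
    {L : Submodule (ZMod p) (Matrix (Fin n) (Fin n) (ZMod p))} (hL : L ≤ L0 R)
    (htor : ToralRank L r) :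
    ∃ (Y : Matrix (Fin n) (Fin n) ℤ_[p]) (μ : Fin r → PadicAlgCl p), TanA p R Y ∧
      (∀ k, (Y.map (algebraMap ℤ_[p] (PadicAlgCl p))).charpoly.IsRoot (μ k)) ∧
      ∀ m : Fin r → ℤ, ∑ k, (m k : PadicAlgCl p) * μ k = 0 → m = 0 := by
  classical
  obtain ⟨k', _, _, T, T', d, hT, hd, hspan⟩ := htor
  -- the elements of the Lie algebra
  have hfin : Fintype L := Fintype.ofFinite L
  let e := (Fintype.equivFin L).symm
  let D := Fintype.card L
  choose Y hY hYr using fun i : Fin D => hL (e i).2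
  -- the coefficients
  have hcoef : ∀ j, ∃ c : Fin D → k', ∑ i, c i • ((e i : Matrix (Fin n) (Fin n) (ZMod p))).map
      (algebraMap (ZMod p) k') = T * diagonal (d j) * T' := by
    intro j
    refine (Submodule.mem_span_range_iff_exists_fun k').1 ?_
    have h1 := hspan j
    convert h1 using 2
    ext X
    constructor
    · rintro ⟨i, rfl⟩
      exact ⟨_, (e i).2, rfl⟩
    · rintro ⟨X', hX', rfl⟩
      refine ⟨e.symm ⟨X', hX'⟩, ?_⟩
      change ((e (e.symm ⟨X', hX'⟩) : L) : Matrix (Fin n) (Fin n) (ZMod p)).map _ = _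
      rw [Equiv.apply_symm_apply]
  choose c hc using hcoef
  obtain ⟨A₀, hA₀, hmem⟩ := exists_countable (p := p)
    (fun x : Fin D × Fin n × Fin n => Y x.1 x.2.1 x.2.2)
  obtain ⟨t, ht⟩ := exists_algInd A₀ D
  -- the specialization
  let Ω := AlgebraicClosure (FractionRing (MvPolynomial (Fin r) k'))
  let emb : MvPolynomial (Fin r) k' →+* Ω :=
    (algebraMap (FractionRing (MvPolynomial (Fin r) k')) Ω).comp (algebraMap _ _)
  have hemb : Function.Injective emb := by
    exact (algebraMap (FractionRing (MvPolynomial (Fin r) k')) Ω).injective.comp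
      (IsFractionRing.injective _ _)
  let ι : k' →+* Ω := emb.comp MvPolynomial.C
  let u : Fin r → Ω := fun j => emb (MvPolynomial.X j)
  let κ : A₀ →+* Ω := ι.comp ((algebraMap (ZMod p) k').comp ((toZMod (p := p)).comp A₀.subtype))
  let τ : Fin D → Ω := fun i => ∑ j, ι (c j i) * u j
  let ψ : MvPolynomial (Fin D) A₀ →+* Ω := MvPolynomial.eval₂Hom κ τ
  let a : MvPolynomial (Fin D) A₀ →+* ℤ_[p] := (MvPolynomial.aeval t).toRingHom
  let f : MvPolynomial (Fin D) A₀ →+* PadicAlgCl p := (algebraMap ℤ_[p] (PadicAlgCl p)).comp a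
  have hf : Function.Injective f := by
    have h1 : Function.Injective (algebraMap ℤ_[p] (PadicAlgCl p)) := by
      rw [IsScalarTower.algebraMap_eq ℤ_[p] ℚ_[p] (PadicAlgCl p)]
      exact (algebraMap ℚ_[p] (PadicAlgCl p)).injective.comp (IsFractionRing.injective ℤ_[p] ℚ_[p])
    exact h1.comp ht
  let 𝒴 : Matrix (Fin n) (Fin n) (MvPolynomial (Fin D) A₀) := Matrix.of fun x y =>
    ∑ i, MvPolynomial.X i * MvPolynomial.C (⟨Y i x y, hmem (i, x, y)⟩ : A₀)
  let l : Fin n → Ω := fun m => ∑ j, u j * ι (d j m)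
  have hψ : 𝒴.map ψ = T.map ι * diagonal l * T'.map ι := by
    ext x y
    have h1 : ∀ i, ι (algebraMap (ZMod p) k' ((e i : Matrix (Fin n) (Fin n) (ZMod p)) x y)) =
        κ ⟨Y i x y, hmem (i, x, y)⟩ := by
      intro i
      rw [← hYr i]
      rfl
    have h2 : ∀ j, ∑ i, ι (c j i) * κ ⟨Y i x y, hmem (i, x, y)⟩ =
        ∑ m, ι (T x m) * ι (d j m) * ι (T' m y) := by
      intro j
      have h3 := congrArg ι (congrFun (congrFun (hc j) x) y)
      rw [Matrix.sum_apply, map_sum] at h3
      have h4 : ∀ i, ι ((c j i • ((e i : Matrix (Fin n) (Fin n) (ZMod p))).map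
          (algebraMap (ZMod p) k')) x y) = ι (c j i) * κ ⟨Y i x y, hmem (i, x, y)⟩ := by
        intro i
        rw [← h1 i, ← map_mul]
        rfl
      rw [Finset.sum_congr rfl fun i _ => h4 i] at h3
      rw [h3, Matrix.mul_apply, map_sum]
      refine Finset.sum_congr rfl fun m _ => ?_
      rw [Matrix.mul_diagonal, map_mul, map_mul]
    rw [Matrix.map_apply, Matrix.mul_apply]
    change ψ (∑ i, MvPolynomial.X i * MvPolynomial.C (⟨Y i x y, hmem (i, x, y)⟩ : A₀)) = _
    rw [map_sum]
    have h5 : ∀ i, ψ (MvPolynomial.X i * MvPolynomial.C (⟨Y i x y, hmem (i, x, y)⟩ : A₀)) =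
        ∑ j, u j * (ι (c j i) * κ ⟨Y i x y, hmem (i, x, y)⟩) := by
      intro i
      rw [map_mul]
      have h6 : ψ (MvPolynomial.X i) = τ i := MvPolynomial.eval₂Hom_X' κ τ i
      have h7 : ψ (MvPolynomial.C (⟨Y i x y, hmem (i, x, y)⟩ : A₀)) =
          κ ⟨Y i x y, hmem (i, x, y)⟩ := MvPolynomial.eval₂Hom_C κ τ _
      rw [h6, h7, Finset.sum_mul]
      refine Finset.sum_congr rfl fun j _ => ?_
      ring
    have h8 : ∀ m, (T.map ι * diagonal l) x m * (T'.map ι) m y =
        ∑ j, u j * (ι (T x m) * ι (d j m) * ι (T' m y)) := by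
      intro m
      rw [Matrix.mul_diagonal]
      change ι (T x m) * (∑ j, u j * ι (d j m)) * ι (T' m y) = _
      rw [Finset.mul_sum, Finset.sum_mul]
      refine Finset.sum_congr rfl fun j _ => ?_
      ring
    rw [Finset.sum_congr rfl fun i _ => h5 i, Finset.sum_comm,
      Finset.sum_congr rfl fun m _ => h8 m, Finset.sum_comm (s := Finset.univ (α := Fin n))]
    refine Finset.sum_congr rfl fun j _ => ?_
    rw [← Finset.mul_sum, ← Finset.mul_sum, h2]
  have hTT : T.map ι * T'.map ι = 1 := by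
    rw [← Matrix.map_mul, hT, Matrix.map_one _ (map_zero _) (map_one _)]
  obtain ⟨i, hi⟩ := exists_cols hd
  have hchar : CharP k' p := charP_of_injective_algebraMap (algebraMap (ZMod p) k').injective p
  have hrel : ∀ m : Fin r → ℤ, ∑ k, (m k : Ω) * l (i k) = 0 → ∃ m', m = (p : ℤ) • m' := by
    intro m hm
    have h1 : emb (∑ j, MvPolynomial.X j * MvPolynomial.C (∑ k, (m k : k') * d j (i k))) = 0 := by
      have h9 : ∀ k, (m k : Ω) * l (i k) = ∑ j, u j * ((m k : Ω) * ι (d j (i k))) := by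
        intro k
        change (m k : Ω) * (∑ j, u j * ι (d j (i k))) = _
        rw [Finset.mul_sum]
        refine Finset.sum_congr rfl fun j _ => ?_
        ring
      rw [← hm, Finset.sum_congr rfl fun k _ => h9 k, Finset.sum_comm, map_sum]
      refine Finset.sum_congr rfl fun j _ => ?_
      rw [map_mul, ← Finset.mul_sum]
      change u j * ι (∑ k, (m k : k') * d j (i k)) = _
      rw [map_sum]
      congr 1
      refine Finset.sum_congr rfl fun k _ => ?_
      rw [map_mul, map_intCast]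
    have h2 : (∑ j, MvPolynomial.X j * MvPolynomial.C (∑ k, (m k : k') * d j (i k)) :
        MvPolynomial (Fin r) k') = 0 := hemb (by rw [h1, map_zero])
    have h3 : ∀ j, ∑ k, (m k : k') * d j (i k) = 0 := by
      intro j
      have h4 := congrArg (MvPolynomial.eval (Pi.single j (1 : k'))) h2
      rw [map_sum, map_zero, Finset.sum_eq_single j] at h4
      · simpa using h4
      · intro b _ hb
        rw [map_mul, MvPolynomial.eval_X, Pi.single_eq_of_ne hb, zero_mul]
      · exact fun h => absurd (Finset.mem_univ j) h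
    have h5 : ∑ k, (m k : k') • (fun j => d j (i k)) = 0 := by
      funext j
      rw [Finset.sum_apply, Pi.zero_apply, ← h3 j]
      rfl
    have h6 := Fintype.linearIndependent_iff.1 hi _ h5
    have h7 : ∀ k, ∃ z, m k = (p : ℤ) * z := fun k => (CharP.intCast_eq_zero_iff k' p (m k)).1 (h6 k)
    choose z hz using h7
    exact ⟨z, funext fun k => by rw [hz k, Pi.smul_apply, smul_eq_mul]⟩
  obtain ⟨μ, hμ1, hμ2⟩ := exists_eig ψ f hf 𝒴 _ _ hTT l hψ i hrel
  refine ⟨∑ i, t i • Y i, μ, ?_, ?_, hμ2⟩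
  · have h1 : ∀ s : Finset (Fin D), TanA p R (∑ i ∈ s, t i • Y i) := by
      intro s
      induction s using Finset.induction_on with
      | empty =>
        rw [Finset.sum_empty]
        exact TanA_zero
      | insert b s hb ih =>
        rw [Finset.sum_insert hb]
        exact TanA_add (TanA_smul _ (hY b)) ih
    exact h1 Finset.univ
  · intro k
    have h1 : 𝒴.map f = (∑ i, t i • Y i).map (algebraMap ℤ_[p] (PadicAlgCl p)) := by
      ext x y
      rw [Matrix.map_apply, Matrix.map_apply, Matrix.sum_apply]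
      change algebraMap ℤ_[p] (PadicAlgCl p) (a (∑ i, MvPolynomial.X i *
        MvPolynomial.C (⟨Y i x y, hmem (i, x, y)⟩ : A₀))) = _
      congr 1
      rw [map_sum]
      refine Finset.sum_congr rfl fun i _ => ?_
      change MvPolynomial.aeval t (MvPolynomial.X i *
        MvPolynomial.C (⟨Y i x y, hmem (i, x, y)⟩ : A₀)) = _
      rw [map_mul, MvPolynomial.aeval_X, MvPolynomial.aeval_C]
      rfl
    rw [← h1]
    exact hμ1 k

/-- Independent eigenvalues of an element of the group. -/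
theorem exists_independent {G : Type} [Group G] [TopologicalSpace G] [CompactSpace G]
    {R : G →* Matrix (Fin n) (Fin n) ℤ_[p]} (hR : Continuous R) (hp3 : 3 ≤ p)
    {L : Submodule (ZMod p) (Matrix (Fin n) (Fin n) (ZMod p))} (hL : L ≤ L0 R)
    (htor : ToralRank L r) :
    ∃ (s : G) (α : Fin r → PadicAlgCl p),
      (∀ k, ((R s).map (algebraMap ℤ_[p] (PadicAlgCl p))).charpoly.IsRoot (α k)) ∧
      ∀ e : Fin r → ℤ, ∏ k, α k ^ e k = 1 → e = 0 := by
  obtain ⟨Y, μ, hY, hμ, hind⟩ := exists_generic hL htor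
  obtain ⟨N, s, hs⟩ := exists_exact hp3 hR hY
  choose α hα0 hα hexp using fun k => exists_expOf hs (hμ k)
  exact ⟨s, α, hα, ExpOf.indep hexp hα0 hind⟩

/-- The Lie algebra modulo `p` of the image. -/
theorem genLie_le {G : Type} [Group G] (R : G →* Matrix (Fin n) (Fin n) ℤ_[p]) (hp3 : 3 ≤ p)
    {S : Set (Matrix (Fin n) (Fin n) (ZMod p))}
    (hS : ∀ X ∈ S, (∃ g, (red (R g) - 1) ^ ((p - 1) / 2) = 0 ∧ X = nlog (red (R g))) ∨
      ∃ g k Y, R g = 1 + (p : ℤ_[p]) ^ (k + 1) • Y ∧ X = red Y) : genLie S ≤ L0 R := by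
  refine sInf_le ⟨fun X hX => ?_, fun X hX Y hY => ?_⟩
  · rcases hS X hX with ⟨g, hg, rfl⟩ | ⟨g, k, Y, hg, rfl⟩
    · exact nlog_mem0 hp3 (by omega) hg
    · have h1 : R g = 1 + (p : ℤ_[p]) • ((p : ℤ_[p]) ^ k • Y) := by
        rw [hg, smul_smul, ← pow_succ']
      obtain ⟨L, hL, hlog⟩ := exists_log' hp3 h1
      have h0 : LogOf p R 1 0 := fun m => ⟨0, by
        rw [one_pow, map_one, smul_zero, add_zero, smul_zero, add_zero]⟩
      obtain ⟨E, hE⟩ := log_diff (s := (1 : G)) (t := g) (X := 0) (V := Y) (c := k) hp3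
        (by rw [map_one, smul_zero, add_zero]) (by rw [map_one, hg]) h0 hlog
      rw [zero_add] at hE
      refine ⟨Y + (p : ℤ_[p]) • E, TanA_cancel_pow k (by rw [← hE]; exact hL), ?_⟩
      rw [red_add, red_smul, map_natCast, CharP.cast_eq_zero, zero_smul, add_zero]
  · obtain ⟨Z, h1, h2, -⟩ := L0P_lie (R := R) hX hY
    exact ⟨Z, h1, h2⟩

end

end Pool.Agent.U175.LP
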