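import Mathlib
import Pool.Agent.U175.LP.V5

/-!
# Eigenvalues on direct sums
-/

set_option autoImplicit false
set_option linter.unusedSectionVars false

namespace Pool.Agent.U175.LP

open Module Matrix Polynomial Pool.Agent.U175.LP.Pub

noncomputable section

/-- Polynomials of an endomorphism of a direct sum. -/
theorem aeval_pi {F : Type} [Field F] {ι : Type} {W : ι → Type} [∀ i, AddCommGroup (W i)]
    [∀ i, Module F (W i)] (f : ∀ i, Module.End F (W i)) (g : Module.End F (∀ i, W i))
    (hg : ∀ x i, g x i = f i (x i)) (q : F[X]) (x : ∀ i, W i) (i : ι) :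
    (aeval g q) x i = (aeval (f i) q) (x i) := by
  have hpow : ∀ (m : ℕ) (x : ∀ i, W i), (g ^ m) x i = (f i ^ m) (x i) := by
    intro m
    induction m with
    | zero => exact fun x => rfl
    | succ m ih =>
      intro x
      rw [pow_succ, pow_succ, Module.End.mul_apply, Module.End.mul_apply, ih, hg]
  induction q using Polynomial.induction_on' with
  | add p q hp hq =>
    rw [map_add, map_add, LinearMap.add_apply, LinearMap.add_apply, Pi.add_apply, hp, hq]
  | monomial m c =>
    rw [aeval_monomial, aeval_monomial, Module.End.mul_apply, Module.End.mul_apply,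
      Module.algebraMap_end_apply, Module.algebraMap_end_apply, Pi.smul_apply, hpow]

/-- Eigenvalues on a direct sum are eigenvalues on the summands. -/
theorem exists_component {F : Type} [Field F] {ι : Type} [Fintype ι] {n : ι → ℕ}
    (f : ∀ i, Module.End F (Fin (n i) → F)) (g : Module.End F (∀ i, Fin (n i) → F))
    (hg : ∀ x i, g x i = f i (x i)) {N : ℕ} (b : Basis (Fin N) F (∀ i, Fin (n i) → F))
    {Ω : Type} [Field Ω] [Algebra F Ω] {α : Ω}
    (hα : ((LinearMap.toMatrix b b g).map (algebraMap F Ω)).charpoly.IsRoot α) :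
    ∃ i, aeval α (f i).charpoly = 0 := by
  classical
  set T := LinearMap.toMatrix b b g with hT
  let Q : F[X] := ∏ i, (f i).charpoly
  have hQ : aeval g Q = 0 := by
    refine LinearMap.ext fun x => funext fun i => ?_
    rw [aeval_pi f g hg]
    obtain ⟨q, hq⟩ := Finset.dvd_prod_of_mem (fun i => (f i).charpoly) (Finset.mem_univ i)
    have h1 : Q = (f i).charpoly * q := hq
    rw [h1, map_mul, LinearMap.aeval_self_charpoly, zero_mul]
    rfl
  have hT0 : aeval T Q = 0 := by
    have h1 : (LinearMap.toMatrixAlgEquiv b).toAlgHom (aeval g Q) = aeval T Q := by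
      rw [← Polynomial.aeval_algHom_apply]
      rfl
    rw [← h1, hQ, map_zero]
  obtain ⟨v, hv, hvα⟩ : ∃ v : Fin N → Ω, v ≠ 0 ∧ (T.map (algebraMap F Ω)) *ᵥ v = α • v := by
    have h1 : (scalar (Fin N) α - T.map (algebraMap F Ω)).det = 0 := by
      rw [← Matrix.eval_charpoly]
      exact hα
    obtain ⟨v, hv, h2⟩ := Matrix.exists_mulVec_eq_zero_iff.2 h1
    refine ⟨v, hv, ?_⟩
    rw [sub_mulVec, sub_eq_zero] at h2
    rw [← h2]
    ext i
    simp [Matrix.scalar_apply, Matrix.mulVec_diagonal]
  have key : ∀ q : F[X], ((aeval T q).map (algebraMap F Ω)) *ᵥ v = (aeval α q) • v := by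
    intro q
    have hpow : ∀ m : ℕ, ((T ^ m).map (algebraMap F Ω)) *ᵥ v = α ^ m • v := by
      intro m
      induction m with
      | zero => rw [pow_zero, pow_zero, Matrix.map_one _ (map_zero _) (map_one _), one_mulVec,
          one_smul]
      | succ m ih =>
        rw [pow_succ, pow_succ, Matrix.map_mul, ← mulVec_mulVec, hvα, mulVec_smul, ih, smul_smul,
          mul_comm]
    induction q using Polynomial.induction_on' with
    | add p q hp hq =>
      rw [map_add, map_add, Matrix.map_add _ (map_add (algebraMap F Ω)), add_mulVec, hp, hq,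
        add_smul]
    | monomial m c =>
      rw [aeval_monomial, aeval_monomial, Algebra.algebraMap_eq_smul_one, smul_mul_assoc, one_mul]
      have h1 : (c • T ^ m).map (algebraMap F Ω) =
          algebraMap F Ω c • (T ^ m).map (algebraMap F Ω) := by
        ext i j
        rw [Matrix.map_apply, Matrix.smul_apply, Matrix.smul_apply, Matrix.map_apply, smul_eq_mul,
          smul_eq_mul, map_mul]
      rw [h1, smul_mulVec, hpow, smul_smul]
  have h3 := key Q
  rw [hT0, Matrix.map_zero _ (map_zero _), zero_mulVec] at h3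
  have h4 : aeval α Q = 0 := (smul_eq_zero.1 h3.symm).resolve_right hv
  have h5 : aeval α Q = ∏ i, aeval α (f i).charpoly := map_prod _ _ _
  rw [h5, Finset.prod_eq_zero_iff] at h4
  obtain ⟨i, -, hi⟩ := h4
  exact ⟨i, hi⟩

end

end Pool.Agent.U175.LP
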