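import Mathlib
import Pool.Agent.U175.LP.V6
import Pool.Agent.N203.RE.Main

/-!
# The rank theorem from the Lie algebra modulo `p`
-/

set_option autoImplicit false
set_option linter.unusedSectionVars false

namespace Pool.Agent.U175.LP

open NumberField IsDedekindDomain Module Matrix Polynomial Pool.Agent.Y114.RM
  Pool.Agent.Y114.TF Pool.Agent.R931.IR Pool.Agent.N203.RE Pool.Agent.U175.LP.Pub

noncomputable section

variable {Γ : Type} [Group Γ] [TopologicalSpace Γ] {ι : Type} [Fintype ι] [DecidableEq ι]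
  {n : ι → ℕ} {p : ℕ} [hp : Fact p.Prime]

theorem continuous_model {G : Type} [Group G] [TopologicalSpace G] {s : G →* Γ}
    (hs : Continuous s) {ρ : Reps Γ n p} (hρ : Conts ρ) {N : ℕ}
    (b : Basis (Fin N) ℚ_[p] (∀ i, Fin (n i) → ℚ_[p])) {R : G →* Matrix (Fin N) (Fin N) ℤ_[p]}
    (hR : ∀ g, LinearMap.toMatrix b b (sumRep ρ (s g)) = (R g).map (algebraMap ℤ_[p] ℚ_[p])) :
    Continuous R := by
  have h1 : ∀ x : ∀ i, Fin (n i) → ℚ_[p], Continuous fun g => sumRep ρ (s g) x := by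
    intro x
    refine continuous_pi fun i => ?_
    have h2 : ∀ g, sumRep ρ (s g) x i = LinearMap.toMatrix' (ρ i (s g)) *ᵥ x i := fun g =>
      (LinearMap.toMatrix'_mulVec (ρ i (s g)) (x i)).symm
    simp only [h2]
    exact Continuous.matrix_mulVec ((hρ i).comp hs) continuous_const
  refine continuous_pi fun a => continuous_pi fun c => ?_
  refine (PadicInt.isOpenEmbedding_coe (p := p)).isInducing.continuous_iff.2 ?_
  have h3 : ∀ g, b.coord a (sumRep ρ (s g) (b c)) = ((R g a c : ℤ_[p]) : ℚ_[p]) := by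
    intro g
    have h4 := congrFun (congrFun (hR g) a) c
    rw [LinearMap.toMatrix_apply] at h4
    exact h4
  exact ((LinearMap.continuous_of_finiteDimensional (b.coord a)).comp (h1 (b c))).congr
    fun g => h3 g

/-- Independent eigenvalues on the sum. -/
theorem independent_of_torus {G : Type} [Group G] [TopologicalSpace G] [CompactSpace G]
    {s : G →* Γ} (hs : Continuous s) {ρ : Reps Γ n p} (hρ : Conts ρ) {N : ℕ}
    (b : Basis (Fin N) ℚ_[p] (∀ i, Fin (n i) → ℚ_[p])) {R : G →* Matrix (Fin N) (Fin N) ℤ_[p]}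
    (hR : ∀ g, LinearMap.toMatrix b b (sumRep ρ (s g)) = (R g).map (algebraMap ℤ_[p] ℚ_[p]))
    (hp3 : 3 ≤ p) {S : Set (Matrix (Fin N) (Fin N) (ZMod p))}
    (hS : ∀ X ∈ S, (∃ g, (red (R g) - 1) ^ ((p - 1) / 2) = 0 ∧ X = nlog (red (R g))) ∨
      ∃ g k Y, R g = 1 + (p : ℤ_[p]) ^ (k + 1) • Y ∧ X = red Y) {r : ℕ}
    (htor : ToralRank (genLie S) r) : ∃ σ, IndependentEigenvalues ρ (s σ) r := by
  obtain ⟨σ, α, hα, hind⟩ := exists_independent (continuous_model hs hρ b hR) hp3
    (genLie_le R hp3 hS) htor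
  have h1 : ∀ k, ∃ i, EigenvalueOf ρ i (s σ) (α k) := by
    intro k
    have h2 := hα k
    have h3 : (R σ).map (algebraMap ℤ_[p] (PadicAlgCl p)) =
        (LinearMap.toMatrix b b (sumRep ρ (s σ))).map (algebraMap ℚ_[p] (PadicAlgCl p)) := by
      rw [hR σ]
      ext a c
      rfl
    rw [h3] at h2
    exact exists_component (fun i => ρ i (s σ)) (sumRep ρ (s σ)) (fun x i => rfl) b h2
  choose κ hκ using h1
  exact ⟨σ, κ, α, hκ, hind⟩

end

end Pool.Agent.U175.LP
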