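import Mathlib
import Pool.Agent.U175.LP.V7

/-!
# The rank theorem for the fibre at a point
-/

set_option autoImplicit false
set_option linter.unusedSectionVars false

namespace Pool.Agent.U175.LP

open NumberField IsDedekindDomain Module Matrix Polynomial Pool.Agent.Y114.RM
  Pool.Agent.Y114.TF Pool.Agent.R931.IR Pool.Agent.N203.RE Pool.Agent.U175.LP.Pub

noncomputable section

variable {Γ : Type} [Group Γ] [TopologicalSpace Γ] {ι : Type} [Fintype ι] [DecidableEq ι]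
  {n : ι → ℕ}

theorem tate_fibre {G : Type} [Group G] {s : G →* Γ} {ℓ : ℕ} [Fact ℓ.Prime] {ρ : Reps Γ n ℓ}
    {m : ℕ} {φ : Tensor ℚ_[ℓ] (∀ i, Fin (n i) → ℚ_[ℓ]) m} (h : TateTensor (sumRep ρ) φ) :
    TateTensor (sumRep (restrictTo ρ s)) φ := by
  obtain ⟨Δ, hΔ, h1⟩ := h
  refine ⟨Δ.comap s, ⟨by
    rw [Subgroup.index_comap]
    exact (Subgroup.instFiniteIndex_subgroupOf Δ s.range).index_ne_zero⟩, fun g hg v => ?_⟩
  have h2 := h1 (s g) hg v
  rw [← map_inv] at h2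
  exact h2

theorem fibre {K : Type} [Field K] [NumberField K] {s : Gal(AlgebraicClosure K/K) →* Γ}
    {w : ι → ℤ} {S : Set (HeightOneSpectrum (𝓞 K))} {P : HeightOneSpectrum (𝓞 K) → ι → ℚ[X]}
    {ρ : ∀ (ℓ : ℕ) [Fact ℓ.Prime], Reps Γ n ℓ} {𝔤 : Submodule ℚ (End ℚ (Betti n))}
    (h : Realizations s w S P ρ 𝔤) :
    Realizations (MonoidHom.id Gal(AlgebraicClosure K/K)) w S P
      (fun ℓ _ => restrictTo (ρ ℓ) s) 𝔤 where
  continuous_point := continuous_id
  continuous := fun ℓ _ i => (h.continuous ℓ i).comp h.continuous_point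
  finite := h.finite
  good := fun ℓ _ v hv hvℓ i => h.good ℓ v hv hvℓ i
  reductive := h.reductive
  motivic := fun ℓ _ =>
    { bracket := (h.motivic ℓ).bracket
      parts := (h.motivic ℓ).parts
      nondeg := (h.motivic ℓ).nondeg
      semisimple := (h.motivic ℓ).semisimple
      algebraic := (h.motivic ℓ).algebraic
      tate := fun m φ hφ => tate_fibre ((h.motivic ℓ).tate m φ hφ) }

theorem compact_gal (K : Type) [Field K] [CharZero K] :
    CompactSpace Gal(AlgebraicClosure K/K) := inferInstance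

theorem rank_fibre {s : Gal(AlgebraicClosure ℚ/ℚ) →* Γ} {w : ι → ℤ}
    {S : Set (HeightOneSpectrum (𝓞 ℚ))} {P : HeightOneSpectrum (𝓞 ℚ) → ι → ℚ[X]}
    {ρ : ∀ (ℓ : ℕ) [Fact ℓ.Prime], Reps Γ n ℓ} {𝔤 : Submodule ℚ (End ℚ (Betti n))}
    (h : Realizations s w S P ρ 𝔤) (c : ℕ) (hint : IntegralOutside S P c)
    (r : ℕ) (hrank : RatRankLE 𝔤 r) (ℓ₀ : ℕ) [Fact ℓ₀.Prime]
    (hσ : ∃ σ, IndependentEigenvalues (ρ ℓ₀) (s σ) r) (ℓ : ℕ) [Fact ℓ.Prime] :
    RankTheorem (restrictTo (ρ ℓ) s) 𝔤 r := by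
  have hc := compact_gal ℚ
  exact main_element (fibre h) c hint r hrank ℓ₀ hσ ℓ

end

end Pool.Agent.U175.LP
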