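import Mathlib
import Pool.Agent.U175.LP.V8

/-!
# Independent Frobenius eigenvalues from one element modulo `p`
-/

set_option autoImplicit false
set_option linter.unusedSectionVars false

namespace Pool.Agent.U175.LP

open NumberField IsDedekindDomain Module Matrix Polynomial Pool.Agent.Y114.RM Pool.Agent.Y114.GF
  Pool.Agent.Y114.TF Pool.Agent.Y114.MU Pool.Agent.R931.IR Pool.Agent.N203.RE
  Pool.Agent.U175.LP.Pub

noncomputable section

/-- Relations without negative exponents. -/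
theorem zpow_rel {F : Type*} [Field F] {r : ℕ} {x : Fin r → F} (hx : ∀ k, x k ≠ 0)
    (m : Fin r → ℤ) :
    ∏ k, x k ^ m k = 1 ↔ ∏ k, x k ^ (m k).toNat = ∏ k, x k ^ (-m k).toNat := by
  have h2 : ∏ k, x k ^ m k = (∏ k, x k ^ (m k).toNat) / ∏ k, x k ^ (-m k).toNat := by
    rw [← Finset.prod_div_distrib]
    refine Finset.prod_congr rfl fun k _ => ?_
    conv_lhs => rw [← Int.toNat_sub_toNat_neg (m k)]
    rw [zpow_sub₀ (hx k), zpow_natCast, zpow_natCast]
  rw [h2]
  exact div_eq_one_iff_eq (Finset.prod_ne_zero_iff.2 fun k _ => pow_ne_zero _ (hx k))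

/-- The eigenvalues of `A` in some extension field contain `r` elements without relations with
exponents at most `B`. -/
def FreeMod {p N : ℕ} (A : Matrix (Fin N) (Fin N) (ZMod p)) [Fact p.Prime] (r B : ℕ) : Prop :=
  ∃ (k : Type) (_ : Field k) (_ : Algebra (ZMod p) k) (x : Fin r → k),
    (∀ j, aeval (x j) A.charpoly = 0) ∧
      ∀ e : Fin r → ℤ, (∀ j, |e j| ≤ B) → ∏ j, x j ^ e j = 1 → e = 0

section lift

variable {p N r : ℕ} [hp : Fact p.Prime]

theorem alg_inj : Function.Injective (algebraMap ℤ_[p] (PadicAlgCl p)) := by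
  rw [IsScalarTower.algebraMap_eq ℤ_[p] ℚ_[p] (PadicAlgCl p)]
  exact (algebraMap ℚ_[p] (PadicAlgCl p)).injective.comp (IsFractionRing.injective ℤ_[p] ℚ_[p])

/-- Eigenvalues modulo `p` lift to eigenvalues, with relations. -/
theorem lift_free {M : Matrix (Fin N) (Fin N) ℤ_[p]} (hM : IsUnit M.det) {B : ℕ}
    (h : FreeMod (red M) r B) :
    ∃ y : Fin r → PadicAlgCl p,
      (∀ k, (M.map (algebraMap ℤ_[p] (PadicAlgCl p))).charpoly.IsRoot (y k)) ∧
      ∀ e : Fin r → ℤ, (∀ j, |e j| ≤ B) → ∏ j, y j ^ e j = 1 → e = 0 := by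
  obtain ⟨k, _, _, x, hx, hfree⟩ := h
  let Ω := AlgebraicClosure k
  let ι : k →+* Ω := algebraMap k Ω
  let ψ : ℤ_[p] →+* Ω := ι.comp ((algebraMap (ZMod p) k).comp (PadicInt.toZMod (p := p)))
  let C := integralClosure ℤ_[p] (PadicAlgCl p)
  have hjC : Function.Injective (algebraMap ℤ_[p] C) := fun a b hab =>
    alg_inj (congrArg Subtype.val hab)
  obtain ⟨φ, hφ⟩ := exists_lift_integral hjC ψ
  have hval : Function.Injective (algebraMap C (PadicAlgCl p)) := Subtype.val_injective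
  have hcl : ∀ x : PadicAlgCl p, IsIntegral C x → ∃ c : C, algebraMap C (PadicAlgCl p) c = x :=
    fun x hx => ⟨⟨x, isIntegral_trans (R := ℤ_[p]) (A := C) x hx⟩, rfl⟩
  have hχ : (M.charpoly.map (algebraMap ℤ_[p] C)).map φ =
      ((red M).charpoly.map (algebraMap (ZMod p) k)).map ι := by
    have h1 : (red M).charpoly = M.charpoly.map (PadicInt.toZMod (p := p)) :=
      Matrix.charpoly_map M (PadicInt.toZMod (p := p))
    rw [h1, Polynomial.map_map, Polynomial.map_map, Polynomial.map_map]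
    congr 1
    exact RingHom.ext fun z => hφ z
  have key : ∀ j, ∃ c : C, (M.charpoly.map (algebraMap ℤ_[p] C)).eval c = 0 ∧ φ c = ι (x j) := by
    intro j
    refine exists_root_lift hval hcl φ _ _ ((Matrix.charpoly_monic M).map _) rfl _ ?_
    have h1 : ((red M).charpoly.map (algebraMap (ZMod p) k)).eval (x j) = 0 := by
      rw [Polynomial.eval_map_algebraMap]
      exact hx j
    rw [hχ, Polynomial.eval_map_apply, h1, map_zero]
  choose c hc1 hc2 using key
  have hroot : ∀ j, (M.map (algebraMap ℤ_[p] (PadicAlgCl p))).charpoly.IsRoot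
      (algebraMap C (PadicAlgCl p) (c j)) := by
    intro j
    have h1 : (M.map (algebraMap ℤ_[p] (PadicAlgCl p))).charpoly =
        (M.charpoly.map (algebraMap ℤ_[p] C)).map (algebraMap C (PadicAlgCl p)) := by
      rw [Polynomial.map_map, ← IsScalarTower.algebraMap_eq]
      exact Matrix.charpoly_map M _
    rw [h1, Polynomial.IsRoot, Polynomial.eval_map_apply, hc1, map_zero]
  -- the determinant is a unit
  have hx0 : ∀ j, x j ≠ 0 := by
    intro j h0
    have h1 : ((red M).charpoly.map (algebraMap (ZMod p) k)).eval 0 = 0 := by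
      have h6 := hx j
      rw [h0] at h6
      rw [Polynomial.eval_map_algebraMap]
      exact h6
    have h2' : algebraMap (ZMod p) k (((red M).charpoly).eval 0) = 0 := by
      rw [← Polynomial.eval_map_apply, map_zero]
      exact h1
    have h2 : ((red M).charpoly).eval 0 = 0 := by
      apply (algebraMap (ZMod p) k).injective
      rw [h2', map_zero]
    rw [Matrix.eval_charpoly, map_zero, zero_sub, Matrix.det_neg] at h2
    have h3 : (red M).det = PadicInt.toZMod M.det := by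
      rw [RingHom.map_det]
      rfl
    have h4 : IsUnit (red M).det := h3 ▸ hM.map _
    rcases mul_eq_zero.1 h2 with h5 | h5
    · exact pow_ne_zero _ (neg_ne_zero.2 one_ne_zero) h5
    · exact h4.ne_zero h5
  have hc0 : ∀ j, c j ≠ 0 := by
    intro j h0
    have h1 := hc2 j
    rw [h0, map_zero] at h1
    exact hx0 j (ι.injective (by rw [← h1, map_zero]))
  refine ⟨fun j => algebraMap C (PadicAlgCl p) (c j), hroot, fun e he h => ?_⟩
  refine hfree e he ?_
  have h1 : ∀ j, algebraMap C (PadicAlgCl p) (c j) ≠ 0 := fun j h => hc0 j (hval (by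
    rw [h, map_zero]))
  rw [zpow_rel h1] at h
  have h2 : ∏ j, c j ^ (e j).toNat = ∏ j, c j ^ (-e j).toNat := by
    apply hval
    rw [map_prod, map_prod]
    simp only [map_pow]
    exact h
  have h3 := congrArg φ h2
  rw [map_prod, map_prod] at h3
  simp only [map_pow, hc2] at h3
  rw [zpow_rel hx0]
  apply ι.injective
  rw [map_prod, map_prod]
  simp only [map_pow]
  exact h3

end lift

section place

variable {ι : Type} [Fintype ι] {n : ι → ℕ} {p : ℕ} [hp : Fact p.Prime]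

/-- A bound for the exponents of the relations. -/
theorem exists_exp_bound (n : ι → ℕ) (w : ι → ℤ) (c r : ℕ) : ∃ B : ℕ, ∀ κ : Fin r → ι,
    ∀ e ∈ exs (fun k => w (κ k)) (bd (fun k => w (κ k)) c (∑ i, n i)), ∀ k,
      |(((2 * (∑ i, n i) ^ r).factorial : ℕ) : ℤ) * e k| ≤ B := by
  classical
  refine ⟨∑ κ : Fin r → ι, ∑ e ∈ exs (fun k => w (κ k)) (bd (fun k => w (κ k)) c (∑ i, n i)),
    ∑ k, ((((2 * (∑ i, n i) ^ r).factorial : ℕ) : ℤ) * e k).natAbs, fun κ e he k => ?_⟩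
  rw [Int.abs_eq_natAbs]
  norm_cast
  refine le_trans ?_ (Finset.single_le_sum (f := fun κ : Fin r → ι =>
    ∑ e ∈ exs (fun k => w (κ k)) (bd (fun k => w (κ k)) c (∑ i, n i)),
      ∑ k, ((((2 * (∑ i, n i) ^ r).factorial : ℕ) : ℤ) * e k).natAbs)
    (fun _ _ => Nat.zero_le _) (Finset.mem_univ κ))
  refine le_trans ?_ (Finset.single_le_sum (f := fun e : Fin r → ℤ =>
      ∑ k, ((((2 * (∑ i, n i) ^ r).factorial : ℕ) : ℤ) * e k).natAbs)
    (fun _ _ => Nat.zero_le _) he)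
  exact Finset.single_le_sum (f := fun k => ((((2 * (∑ i, n i) ^ r).factorial : ℕ) : ℤ) *
    e k).natAbs) (fun _ _ => Nat.zero_le _) (Finset.mem_univ k)

theorem isUnit_det_model {G : Type*} [Group G] {N : ℕ} (R : G →* Matrix (Fin N) (Fin N) ℤ_[p])
    (g : G) : IsUnit (R g).det := by
  have h1 : R g * R g⁻¹ = 1 := by rw [← map_mul, mul_inv_cancel, map_one]
  exact IsUnit.of_mul_eq_one _ (by rw [← Matrix.det_mul, h1, Matrix.det_one])

/-- A place with independent Frobenius eigenvalues from one element modulo `p`. -/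
theorem exists_place_mod (ρ : Reps Gal(AlgebraicClosure ℚ/ℚ) n p) (hρ : Conts ρ)
    (w : ι → ℤ) (c : ℕ) (S : Set (HeightOneSpectrum (𝓞 ℚ))) (hS : S.Finite)
    (P : HeightOneSpectrum (𝓞 ℚ) → ι → ℚ[X])
    (hP : ∀ v ∉ S, ∀ i, GoodReduction ρ i (w i) v (P v i) ∧ IntegralRoots c v (P v i))
    {N : ℕ} (b : Basis (Fin N) ℚ_[p] (∀ i, Fin (n i) → ℚ_[p]))
    {R : Gal(AlgebraicClosure ℚ/ℚ) →* Matrix (Fin N) (Fin N) ℤ_[p]} (hRc : Continuous R)
    (hR : ∀ g, LinearMap.toMatrix b b (sumRep ρ g) = (R g).map (algebraMap ℤ_[p] ℚ_[p]))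
    {r B : ℕ} (hB : ∀ κ : Fin r → ι,
      ∀ e ∈ exs (fun k => w (κ k)) (bd (fun k => w (κ k)) c (∑ i, n i)), ∀ k,
        |(((2 * (∑ i, n i) ^ r).factorial : ℕ) : ℤ) * e k| ≤ B)
    (σ : Gal(AlgebraicClosure ℚ/ℚ)) (hσ : FreeMod (red (R σ)) r B) :
    ∃ v, v ∉ S ∧ IndepRoots r (Set.range (P v)) := by
  classical
  let O : Set Gal(AlgebraicClosure ℚ/ℚ) := ⋂ a, ⋂ d, {g | ‖R g a d - R σ a d‖ < 1}
  have hO : IsOpen O := by
    refine isOpen_iInter_of_finite fun a => isOpen_iInter_of_finite fun d => ?_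
    have h1 : Continuous fun g => R g a d :=
      (continuous_apply d).comp ((continuous_apply a).comp hRc)
    exact isOpen_lt (h1.sub continuous_const).norm continuous_const
  have hσO : σ ∈ O := by
    refine Set.mem_iInter.2 fun a => Set.mem_iInter.2 fun d => ?_
    change ‖R σ a d - R σ a d‖ < 1
    rw [sub_self, norm_zero]
    exact zero_lt_one
  obtain ⟨v, hv, φ, ⟨Q, hQ, hQv, hφ⟩, hφO⟩ := Pool.Agent.Y405.ZO.t ℚ O hO ⟨σ, hσO⟩ S hS
  have hred : red (R φ⁻¹) = red (R σ) := by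
    ext a d
    have h1 : ‖R φ⁻¹ a d - R σ a d‖ < 1 := Set.mem_iInter.1 (Set.mem_iInter.1 hφO a) d
    rw [PadicInt.norm_lt_one_iff_dvd] at h1
    rw [red_apply, red_apply, ← sub_eq_zero, ← map_sub, toZMod_eq_zero]
    exact h1
  have hunit : IsUnit (R φ⁻¹).det := isUnit_det_model R φ⁻¹
  obtain ⟨y, hy, hfree⟩ := lift_free hunit (B := B) (hred ▸ hσ)
  have hcomp : ∀ k, ∃ i, aeval (y k) (ρ i φ⁻¹).charpoly = 0 := by
    intro k
    have h2 := hy k
    have h3 : (R φ⁻¹).map (algebraMap ℤ_[p] (PadicAlgCl p)) =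
        (LinearMap.toMatrix b b (sumRep ρ φ⁻¹)).map (algebraMap ℚ_[p] (PadicAlgCl p)) := by
      rw [hR φ⁻¹]
      ext a d
      rfl
    rw [h3] at h2
    exact exists_component (fun i => ρ i φ⁻¹) (sumRep ρ φ⁻¹) (fun x i => rfl) b h2
  choose κ hκ using hcomp
  refine ⟨v, hv, ?_⟩
  obtain ⟨j⟩ := exists_emb p
  obtain ⟨p₀, hp₀, hpv⟩ := exists_prime v
  have hq : q v = p₀ := absNorm_eq hp₀ hpv
  have hroot : ∀ k, aeval (j (y k)) (P v (κ k)) = 0 := by
    intro k
    have h1 : (ρ (κ k) φ⁻¹).charpoly = (P v (κ k)).map (algebraMap ℚ ℚ_[p]) :=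
      ((hP v hv (κ k)).1.2 Q ⟨hQ.isPrime, hQv⟩ φ).2 hφ
    have h2 : aeval (y k) (ρ (κ k) φ⁻¹).charpoly = 0 := hκ k
    rw [h1, aeval_map_algebraMap] at h2
    have h3 := congrArg j.toRatAlgHom h2
    rw [map_zero, ← aeval_algHom_apply] at h3
    exact h3
  refine ⟨fun k => j (y k), fun k => ⟨P v (κ k), ⟨κ k, rfl⟩, hroot k⟩, fun e he => ?_⟩
  by_contra hne
  obtain ⟨e', he', hrel⟩ := relation_complex (fun k => w (κ k)) c (D := ∑ i, n i) hp₀
    (fun k => P v (κ k)) (fun k => j (y k))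
    (fun k => ⟨(good_poly (hP v hv (κ k)).1).1, by
      rw [(good_poly (hP v hv (κ k)).1).2]
      exact Finset.single_le_sum (f := n) (fun _ _ => Nat.zero_le _) (Finset.mem_univ _)⟩)
    (fun k b hb => by
      have h1 := (hP v hv (κ k)).1.1 b (by
        rw [mem_aroots]
        exact ⟨(good_poly (hP v hv (κ k)).1).1, hb⟩)
      rw [hq] at h1
      exact h1)
    (fun k b hb => by
      have h1 := (hP v hv (κ k)).2 b hb
      rw [hq] at h1
      exact h1)
    hroot ⟨e, hne, he⟩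
  have h4 : ∏ k, y k ^ ((((2 * (∑ i, n i) ^ r).factorial : ℕ) : ℤ) * e' k) = 1 := by
    apply j.injective
    rw [map_one, ← hrel, map_prod, ← Finset.prod_pow]
    refine Finset.prod_congr rfl fun k _ => ?_
    rw [map_zpow₀, mul_comm, _root_.zpow_mul, zpow_natCast]
  have h5 := hfree _ (hB κ e' he') h4
  have h6 : e' = 0 := by
    funext k
    have h7 := congrFun h5 k
    exact (mul_eq_zero.1 h7).resolve_left (by exact_mod_cast Nat.factorial_ne_zero _)
  exact zero_notMem_exs _ _ (h6 ▸ he')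

variable {Γ : Type} [Group Γ] [TopologicalSpace Γ] [IsTopologicalGroup Γ] [CompactSpace Γ]
  [DecidableEq ι]

/-- The rank theorem at every prime number from one element modulo `p`. -/
theorem rank_of_mod {s : Gal(AlgebraicClosure ℚ/ℚ) →* Γ} {w : ι → ℤ}
    {S : Set (HeightOneSpectrum (𝓞 ℚ))} {P : HeightOneSpectrum (𝓞 ℚ) → ι → ℚ[X]}
    {ρ : ∀ (ℓ : ℕ) [Fact ℓ.Prime], Reps Γ n ℓ} {𝔤 : Submodule ℚ (End ℚ (Betti n))}
    (h : Realizations s w S P ρ 𝔤) {c : ℕ} (hint : IntegralOutside S P c)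
    {r : ℕ} (hrank : RatRankLE 𝔤 r)
    {N : ℕ} (b : Basis (Fin N) ℚ_[p] (∀ i, Fin (n i) → ℚ_[p]))
    {R : Gal(AlgebraicClosure ℚ/ℚ) →* Matrix (Fin N) (Fin N) ℤ_[p]}
    (hR : ∀ g, LinearMap.toMatrix b b (sumRep (ρ p) (s g)) = (R g).map (algebraMap ℤ_[p] ℚ_[p]))
    {B : ℕ} (hB : ∀ κ : Fin r → ι,
      ∀ e ∈ exs (fun k => w (κ k)) (bd (fun k => w (κ k)) c (∑ i, n i)), ∀ k,
        |(((2 * (∑ i, n i) ^ r).factorial : ℕ) : ℤ) * e k| ≤ B)
    (hσ : ∃ σ, FreeMod (red (R σ)) r B) (ℓ : ℕ) [hℓ : Fact ℓ.Prime] :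
    RankTheorem (ρ ℓ) 𝔤 r := by
  obtain ⟨σ, hσ⟩ := hσ
  obtain ⟨v₀, hv₀, hind⟩ := exists_place_mod (restrictTo (ρ p) s)
    (fun i => (h.continuous p i).comp h.continuous_point) w c
    (S ∪ {v | Above v p} ∪ {v | Above v ℓ})
    ((h.finite.union (finite_above p hp.out)).union (finite_above ℓ hℓ.out)) P
    (fun v hv i => ⟨h.good p v (fun h => hv (Or.inl (Or.inl h)))
      (fun h => hv (Or.inl (Or.inr h))) i, hint v (fun h => hv (Or.inl (Or.inl h))) i⟩)
    b (continuous_model h.continuous_point (h.continuous p) b hR) hR hB σ hσ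
  obtain ⟨p₀, hp₀, hpv₀⟩ := exists_prime v₀
  have hne : ℓ ≠ p₀ := by
    rintro rfl
    exact hv₀ (Or.inr hpv₀)
  refine main_place h r hrank p₀ ⟨hp₀, fun v hv => unramified hp₀ hv, fun v hv hvS => ?_,
    independentPlaces_of_one P (fun v => above_iff hp₀ hpv₀ v), v₀, hpv₀, hind⟩ ℓ hne
  exact hv₀ (Or.inl (Or.inl (by rwa [(above_iff hp₀ hpv₀ v).1 hv] at hvS)))

end place

end

end Pool.Agent.U175.LP
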