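import Mathlib
import Pool.Agent.U175.LP.Pub

/-!
# Primitive residual representations which contain a transvection: definitions
-/

open CategoryTheory AlgebraicGeometry

universe u

namespace Pool.Agent.U175.LP.Pub

open Pool.Agent.TH125.Gal Pool.Agent.H914 Pool.Agent.H914.VarClass
  Pool.Agent.H914.VarClass.Obj Pool.Agent.H914.WeilCohomology Pool.Agent.H281R3.HT

noncomputable section

variable {Γ : Type} [Group Γ] {p : ℕ} [hp : Fact p.Prime] {C : Type} [Field C] [Algebra ℚ_[p] C]
  {ι : Type} {N : ι → ℕ}

/-- The residual representation is primitive for the form `J`: the only subspaces `W` such that for all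
`g` the subspace `g W` is equal to `W` or orthogonal to `W` are zero and the whole space. So the
residual representation is irreducible, and there is no orthogonal decomposition into at least two
subspaces which are permuted by `Γ`. -/
def IsPrimitive {n : ℕ} (J : Matrix (Fin n) (Fin n) ℤ_[p])
    (ρ : Γ →* Matrix (Fin n) (Fin n) ℤ_[p]) : Prop :=
  ∀ W : Submodule (ZMod p) (Fin n → ZMod p),
    (∀ g, W.map (red (ρ g)).mulVecLin = W ∨
      ∀ x ∈ W, ∀ y ∈ W, dot J ((red (ρ g)).mulVec x) y = 0) → W = ⊥ ∨ W = ⊤

/-- The vectors `b a` generate a lattice over the `p`-adic integers in the subspace `T` of `M`, stable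
under `Γ`; the action of `Γ` is given by the matrices `ρ g`, and a nonzero multiple of the form
`t (x * y)` by the matrix `J`, which is not divisible by `p`. -/
structure IsStableLattice {M : Type} [Ring M] [Algebra C M] (υ : Γ →* (M ≃ₐ[C] M)) (t : M →ₗ[C] C)
    (T : Submodule C M) {n : ℕ} (b : Fin n → M) (J : Matrix (Fin n) (Fin n) ℤ_[p])
    (ρ : Γ →* Matrix (Fin n) (Fin n) ℤ_[p]) : Prop where
  span : Submodule.span C (Set.range b) = T
  act : ∀ g, HasMatrix C (υ g) b (ρ g)
  form : HasGram t b J
  reduction_ne : red J ≠ 0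

/-- **Residual transvections.** The space `A` has a lattice over the `p`-adic integers, of rank `d`,
which is stable under `Γ`; the residual representation on the lattice `i` is primitive, and some `g` in
`Γ` acts on it by a nontrivial transvection, and trivially modulo `p` on the other lattices of the same
rank, and on the lattice in `A` if `N i * (N i + 1) ≤ 2 * d ^ 2`. -/
def ResidualTransvections {A : Type} [Ring A] [Algebra C A] (υ : Γ →* (A ≃ₐ[C] A))
    (J : ∀ i, Matrix (Fin (N i)) (Fin (N i)) ℤ_[p])
    (ρ : ∀ i, Γ →* Matrix (Fin (N i)) (Fin (N i)) ℤ_[p]) : Prop :=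
  ∃ (d : ℕ) (f : Module.Basis (Fin d) C A) (τ : Γ →* Matrix (Fin d) (Fin d) ℤ_[p]),
    (∀ g, HasMatrix C (υ g) f (τ g)) ∧
    ∀ i, IsPrimitive (J i) (ρ i) ∧
      ∃ v : Fin (N i) → ZMod p, v ≠ 0 ∧ ∃ g : Γ, Transvects J ρ τ i v g

variable {k : Type u} [Field k] {𝒱 : VarClass k} {ops : CycleOps 𝒱}
  {W : WeilCohomology.{u, 0} ops} [Algebra ℚ_[p] W.K]

/-- `G` is a class of varieties with an action of the group `Γ` on the cohomology with the formal
properties of a Galois action (with the cyclotomic character `κ`), closed under products. The variety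
`Z` and the odd-dimensional varieties `X i` are members of `G`; the divisors `D i` on `X i` satisfy hard
Lefschetz and the standard conjectures of Lefschetz and of Hodge type, and the transcendental
cohomology of `X i` is in the middle degree; it has a stable lattice with the basis `b i`, the
action `ρ i` and the form `J i`. -/
structure ResidualSystem (κ : Γ →* ℤ_[p]ˣ) (G : Set (GVar W Γ)) (X : ι → GVar W Γ)
    (D : ∀ i, (X i).X.Cycles) (Z : GVar W Γ) (b : ∀ i, Fin (N i) → W.H (X i).X)
    (J : ∀ i, Matrix (Fin (N i)) (Fin (N i)) ℤ_[p])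
    (ρ : ∀ i, Γ →* Matrix (Fin (N i)) (Fin (N i)) ℤ_[p]) : Prop where
  galois : GaloisClass (twist W.K κ) G
  mem : ∀ i, X i ∈ G
  mem_base : Z ∈ G
  odd : ∀ i, Odd (X i).X.dim
  pol : ∀ i, IsPolarization W (X i).X (D i)
  middle : ∀ i, transcendental W (X i).X ≤ W.gr (X i).X (X i).X.dim
  one_ne : ∀ i, (1 : W.H (X i).X) ≠ 0
  lattice : ∀ i, IsStableLattice (X i).act (W.tr (X i).X) (transcendental W (X i).X) (b i) (J i) (ρ i)

end

end Pool.Agent.U175.LP.Pub
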