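import Mathlib
import Pool.Agent.U175.LP.T6

/-!
# Large images modulo `p` give all tangent vectors
-/

set_option linter.unusedSectionVars false

namespace Pool.Agent.U175.LP

open PadicInt Module Matrix Pool.Agent.U175.LP.Pub

noncomputable section

variable {p : ℕ} [hp : Fact p.Prime] {ι : Type} [Fintype ι] [DecidableEq ι] {N : ι → ℕ}
  {Γ : Type} [Group Γ] {J : ∀ i, Matrix (Fin (N i)) (Fin (N i)) ℤ_[p]}
  {ρ : ∀ i, Γ →* Matrix (Fin (N i)) (Fin (N i)) ℤ_[p]} {κ : Γ →* ℤ_[p]ˣ} {c : ι → ℕ}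
  {d : ℕ} {τ : Γ →* Matrix (Fin d) (Fin d) ℤ_[p]}

/-- Transvections modulo `p` which act trivially on everything else. -/
structure TrV (J : ∀ i, Matrix (Fin (N i)) (Fin (N i)) ℤ_[p])
    (ρ : ∀ i, Γ →* Matrix (Fin (N i)) (Fin (N i)) ℤ_[p]) {d : ℕ}
    (τ : Γ →* Matrix (Fin d) (Fin d) ℤ_[p]) (i : ι) (v : Fin (N i) → ZMod p) (g : Γ) : Prop where
  self : ∃ c : ZMod p, c ≠ 0 ∧ ∀ x, (red (ρ i g)).mulVec x = x + (c * dot (J i) v x) • v
  other : ∀ j, j ≠ i → red (ρ j g) = 1
  base : red (τ g) = 1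

theorem piB_apply_single (i : ι) (x y : Fin (N i) → ℤ_[p]) :
    piB J (Pi.single i x) (Pi.single i y) = Matrix.toBilin' (J i) x y := by
  rw [piB_single_left, Pi.single_eq_same]

theorem exists_unit_pair (hJ : ∀ i, IsUnit (J i).det) {i : ι} (hN : 0 < N i) :
    ∃ u w, IsUnit (piB J (piP p N i u) w) := by
  by_contra hcon
  push Not at hcon
  obtain ⟨y, hy⟩ := form_nd (hJ i) (Pi.single ⟨0, hN⟩ 1) fun w hw => by
    refine hcon (Pi.single i (Pi.single ⟨0, hN⟩ 1)) (Pi.single i w) ?_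
    rwa [piP_apply, Pi.single_eq_same, piB_apply_single]
  have h1 := congrFun hy ⟨0, hN⟩
  rw [Pi.smul_apply, smul_eq_mul, Pi.single_eq_same] at h1
  have h2 : (toZMod ((p : ℤ_[p]) * y ⟨0, hN⟩) : ZMod p) = 0 := (toZMod_eq_zero _).2 ⟨_, rfl⟩
  rw [h1, map_one] at h2
  exact one_ne_zero h2

theorem span_lift {i : ι} {K : Type} {v : K → Fin (N i) → ZMod p}
    (hs : Submodule.span (ZMod p) (Set.range v) = ⊤) {w : K → Fin (N i) → ℤ_[p]}
    (hw : ∀ a b, (toZMod (w a b) : ZMod p) = v a b) (x : ∀ j, Fin (N j) → ℤ_[p]) :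
    ∃ y ∈ Submodule.span ℤ_[p] (Set.range fun a => (Pi.single i (w a) : ∀ j, Fin (N j) → ℤ_[p])),
      ∃ z, piP p N i x = y + (p : ℤ_[p]) • z := by
  have key : ∀ u ∈ Submodule.span (ZMod p) (Set.range v), ∃ y : Fin (N i) → ℤ_[p],
      (Pi.single i y : ∀ j, Fin (N j) → ℤ_[p]) ∈
        Submodule.span ℤ_[p] (Set.range fun a => (Pi.single i (w a) : ∀ j, Fin (N j) → ℤ_[p])) ∧
      ∀ a, (toZMod (y a) : ZMod p) = u a := by
    intro u hu
    induction hu using Submodule.span_induction with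
    | mem u hu =>
      obtain ⟨a, rfl⟩ := hu
      exact ⟨w a, Submodule.subset_span ⟨a, rfl⟩, hw a⟩
    | zero => exact ⟨0, by rw [Pi.single_zero]; exact Submodule.zero_mem _, fun a => map_zero _⟩
    | add u u' _ _ h h' =>
      obtain ⟨y, hy, h1⟩ := h
      obtain ⟨y', hy', h1'⟩ := h'
      exact ⟨y + y', by rw [Pi.single_add]; exact Submodule.add_mem _ hy hy', fun a => by
        rw [Pi.add_apply, map_add, h1, h1']
        rfl⟩
    | smul r u _ h =>
      obtain ⟨y, hy, h1⟩ := h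
      obtain ⟨s, hs⟩ := ZMod.ringHom_surjective (toZMod : ℤ_[p] →+* ZMod p) r
      exact ⟨s • y, by rw [Pi.single_smul]; exact Submodule.smul_mem _ _ hy, fun a => by
        rw [Pi.smul_apply, smul_eq_mul, map_mul, h1, hs]
        rfl⟩
  obtain ⟨y, hy, h1⟩ := key (fun a => toZMod (x i a)) (by rw [hs]; exact Submodule.mem_top)
  choose z hz using fun a => (toZMod_eq_zero (x i a - y a)).1 (by rw [map_sub, h1, sub_self])
  refine ⟨_, hy, Pi.single i z, ?_⟩
  rw [piP_apply, ← Pi.single_smul, ← Pi.single_add]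
  congr 1
  funext a
  rw [Pi.add_apply, Pi.smul_apply, smul_eq_mul, ← hz]
  ring

/-- **Large images modulo `p` give all tangent vectors.** -/
theorem tan_large (hp5 : 5 ≤ p) (hJ : ∀ i, (J i)ᵀ = -J i) (hJd : ∀ i, IsUnit (J i).det)
    (hB : ∀ i s x y, Matrix.toBilin' (J i) (repT κ (c i) (ρ i) s x) (repT κ (c i) (ρ i) s y) =
      (κ s : ℤ_[p]) * Matrix.toBilin' (J i) x y) {i : ι} {K : Type}
    {v : K → Fin (N i) → ZMod p} (hc : Connected (J i) v)
    (hv : ∀ a, ∃ g : Γ, TrV J ρ τ i (v a) g)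
    {X : Module.End ℤ_[p] (∀ i, Fin (N i) → ℤ_[p])} (hX : X ∈ Si (piB J) (piP p N) i) :
    TanA p (RR (piR fun i => repT κ (c i) (ρ i)) κ τ) (X, 0) := by
  classical
  have hpp := hp.out
  rcases Nat.eq_zero_or_pos (N i) with hN | hN
  · -- rank zero
    have h0 : ∀ x : ∀ i, Fin (N i) → ℤ_[p], piP p N i x = 0 := by
      intro x
      rw [piP_apply]
      have h1 : x i = 0 := funext fun a => absurd a.2 (by omega)
      rw [h1, Pi.single_zero]
    have h2 : Si (piB J) (piP p N) i ≤ ⊥ := by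
      rw [Si, Submodule.span_le]
      rintro _ ⟨u, w, rfl⟩
      rw [h0, h0]
      have h3 : so (piB J) 0 0 = 0 := by
        rw [← zero_smul ℤ_[p] (0 : ∀ i, Fin (N i) → ℤ_[p]), so_smul_left, zero_smul]
      rw [h3]
      exact Submodule.zero_mem _
    rw [(Submodule.mem_bot _).1 (h2 hX)]
    exact TanA_zero
  choose w hw using fun a => exists_lift (v a)
  refine tan_of_transv hp5 (piB_self hJ) piP_self (fun q r x h => piP_ne q r x h) piB_piP
    (piB_inv hB) (piP_rho _) (fun a => Pi.single i (w a)) (exists_unit_pair hJd hN) ?_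
    (span_lift hc.spans hw) ?_ hX
  · intro a b
    have hstep : ∀ a b, dot (J i) (v a) (v b) ≠ 0 →
        IsUnit (piB J (Pi.single i (w a)) (Pi.single i (w b))) := by
      intro a b hab
      rw [piB_apply_single, form_apply, isUnit_iff_toZMod, toZMod_dot]
      have h1 : ∀ a, (fun b => (toZMod (w a b) : ZMod p)) = v a := fun a => funext (hw a)
      rw [h1, h1]
      exact hab
    have h2 := hc.chain a b
    induction h2 with
    | refl => exact Relation.ReflTransGen.refl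
    | tail _ hbd ih => exact Relation.ReflTransGen.tail ih (hstep _ _ hbd)
  · intro a
    obtain ⟨g, hg⟩ := hv a
    obtain ⟨c₀, hc₀, hself⟩ := hg.self
    -- the scalar
    have h2 : (2 : ZMod p) ≠ 0 := by
      intro h
      have h3 : ((2 : ℕ) : ZMod p) = 0 := by exact_mod_cast h
      rw [ZMod.natCast_eq_zero_iff] at h3
      exact absurd (Nat.le_of_dvd (by norm_num) h3) (by omega)
    obtain ⟨c', hc'⟩ := ZMod.ringHom_surjective (toZMod : ℤ_[p] →+* ZMod p) (-c₀ / 2)
    have hcu : IsUnit c' := by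
      rw [isUnit_iff_toZMod, hc']
      exact div_ne_zero (neg_ne_zero.2 hc₀) h2
    have hκ0 : ∀ u : ℤ_[p]ˣ, (toZMod (((u ^ (p - 1) : ℤ_[p]ˣ) : ℤ_[p])) : ZMod p) = 1 := by
      intro u
      rw [Units.val_pow_eq_pow_val, map_pow]
      exact ZMod.pow_card_sub_one_eq_one ((isUnit_iff_toZMod _).1 u.isUnit)
    have hκ1 : ∀ n : ℕ, (toZMod ((((κ (g ^ (p - 1))) ^ n : ℤ_[p]ˣ) : ℤ_[p])) : ZMod p) = 1 := by
      intro n
      rw [map_pow, ← pow_mul, mul_comm, pow_mul]
      exact hκ0 _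
    have hpc : ((p - 1 : ℕ) : ZMod p) = -1 := by
      rw [Nat.cast_sub hpp.one_lt.le, ZMod.natCast_self]
      ring
    have h1 : (fun b => (toZMod (w a b) : ZMod p)) = v a := funext (hw a)
    refine ⟨g ^ (p - 1), c', hcu, ?_, ?_, ?_⟩
    · obtain ⟨Z, hZ⟩ := exists_div (piR (fun i => repT κ (c i) (ρ i)) (g ^ (p - 1)) - 1 -
        c' • so (piB J) (Pi.single i (w a)) (Pi.single i (w a))) fun x => by
        refine exists_div_pi fun j b => ?_
        have e1 : (piR (fun i => repT κ (c i) (ρ i)) (g ^ (p - 1)) - 1 -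
            c' • so (piB J) (Pi.single i (w a)) (Pi.single i (w a))) x j b =
            ((((κ (g ^ (p - 1))) ^ c j : ℤ_[p]ˣ) : ℤ_[p])) * ((ρ j (g ^ (p - 1)) *ᵥ x j) b) -
            x j b - c' * (2 * piB J (Pi.single i (w a)) x *
              (Pi.single i (w a) : ∀ j, Fin (N j) → ℤ_[p]) j b) := by
          simp only [LinearMap.sub_apply, LinearMap.smul_apply, Pi.sub_apply, Pi.smul_apply,
            so_apply, Pi.add_apply, smul_eq_mul, piR_apply, repT_apply, Module.End.one_apply]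
          ring
        rw [e1, map_sub, map_sub, map_mul, hκ1, one_mul, toZMod_mulVec, map_pow, red_pow]
        by_cases hj : j = i
        · subst hj
          rw [transv_pow (hJ j) hself, hpc, Pi.add_apply, Pi.smul_apply, smul_eq_mul,
            piB_single_left, form_apply, map_mul, hc', Pi.single_eq_same, map_mul, map_mul,
            toZMod_dot, h1, hw, map_ofNat]
          field_simp
          ring
        · rw [hg.other j hj, one_pow, one_mulVec, Pi.single_eq_of_ne hj, Pi.zero_apply, mul_zero,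
            mul_zero, map_zero, sub_self, sub_zero]
      refine ⟨Z, ?_⟩
      rw [← hZ]
      abel
    · have h3 : red (τ (g ^ (p - 1))) = red 1 := by
        rw [map_pow, red_pow, hg.base, one_pow, red_one]
      obtain ⟨M, hM⟩ := exists_of_red h3
      exact ⟨M, hM⟩
    · have h3 := hκ1 1
      rw [pow_one] at h3
      obtain ⟨z, hz⟩ := (toZMod_eq_zero ((κ (g ^ (p - 1)) : ℤ_[p]) - 1)).1 (by
        rw [map_sub, h3, map_one, sub_self])
      exact ⟨z, by rw [smul_eq_mul, ← hz]; ring⟩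

end

end Pool.Agent.U175.LP
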