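import Mathlib
import Pool.Agent.U175.LP.T7
import Pool.Agent.U175.LP.T9

/-!
# Lie algebras which map onto several symplectic Lie algebras
-/

set_option linter.unusedSectionVars false

namespace Pool.Agent.U175.LP

open PadicInt Module Matrix Pool.Agent.U175.LP.Pub

noncomputable section

variable {p : ℕ} [hp : Fact p.Prime]

section simple

variable {T : Type*} [AddCommGroup T] [Module ℤ_[p] T] {B : T →ₗ[ℤ_[p]] T →ₗ[ℤ_[p]] ℤ_[p]}
  {ι : Type*} [DecidableEq ι] {π : ι → Module.End ℤ_[p] T}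

theorem Si_pi (hππ : ∀ q x, π q (π q x) = π q x)
    (hBπ : ∀ q x y, B (π q x) y = B x (π q y)) {i : ι} {X : Module.End ℤ_[p] T}
    (hX : X ∈ Si B π i) (x : T) : X (π i x) = X x ∧ π i (X x) = X x := by
  induction hX using Submodule.span_induction with
  | mem X hX =>
    obtain ⟨u, w, rfl⟩ := hX
    rw [so_apply, so_apply, ← hBπ, ← hBπ, hππ, hππ, map_add, map_smul, map_smul, hππ, hππ]
    exact ⟨rfl, rfl⟩
  | zero => simp
  | add X X' _ _ h h' =>
    simp only [LinearMap.add_apply, map_add]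
    rw [h.1, h'.1, h.2, h'.2]
    exact ⟨rfl, rfl⟩
  | smul r X _ h =>
    simp only [LinearMap.smul_apply, map_smul]
    rw [h.1, h.2]
    exact ⟨rfl, rfl⟩

theorem two_ne : (2 : ℤ_[p]) ≠ 0 := two_ne_zero

/-- **Simplicity of the symplectic Lie algebra.** -/
theorem Si_le_of_ideal (halt : ∀ x, B x x = 0) (hππ : ∀ q x, π q (π q x) = π q x)
    (hBπ : ∀ q x y, B (π q x) y = B x (π q y))
    (hnd : ∀ x, (∀ w, B x w = 0) → x = 0) {i : ι} {I : Submodule ℤ_[p] (Module.End ℤ_[p] T)}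
    (hsat : ∀ (r : ℤ_[p]) (X : Module.End ℤ_[p] T), r ≠ 0 → r • X ∈ I → X ∈ I)
    (hI : ∀ Y ∈ Si B π i, ∀ X ∈ I, X ∈ Si B π i → Y * X - X * Y ∈ I)
    {X : Module.End ℤ_[p] T} (hX : X ∈ Si B π i) (hXI : X ∈ I) (hne : X ≠ 0) :
    Si B π i ≤ I := by
  have h2 := two_ne (p := p)
  -- a vector
  obtain ⟨v, hv, hb⟩ : ∃ v, π i v = v ∧ B v (X v) ≠ 0 := by
    by_contra hcon
    push Not at hcon
    have hall : ∀ v, B v (X v) = 0 := by
      intro v
      have h1 := hcon (π i v) (hππ i v)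
      rwa [(Si_pi hππ hBπ hX v).1, hBπ, (Si_pi hππ hBπ hX v).2] at h1
    apply hne
    refine LinearMap.ext fun v => hnd _ fun w => ?_
    have h3 := hall (v + w)
    simp only [map_add, LinearMap.add_apply, hall] at h3
    have h4 := Si_inv B π halt hX v w
    have h5 := B_anti B halt w (X v)
    have h6 : (2 : ℤ_[p]) * B (X v) w = 0 := by linear_combination h4 - h3 + h5
    exact (mul_eq_zero.1 h6).resolve_left h2
  have hw₁ : π i (X v) = X v := (Si_pi hππ hBπ hX v).2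
  have hvv := so_mem_Si' B π hv hv
  -- the first elements
  have h3 : so B (X v) v ∈ I := by
    have h4 := hI _ hvv _ hXI hX
    have h5 := bracket_norm B (Y := X) (c := 0) (fun x y => by rw [zero_mul, Si_inv B π halt hX]) v v
    rw [zero_smul, sub_zero, so_comm B v (X v)] at h5
    have h6 : so B v v * X - X * so B v v = (-2 : ℤ_[p]) • so B (X v) v := by
      rw [← neg_sub, h5]
      module
    rw [h6] at h4
    exact hsat _ _ (neg_ne_zero.2 h2) h4
  have h4 : so B v v ∈ I := by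
    have h5 := hI _ hvv _ h3 (so_mem_Si' B π hw₁ hv)
    rw [bracket_so B halt, so_apply, so_apply, halt, zero_smul, add_zero, so_add_left,
      so_smul_left] at h5
    have h6 : so B (X v) 0 = 0 := by
      rw [← zero_smul ℤ_[p] (0 : T), so_smul_right, zero_smul]
    rw [h6, add_zero] at h5
    refine hsat _ _ (mul_ne_zero h2 hb) ?_
    convert! h5 using 1
    module
  -- the step
  have hstep : ∀ v w, π i v = v → π i w = w → B w v ≠ 0 → so B v v ∈ I → so B w w ∈ I := by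
    intro v w hv hw hvw h5
    have hww := so_mem_Si' B π hw hw
    have h6 : so B w v ∈ I := by
      have h7 := hI _ hww _ h5 (so_mem_Si' B π hv hv)
      rw [bracket_so B halt, so_apply, so_add_left, so_add_right, so_smul_left, so_smul_right,
        so_comm B v w] at h7
      refine hsat _ _ (mul_ne_zero (mul_ne_zero h2 h2) hvw) ?_
      convert! h7 using 1
      module
    have h7 := hI _ hww _ h6 (so_mem_Si' B π hw hv)
    rw [bracket_so B halt, so_apply, so_apply, halt, zero_smul, add_zero, so_add_right,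
      so_smul_right] at h7
    have h8 : so B 0 v = 0 := by
      rw [← zero_smul ℤ_[p] (0 : T), so_smul_left, zero_smul]
    rw [h8, zero_add] at h7
    refine hsat _ _ (mul_ne_zero h2 hvw) ?_
    convert! h7 using 1
    module
  have hall : ∀ u, π i u = u → so B u u ∈ I := by
    intro u hu
    by_cases hu0 : u = 0
    · have h8 : so B u u = 0 := by
        rw [hu0, ← zero_smul ℤ_[p] (0 : T), so_smul_left, zero_smul]
      rw [h8]
      exact I.zero_mem
    · obtain ⟨w₂, hw₂, hw₂'⟩ : ∃ w, π i w = w ∧ B u w ≠ 0 := by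
        by_contra hcon
        push Not at hcon
        refine hu0 (hnd u fun w => ?_)
        have h8 := hcon (π i w) (hππ i w)
        rwa [← hBπ, hu] at h8
      have hanti : ∀ {x y : T}, B x y ≠ 0 → B y x ≠ 0 := fun {x y} h h' => h (by
        rw [B_anti B halt, h', neg_zero])
      have hb' : B (X v) v ≠ 0 := hanti hb
      by_cases h8 : B u (X v) = 0
      · by_cases h9 : B w₂ v = 0
        · have h10 : B (X v + w₂) v ≠ 0 := by rwa [map_add, LinearMap.add_apply, h9, add_zero]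
          have h11 : B u (X v + w₂) ≠ 0 := by rwa [map_add, h8, zero_add]
          have h12 : π i (X v + w₂) = X v + w₂ := by rw [map_add, hw₁, hw₂]
          exact hstep _ _ h12 hu h11 (hstep _ _ hv h12 h10 h4)
        · exact hstep _ _ hw₂ hu hw₂' (hstep _ _ hv hw₂ h9 h4)
      · exact hstep _ _ hw₁ hu h8 (hstep _ _ hv hw₁ hb' h4)
  rw [Si, Submodule.span_le]
  rintro _ ⟨u, w, rfl⟩
  have h5 := I.sub_mem (I.sub_mem (hall (π i u + π i w) (by rw [map_add, hππ, hππ]))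
    (hall _ (hππ i u))) (hall _ (hππ i w))
  refine hsat 2 _ h2 ?_
  convert! h5 using 1
  rw [so_add_left, so_add_right, so_add_right, so_comm B (π i w) (π i u)]
  module

end simple

/-! ### counting -/

/-- The pairs `a ≤ b`. -/
abbrev Pr (n : ℕ) := {ab : Fin n × Fin n // ab.1 ≤ ab.2}

theorem card_Pr (n : ℕ) : Fintype.card (Pr n) * 2 = n * (n + 1) := by
  classical
  have h1 : Fintype.card (Pr n) = ∑ b : Fin n, ((b : ℕ) + 1) := by
    rw [Fintype.card_subtype, ← Finset.univ_product_univ, Finset.card_filter,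
      Finset.sum_product_right]
    refine Finset.sum_congr rfl fun b _ => ?_
    rw [← Finset.card_filter]
    have h2 : Finset.univ.filter (fun a : Fin n => a ≤ b) = Finset.Iic b := by
      ext a
      simp
    rw [h2, Fin.card_Iic]
  rw [h1, Fin.sum_univ_eq_sum_range (fun b => b + 1) n]
  induction n with
  | zero => rfl
  | succ n ih =>
    have h3 : (∑ i ∈ Finset.range n, (i + 1)) * 2 = n * (n + 1) := by
      clear ih h1
      induction n with
      | zero => rfl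
      | succ n ih => rw [Finset.sum_range_succ, add_mul, ih]; ring
    rw [Finset.sum_range_succ, add_mul, h3]
    ring

theorem card_Pr_lt {m n : ℕ} (h : m < n) : Fintype.card (Pr m) < Fintype.card (Pr n) := by
  have h1 := card_Pr m
  have h2 := card_Pr n
  nlinarith

section goursat

variable {ι : Type} [Fintype ι] [DecidableEq ι] {N : ι → ℕ}
  {J : ∀ i, Matrix (Fin (N i)) (Fin (N i)) ℤ_[p]} {A : Type} [Ring A] [Algebra ℤ_[p] A]

/-- The standard basis vectors. -/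
def ev (i : ι) (a : Fin (N i)) : ∀ i, Fin (N i) → ℤ_[p] := Pi.single i (Pi.single a 1)

variable (J) in
/-- The dual basis vectors. -/
def fv (i : ι) (a : Fin (N i)) : ∀ i, Fin (N i) → ℤ_[p] := Pi.single i (Pi.single a 1 ᵥ* (J i)⁻¹)

theorem B_fv (hJ : ∀ i, IsUnit (J i).det) (i : ι) (a : Fin (N i)) (x : ∀ i, Fin (N i) → ℤ_[p]) :
    piB J (fv J i a) x = x i a := by
  rw [fv, piB_single_left, form_apply, dotProduct_mulVec, vecMul_vecMul,
    Matrix.nonsing_inv_mul _ (hJ i), vecMul_one, single_one_dotProduct]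

theorem sum_ev (i : ι) (x : ∀ i, Fin (N i) → ℤ_[p]) :
    ∑ a, x i a • (ev i a : ∀ i, Fin (N i) → ℤ_[p]) = piP p N i x := by
  rw [piP_apply]
  have h1 : x i = ∑ a, x i a • (Pi.single a 1 : Fin (N i) → ℤ_[p]) := by
    conv_lhs => rw [← Finset.univ_sum_single (x i)]
    refine Finset.sum_congr rfl fun a _ => ?_
    rw [← Pi.single_smul, smul_eq_mul, mul_one]
  conv_rhs => rw [h1]
  have h2 : ∀ a, x i a • (ev i a : ∀ i, Fin (N i) → ℤ_[p]) =
      Pi.single i (x i a • (Pi.single a 1 : Fin (N i) → ℤ_[p])) := fun a => by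
    rw [ev, Pi.single_smul]
  rw [Finset.sum_congr rfl fun a _ => h2 a]
  exact (map_sum (LinearMap.single ℤ_[p] (fun i => Fin (N i) → ℤ_[p]) i) _ _).symm

theorem B_nd' (hJ : ∀ i, IsUnit (J i).det) (hJa : ∀ i, (J i)ᵀ = -J i)
    (x : ∀ i, Fin (N i) → ℤ_[p]) (hx : ∀ w, piB J x w = 0) : x = 0 := by
  funext i
  funext a
  rw [← B_fv hJ i a x, B_anti _ (piB_self hJa), hx, neg_zero]
  rfl

theorem ev_pi (i : ι) (a : Fin (N i)) : piP p N i (ev i a) = ev i a := by
  rw [piP_apply, ev, Pi.single_eq_same]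

theorem fv_pi (i : ι) (a : Fin (N i)) : piP p N i (fv J i a) = fv J i a := by
  rw [piP_apply, fv, Pi.single_eq_same]

/-- Independence. -/
theorem so_ev_indep (hJ : ∀ i, IsUnit (J i).det) (hJa : ∀ i, (J i)ᵀ = -J i) {i : ι}
    {l : Pr (N i) → ℤ_[p]}
    (h : ∑ ab, l ab • so (piB J) (ev i ab.1.1) (ev i ab.1.2) = 0) : l = 0 := by
  funext cd
  have hef : ∀ a c, piB J (ev i a) (fv J i c) = if a = c then -1 else 0 := by
    intro a c
    rw [B_anti _ (piB_self hJa), B_fv hJ, ev, Pi.single_eq_same]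
    by_cases hac : a = c
    · rw [if_pos hac, hac, Pi.single_eq_same]
    · rw [if_neg hac, Pi.single_eq_of_ne (Ne.symm hac), neg_zero]
  have h1 := congrArg (fun X : Module.End ℤ_[p] (∀ i, Fin (N i) → ℤ_[p]) =>
    piB J (X (fv J i cd.1.1)) (fv J i cd.1.2)) h
  simp only [LinearMap.sum_apply, LinearMap.smul_apply, so_apply, map_sum, map_smul, map_add,
    LinearMap.add_apply, hef, LinearMap.zero_apply, map_zero, smul_eq_mul] at h1
  have h2 : ∀ ab : Pr (N i), l ab * ((if ab.1.1 = cd.1.1 then (-1 : ℤ_[p]) else 0) *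
      (if ab.1.2 = cd.1.2 then (-1 : ℤ_[p]) else 0) + (if ab.1.2 = cd.1.1 then (-1 : ℤ_[p]) else 0) *
      (if ab.1.1 = cd.1.2 then (-1 : ℤ_[p]) else 0)) =
      if ab = cd then l cd * (if cd.1.1 = cd.1.2 then 2 else 1) else 0 := by
    rintro ⟨⟨a, b⟩, hab⟩
    obtain ⟨⟨c, d⟩, hcd⟩ := cd
    simp only [Subtype.mk.injEq, Prod.mk.injEq]
    simp only at hab hcd
    by_cases h3 : a = c
    · subst h3
      by_cases h4 : b = d
      · subst h4
        by_cases h5 : a = b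
        · subst h5
          simp only [if_true, and_self]
          norm_num
        · simp [h5, Ne.symm h5]
      · by_cases h5 : b = a
        · subst h5
          simp [h4]
        · simp [h4, h5]
    · by_cases h4 : b = c
      · subst h4
        by_cases h5 : a = d
        · subst h5
          exact absurd (le_antisymm hab hcd) h3
        · simp [h3, h5]
      · simp [h3, h4]
  rw [Finset.sum_congr rfl fun ab _ => h2 ab, Finset.sum_ite_eq', if_pos (Finset.mem_univ _)] at h1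
  have h3 : (if cd.1.1 = cd.1.2 then (2 : ℤ_[p]) else 1) ≠ 0 := by
    split_ifs
    · exact two_ne
    · exact one_ne_zero
  exact (mul_eq_zero.1 h1).resolve_right h3

/-- Infinitesimal isometries of a summand are in the symplectic Lie algebra. -/
theorem two_mem_Si (hJ : ∀ i, IsUnit (J i).det) (hJa : ∀ i, (J i)ᵀ = -J i) {j : ι}
    {V : Module.End ℤ_[p] (∀ i, Fin (N i) → ℤ_[p])}
    (hV : ∀ x y, piB J (V x) y + piB J x (V y) = 0) (hπ : ∀ x, V (piP p N j x) = V x)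
    (hπ' : ∀ x, piP p N j (V x) = V x) : (2 : ℤ_[p]) • V ∈ Si (piB J) (piP p N) j := by
  have halt := piB_self hJa
  have h1 : (2 : ℤ_[p]) • V = ∑ a, so (piB J) (fv J j a) (V (ev j a)) := by
    refine LinearMap.ext fun x => ?_
    rw [LinearMap.sum_apply]
    simp only [so_apply, Finset.sum_add_distrib, B_fv hJ]
    have h2 : ∑ a, x j a • V (ev j a) = V x := by
      rw [← hπ x, ← sum_ev, map_sum]
      exact Finset.sum_congr rfl fun a _ => (map_smul V _ _).symm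
    have h3 : ∑ a, piB J (V (ev j a)) x • fv J j a = V x := by
      refine sub_eq_zero.1 (B_nd' hJ hJa _ fun w => ?_)
      rw [map_sub, LinearMap.sub_apply, map_sum, LinearMap.sum_apply]
      have h4 : ∀ a, (piB J (piB J (V (ev j a)) x • fv J j a)) w =
          piB J (w j a • V (ev j a)) x := by
        intro a
        rw [map_smul, map_smul, LinearMap.smul_apply, LinearMap.smul_apply, B_fv hJ, smul_eq_mul,
          smul_eq_mul, mul_comm]
      rw [Finset.sum_congr rfl fun a _ => h4 a, ← LinearMap.sum_apply, ← map_sum]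
      have h5 : ∑ a, w j a • V (ev j a) = V w := by
        rw [← hπ w, ← sum_ev, map_sum]
        exact Finset.sum_congr rfl fun a _ => (map_smul V _ _).symm
      rw [h5]
      have h6 := hV x w
      have h7 := B_anti _ halt x (V w)
      linear_combination -h6 + h7
    rw [h2, h3, LinearMap.smul_apply, two_smul]
  rw [h1]
  refine Submodule.sum_mem _ fun a _ => so_mem_Si' _ _ (fv_pi j a) (hπ' _)

/-- A Lie algebra of infinitesimal isometries. -/
structure LieG (J : ∀ i, Matrix (Fin (N i)) (Fin (N i)) ℤ_[p])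
    (g : Submodule ℤ_[p] (Module.End ℤ_[p] (∀ i, Fin (N i) → ℤ_[p]) × A)) : Prop where
  unim : ∀ i, IsUnit (J i).det
  alt : ∀ i, (J i)ᵀ = -J i
  br : ∀ Y ∈ g, ∀ Z ∈ g, Y * Z - Z * Y ∈ g
  inv : ∀ Y ∈ g, ∀ x y, piB J (Y.1 x) y + piB J x (Y.1 y) = 0
  comm : ∀ Y ∈ g, ∀ q x, piP p N q (Y.1 x) = Y.1 (piP p N q x)

/-- A submodule which maps onto a symplectic Lie algebra up to scalars. -/
def Full (J : ∀ i, Matrix (Fin (N i)) (Fin (N i)) ℤ_[p])
    (𝒦 : Submodule ℤ_[p] (Module.End ℤ_[p] (∀ i, Fin (N i) → ℤ_[p]) × A)) (i : ι) : Prop :=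
  ∀ X ∈ Si (piB J) (piP p N) i, ∃ r : ℤ_[p], r ≠ 0 ∧ ∃ Y ∈ 𝒦, Y.1 * piP p N i = r • X

/-- An ideal. -/
def IsIdl (g 𝒦 : Submodule ℤ_[p] (Module.End ℤ_[p] (∀ i, Fin (N i) → ℤ_[p]) × A)) : Prop :=
  𝒦 ≤ g ∧ ∀ Y ∈ g, ∀ Z ∈ 𝒦, Y * Z - Z * Y ∈ 𝒦

variable {g : Submodule ℤ_[p] (Module.End ℤ_[p] (∀ i, Fin (N i) → ℤ_[p]) × A)}

/-- The operators which are images up to scalars. -/
def QQ (𝒦 : Submodule ℤ_[p] (Module.End ℤ_[p] (∀ i, Fin (N i) → ℤ_[p]) × A)) (i : ι) :
    Submodule ℤ_[p] (Module.End ℤ_[p] (∀ i, Fin (N i) → ℤ_[p])) where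
  carrier := {X | ∃ r : ℤ_[p], r ≠ 0 ∧ ∃ Y ∈ 𝒦, Y.1 * piP p N i = r • X}
  zero_mem' := ⟨1, one_ne_zero, 0, Submodule.zero_mem _, by rw [smul_zero, Prod.fst_zero, zero_mul]⟩
  add_mem' := by
    rintro X X' ⟨r, hr, Y, hY, h⟩ ⟨r', hr', Y', hY', h'⟩
    refine ⟨r * r', mul_ne_zero hr hr', r' • Y + r • Y',
      Submodule.add_mem _ (Submodule.smul_mem _ _ hY) (Submodule.smul_mem _ _ hY'), ?_⟩
    rw [Prod.fst_add, Prod.smul_fst, Prod.smul_fst, add_mul, smul_mul_assoc, smul_mul_assoc, h, h']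
    module
  smul_mem' := by
    rintro c X ⟨r, hr, Y, hY, h⟩
    refine ⟨r, hr, c • Y, Submodule.smul_mem _ _ hY, ?_⟩
    rw [Prod.smul_fst, smul_mul_assoc, h, smul_comm]

theorem QQ_sat {𝒦 : Submodule ℤ_[p] (Module.End ℤ_[p] (∀ i, Fin (N i) → ℤ_[p]) × A)} {i : ι}
    (r : ℤ_[p]) (X : Module.End ℤ_[p] (∀ i, Fin (N i) → ℤ_[p])) (hr : r ≠ 0)
    (h : r • X ∈ QQ 𝒦 i) : X ∈ QQ 𝒦 i := by
  obtain ⟨s, hs, Y, hY, h1⟩ := h
  exact ⟨s * r, mul_ne_zero hs hr, Y, hY, by rw [h1, mul_smul]⟩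

/-- The brackets of the images. -/
theorem bracket_comp (hg : LieG J g) {Y Z : Module.End ℤ_[p] (∀ i, Fin (N i) → ℤ_[p]) × A}
    (hY : Y ∈ g) (hZ : Z ∈ g) (i : ι) :
    (Y * Z - Z * Y).1 * piP p N i = (Y.1 * piP p N i) * (Z.1 * piP p N i) -
      (Z.1 * piP p N i) * (Y.1 * piP p N i) := by
  have h1 : ∀ {Y : Module.End ℤ_[p] (∀ i, Fin (N i) → ℤ_[p]) × A}, Y ∈ g →
      piP p N i * Y.1 = Y.1 * piP p N i := fun {Y} hY => LinearMap.ext fun x => hg.comm Y hY i x
  have h2 : piP p N i * piP p N i = piP p N i := LinearMap.ext fun x => piP_self i x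
  rw [Prod.fst_sub, Prod.fst_mul, Prod.fst_mul, sub_mul]
  have h3 : ∀ {Y Z : Module.End ℤ_[p] (∀ i, Fin (N i) → ℤ_[p]) × A}, Y ∈ g → Z ∈ g →
      (Y.1 * piP p N i) * (Z.1 * piP p N i) = Y.1 * Z.1 * piP p N i := by
    intro Y Z hY hZ
    rw [mul_assoc, ← mul_assoc (piP p N i), h1 hZ, mul_assoc Z.1, h2, mul_assoc]
  rw [h3 hY hZ, h3 hZ hY]

/-- **Intersections of ideals.** -/
theorem Full.inf (hp3 : 3 ≤ p) (hg : LieG J g) {i : ι} (hN : 0 < N i)
    {𝒦 𝒦' : Submodule ℤ_[p] (Module.End ℤ_[p] (∀ i, Fin (N i) → ℤ_[p]) × A)}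
    (h : IsIdl g 𝒦) (h' : IsIdl g 𝒦') (hF : Full J 𝒦 i) (hF' : Full J 𝒦' i) :
    IsIdl g (𝒦 ⊓ 𝒦') ∧ Full J (𝒦 ⊓ 𝒦') i := by
  refine ⟨⟨inf_le_left.trans h.1, fun Y hY Z hZ => ⟨h.2 Y hY Z hZ.1, h'.2 Y hY Z hZ.2⟩⟩, ?_⟩
  have key : Si (piB J) (piP p N) i ≤ QQ (𝒦 ⊓ 𝒦') i := by
    refine Si_le_of_brackets hp3 (piB_self hg.alt) piP_self piB_piP (exists_unit_pair hg.unim hN) ?_
    intro X hX X' hX'
    obtain ⟨r, hr, Y, hY, h1⟩ := hF X hX
    obtain ⟨r', hr', Y', hY', h1'⟩ := hF' X' hX'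
    refine ⟨r * r', mul_ne_zero hr hr', Y * Y' - Y' * Y, ⟨?_, h'.2 Y (h.1 hY) Y' hY'⟩, ?_⟩
    · have h2 := 𝒦.neg_mem (h.2 Y' (h'.1 hY') Y hY)
      rwa [neg_sub] at h2
    · rw [bracket_comp hg (h.1 hY) (h'.1 hY'), h1, h1', smul_mul_smul_comm, smul_mul_smul_comm,
        smul_sub, mul_comm r' r]
  exact fun X hX => key hX

/-- **The counting argument.** -/
theorem Full.count (hg : LieG J g) {i : ι} (hF : Full J g i)
    {𝒦 : Submodule ℤ_[p] (Module.End ℤ_[p] (∀ i, Fin (N i) → ℤ_[p]) × A)}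
    (h : IsIdl g 𝒦) {m : Type} [Fintype m]
    (φ : Module.End ℤ_[p] (∀ i, Fin (N i) → ℤ_[p]) × A →ₗ[ℤ_[p]] (m → ℤ_[p]))
    (hφ : ∀ Y ∈ g, φ Y = 0 → Y ∈ 𝒦) (hm : Fintype.card m < Fintype.card (Pr (N i))) :
    Full J 𝒦 i := by
  classical
  choose r hr Y hY hYX using fun ab : Pr (N i) => hF _
    (so_mem_Si' (piB J) (piP p N) (ev_pi i ab.1.1) (ev_pi i ab.1.2))
  let Φ : (Pr (N i) → ℤ_[p]) →ₗ[ℤ_[p]] (m → ℤ_[p]) :=
    ∑ ab, (LinearMap.proj ab : (Pr (N i) → ℤ_[p]) →ₗ[ℤ_[p]] ℤ_[p]).smulRight (φ (Y ab))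
  have hΦ : ∀ l, Φ l = φ (∑ ab, l ab • Y ab) := by
    intro l
    rw [map_sum, LinearMap.sum_apply]
    exact Finset.sum_congr rfl fun ab _ => (map_smul φ _ _).symm
  have hninj : ¬ Function.Injective Φ := fun hinj =>
    absurd (card_le_of_injective ℤ_[p] Φ hinj) (not_le.2 hm)
  obtain ⟨l, hl0, hl⟩ : ∃ l, l ≠ 0 ∧ Φ l = 0 := by
    by_contra hcon
    push Not at hcon
    refine hninj ((injective_iff_map_eq_zero Φ).2 fun l hl => ?_)
    by_contra hne
    exact hcon l hne hl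
  have hmem : ∑ ab, l ab • Y ab ∈ g := Submodule.sum_mem _ fun ab _ => Submodule.smul_mem _ _ (hY ab)
  have hK : ∑ ab, l ab • Y ab ∈ 𝒦 := hφ _ hmem (by rw [← hΦ, hl])
  set X := ∑ ab, (l ab * r ab) • so (piB J) (ev i ab.1.1) (ev i ab.1.2) with hX
  have hXS : X ∈ Si (piB J) (piP p N) i := Submodule.sum_mem _ fun ab _ => Submodule.smul_mem _ _
    (so_mem_Si' _ _ (ev_pi i _) (ev_pi i _))
  have hX0 : X ≠ 0 := by
    intro h0
    apply hl0
    have h1 := so_ev_indep hg.unim hg.alt h0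
    funext ab
    exact (mul_eq_zero.1 (congrFun h1 ab)).resolve_right (hr ab)
  have hXK : X ∈ QQ 𝒦 i := by
    refine ⟨1, one_ne_zero, _, hK, ?_⟩
    rw [one_smul, hX, Prod.fst_sum, Finset.sum_mul]
    refine Finset.sum_congr rfl fun ab _ => ?_
    rw [Prod.smul_fst, smul_mul_assoc, hYX, mul_smul]
  have key : Si (piB J) (piP p N) i ≤ QQ 𝒦 i := by
    refine Si_le_of_ideal (piB_self hg.alt) piP_self piB_piP (B_nd' hg.unim hg.alt) QQ_sat ?_ hXS
      hXK hX0
    intro X' hX' X'' hX'' _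
    obtain ⟨r, hr, Y, hY, h1⟩ := hF X' hX'
    obtain ⟨r', hr', Y', hY', h1'⟩ := hX''
    refine ⟨r * r', mul_ne_zero hr hr', Y * Y' - Y' * Y, h.2 Y hY Y' hY', ?_⟩
    rw [bracket_comp hg hY (h.1 hY'), h1, h1', smul_mul_smul_comm, smul_mul_smul_comm,
      smul_sub, mul_comm r' r]
  exact fun X hX => key hX

/-- The elements with zero component. -/
def Kj (g : Submodule ℤ_[p] (Module.End ℤ_[p] (∀ i, Fin (N i) → ℤ_[p]) × A)) (j : ι) :
    Submodule ℤ_[p] (Module.End ℤ_[p] (∀ i, Fin (N i) → ℤ_[p]) × A) where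
  carrier := {Y | Y ∈ g ∧ Y.1 * piP p N j = 0}
  zero_mem' := ⟨g.zero_mem, by rw [Prod.fst_zero, zero_mul]⟩
  add_mem' := by
    rintro Y Y' ⟨h, h1⟩ ⟨h', h1'⟩
    exact ⟨g.add_mem h h', by rw [Prod.fst_add, add_mul, h1, h1', add_zero]⟩
  smul_mem' := by
    rintro c Y ⟨h, h1⟩
    exact ⟨g.smul_mem c h, by rw [Prod.smul_fst, smul_mul_assoc, h1, smul_zero]⟩

theorem Kj_idl (hg : LieG J g) (j : ι) : IsIdl g (Kj g j) := by
  refine ⟨fun Y hY => hY.1, fun Y hY Z hZ => ⟨hg.br Y hY Z hZ.1, ?_⟩⟩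
  rw [bracket_comp hg hY hZ.1, hZ.2, mul_zero, zero_mul, sub_zero]

/-- The elements with zero value. -/
def Kt (g : Submodule ℤ_[p] (Module.End ℤ_[p] (∀ i, Fin (N i) → ℤ_[p]) × A)) :
    Submodule ℤ_[p] (Module.End ℤ_[p] (∀ i, Fin (N i) → ℤ_[p]) × A) where
  carrier := {Y | Y ∈ g ∧ Y.2 = 0}
  zero_mem' := ⟨g.zero_mem, rfl⟩
  add_mem' := by
    rintro Y Y' ⟨h, h1⟩ ⟨h', h1'⟩
    exact ⟨g.add_mem h h', by rw [Prod.snd_add, h1, h1', add_zero]⟩
  smul_mem' := by
    rintro c Y ⟨h, h1⟩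
    exact ⟨g.smul_mem c h, by rw [Prod.smul_snd, h1, smul_zero]⟩

theorem Kt_idl (hg : LieG J g) : IsIdl g (Kt g) := by
  refine ⟨fun Y hY => hY.1, fun Y hY Z hZ => ⟨hg.br Y hY Z hZ.1, ?_⟩⟩
  rw [Prod.snd_sub, Prod.snd_mul, Prod.snd_mul, hZ.2, mul_zero, zero_mul, sub_zero]

/-- Pairs of different ranks, the larger one. -/
theorem full_gt (hg : LieG J g) {i j : ι} (hF : Full J g i) (h : N j < N i) : Full J (Kj g j) i := by
  refine hF.count hg (Kj_idl hg j) (m := Pr (N j))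
    (LinearMap.pi fun ab => ((piB J).flip (ev j ab.1.2)).comp
      ((LinearMap.applyₗ (ev j ab.1.1)).comp (LinearMap.fst ℤ_[p] _ _))) ?_ (card_Pr_lt h)
  intro Y hY h0
  refine ⟨hY, ?_⟩
  have halt := piB_self hg.alt
  have h1 : ∀ a b, a ≤ b → piB J (Y.1 (ev j a)) (ev j b) = 0 := fun a b hab =>
    congrFun h0 ⟨(a, b), hab⟩
  have h2 : ∀ a b, piB J (Y.1 (ev j a)) (ev j b) = 0 := by
    intro a b
    rcases le_total a b with hab | hab
    · exact h1 a b hab
    · have h3 := hg.inv Y hY (ev j a) (ev j b)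
      have h4 := B_anti _ halt (ev j a) (Y.1 (ev j b))
      rw [h1 b a hab, neg_zero] at h4
      rw [h4, add_zero] at h3
      exact h3
  refine LinearMap.ext fun x => B_nd' hg.unim hg.alt _ fun w => ?_
  rw [Module.End.mul_apply, ← piP_self j x, ← hg.comm Y hY, piB_piP, ← sum_ev j x,
    ← sum_ev j w]
  simp only [map_sum, map_smul, LinearMap.sum_apply, LinearMap.smul_apply, h2, smul_zero,
    Finset.sum_const_zero]

/-- Pairs of different ranks, the smaller one. -/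
theorem full_lt (hg : LieG J g) {i j : ι} (hFi : Full J g i) (hFj : Full J g j)
    (h : N i < N j) : Full J (Kj g j) i := by
  intro X hX
  obtain ⟨r, hr, Y, hY, h1⟩ := hFi X hX
  have hj := full_gt hg hFj h
  have hc : ∀ x, piP p N j (Y.1 x) = Y.1 (piP p N j x) := hg.comm Y hY j
  have h2 := two_mem_Si (V := Y.1 * piP p N j) (j := j) hg.unim hg.alt (fun x y => by
    rw [Module.End.mul_apply, Module.End.mul_apply]
    have h3 := hg.inv Y hY (piP p N j x) (piP p N j y)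
    have e1 : piB J (Y.1 (piP p N j x)) (piP p N j y) = piB J (Y.1 (piP p N j x)) y := by
      rw [← piB_piP, hc, piP_self]
    have e2 : piB J (piP p N j x) (Y.1 (piP p N j y)) = piB J x (Y.1 (piP p N j y)) := by
      rw [piB_piP, hc, piP_self]
    rw [e1, e2] at h3
    exact h3) (fun x => by rw [Module.End.mul_apply, Module.End.mul_apply, piP_self]) (fun x => by
    rw [Module.End.mul_apply, hc, piP_self])
  obtain ⟨s, hs, Z, hZ, h3⟩ := hj _ h2
  refine ⟨s * 2 * r, mul_ne_zero (mul_ne_zero hs two_ne) hr, (s * 2) • Y - Z,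
    ⟨g.sub_mem (g.smul_mem _ hY) hZ.1, ?_⟩, ?_⟩
  · rw [Prod.fst_sub, Prod.smul_fst, sub_mul, smul_mul_assoc, h3, smul_smul, sub_self]
  · rw [Prod.fst_sub, Prod.smul_fst, sub_mul, smul_mul_assoc, hZ.2, h1, sub_zero, smul_smul]

end goursat

end

end Pool.Agent.U175.LP
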