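import Mathlib
import Pool.Agent.U175.LP.T10

/-!
# Individually large images modulo `p` give all tangent vectors
-/

set_option linter.unusedSectionVars false

namespace Pool.Agent.U175.LP

open PadicInt Module Matrix Pool.Agent.U175.LP.Pub

noncomputable section

variable {p : ℕ} [hp : Fact p.Prime] {ι : Type} [Fintype ι] [DecidableEq ι] {N : ι → ℕ}

section restr

variable (P : ι → Prop) [DecidablePred P]

/-- The restriction to some of the summands. -/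
def rest : (∀ i, Fin (N i) → ℤ_[p]) →ₗ[ℤ_[p]] (∀ i : {i // P i}, Fin (N i.1) → ℤ_[p]) :=
  LinearMap.pi fun i => LinearMap.proj i.1

/-- The extension by zero. -/
def ext0 : (∀ i : {i // P i}, Fin (N i.1) → ℤ_[p]) →ₗ[ℤ_[p]] (∀ i, Fin (N i) → ℤ_[p]) :=
  LinearMap.pi fun i => if h : P i then LinearMap.proj (⟨i, h⟩ : {i // P i}) else 0

variable {P}

theorem rest_apply (x : ∀ i, Fin (N i) → ℤ_[p]) (i : {i // P i}) : rest P x i = x i.1 := rfl

theorem ext0_pos (y : ∀ i : {i // P i}, Fin (N i.1) → ℤ_[p]) {i : ι} (h : P i) :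
    ext0 P y i = y ⟨i, h⟩ := by
  rw [ext0, LinearMap.pi_apply, dif_pos h]
  rfl

theorem ext0_neg (y : ∀ i : {i // P i}, Fin (N i.1) → ℤ_[p]) {i : ι} (h : ¬ P i) :
    ext0 P y i = 0 := by
  rw [ext0, LinearMap.pi_apply, dif_neg h]
  rfl

theorem rest_ext0 (y : ∀ i : {i // P i}, Fin (N i.1) → ℤ_[p]) : rest P (ext0 P y) = y := by
  funext i
  rw [rest_apply, ext0_pos y i.2]

theorem ext0_rest_piP {j : ι} (hj : P j) (x : ∀ i, Fin (N i) → ℤ_[p]) :
    ext0 P (rest P (piP p N j x)) = piP p N j x := by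
  funext i
  by_cases hi : P i
  · rw [ext0_pos _ hi, rest_apply]
  · rw [ext0_neg _ hi, piP_apply, Pi.single_eq_of_ne]
    rintro rfl
    exact hi hj

theorem rest_piP {j : ι} (hj : P j) (x : ∀ i, Fin (N i) → ℤ_[p]) :
    rest P (piP p N j x) = piP p (fun i : {i // P i} => N i.1) ⟨j, hj⟩ (rest P x) := by
  funext i
  rw [rest_apply, piP_apply, piP_apply]
  by_cases hi : i.1 = j
  · obtain ⟨i, hi'⟩ := i
    simp only at hi
    subst hi
    rw [Pi.single_eq_same, Pi.single_eq_same, rest_apply]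
  · rw [Pi.single_eq_of_ne hi, Pi.single_eq_of_ne (fun h => hi (congrArg Subtype.val h))]

variable (P) in
/-- The compression of operators. -/
def cmp : Module.End ℤ_[p] (∀ i, Fin (N i) → ℤ_[p]) →ₗ[ℤ_[p]]
    Module.End ℤ_[p] (∀ i : {i // P i}, Fin (N i.1) → ℤ_[p]) where
  toFun U := rest P ∘ₗ U ∘ₗ ext0 P
  map_add' U V := by
    refine LinearMap.ext fun x => ?_
    simp only [LinearMap.comp_apply, LinearMap.add_apply, map_add]
  map_smul' c U := by
    refine LinearMap.ext fun x => ?_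
    simp only [LinearMap.comp_apply, LinearMap.smul_apply, map_smul, RingHom.id_apply]

theorem cmp_apply (U : Module.End ℤ_[p] (∀ i, Fin (N i) → ℤ_[p]))
    (y : ∀ i : {i // P i}, Fin (N i.1) → ℤ_[p]) : cmp P U y = rest P (U (ext0 P y)) := rfl

theorem cmp_Si {J : ∀ i, Matrix (Fin (N i)) (Fin (N i)) ℤ_[p]} {i : ι} (hi : P i)
    {X : Module.End ℤ_[p] (∀ i, Fin (N i) → ℤ_[p])} (hX : X ∈ Si (piB J) (piP p N) i) :
    cmp P X ∈ Si (piB fun i : {i // P i} => J i.1) (piP p fun i : {i // P i} => N i.1)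
      (⟨i, hi⟩ : {i // P i}) := by
  induction hX using Submodule.span_induction with
  | mem X hX =>
    obtain ⟨u, w, rfl⟩ := hX
    have h1 : cmp P (so (piB J) (piP p N i u) (piP p N i w)) =
        so (piB fun i : {i // P i} => J i.1)
          (piP p (fun i : {i // P i} => N i.1) ⟨i, hi⟩ (rest P u))
          (piP p (fun i : {i // P i} => N i.1) ⟨i, hi⟩ (rest P w)) := by
      refine LinearMap.ext fun y => ?_
      rw [cmp_apply, so_apply, so_apply, map_add, map_smul, map_smul, rest_piP hi, rest_piP hi]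
      have h2 : ∀ u, piB J (piP p N i u) (ext0 P y) = piB (fun i : {i // P i} => J i.1)
          (piP p (fun i : {i // P i} => N i.1) ⟨i, hi⟩ (rest P u)) y := by
        intro u
        rw [piP_apply, piB_single_left, piP_apply, piB_single_left, ext0_pos y hi, rest_apply]
      rw [h2, h2]
    rw [h1]
    exact so_mem_Si _ _ _ _ _
  | zero => rw [map_zero]; exact Submodule.zero_mem _
  | add X X' _ _ h h' => rw [map_add]; exact Submodule.add_mem _ h h'
  | smul r X _ h => rw [map_smul]; exact Submodule.smul_mem _ _ h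

end restr

section main

variable {Γ : Type} [Group Γ] {J : ∀ i, Matrix (Fin (N i)) (Fin (N i)) ℤ_[p]}
  {ρ : ∀ i, Γ →* Matrix (Fin (N i)) (Fin (N i)) ℤ_[p]} {κ : Γ →* ℤ_[p]ˣ} {c : ι → ℕ}
  {d : ℕ} {τ : Γ →* Matrix (Fin d) (Fin d) ℤ_[p]}

/-- The hypothesis for one lattice. -/
def LargeAt (J : ∀ i, Matrix (Fin (N i)) (Fin (N i)) ℤ_[p])
    (ρ : ∀ i, Γ →* Matrix (Fin (N i)) (Fin (N i)) ℤ_[p]) {d : ℕ}
    (τ : Γ →* Matrix (Fin d) (Fin d) ℤ_[p]) (i : ι) : Prop :=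
  ∃ (K : Type) (v : K → Fin (N i) → ZMod p), Connected (J i) v ∧ ∀ a, ∃ g : Γ,
    Transvects J ρ τ i (v a) g

theorem tanA_map {A A' : Type*} [Ring A] [Algebra ℤ_[p] A] [Ring A'] [Algebra ℤ_[p] A']
    {R : Γ →* A} {R' : Γ →* A'} (f : A →ₗ[ℤ_[p]] A') (hf1 : f 1 = 1) (hR : ∀ s, f (R s) = R' s)
    {X : A} (h : TanA p R X) : TanA p R' (f X) := by
  intro m
  obtain ⟨n₀, h0⟩ := h m
  refine ⟨n₀, fun n hn => ?_⟩
  obtain ⟨σ, Z, hσ⟩ := h0 n hn
  refine ⟨σ, f Z, ?_⟩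
  rw [← hR, hσ, map_add, hf1, map_smul, map_add, map_smul]

/-- The elements of the Lie algebra for one lattice, zero on the lattices of the same rank. -/
theorem full_base (hp5 : 5 ≤ p) (hJ : ∀ i, (J i)ᵀ = -J i) (hJd : ∀ i, IsUnit (J i).det)
    (hB : ∀ i s x y, Matrix.toBilin' (J i) (repT κ (c i) (ρ i) s x) (repT κ (c i) (ρ i) s y) =
      (κ s : ℤ_[p]) * Matrix.toBilin' (J i) x y) {i : ι} (h : LargeAt J ρ τ i)
    {X : Module.End ℤ_[p] (∀ i, Fin (N i) → ℤ_[p])} (hX : X ∈ Si (piB J) (piP p N) i) :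
    ∃ r : ℤ_[p], r ≠ 0 ∧ ∃ Y, TanA p (RR (piR fun i => repT κ (c i) (ρ i)) κ τ) Y ∧ Y.2.2 = 0 ∧
      Y.1 * piP p N i = r • X ∧ (∀ j, j ≠ i → N j = N i → Y.1 * piP p N j = 0) ∧
      (N i * (N i + 1) ≤ 2 * d ^ 2 → Y.2.1 = 0) := by
  classical
  obtain ⟨K, v, hc, hv⟩ := h
  let P : ι → Prop := fun j => N j = N i
  have hi : P i := rfl
  -- the general statement
  have key : ∀ (d' : ℕ) (τ' : Γ →* Matrix (Fin d') (Fin d') ℤ_[p])
      (gM : Matrix (Fin d) (Fin d) ℤ_[p] →ₗ[ℤ_[p]] Matrix (Fin d') (Fin d') ℤ_[p]),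
      gM 1 = 1 → (∀ s, gM (τ s) = τ' s) →
      (∀ a, ∃ g : Γ, (∃ c : ZMod p, c ≠ 0 ∧
        ∀ x, (red (ρ i g)).mulVec x = x + (c * dot (J i) (v a) x) • v a) ∧
        (∀ j, j ≠ i → N j = N i → red (ρ j g) = 1) ∧ red (τ' g) = 1) →
      ∃ r : ℤ_[p], r ≠ 0 ∧ ∃ Y, TanA p (RR (piR fun i => repT κ (c i) (ρ i)) κ τ) Y ∧
        Y.2.2 = 0 ∧ Y.1 * piP p N i = r • X ∧
        (∀ j, j ≠ i → N j = N i → Y.1 * piP p N j = 0) ∧ gM Y.2.1 = 0 := by
    intro d' τ' gM hg1 hgτ hv'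
    have h1 := tan_large (p := p) (ι := {j // P j}) (N := fun j => N j.1) (J := fun j => J j.1)
      (ρ := fun j => ρ j.1) (κ := κ) (c := fun j => c j.1) (τ := τ') hp5 (fun j => hJ j.1)
      (fun j => hJd j.1) (fun j => hB j.1) (i := ⟨i, hi⟩) hc (fun a => by
        obtain ⟨g, h2, h3, h4⟩ := hv' a
        refine ⟨g, h2, fun j hj => h3 j.1 (fun h => hj (Subtype.ext h)) j.2, h4⟩) (cmp_Si hi hX)
    let f : Module.End ℤ_[p] (∀ i, Fin (N i) → ℤ_[p]) × (Matrix (Fin d) (Fin d) ℤ_[p] × ℤ_[p])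
        →ₗ[ℤ_[p]] Module.End ℤ_[p] (∀ i : {i // P i}, Fin (N i.1) → ℤ_[p]) ×
          (Matrix (Fin d') (Fin d') ℤ_[p] × ℤ_[p]) :=
      (cmp P).prodMap (gM.prodMap LinearMap.id)
    have hfa : ∀ Y, f Y = (cmp P Y.1, (gM Y.2.1, Y.2.2)) := fun Y => rfl
    obtain ⟨r, Y, hr, hY, hfY⟩ := TanA_lift (by omega) f (by
        rw [hfa]
        refine Prod.ext ?_ (Prod.ext hg1 rfl)
        refine LinearMap.ext fun y => ?_
        change rest P (ext0 P y) = y
        exact rest_ext0 y) (R := RR (piR fun i => repT κ (c i) (ρ i)) κ τ) (fun s => by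
        rw [hfa]
        refine Prod.ext ?_ (Prod.ext (hgτ s) rfl)
        refine LinearMap.ext fun y => funext fun j => ?_
        change piR (fun i => repT κ (c i) (ρ i)) s (ext0 P y) j.1 = _
        rw [piR_apply, ext0_pos y j.2]
        rfl) h1
    rw [hfa] at hfY
    have e1 : cmp P Y.1 = r • cmp P X := congrArg Prod.fst hfY
    have e2 : gM Y.2.1 = r • 0 := congrArg (fun z => z.2.1) hfY
    have e3 : Y.2.2 = r • 0 := congrArg (fun z => z.2.2) hfY
    have hcomm : ∀ q x, piP p N q (Y.1 x) = Y.1 (piP p N q x) := fun q x =>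
      tan_comm (π := piP p N) (piP_rho _) (M := Y.2) hY q x
    have e4 : ∀ j, P j → ∀ x, Y.1 (piP p N j x) = r • X (piP p N j x) := by
      intro j hj x
      have h2 := LinearMap.congr_fun e1 (rest P (piP p N j x))
      rw [cmp_apply, LinearMap.smul_apply, cmp_apply, ext0_rest_piP hj] at h2
      have h3 : ∀ x, piP p N j (X x) = X (piP p N j x) := fun x =>
        Si_comm _ _ piP_self (fun q r x h => piP_ne q r x h) piB_piP hX j x
      have h4 : Y.1 (piP p N j x) = piP p N j (Y.1 (piP p N j x)) := by rw [hcomm, piP_self]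
      have h5 : X (piP p N j x) = piP p N j (X (piP p N j x)) := by rw [h3, piP_self]
      rw [h4, h5, ← map_smul, piP_apply, piP_apply]
      congr 1
      exact congrFun h2 ⟨j, hj⟩
    refine ⟨r, hr, Y, hY, by rw [e3, smul_zero], ?_, ?_, by rw [e2, smul_zero]⟩
    · refine LinearMap.ext fun x => ?_
      rw [Module.End.mul_apply, e4 i hi, LinearMap.smul_apply, (Si_pi piP_self piB_piP hX x).1]
    · intro j hj hNj
      refine LinearMap.ext fun x => ?_
      rw [Module.End.mul_apply, e4 j hNj]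
      have h2 : X (piP p N j x) = 0 := by
        rw [← (Si_pi piP_self piB_piP hX _).1, piP_ne i j x (Ne.symm hj), map_zero]
      rw [h2, smul_zero]
      rfl
  by_cases hb : N i * (N i + 1) ≤ 2 * d ^ 2
  · obtain ⟨r, hr, Y, h1, h2, h3, h4, h5⟩ := key d τ LinearMap.id rfl (fun _ => rfl) fun a => by
      obtain ⟨g, h1, h2, h3⟩ := hv a
      exact ⟨g, h1, h2, h3 hb⟩
    exact ⟨r, hr, Y, h1, h2, h3, h4, fun _ => h5⟩
  · obtain ⟨r, hr, Y, h1, h2, h3, h4, -⟩ := key 0 1 0 (Subsingleton.elim _ _)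
      (fun _ => Subsingleton.elim _ _) fun a => by
      obtain ⟨g, h1, h2, -⟩ := hv a
      exact ⟨g, h1, h2, Subsingleton.elim _ _⟩
    exact ⟨r, hr, Y, h1, h2, h3, h4, fun h => absurd h hb⟩

variable (J ρ κ c τ) in
/-- The tangent vectors with multiplier zero. -/
def gg : Submodule ℤ_[p] (Module.End ℤ_[p] (∀ i, Fin (N i) → ℤ_[p]) ×
    (Matrix (Fin d) (Fin d) ℤ_[p] × ℤ_[p])) where
  carrier := {Y | TanA p (RR (piR fun i => repT κ (c i) (ρ i)) κ τ) Y ∧ Y.2.2 = 0}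
  zero_mem' := ⟨TanA_zero, rfl⟩
  add_mem' := by
    rintro Y Y' ⟨h, h1⟩ ⟨h', h1'⟩
    exact ⟨TanA_add h h', by rw [Prod.snd_add, Prod.snd_add, h1, h1', add_zero]⟩
  smul_mem' := by
    rintro r Y ⟨h, h1⟩
    exact ⟨TanA_smul r h, by rw [Prod.smul_snd, Prod.smul_snd, h1, smul_zero]⟩

/-- **Individually large images modulo `p` give all tangent vectors.** -/
theorem tan_large' (hp5 : 5 ≤ p) (hJ : ∀ i, (J i)ᵀ = -J i) (hJd : ∀ i, IsUnit (J i).det)
    (hB : ∀ i s x y, Matrix.toBilin' (J i) (repT κ (c i) (ρ i) s x) (repT κ (c i) (ρ i) s y) =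
      (κ s : ℤ_[p]) * Matrix.toBilin' (J i) x y) (h : ∀ i, LargeAt J ρ τ i) {i : ι}
    {X : Module.End ℤ_[p] (∀ i, Fin (N i) → ℤ_[p])} (hX : X ∈ Si (piB J) (piP p N) i) :
    TanA p (RR (piR fun i => repT κ (c i) (ρ i)) κ τ) (X, 0) := by
  classical
  rcases Nat.eq_zero_or_pos (N i) with hN | hN
  · -- rank zero
    have h0 : ∀ x : ∀ i, Fin (N i) → ℤ_[p], piP p N i x = 0 := by
      intro x
      rw [piP_apply]
      have h1 : x i = 0 := funext fun a => absurd a.2 (by omega)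
      rw [h1, Pi.single_zero]
    have h2 : X = 0 := LinearMap.ext fun x => by
      rw [← (Si_pi piP_self piB_piP hX x).1, h0, map_zero]
      rfl
    rw [h2]
    exact TanA_zero
  set g := gg ρ κ c τ with hg
  have hbase := fun i X (hX : X ∈ Si (piB J) (piP p N) i) => full_base (c := c) hp5 hJ hJd hB (h i) hX
  have hL : LieG J g := by
    refine ⟨hJd, hJ, ?_, ?_, ?_⟩
    · rintro Y ⟨hY, hY2⟩ Z ⟨hZ, hZ2⟩
      refine ⟨TanA_bracket hY hZ, ?_⟩
      rw [Prod.snd_sub, Prod.snd_sub, Prod.snd_mul, Prod.snd_mul, Prod.snd_mul, Prod.snd_mul, hY2,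
        hZ2, mul_zero, sub_zero]
    · rintro Y ⟨hY, hY2⟩ x y
      rw [tan_norm (M := Y.2.1) (c := Y.2.2) (piB_inv hB) hY x y, hY2, zero_mul]
    · rintro Y ⟨hY, hY2⟩ q x
      exact tan_comm (π := piP p N) (piP_rho _) (M := Y.2) hY q x
  have hF : ∀ i, Full J g i := by
    intro i X hX
    obtain ⟨r, hr, Y, h1, h2, h3, -, -⟩ := hbase i X hX
    exact ⟨r, hr, Y, ⟨h1, h2⟩, h3⟩
  -- the first ideal
  let 𝒦₀ : Submodule ℤ_[p] (Module.End ℤ_[p] (∀ i, Fin (N i) → ℤ_[p]) ×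
      (Matrix (Fin d) (Fin d) ℤ_[p] × ℤ_[p])) :=
    { carrier := {Y | Y ∈ g ∧ (∀ j, j ≠ i → N j = N i → Y ∈ Kj g j) ∧
        (N i * (N i + 1) ≤ 2 * d ^ 2 → Y ∈ Kt g)}
      zero_mem' := ⟨g.zero_mem, fun j _ _ => Submodule.zero_mem _, fun _ => Submodule.zero_mem _⟩
      add_mem' := by
        rintro Y Y' ⟨h1, h2, h3⟩ ⟨h1', h2', h3'⟩
        exact ⟨g.add_mem h1 h1', fun j hj hj' => Submodule.add_mem _ (h2 j hj hj') (h2' j hj hj'),
          fun hb => Submodule.add_mem _ (h3 hb) (h3' hb)⟩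
      smul_mem' := by
        rintro r Y ⟨h1, h2, h3⟩
        exact ⟨g.smul_mem r h1, fun j hj hj' => Submodule.smul_mem _ r (h2 j hj hj'),
          fun hb => Submodule.smul_mem _ r (h3 hb)⟩ }
  have h𝒦₀ : IsIdl g 𝒦₀ := ⟨fun Y hY => hY.1, fun Y hY Z hZ => ⟨hL.br Y hY Z hZ.1,
    fun j hj hj' => (Kj_idl hL j).2 Y hY Z (hZ.2.1 j hj hj'),
    fun hb => (Kt_idl hL).2 Y hY Z (hZ.2.2 hb)⟩⟩
  have h𝒦₀F : Full J 𝒦₀ i := by
    intro X hX
    obtain ⟨r, hr, Y, h1, h2, h3, h4, h5⟩ := hbase i X hX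
    exact ⟨r, hr, Y, ⟨⟨h1, h2⟩, fun j hj hj' => ⟨⟨h1, h2⟩, h4 j hj hj'⟩,
      fun hb => ⟨⟨h1, h2⟩, Prod.ext (h5 hb) h2⟩⟩, h3⟩
  -- the values
  have hKt : ∃ 𝒦₁, IsIdl g 𝒦₁ ∧ Full J 𝒦₁ i ∧ 𝒦₁ ≤ 𝒦₀ ∧ 𝒦₁ ≤ Kt g := by
    by_cases hb : N i * (N i + 1) ≤ 2 * d ^ 2
    · exact ⟨𝒦₀, h𝒦₀, h𝒦₀F, le_rfl, fun Y hY => hY.2.2 hb⟩
    · have h1 : Full J (Kt g) i := by
        refine (hF i).count hL (Kt_idl hL) (m := Fin d × Fin d)
          (LinearMap.pi fun ab =>
            { toFun := fun Y => Y.2.1 ab.1 ab.2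
              map_add' := fun _ _ => rfl
              map_smul' := fun _ _ => rfl }) ?_ ?_
        · intro Y hY h0
          refine ⟨hY, Prod.ext ?_ hY.2⟩
          ext a b
          exact congrFun h0 (a, b)
        · have h2 := card_Pr (N i)
          rw [Fintype.card_prod, Fintype.card_fin]
          have h3 : d ^ 2 = d * d := pow_two d
          omega
      obtain ⟨h2, h3⟩ := Full.inf (by omega) hL hN h𝒦₀ (Kt_idl hL) h𝒦₀F h1
      exact ⟨_, h2, h3, inf_le_left, inf_le_right⟩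
  obtain ⟨𝒦₁, h𝒦₁, h𝒦₁F, h𝒦₁0, h𝒦₁t⟩ := hKt
  -- the other lattices
  have hall : ∀ S : Finset ι, ∃ 𝒦, IsIdl g 𝒦 ∧ Full J 𝒦 i ∧ 𝒦 ≤ 𝒦₁ ∧
      ∀ j ∈ S, j ≠ i → 𝒦 ≤ Kj g j := by
    intro S
    induction S using Finset.induction_on with
    | empty => exact ⟨𝒦₁, h𝒦₁, h𝒦₁F, le_rfl, fun j hj => absurd hj (Finset.notMem_empty j)⟩
    | insert a S ha ih =>
      obtain ⟨𝒦, h1, h2, h3, h4⟩ := ih
      by_cases hai : a = i
      · refine ⟨𝒦, h1, h2, h3, fun j hj hji => ?_⟩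
        rcases Finset.mem_insert.1 hj with hja | hjS
        · exact absurd (hja.trans hai) hji
        · exact h4 j hjS hji
      · by_cases hNa : N a = N i
        · refine ⟨𝒦, h1, h2, h3, fun j hj hji => ?_⟩
          rcases Finset.mem_insert.1 hj with hja | hjS
          · subst hja
            exact fun Y hY => (h𝒦₁0 (h3 hY)).2.1 j hji hNa
          · exact h4 j hjS hji
        · have h5 : Full J (Kj g a) i := by
            rcases lt_or_gt_of_ne hNa with h6 | h6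
            · exact full_gt hL (hF i) h6
            · exact full_lt hL (hF i) (hF a) h6
          obtain ⟨h6, h7⟩ := Full.inf (by omega) hL hN h1 (Kj_idl hL a) h2 h5
          refine ⟨_, h6, h7, inf_le_left.trans h3, fun j hj hji => ?_⟩
          rcases Finset.mem_insert.1 hj with hja | hjS
          · subst hja
            exact inf_le_right
          · exact inf_le_left.trans (h4 j hjS hji)
  obtain ⟨𝒦, -, h2, h3, h4⟩ := hall Finset.univ
  obtain ⟨r, hr, Y, hY, hYX⟩ := h2 X hX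
  have hY1 : Y.1 = r • X := by
    refine LinearMap.ext fun x => ?_
    conv_lhs => rw [← piP_sum x, map_sum, ← Finset.add_sum_erase _ _ (Finset.mem_univ i)]
    rw [Finset.sum_eq_zero fun j hj => ?_, add_zero]
    · exact LinearMap.congr_fun hYX x
    · exact LinearMap.congr_fun (h4 j (Finset.mem_univ j) (Finset.ne_of_mem_erase hj) hY).2 x
  have hYt := h𝒦₁t (h3 hY)
  refine TanA_cancel_ne hr ?_
  have h5 : r • ((X, 0) : Module.End ℤ_[p] (∀ i, Fin (N i) → ℤ_[p]) ×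
      (Matrix (Fin d) (Fin d) ℤ_[p] × ℤ_[p])) = Y := by
    refine Prod.ext hY1.symm ?_
    rw [hYt.2, Prod.smul_snd, smul_zero]
  rw [h5]
  exact hYt.1.1

end main

end

end Pool.Agent.U175.LP
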