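import Mathlib
import Pool.Agent.N171.Ht2
import Pool.Agent.U175.LP.T4

/-!
# From forms on p-adic lattices to the cohomology: the base of the induction
-/

open CategoryTheory AlgebraicGeometry Finset Function

set_option linter.unusedSectionVars false
set_option linter.unusedVariables false

namespace Pool.Agent.U175.LP

universe u

open Pool.Agent.TH125.Gal Pool.Agent.TH118.SG Pool.Agent.V11219.IsoF Pool.Agent.V11219.Loc
  Pool.Agent.V11219.Sst Pool.Agent.H204R3.SP

open Pool.Agent.H914 Pool.Agent.H914.VarClass Pool.Agent.H914.VarClass.Obj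
  Pool.Agent.H914.WeilCohomology Pool.Agent.H281R3.HT Pool.Agent.W552

open Pool.Agent.N171.Ht (KP)

variable {p : ℕ} [hp : Fact p.Prime]

/-- Two alternating forms of which one is killed by the symplectic Lie algebra of the other one. -/
theorem prop_form {T k : Type*} [Field k] [CharZero k] {b φ : T → T → k}
    (hb : ∀ x y, b x y = - b y x) (hp : ∀ x y, φ x y = - φ y x)
    (h : ∀ u w x y, b u x * φ w y + b w x * φ u y + b u y * φ x w + b w y * φ x u = 0)
    (p q r s : T) : b p q * φ r s = b r s * φ p q := by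
  have e1 := h p q r s
  have e2 := h p r q s
  have e3 := h p s q r
  have a1 := hp r q
  have a2 := hp r p
  have a3 := hb r q
  have a4 := hp q p
  have a5 := hp s r
  have a6 := hb s q
  have a7 := hb s r
  rw [a1, a2] at e1
  rw [a3, a4] at e2
  rw [a5, a6, a7, a4] at e3
  linear_combination (1 / 2) * (e1 + e2 - e3)

theorem nondeg_T {T : Type*} [AddCommGroup T] [Module ℤ_[p] T]
    (B : T →ₗ[ℤ_[p]] T →ₗ[ℤ_[p]] ℤ_[p]) [Module.Finite ℤ_[p] T] [Module.Free ℤ_[p] T]
    (hnd : ∀ v, (∀ w, ¬ IsUnit (B v w)) → ∃ u, (p : ℤ_[p]) • u = v) {x : T}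
    (hx : ∀ w, B x w = 0) : x = 0 := by
  refine eq_zero_of_dvd_pow' (p := p) fun m => ?_
  have key : ∀ m : ℕ, ∃ z, x = (p : ℤ_[p]) ^ m • z ∧ ∀ w, B z w = 0 := by
    intro m
    induction m with
    | zero => exact ⟨x, by rw [pow_zero, one_smul], hx⟩
    | succ m ih =>
      obtain ⟨z, hz, hz0⟩ := ih
      obtain ⟨u, hu⟩ := hnd z fun w hw => by
        rw [hz0] at hw
        exact not_isUnit_zero hw
      refine ⟨u, by rw [hz, ← hu, smul_smul, pow_succ], fun w => ?_⟩
      have h1 := hz0 w
      rw [← hu, map_smul, LinearMap.smul_apply, smul_eq_mul] at h1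
      exact (mul_eq_zero.1 h1).resolve_left p_ne_zero
  obtain ⟨z, hz, -⟩ := key m
  exact ⟨z, hz⟩


/-- The map from the 2-adic integers to the coefficients. -/
noncomputable def aK (K : Type) [Field K] [Algebra ℚ_[p] K] : ℤ_[p] →+* K :=
  (algebraMap ℚ_[p] K).comp (algebraMap ℤ_[p] ℚ_[p])

theorem aK_ne {K : Type} [Field K] [Algebra ℚ_[p] K] {r : ℤ_[p]} (h : r ≠ 0) : aK K r ≠ 0 := by
  intro h0
  apply h
  have h1 : Function.Injective (aK K) :=
    (algebraMap ℚ_[p] K).injective.comp (FaithfulSMul.algebraMap_injective ℤ_[p] ℚ_[p])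
  exact h1 (h0.trans (map_zero _).symm)

section pull

variable {T : Type} [AddCommGroup T] [Module ℤ_[p] T] {K : Type} [Field K] [Algebra ℚ_[p] K]
  {S : Type} {A E : Type} [AddCommGroup A] [Module K A] [AddCommGroup E] [Module K E]

theorem upd_L (L : S → T →+ A) (x : S → T) [DecidableEq S] (s : S) (y : T) :
    (fun s' => L s' (update x s y s')) = update (fun s' => L s' (x s')) s (L s y) := by
  funext s'
  by_cases h : s' = s
  · subst h
    rw [update_self, update_self]
  · rw [update_of_ne h, update_of_ne h]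

/-- The restriction of a multilinear map to a lattice. -/
noncomputable def pullF (f : MultilinearMap K (fun _ : S => A) E) (L : S → T →+ A)
    (hL : ∀ s (r : ℤ_[p]) x, L s (r • x) = aK K r • L s x) (l : E →+ ℚ_[p])
    (hl : ∀ (r : ℤ_[p]) y, l (aK K r • y) = r • l y) :
    MultilinearMap ℤ_[p] (fun _ : S => T) ℚ_[p] where
  toFun x := l (f fun s => L s (x s))
  map_update_add' := by
    intro dec x s y z
    rw [upd_L, upd_L, upd_L, map_add, MultilinearMap.map_update_add, map_add]
  map_update_smul' := by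
    intro dec x s r y
    rw [upd_L, upd_L, hL, MultilinearMap.map_update_smul, hl]

theorem pullF_apply (f : MultilinearMap K (fun _ : S => A) E) (L : S → T →+ A)
    (hL : ∀ s (r : ℤ_[p]) x, L s (r • x) = aK K r • L s x) (l : E →+ ℚ_[p])
    (hl : ∀ (r : ℤ_[p]) y, l (aK K r • y) = r • l y) (x : S → T) :
    pullF f L hL l hl x = l (f fun s => L s (x s)) := rfl

/-- The coordinates. -/
noncomputable def crd {d : ℕ} (e : Module.Basis (Fin d) K E) (l : K →ₗ[ℚ_[p]] ℚ_[p]) (j : Fin d) :
    E →+ ℚ_[p] := l.toAddMonoidHom.comp (e.coord j).toAddMonoidHom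

theorem crd_apply {d : ℕ} (e : Module.Basis (Fin d) K E) (l : K →ₗ[ℚ_[p]] ℚ_[p]) (j : Fin d)
    (y : E) : crd e l j y = l (e.repr y j) := rfl

theorem l_aK (l : K →ₗ[ℚ_[p]] ℚ_[p]) (r : ℤ_[p]) (y : K) : l (aK K r * y) = r • l y := by
  have h1 : aK K r * y = (algebraMap ℤ_[p] ℚ_[p] r) • y := by
    rw [Algebra.smul_def]
    rfl
  rw [h1, map_smul]
  rfl

theorem crd_smul {d : ℕ} (e : Module.Basis (Fin d) K E) (l : K →ₗ[ℚ_[p]] ℚ_[p]) (j : Fin d)
    (r : ℤ_[p]) (y : E) : crd e l j (aK K r • y) = r • crd e l j y := by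
  rw [crd_apply, crd_apply, map_smul, Finsupp.smul_apply, smul_eq_mul, l_aK]

theorem eq_zero_of_crd {d : ℕ} (e : Module.Basis (Fin d) K E) {y : E}
    (h : ∀ (l : K →ₗ[ℚ_[p]] ℚ_[p]) j, crd e l j y = 0) : y = 0 := by
  apply e.repr.injective
  rw [map_zero]
  ext j
  exact (Module.forall_dual_apply_eq_zero_iff ℚ_[p] _).1 fun l => h l j

end pull

variable {k : Type u} [Field k] {𝒱 : VarClass k} {ops : CycleOps 𝒱}
  {W : WeilCohomology.{u, 0} ops} [Algebra ℚ_[p] W.K] {Γ : Type} [Group Γ] {χ : Γ →* W.Kˣ}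
  {ι : Type} [Fintype ι] [DecidableEq ι] {X : ι → GVar W Γ} {Z : GVar W Γ}
  {T : Type} [AddCommGroup T] [Module ℤ_[p] T]
  {ρ : Representation ℤ_[p] Γ T} {cy : Γ →* ℤ_[p]ˣ} {B : T →ₗ[ℤ_[p]] T →ₗ[ℤ_[p]] ℤ_[p]}
  {π : ι → Module.End ℤ_[p] T}

/-- The maps from the lattice to the transcendental cohomology. -/
structure LatData (χ : Γ →* W.Kˣ) (X : ι → GVar W Γ) (hG : ∀ i, IsGalois W χ (X i).X (X i).act)
    (ρ : Representation ℤ_[p] Γ T) (cy : Γ →* ℤ_[p]ˣ)
    (π : ι → Module.End ℤ_[p] T) (ε : ∀ i, T →+ transcendental W (X i).X) (c : ι → ℕ) : Prop where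
  smul : ∀ i (r : ℤ_[p]) x, ε i (r • x) = aK W.K r • ε i x
  proj : ∀ i x, ε i (π i x) = ε i x
  proj_ne : ∀ i j x, i ≠ j → ε i (π j x) = 0
  span : ∀ i, Submodule.span W.K (Set.range (ε i)) = ⊤
  act : ∀ i g x, rhoT (hG i) g (ε i x) = (χ g : W.K) ^ c i • ε i (ρ g x)
  chi : ∀ g, (χ g : W.K) = aK W.K (((cy g)⁻¹ : ℤ_[p]ˣ) : ℤ_[p])

variable {hG : ∀ i, IsGalois W χ (X i).X (X i).act} {ε : ∀ i, T →+ transcendental W (X i).X}
  {c : ι → ℕ}

theorem chi_zpow (h : LatData χ X hG ρ cy π ε c) (g : Γ) (m : ℤ) :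
    (((χ g) ^ m : W.Kˣ) : W.K) = aK W.K (((cy g) ^ (-m) : ℤ_[p]ˣ) : ℤ_[p]) := by
  have h1 : χ g = Units.map (aK (p := p) W.K : ℤ_[p] →* W.K) (cy g)⁻¹ := Units.ext (h.chi g)
  rw [h1, ← map_zpow, inv_zpow', Units.coe_map]
  rfl

/-- The maps to the sum. -/
noncomputable def sgl {S : Type} (ε : ∀ i, T →+ transcendental W (X i).X) (c' : S → ι) (s : S) :
    T →+ ∀ j, transcendental W (X j).X :=
  (AddMonoidHom.single (fun j => transcendental W (X j).X) (c' s)).comp (ε (c' s))

theorem sgl_apply {S : Type} (c' : S → ι) (s : S) (x : T) :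
    sgl ε c' s x = Pi.single (c' s) (ε (c' s) x) := rfl

theorem sgl_smul (h : LatData χ X hG ρ cy π ε c) {S : Type} (c' : S → ι) (s : S) (r : ℤ_[p])
    (x : T) : sgl ε c' s (r • x) = aK W.K r • sgl ε c' s x := by
  rw [sgl_apply, sgl_apply, h.smul, Pi.single_smul]

/-- Equivariance of the restrictions. -/
theorem isTW_pull (h : LatData χ X hG ρ cy π ε c) {S : Type} [Fintype S] [DecidableEq S]
    {m : ℤ} {Δ : Subgroup Γ} (hΔ : Δ.FiniteIndex)
    {E : Type} [AddCommGroup E] [Module W.K E] (τ : Γ → E →ₗ[W.K] E)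
    {d : ℕ} (e : Module.Basis (Fin d) W.K E) (t : Γ →* Matrix (Fin d) (Fin d) ℤ_[p])
    (ht : ∀ g i, τ g (e i) = ∑ j, aK W.K (t g j i) • e j)
    (f : MultilinearMap W.K (fun _ : S => ∀ j, transcendental W (X j).X) E)
    (hf : ∀ g ∈ Δ, ∀ x : S → ∀ j, transcendental W (X j).X,
      f (fun s j => rhoT (hG j) g (x s j)) = (((χ g) ^ m : W.Kˣ) : W.K) • τ g (f x))
    (c' : S → ι) (l : W.K →ₗ[ℚ_[p]] ℚ_[p]) :
    IsTW ρ S (tw cy ((∑ s, (c (c' s) : ℤ)) - m) t)
      (fun j => pullF f (sgl ε c') (sgl_smul h c') (crd e l j) (crd_smul e l j)) := by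
  refine ⟨Δ, hΔ, fun g hg j x => ?_⟩
  simp only [pullF_apply]
  set y := f (fun s => sgl ε c' s (x s)) with hy
  have h1 := hf g hg (fun s => sgl ε c' s (x s))
  have h2 : (fun s j => rhoT (hG j) g (sgl ε c' s (x s) j)) =
      fun s => ((χ g : W.K) ^ c (c' s)) • sgl ε c' s (ρ g (x s)) := by
    funext s j
    rw [sgl_apply, sgl_apply, Pi.smul_apply]
    by_cases hj : j = c' s
    · subst hj
      rw [Pi.single_eq_same, Pi.single_eq_same, h.act]
    · rw [Pi.single_eq_of_ne hj, Pi.single_eq_of_ne hj, map_zero, smul_zero]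
  rw [h2, MultilinearMap.map_smul_univ, ← hy] at h1
  have h3 : f (fun s => sgl ε c' s (ρ g (x s))) =
      aK W.K (((cy g) ^ ((∑ s, (c (c' s) : ℤ)) - m) : ℤ_[p]ˣ) : ℤ_[p]) • τ g y := by
    have h4 : (∏ s, (χ g : W.K) ^ c (c' s)) =
        (((χ g) ^ (∑ s, (c (c' s) : ℤ)) : W.Kˣ) : W.K) := by
      rw [← Nat.cast_sum, zpow_natCast, Finset.prod_pow_eq_pow_sum, Units.val_pow_eq_pow_val]
    rw [h4] at h1
    have h5 := congrArg (fun z => (((χ g) ^ (-(∑ s, (c (c' s) : ℤ))) : W.Kˣ) : W.K) • z) h1
    simp only [smul_smul, ← Units.val_mul, ← zpow_add] at h5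
    rw [neg_add_cancel, zpow_zero, Units.val_one, one_smul] at h5
    rw [h5, chi_zpow h]
    congr 4
    ring
  rw [h3, crd_smul]
  have h6 : crd e l j (τ g y) = ∑ i, t g j i • crd e l i y := by
    have h7 : τ g y = ∑ i, e.repr y i • τ g (e i) := by
      conv_lhs => rw [← e.sum_repr y, map_sum]
      exact Finset.sum_congr rfl fun i _ => map_smul _ _ _
    rw [crd_apply, h7]
    simp only [ht, map_sum, Finsupp.finsetSum_apply, map_smul, Finsupp.smul_apply, smul_eq_mul,
      Module.Basis.repr_self, Finsupp.single_apply, mul_ite, mul_one, mul_zero,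
      Finset.sum_ite_eq', Finset.mem_univ, if_true]
    refine Finset.sum_congr rfl fun i _ => ?_
    rw [mul_comm, l_aK]
    rfl
  rw [h6, Finset.smul_sum]
  refine Finset.sum_congr rfl fun i _ => ?_
  rw [tw_apply, Matrix.smul_apply, smul_eq_mul, mul_smul]



variable {hG : ∀ i, IsGalois W χ (X i).X (X i).act} {ε : ∀ i, T →+ transcendental W (X i).X}
  {c : ι → ℕ}

/-- The forms restricted to the lattice are killed. -/
theorem kill_pull (h : LatData χ X hG ρ cy π ε c) {S : Type} [Fintype S] [DecidableEq S]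
    {m : ℤ} {Δ : Subgroup Γ} (hΔ : Δ.FiniteIndex)
    {E : Type} [AddCommGroup E] [Module W.K E] (τ : Γ → E →ₗ[W.K] E)
    {d : ℕ} (e : Module.Basis (Fin d) W.K E) (t : Γ →* Matrix (Fin d) (Fin d) ℤ_[p])
    (ht : ∀ g i, τ g (e i) = ∑ j, aK W.K (t g j i) • e j)
    {i : ι} (hk : KillsAll ρ cy B π t i)
    (f : MultilinearMap W.K (fun _ : S => ∀ j, transcendental W (X j).X) E)
    (hf : ∀ g ∈ Δ, ∀ x : S → ∀ j, transcendental W (X j).X,
      f (fun s j => rhoT (hG j) g (x s j)) = (((χ g) ^ m : W.Kˣ) : W.K) • τ g (f x))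
    (c' : S → ι) (u w : T) (x : S → T) :
    ∑ s, f (fun s' => sgl ε c' s' (update x s (so B (π i u) (π i w) (x s)) s')) = 0 := by
  refine eq_zero_of_crd (p := p) e fun l j => ?_
  rw [map_sum]
  exact hk S _ _ (isTW_pull h hΔ τ e t ht f hf c' l) u w j x

/-- The form on the transcendental cohomology as a multilinear map. -/
noncomputable def rmul (W : WeilCohomology.{u, 0} ops) (Y : 𝒱.Obj) :
    MultilinearMap W.K (fun _ : Fin 2 => transcendental W Y) W.K :=
  (W.tr Y).compMultilinearMap ((MultilinearMap.mkPiAlgebraFin W.K 2 (W.H Y)).compLinearMap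
    fun _ => (transcendental W Y).subtype)

theorem rmul_apply (Y : 𝒱.Obj) (v : Fin 2 → transcendental W Y) :
    rmul W Y v = rform W Y (transcendental W Y) (v 0) (v 1) := by
  rw [rform_apply, bil_apply, rmul]
  simp [MultilinearMap.mkPiAlgebraFin_apply, List.ofFn_succ]

/-- The form on the transcendental cohomology and the form on the lattice. -/
theorem rform_prop (h : LatData χ X hG ρ cy π ε c) (halt : ∀ x, B x x = 0)
    (hππ : ∀ q x, π q (π q x) = π q x) (hBπ : ∀ q x y, B (π q x) y = B x (π q y))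
    (i : ι) (hk : KillsAll ρ cy B π (1 : Γ →* Matrix (Fin 1) (Fin 1) ℤ_[p]) i)
    (hmid : transcendental W (X i).X ≤ W.gr (X i).X (X i).X.dim) (hodd : Odd (X i).X.dim)
    (a₀ b₀ r s : T) :
    aK W.K (B (π i a₀) (π i b₀)) * rform W (X i).X (transcendental W (X i).X) (ε i r) (ε i s) =
      aK W.K (B (π i r) (π i s)) * rform W (X i).X (transcendental W (X i).X) (ε i a₀) (ε i b₀) := by
  set R := rform W (X i).X (transcendental W (X i).X) with hR
  have hRalt : ∀ x y, R x y = - R y x := by
    intro x y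
    have h1 := form_alt (P := (⟨(X i).X, 0⟩ : Polarized 𝒱)) (W := W) hmid hodd (x + y)
    have h2 := form_alt (P := (⟨(X i).X, 0⟩ : Polarized 𝒱)) (W := W) hmid hodd x
    have h3 := form_alt (P := (⟨(X i).X, 0⟩ : Polarized 𝒱)) (W := W) hmid hodd y
    change R (x + y) (x + y) = 0 at h1
    change R x x = 0 at h2
    change R y y = 0 at h3
    simp only [map_add, LinearMap.add_apply] at h1
    rw [h2, h3] at h1
    linear_combination h1
  -- the multilinear map
  set f : MultilinearMap W.K (fun _ : Fin 2 => ∀ j, transcendental W (X j).X) W.K :=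
    (rmul W (X i).X).compLinearMap fun _ => LinearMap.proj i with hf
  have hfa : ∀ v, f v = R (v 0 i) (v 1 i) := fun v => rmul_apply _ _
  have hinv : ∀ g ∈ (⊤ : Subgroup Γ), ∀ x : Fin 2 → ∀ j, transcendental W (X j).X,
      f (fun s j => rhoT (hG j) g (x s j)) =
        (((χ g) ^ ((X i).X.dim : ℤ) : W.Kˣ) : W.K) • (LinearMap.id : W.K →ₗ[W.K] W.K) (f x) := by
    intro g _ x
    rw [hfa, hfa, zpow_natCast, Units.val_pow_eq_pow_val, LinearMap.id_apply, smul_eq_mul]
    exact bil_act (hG i) g _ _
  have hkill := fun (u w : T) (x : Fin 2 → T) => kill_pull h (S := Fin 2)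
    (inferInstance : (⊤ : Subgroup Γ).FiniteIndex) (fun _ => LinearMap.id)
    (Module.Basis.singleton (Fin 1) W.K) 1 (fun g i => by
      rw [Fin.sum_univ_one, Subsingleton.elim i 0]
      simp) hk f hinv (fun _ => i) u w x
  have hkill' : ∀ u w x y : T, R (ε i (so B (π i u) (π i w) x)) (ε i y) +
      R (ε i x) (ε i (so B (π i u) (π i w) y)) = 0 := by
    intro u w x y
    have h1 := hkill u w ![x, y]
    rw [Fin.sum_univ_two] at h1
    simp only [hfa, sgl_apply, Pi.single_eq_same] at h1
    simpa using h1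
  -- values in the 2-adic numbers
  have key : ∀ l : W.K →ₗ[ℚ_[p]] ℚ_[p], ∀ a₀ b₀ r s : T,
      algebraMap ℤ_[p] ℚ_[p] (B (π i a₀) (π i b₀)) * l (R (ε i r) (ε i s)) =
        algebraMap ℤ_[p] ℚ_[p] (B (π i r) (π i s)) * l (R (ε i a₀) (ε i b₀)) := by
    intro l
    refine prop_form (b := fun x y => algebraMap ℤ_[p] ℚ_[p] (B (π i x) (π i y)))
      (φ := fun x y => l (R (ε i x) (ε i y))) ?_ ?_ ?_
    · intro x y
      rw [B_anti B halt, map_neg]
    · intro x y
      rw [hRalt, map_neg]
    · intro u w x y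
      have h1 := congrArg l (hkill' u w x y)
      have h2 : ∀ a b : T, B (π i a) b = B (π i a) (π i b) := by
        intro a b
        rw [← hBπ, hππ]
      simp only [so_apply, map_add, h.smul, h.proj, LinearMap.add_apply, map_smul,
        LinearMap.smul_apply, smul_eq_mul, l_aK, map_zero] at h1
      rw [h2 u x, h2 w x, h2 u y, h2 w y] at h1
      simp only [Algebra.smul_def] at h1
      linear_combination h1
  refine sub_eq_zero.1 ((Module.forall_dual_apply_eq_zero_iff ℚ_[p] _).1 fun l => ?_)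
  have h1 := key l a₀ b₀ r s
  have h2 := fun r y => l_aK l r y
  rw [map_sub]
  have h3 : ∀ (r : ℤ_[p]) (y : W.K), l (aK W.K r * y) = algebraMap ℤ_[p] ℚ_[p] r * l y := by
    intro r y
    rw [l_aK, Algebra.smul_def]
  rw [h3, h3, h1, sub_self]

/-- Multilinear maps are determined by their values on the lattices. -/
theorem zero_of_lat (h : LatData χ X hG ρ cy π ε c) {S : Type} [Fintype S] {E : Type}
    [AddCommGroup E] [Module W.K E]
    (g : MultilinearMap W.K (fun _ : S => ∀ j, transcendental W (X j).X) E)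
    (hg : ∀ (c' : S → ι) (x : S → T), g (fun s => sgl ε c' s (x s)) = 0) : g = 0 := by
  classical
  have hs : (⊤ : Submodule W.K (∀ j, transcendental W (X j).X)) ≤
      Submodule.span W.K {y | ∃ j x, y = Pi.single j (ε j x)} := by
    intro y _
    have h1 : y = ∑ j, Pi.single j (y j) := (Finset.univ_sum_single y).symm
    rw [h1]
    refine Submodule.sum_mem _ fun j _ => ?_
    have h2 : y j ∈ Submodule.span W.K (Set.range (ε j)) := by
      rw [h.span]
      exact Submodule.mem_top
    have h3 := Submodule.mem_map_of_mem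
      (f := LinearMap.single W.K (fun j => transcendental W (X j).X) j) h2
    rw [Submodule.map_span] at h3
    refine Submodule.span_mono ?_ h3
    rintro _ ⟨_, ⟨x, rfl⟩, rfl⟩
    exact ⟨j, x, rfl⟩
  refine Module.Basis.ext_multilinear (fun _ => Module.Basis.ofSpan hs) fun v => ?_
  have h4 : ∀ s, ∃ j x, (Module.Basis.ofSpan hs (v s) : ∀ j, transcendental W (X j).X) =
      Pi.single j (ε j x) := fun s => Module.Basis.ofSpan_subset hs ⟨v s, rfl⟩
  choose c' x hx using h4
  have h5 : (fun s => (Module.Basis.ofSpan hs (v s) : ∀ j, transcendental W (X j).X)) =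
      fun s => sgl ε c' s (x s) := funext fun s => hx s
  rw [h5, hg]
  rfl

/-- The operators that kill a multilinear map, in one piece. -/
def KS {S : Type} [Fintype S] [DecidableEq S] {E : Type} [AddCommGroup E] [Module W.K E]
    (f : MultilinearMap W.K (fun _ : S => ∀ j, transcendental W (X j).X) E) (i : ι) :
    Submodule W.K (Module.End W.K (transcendental W (X i).X)) where
  carrier := {Y | ∀ z : S → ∀ j, transcendental W (X j).X,
    ∑ s, f (update z s (Pi.single i (Y (z s i)))) = 0}
  zero_mem' := by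
    intro z
    refine Finset.sum_eq_zero fun s _ => ?_
    refine f.map_coord_zero s ?_
    rw [update_self, LinearMap.zero_apply, Pi.single_zero]
  add_mem' := by
    intro Y Y' hY hY' z
    simp only [LinearMap.add_apply, Pi.single_add, MultilinearMap.map_update_add,
      Finset.sum_add_distrib]
    rw [hY z, hY' z, add_zero]
  smul_mem' := by
    intro r Y hY z
    simp only [LinearMap.smul_apply, Pi.single_smul, MultilinearMap.map_update_smul]
    rw [← Finset.smul_sum, hY z, smul_zero]

/-- The derivation of a multilinear map. -/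
noncomputable def drv {S : Type} [Fintype S] [DecidableEq S] {E : Type} [AddCommGroup E]
    [Module W.K E] (f : MultilinearMap W.K (fun _ : S => ∀ j, transcendental W (X j).X) E) (i : ι)
    (Y : Module.End W.K (transcendental W (X i).X)) :
    MultilinearMap W.K (fun _ : S => ∀ j, transcendental W (X j).X) E :=
  ∑ s, f.compLinearMap (update (fun _ => LinearMap.id) s
    ((LinearMap.single W.K (fun j => transcendental W (X j).X) i) ∘ₗ Y ∘ₗ LinearMap.proj i))

theorem drv_apply {S : Type} [Fintype S] [DecidableEq S] {E : Type} [AddCommGroup E]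
    [Module W.K E] (f : MultilinearMap W.K (fun _ : S => ∀ j, transcendental W (X j).X) E) (i : ι)
    (Y : Module.End W.K (transcendental W (X i).X)) (z : S → ∀ j, transcendental W (X j).X) :
    drv f i Y z = ∑ s, f (update z s (Pi.single i (Y (z s i)))) := by
  rw [drv, _root_.sum_apply]
  refine Finset.sum_congr rfl fun s _ => ?_
  rw [MultilinearMap.compLinearMap_apply]
  congr 1
  funext s'
  by_cases hs : s' = s
  · subst hs
    rw [update_self, update_self]
    rfl
  · rw [update_of_ne hs, update_of_ne hs]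
    rfl

/-- **The base of the induction.** -/
theorem kp_base [Module.Finite ℤ_[p] T] [Module.Free ℤ_[p] T] (h : LatData χ X hG ρ cy π ε c)
    (halt : ∀ x, B x x = 0) (hnd : ∀ v, (∀ w, ¬ IsUnit (B v w)) → ∃ u, (p : ℤ_[p]) • u = v)
    (hπ1 : ∀ x, ∑ q, π q x = x)
    (hππ : ∀ q x, π q (π q x) = π q x) (hππ' : ∀ q r x, q ≠ r → π q (π r x) = 0)
    (hBπ : ∀ q x y, B (π q x) y = B x (π q y))
    {d : ℕ} (e : Module.Basis (Fin d) W.K (W.H Z.X)) (t : Γ →* Matrix (Fin d) (Fin d) ℤ_[p])
    (ht : ∀ g i, Z.act g (e i) = ∑ j, aK W.K (t g j i) • e j)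
    (i : ι) (hk : KillsAll ρ cy B π t i)
    (hk1 : KillsAll ρ cy B π (1 : Γ →* Matrix (Fin 1) (Fin 1) ℤ_[p]) i)
    (hmid : transcendental W (X i).X ≤ W.gr (X i).X (X i).X.dim) (hodd : Odd (X i).X.dim) :
    KP hG Z.X Z.act i := by
  intro S _ _ lam hlam Δ hΔ f hf u v z
  obtain ⟨m, rfl⟩ := Subgroup.mem_zpowers_iff.1 hlam
  set R := rform W (X i).X (transcendental W (X i).X) with hR
  have hkill := fun (c' : S → ι) (u w : T) (x : S → T) => kill_pull h hΔ
    (fun g => (Z.act g).toLinearMap) e t ht hk f (m := m) (fun g hg x => by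
      rw [hf g hg x]
      rfl) c' u w x
  have h2 : ∀ a b : T, B (π i a) b = B (π i a) (π i b) := by
    intro a b
    rw [← hBπ, hππ]
  have key : ∀ a b : T, SS R (ε i a) (ε i b) ∈ KS f i := by
    intro a b
    by_cases hne : ∃ a₀ b₀, B (π i a₀) (π i b₀) ≠ 0
    · obtain ⟨a₀, b₀, hpq⟩ := hne
      have hpq' := aK_ne (K := W.K) hpq
      have hform := fun r s => rform_prop h halt hππ hBπ i hk1 hmid hodd a₀ b₀ r s
      rw [← hR] at hform
      rw [← Submodule.smul_mem_iff _ hpq']
      intro z
      rw [← drv_apply]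
      have h0 : drv f i (aK W.K (B (π i a₀) (π i b₀)) • SS R (ε i a) (ε i b)) = 0 := by
        refine zero_of_lat h _ fun c' x => ?_
        rw [drv_apply]
        have h1 : ∀ s, f (update (fun s => sgl ε c' s (x s)) s (Pi.single i
            ((aK W.K (B (π i a₀) (π i b₀)) • SS R (ε i a) (ε i b)) (sgl ε c' s (x s) i)))) =
            R (ε i a₀) (ε i b₀) • f (fun s' => sgl ε c' s' (update x s
              (so B (π i a) (π i b) (x s)) s')) := by
          intro s
          rw [upd_L, ← MultilinearMap.map_update_smul]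
          congr 2
          rw [sgl_apply, sgl_apply]
          by_cases hs : c' s = i
          · rw [hs, Pi.single_eq_same, LinearMap.smul_apply, SS_apply, so_apply, map_add, h.smul,
              h.smul, h.proj, h.proj, ← Pi.single_smul]
            congr 1
            rw [smul_add, smul_add, smul_smul, smul_smul, smul_smul, smul_smul, hform, hform,
              h2 a (x s), h2 b (x s), mul_comm (R (ε i a₀) (ε i b₀)), mul_comm (R (ε i a₀) (ε i b₀))]
          · rw [Pi.single_eq_of_ne (Ne.symm hs), map_zero, Pi.single_zero, so_apply, map_add,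
              h.smul, h.smul, h.proj_ne _ _ _ hs, h.proj_ne _ _ _ hs, smul_zero, smul_zero,
              add_zero, Pi.single_zero, smul_zero]
        rw [Finset.sum_congr rfl fun s _ => h1 s, ← Finset.smul_sum, hkill, smul_zero]
      rw [h0]
      rfl
    · push Not at hne
      have h3 : ε i a = 0 := by
        rw [← h.proj, nondeg_T B hnd (x := π i a) (fun w => by rw [h2, hne]), map_zero]
      have h4 : SS R (ε i a) (ε i b) = 0 := by
        refine LinearMap.ext fun x => ?_
        rw [SS_apply, h3, map_zero, LinearMap.zero_apply, zero_smul, smul_zero, add_zero]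
        rfl
      rw [h4]
      exact Submodule.zero_mem _
  have key2 : ∀ u v, SS R u v ∈ KS f i := by
    intro u v
    have hu : u ∈ Submodule.span W.K (Set.range (ε i)) := by
      rw [h.span]
      exact Submodule.mem_top
    have hv : v ∈ Submodule.span W.K (Set.range (ε i)) := by
      rw [h.span]
      exact Submodule.mem_top
    induction hu using Submodule.span_induction with
    | mem u hu =>
      obtain ⟨a, rfl⟩ := hu
      induction hv using Submodule.span_induction with
      | mem v hv =>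
        obtain ⟨b, rfl⟩ := hv
        exact key a b
      | zero =>
        have h4 : SS R (ε i a) 0 = 0 := by
          refine LinearMap.ext fun x => ?_
          rw [SS_apply, map_zero, LinearMap.zero_apply, zero_smul, smul_zero, add_zero]
          rfl
        rw [h4]
        exact Submodule.zero_mem _
      | add v v' _ _ hv hv' =>
        have h4 : SS R (ε i a) (v + v') = SS R (ε i a) v + SS R (ε i a) v' := by
          refine LinearMap.ext fun x => ?_
          simp only [SS_apply, map_add, LinearMap.add_apply]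
          module
        rw [h4]
        exact Submodule.add_mem _ hv hv'
      | smul r v _ hv =>
        have h4 : SS R (ε i a) (r • v) = r • SS R (ε i a) v := by
          refine LinearMap.ext fun x => ?_
          simp only [SS_apply, map_smul, LinearMap.smul_apply, smul_eq_mul]
          module
        rw [h4]
        exact Submodule.smul_mem _ _ hv
    | zero =>
      have h4 : SS R 0 v = 0 := by
        refine LinearMap.ext fun x => ?_
        rw [SS_apply, map_zero, LinearMap.zero_apply, zero_smul, smul_zero, add_zero]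
        rfl
      rw [h4]
      exact Submodule.zero_mem _
    | add u u' _ _ hu hu' =>
      have h4 : SS R (u + u') v = SS R u v + SS R u' v := by
        refine LinearMap.ext fun x => ?_
        simp only [SS_apply, map_add, LinearMap.add_apply]
        module
      rw [h4]
      exact Submodule.add_mem _ hu hu'
    | smul r u _ hu =>
      have h4 : SS R (r • u) v = r • SS R u v := by
        refine LinearMap.ext fun x => ?_
        simp only [SS_apply, map_smul, LinearMap.smul_apply, smul_eq_mul]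
        module
      rw [h4]
      exact Submodule.smul_mem _ _ hu
  exact key2 u v z



end Pool.Agent.U175.LP
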