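import Mathlib
import Pool.Agent.N171.Ht6
import Pool.Agent.U175.LP.T5
import Pool.Agent.U175.LP.T11

/-!
# Varieties whose transcendental cohomology has a large image modulo a prime number
-/

open CategoryTheory AlgebraicGeometry Finset Function Matrix

set_option linter.unusedSectionVars false
set_option linter.unusedVariables false

namespace Pool.Agent.U175.LP

universe u

open Pool.Agent.TH125.Gal Pool.Agent.TH118.SG Pool.Agent.U175.LP.Pub

open Pool.Agent.H914 Pool.Agent.H914.VarClass Pool.Agent.H914.VarClass.Obj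
  Pool.Agent.H914.WeilCohomology Pool.Agent.H281R3.HT

open PadicInt

noncomputable section

variable {p : ℕ} [hp : Fact p.Prime] {k : Type u} [Field k] {𝒱 : VarClass k} {ops : CycleOps 𝒱}
  {W : WeilCohomology.{u, 0} ops} [Algebra ℚ_[p] W.K] {Γ : Type} [Group Γ]

theorem incl_inj {C : Type} [Field C] [Algebra ℚ_[p] C] :
    Function.Injective (Pub.incl p C) :=
  (algebraMap ℚ_[p] C).injective.comp (FaithfulSMul.algebraMap_injective ℤ_[p] ℚ_[p])

section one

variable {A : GVar W Γ} {κ : Γ →* ℤ_[p]ˣ} {n : ℕ} {b : Fin n → W.H A.X}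
  {J : Matrix (Fin n) (Fin n) ℤ_[p]} {ρ : Γ →* Matrix (Fin n) (Fin n) ℤ_[p]}

theorem b_mem (hsp : Submodule.span W.K (Set.range b) = transcendental W A.X) (a : Fin n) :
    b a ∈ transcendental W A.X := by
  rw [← hsp]
  exact Submodule.subset_span ⟨a, rfl⟩

theorem J_alt (hodd : Odd A.X.dim) (hmid : transcendental W A.X ≤ W.gr A.X A.X.dim)
    (hsp : Submodule.span W.K (Set.range b) = transcendental W A.X) {r : W.K}
    (hf : ∀ a c, r * W.tr A.X (b a * b c) = Pub.incl p W.K (J a c)) : Jᵀ = -J := by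
  ext a c
  apply incl_inj (p := p) (C := W.K)
  rw [transpose_apply, neg_apply, map_neg, ← hf, ← hf]
  have h1 := trans_symm hmid (b_mem hsp c) (b_mem hsp a)
  rw [hodd.neg_one_pow] at h1
  have h2 : W.tr A.X (b c * b a) = -1 * W.tr A.X (b a * b c) := h1
  rw [h2]
  ring

theorem J_sim (hG : IsGalois W (Pub.twist W.K κ) A.X A.act) {r : W.K}
    (hf : ∀ a c, r * W.tr A.X (b a * b c) = Pub.incl p W.K (J a c))
    (hact : ∀ g a, A.act g (b a) = ∑ c, Pub.incl p W.K (ρ g c a) • b c) (g : Γ) :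
    (ρ g)ᵀ * J * ρ g = ((((κ g)⁻¹) ^ A.X.dim : ℤ_[p]ˣ) : ℤ_[p]) • J := by
  ext a c
  apply incl_inj (p := p) (C := W.K)
  have h1 : r * W.tr A.X (A.act g (b a) * A.act g (b c)) =
      Pub.incl p W.K (((ρ g)ᵀ * J * ρ g) a c) := by
    rw [hact, hact, Finset.sum_mul_sum, map_sum, Finset.mul_sum, Matrix.mul_assoc,
      Matrix.mul_apply, map_sum]
    refine Finset.sum_congr rfl fun i _ => ?_
    rw [map_sum, Finset.mul_sum, Matrix.mul_apply, Finset.mul_sum, map_sum]
    refine Finset.sum_congr rfl fun j _ => ?_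
    rw [smul_mul_smul_comm, map_smul, smul_eq_mul, transpose_apply,
      map_mul (Pub.incl p W.K) (ρ g i a), map_mul (Pub.incl p W.K) (J i j), ← hf]
    ring
  rw [← h1, ← map_mul (A.act g), hG.tr_act, Matrix.smul_apply, smul_eq_mul,
    map_mul (Pub.incl p W.K), ← hf]
  have h2 : ((Pub.twist W.K κ g : W.Kˣ) : W.K) ^ A.X.dim =
      Pub.incl p W.K ((((κ g)⁻¹) ^ A.X.dim : ℤ_[p]ˣ) : ℤ_[p]) := by
    rw [Units.val_pow_eq_pow_val, map_pow]
    rfl
  rw [h2]
  ring

end one

section sys

variable {ι : Type} [Fintype ι] [DecidableEq ι] {X : ι → GVar W Γ} {D : ∀ i, (X i).X.Cycles}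
  {Z : GVar W Γ} {κ : Γ →* ℤ_[p]ˣ} {G : Set (GVar W Γ)} {N : ι → ℕ}
  {b : ∀ i, Fin (N i) → W.H (X i).X} {J : ∀ i, Matrix (Fin (N i)) (Fin (N i)) ℤ_[p]}
  {ρ : ∀ i, Γ →* Matrix (Fin (N i)) (Fin (N i)) ℤ_[p]}

/-- The map from the lattice to the transcendental cohomology. -/
def epsL {i : ι} {A : GVar W Γ} (b : Fin (N i) → W.H A.X)
    (h : Submodule.span W.K (Set.range b) = transcendental W A.X) :
    (∀ i, Fin (N i) → ℤ_[p]) →+ transcendental W A.X where
  toFun x := ⟨∑ a, Pub.incl p W.K (x i a) • b a,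
    Submodule.sum_mem _ fun a _ => Submodule.smul_mem _ _ (b_mem h a)⟩
  map_zero' := by
    apply Subtype.ext
    change ∑ a, Pub.incl p W.K 0 • b a = 0
    simp
  map_add' x y := by
    apply Subtype.ext
    change ∑ a, Pub.incl p W.K (x i a + y i a) • b a =
      ∑ a, Pub.incl p W.K (x i a) • b a + ∑ a, Pub.incl p W.K (y i a) • b a
    rw [← Finset.sum_add_distrib]
    exact Finset.sum_congr rfl fun a _ => by rw [map_add, add_smul]

theorem epsL_apply {i : ι} {A : GVar W Γ} (b : Fin (N i) → W.H A.X)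
    (h : Submodule.span W.K (Set.range b) = transcendental W A.X)
    (x : ∀ i, Fin (N i) → ℤ_[p]) :
    (epsL b h x : W.H A.X) = ∑ a, Pub.incl p W.K (x i a) • b a := rfl

/-- The data on the lattices. -/
theorem latData_L (hG : ∀ i, IsGalois W (Pub.twist W.K κ) (X i).X (X i).act)
    (hsp : ∀ i, Submodule.span W.K (Set.range (b i)) = transcendental W (X i).X)
    (hact : ∀ i g a, (X i).act g (b i a) = ∑ c, Pub.incl p W.K (ρ i g c a) • b i c) (c : ι → ℕ) :
    LatData (Pub.twist W.K κ) X hG (piR fun i => repT κ (c i) (ρ i)) κ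
      (piP p N) (fun i => epsL (i := i) (b i) (hsp i)) c where
  smul i r x := by
    apply Subtype.ext
    rw [epsL_apply]
    change _ = aK W.K r • ∑ a, Pub.incl p W.K (x i a) • b i a
    rw [Finset.smul_sum]
    refine Finset.sum_congr rfl fun a _ => ?_
    rw [Pi.smul_apply, Pi.smul_apply, smul_eq_mul, map_mul, mul_smul]
    rfl
  proj i x := by
    apply Subtype.ext
    rw [epsL_apply, epsL_apply, piP_apply, Pi.single_eq_same]
  proj_ne i j x hij := by
    apply Subtype.ext
    rw [epsL_apply, piP_apply, Pi.single_eq_of_ne hij]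
    change ∑ a, Pub.incl p W.K 0 • b i a = 0
    simp
  span i := by
    rw [eq_top_iff]
    rintro ⟨y, hy⟩ -
    have h4 : transcendental W (X i).X ≤
        (Submodule.span W.K (Set.range (epsL (p := p) (i := i) (b i) (hsp i)))).map
          (transcendental W (X i).X).subtype := by
      refine (hsp i).symm.le.trans (Submodule.span_le.2 ?_)
      rintro _ ⟨a, rfl⟩
      refine ⟨epsL (p := p) (i := i) (b i) (hsp i) (Pi.single i (Pi.single a 1)),
        Submodule.subset_span ⟨_, rfl⟩, ?_⟩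
      rw [Submodule.subtype_apply, epsL_apply, Pi.single_eq_same, Finset.sum_eq_single a]
      · rw [Pi.single_eq_same, map_one, one_smul]
      · intro c _ hc
        rw [Pi.single_eq_of_ne hc, map_zero, zero_smul]
      · intro h
        exact absurd (Finset.mem_univ a) h
    obtain ⟨z, hz, hzy⟩ := h4 hy
    have h5 : z = ⟨y, hy⟩ := Subtype.ext hzy
    rwa [← h5]
  act i g x := by
    apply Subtype.ext
    rw [rhoT_apply, epsL_apply, Submodule.coe_smul, epsL_apply, map_sum, Finset.smul_sum]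
    have h1 : ∀ a, (X i).act g (Pub.incl p W.K (x i a) • b i a) =
        ∑ d, Pub.incl p W.K (x i a * ρ i g d a) • b i d := by
      intro a
      rw [map_smul, hact, Finset.smul_sum]
      refine Finset.sum_congr rfl fun d _ => ?_
      rw [smul_smul, map_mul]
    rw [Finset.sum_congr rfl fun a _ => h1 a, Finset.sum_comm]
    refine Finset.sum_congr rfl fun d _ => ?_
    rw [← Finset.sum_smul, smul_smul]
    congr 1
    have h2 : ((Pub.twist W.K κ g : W.Kˣ) : W.K) ^ c i =
      Pub.incl p W.K ((((κ g)⁻¹) ^ c i : ℤ_[p]ˣ) : ℤ_[p]) := by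
      rw [Units.val_pow_eq_pow_val, map_pow]
      rfl
    rw [h2, ← map_sum, ← map_mul]
    congr 1
    change _ = ((((κ g)⁻¹) ^ c i : ℤ_[p]ˣ) : ℤ_[p]) *
      ((((κ g) ^ c i : ℤ_[p]ˣ) : ℤ_[p]) * (ρ i g *ᵥ x i) d)
    rw [← mul_assoc, ← Units.val_mul, inv_pow, inv_mul_cancel, Units.val_one, one_mul, mulVec,
      dotProduct]
    exact Finset.sum_congr rfl fun a _ => mul_comm _ _
  chi g := rfl

/-- **The system.** -/
theorem kSys_of_large (hp5 : 5 ≤ p) (h : LatticeSystem κ G X D Z b J ρ)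
    (hL : Large Z.act J ρ) : Pool.Agent.N171.Ht.KSys (Pub.twist W.K κ) G X D Z where
  galoisClass := h.galois
  mem := h.mem
  mem_base := h.mem_base
  odd := h.odd
  pol := h.pol
  middle := h.middle
  one_ne := h.one_ne
  base hG i := by
    classical
    obtain ⟨d, f, τ, hτ, hl⟩ := hL
    choose r hr0 hr using fun i => (h.lattice i).form
    have hJ : ∀ i, (J i)ᵀ = -J i := fun i => J_alt (h.odd i) (h.middle i) (h.lattice i).span (hr i)
    have hJd : ∀ i, IsUnit (J i).det := fun i => (h.lattice i).unimodular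
    choose c hc using fun i => (h.odd i).add_one
    have hc2 : ∀ i, 2 * c i = (X i).X.dim + 1 := fun i => by rw [hc i, two_mul]
    have hinv : ∀ i s x y, Matrix.toBilin' (J i) (repT κ (c i) (ρ i) s x)
        (repT κ (c i) (ρ i) s y) = (κ s : ℤ_[p]) * Matrix.toBilin' (J i) x y := fun i s x y =>
      repT_form κ (c i) (ρ i) (hc2 i) (J_sim (hG i) (hr i) (h.lattice i).act) s x y
    refine kp_base (latData_L hG (fun i => (h.lattice i).span) (fun i => (h.lattice i).act) c)
      (piB_self hJ) (piB_nd hJd) piP_sum piP_self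
      piP_ne piB_piP f τ hτ i
      (killsAll_of_tan fun X hX => tan_large' hp5 hJ hJd hinv hl hX)
      (killsAll_of_tan fun X hX => tan_large' (τ := 1) hp5 hJ hJd hinv (fun j => ?_) hX)
      (h.middle i) (h.odd i)
    obtain ⟨K, v, hcon, hv⟩ := hl j
    refine ⟨K, v, hcon, fun a => ?_⟩
    obtain ⟨g, hg⟩ := hv a
    exact ⟨g, hg.self, hg.same_rank, fun _ => red_one⟩

end sys

end

end Pool.Agent.U175.LP
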