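import Mathlib
import Pool.Agent.U175.LP.T8
import Pool.Agent.U175.LP.Pub2

/-!
# Connected families of transvections from primitive residual representations
-/

set_option linter.unusedSectionVars false

universe u

namespace Pool.Agent.U175.LP

open Module Matrix Pool.Agent.U175.LP.Pub
open Pool.Agent.TH125.Gal Pool.Agent.H914 Pool.Agent.H914.VarClass
  Pool.Agent.H914.VarClass.Obj Pool.Agent.H914.WeilCohomology Pool.Agent.H281R3.HT

noncomputable section

variable {p : ℕ} [hp : Fact p.Prime] {Γ : Type} [Group Γ]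

section one

variable {n : ℕ} {J : Matrix (Fin n) (Fin n) ℤ_[p]} {ρ : Γ →* Matrix (Fin n) (Fin n) ℤ_[p]}

theorem red_inv_mul (g : Γ) : red (ρ g⁻¹) * red (ρ g) = 1 := by
  rw [← red_mul, ← map_mul, inv_mul_cancel, map_one, red_one]

theorem red_mul_inv (g : Γ) : red (ρ g) * red (ρ g⁻¹) = 1 := by
  rw [← red_mul, ← map_mul, mul_inv_cancel, map_one, red_one]

theorem dot_red {x y : Fin n → ZMod p} : dot J x y = x ⬝ᵥ (red J) *ᵥ y := rfl

variable (J) in
/-- The form modulo `p`. -/
def Bp : (Fin n → ZMod p) →ₗ[ZMod p] (Fin n → ZMod p) →ₗ[ZMod p] ZMod p := Matrix.toBilin' (red J)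

variable (J) in
theorem Bp_apply (x y : Fin n → ZMod p) : Bp J x y = dot J x y :=
  Matrix.toBilin'_apply' (red J) x y

theorem dot_sim (hsim : ∀ g, ∃ μ : ℤ_[p]ˣ, (ρ g)ᵀ * J * ρ g = (μ : ℤ_[p]) • J) (g : Γ) :
    ∃ μ : ZMod p, μ ≠ 0 ∧ ∀ x y, dot J (red (ρ g) *ᵥ x) (red (ρ g) *ᵥ y) = μ * dot J x y := by
  obtain ⟨μ, hμ⟩ := hsim g
  refine ⟨PadicInt.toZMod (μ : ℤ_[p]), (isUnit_iff_toZMod _).1 μ.isUnit, fun x y => ?_⟩
  have h1 : (red (ρ g))ᵀ * red J * red (ρ g) = (PadicInt.toZMod (μ : ℤ_[p]) : ZMod p) • red J := by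
    have h2 : (red (ρ g))ᵀ = red (ρ g)ᵀ := rfl
    rw [h2, ← red_mul, ← red_mul, hμ]
    ext a b
    rw [Matrix.smul_apply, red_apply, red_apply, Matrix.smul_apply, smul_eq_mul, smul_eq_mul,
      map_mul]
  rw [dot_red, dot_red]
  have e1 : (red (ρ g) *ᵥ x) ⬝ᵥ red J *ᵥ (red (ρ g) *ᵥ y) =
      x ⬝ᵥ ((red (ρ g))ᵀ * red J * red (ρ g)) *ᵥ y := by
    rw [← mulVec_mulVec, ← mulVec_mulVec, dotProduct_mulVec x, vecMul_transpose]
  rw [e1, h1, smul_mulVec, dotProduct_smul, smul_eq_mul]

theorem dot_anti (hJ : Jᵀ = -J) (x y : Fin n → ZMod p) : dot J x y = -dot J y x := by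
  rw [dot_red, dot_red, dotProduct_mulVec, dotProduct_comm, ← mulVec_transpose]
  have h1 : (red J)ᵀ = -red J := by
    ext a b
    have h2 := congrFun (congrFun hJ a) b
    rw [transpose_apply, neg_apply] at h2
    rw [transpose_apply, neg_apply, red_apply, red_apply, h2, map_neg]
  rw [h1, neg_mulVec, dotProduct_neg]

/-- Stable subspaces. -/
theorem map_eq_of_stable {W : Submodule (ZMod p) (Fin n → ZMod p)}
    (h : ∀ g, ∀ x ∈ W, red (ρ g) *ᵥ x ∈ W) (g : Γ) : W.map (red (ρ g)).mulVecLin = W := by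
  refine le_antisymm ?_ fun x hx => ?_
  · rintro _ ⟨x, hx, rfl⟩
    exact h g x hx
  · refine ⟨red (ρ g⁻¹) *ᵥ x, h _ x hx, ?_⟩
    rw [mulVecLin_apply, mulVec_mulVec, red_mul_inv, one_mulVec]

theorem unimodular_of_primitive
    (hsim : ∀ g, ∃ μ : ℤ_[p]ˣ, (ρ g)ᵀ * J * ρ g = (μ : ℤ_[p]) • J) (hJ : red J ≠ 0)
    (hP : IsPrimitive J ρ) : IsUnit J.det := by
  have h4 : (red J).det = PadicInt.toZMod J.det := by
    rw [RingHom.map_det]
    rfl
  rw [isUnit_iff_toZMod, ← h4]
  intro h0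
  obtain ⟨v, hv0, hv⟩ := Matrix.exists_mulVec_eq_zero_iff.2 h0
  have hW : ∀ g, ∀ x ∈ LinearMap.ker (red J).mulVecLin,
      red (ρ g) *ᵥ x ∈ LinearMap.ker (red J).mulVecLin := by
    intro g x hx
    rw [LinearMap.mem_ker, mulVecLin_apply] at hx ⊢
    obtain ⟨μ, hμ0, hμ⟩ := dot_sim hsim g
    refine dotProduct_eq_zero_iff.1 fun y => ?_
    have h1 := hμ (red (ρ g⁻¹) *ᵥ y) x
    rw [mulVec_mulVec, red_mul_inv, one_mulVec, dot_red, dot_red, hx, dotProduct_zero,
      mul_zero, dotProduct_comm] at h1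
    exact h1
  rcases hP _ (fun g => Or.inl (map_eq_of_stable hW g)) with h1 | h1
  · have h2 : v ∈ LinearMap.ker (red J).mulVecLin := by
      rw [LinearMap.mem_ker, mulVecLin_apply, hv]
    rw [h1, Submodule.mem_bot] at h2
    exact hv0 h2
  · refine hJ (Matrix.ext_of_mulVec_single fun b => ?_)
    have h2 : Pi.single b 1 ∈ LinearMap.ker (red J).mulVecLin := by
      rw [h1]
      exact Submodule.mem_top
    rw [LinearMap.mem_ker, mulVecLin_apply] at h2
    rw [h2, zero_mulVec]

/-- **The orbit of one transvection is connected.** -/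
theorem connected_of_primitive (hJ : Jᵀ = -J)
    (hsim : ∀ g, ∃ μ : ℤ_[p]ˣ, (ρ g)ᵀ * J * ρ g = (μ : ℤ_[p]) • J) (hJd : IsUnit J.det)
    (hP : IsPrimitive J ρ) {v : Fin n → ZMod p} (hv : v ≠ 0) :
    Connected J (fun a : Γ => red (ρ a) *ᵥ v) := by
  classical
  set V : Γ → Fin n → ZMod p := fun a => red (ρ a) *ᵥ v with hV
  have hmul : ∀ g a, red (ρ g) *ᵥ V a = V (g * a) := by
    intro g a
    simp only [hV]
    rw [mulVec_mulVec, ← red_mul, ← map_mul]
  let r : Γ → Γ → Prop := fun a b => dot J (V a) (V b) ≠ 0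
  have hsymm : ∀ a b, r a b → r b a := by
    intro a b h h'
    exact h (by rw [dot_anti hJ, h', neg_zero])
  have hR : ∀ a b, Relation.ReflTransGen r a b → Relation.ReflTransGen r b a := by
    intro a b h
    induction h with
    | refl => exact Relation.ReflTransGen.refl
    | tail _ hbc ih => exact Relation.ReflTransGen.head (hsymm _ _ hbc) ih
  have hequi : ∀ g a b, Relation.ReflTransGen r a b → Relation.ReflTransGen r (g * a) (g * b) := by
    intro g a b h
    obtain ⟨μ, hμ0, hμ⟩ := dot_sim hsim g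
    induction h with
    | refl => exact Relation.ReflTransGen.refl
    | @tail b c _ hbc ih =>
      refine Relation.ReflTransGen.tail ih ?_
      change dot J (V (g * b)) (V (g * c)) ≠ 0
      rw [← hmul, ← hmul, hμ]
      exact mul_ne_zero hμ0 hbc
  have hequi' : ∀ g b c, Relation.ReflTransGen r (g * b) c →
      Relation.ReflTransGen r b (g⁻¹ * c) := by
    intro g b c h
    have h1 := hequi g⁻¹ _ _ h
    rwa [inv_mul_cancel_left] at h1
  let W : Submodule (ZMod p) (Fin n → ZMod p) :=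
    Submodule.span (ZMod p) {x | ∃ b, Relation.ReflTransGen r 1 b ∧ V b = x}
  have key : ∀ g, W.map (red (ρ g)).mulVecLin = W ∨
      ∀ x ∈ W, ∀ y ∈ W, dot J (red (ρ g) *ᵥ x) y = 0 := by
    intro g
    by_cases hg : Relation.ReflTransGen r 1 g
    · left
      rw [Submodule.map_span]
      congr 1
      ext x
      constructor
      · rintro ⟨_, ⟨b, hb, rfl⟩, rfl⟩
        refine ⟨g * b, ?_, ?_⟩
        · have h1 := hequi g _ _ hb
          rw [mul_one] at h1
          exact hg.trans h1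
        · rw [mulVecLin_apply, hmul]
      · rintro ⟨b, hb, rfl⟩
        refine ⟨V (g⁻¹ * b), ⟨g⁻¹ * b, ?_, rfl⟩, ?_⟩
        · exact hequi' g 1 b (by rw [mul_one]; exact (hR _ _ hg).trans hb)
        · rw [mulVecLin_apply, hmul, mul_inv_cancel_left]
    · right
      have h0 : ∀ b c, Relation.ReflTransGen r 1 b → Relation.ReflTransGen r 1 c →
          dot J (V (g * b)) (V c) = 0 := by
        intro b c hb hc
        by_contra hne
        refine hg ?_
        have h1 := hequi g _ _ hb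
        rw [mul_one] at h1
        have h2 : Relation.ReflTransGen r g c := Relation.ReflTransGen.tail h1 hne
        exact hc.trans (hR _ _ h2)
      have hB : ∀ x y, Bp J (red (ρ g) *ᵥ x) y = dot J (red (ρ g) *ᵥ x) y := fun x y =>
        Bp_apply J _ _
      intro x hx y hy
      rw [← hB]
      induction hx using Submodule.span_induction with
      | mem x hx =>
        obtain ⟨b, hb, rfl⟩ := hx
        induction hy using Submodule.span_induction with
        | mem y hy =>
          obtain ⟨c, hc, rfl⟩ := hy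
          rw [hB, hmul]
          exact h0 b c hb hc
        | zero => rw [map_zero]
        | add y y' _ _ h h' => rw [map_add, h, h', add_zero]
        | smul c y _ h => rw [map_smul, h, smul_zero]
      | zero => rw [mulVec_zero, map_zero, LinearMap.zero_apply]
      | add x x' _ _ h h' => rw [mulVec_add, map_add, LinearMap.add_apply, h, h', add_zero]
      | smul c x _ h => rw [mulVec_smul, map_smul, LinearMap.smul_apply, h, smul_zero]
  have hv1 : V 1 = v := by
    simp only [hV]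
    rw [map_one, red_one, one_mulVec]
  have hWtop : W = ⊤ := by
    rcases hP W key with h1 | h1
    · have h2 : v ∈ W := by
        rw [← hv1]
        exact Submodule.subset_span ⟨1, Relation.ReflTransGen.refl, rfl⟩
      rw [h1, Submodule.mem_bot] at h2
      exact absurd h2 hv
    · exact h1
  have hone : ∀ b, Relation.ReflTransGen r 1 b := by
    intro b
    by_contra hb
    have h1 : ∀ y ∈ W, Bp J (V b) y = 0 := by
      intro y hy
      induction hy using Submodule.span_induction with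
      | mem y hy =>
        obtain ⟨c, hc, rfl⟩ := hy
        rw [Bp_apply]
        by_contra hne
        exact hb (hc.trans (Relation.ReflTransGen.single (hsymm _ _ hne)))
      | zero => rw [map_zero]
      | add y y' _ _ h h' => rw [map_add, h, h', add_zero]
      | smul c y _ h => rw [map_smul, h, smul_zero]
    have h2 : V b = 0 := by
      have h3 : (red J).det ≠ 0 := by
        have h4 : (red J).det = PadicInt.toZMod J.det := by
          rw [RingHom.map_det]
          rfl
        rw [h4]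
        exact (isUnit_iff_toZMod _).1 hJd
      refine Matrix.eq_zero_of_vecMul_eq_zero h3 (dotProduct_eq_zero_iff.1 fun w => ?_)
      have h5 := h1 w (by rw [hWtop]; exact Submodule.mem_top)
      rw [Bp_apply, dot_red, dotProduct_mulVec] at h5
      exact h5
    have h3 : v = red (ρ b⁻¹) *ᵥ V b := by
      rw [hmul, inv_mul_cancel, hv1]
    rw [h2, mulVec_zero] at h3
    exact hv h3
  refine ⟨?_, fun a b => (hR _ _ (hone a)).trans (hone b)⟩
  rw [← top_le_iff, ← hWtop]
  refine Submodule.span_mono ?_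
  rintro _ ⟨b, -, rfl⟩
  exact ⟨b, rfl⟩

end one

section sys

variable {ι : Type} {N : ι → ℕ} {J : ∀ i, Matrix (Fin (N i)) (Fin (N i)) ℤ_[p]}
  {ρ : ∀ i, Γ →* Matrix (Fin (N i)) (Fin (N i)) ℤ_[p]} {d : ℕ}
  {τ : Γ →* Matrix (Fin d) (Fin d) ℤ_[p]}

theorem transvects_conj {i : ι}
    (hsim : ∀ g, ∃ μ : ℤ_[p]ˣ, (ρ i g)ᵀ * J i * ρ i g = (μ : ℤ_[p]) • J i)
    {v : Fin (N i) → ZMod p} {g : Γ} (h : Transvects J ρ τ i v g) (a : Γ) :
    Transvects J ρ τ i (red (ρ i a) *ᵥ v) (a * g * a⁻¹) := by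
  refine ⟨?_, fun j hj hN => ?_, fun hb => ?_⟩
  · obtain ⟨c, hc, h1⟩ := h.self
    obtain ⟨μ, hμ0, hμ⟩ := dot_sim hsim a
    refine ⟨c * μ⁻¹, mul_ne_zero hc (inv_ne_zero hμ0), fun x => ?_⟩
    rw [map_mul, map_mul, red_mul, red_mul, ← mulVec_mulVec, ← mulVec_mulVec, h1, mulVec_add,
      mulVec_mulVec, red_mul_inv, one_mulVec, mulVec_smul]
    congr 2
    have h2 := hμ v (red (ρ i a⁻¹) *ᵥ x)
    rw [mulVec_mulVec, red_mul_inv, one_mulVec] at h2
    rw [h2, mul_assoc, inv_mul_cancel_left₀ hμ0]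
  · rw [map_mul, map_mul, red_mul, red_mul, h.same_rank j hj hN, mul_one, red_mul_inv]
  · rw [map_mul, map_mul, red_mul, red_mul, h.base hb, mul_one, ← red_mul, ← map_mul,
      mul_inv_cancel, map_one, red_one]

variable {k : Type u} [Field k] {𝒱 : VarClass k} {ops : CycleOps 𝒱}
  {W : WeilCohomology.{u, 0} ops} [Algebra ℚ_[p] W.K] {X : ι → GVar W Γ}
  {D : ∀ i, (X i).X.Cycles} {Z : GVar W Γ} {κ : Γ →* ℤ_[p]ˣ} {G : Set (GVar W Γ)}
  {b : ∀ i, Fin (N i) → W.H (X i).X}

/-- **Primitive residual representations with a transvection are large.** -/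
theorem large_of_residual (h : ResidualSystem κ G X D Z b J ρ)
    (hR : ResidualTransvections Z.act J ρ) :
    LatticeSystem κ G X D Z b J ρ ∧ Large Z.act J ρ := by
  obtain ⟨d, f, τ, hτ, hr⟩ := hR
  choose r hr0 hrf using fun i => (h.lattice i).form
  have hJ : ∀ i, (J i)ᵀ = -J i := fun i =>
    J_alt (h.odd i) (h.middle i) (h.lattice i).span (hrf i)
  have hsim : ∀ i g, ∃ μ : ℤ_[p]ˣ, (ρ i g)ᵀ * J i * ρ i g = (μ : ℤ_[p]) • J i := fun i g =>
    ⟨_, J_sim (isGalois (h.galois.galois _ (h.mem i))) (hrf i) (h.lattice i).act g⟩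
  have hJd : ∀ i, IsUnit (J i).det := fun i =>
    unimodular_of_primitive (hsim i) (h.lattice i).reduction_ne (hr i).1
  refine ⟨⟨h.galois, h.mem, h.mem_base, h.odd, h.pol, h.middle, h.one_ne, fun i =>
    ⟨(h.lattice i).span, (h.lattice i).act, (h.lattice i).form, hJd i⟩⟩, d, f, τ, hτ, fun i => ?_⟩
  obtain ⟨v, hv, g, hg⟩ := (hr i).2
  exact ⟨Γ, fun a => red (ρ i a) *ᵥ v, connected_of_primitive (hJ i) (hsim i) (hJd i) (hr i).1 hv,
    fun a => ⟨a * g * a⁻¹, transvects_conj (hsim i) hg a⟩⟩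

end sys

end

end Pool.Agent.U175.LP
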