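import Mathlib
import Pool.Agent.TH125.Gal.Tower
import Pool.Agent.V11219.BstMain
import Pool.Agent.U175.LP.P1

/-!
# The Tate conjecture and large residual representations
-/

set_option linter.unusedSectionVars false

open CategoryTheory AlgebraicGeometry

universe u

namespace Pool.Agent.U175.LP

open Module Matrix Pool.Agent.U175.LP.Pub
open Pool.Agent.TH125.Gal Pool.Agent.H914 Pool.Agent.H914.VarClass Pool.Agent.V11219.Bst
  Pool.Agent.H914.VarClass.Obj Pool.Agent.H914.WeilCohomology Pool.Agent.H281R3.HT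
  Pool.Agent.V11219.Cls Pool.Agent.H447 Pool.Agent.N171.Ht

noncomputable section

variable {p : ℕ} [hp : Fact p.Prime] {Γ : Type} [Group Γ] {ι : Type} {N : ι → ℕ}
  {J : ∀ i, Matrix (Fin (N i)) (Fin (N i)) ℤ_[p]}
  {ρ : ∀ i, Γ →* Matrix (Fin (N i)) (Fin (N i)) ℤ_[p]}
  {k : Type u} [Field k] {𝒱 : VarClass k} {ops : CycleOps 𝒱}
  {W : WeilCohomology.{u, 0} ops} [Algebra ℚ_[p] W.K] {X : ι → GVar W Γ}
  {Z : GVar W Γ} {κ : Γ →* ℤ_[p]ˣ} {b : ∀ i, Fin (N i) → W.H (X i).X}

/-- `Γ` acts on the cohomology of the odd-dimensional varieties `X i` like a Galois group (with the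
cyclotomic character `κ`); homological and numerical equivalence coincide for `X i`; the
transcendental cohomology of `X i` is in the middle degree, and has a stable lattice with the basis
`b i`, the action `ρ i` and the form `J i`. -/
structure Pub.ResidualFamily (κ : Γ →* ℤ_[p]ˣ) (X : ι → GVar W Γ)
    (b : ∀ i, Fin (N i) → W.H (X i).X) (J : ∀ i, Matrix (Fin (N i)) (Fin (N i)) ℤ_[p])
    (ρ : ∀ i, Γ →* Matrix (Fin (N i)) (Fin (N i)) ℤ_[p]) : Prop where
  galois : ∀ i, IsGaloisVar (twist W.K κ) (X i)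
  homEqNum : ∀ i, HomEqNum W (X i).X
  odd : ∀ i, Odd (X i).X.dim
  middle : ∀ i, transcendental W (X i).X ≤ W.gr (X i).X (X i).X.dim
  lattice : ∀ i, IsStableLattice (X i).act (W.tr (X i).X) (transcendental W (X i).X) (b i) (J i) (ρ i)

theorem Pub.ResidualFamily.one_ne (h : Pub.ResidualFamily κ X b J ρ) (i : ι) :
    (1 : W.H (X i).X) ≠ 0 := by
  intro h1
  have h0 : ∀ x : W.H (X i).X, x = 0 := fun x => by rw [← one_mul x, h1, zero_mul]
  obtain ⟨r, hr, hf⟩ := (h.lattice i).form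
  refine (h.lattice i).reduction_ne ?_
  ext a c
  have h2 := hf a c
  rw [h0 (b i a * b i c), map_zero, mul_zero] at h2
  have h3 : J i a c = 0 := incl_inj (p := p) (C := W.K) (by rw [← h2, map_zero])
  rw [red_apply, h3, map_zero, Matrix.zero_apply]

/-- The base of the induction. -/
theorem kp_of_residual [Fintype ι] [DecidableEq ι] (hp5 : 5 ≤ p)
    (h : Pub.ResidualFamily κ X b J ρ) (hR : ResidualTransvections Z.act J ρ)
    (hG : ∀ i, IsGalois W (Pub.twist W.K κ) (X i).X (X i).act) (i : ι) :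
    KP hG Z.X Z.act i := by
  obtain ⟨d, f, τ, hτ, hr⟩ := hR
  choose r hr0 hrf using fun i => (h.lattice i).form
  have hJ : ∀ i, (J i)ᵀ = -J i := fun i =>
    J_alt (h.odd i) (h.middle i) (h.lattice i).span (hrf i)
  have hsim : ∀ i g, ∃ μ : ℤ_[p]ˣ, (ρ i g)ᵀ * J i * ρ i g = (μ : ℤ_[p]) • J i := fun i g =>
    ⟨_, J_sim (hG i) (hrf i) (h.lattice i).act g⟩
  have hJd : ∀ i, IsUnit (J i).det := fun i =>
    unimodular_of_primitive (hsim i) (h.lattice i).reduction_ne (hr i).1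
  have hl : ∀ i, LargeAt J ρ τ i := by
    intro i
    obtain ⟨v, hv, g, hg⟩ := (hr i).2
    exact ⟨Γ, fun a => red (ρ i a) *ᵥ v, connected_of_primitive (hJ i) (hsim i) (hJd i) (hr i).1 hv,
      fun a => ⟨a * g * a⁻¹, transvects_conj (hsim i) hg a⟩⟩
  choose c hc using fun i => (h.odd i).add_one
  have hc2 : ∀ i, 2 * c i = (X i).X.dim + 1 := fun i => by rw [hc i, two_mul]
  have hinv : ∀ i s x y, Matrix.toBilin' (J i) (repT κ (c i) (ρ i) s x)
      (repT κ (c i) (ρ i) s y) = (κ s : ℤ_[p]) * Matrix.toBilin' (J i) x y := fun i s x y =>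
    repT_form κ (c i) (ρ i) (hc2 i) (J_sim (hG i) (hrf i) (h.lattice i).act) s x y
  refine kp_base (latData_L hG (fun i => (h.lattice i).span) (fun i => (h.lattice i).act) c)
    (piB_self hJ) (piB_nd hJd) piP_sum piP_self
    piP_ne piB_piP f τ hτ i
    (killsAll_of_tan fun X hX => tan_large' hp5 hJ hJd hinv hl hX)
    (killsAll_of_tan fun X hX => tan_large' (τ := 1) hp5 hJ hJd hinv (fun j => ?_) hX)
    (h.middle i) (h.odd i)
  obtain ⟨K, v, hcon, hv⟩ := hl j
  refine ⟨K, v, hcon, fun a => ?_⟩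
  obtain ⟨g, hg⟩ := hv a
  exact ⟨g, hg.self, hg.same_rank, fun _ => red_one⟩

/-- **The Tate conjecture for towers.** -/
theorem tate_of_residual [Fintype ι] [DecidableEq ι] (hp5 : 5 ≤ p)
    (h : Pub.ResidualFamily κ X b J ρ) (hR : ResidualTransvections Z.act J ρ)
    {S : Set ι} {Y : GVar W Γ} (hY : GTower X Z S Y) :
    (TateConjecture (Pub.twist W.K κ) Y ↔ TateConjecture (Pub.twist W.K κ) Z) ∧
      ∀ (hG : ∀ i, IsGalois W (Pub.twist W.K κ) (X i).X (X i).act), ∀ i ∉ S,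
        KP hG Y.X Y.act i := by
  have hG₀ : ∀ i, IsGalois W (Pub.twist W.K κ) (X i).X (X i).act := fun i => isGalois (h.galois i)
  induction hY with
  | base => exact ⟨Iff.rfl, fun hG i _ => kp_of_residual hp5 h hR hG i⟩
  | @step S Y Y' i n hT hi hn hP ih =>
    obtain ⟨υ, h1, h2⟩ := hP
    refine ⟨?_, fun hG j hj => ?_⟩
    · rw [← ih.1]
      constructor
      · exact tate_conv (P := ⟨(X i).X, 0⟩) (h.homEqNum i) (h.one_ne i) (isPowAct h1 h2)
      · exact tate_stepP (P := ⟨(X i).X, 0⟩) (h.homEqNum i) (h.middle i) (hG₀ i)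
          (isPowAct h1 h2) (h.odd i) (fullP_of hG₀ (ih.2 hG₀ i hi) 0 (h.middle i) (h.odd i))
    · rw [Set.mem_insert_iff, not_or] at hj
      exact KP.step hG (D := 0) hj.1 (ih.2 hG j hj.2) (h.homEqNum i) (isPowAct h1 h2)

/-- **The Tate conjecture for dominated varieties.** -/
theorem tate_of_dominant {χ : Γ →* W.Kˣ} {A B : GVar W Γ} {g : A.X ⟶ B.X} (hg : Dominant W g)
    (he : Equivariant g) (h : TateConjecture χ A) : TateConjecture χ B := by
  obtain ⟨q, _, ⟨w, hw, rfl⟩, hw1⟩ := hg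
  rintro j c hc ⟨Δ, hΔ, hcΔ⟩
  have ha : W.cl A.X w ∈ algSpan W A.X :=
    Submodule.subset_span (Set.mem_iUnion.2 ⟨q, w, hw, rfl⟩)
  have h1 := h j (W.map g c) (W.map_mem _ hc) ⟨Δ, hΔ, fun σ hσ => by
    rw [he σ c, hcΔ σ hσ, map_smul]⟩
  have h1' : W.map g c ∈ algSpan W A.X := Submodule.span_mono (Set.subset_iUnion _ j) h1
  have h2 := push_mul_map' (W := W) g (W.cl A.X w) c
  rw [hw1, one_mul] at h2
  refine algSpan_gr ?_ hc
  rw [← h2]
  exact algSpan_push g (algSpan_mul ha h1')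

end

end Pool.Agent.U175.LP
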