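import Mathlib
import Pool.Agent.U175.LP.P2

/-!
# The Tate conjecture and numerical equivalence on towers
-/

set_option linter.unusedSectionVars false

open CategoryTheory AlgebraicGeometry

universe u

namespace Pool.Agent.U175.LP

open Module Matrix Pool.Agent.U175.LP.Pub Pool.Agent.W552
open Pool.Agent.TH125.Gal Pool.Agent.H914 Pool.Agent.H914.VarClass Pool.Agent.V11219.Bst
  Pool.Agent.H914.VarClass.Obj Pool.Agent.H914.WeilCohomology Pool.Agent.H281R3.HT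
  Pool.Agent.N171.Ht

noncomputable section

variable {p : ℕ} [hp : Fact p.Prime] {Γ : Type} [Group Γ] {ι : Type} {N : ι → ℕ}
  {J : ∀ i, Matrix (Fin (N i)) (Fin (N i)) ℤ_[p]}
  {ρ : ∀ i, Γ →* Matrix (Fin (N i)) (Fin (N i)) ℤ_[p]}
  {k : Type u} [Field k] {𝒱 : VarClass k} {ops : CycleOps 𝒱}
  {W : WeilCohomology.{u, 0} ops} [Algebra ℚ_[p] W.K] {X : ι → GVar W Γ}
  {D : ∀ i, (X i).X.Cycles} {Z : GVar W Γ} {κ : Γ →* ℤ_[p]ˣ} {G : Set (GVar W Γ)}
  {b : ∀ i, Fin (N i) → W.H (X i).X}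

theorem nest_X (V : 𝒱.Obj) (E E' : V.Cycles) (n : ℕ) :
    (nest ops n fun _ => (⟨V, E⟩ : Polarized 𝒱)).X =
      (nest ops n fun _ => (⟨V, E'⟩ : Polarized 𝒱)).X := by
  induction n with
  | zero => rfl
  | succ n ih =>
    change V.prod (nest ops n fun _ => (⟨V, E⟩ : Polarized 𝒱)).X =
      V.prod (nest ops n fun _ => (⟨V, E'⟩ : Polarized 𝒱)).X
    rw [ih]

/-- The variety of a tower. -/
theorem gTower_X {S : Set ι} {Y : GVar W Γ} (hY : GTower X Z S Y) (E : Z.X.Cycles) :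
    ∃ L : List (ι × ℕ), (L.map Prod.fst).Nodup ∧ (∀ i, i ∈ L.map Prod.fst ↔ i ∈ S) ∧
      Y.X = (nodalTower X D Z E L).X := by
  simp only [nodalTower, tower_eq]
  induction hY with
  | base => exact ⟨[], List.nodup_nil, fun i => by simp, rfl⟩
  | @step S Y Y' i n hT hi hn hP ih =>
    obtain ⟨L, h1, h2, h3⟩ := ih
    obtain ⟨υ, -, -⟩ := hP
    refine ⟨(i, n) :: L, ?_, fun j => ?_, ?_⟩
    · rw [List.map_cons, List.nodup_cons]
      exact ⟨fun h => hi ((h2 i).1 h), h1⟩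
    · rw [List.map_cons, List.mem_cons, Set.mem_insert_iff, h2]
    · change (nest ops n fun _ => (⟨(X i).X, 0⟩ : Polarized 𝒱)).X.prod Y.X =
        (nest ops n fun _ => (⟨(X i).X, D i⟩ : Polarized 𝒱)).X.prod _
      rw [h3, nest_X (X i).X 0 (D i)]

/-- **The Tate conjecture and the conjecture D for towers.** -/
theorem tate_num [Fintype ι] [DecidableEq ι] (hp5 : 5 ≤ p)
    (h : ResidualSystem κ G X D Z b J ρ) (hR : ResidualTransvections Z.act J ρ)
    {S : Set ι} {Y : GVar W Γ} (hY : GTower X Z S Y) :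
    (TateConjecture (Pub.twist W.K κ) Y ↔ TateConjecture (Pub.twist W.K κ) Z) ∧
      (HomEqNum W Y.X ↔ HomEqNum W Z.X) := by
  have hF : Pub.ResidualFamily κ X b J ρ :=
    ⟨fun i => h.galois.galois _ (h.mem i), fun i => Pool.Agent.V11219.Loc.homEqNum_of_pol (h.pol i), h.odd, h.middle,
      h.lattice⟩
  refine ⟨(tate_of_residual hp5 hF hR hY).1, ?_⟩
  obtain ⟨L, h1, -, h3⟩ := gTower_X (D := D) hY 0
  obtain ⟨h4, h5⟩ := large_of_residual h hR
  rw [h3]
  exact (kSys_of_large hp5 h4 h5).homEqNum 0 L h1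

end

end Pool.Agent.U175.LP
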