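import Mathlib

/-!
# Primitive residual representations which contain a transvection: definitions
-/

namespace Pool.Agent.U175.LP.Res

noncomputable section

variable {Γ : Type} [Group Γ] {p : ℕ} [hp : Fact p.Prime] {C : Type} [Field C] [Algebra ℚ_[p] C]

variable (p C) in
/-- The inclusion of the `p`-adic integers in a field which contains the `p`-adic numbers. -/
def incl : ℤ_[p] →+* C := (algebraMap ℚ_[p] C).comp (algebraMap ℤ_[p] ℚ_[p])

variable (C) in
/-- The action on the Tate twists: the inverse of the cyclotomic character `κ`, with values in a field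
`C` which contains the `p`-adic numbers. -/
def twist (κ : Γ →* ℤ_[p]ˣ) : Γ →* Cˣ := (Units.map (incl p C : ℤ_[p] →* C)).comp κ⁻¹

variable (C) in
/-- The map `A` has the matrix `R` over the `p`-adic integers on the vectors `b`. -/
def HasMatrix {M : Type} [AddCommGroup M] [Module C M] {n : ℕ} (A : M → M) (b : Fin n → M)
    (R : Matrix (Fin n) (Fin n) ℤ_[p]) : Prop :=
  ∀ a, A (b a) = ∑ c, incl p C (R c a) • b c

/-- The reduction of a `p`-adic matrix modulo `p`. -/
def red {m n : ℕ} (M : Matrix (Fin m) (Fin n) ℤ_[p]) : Matrix (Fin m) (Fin n) (ZMod p) :=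
  M.map PadicInt.toZMod

/-- The product of two vectors modulo `p` for the form `J`. -/
def dot {n : ℕ} (J : Matrix (Fin n) (Fin n) ℤ_[p]) (v w : Fin n → ZMod p) : ZMod p :=
  v ⬝ᵥ (red J).mulVec w

/-- The vectors `b a` generate a lattice over the `p`-adic integers in the subspace `T` of `M`, stable
under `Γ`; the action of `Γ` is given by the matrices `ρ g`, and a nonzero multiple of the form
`t (x * y)` by the matrix `J`, which is not divisible by `p`. The space `T` is contained in `U`. -/
structure IsStableLattice {M : Type} [Ring M] [Algebra C M] (υ : Γ →* (M ≃ₐ[C] M)) (t : M →ₗ[C] C)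
    (T U : Submodule C M) {n : ℕ} (b : Fin n → M) (J : Matrix (Fin n) (Fin n) ℤ_[p])
    (ρ : Γ →* Matrix (Fin n) (Fin n) ℤ_[p]) : Prop where
  le : T ≤ U
  span : Submodule.span C (Set.range b) = T
  act : ∀ g, HasMatrix C (υ g) b (ρ g)
  form : ∃ r : C, r ≠ 0 ∧ ∀ a c, r * t (b a * b c) = incl p C (J a c)
  reduction_ne : red J ≠ 0

/-- The residual representation is primitive for the form `J`: the only subspaces `W` such that for all
`g` the subspace `g W` is equal to `W` or orthogonal to `W` are zero and the whole space. So the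
residual representation is irreducible, and there is no orthogonal decomposition into at least two
subspaces which are permuted by `Γ`. -/
def IsPrimitive {n : ℕ} (J : Matrix (Fin n) (Fin n) ℤ_[p])
    (ρ : Γ →* Matrix (Fin n) (Fin n) ℤ_[p]) : Prop :=
  ∀ W : Submodule (ZMod p) (Fin n → ZMod p),
    (∀ g, W.map (red (ρ g)).mulVecLin = W ∨
      ∀ x ∈ W, ∀ y ∈ W, dot J ((red (ρ g)).mulVec x) y = 0) → W = ⊥ ∨ W = ⊤

variable {ι : Type} {N : ι → ℕ}

/-- The element `g` of `Γ` acts modulo `p` on the lattice `i` by a transvection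
`x ↦ x + c * ⟨v, x⟩ * v` with `c ≠ 0`, and trivially modulo `p` on the other lattices of the same rank;
if `N i * (N i + 1) ≤ 2 * d ^ 2` then `g` also acts trivially modulo `p` on the lattice of rank `d` with
the action `τ`. -/
structure Transvects (J : ∀ i, Matrix (Fin (N i)) (Fin (N i)) ℤ_[p])
    (ρ : ∀ i, Γ →* Matrix (Fin (N i)) (Fin (N i)) ℤ_[p]) {d : ℕ}
    (τ : Γ →* Matrix (Fin d) (Fin d) ℤ_[p]) (i : ι) (v : Fin (N i) → ZMod p) (g : Γ) : Prop where
  self : ∃ c : ZMod p, c ≠ 0 ∧ ∀ x, (red (ρ i g)).mulVec x = x + (c * dot (J i) v x) • v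
  same_rank : ∀ j, j ≠ i → N j = N i → red (ρ j g) = 1
  base : N i * (N i + 1) ≤ 2 * d ^ 2 → red (τ g) = 1

/-- **Residual transvections.** The space `A` has a lattice over the `p`-adic integers, of rank `d`,
which is stable under `Γ`; the residual representation on the lattice `i` is primitive, and some `g` in
`Γ` acts on it by a nontrivial transvection, and trivially modulo `p` on the other lattices of the same
rank, and on the lattice in `A` if `N i * (N i + 1) ≤ 2 * d ^ 2`. -/
def ResidualTransvections {A : Type} [Ring A] [Algebra C A] (υ : Γ →* (A ≃ₐ[C] A))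
    (J : ∀ i, Matrix (Fin (N i)) (Fin (N i)) ℤ_[p])
    (ρ : ∀ i, Γ →* Matrix (Fin (N i)) (Fin (N i)) ℤ_[p]) : Prop :=
  ∃ (d : ℕ) (f : Module.Basis (Fin d) C A) (τ : Γ →* Matrix (Fin d) (Fin d) ℤ_[p]),
    (∀ g, HasMatrix C (υ g) f (τ g)) ∧
    ∀ i, IsPrimitive (J i) (ρ i) ∧
      ∃ v : Fin (N i) → ZMod p, v ≠ 0 ∧ ∃ g : Γ, Transvects J ρ τ i v g

end

end Pool.Agent.U175.LP.Res
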