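import Mathlib
import Pool.Agent.TH125.Gal.Pub2
import Pool.Agent.U175.LP.PubR

/-!
# Varieties with lattices over the `p`-adic integers: definitions
-/

open CategoryTheory AlgebraicGeometry

universe u

namespace Pool.Agent.U175.LP.Res

open Pool.Agent.TH125.Gal Pool.Agent.H914 Pool.Agent.H914.VarClass
  Pool.Agent.H914.VarClass.Obj Pool.Agent.H914.WeilCohomology Pool.Agent.H281R3.HT

noncomputable section

variable {Γ : Type} [Group Γ] {p : ℕ} [hp : Fact p.Prime] {ι : Type} {N : ι → ℕ}
  {k : Type u} [Field k] {𝒱 : VarClass k} {ops : CycleOps 𝒱}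
  {W : WeilCohomology.{u, 0} ops} [Algebra ℚ_[p] W.K]

/-- `Γ` acts on the cohomology of the odd-dimensional varieties `X i` like a Galois group (with the
cyclotomic character `κ`); homological and numerical equivalence coincide for `X i`; the
transcendental cohomology of `X i` is in the middle degree, and has a stable lattice with the basis
`b i`, the action `ρ i` and the form `J i`. -/
structure ResidualFamily (κ : Γ →* ℤ_[p]ˣ) (X : ι → GVar W Γ)
    (b : ∀ i, Fin (N i) → W.H (X i).X) (J : ∀ i, Matrix (Fin (N i)) (Fin (N i)) ℤ_[p])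
    (ρ : ∀ i, Γ →* Matrix (Fin (N i)) (Fin (N i)) ℤ_[p]) : Prop where
  galois : ∀ i, IsGaloisVar (twist W.K κ) (X i)
  homEqNum : ∀ i, HomEqNum W (X i).X
  odd : ∀ i, Odd (X i).X.dim
  lattice : ∀ i, IsStableLattice (X i).act (W.tr (X i).X) (transcendental W (X i).X)
    (W.gr (X i).X (X i).X.dim) (b i) (J i) (ρ i)

end

end Pool.Agent.U175.LP.Res
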