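import Mathlib
import Pool.Agent.U175.LP.P3
import Pool.Agent.U175.LP.PubS
import Pool.Agent.U175.LP.PubF

/-!
# Primitive residual representations which contain a transvection
-/

set_option linter.unusedSectionVars false

open CategoryTheory AlgebraicGeometry

universe u

namespace Pool.Agent.U175.LP

open Module Matrix
open Pool.Agent.TH125.Gal Pool.Agent.H914 Pool.Agent.H914.VarClass Pool.Agent.V11219.Bst
  Pool.Agent.H914.VarClass.Obj Pool.Agent.H914.WeilCohomology Pool.Agent.H281R3.HT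

noncomputable section

variable {Γ : Type} [Group Γ] {p : ℕ} [hp : Fact p.Prime] {C : Type} [Field C] [Algebra ℚ_[p] C]
  {ι : Type} {N : ι → ℕ}

theorem pub_lattice {M : Type} [Ring M] [Algebra C M] {υ : Γ →* (M ≃ₐ[C] M)} {t : M →ₗ[C] C}
    {T U : Submodule C M} {n : ℕ} {b : Fin n → M} {J : Matrix (Fin n) (Fin n) ℤ_[p]}
    {ρ : Γ →* Matrix (Fin n) (Fin n) ℤ_[p]} (h : Res.IsStableLattice υ t T U b J ρ) :
    Pub.IsStableLattice υ t T b J ρ :=
  ⟨h.span, h.act, h.form, h.reduction_ne⟩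

theorem pub_trans {A : Type} [Ring A] [Algebra C A] {υ : Γ →* (A ≃ₐ[C] A)}
    {J : ∀ i, Matrix (Fin (N i)) (Fin (N i)) ℤ_[p]}
    {ρ : ∀ i, Γ →* Matrix (Fin (N i)) (Fin (N i)) ℤ_[p]}
    (h : Res.ResidualTransvections υ J ρ) : Pub.ResidualTransvections υ J ρ := by
  obtain ⟨d, f, τ, h1, h2⟩ := h
  refine ⟨d, f, τ, h1, fun i => ?_⟩
  obtain ⟨h3, v, hv, g, hg⟩ := h2 i
  exact ⟨h3, v, hv, g, hg.self, hg.same_rank, hg.base⟩

variable {J : ∀ i, Matrix (Fin (N i)) (Fin (N i)) ℤ_[p]}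
  {ρ : ∀ i, Γ →* Matrix (Fin (N i)) (Fin (N i)) ℤ_[p]}
  {k : Type u} [Field k] {𝒱 : VarClass k} {ops : CycleOps 𝒱}
  {W : WeilCohomology.{u, 0} ops} [Algebra ℚ_[p] W.K] {X : ι → GVar W Γ}
  {D : ∀ i, (X i).X.Cycles} {Z : GVar W Γ} {κ : Γ →* ℤ_[p]ˣ} {G : Set (GVar W Γ)}
  {b : ∀ i, Fin (N i) → W.H (X i).X}

theorem pub_family (h : Res.ResidualFamily κ X b J ρ) : Pub.ResidualFamily κ X b J ρ :=
  ⟨h.galois, h.homEqNum, h.odd, fun i => (h.lattice i).le, fun i => pub_lattice (h.lattice i)⟩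

theorem pub_system (h : Res.ResidualSystem κ G X D Z b J ρ) :
    Pub.ResidualSystem κ G X D Z b J ρ := by
  have hF : Pub.ResidualFamily κ X b J ρ :=
    ⟨fun i => h.galois.galois _ (h.mem i),
      fun i => Pool.Agent.V11219.Loc.homEqNum_of_pol (h.pol i), h.odd,
      fun i => (h.lattice i).le, fun i => pub_lattice (h.lattice i)⟩
  exact ⟨h.galois, h.mem, h.mem_base, h.odd, h.pol, fun i => (h.lattice i).le, hF.one_ne,
    fun i => pub_lattice (h.lattice i)⟩

/-- **Homological and numerical equivalence on products with residual transvections.** -/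
theorem num_residual [Finite ι] (hp5 : 5 ≤ p) (h : Res.ResidualSystem κ G X D Z b J ρ)
    (hR : Res.ResidualTransvections Z.act J ρ) (E : Z.X.Cycles) (L : List (ι × ℕ))
    (hLn : (L.map Prod.fst).Nodup) :
    (HomEqNum W (nodalTower X D Z E L).X ↔ HomEqNum W Z.X) ∧
    (HomEqNum W Z.X → ∀ (V : 𝒱.Obj) (g : (nodalTower X D Z E L).X ⟶ V), Dominant W g →
      HomEqNum W V) := by
  classical
  have := Fintype.ofFinite ι
  obtain ⟨h1, h2⟩ := large_of_residual (pub_system h) (pub_trans hR)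
  have h3 := kSys_of_large hp5 h1 h2
  exact ⟨h3.homEqNum E L hLn, fun hY V g hg => homEqNum_of_dominant hg ((h3.homEqNum E L hLn).2 hY)⟩

/-- **The Tate conjecture on products with residual transvections.** -/
theorem tate_residual [Finite ι] (hp5 : 5 ≤ p) (h : Res.ResidualFamily κ X b J ρ)
    (hR : Res.ResidualTransvections Z.act J ρ) {S : Set ι} {Y : GVar W Γ}
    (hY : GTower X Z S Y) :
    (TateConjecture (Res.twist W.K κ) Y ↔ TateConjecture (Res.twist W.K κ) Z) ∧
    (TateConjecture (Res.twist W.K κ) Z → ∀ (V : GVar W Γ) (g : Y.X ⟶ V.X), Dominant W g →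
      Equivariant g → TateConjecture (Res.twist W.K κ) V) := by
  classical
  have := Fintype.ofFinite ι
  have h1 := (tate_of_residual hp5 (pub_family h) (pub_trans hR) hY).1
  exact ⟨h1, fun hZ V g hg he => tate_of_dominant hg he (h1.2 hZ)⟩

end

end Pool.Agent.U175.LP
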