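import Mathlib
import Pool.Agent.U175.LP.V9

/-!
# Independent Frobenius eigenvalues give free eigenvalues modulo almost all prime numbers
-/

set_option autoImplicit false
set_option linter.unusedSectionVars false

namespace Pool.Agent.U175.LP

open NumberField IsDedekindDomain Module Matrix Polynomial Pool.Agent.Y114.RM Pool.Agent.Y114.GF
  Pool.Agent.Y114.TF Pool.Agent.Y114.MU Pool.Agent.R931.IR Pool.Agent.N203.RE
  Pool.Agent.U175.LP.Pub

noncomputable section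

/-- A polynomial which annihilates a matrix annihilates its eigenvalues. -/
theorem eig_poly {F : Type} [Field F] {N : ℕ} (T : Matrix (Fin N) (Fin N) F)
    {Ω : Type} [Field Ω] [Algebra F Ω] {α : Ω}
    (hα : (T.map (algebraMap F Ω)).charpoly.IsRoot α) (q : F[X]) (hq : aeval T q = 0) :
    aeval α q = 0 := by
  classical
  obtain ⟨v, hv, hvα⟩ : ∃ v : Fin N → Ω, v ≠ 0 ∧ (T.map (algebraMap F Ω)) *ᵥ v = α • v := by
    have h1 : (scalar (Fin N) α - T.map (algebraMap F Ω)).det = 0 := by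
      rw [← Matrix.eval_charpoly]
      exact hα
    obtain ⟨v, hv, h2⟩ := Matrix.exists_mulVec_eq_zero_iff.2 h1
    refine ⟨v, hv, ?_⟩
    rw [sub_mulVec, sub_eq_zero] at h2
    rw [← h2]
    ext i
    simp [Matrix.scalar_apply, Matrix.mulVec_diagonal]
  have key : ∀ q : F[X], ((aeval T q).map (algebraMap F Ω)) *ᵥ v = (aeval α q) • v := by
    intro q
    have hpow : ∀ m : ℕ, ((T ^ m).map (algebraMap F Ω)) *ᵥ v = α ^ m • v := by
      intro m
      induction m with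
      | zero => rw [pow_zero, pow_zero, Matrix.map_one _ (map_zero _) (map_one _), one_mulVec,
          one_smul]
      | succ m ih =>
        rw [pow_succ, pow_succ, Matrix.map_mul, ← mulVec_mulVec, hvα, mulVec_smul, ih, smul_smul,
          mul_comm]
    induction q using Polynomial.induction_on' with
    | add p q hp hq =>
      rw [map_add, map_add, Matrix.map_add _ (map_add (algebraMap F Ω)), add_mulVec, hp, hq,
        add_smul]
    | monomial m c =>
      rw [aeval_monomial, aeval_monomial, Algebra.algebraMap_eq_smul_one, smul_mul_assoc, one_mul]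
      have h1 : (c • T ^ m).map (algebraMap F Ω) =
          algebraMap F Ω c • (T ^ m).map (algebraMap F Ω) := by
        ext i j
        rw [Matrix.map_apply, Matrix.smul_apply, Matrix.smul_apply, Matrix.map_apply, smul_eq_mul,
          smul_eq_mul, map_mul]
      rw [h1, smul_mulVec, hpow, smul_smul]
  have h3 := key q
  rw [hq, Matrix.map_zero _ (map_zero _), zero_mulVec] at h3
  exact (smul_eq_zero.1 h3.symm).resolve_right hv

/-- Eigenvalues on a summand are eigenvalues on the direct sum. -/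
theorem component_root {F : Type} [Field F] {ι : Type} [Fintype ι] [DecidableEq ι] {n : ι → ℕ}
    (f : ∀ i, Module.End F (Fin (n i) → F)) (g : Module.End F (∀ i, Fin (n i) → F))
    (hg : ∀ x i, g x i = f i (x i)) {N : ℕ} (b : Basis (Fin N) F (∀ i, Fin (n i) → F))
    {Ω : Type} [Field Ω] [Algebra F Ω] {α : Ω} {i : ι} (hα : aeval α (f i).charpoly = 0) :
    ((LinearMap.toMatrix b b g).map (algebraMap F Ω)).charpoly.IsRoot α := by
  rw [Matrix.charpoly_map, LinearMap.charpoly_toMatrix, Polynomial.IsRoot,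
    Polynomial.eval_map_algebraMap]
  have h0 : aeval g g.charpoly = 0 := LinearMap.aeval_self_charpoly g
  have h1 : aeval (f i) g.charpoly = 0 := by
    refine LinearMap.ext fun v => ?_
    have h2 := congrFun (LinearMap.congr_fun h0 (Pi.single i v)) i
    rw [aeval_pi f g hg, Pi.single_eq_same] at h2
    exact h2
  have h2 : aeval (LinearMap.toMatrix' (f i)) g.charpoly = 0 := by
    have h3 : (LinearMap.toMatrixAlgEquiv' (R := F) (n := Fin (n i))).toAlgHom
        (aeval (f i) g.charpoly) = aeval (LinearMap.toMatrix' (f i)) g.charpoly := by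
      rw [← Polynomial.aeval_algHom_apply]
      rfl
    rw [← h3, h1, map_zero]
  refine eig_poly (LinearMap.toMatrix' (f i)) ?_ _ h2
  rw [Matrix.charpoly_map, ← LinearMap.toMatrix_eq_toMatrix', LinearMap.charpoly_toMatrix,
    Polynomial.IsRoot, Polynomial.eval_map_algebraMap]
  exact hα

/-- An algebraic number which is not zero has a multiple by an algebraic integer which is an
integer. -/
theorem exists_mult {α : ℂ} (h : IsAlgebraic ℚ α) (h0 : α ≠ 0) :
    ∃ (m : ℤ) (γ : ℂ), m ≠ 0 ∧ IsIntegral ℤ γ ∧ γ * α = m := by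
  have h1 : IsAlgebraic ℤ α⁻¹ := (IsFractionRing.isAlgebraic_iff ℤ ℚ ℂ).2 h.inv
  obtain ⟨m, hm, hint⟩ := h1.exists_integral_multiple
  refine ⟨m, m • α⁻¹, hm, hint, ?_⟩
  rw [zsmul_eq_mul, mul_assoc, inv_mul_cancel₀ h0, mul_one]

section residue

variable {p N r : ℕ} [hp : Fact p.Prime]

theorem root_ne_zero_mod {M : Matrix (Fin N) (Fin N) ℤ_[p]} (hM : IsUnit M.det) {k : Type}
    [Field k] [Algebra (ZMod p) k] {x : k} (hx : aeval x (red M).charpoly = 0) : x ≠ 0 := by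
  rintro rfl
  have h1 : ((red M).charpoly.map (algebraMap (ZMod p) k)).eval 0 = 0 := by
    rw [Polynomial.eval_map_algebraMap]
    exact hx
  have h2' : algebraMap (ZMod p) k (((red M).charpoly).eval 0) = 0 := by
    rw [← Polynomial.eval_map_apply, map_zero]
    exact h1
  have h2 : ((red M).charpoly).eval 0 = 0 := by
    apply (algebraMap (ZMod p) k).injective
    rw [h2', map_zero]
  rw [Matrix.eval_charpoly, map_zero, zero_sub, Matrix.det_neg] at h2
  have h3 : (red M).det = PadicInt.toZMod M.det := by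
    rw [RingHom.map_det]
    rfl
  have h4 : IsUnit (red M).det := h3 ▸ hM.map _
  rcases mul_eq_zero.1 h2 with h5 | h5
  · exact pow_ne_zero _ (neg_ne_zero.2 one_ne_zero) h5
  · exact h4.ne_zero h5

/-- Free eigenvalues modulo `p`. -/
theorem free_at {B : ℕ} {M : Matrix (Fin N) (Fin N) ℤ_[p]} (hM : IsUnit M.det)
    (j : PadicAlgCl p →+* ℂ) (z : Fin r → ℂ)
    (hz : ∀ k, (M.charpoly.map (j.comp (algebraMap ℤ_[p] (PadicAlgCl p)))).eval (z k) = 0)
    (m : (Fin r → ℤ) → ℤ) (γ : (Fin r → ℤ) → ℂ)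
    (hγ : ∀ e : Fin r → ℤ, e ≠ 0 → (∀ j, |e j| ≤ B) → IsIntegral ℤ (γ e) ∧
      γ e * (∏ k, z k ^ (e k).toNat - ∏ k, z k ^ (-e k).toNat) = m e ∧ ¬ (p : ℤ) ∣ m e) :
    FreeMod (red M) r B := by
  classical
  let C := integralClosure ℤ_[p] (PadicAlgCl p)
  let Ω := AlgebraicClosure (ZMod p)
  let ψ : ℤ_[p] →+* Ω := (algebraMap (ZMod p) Ω).comp (PadicInt.toZMod (p := p))
  have hjC : Function.Injective (algebraMap ℤ_[p] C) := fun a b hab =>
    alg_inj (congrArg Subtype.val hab)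
  obtain ⟨φ, hφ⟩ := exists_lift_integral hjC ψ
  have hval : Function.Injective (algebraMap C (PadicAlgCl p)) := Subtype.val_injective
  have hcl : ∀ x : PadicAlgCl p, IsIntegral C x → ∃ c : C, algebraMap C (PadicAlgCl p) c = x :=
    fun x hx => ⟨⟨x, isIntegral_trans (R := ℤ_[p]) (A := C) x hx⟩, rfl⟩
  let J : C →+* ℂ := j.comp (algebraMap C (PadicAlgCl p))
  have hJ : Function.Injective J := j.injective.comp hval
  have hroots : ∀ k, ∃ c : C, (M.charpoly.map (algebraMap ℤ_[p] C)).eval c = 0 ∧ J c = z k := by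
    intro k
    refine exists_root_lift hval hcl J _ _ ((Matrix.charpoly_monic M).map _) rfl _ ?_
    rw [Polynomial.map_map]
    exact hz k
  choose c hc1 hc2 using hroots
  have hx : ∀ k, aeval (φ (c k)) (red M).charpoly = 0 := by
    intro k
    have h1 : (red M).charpoly = M.charpoly.map (PadicInt.toZMod (p := p)) :=
      Matrix.charpoly_map M _
    have h2 : (M.charpoly.map (algebraMap ℤ_[p] C)).map φ =
        (red M).charpoly.map (algebraMap (ZMod p) Ω) := by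
      rw [h1, Polynomial.map_map, Polynomial.map_map]
      congr 1
      exact RingHom.ext fun z => hφ z
    rw [← Polynomial.eval_map_algebraMap, ← h2, Polynomial.eval_map_apply, hc1, map_zero]
  refine ⟨Ω, inferInstance, inferInstance, fun k => φ (c k), hx, fun e he hrel => ?_⟩
  by_contra hne
  have hx0 : ∀ k, φ (c k) ≠ 0 := fun k => root_ne_zero_mod hM (hx k)
  rw [zpow_rel hx0] at hrel
  obtain ⟨hint, hmul, hndvd⟩ := hγ e hne he
  obtain ⟨f, hf, hfe⟩ := hint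
  obtain ⟨g, -, hg⟩ := exists_root_lift hval hcl J _ (f.map (Int.castRingHom C)) (hf.map _) rfl
    (γ e) (by
      rw [Polynomial.map_map, Polynomial.eval_map]
      have h1 : J.comp (Int.castRingHom C) = algebraMap ℤ ℂ := RingHom.ext_int _ _
      rw [h1]
      exact hfe)
  have h1 : g * (∏ k, c k ^ (e k).toNat - ∏ k, c k ^ (-e k).toNat) = (m e : C) := by
    apply hJ
    rw [map_mul, map_sub, map_prod, map_prod, map_intCast, hg]
    simp only [map_pow, hc2]
    exact hmul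
  have h2 := congrArg φ h1
  rw [map_mul, map_sub, map_prod, map_prod, map_intCast] at h2
  simp only [map_pow] at h2
  rw [hrel, sub_self, mul_zero] at h2
  apply hndvd
  rw [← ZMod.intCast_zmod_eq_zero_iff_dvd]
  apply (algebraMap (ZMod p) Ω).injective
  rw [map_intCast, map_zero]
  exact h2.symm

end residue

section main

variable {ι : Type} [Fintype ι] [DecidableEq ι] {n : ι → ℕ}
variable {Γ : Type} [Group Γ] [TopologicalSpace Γ]

theorem place_of_independent {s : Gal(AlgebraicClosure ℚ/ℚ) →* Γ} {w : ι → ℤ}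
    {S : Set (HeightOneSpectrum (𝓞 ℚ))} {P : HeightOneSpectrum (𝓞 ℚ) → ι → ℚ[X]}
    {ρ : ∀ (ℓ : ℕ) [Fact ℓ.Prime], Reps Γ n ℓ} {𝔤 : Submodule ℚ (End ℚ (Betti n))}
    (h : Realizations s w S P ρ 𝔤) {c : ℕ} (hint : IntegralOutside S P c)
    {r : ℕ} (p : ℕ) [hp : Fact p.Prime]
    (hσ : ∃ σ, IndependentEigenvalues (ρ p) (s σ) r) :
    ∃ v, v ∉ S ∧ IndepRoots r (Set.range (P v)) := by
  obtain ⟨σ, hσ⟩ := hσ
  obtain ⟨v, hv, hind, -⟩ := exists_indep (restrictTo (ρ p) s)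
    (fun i => (h.continuous p i).comp h.continuous_point) w c
    (S ∪ {v | Above v p}) (h.finite.union (finite_above p hp.out)) P
    (fun v hv i => ⟨h.good p v (fun h => hv (Or.inl h)) (fun h => hv (Or.inr h)) i,
      hint v (fun h => hv (Or.inl h)) i⟩)
    σ r hσ Set.univ isOpen_univ (Set.mem_univ _)
  exact ⟨v, fun h => hv (Or.inl h), hind⟩

theorem place_of_mod {s : Gal(AlgebraicClosure ℚ/ℚ) →* Γ} {w : ι → ℤ}
    {S : Set (HeightOneSpectrum (𝓞 ℚ))} {P : HeightOneSpectrum (𝓞 ℚ) → ι → ℚ[X]}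
    {ρ : ∀ (ℓ : ℕ) [Fact ℓ.Prime], Reps Γ n ℓ} {𝔤 : Submodule ℚ (End ℚ (Betti n))}
    (h : Realizations s w S P ρ 𝔤) {c : ℕ} (hint : IntegralOutside S P c)
    {r : ℕ} {p : ℕ} [hp : Fact p.Prime]
    {N : ℕ} (b : Basis (Fin N) ℚ_[p] (∀ i, Fin (n i) → ℚ_[p]))
    {R : Gal(AlgebraicClosure ℚ/ℚ) →* Matrix (Fin N) (Fin N) ℤ_[p]}
    (hR : ∀ g, LinearMap.toMatrix b b (sumRep (ρ p) (s g)) = (R g).map (algebraMap ℤ_[p] ℚ_[p]))
    {B : ℕ} (hB : ∀ κ : Fin r → ι,
      ∀ e ∈ exs (fun k => w (κ k)) (bd (fun k => w (κ k)) c (∑ i, n i)), ∀ k,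
        |(((2 * (∑ i, n i) ^ r).factorial : ℕ) : ℤ) * e k| ≤ B)
    (hσ : ∃ σ, FreeMod (red (R σ)) r B) :
    ∃ v, v ∉ S ∧ IndepRoots r (Set.range (P v)) := by
  obtain ⟨σ, hσ⟩ := hσ
  obtain ⟨v, hv, hind⟩ := exists_place_mod (restrictTo (ρ p) s)
    (fun i => (h.continuous p i).comp h.continuous_point) w c
    (S ∪ {v | Above v p}) (h.finite.union (finite_above p hp.out)) P
    (fun v hv i => ⟨h.good p v (fun h => hv (Or.inl h)) (fun h => hv (Or.inr h)) i,
      hint v (fun h => hv (Or.inl h)) i⟩)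
    b (continuous_model h.continuous_point (h.continuous p) b hR) hR hB σ hσ
  exact ⟨v, fun h => hv (Or.inl h), hind⟩

/-- Independent Frobenius eigenvalues at one place give free eigenvalues modulo almost all prime
numbers. -/
theorem free_of_place {s : Gal(AlgebraicClosure ℚ/ℚ) →* Γ} {w : ι → ℤ}
    {S : Set (HeightOneSpectrum (𝓞 ℚ))} {P : HeightOneSpectrum (𝓞 ℚ) → ι → ℚ[X]}
    {ρ : ∀ (ℓ : ℕ) [Fact ℓ.Prime], Reps Γ n ℓ} {𝔤 : Submodule ℚ (End ℚ (Betti n))}
    (h : Realizations s w S P ρ 𝔤) {r : ℕ}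
    (hv : ∃ v, v ∉ S ∧ IndepRoots r (Set.range (P v))) (B : ℕ) :
    ∃ T : Set ℕ, T.Finite ∧ ∀ (p : ℕ) [Fact p.Prime], p ∉ T → ∀ (N : ℕ)
      (b : Basis (Fin N) ℚ_[p] (∀ i, Fin (n i) → ℚ_[p]))
      (R : Gal(AlgebraicClosure ℚ/ℚ) →* Matrix (Fin N) (Fin N) ℤ_[p]),
      (∀ g, LinearMap.toMatrix b b (sumRep (ρ p) (s g)) =
        (R g).map (algebraMap ℤ_[p] ℚ_[p])) → ∃ σ, FreeMod (red (R σ)) r B := by
  classical
  obtain ⟨v, hvS, z, hz, hind⟩ := hv
  obtain ⟨q₀, hq₀, hqv⟩ := exists_prime v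
  obtain ⟨ℓ₀, hℓ₀, hne₀⟩ : ∃ ℓ₀ : ℕ, ℓ₀.Prime ∧ q₀ ≠ ℓ₀ := by
    by_cases h2 : q₀ = 2
    · exact ⟨3, Nat.prime_three, by rw [h2]; decide⟩
    · exact ⟨2, Nat.prime_two, h2⟩
  have hF : Fact ℓ₀.Prime := ⟨hℓ₀⟩
  have hgood₀ : ∀ i, GoodReduction (restrictTo (ρ ℓ₀) s) i (w i) v (P v i) := fun i =>
    h.good ℓ₀ v hvS (notAbove_of_ne hq₀ hℓ₀ hne₀ hqv) i
  have hz0 : ∀ k, z k ≠ 0 := by
    intro k h0
    obtain ⟨f, ⟨i, rfl⟩, hfz⟩ := hz k
    have h1 := (hgood₀ i).1 (z k) (by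
      rw [mem_aroots]
      exact ⟨(good_poly (hgood₀ i)).1, hfz⟩)
    have hqq : q v = q₀ := absNorm_eq hq₀ hqv
    rw [h0, norm_zero, hqq, zero_pow two_ne_zero] at h1
    exact zpow_ne_zero (w i) (Nat.cast_ne_zero.2 hq₀.ne_zero) h1.symm
  have halg : ∀ k, IsIntegral ℚ (z k) := by
    intro k
    obtain ⟨f, ⟨i, rfl⟩, hfz⟩ := hz k
    exact (show IsAlgebraic ℚ (z k) from ⟨P v i, (good_poly (hgood₀ i)).1, hfz⟩).isIntegral
  have key : ∀ e : Fin r → ℤ, ∃ (m : ℤ) (γ : ℂ), e ≠ 0 → m ≠ 0 ∧ IsIntegral ℤ γ ∧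
      γ * (∏ k, z k ^ (e k).toNat - ∏ k, z k ^ (-e k).toNat) = m := by
    intro e
    by_cases he : e = 0
    · exact ⟨0, 0, fun h => absurd he h⟩
    obtain ⟨m, γ, h1⟩ := exists_mult
      (α := ∏ k, z k ^ (e k).toNat - ∏ k, z k ^ (-e k).toNat)
      (IsIntegral.isAlgebraic ((IsIntegral.prod _ fun k _ => (halg k).pow _).sub
        (IsIntegral.prod _ fun k _ => (halg k).pow _)))
      (fun h0 => he (hind e ((zpow_rel hz0 e).2 (sub_eq_zero.1 h0))))
    exact ⟨m, γ, fun _ => h1⟩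
  choose m γ hmγ using key
  refine ⟨{q₀} ∪ ⋃ e ∈ Set.Icc (fun _ : Fin r => -(B : ℤ)) (fun _ => (B : ℤ)),
    {p : ℕ | m e ≠ 0 ∧ (p : ℤ) ∣ m e}, (Set.finite_singleton q₀).union
      ((Set.finite_Icc _ _).biUnion fun e _ => (Set.finite_Iic (m e).natAbs).subset ?_), ?_⟩
  · rintro p ⟨h1, h2⟩
    exact Nat.le_of_dvd (Int.natAbs_pos.2 h1) (Int.natCast_dvd.1 h2)
  intro p hp hpT N b R hR
  obtain ⟨Q, τ, hQ, hQv, hτ⟩ := Pool.Agent.W571.FM.frob_cm v
  obtain ⟨j⟩ := exists_emb p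
  have hne : q₀ ≠ p := by
    rintro rfl
    exact hpT (Or.inl rfl)
  have hgood : ∀ i, GoodReduction (restrictTo (ρ p) s) i (w i) v (P v i) := fun i =>
    h.good p v hvS (notAbove_of_ne hq₀ hp.out hne hqv) i
  refine ⟨τ⁻¹, free_at (isUnit_det_model R τ⁻¹) j z (fun k => ?_) m γ (fun e he hB => ?_)⟩
  · obtain ⟨f, ⟨i, rfl⟩, hfz⟩ := hz k
    have h1 : (restrictTo (ρ p) s i τ⁻¹).charpoly = (P v i).map (algebraMap ℚ ℚ_[p]) :=
      ((hgood i).2 Q ⟨hQ.isPrime, hQv⟩ τ).2 hτ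
    let _ : Algebra ℚ_[p] ℂ := (j.comp (algebraMap ℚ_[p] (PadicAlgCl p))).toAlgebra
    have h2 : aeval (z k) (ρ p i (s τ⁻¹)).charpoly = 0 := by
      have h3 : (ρ p i (s τ⁻¹)).charpoly = (P v i).map (algebraMap ℚ ℚ_[p]) := h1
      have h4 : (algebraMap ℚ_[p] ℂ).comp (algebraMap ℚ ℚ_[p]) = algebraMap ℚ ℂ :=
        Subsingleton.elim _ _
      rw [h3, aeval_def, eval₂_map, h4]
      exact hfz
    have h4 := component_root (fun i => ρ p i (s τ⁻¹)) (sumRep (ρ p) (s τ⁻¹))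
      (fun x i => rfl) b h2
    rw [hR] at h4
    have h5 : ((R τ⁻¹).map (algebraMap ℤ_[p] ℚ_[p])).map (algebraMap ℚ_[p] ℂ) =
        (R τ⁻¹).map (j.comp (algebraMap ℤ_[p] (PadicAlgCl p))) := by
      ext a d
      rfl
    rw [h5, Matrix.charpoly_map] at h4
    exact h4
  · obtain ⟨h1, h2, h3⟩ := hmγ e he
    refine ⟨h2, h3, fun hdvd => hpT (Or.inr ?_)⟩
    simp only [Set.mem_iUnion, Set.mem_ofPred_eq, Set.mem_Icc]
    exact ⟨e, ⟨fun k => (abs_le.1 (hB k)).1, fun k => (abs_le.1 (hB k)).2⟩, h1, hdvd⟩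

end main

end

end Pool.Agent.U175.LP
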