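import Mathlib

/-!
# Stable lattices of representations of compact groups
-/

set_option autoImplicit false
set_option linter.unusedSectionVars false

namespace Pool.Agent.U175.LP

open Module Matrix

noncomputable section

variable {p : ℕ} [hp : Fact p.Prime] {V : Type} [AddCommGroup V] [Module ℚ_[p] V]
  [FiniteDimensional ℚ_[p] V] {G : Type} [Group G]

/-- Coordinates of elements of a lattice. -/
theorem repr_extend [Module ℤ_[p] V] [IsScalarTower ℤ_[p] ℚ_[p] V] {N : ℕ}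
    {M : Submodule ℤ_[p] V} [Submodule.IsLattice ℚ_[p] M]
    (b : Basis (Fin N) ℤ_[p] M) (x : M) (a : Fin N) :
    (b.extendOfIsLattice ℚ_[p]).repr (x : V) a = algebraMap ℤ_[p] ℚ_[p] (b.repr x a) := by
  have h1 : (x : V) = ∑ c, (algebraMap ℤ_[p] ℚ_[p] (b.repr x c)) •
      (b.extendOfIsLattice ℚ_[p]) c := by
    conv_lhs => rw [← b.sum_repr x]
    rw [Submodule.coe_sum]
    refine Finset.sum_congr rfl fun c _ => ?_
    rw [Submodule.coe_smul_of_tower, Module.Basis.extendOfIsLattice_apply, algebraMap_smul]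
  rw [h1, map_sum, Finset.sum_apply']
  simp only [map_smul, Basis.repr_self, Finsupp.smul_apply, Finsupp.single_apply, smul_eq_mul,
    mul_ite, mul_one, mul_zero]
  rw [Finset.sum_ite_eq' Finset.univ a, if_pos (Finset.mem_univ a)]

/-- A bounded representation has a stable lattice. -/
theorem exists_lattice (f : G →* End ℚ_[p] V) {n : ℕ} (b₀ : Basis (Fin n) ℚ_[p] V)
    (hb : ∃ C : ℝ, ∀ g a c, ‖b₀.repr (f g (b₀ c)) a‖ ≤ C) :
    ∃ (N : ℕ) (b : Basis (Fin N) ℚ_[p] V) (R : G →* Matrix (Fin N) (Fin N) ℤ_[p]),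
      ∀ g, LinearMap.toMatrix b b (f g) = (R g).map (algebraMap ℤ_[p] ℚ_[p]) := by
  classical
  let _ : Module ℤ_[p] V := Module.compHom V (algebraMap ℤ_[p] ℚ_[p])
  have _ : IsScalarTower ℤ_[p] ℚ_[p] V := IsScalarTower.of_algebraMap_smul fun _ _ => rfl
  let M₀ : Submodule ℤ_[p] V := Submodule.span ℤ_[p] (Set.range b₀)
  have hM₀ : ∀ x : V, x ∈ M₀ ↔ ∀ a, ‖b₀.repr x a‖ ≤ 1 := by
    intro x
    rw [b₀.mem_span_iff_repr_mem ℤ_[p]]
    refine forall_congr' fun a => ⟨?_, fun h => ⟨⟨_, h⟩, rfl⟩⟩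
    rintro ⟨y, hy⟩
    rw [← hy]
    exact y.2
  let M : Submodule ℤ_[p] V := ⨅ g, M₀.comap ((f g).restrictScalars ℤ_[p])
  have hM : ∀ x : V, x ∈ M ↔ ∀ g, f g x ∈ M₀ := by
    intro x
    rw [Submodule.mem_iInf]
    rfl
  have hle : M ≤ M₀ := fun x hx => by
    have h1 := (hM x).1 hx 1
    rwa [map_one] at h1
  have hfg : M.FG := by
    have h1 : IsNoetherian ℤ_[p] M₀ := isNoetherian_span_of_finite _ (Set.finite_range b₀)
    have h2 : IsNoetherian ℤ_[p] M := isNoetherian_of_le hle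
    rw [← Module.Finite.iff_fg]
    infer_instance
  have hlat : Submodule.IsLattice ℚ_[p] M := by
    refine ⟨hfg, ?_⟩
    obtain ⟨C, hC⟩ := hb
    obtain ⟨m, hm⟩ : ∃ m : ℕ, C * ‖(p : ℚ_[p]) ^ m‖ ≤ 1 := by
      obtain ⟨m, hm⟩ := pow_unbounded_of_one_lt C (show (1 : ℝ) < p from
        by exact_mod_cast hp.out.one_lt)
      refine ⟨m, ?_⟩
      have hp0 : (0 : ℝ) < (p : ℝ) ^ m := pow_pos (by exact_mod_cast hp.out.pos) m
      rw [norm_pow, Padic.norm_p, inv_pow, ← div_eq_mul_inv, div_le_one hp0]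
      exact hm.le
    rw [eq_top_iff, ← b₀.span_eq, Submodule.span_le]
    rintro _ ⟨c, rfl⟩
    have h1 : (p : ℚ_[p]) ^ m • b₀ c ∈ M := by
      rw [hM]
      intro g
      rw [hM₀]
      intro a
      rw [map_smul, map_smul, Finsupp.smul_apply, smul_eq_mul, norm_mul, mul_comm]
      exact le_trans (mul_le_mul_of_nonneg_right (hC g a c) (norm_nonneg _)) hm
    have h2 : (p : ℚ_[p]) ^ m ≠ 0 := pow_ne_zero _ (by exact_mod_cast hp.out.ne_zero)
    have h3 := Submodule.smul_mem (Submodule.span ℚ_[p] (M : Set V)) ((p : ℚ_[p]) ^ m)⁻¹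
      (Submodule.subset_span h1)
    rwa [smul_smul, inv_mul_cancel₀ h2, one_smul] at h3
  have hst : ∀ g, ∀ x ∈ M, (f g).restrictScalars ℤ_[p] x ∈ M := by
    intro g x hx
    rw [hM]
    intro g'
    have h1 := (hM x).1 hx (g' * g)
    rw [map_mul] at h1
    exact h1
  let F : G →* End ℤ_[p] M :=
    { toFun := fun g => ((f g).restrictScalars ℤ_[p]).restrict (hst g)
      map_one' := by
        ext x
        change f 1 x = (x : V)
        rw [map_one]
        rfl
      map_mul' := fun g g' => by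
        ext x
        change f (g * g') x = f g (f g' x)
        rw [map_mul]
        rfl }
  let N := finrank ℤ_[p] M
  let b : Basis (Fin N) ℤ_[p] M := Module.finBasis ℤ_[p] M
  let R : G →* Matrix (Fin N) (Fin N) ℤ_[p] :=
    ((LinearMap.toMatrixAlgEquiv b : End ℤ_[p] M →* Matrix (Fin N) (Fin N) ℤ_[p])).comp F
  refine ⟨N, b.extendOfIsLattice ℚ_[p], R, fun g => ?_⟩
  ext a c
  rw [LinearMap.toMatrix_apply, Matrix.map_apply, Module.Basis.extendOfIsLattice_apply]
  have h1 : f g (b c : V) = ((F g (b c) : M) : V) := rfl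
  rw [h1, repr_extend b (F g (b c)) a]
  congr 1
  exact (LinearMap.toMatrix_apply b b (F g) a c).symm

end

end Pool.Agent.U175.LP
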