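import Mathlib
import Pool.Agent.U175.LP.V10
import Pool.Agent.U175.LP.V11

/-!
# Stable lattices in realizations
-/

set_option autoImplicit false
set_option linter.unusedSectionVars false

namespace Pool.Agent.U175.LP

open NumberField IsDedekindDomain Module Matrix Polynomial Pool.Agent.Y114.RM Pool.Agent.Y114.GF
  Pool.Agent.Y114.TF Pool.Agent.Y114.MU Pool.Agent.R931.IR Pool.Agent.N203.RE
  Pool.Agent.U175.LP.Pub

noncomputable section

variable {Γ : Type} [Group Γ] [TopologicalSpace Γ] {ι : Type} [Fintype ι] [DecidableEq ι]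
  {n : ι → ℕ} {p : ℕ} [hp : Fact p.Prime]

theorem exists_lattice_rep {G : Type} [Group G] [TopologicalSpace G] [CompactSpace G]
    {s : G →* Γ} (hs : Continuous s) {ρ : Reps Γ n p} (hρ : Conts ρ) :
    ∃ (N : ℕ) (b : Basis (Fin N) ℚ_[p] (∀ i, Fin (n i) → ℚ_[p]))
      (R : G →* Matrix (Fin N) (Fin N) ℤ_[p]),
      ∀ g, LinearMap.toMatrix b b (sumRep ρ (s g)) = (R g).map (algebraMap ℤ_[p] ℚ_[p]) := by
  classical
  let b₀ := Module.finBasis ℚ_[p] (∀ i, Fin (n i) → ℚ_[p])
  have h1 : ∀ x : ∀ i, Fin (n i) → ℚ_[p], Continuous fun g => sumRep ρ (s g) x := by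
    intro x
    refine continuous_pi fun i => ?_
    have h2 : ∀ g, sumRep ρ (s g) x i = LinearMap.toMatrix' (ρ i (s g)) *ᵥ x i := fun g =>
      (LinearMap.toMatrix'_mulVec (ρ i (s g)) (x i)).symm
    simp only [h2]
    exact Continuous.matrix_mulVec ((hρ i).comp hs) continuous_const
  have h2 : ∀ a c, ∃ C : ℝ, ∀ g, ‖b₀.repr (sumRep ρ (s g) (b₀ c)) a‖ ≤ C := by
    intro a c
    have h3 : Continuous fun g => b₀.coord a (sumRep ρ (s g) (b₀ c)) :=
      (LinearMap.continuous_of_finiteDimensional (b₀.coord a)).comp (h1 (b₀ c))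
    obtain ⟨C, hC⟩ := isCompact_univ.exists_bound_of_continuousOn h3.continuousOn
    exact ⟨C, fun g => hC g (Set.mem_univ g)⟩
  choose C hC using h2
  refine exists_lattice ((sumRep ρ).comp s) b₀ ⟨∑ a, ∑ c, |C a c|, fun g a c => ?_⟩
  refine le_trans (hC a c g) (le_trans (le_abs_self _) ?_)
  refine le_trans (Finset.single_le_sum (f := fun c => |C a c|) (fun _ _ => abs_nonneg _)
    (Finset.mem_univ c)) ?_
  exact Finset.single_le_sum (f := fun a => ∑ c, |C a c|)
    (fun _ _ => Finset.sum_nonneg fun _ _ => abs_nonneg _) (Finset.mem_univ a)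

theorem exists_prime_notMem {T : Set ℕ} (hT : T.Finite) : ∃ p : ℕ, p.Prime ∧ p ∉ T := by
  obtain ⟨p, hp⟩ := (Nat.infinite_setOf_prime.sdiff hT).nonempty
  exact ⟨p, hp.1, hp.2⟩

end

end Pool.Agent.U175.LP
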