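import Mathlib
import Pool.Agent.U175.LP.R12

/-!
# Tangent vectors kill Tate tensors
-/

set_option autoImplicit false
set_option linter.unusedSectionVars false

namespace Pool.Agent.U175.LP

open PadicInt Module Matrix Filter Topology Pool.Agent.U175.LP.Pub

noncomputable section

variable {p : ℕ} [hp : Fact p.Prime]

/-- Multilinear forms in `m` pairs of a vector and a covector. -/
abbrev Ten (p n m : ℕ) [Fact p.Prime] : Type :=
  MultilinearMap ℚ_[p] (fun _ : Fin m => (Fin n → ℚ_[p]) × (Fin n → ℚ_[p])) ℚ_[p]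

/-- The form is killed by `X`. -/
def KillsT {n m : ℕ} (X : Matrix (Fin n) (Fin n) ℚ_[p]) (φ : Ten p n m) : Prop :=
  ∀ v, ∑ l, φ (Function.update v l (X *ᵥ (v l).1, -(Xᵀ *ᵥ (v l).2))) = 0

/-- The form is invariant under a subgroup of finite index. -/
def TateT {n m : ℕ} {Γ : Type} [Group Γ] (ρ : Γ →* Matrix (Fin n) (Fin n) ℚ_[p])
    (φ : Ten p n m) : Prop :=
  ∃ U : Subgroup Γ, U.FiniteIndex ∧ ∀ g ∈ U, ∀ v,
    φ (fun l => (ρ g *ᵥ (v l).1, (ρ g⁻¹)ᵀ *ᵥ (v l).2)) = φ v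

variable {n : ℕ} {Γ : Type} [Group Γ] {R : Γ →* Matrix (Fin n) (Fin n) ℤ_[p]}

variable (R) in
/-- The action on the vectors and covectors. -/
def actR : Representation ℤ_[p] Γ ((Fin n → ℤ_[p]) × (Fin n → ℤ_[p])) where
  toFun g := (R g).mulVecLin.prodMap ((R g⁻¹)ᵀ).mulVecLin
  map_one' := by
    refine LinearMap.ext fun x => ?_
    rw [inv_one, map_one]
    refine Prod.ext ?_ ?_
    · exact one_mulVec _
    · change (1 : Matrix (Fin n) (Fin n) ℤ_[p])ᵀ *ᵥ x.2 = x.2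
      rw [transpose_one, one_mulVec]
  map_mul' g h := by
    refine LinearMap.ext fun x => ?_
    rw [_root_.mul_inv_rev, map_mul, map_mul, transpose_mul]
    refine Prod.ext ?_ ?_
    · change (R g * R h) *ᵥ x.1 = R g *ᵥ (R h *ᵥ x.1)
      rw [mulVec_mulVec]
    · change ((R g⁻¹)ᵀ * (R h⁻¹)ᵀ) *ᵥ x.2 = (R g⁻¹)ᵀ *ᵥ ((R h⁻¹)ᵀ *ᵥ x.2)
      rw [mulVec_mulVec]

theorem actR_apply (g : Γ) (x : (Fin n → ℤ_[p]) × (Fin n → ℤ_[p])) :
    actR R g x = (R g *ᵥ x.1, (R g⁻¹)ᵀ *ᵥ x.2) := rfl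

/-- The inclusion of the lattice. -/
def embL (p n : ℕ) [Fact p.Prime] : (Fin n → ℤ_[p]) →ₗ[ℤ_[p]] (Fin n → ℚ_[p]) :=
  (Algebra.linearMap ℤ_[p] ℚ_[p]).compLeft (Fin n)

theorem embL_apply (x : Fin n → ℤ_[p]) (i : Fin n) : embL p n x i = algebraMap ℤ_[p] ℚ_[p] (x i) :=
  rfl

theorem embL_mulVec (A : Matrix (Fin n) (Fin n) ℤ_[p]) (x : Fin n → ℤ_[p]) :
    embL p n (A *ᵥ x) = A.map (algebraMap ℤ_[p] ℚ_[p]) *ᵥ embL p n x := by
  funext i
  rw [embL_apply, mulVec, dotProduct, map_sum, mulVec, dotProduct]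
  refine Finset.sum_congr rfl fun j _ => ?_
  rw [map_mul, Matrix.map_apply, embL_apply]

/-- The action of a matrix on vectors and covectors. -/
def derR (X Y : Matrix (Fin n) (Fin n) ℤ_[p]) :
    Module.End ℤ_[p] ((Fin n → ℤ_[p]) × (Fin n → ℤ_[p])) :=
  X.mulVecLin.prodMap (Yᵀ).mulVecLin

theorem derR_apply (X Y : Matrix (Fin n) (Fin n) ℤ_[p]) (x : (Fin n → ℤ_[p]) × (Fin n → ℤ_[p])) :
    derR X Y x = (X *ᵥ x.1, Yᵀ *ᵥ x.2) := rfl

theorem derR_one : derR (1 : Matrix (Fin n) (Fin n) ℤ_[p]) 1 = 1 := by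
  refine LinearMap.ext fun x => ?_
  rw [derR_apply, transpose_one, one_mulVec, one_mulVec]
  rfl

theorem derR_add (X Y X' Y' : Matrix (Fin n) (Fin n) ℤ_[p]) :
    derR (X + X') (Y + Y') = derR X Y + derR X' Y' := by
  refine LinearMap.ext fun x => ?_
  rw [LinearMap.add_apply, derR_apply, derR_apply, derR_apply, transpose_add, add_mulVec, add_mulVec,
    Prod.mk_add_mk]

theorem derR_smul (c : ℤ_[p]) (X Y : Matrix (Fin n) (Fin n) ℤ_[p]) :
    derR (c • X) (c • Y) = c • derR X Y := by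
  refine LinearMap.ext fun x => ?_
  rw [LinearMap.smul_apply, derR_apply, derR_apply, transpose_smul, smul_mulVec, smul_mulVec,
    Prod.smul_mk]

theorem actR_eq (g : Γ) : actR R g = derR (R g) (R g⁻¹) := rfl

/-- The inverses of elements near to one. -/
theorem inv_near {X Z : Matrix (Fin n) (Fin n) ℤ_[p]} {σ : Γ} {k e : ℕ}
    (hσ : R σ = 1 + (p : ℤ_[p]) ^ (k + e) • (X + (p : ℤ_[p]) ^ k • Z)) :
    ∃ Z', R σ⁻¹ = 1 + (p : ℤ_[p]) ^ (k + e) • (-X + (p : ℤ_[p]) ^ k • Z') := by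
  obtain ⟨V, hV⟩ : ∃ V, V = X + (p : ℤ_[p]) ^ k • Z := ⟨_, rfl⟩
  rw [← hV] at hσ
  have h1 : R σ * R σ⁻¹ = 1 := by rw [← map_mul, mul_inv_cancel, map_one]
  have h2 : R σ⁻¹ = 1 - (p : ℤ_[p]) ^ (k + e) • (V * R σ⁻¹) := by
    rw [hσ, add_mul, one_mul, smul_mul_assoc] at h1
    rw [← h1]
    abel
  obtain ⟨W, hW⟩ : ∃ W, W = V * (V * R σ⁻¹) := ⟨_, rfl⟩
  have h4 : V * R σ⁻¹ = V - (p : ℤ_[p]) ^ (k + e) • W := by
    rw [hW]
    conv_lhs => rw [h2]
    rw [mul_sub, mul_one, mul_smul_comm]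
  refine ⟨-Z + (p : ℤ_[p]) ^ e • W, ?_⟩
  rw [h2, h4, hV, pow_add]
  module

/-- **Tangent vectors kill Tate tensors.** -/
theorem kills_of_tan {X : Matrix (Fin n) (Fin n) ℤ_[p]} (hX : TanA p R X) {m : ℕ} {φ : Ten p n m}
    {ρ : Γ →* Matrix (Fin n) (Fin n) ℚ_[p]} (hρ : ∀ g, ρ g = (R g).map (algebraMap ℤ_[p] ℚ_[p]))
    (hφ : TateT ρ φ) : KillsT (X.map (algebraMap ℤ_[p] ℚ_[p])) φ := by
  obtain ⟨U, hU, hφ⟩ := hφ
  let emb : ((Fin n → ℤ_[p]) × (Fin n → ℤ_[p])) →ₗ[ℤ_[p]] ((Fin n → ℚ_[p]) × (Fin n → ℚ_[p])) :=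
    (embL p n).prodMap (embL p n)
  let ψ : MultilinearMap ℤ_[p] (fun _ : Fin m => (Fin n → ℤ_[p]) × (Fin n → ℤ_[p])) ℚ_[p] :=
    (φ.restrictScalars ℤ_[p]).compLinearMap fun _ => emb
  have hψ : ∀ x, ψ x = φ fun l => emb (x l) := fun x => rfl
  have htw : IsTW (actR R) (Fin m) (1 : Γ →* Matrix (Fin 1) (Fin 1) ℤ_[p]) fun _ => ψ := by
    refine ⟨U, hU, fun g hg j x => ?_⟩
    rw [Fin.sum_univ_one, MonoidHom.one_apply, Subsingleton.elim j 0, one_apply_eq, one_smul, hψ,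
      hψ]
    have h1 := hφ g hg fun l => emb (x l)
    rw [← h1]
    congr 1
    funext l
    rw [actR_apply, hρ, hρ]
    refine Prod.ext (embL_mulVec _ _) ?_
    change embL p n ((R g⁻¹)ᵀ *ᵥ (x l).2) = _
    rw [embL_mulVec, transpose_map]
    rfl
  have hkill := kill_of_tan (ρ := actR R) (X := derR X (-X)) (t := 1) (d := 1) (fun k => by
    obtain ⟨n₀, h0⟩ := hX k
    refine ⟨max n₀ k, fun N hN => ?_⟩
    obtain ⟨σ, Z, hσ⟩ := h0 N ((le_max_left _ _).trans hN)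
    obtain ⟨e, rfl⟩ : ∃ e, N = k + e := ⟨N - k, by have := (le_max_right n₀ k).trans hN; omega⟩
    obtain ⟨Z', hσ'⟩ := inv_near hσ
    refine ⟨σ, derR Z Z', 0, ?_, ?_⟩
    · rw [actR_eq, hσ, hσ', derR_add, derR_one, derR_smul, derR_add, derR_smul]
    · rw [MonoidHom.one_apply, smul_zero, add_zero]) htw 0
  intro v
  obtain ⟨b, hb⟩ := IsLocalization.exist_integer_multiples_of_finite (nonZeroDivisors ℤ_[p])
    (fun i : Fin m × (Fin n ⊕ Fin n) => Sum.elim (v i.1).1 (v i.1).2 i.2)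
  choose c hc using hb
  have hc1 : ∀ l, (b : ℤ_[p]) • v l = emb (fun a => c (l, Sum.inl a), fun a => c (l, Sum.inr a)) := by
    intro l
    refine Prod.ext ?_ ?_
    · funext a
      exact (hc (l, Sum.inl a)).symm
    · funext a
      exact (hc (l, Sum.inr a)).symm
  have hβ : algebraMap ℤ_[p] ℚ_[p] (b : ℤ_[p]) ≠ 0 := by
    rw [Ne, map_eq_zero_iff _ (IsFractionRing.injective ℤ_[p] ℚ_[p])]
    exact nonZeroDivisors.coe_ne_zero b
  set β := algebraMap ℤ_[p] ℚ_[p] (b : ℤ_[p]) with hβd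
  have hc2 : ∀ l, β • v l = emb (fun a => c (l, Sum.inl a), fun a => c (l, Sum.inr a)) := by
    intro l
    rw [← hc1, hβd, algebraMap_smul]
  have h1 := hkill fun l => (fun a => c (l, Sum.inl a), fun a => c (l, Sum.inr a))
  have h2 : ∀ l, ψ (Function.update
      (fun l => ((fun a => c (l, Sum.inl a), fun a => c (l, Sum.inr a)) :
        (Fin n → ℤ_[p]) × (Fin n → ℤ_[p]))) l
      (derR X (-X) (fun a => c (l, Sum.inl a), fun a => c (l, Sum.inr a)))) =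
      β ^ m • φ (Function.update v l (X.map (algebraMap ℤ_[p] ℚ_[p]) *ᵥ (v l).1,
        -((X.map (algebraMap ℤ_[p] ℚ_[p]))ᵀ *ᵥ (v l).2))) := by
    intro l
    have h3 := φ.map_smul_univ (fun _ => β) (Function.update v l
      (X.map (algebraMap ℤ_[p] ℚ_[p]) *ᵥ (v l).1, -((X.map (algebraMap ℤ_[p] ℚ_[p]))ᵀ *ᵥ (v l).2)))
    rw [Finset.prod_const, Finset.card_univ, Fintype.card_fin] at h3
    rw [← h3, hψ]
    congr 1
    funext l'
    by_cases hl : l' = l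
    · subst hl
      rw [Function.update_self, Function.update_self, derR_apply]
      have h4 := hc2 l'
      refine Prod.ext ?_ ?_
      · change embL p n (X *ᵥ _) = β • (X.map (algebraMap ℤ_[p] ℚ_[p]) *ᵥ (v l').1)
        rw [embL_mulVec, ← mulVec_smul]
        congr 1
        exact (congrArg Prod.fst h4).symm
      · change embL p n ((-X)ᵀ *ᵥ _) = β • (-((X.map (algebraMap ℤ_[p] ℚ_[p]))ᵀ *ᵥ (v l').2))
        rw [embL_mulVec, smul_neg, ← mulVec_smul, ← neg_mulVec]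
        have h5 : ((-X)ᵀ).map (algebraMap ℤ_[p] ℚ_[p]) =
            -(X.map (algebraMap ℤ_[p] ℚ_[p]))ᵀ := by
          ext i j
          rw [Matrix.map_apply, transpose_apply, Matrix.neg_apply, Matrix.neg_apply, transpose_apply,
            Matrix.map_apply, map_neg]
        rw [h5]
        congr 1
        exact (congrArg Prod.snd h4).symm
    · rw [Function.update_of_ne hl, Function.update_of_ne hl, hc2]
  rw [Finset.sum_congr rfl fun l _ => h2 l, ← Finset.smul_sum] at h1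
  exact (smul_eq_zero.1 h1).resolve_left (pow_ne_zero _ hβ)

end

end Pool.Agent.U175.LP
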