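import Mathlib
import Pool.Agent.U175.LP.R4
import Pool.Agent.U175.LP.R13
import Pool.Agent.Y708.ZO.Tan

/-!
# The Lie algebra of the image from the dimension modulo `p`
-/

set_option autoImplicit false
set_option linter.unusedSectionVars false

namespace Pool.Agent.U175.LP

open PadicInt Module Matrix Filter Topology Pool.Agent.U175.LP.Pub Pool.Agent.Y142.ZO

noncomputable section

variable {p : ℕ} [hp : Fact p.Prime] {n : ℕ} {Γ : Type} [Group Γ]
  {R : Γ →* Matrix (Fin n) (Fin n) ℤ_[p]}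

theorem isTangent_of_tan (ρ : Γ →* Matrix (Fin n) (Fin n) ℚ_[p])
    (hρ : ∀ g, ρ g = (R g).map (algebraMap ℤ_[p] ℚ_[p])) {Y : Matrix (Fin n) (Fin n) ℤ_[p]}
    (hX : TanA p R Y) : IsTangent p ρ (Y.map (algebraMap ℤ_[p] ℚ_[p])) := by
  refine isTangent_of_tanA (κ := 1) (c := 0) ρ hρ fun m => ?_
  obtain ⟨n₀, h0⟩ := hX m
  refine ⟨n₀, fun n' hn => ?_⟩
  obtain ⟨σ, Z, hσ⟩ := h0 n' hn
  refine ⟨σ, (Z, 0), Prod.ext hσ ?_⟩
  change ((1 : ℤ_[p]ˣ) : ℤ_[p]) = 1 + (p : ℤ_[p]) ^ n' • (0 + (p : ℤ_[p]) ^ m • 0)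
  rw [smul_zero, add_zero, smul_zero, add_zero, Units.val_one]

/-- Small rational matrices. -/
theorem exists_integral {M : Matrix (Fin n) (Fin n) ℚ_[p]} {m : ℕ}
    (h : ∀ i j, ‖M i j‖ ≤ (p : ℝ) ^ (-(m : ℤ))) :
    ∃ Z : Matrix (Fin n) (Fin n) ℤ_[p], M = (p : ℚ_[p]) ^ m • Z.map (algebraMap ℤ_[p] ℚ_[p]) := by
  have hp0 : (p : ℚ_[p]) ≠ 0 := by exact_mod_cast hp.out.ne_zero
  have h1 : ∀ i j, ‖(p : ℚ_[p]) ^ (-(m : ℤ)) * M i j‖ ≤ 1 := by
    intro i j
    rw [norm_mul, norm_zpow, Padic.norm_p]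
    have h2 := h i j
    have hpp : (0 : ℝ) < p := by exact_mod_cast hp.out.pos
    calc ((p : ℝ)⁻¹) ^ (-(m : ℤ)) * ‖M i j‖ ≤ ((p : ℝ)⁻¹) ^ (-(m : ℤ)) * (p : ℝ) ^ (-(m : ℤ)) := by
          gcongr
      _ = 1 := by
          rw [← mul_zpow, inv_mul_cancel₀ hpp.ne', _root_.one_zpow]
  let z : Fin n → Fin n → ℤ_[p] := fun i j => ⟨_, h1 i j⟩
  refine ⟨Matrix.of z, ?_⟩
  ext i j
  rw [Matrix.smul_apply, Matrix.map_apply, Matrix.of_apply, smul_eq_mul]
  change M i j = (p : ℚ_[p]) ^ m * ((p : ℚ_[p]) ^ (-(m : ℤ)) * M i j)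
  rw [← mul_assoc, ← zpow_natCast, ← zpow_add₀ hp0, add_neg_cancel, zpow_zero, one_mul]

theorem map_inj {A B : Matrix (Fin n) (Fin n) ℤ_[p]}
    (h : A.map (algebraMap ℤ_[p] ℚ_[p]) = B.map (algebraMap ℤ_[p] ℚ_[p])) : A = B := by
  ext i j
  have h1 := congrFun (congrFun h i) j
  rw [Matrix.map_apply, Matrix.map_apply] at h1
  rw [IsFractionRing.injective ℤ_[p] ℚ_[p] h1]

theorem map_smul' (c : ℤ_[p]) (A : Matrix (Fin n) (Fin n) ℤ_[p]) :
    (c • A).map (algebraMap ℤ_[p] ℚ_[p]) =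
      algebraMap ℤ_[p] ℚ_[p] c • A.map (algebraMap ℤ_[p] ℚ_[p]) := by
  ext i j
  rw [Matrix.map_apply, Matrix.smul_apply, Matrix.smul_apply, Matrix.map_apply, smul_eq_mul,
    smul_eq_mul, map_mul]

theorem map_add' (A B : Matrix (Fin n) (Fin n) ℤ_[p]) :
    (A + B).map (algebraMap ℤ_[p] ℚ_[p]) =
      A.map (algebraMap ℤ_[p] ℚ_[p]) + B.map (algebraMap ℤ_[p] ℚ_[p]) := by
  ext i j
  rw [Matrix.map_apply, Matrix.add_apply, Matrix.add_apply, Matrix.map_apply, Matrix.map_apply,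
    map_add]

theorem map_one' : (1 : Matrix (Fin n) (Fin n) ℤ_[p]).map (algebraMap ℤ_[p] ℚ_[p]) = 1 := by
  rw [Matrix.map_one _ (map_zero _) (map_one _)]

/-- Tangent vectors over the field are multiples of integral ones. -/
theorem tan_of_isTangent {ρ : Γ →* Matrix (Fin n) (Fin n) ℚ_[p]}
    (hρ : ∀ g, ρ g = (R g).map (algebraMap ℤ_[p] ℚ_[p])) {X : Matrix (Fin n) (Fin n) ℚ_[p]}
    (hX : IsTangent p ρ X) : ∃ (a : ℕ) (Y : Matrix (Fin n) (Fin n) ℤ_[p]), TanA p R Y ∧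
      (p : ℚ_[p]) ^ a • X = Y.map (algebraMap ℤ_[p] ℚ_[p]) := by
  have hp0 : (p : ℚ_[p]) ≠ 0 := by exact_mod_cast hp.out.ne_zero
  have hp1 : (1 : ℝ) < p := by exact_mod_cast hp.out.one_lt
  have hpp : (0 : ℝ) < p := zero_lt_one.trans hp1
  choose b hb using fun i j => pow_unbounded_of_one_lt ‖X i j‖ hp1
  set a : ℕ := ∑ i, ∑ j, b i j with ha
  have hab : ∀ i j, ‖X i j‖ ≤ (p : ℝ) ^ a := by
    intro i j
    refine (hb i j).le.trans (pow_le_pow_right₀ hp1.le ?_)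
    refine (Finset.single_le_sum (f := fun j => b i j) (fun _ _ => Nat.zero_le _)
      (Finset.mem_univ j)).trans ?_
    exact Finset.single_le_sum (f := fun i => ∑ j, b i j) (fun _ _ => Nat.zero_le _)
      (Finset.mem_univ i)
  obtain ⟨Y, hY⟩ := exists_integral (p := p) (M := (p : ℚ_[p]) ^ a • X) (m := 0) (fun i j => by
    rw [Matrix.smul_apply, smul_eq_mul, norm_mul, norm_pow, Padic.norm_p, Nat.cast_zero, neg_zero,
      zpow_zero]
    calc ((p : ℝ)⁻¹) ^ a * ‖X i j‖ ≤ ((p : ℝ)⁻¹) ^ a * (p : ℝ) ^ a := by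
          gcongr
          exact hab i j
      _ = 1 := by rw [← mul_pow, inv_mul_cancel₀ hpp.ne', one_pow])
  rw [pow_zero, one_smul] at hY
  obtain ⟨σ, hσ⟩ := hX
  refine ⟨a, Y, fun m => ?_, hY⟩
  have h1 : ∀ᶠ k in atTop, ∀ i j,
      ‖(((p : ℚ_[p]) ^ k)⁻¹ • (ρ (σ k) - 1) - X) i j‖ ≤ (p : ℝ) ^ (-(m : ℤ)) := by
    rw [eventually_all]
    intro i
    rw [eventually_all]
    intro j
    have h2 : Tendsto (fun k => (((p : ℚ_[p]) ^ k)⁻¹ • (ρ (σ k) - 1) - X) i j) atTop (𝓝 0) := by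
      have h3 := ((tendsto_pi_nhds.1 (tendsto_pi_nhds.1 hσ i) j)).sub_const (X i j)
      rw [sub_self] at h3
      exact h3
    have h3 := h2.norm
    rw [norm_zero] at h3
    exact (h3.eventually (gt_mem_nhds (zpow_pos hpp _))).mono fun k hk => hk.le
  obtain ⟨n₀, h0⟩ := eventually_atTop.1 h1
  refine ⟨n₀, fun n' hn => ?_⟩
  obtain ⟨Z, hZ⟩ := exists_integral (h0 (n' + a) (by omega))
  refine ⟨σ (n' + a), (p : ℤ_[p]) ^ a • Z, map_inj ?_⟩
  rw [← hρ, map_add', map_smul', map_add', map_smul', map_smul', ← hY, map_one', map_pow, map_pow,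
    map_pow, map_natCast]
  have h4 : ρ (σ (n' + a)) = 1 + (p : ℚ_[p]) ^ (n' + a) •
      (X + ((p : ℚ_[p]) ^ m • Z.map (algebraMap ℤ_[p] ℚ_[p]))) := by
    rw [← hZ, add_sub_cancel, smul_smul, mul_inv_cancel₀ (pow_ne_zero _ hp0), one_smul,
      add_sub_cancel]
  rw [h4, pow_add]
  module

/-- Lifts of independent matrices are independent. -/
theorem li_lift {k : ℕ} {Y : Fin k → Matrix (Fin n) (Fin n) ℤ_[p]}
    (hY : LinearIndependent (ZMod p) fun i => red (Y i)) :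
    LinearIndependent ℚ_[p] fun i => (Y i).map (algebraMap ℤ_[p] ℚ_[p]) := by
  rw [← LinearIndependent.iff_fractionRing ℤ_[p] ℚ_[p], Fintype.linearIndependent_iff]
  intro c hc
  have hc' : ∑ i, c i • Y i = 0 := by
    apply map_inj
    rw [Matrix.map_zero _ (map_zero _), ← hc]
    have h1 : ∀ s : Finset (Fin k), (∑ i ∈ s, c i • Y i).map (algebraMap ℤ_[p] ℚ_[p]) =
        ∑ i ∈ s, c i • (Y i).map (algebraMap ℤ_[p] ℚ_[p]) := by
      intro s
      induction s using Finset.induction_on with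
      | empty => rw [Finset.sum_empty, Finset.sum_empty, Matrix.map_zero _ (map_zero _)]
      | insert a s ha ih =>
        rw [Finset.sum_insert ha, Finset.sum_insert ha, map_add', ih, map_smul', algebraMap_smul]
    exact h1 Finset.univ
  have h1 : ∀ m : ℕ, ∃ d : Fin k → ℤ_[p], c = (p : ℤ_[p]) ^ m • d ∧ ∑ i, d i • Y i = 0 := by
    intro m
    induction m with
    | zero => exact ⟨c, by rw [pow_zero, one_smul], hc'⟩
    | succ m ih =>
      obtain ⟨d, hd, hd0⟩ := ih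
      have h2 : ∑ i, (toZMod (d i) : ZMod p) • red (Y i) = 0 := by
        have h3 := congrArg red hd0
        rw [red_sum, red_zero'] at h3
        rw [← h3]
        exact Finset.sum_congr rfl fun i _ => (red_smul _ _).symm
      have h3 := Fintype.linearIndependent_iff.1 hY _ h2
      choose e he using fun i => (toZMod_eq_zero _).1 (h3 i)
      refine ⟨e, ?_, ?_⟩
      · rw [hd, pow_succ, mul_smul]
        congr 1
        funext i
        exact he i
      · have h4 : (p : ℤ_[p]) • ∑ i, e i • Y i = 0 := by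
          rw [Finset.smul_sum, ← hd0]
          refine Finset.sum_congr rfl fun i _ => ?_
          rw [he i, smul_smul]
        exact (smul_eq_zero.1 h4).resolve_left p_ne_zero
  intro i
  refine eq_zero_of_dvd_pow' (p := p) fun m => ?_
  obtain ⟨d, hd, -⟩ := h1 m
  exact ⟨d i, by rw [hd]; rfl⟩

/-- **The dimension of the Lie algebra of the image.** -/
theorem finrank_tan {ρ : Γ →* Matrix (Fin n) (Fin n) ℚ_[p]}
    (hρ : ∀ g, ρ g = (R g).map (algebraMap ℤ_[p] ℚ_[p]))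
    {L : Submodule (ZMod p) (Matrix (Fin n) (Fin n) (ZMod p))} (hL : L ≤ L0 R) :
    finrank (ZMod p) L ≤ finrank ℚ_[p] (Pool.Agent.Y708.ZO.tan ρ) := by
  classical
  let b := Module.finBasis (ZMod p) L
  choose Y hY hr using fun i => hL (b i).2
  have h1 : LinearIndependent (ZMod p) fun i => red (Y i) := by
    have h2 : (fun i => red (Y i)) = fun i => (b i : Matrix (Fin n) (Fin n) (ZMod p)) :=
      funext hr
    rw [h2]
    exact b.linearIndependent.map' L.subtype (Submodule.ker_subtype L)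
  have h3 := li_lift h1
  let v : Fin (finrank (ZMod p) L) → Pool.Agent.Y708.ZO.tan ρ := fun i =>
    ⟨_, (Pool.Agent.Y708.ZO.mem_tan ρ _).2 (isTangent_of_tan ρ hρ (hY i))⟩
  have h4 : LinearIndependent ℚ_[p] v := by
    refine LinearIndependent.of_comp (Pool.Agent.Y708.ZO.tan ρ).subtype ?_
    exact h3
  have h5 := h4.fintype_card_le_finrank
  rwa [Fintype.card_fin] at h5

/-- The dimension of the Lie algebra of the image, if the determinant has infinite order. -/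
theorem finrank_tan' (hp3 : 3 ≤ p) {ρ : Γ →* Matrix (Fin n) (Fin n) ℚ_[p]}
    (hρ : ∀ g, ρ g = (R g).map (algebraMap ℤ_[p] ℚ_[p]))
    {L : Submodule (ZMod p) (Matrix (Fin n) (Fin n) (ZMod p))} (hL : L ≤ L2 R)
    {g : Γ} (hg : ∀ m, 0 < m → (R g).det ^ m ≠ 1) :
    finrank (ZMod p) L + 1 ≤ finrank ℚ_[p] (Pool.Agent.Y708.ZO.tan ρ) := by
  classical
  obtain ⟨T, hT, hT0⟩ := exists_trace hp3 hg
  let b := Module.finBasis (ZMod p) L
  choose Y hY hr htr using fun i => hL (b i).2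
  have h1 : LinearIndependent (ZMod p) fun i => red (Y i) := by
    have h2 : (fun i => red (Y i)) = fun i => (b i : Matrix (Fin n) (Fin n) (ZMod p)) :=
      funext hr
    rw [h2]
    exact b.linearIndependent.map' L.subtype (Submodule.ker_subtype L)
  have h3 := li_lift h1
  have htr0 : ∀ A : Matrix (Fin n) (Fin n) ℤ_[p], (A.map (algebraMap ℤ_[p] ℚ_[p])).trace =
      algebraMap ℤ_[p] ℚ_[p] A.trace := by
    intro A
    rw [trace, trace, map_sum]
    rfl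
  have h4 : LinearIndependent ℚ_[p] (Fin.cons (T.map (algebraMap ℤ_[p] ℚ_[p]))
      fun i => (Y i).map (algebraMap ℤ_[p] ℚ_[p]) :
      Fin (finrank (ZMod p) L + 1) → Matrix (Fin n) (Fin n) ℚ_[p]) := by
    refine linearIndependent_finCons.2 ⟨h3, fun hmem => hT0 ?_⟩
    have h5 : Submodule.span ℚ_[p] (Set.range fun i => (Y i).map (algebraMap ℤ_[p] ℚ_[p])) ≤
        LinearMap.ker (traceLinearMap (Fin n) ℚ_[p] ℚ_[p]) := by
      refine Submodule.span_le.2 ?_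
      rintro _ ⟨i, rfl⟩
      rw [SetLike.mem_coe, LinearMap.mem_ker, traceLinearMap_apply, htr0, htr, map_zero]
    have h6 := h5 hmem
    rw [LinearMap.mem_ker, traceLinearMap_apply, htr0] at h6
    exact (map_eq_zero_iff _ (IsFractionRing.injective ℤ_[p] ℚ_[p])).1 h6
  let v : Fin (finrank (ZMod p) L + 1) → Pool.Agent.Y708.ZO.tan ρ := Fin.cons
    ⟨_, (Pool.Agent.Y708.ZO.mem_tan ρ _).2 (isTangent_of_tan ρ hρ hT)⟩ fun i =>
    ⟨_, (Pool.Agent.Y708.ZO.mem_tan ρ _).2 (isTangent_of_tan ρ hρ (hY i))⟩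
  have h7 : LinearIndependent ℚ_[p] v := by
    refine LinearIndependent.of_comp (Pool.Agent.Y708.ZO.tan ρ).subtype ?_
    convert h4 using 1
    funext i
    refine Fin.cases ?_ (fun i => ?_) i
    · rfl
    · rfl
  have h5 := h7.fintype_card_le_finrank
  rwa [Fintype.card_fin] at h5

/-- Tangent vectors kill Tate tensors. -/
theorem kills_of_isTangent {ρ : Γ →* Matrix (Fin n) (Fin n) ℚ_[p]}
    (hρ : ∀ g, ρ g = (R g).map (algebraMap ℤ_[p] ℚ_[p])) {X : Matrix (Fin n) (Fin n) ℚ_[p]}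
    (hX : IsTangent p ρ X) {m : ℕ} {φ : Ten p n m} (hφ : TateT ρ φ) : KillsT X φ := by
  obtain ⟨a, Y, hY, hXY⟩ := tan_of_isTangent hρ hX
  have h1 := kills_of_tan hY hρ hφ
  rw [← hXY] at h1
  intro v
  have h2 := h1 v
  have h3 : ∀ l, φ (Function.update v l (((p : ℚ_[p]) ^ a • X) *ᵥ (v l).1,
      -(((p : ℚ_[p]) ^ a • X)ᵀ *ᵥ (v l).2))) =
      (p : ℚ_[p]) ^ a • φ (Function.update v l (X *ᵥ (v l).1, -(Xᵀ *ᵥ (v l).2))) := by
    intro l
    rw [← φ.map_update_smul, Prod.smul_mk, smul_mulVec, transpose_smul, smul_mulVec, smul_neg]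
  rw [Finset.sum_congr rfl fun l _ => h3 l, ← Finset.smul_sum] at h2
  have hp0 : (p : ℚ_[p]) ≠ 0 := by exact_mod_cast hp.out.ne_zero
  exact (smul_eq_zero.1 h2).resolve_left (pow_ne_zero _ hp0)

/-- **A Lie algebra of the right dimension is the Lie algebra of the image.** -/
theorem mem_iff_tangent (hp3 : 3 ≤ p) {ρ : Γ →* Matrix (Fin n) (Fin n) ℚ_[p]}
    (hρ : ∀ g, ρ g = (R g).map (algebraMap ℤ_[p] ℚ_[p]))
    {𝔤 : Submodule ℚ_[p] (Matrix (Fin n) (Fin n) ℚ_[p])} (h𝔤 : ∀ X, IsTangent p ρ X → X ∈ 𝔤)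
    {S : Set (Matrix (Fin n) (Fin n) (ZMod p))}
    (hS : ∀ X ∈ S, ∃ g, (red (R g) - 1) ^ ((p - 1) / 2) = 0 ∧ X = nlog (red (R g)))
    (hdim : finrank ℚ_[p] 𝔤 ≤ finrank (ZMod p) (genLie S) ∨
      ((∃ g, ∀ m, 0 < m → (R g).det ^ m ≠ 1) ∧
        finrank ℚ_[p] 𝔤 ≤ finrank (ZMod p) (derL (genLie S)) + 1))
    (X : Matrix (Fin n) (Fin n) ℚ_[p]) : X ∈ 𝔤 ↔ IsTangent p ρ X := by
  have h1 : Pool.Agent.Y708.ZO.tan ρ ≤ 𝔤 := fun X hX => h𝔤 X hX
  have h2 : finrank ℚ_[p] 𝔤 ≤ finrank ℚ_[p] (Pool.Agent.Y708.ZO.tan ρ) := by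
    rcases hdim with h | ⟨⟨g, hg⟩, h⟩
    · have h3 : genLie S ≤ L0 R := by
        refine sInf_le ⟨fun X hX => ?_, fun X hX Y hY => ?_⟩
        · obtain ⟨g, hg, rfl⟩ := hS X hX
          exact nlog_mem0 hp3 (by omega) hg
        · obtain ⟨Z, h1, h2, -⟩ := L0P_lie (R := R) hX hY
          exact ⟨Z, h1, h2⟩
      exact h.trans (finrank_tan hρ h3)
    · exact h.trans (finrank_tan' hp3 hρ (derL_le hp3 hS) hg)
  rw [← Submodule.eq_of_le_of_finrank_le h1 h2]
  rfl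

/-- The matrices which kill all forms in `Θ`. -/
def annT (Θ : ∀ m, Set (Ten p n m)) : Submodule ℚ_[p] (Matrix (Fin n) (Fin n) ℚ_[p]) where
  carrier := {X | ∀ m, ∀ φ ∈ Θ m, KillsT X φ}
  zero_mem' := by
    intro m φ _ v
    refine Finset.sum_eq_zero fun l _ => φ.map_coord_zero l ?_
    rw [Function.update_self, zero_mulVec, transpose_zero, zero_mulVec, neg_zero]
    rfl
  add_mem' := by
    intro X Y hX hY m φ hφ v
    have h1 : ∀ l, φ (Function.update v l ((X + Y) *ᵥ (v l).1, -((X + Y)ᵀ *ᵥ (v l).2))) =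
        φ (Function.update v l (X *ᵥ (v l).1, -(Xᵀ *ᵥ (v l).2))) +
        φ (Function.update v l (Y *ᵥ (v l).1, -(Yᵀ *ᵥ (v l).2))) := by
      intro l
      rw [← φ.map_update_add, Prod.mk_add_mk, add_mulVec, transpose_add, add_mulVec, neg_add]
    rw [Finset.sum_congr rfl fun l _ => h1 l, Finset.sum_add_distrib, hX m φ hφ v, hY m φ hφ v,
      add_zero]
  smul_mem' := by
    intro c X hX m φ hφ v
    have h1 : ∀ l, φ (Function.update v l ((c • X) *ᵥ (v l).1, -((c • X)ᵀ *ᵥ (v l).2))) =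
        c • φ (Function.update v l (X *ᵥ (v l).1, -(Xᵀ *ᵥ (v l).2))) := by
      intro l
      rw [← φ.map_update_smul, Prod.smul_mk, smul_mulVec, transpose_smul, smul_mulVec, smul_neg]
    rw [Finset.sum_congr rfl fun l _ => h1 l, ← Finset.smul_sum, hX m φ hφ v, smul_zero]

end

end Pool.Agent.U175.LP
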