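import Mathlib

/-!
# Lie algebras normalized by reflections
-/

set_option autoImplicit false
set_option linter.unusedSectionVars false

namespace Pool.Agent.U175.LP

open Module

noncomputable section

section wg

variable {k : Type*} [Field k] {V : Type*} [AddCommGroup V] [Module k V] (B : V →ₗ[k] V →ₗ[k] k)

/-- The exterior product of two vectors, as an operator. -/
def wg (u w : V) : Module.End k V := (B u).smulRight w - (B w).smulRight u

theorem wg_apply (u w x : V) : wg B u w x = B u x • w - B w x • u := rfl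

theorem wg_anti (u w : V) : wg B u w = -wg B w u := by
  ext x
  rw [LinearMap.neg_apply, wg_apply, wg_apply]
  abel

theorem wg_self (u : V) : wg B u u = 0 := by
  ext x
  rw [wg_apply, sub_self]
  rfl

theorem wg_add_right (u w w' : V) : wg B u (w + w') = wg B u w + wg B u w' := by
  ext x
  simp only [wg_apply, LinearMap.add_apply, map_add, smul_add, add_smul]
  abel

theorem wg_smul_right (c : k) (u w : V) : wg B u (c • w) = c • wg B u w := by
  ext x
  simp only [wg_apply, LinearMap.smul_apply, map_smul, smul_sub, smul_smul, smul_eq_mul]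
  rw [mul_comm (B u x) c]

theorem wg_sub_right (u w w' : V) : wg B u (w - w') = wg B u w - wg B u w' := by
  rw [sub_eq_add_neg, wg_add_right, ← neg_one_smul k w', wg_smul_right, neg_one_smul,
    ← sub_eq_add_neg]

theorem wg_smul_left (c : k) (u w : V) : wg B (c • u) w = c • wg B u w := by
  rw [wg_anti, wg_smul_right, wg_anti B w u, smul_neg, neg_neg]

theorem wg_sub_left (u u' w : V) : wg B (u - u') w = wg B u w - wg B u' w := by
  rw [wg_anti, wg_sub_right, wg_anti B w u, wg_anti B w u']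
  abel

theorem bracket_skew {X : Module.End k V} (hX : ∀ x y, B (X x) y = -B x (X y)) (u w : V) :
    X * wg B u w - wg B u w * X = wg B (X u) w + wg B u (X w) := by
  ext x
  simp only [LinearMap.sub_apply, Module.End.mul_apply, wg_apply, LinearMap.add_apply, map_sub,
    map_smul, hX, neg_smul]
  abel

variable {B} {L : Submodule k (Module.End k V)}

/-- The hypotheses: a Lie algebra of skew operators, normalized by reflections. -/
structure RefHyp (B : V →ₗ[k] V →ₗ[k] k) (L : Submodule k (Module.End k V)) (R : Set V) : Prop where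
  two : (2 : k) ≠ 0
  symm : ∀ x y, B x y = B y x
  lie : ∀ X ∈ L, ∀ Y ∈ L, X * Y - Y * X ∈ L
  skew : ∀ X ∈ L, ∀ x y, B (X x) y = -B x (X y)
  ne : ∀ v ∈ R, B v v ≠ 0
  refl : ∀ v ∈ R, ∀ X ∈ L, wg B v (X v) ∈ L

variable {R : Set V}

theorem RefHyp.mem_wg (h : RefHyp B L R) {v x y : V} (hv : v ∈ R) (hx : wg B v x ∈ L)
    (hy : wg B v y ∈ L) : wg B x y ∈ L := by
  have h1 := h.lie _ hx _ hy
  rw [bracket_skew B (h.skew _ hx), wg_apply, wg_apply, wg_sub_left, wg_sub_right, wg_smul_left,
    wg_smul_left, wg_smul_right, wg_smul_right, wg_self, smul_zero, sub_zero] at h1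
  have h2 := L.sub_mem (L.add_mem h1 (L.smul_mem (B x v) hy)) (L.smul_mem (B v y) hx)
  have h3 : B v v • wg B x y - B x v • wg B v y + B v y • wg B v x + B x v • wg B v y -
      B v y • wg B v x = B v v • wg B x y := by abel
  rw [h3] at h2
  have h4 := L.smul_mem (B v v)⁻¹ h2
  rwa [smul_smul, inv_mul_cancel₀ (h.ne v hv), one_smul] at h4

theorem RefHyp.mem_edge (h : RefHyp B L R) {v v' y : V} (hv' : v' ∈ R)
    (he : B v v' ≠ 0) (hy : wg B v y ∈ L) (h0 : B y v' = 0) : wg B v' y ∈ L := by
  have h1 := h.refl v' hv' _ hy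
  rw [wg_apply, h0, zero_smul, sub_zero, wg_smul_right] at h1
  have h4 := L.smul_mem (B v v')⁻¹ h1
  rwa [smul_smul, inv_mul_cancel₀ he, one_smul] at h4

theorem RefHyp.mem_trans (h : RefHyp B L R) {v v' y : V} (hv : v ∈ R) (hvv : wg B v v' ∈ L)
    (hy : wg B v y ∈ L) : wg B v' y ∈ L := h.mem_wg hv hvv hy

theorem smul_mem_or {c : k} {X : Module.End k V} (h : c • X ∈ L) (hX : X ∉ L) : c = 0 := by
  by_contra hc
  have h4 := L.smul_mem c⁻¹ h
  rw [smul_smul, inv_mul_cancel₀ hc, one_smul] at h4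
  exact hX h4

/-- Exceptional edges. -/
theorem RefHyp.exc (h : RefHyp B L R) {v v' : V} (hv : v ∈ R) (hv' : v' ∈ R) (he : B v v' ≠ 0)
    (hn : wg B v v' ∉ L) {y : V} (hy : wg B v y ∈ L) (h0 : B y v' = 0) :
    wg B v' y ∈ L ∧ B y v = 0 ∧ ∀ y', wg B v y' ∈ L → B y' v' = 0 → B y y' = 0 := by
  have hb : ∀ y, wg B v y ∈ L → B y v' = 0 → wg B v' y ∈ L ∧ B y v = 0 := by
    intro y hy h0
    have h1 := h.mem_edge hv' he hy h0
    refine ⟨h1, ?_⟩
    have h2 := h.refl v hv _ h1
    rw [wg_apply, wg_sub_right, wg_smul_right, wg_smul_right] at h2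
    have h3 := L.sub_mem (L.smul_mem (B v' v) hy) h2
    rw [sub_sub_cancel] at h3
    exact smul_mem_or h3 hn
  obtain ⟨h1, h2⟩ := hb y hy h0
  refine ⟨h1, h2, fun y' hy' h0' => ?_⟩
  obtain ⟨h1', h2'⟩ := hb y' hy' h0'
  have h3 := h.lie _ hy _ h1'
  have h4 : B v y' = 0 := by rw [h.symm, h2']
  rw [bracket_skew B (h.skew _ hy), wg_apply, wg_apply, h0, h4, zero_smul, zero_smul, sub_zero,
    zero_sub, wg_smul_left, ← neg_smul, wg_smul_right] at h3
  have h5 := L.sub_mem h3 (L.smul_mem (B v v') (h.mem_wg hv hy hy'))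
  rw [add_sub_cancel_left] at h5
  have h6 : wg B v' v ∉ L := fun h6 => hn (by
    rw [wg_anti]
    exact L.neg_mem h6)
  exact neg_eq_zero.1 (smul_mem_or h5 h6)

/-- Exceptional edges: the space `M`. -/
theorem RefHyp.excM (h : RefHyp B L R) {v v' : V} (hv : v ∈ R) (hv' : v' ∈ R) (he : B v v' ≠ 0)
    (hn : wg B v v' ∉ L) {y : V} (hy : wg B v y ∈ L) (h0 : B y v = 0) : B y v' = 0 := by
  have h1 : wg B v (y - (B y v' / B v v') • v) ∈ L := by
    rw [wg_sub_right, wg_smul_right, wg_self, smul_zero, sub_zero]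
    exact hy
  have h2 : B (y - (B y v' / B v v') • v) v' = 0 := by
    rw [map_sub, map_smul, LinearMap.sub_apply, LinearMap.smul_apply, smul_eq_mul,
      div_mul_cancel₀ _ he, sub_self]
  have h3 := (h.exc hv hv' he hn h1 h2).2.1
  rw [map_sub, map_smul, LinearMap.sub_apply, LinearMap.smul_apply, smul_eq_mul, h0, zero_sub,
    neg_eq_zero, mul_eq_zero, div_eq_zero_iff] at h3
  rcases h3 with (h3 | h3) | h3
  · exact h3
  · exact absurd h3 he
  · exact absurd h3 (h.ne v hv)

/-- **Lie algebras normalized by a connected spanning family of reflections.** -/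
theorem RefHyp.full (h : RefHyp B L R) (hspan : Submodule.span k R = ⊤)
    (hnd : ∀ x, (∀ y, B x y = 0) → x = 0)
    (hconn : ∀ C : V → Prop, (∃ w ∈ R, C w) →
      (∀ w ∈ R, ∀ w' ∈ R, B w w' ≠ 0 → C w → C w') → ∀ w ∈ R, C w)
    (hne : ∃ X ∈ L, X ≠ 0) (x y : V) : wg B x y ∈ L := by
  obtain ⟨X, hX, hX0⟩ := hne
  obtain ⟨v₀, hv₀⟩ : R.Nonempty := by
    rw [Set.nonempty_iff_ne_empty]
    rintro rfl
    rw [Submodule.span_empty] at hspan
    refine hX0 (LinearMap.ext fun x => ?_)
    have h1 : x ∈ (⊥ : Submodule k V) := by rw [hspan]; exact Submodule.mem_top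
    rw [Submodule.mem_bot] at h1
    rw [h1, map_zero, LinearMap.zero_apply]
  have hv₀v₀ : wg B v₀ v₀ ∈ L := by
    rw [wg_self]
    exact L.zero_mem
  by_cases hA : ∀ v ∈ R, ∀ v' ∈ R, B v v' ≠ 0 → wg B v v' ∈ L
  · have h1 := hconn (fun w => wg B v₀ w ∈ L ∧ ∀ y, wg B v₀ y ∈ L ↔ wg B w y ∈ L)
      ⟨v₀, hv₀, hv₀v₀, fun y => Iff.rfl⟩ (by
        rintro w hw w' hw' hww ⟨h1, h2⟩
        have h3 := hA w hw w' hw' hww
        have h3' : wg B w' w ∈ L := by
          rw [wg_anti]
          exact L.neg_mem h3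
        refine ⟨(h2 w').2 h3, fun y => (h2 y).trans ⟨fun h4 => h.mem_trans hw h3 h4, fun h4 =>
          h.mem_trans hw' h3' h4⟩⟩)
    let P : Submodule k V :=
      { carrier := {x | wg B v₀ x ∈ L}
        zero_mem' := by
          change wg B v₀ 0 ∈ L
          rw [← zero_smul k v₀, wg_smul_right, zero_smul]
          exact L.zero_mem
        add_mem' := by
          intro a b ha hb
          change wg B v₀ (a + b) ∈ L
          rw [wg_add_right]
          exact L.add_mem ha hb
        smul_mem' := by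
          intro c a ha
          change wg B v₀ (c • a) ∈ L
          rw [wg_smul_right]
          exact L.smul_mem c ha }
    have h2 : Submodule.span k R ≤ P := Submodule.span_le.2 fun w hw => (h1 w hw).1
    rw [hspan] at h2
    exact h.mem_wg hv₀ (h2 Submodule.mem_top) (h2 Submodule.mem_top)
  · exfalso
    push Not at hA
    obtain ⟨v, hv, v', hv', he, hn⟩ := hA
    have hMM : ∀ w ∈ R, ∀ w' ∈ R, B w w' ≠ 0 → wg B w w' ∉ L → ∀ y,
        (wg B w y ∈ L ∧ B y w = 0) → (wg B w' y ∈ L ∧ B y w' = 0) := by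
      rintro w hw w' hw' hww hwn y ⟨hy, h0⟩
      have h1 := h.excM hw hw' hww hwn hy h0
      exact ⟨(h.exc hw hw' hww hwn hy h1).1, h1⟩
    have hiso : ∀ y y', (wg B v y ∈ L ∧ B y v = 0) → (wg B v y' ∈ L ∧ B y' v = 0) →
        B y y' = 0 := by
      rintro y y' ⟨hy, h0⟩ ⟨hy', h0'⟩
      exact (h.exc hv hv' he hn hy (h.excM hv hv' he hn hy h0)).2.2 y' hy'
        (h.excM hv hv' he hn hy' h0')
    have hdec : ∀ w ∈ R, ∀ x, wg B w x ∈ L → ∃ c : k, ∃ u, x = c • w + u ∧ wg B w u ∈ L ∧
        B u w = 0 := by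
      intro w hw x hx
      refine ⟨B x w / B w w, x - (B x w / B w w) • w, by abel, ?_, ?_⟩
      · rw [wg_sub_right, wg_smul_right, wg_self, smul_zero, sub_zero]
        exact hx
      · rw [map_sub, map_smul, LinearMap.sub_apply, LinearMap.smul_apply, smul_eq_mul,
          div_mul_cancel₀ _ (h.ne w hw), sub_self]
    have h1 := hconn (fun w => ∀ y, (wg B w y ∈ L ∧ B y w = 0) ↔ (wg B v y ∈ L ∧ B y v = 0))
      ⟨v, hv, fun y => Iff.rfl⟩ (by
        intro w hw w' hw' hww hC y
        by_cases hwn : wg B w w' ∈ L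
        · have hwn' : wg B w' w ∈ L := by
            rw [wg_anti]
            exact L.neg_mem hwn
          obtain ⟨c, u, hu, hu1, hu2⟩ := hdec w hw w' hwn
          have h2 : ∀ y, (wg B w y ∈ L ∧ B y w = 0) → B y w' = 0 := by
            rintro y ⟨hy, h0⟩
            rw [hu, map_add, map_smul, h0, smul_zero, zero_add]
            exact hiso y u ((hC y).1 ⟨hy, h0⟩) ((hC u).1 ⟨hu1, hu2⟩)
          rw [← hC]
          constructor
          · rintro ⟨hy, h0⟩
            have h3 := h.mem_trans hw' hwn' hy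
            obtain ⟨c', u', hu', hu1', hu2'⟩ := hdec w hw y h3
            have h4 := h2 u' ⟨hu1', hu2'⟩
            rw [hu', map_add, map_smul, LinearMap.add_apply, LinearMap.smul_apply, h4, add_zero,
              smul_eq_mul, mul_eq_zero] at h0
            have h5 : c' = 0 := h0.resolve_right hww
            rw [h5, zero_smul, zero_add] at hu'
            rw [hu']
            exact ⟨hu1', hu2'⟩
          · intro h3
            exact ⟨h.mem_trans hw hwn h3.1, h2 y h3⟩
        · rw [← hC]
          exact ⟨hMM w' hw' w hw (by rwa [h.symm]) (fun h6 => hwn (by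
            rw [wg_anti]
            exact L.neg_mem h6)) y, hMM w hw w' hw' hww hwn y⟩)
    have hM0 : ∀ y, (wg B v y ∈ L ∧ B y v = 0) → y = 0 := by
      intro y hy
      refine hnd y fun z => ?_
      have h2 : Submodule.span k R ≤ LinearMap.ker (B y) :=
        Submodule.span_le.2 fun w hw => ((h1 w hw y).2 hy).2
      rw [hspan] at h2
      exact h2 (Submodule.mem_top (x := z))
    refine hX0 ?_
    have h2 : Submodule.span k R ≤ LinearMap.ker X := by
      refine Submodule.span_le.2 fun w hw => ?_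
      refine hM0 (X w) ((h1 w hw _).1 ⟨h.refl w hw X hX, ?_⟩)
      have h3 := h.skew X hX w w
      rw [h.symm w (X w)] at h3
      have h4 : (2 : k) * B (X w) w = 0 := by linear_combination h3
      exact (mul_eq_zero.1 h4).resolve_left h.two
    rw [hspan] at h2
    exact LinearMap.ext fun z => h2 (Submodule.mem_top (x := z))

end wg

end

end Pool.Agent.U175.LP
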