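import Mathlib
import Pool.Agent.U175.LP.P1
import Pool.Agent.U175.LP.R14
import Pool.Agent.U175.LP.R15

/-!
# Reflections modulo `p` and the orthogonal Lie algebra
-/

set_option autoImplicit false
set_option linter.unusedSectionVars false

namespace Pool.Agent.U175.LP

open PadicInt Module Matrix Filter Topology Pool.Agent.U175.LP.Pub Pool.Agent.Y142.ZO

noncomputable section

variable {p : ℕ} [hp : Fact p.Prime] {n : ℕ} {Γ : Type} [Group Γ]
  {R : Γ →* Matrix (Fin n) (Fin n) ℤ_[p]} {J : Matrix (Fin n) (Fin n) ℤ_[p]}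

theorem TanA_conj {A : Type*} [Ring A] [Algebra ℤ_[p] A] {R : Γ →* A} (g : Γ) {X : A}
    (h : TanA p R X) : TanA p R (R g * X * R g⁻¹) := by
  intro m
  obtain ⟨n₀, h0⟩ := h m
  refine ⟨n₀, fun n hn => ?_⟩
  obtain ⟨σ, Z, hσ⟩ := h0 n hn
  refine ⟨g * σ * g⁻¹, R g * Z * R g⁻¹, ?_⟩
  have h1 : R g * R g⁻¹ = 1 := by rw [← map_mul, mul_inv_cancel, map_one]
  rw [map_mul, map_mul, hσ, mul_add, mul_one, add_mul, h1, mul_smul_comm, smul_mul_assoc, mul_add,
    add_mul, mul_smul_comm, smul_mul_assoc]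

theorem skew_of_tan (hJ : ∀ g, (R g)ᵀ * J * R g = J) {Y : Matrix (Fin n) (Fin n) ℤ_[p]}
    (h : TanA p R Y) : Yᵀ * J + J * Y = 0 := by
  have h1 : TanA p (Rm R 1) (Y, 0) := by
    intro m
    obtain ⟨n₀, h0⟩ := h m
    refine ⟨n₀, fun n' hn => ?_⟩
    obtain ⟨σ, Z, hσ⟩ := h0 n' hn
    refine ⟨σ, (Z, 0), Prod.ext hσ ?_⟩
    change ((1 : ℤ_[p]ˣ) : ℤ_[p]) = 1 + (p : ℤ_[p]) ^ n' • (0 + (p : ℤ_[p]) ^ m • 0)
    rw [smul_zero, add_zero, smul_zero, add_zero, Units.val_one]
  have h2 := Rm_norm (J := J) (κ := (1 : Γ →* ℤ_[p]ˣ)) (fun g => by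
    rw [hJ, MonoidHom.one_apply, Units.val_one, one_smul]) h1
  rwa [zero_smul] at h2

theorem red_transpose {m q : ℕ} (A : Matrix (Fin m) (Fin q) ℤ_[p]) : red Aᵀ = (red A)ᵀ := rfl

/-- The logarithm of a nontrivial unipotent element is not zero. -/
theorem nlog_ne {u : Matrix (Fin n) (Fin n) (ZMod p)} (hu : u ≠ 1) {k : ℕ}
    (hk : (u - 1) ^ k = 0) : nlog u ≠ 0 := by
  classical
  intro h0
  set N := u - 1 with hN
  have hN0 : N ≠ 0 := sub_ne_zero.2 hu
  have hex : ∃ d, N ^ d = 0 := ⟨k, hk⟩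
  set d := Nat.find hex with hd
  have hd0 : N ^ d = 0 := Nat.find_spec hex
  have hdm : ∀ j, j < d → N ^ j ≠ 0 := fun j hj => Nat.find_min hex hj
  have hd2 : 2 ≤ d := by
    by_contra hlt
    have h1 : d = 0 ∨ d = 1 := by omega
    rcases h1 with h1 | h1
    · rw [h1, pow_zero] at hd0
      apply hN0
      rw [← mul_one N, hd0, mul_zero]
    · rw [h1, pow_one] at hd0
      exact hN0 hd0
  have h1 : N ^ (d - 2) * nlog u = N ^ (d - 1) := by
    rw [nlog, Finset.mul_sum, Finset.sum_eq_single_of_mem 1 (by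
      rw [Finset.mem_Ico]
      exact ⟨le_refl _, hp.out.one_lt⟩)]
    · rw [Nat.cast_one, inv_one, mul_one, pow_one, ← hN]
      norm_num
      rw [← pow_succ]
      congr 1
      omega
    · intro j hj hj1
      rw [Finset.mem_Ico] at hj
      rw [mul_smul_comm, ← hN, ← pow_add]
      have h2 : d ≤ d - 2 + j := by omega
      rw [pow_eq_zero_of_le h2 hd0, smul_zero]
  rw [h0, mul_zero] at h1
  exact hdm (d - 1) (by omega) h1.symm

/-- The vectors of the reflections in the image modulo `p`. -/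
def RefSet (J : Matrix (Fin n) (Fin n) ℤ_[p]) (R : Γ →* Matrix (Fin n) (Fin n) ℤ_[p]) :
    Set (Fin n → ZMod p) :=
  {v | dot J v v ≠ 0 ∧ ∃ g, ∀ x, red (R g) *ᵥ x = x - (2 * dot J v x / dot J v v) • v}

/-- The operators whose matrices are reductions of tangent vectors. -/
def LEnd (R : Γ →* Matrix (Fin n) (Fin n) ℤ_[p]) :
    Submodule (ZMod p) (Module.End (ZMod p) (Fin n → ZMod p)) :=
  (L0 R).comap (LinearMap.toMatrix' : _ ≃ₗ[ZMod p] _).toLinearMap

theorem mem_LEnd {X : Module.End (ZMod p) (Fin n → ZMod p)} :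
    X ∈ LEnd R ↔ L0P R (LinearMap.toMatrix' X) := Iff.rfl

theorem two_neZ (hp3 : 3 ≤ p) : (2 : ZMod p) ≠ 0 := by
  intro h
  have h3 : ((2 : ℕ) : ZMod p) = 0 := by exact_mod_cast h
  rw [ZMod.natCast_eq_zero_iff] at h3
  exact absurd (Nat.le_of_dvd (by norm_num) h3) (by omega)

theorem dot_symm (hs : Jᵀ = J) (x y : Fin n → ZMod p) : dot J x y = dot J y x := by
  rw [dot_red, dot_red, dotProduct_mulVec, dotProduct_comm, ← mulVec_transpose, ← red_transpose, hs]

theorem refHyp (hp3 : 3 ≤ p) (hs : Jᵀ = J) (hJ : ∀ g, (R g)ᵀ * J * R g = J) :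
    RefHyp (Bp J) (LEnd R) (RefSet J R) := by
  refine ⟨two_neZ hp3, fun x y => ?_, fun X hX Y hY => ?_, ?_, ?_, ?_⟩
  · rw [Bp_apply, Bp_apply, dot_symm hs]
  · obtain ⟨Z, h1, h2, -⟩ := L0P_lie (R := R) hX hY
    have h3 : LinearMap.toMatrix' (X * Y - Y * X) = LinearMap.toMatrix' X * LinearMap.toMatrix' Y -
        LinearMap.toMatrix' Y * LinearMap.toMatrix' X := by
      rw [map_sub, LinearMap.toMatrix'_mul, LinearMap.toMatrix'_mul]
    exact ⟨Z, h1, h2.trans h3.symm⟩
  · rintro X ⟨Y, hY, hYX⟩ x y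
    have h1 := congrArg red (skew_of_tan hJ hY)
    rw [red_add, red_mul, red_mul, red_transpose, hYX, red_zero'] at h1
    have hXx : ∀ z, X z = LinearMap.toMatrix' X *ᵥ z := fun z => (LinearMap.toMatrix'_mulVec X z).symm
    rw [Bp_apply, Bp_apply, hXx, hXx, dot_red, dot_red]
    change _ = -(x ⬝ᵥ red J *ᵥ LinearMap.toMatrix' X *ᵥ y)
    have h2 : (LinearMap.toMatrix' X *ᵥ x) ⬝ᵥ red J *ᵥ y =
        x ⬝ᵥ ((LinearMap.toMatrix' X)ᵀ * red J) *ᵥ y := by
      rw [← mulVec_mulVec, dotProduct_mulVec x, vecMul_transpose]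
    change (LinearMap.toMatrix' X)ᵀ * red J + red J * LinearMap.toMatrix' X = 0 at h1
    rw [h2, eq_neg_of_add_eq_zero_left h1, neg_mulVec, dotProduct_neg, mulVec_mulVec]
  · rintro v ⟨hv, -⟩
    rwa [Bp_apply]
  · rintro v ⟨hv, g, hg⟩ X ⟨Y, hY, hYX⟩
    have hr : ∀ x, red (R g⁻¹) *ᵥ x = x - (2 * dot J v x / dot J v v) • v := by
      intro x
      have h1 : red (R g) *ᵥ (x - (2 * dot J v x / dot J v v) • v) = x := by
        have h2 : dot J v (x - (2 * dot J v x / dot J v v) • v) = -dot J v x := by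
          rw [← Bp_apply, ← Bp_apply, map_sub, map_smul, smul_eq_mul, Bp_apply, Bp_apply,
            div_mul_cancel₀ _ hv]
          ring
        rw [hg, h2]
        have h3 : (2 * -dot J v x / dot J v v) = -(2 * dot J v x / dot J v v) := by ring
        rw [h3]
        module
      have h2 : red (R g⁻¹) *ᵥ (red (R g) *ᵥ (x - (2 * dot J v x / dot J v v) • v)) =
          red (R g⁻¹) *ᵥ x := by rw [h1]
      rw [mulVec_mulVec, red_inv_mul, one_mulVec] at h2
      exact h2.symm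
    have hXx : ∀ z, X z = red Y *ᵥ z := fun z => by
      rw [hYX]
      exact (LinearMap.toMatrix'_mulVec X z).symm
    have hsk : ∀ x y, dot J (red Y *ᵥ x) y = -dot J x (red Y *ᵥ y) := by
      intro x y
      have h1 := congrArg red (skew_of_tan hJ hY)
      rw [red_add, red_mul, red_mul, red_transpose, red_zero'] at h1
      rw [dot_red, dot_red]
      have h2 : (red Y *ᵥ x) ⬝ᵥ red J *ᵥ y = x ⬝ᵥ ((red Y)ᵀ * red J) *ᵥ y := by
        rw [← mulVec_mulVec, dotProduct_mulVec x, vecMul_transpose]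
      rw [h2, eq_neg_of_add_eq_zero_left h1, neg_mulVec, dotProduct_neg, mulVec_mulVec]
    have hvv : dot J v (red Y *ᵥ v) = 0 := by
      have h1 := hsk v v
      rw [dot_symm hs] at h1
      have h2 : (2 : ZMod p) * dot J v (red Y *ᵥ v) = 0 := by linear_combination h1
      exact (mul_eq_zero.1 h2).resolve_left (two_neZ hp3)
    have hT := TanA_sub hY (TanA_conj g hY)
    have hL : L0P R ((dot J v v / 2) • red (Y - R g * Y * R g⁻¹)) := by
      obtain ⟨s, hs'⟩ := ZMod.ringHom_surjective (toZMod : ℤ_[p] →+* ZMod p) (dot J v v / 2)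
      exact ⟨s • (Y - R g * Y * R g⁻¹), TanA_smul s hT, by rw [red_smul, hs']⟩
    have hkey : LinearMap.toMatrix' (wg (Bp J) v (X v)) =
        (dot J v v / 2) • red (Y - R g * Y * R g⁻¹) := by
      refine (Matrix.toLin' : _ ≃ₗ[ZMod p] _).injective (LinearMap.ext fun x => ?_)
      rw [Matrix.toLin'_toMatrix', Matrix.toLin'_apply, wg_apply, smul_mulVec, red_sub, red_mul,
        red_mul, sub_mulVec, ← mulVec_mulVec, ← mulVec_mulVec, hr, hXx, Bp_apply, Bp_apply, hg,
        mulVec_sub, mulVec_smul]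
      have h5 : dot J v (red Y *ᵥ x - (2 * dot J v x / dot J v v) • red Y *ᵥ v) =
          dot J v (red Y *ᵥ x) := by
        rw [← Bp_apply, map_sub, map_smul, Bp_apply, Bp_apply, hvv, smul_zero, sub_zero]
      have h6 : dot J v (red Y *ᵥ x) = -dot J (red Y *ᵥ v) x := by
        rw [hsk, neg_neg]
      rw [h5, h6]
      have h2 := two_neZ (p := p) hp3
      have h7 : (dot J v v / 2) * (2 * dot J v x / dot J v v) = dot J v x := by
        field_simp
      have h8 : (dot J v v / 2) * (2 * -dot J (red Y *ᵥ v) x / dot J v v) =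
          -dot J (red Y *ᵥ v) x := by
        field_simp
      rw [smul_sub, smul_sub, smul_sub, smul_smul, smul_smul, h7, h8]
      module
    change L0P R (LinearMap.toMatrix' (wg (Bp J) v (X v)))
    rw [hkey]
    exact hL

end

end Pool.Agent.U175.LP
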