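import Mathlib
import Pool.Agent.U175.LP.R16

/-!
# Primitive residual representations with a reflection and a unipotent element
-/

set_option autoImplicit false
set_option linter.unusedSectionVars false

namespace Pool.Agent.U175.LP

open PadicInt Module Matrix Filter Topology Pool.Agent.U175.LP.Pub Pool.Agent.Y142.ZO

noncomputable section

variable {p : ℕ} [hp : Fact p.Prime] {n : ℕ} {Γ : Type} [Group Γ]

section conn

variable {J : Matrix (Fin n) (Fin n) ℤ_[p]} {ρ : Γ →* Matrix (Fin n) (Fin n) ℤ_[p]}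

/-- **The orbit of one vector is connected.** -/
theorem connected_of_primitive' (hsw : ∀ x y, dot J x y = 0 → dot J y x = 0)
    (hsim : ∀ g, ∃ μ : ℤ_[p]ˣ, (ρ g)ᵀ * J * ρ g = (μ : ℤ_[p]) • J) (hJd : IsUnit J.det)
    (hP : IsPrimitive J ρ) {v : Fin n → ZMod p} (hv : v ≠ 0) :
    Connected J (fun a : Γ => red (ρ a) *ᵥ v) := by
  classical
  set V : Γ → Fin n → ZMod p := fun a => red (ρ a) *ᵥ v with hV
  have hmul : ∀ g a, red (ρ g) *ᵥ V a = V (g * a) := by
    intro g a
    simp only [hV]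
    rw [mulVec_mulVec, ← red_mul, ← map_mul]
  let r : Γ → Γ → Prop := fun a b => dot J (V a) (V b) ≠ 0
  have hsymm : ∀ a b, r a b → r b a := by
    intro a b h h'
    exact h (hsw _ _ h')
  have hR : ∀ a b, Relation.ReflTransGen r a b → Relation.ReflTransGen r b a := by
    intro a b h
    induction h with
    | refl => exact Relation.ReflTransGen.refl
    | tail _ hbc ih => exact Relation.ReflTransGen.head (hsymm _ _ hbc) ih
  have hequi : ∀ g a b, Relation.ReflTransGen r a b → Relation.ReflTransGen r (g * a) (g * b) := by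
    intro g a b h
    obtain ⟨μ, hμ0, hμ⟩ := dot_sim hsim g
    induction h with
    | refl => exact Relation.ReflTransGen.refl
    | @tail b c _ hbc ih =>
      refine Relation.ReflTransGen.tail ih ?_
      change dot J (V (g * b)) (V (g * c)) ≠ 0
      rw [← hmul, ← hmul, hμ]
      exact mul_ne_zero hμ0 hbc
  have hequi' : ∀ g b c, Relation.ReflTransGen r (g * b) c →
      Relation.ReflTransGen r b (g⁻¹ * c) := by
    intro g b c h
    have h1 := hequi g⁻¹ _ _ h
    rwa [inv_mul_cancel_left] at h1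
  let W : Submodule (ZMod p) (Fin n → ZMod p) :=
    Submodule.span (ZMod p) {x | ∃ b, Relation.ReflTransGen r 1 b ∧ V b = x}
  have key : ∀ g, W.map (red (ρ g)).mulVecLin = W ∨
      ∀ x ∈ W, ∀ y ∈ W, dot J (red (ρ g) *ᵥ x) y = 0 := by
    intro g
    by_cases hg : Relation.ReflTransGen r 1 g
    · left
      rw [Submodule.map_span]
      congr 1
      ext x
      constructor
      · rintro ⟨_, ⟨b, hb, rfl⟩, rfl⟩
        refine ⟨g * b, ?_, ?_⟩
        · have h1 := hequi g _ _ hb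
          rw [mul_one] at h1
          exact hg.trans h1
        · rw [mulVecLin_apply, hmul]
      · rintro ⟨b, hb, rfl⟩
        refine ⟨V (g⁻¹ * b), ⟨g⁻¹ * b, ?_, rfl⟩, ?_⟩
        · exact hequi' g 1 b (by rw [mul_one]; exact (hR _ _ hg).trans hb)
        · rw [mulVecLin_apply, hmul, mul_inv_cancel_left]
    · right
      have h0 : ∀ b c, Relation.ReflTransGen r 1 b → Relation.ReflTransGen r 1 c →
          dot J (V (g * b)) (V c) = 0 := by
        intro b c hb hc
        by_contra hne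
        refine hg ?_
        have h1 := hequi g _ _ hb
        rw [mul_one] at h1
        have h2 : Relation.ReflTransGen r g c := Relation.ReflTransGen.tail h1 hne
        exact hc.trans (hR _ _ h2)
      have hB : ∀ x y, Bp J (red (ρ g) *ᵥ x) y = dot J (red (ρ g) *ᵥ x) y := fun x y =>
        Bp_apply J _ _
      intro x hx y hy
      rw [← hB]
      induction hx using Submodule.span_induction with
      | mem x hx =>
        obtain ⟨b, hb, rfl⟩ := hx
        induction hy using Submodule.span_induction with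
        | mem y hy =>
          obtain ⟨c, hc, rfl⟩ := hy
          rw [hB, hmul]
          exact h0 b c hb hc
        | zero => rw [map_zero]
        | add y y' _ _ h h' => rw [map_add, h, h', add_zero]
        | smul c y _ h => rw [map_smul, h, smul_zero]
      | zero => rw [mulVec_zero, map_zero, LinearMap.zero_apply]
      | add x x' _ _ h h' => rw [mulVec_add, map_add, LinearMap.add_apply, h, h', add_zero]
      | smul c x _ h => rw [mulVec_smul, map_smul, LinearMap.smul_apply, h, smul_zero]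
  have hv1 : V 1 = v := by
    simp only [hV]
    rw [map_one, red_one, one_mulVec]
  have hWtop : W = ⊤ := by
    rcases hP W key with h1 | h1
    · have h2 : v ∈ W := by
        rw [← hv1]
        exact Submodule.subset_span ⟨1, Relation.ReflTransGen.refl, rfl⟩
      rw [h1, Submodule.mem_bot] at h2
      exact absurd h2 hv
    · exact h1
  have hone : ∀ b, Relation.ReflTransGen r 1 b := by
    intro b
    by_contra hb
    have h1 : ∀ y ∈ W, Bp J (V b) y = 0 := by
      intro y hy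
      induction hy using Submodule.span_induction with
      | mem y hy =>
        obtain ⟨c, hc, rfl⟩ := hy
        rw [Bp_apply]
        by_contra hne
        exact hb (hc.trans (Relation.ReflTransGen.single (hsymm _ _ hne)))
      | zero => rw [map_zero]
      | add y y' _ _ h h' => rw [map_add, h, h', add_zero]
      | smul c y _ h => rw [map_smul, h, smul_zero]
    have h2 : V b = 0 := by
      have h3 : (red J).det ≠ 0 := by
        have h4 : (red J).det = PadicInt.toZMod J.det := by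
          rw [RingHom.map_det]
          rfl
        rw [h4]
        exact (isUnit_iff_toZMod _).1 hJd
      refine Matrix.eq_zero_of_vecMul_eq_zero h3 (dotProduct_eq_zero_iff.1 fun w => ?_)
      have h5 := h1 w (by rw [hWtop]; exact Submodule.mem_top)
      rw [Bp_apply, dot_red, dotProduct_mulVec] at h5
      exact h5
    have h3 : v = red (ρ b⁻¹) *ᵥ V b := by
      rw [hmul, inv_mul_cancel, hv1]
    rw [h2, mulVec_zero] at h3
    exact hv h3
  refine ⟨?_, fun a b => (hR _ _ (hone a)).trans (hone b)⟩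
  rw [← top_le_iff, ← hWtop]
  refine Submodule.span_mono ?_
  rintro _ ⟨b, -, rfl⟩
  exact ⟨b, rfl⟩

end conn

variable {R : Γ →* Matrix (Fin n) (Fin n) ℤ_[p]} {J : Matrix (Fin n) (Fin n) ℤ_[p]}

theorem RefHyp.mono {k : Type*} [Field k] {V : Type*} [AddCommGroup V] [Module k V]
    {B : V →ₗ[k] V →ₗ[k] k} {L : Submodule k (Module.End k V)} {S S' : Set V}
    (h : RefHyp B L S) (hS : S' ⊆ S) : RefHyp B L S' :=
  ⟨h.two, h.symm, h.lie, h.skew, fun v hv => h.ne v (hS hv), fun v hv => h.refl v (hS hv)⟩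

/-- Conjugates of reflections are reflections. -/
theorem refSet_orbit (hJ : ∀ g, (R g)ᵀ * J * R g = J) {v : Fin n → ZMod p}
    (hv : v ∈ RefSet J R) (a : Γ) : red (R a) *ᵥ v ∈ RefSet J R := by
  have hiso : ∀ g x y, dot J (red (R g) *ᵥ x) (red (R g) *ᵥ y) = dot J x y := by
    intro g x y
    rw [dot_red, dot_red]
    have e1 : (red (R g) *ᵥ x) ⬝ᵥ red J *ᵥ (red (R g) *ᵥ y) =
        x ⬝ᵥ ((red (R g))ᵀ * red J * red (R g)) *ᵥ y := by
      rw [← mulVec_mulVec, ← mulVec_mulVec, dotProduct_mulVec x, vecMul_transpose]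
    rw [e1, ← red_transpose, ← red_mul, ← red_mul, hJ]
  obtain ⟨h1, g, hg⟩ := hv
  refine ⟨by rwa [hiso], a * g * a⁻¹, fun x => ?_⟩
  rw [map_mul, map_mul, red_mul, red_mul, ← mulVec_mulVec, ← mulVec_mulVec, hg, mulVec_sub,
    mulVec_mulVec, red_mul_inv, one_mulVec, mulVec_smul, hiso]
  have h2 := hiso a v (red (R a⁻¹) *ᵥ x)
  rw [mulVec_mulVec, red_mul_inv, one_mulVec] at h2
  rw [h2]

/-- **The residual Lie algebra contains all exterior products.** -/
theorem wg_mem (hp3 : 3 ≤ p) (hs : Jᵀ = J) (hJ : ∀ g, (R g)ᵀ * J * R g = J)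
    (hJd : IsUnit J.det) (hP : IsPrimitive J R) {v : Fin n → ZMod p} (hv : v ∈ RefSet J R)
    {g : Γ} (hg1 : red (R g) ≠ 1) (hg : (red (R g) - 1) ^ ((p - 1) / 2) = 0)
    (x y : Fin n → ZMod p) : wg (Bp J) x y ∈ LEnd R := by
  have hv0 : v ≠ 0 := by
    rintro rfl
    apply hv.1
    rw [← Bp_apply, map_zero]
  have hc := connected_of_primitive' (J := J) (ρ := R)
    (fun x y h => by rw [dot_symm hs, h]) (fun g => ⟨1, by rw [Units.val_one, one_smul, hJ]⟩) hJd
    hP hv0
  have hR := (refHyp (R := R) hp3 hs hJ).mono (S' := Set.range fun a : Γ => red (R a) *ᵥ v) (by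
    rintro _ ⟨a, rfl⟩
    exact refSet_orbit hJ hv a)
  refine hR.full hc.spans (fun x hx => ?_) ?_ ?_ x y
  · have h3 : (red J).det ≠ 0 := by
      have h4 : (red J).det = PadicInt.toZMod J.det := by
        rw [RingHom.map_det]
        rfl
      rw [h4]
      exact (isUnit_iff_toZMod _).1 hJd
    refine Matrix.eq_zero_of_vecMul_eq_zero h3 (dotProduct_eq_zero_iff.1 fun w => ?_)
    have h5 := hx w
    rw [Bp_apply, dot_red, dotProduct_mulVec] at h5
    exact h5
  · rintro C ⟨_, ⟨a, rfl⟩, ha⟩ hC _ ⟨b, rfl⟩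
    have h1 := hc.chain a b
    induction h1 with
    | refl => exact ha
    | @tail b c _ hbc ih =>
      refine hC _ ⟨b, rfl⟩ _ ⟨c, rfl⟩ ?_ ih
      rwa [Bp_apply]
  · refine ⟨Matrix.toLin' (nlog (red (R g))), ?_, ?_⟩
    · rw [mem_LEnd, LinearMap.toMatrix'_toLin']
      exact nlog_mem0 hp3 (by omega) hg
    · intro h0
      refine nlog_ne hg1 hg ?_
      rw [← LinearMap.toMatrix'_toLin' (nlog (red (R g))), h0, map_zero]

/-- The residual Lie algebra contains all skew matrices. -/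
theorem so_mem (hp3 : 3 ≤ p) (hs : Jᵀ = J) (hJd : IsUnit J.det)
    (hwg : ∀ x y, wg (Bp J) x y ∈ LEnd R) {X : Matrix (Fin n) (Fin n) (ZMod p)}
    (hX : Xᵀ * red J + red J * X = 0) : L0P R X := by
  classical
  have h3 : IsUnit (red J).det := by
    have h4 : (red J).det = PadicInt.toZMod J.det := by
      rw [RingHom.map_det]
      rfl
    rw [h4]
    exact hJd.map PadicInt.toZMod
  have hJs : (red J)ᵀ = red J := by rw [← red_transpose, hs]
  have h2 := two_neZ (p := p) hp3
  set K := (red J)⁻¹ with hK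
  have hKJ : K * red J = 1 := Matrix.nonsing_inv_mul _ h3
  have hKs : Kᵀ = K := by rw [hK, Matrix.transpose_nonsing_inv, hJs]
  have key : Matrix.toLin' X = (2 : ZMod p)⁻¹ • ∑ i : Fin n,
      wg (Bp J) (K *ᵥ Pi.single i 1) (X *ᵥ Pi.single i 1) := by
    refine LinearMap.ext fun x => ?_
    rw [LinearMap.smul_apply, LinearMap.sum_apply, Matrix.toLin'_apply]
    have e1 : ∀ i, Bp J (K *ᵥ Pi.single i 1) x = x i := by
      intro i
      rw [Bp_apply, dot_red]
      have h5 : (K *ᵥ Pi.single i 1) ⬝ᵥ red J *ᵥ x = (Pi.single i 1) ⬝ᵥ (Kᵀ * red J) *ᵥ x := by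
        rw [← mulVec_mulVec, dotProduct_mulVec (Pi.single i 1), vecMul_transpose]
      rw [h5, hKs, hKJ, one_mulVec, single_one_dotProduct]
    have e2 : ∀ i, Bp J (X *ᵥ Pi.single i 1) x = -(red J *ᵥ (X *ᵥ x)) i := by
      intro i
      rw [Bp_apply, dot_red]
      have h5 : (X *ᵥ Pi.single i 1) ⬝ᵥ red J *ᵥ x = (Pi.single i 1) ⬝ᵥ (Xᵀ * red J) *ᵥ x := by
        rw [← mulVec_mulVec, dotProduct_mulVec (Pi.single i 1), vecMul_transpose]
      rw [h5, eq_neg_of_add_eq_zero_left hX, neg_mulVec, dotProduct_neg, single_one_dotProduct,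
        mulVec_mulVec]
    have e3 : ∀ (A : Matrix (Fin n) (Fin n) (ZMod p)) (z : Fin n → ZMod p),
        ∑ i, z i • (A *ᵥ Pi.single i 1) = A *ᵥ z := by
      intro A z
      funext j
      rw [Finset.sum_apply, mulVec, dotProduct]
      refine Finset.sum_congr rfl fun i _ => ?_
      rw [Pi.smul_apply, mulVec_single_one, smul_eq_mul, mul_comm]
      rfl
    have e4 : ∑ i : Fin n, wg (Bp J) (K *ᵥ Pi.single i 1) (X *ᵥ Pi.single i 1) x =
        X *ᵥ x + K *ᵥ (red J *ᵥ (X *ᵥ x)) := by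
      rw [← e3 X x, ← e3 K (red J *ᵥ (∑ i, x i • X *ᵥ Pi.single i 1)), ← Finset.sum_add_distrib]
      refine Finset.sum_congr rfl fun i _ => ?_
      rw [wg_apply, e1, e2, e3, neg_smul, sub_neg_eq_add]
    rw [e4, mulVec_mulVec, hKJ, one_mulVec, ← two_smul (ZMod p), smul_smul, inv_mul_cancel₀ h2,
      one_smul]
  have h6 : Matrix.toLin' X ∈ LEnd R := by
    rw [key]
    exact Submodule.smul_mem _ _ (Submodule.sum_mem _ fun i _ => hwg _ _)
  rw [mem_LEnd, LinearMap.toMatrix'_toLin'] at h6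
  exact h6

/-- **All integral skew matrices are tangent vectors.** -/
theorem so_tan (hJ : ∀ g, (R g)ᵀ * J * R g = J)
    (hso : ∀ X : Matrix (Fin n) (Fin n) (ZMod p), Xᵀ * red J + red J * X = 0 → L0P R X)
    {Y : Matrix (Fin n) (Fin n) ℤ_[p]} (hY : Yᵀ * J + J * Y = 0) : TanA p R Y := by
  have step : ∀ W : Matrix (Fin n) (Fin n) ℤ_[p], Wᵀ * J + J * W = 0 → ∃ Y' Z,
      TanA p R Y' ∧ W = Y' + (p : ℤ_[p]) • Z ∧ Zᵀ * J + J * Z = 0 := by
    intro W hW
    have h1 := congrArg red hW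
    rw [red_add, red_mul, red_mul, red_transpose, red_zero'] at h1
    obtain ⟨Y', hY', hr⟩ := hso _ h1
    obtain ⟨Z, hZ⟩ := exists_of_red hr.symm
    refine ⟨Y', Z, hY', hZ, ?_⟩
    have h2 := skew_of_tan hJ hY'
    have h3 : (p : ℤ_[p]) • (Zᵀ * J + J * Z) = 0 := by
      have h4 : (p : ℤ_[p]) • Z = W - Y' := by rw [hZ]; abel
      calc (p : ℤ_[p]) • (Zᵀ * J + J * Z) = ((p : ℤ_[p]) • Z)ᵀ * J + J * ((p : ℤ_[p]) • Z) := by
            rw [transpose_smul, smul_mul_assoc, mul_smul_comm, smul_add]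
        _ = (Wᵀ * J + J * W) - (Y'ᵀ * J + J * Y') := by
            rw [h4, transpose_sub, Matrix.sub_mul, Matrix.mul_sub]
            abel
        _ = 0 := by rw [hW, h2, sub_zero]
    exact (smul_eq_zero.1 h3).resolve_left p_ne_zero
  refine TanA_closed fun b => ?_
  have h1 : ∀ b : ℕ, ∃ W : Matrix (Fin n) (Fin n) ℤ_[p], Wᵀ * J + J * W = 0 ∧
      TanA p R (Y - (p : ℤ_[p]) ^ b • W) := by
    intro b
    induction b with
    | zero =>
      refine ⟨Y, hY, ?_⟩
      rw [pow_zero, one_smul, sub_self]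
      exact TanA_zero
    | succ b ih =>
      obtain ⟨W, hW, hT⟩ := ih
      obtain ⟨Y', Z, hY', hZ, hZ0⟩ := step W hW
      refine ⟨Z, hZ0, ?_⟩
      have h2 := TanA_add hT (TanA_smul ((p : ℤ_[p]) ^ b) hY')
      have h3 : Y - (p : ℤ_[p]) ^ (b + 1) • Z =
          Y - (p : ℤ_[p]) ^ b • W + (p : ℤ_[p]) ^ b • Y' := by
        rw [hZ, pow_succ]
        module
      rw [h3]
      exact h2
  obtain ⟨W, -, hT⟩ := h1 b
  refine ⟨-W, ?_⟩
  rw [smul_neg, ← sub_eq_add_neg]
  exact hT

/-- **The Lie algebra of the image contains the orthogonal Lie algebra.** -/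
theorem so_tangent {ρ : Γ →* Matrix (Fin n) (Fin n) ℚ_[p]}
    (hρ : ∀ g, ρ g = (R g).map (algebraMap ℤ_[p] ℚ_[p]))
    (htan : ∀ Y : Matrix (Fin n) (Fin n) ℤ_[p], Yᵀ * J + J * Y = 0 → TanA p R Y)
    {X : Matrix (Fin n) (Fin n) ℚ_[p]} (hX : Xᵀ * J.map (algebraMap ℤ_[p] ℚ_[p]) +
      J.map (algebraMap ℤ_[p] ℚ_[p]) * X = 0) : IsTangent p ρ X := by
  obtain ⟨b, hb⟩ := IsLocalization.exist_integer_multiples_of_finite (nonZeroDivisors ℤ_[p])
    (fun i : Fin n × Fin n => X i.1 i.2)
  choose c hc using hb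
  have hβ : algebraMap ℤ_[p] ℚ_[p] (b : ℤ_[p]) ≠ 0 := by
    rw [Ne, map_eq_zero_iff _ (IsFractionRing.injective ℤ_[p] ℚ_[p])]
    exact nonZeroDivisors.coe_ne_zero b
  set β := algebraMap ℤ_[p] ℚ_[p] (b : ℤ_[p]) with hβd
  let Y : Matrix (Fin n) (Fin n) ℤ_[p] := Matrix.of fun i j => c (i, j)
  have hY : Y.map (algebraMap ℤ_[p] ℚ_[p]) = β • X := by
    ext i j
    have hYd : Y i j = c (i, j) := rfl
    rw [Matrix.map_apply, hYd, hc, Matrix.smul_apply, hβd, Algebra.smul_def, smul_eq_mul]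
  have h1 : Yᵀ * J + J * Y = 0 := by
    apply map_inj
    rw [map_add', Matrix.map_mul, Matrix.map_mul, transpose_map, hY, transpose_smul,
      smul_mul_assoc, mul_smul_comm, ← smul_add, hX, smul_zero, Matrix.map_zero _ (map_zero _)]
  have h2 := isTangent_of_tan ρ hρ (htan Y h1)
  rw [hY] at h2
  have h3 := Pool.Agent.Y708.ZO.tangent_smul ρ β⁻¹ h2
  rwa [smul_smul, inv_mul_cancel₀ hβ, one_smul] at h3

/-- **The Lie algebra of the image is the orthogonal Lie algebra if the residual representation is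
primitive, contains a reflection and a unipotent element of small order.** -/
theorem so_of_residual (hp3 : 3 ≤ p) {ρ : Γ →* Matrix (Fin n) (Fin n) ℚ_[p]}
    (hρ : ∀ g, ρ g = (R g).map (algebraMap ℤ_[p] ℚ_[p])) (hs : Jᵀ = J)
    (hJ : ∀ g, (R g)ᵀ * J * R g = J) (hJ0 : red J ≠ 0) (hP : IsPrimitive J R)
    (hv : ∃ g v, dot J v v ≠ 0 ∧ ∀ x, red (R g) *ᵥ x = x - (2 * dot J v x / dot J v v) • v)
    (hg : ∃ g, red (R g) ≠ 1 ∧ (red (R g) - 1) ^ ((p - 1) / 2) = 0)
    {X : Matrix (Fin n) (Fin n) ℚ_[p]} (hX : Xᵀ * J.map (algebraMap ℤ_[p] ℚ_[p]) +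
      J.map (algebraMap ℤ_[p] ℚ_[p]) * X = 0) : IsTangent p ρ X := by
  obtain ⟨g₁, v, hv, hg₁⟩ := hv
  obtain ⟨g, hg1, hg⟩ := hg
  have hJd : IsUnit J.det := unimodular_of_primitive
    (fun g => ⟨1, by rw [Units.val_one, one_smul, hJ]⟩) hJ0 hP
  exact so_tangent hρ (fun Y hY => so_tan hJ (fun X hX => so_mem hp3 hs hJd (fun x y =>
    wg_mem hp3 hs hJ hJd hP ⟨hv, g₁, hg₁⟩ hg1 hg x y) hX) hY) hX

end

end Pool.Agent.U175.LP
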