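import Mathlib
import Pool.Agent.N171.TG.Sm
import Pool.Agent.U175.LP.R4

/-!
# Semisimplicity at every prime number from transvections modulo one prime number
-/

set_option autoImplicit false
set_option linter.unusedSectionVars false

namespace Pool.Agent.U175.LP

open Module Matrix Polynomial NumberField IsDedekindDomain Pool.Agent.U175.LP.Pub
open Pool.Agent.R932.SQ Pool.Agent.Y142.ZO Pool.Agent.Y142.ZI Pool.Agent.Y142.ZS
open Pool.Agent.N171.TG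

noncomputable section

theorem map_inj {p : ℕ} [Fact p.Prime] {m n : ℕ} {A B : Matrix (Fin m) (Fin n) ℤ_[p]}
    (h : A.map (algebraMap ℤ_[p] ℚ_[p]) = B.map (algebraMap ℤ_[p] ℚ_[p])) : A = B := by
  ext a b
  have h1 : algebraMap ℤ_[p] ℚ_[p] (A a b) = algebraMap ℤ_[p] ℚ_[p] (B a b) :=
    congrFun (congrFun h a) b
  exact (IsFractionRing.injective ℤ_[p] ℚ_[p]) h1

/-- The multiplier is a character with values in the `p`-adic units. -/
theorem exists_kappa {p : ℕ} [hp : Fact p.Prime] {n : ℕ} {G : Type} [Group G]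
    {R : G →* Matrix (Fin n) (Fin n) ℤ_[p]} {B : Matrix (Fin n) (Fin n) ℤ_[p]}
    (hB : IsUnit B.det)
    (h : ∀ g, ∃ c : ℚ_[p], ((R g)ᵀ * B * R g).map (algebraMap ℤ_[p] ℚ_[p]) =
      c • B.map (algebraMap ℤ_[p] ℚ_[p])) :
    ∃ κ : G →* ℤ_[p]ˣ, ∀ g, (R g)ᵀ * B * R g = (κ g : ℤ_[p]) • B := by
  rcases Nat.eq_zero_or_pos n with hn | hn
  · subst hn
    exact ⟨1, fun g => Subsingleton.elim _ _⟩
  · let a : Fin n := ⟨0, hn⟩
    let cz : G → ℤ_[p] := fun g => (B⁻¹ * ((R g)ᵀ * B * R g)) a a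
    have h1 : ∀ g, (R g)ᵀ * B * R g = cz g • B := by
      intro g
      obtain ⟨c, hc⟩ := h g
      have h2 : (B⁻¹ * ((R g)ᵀ * B * R g)).map (algebraMap ℤ_[p] ℚ_[p]) = c • 1 := by
        rw [Matrix.map_mul, hc, mul_smul_comm, ← Matrix.map_mul, Matrix.nonsing_inv_mul _ hB,
          Matrix.map_one _ (map_zero _) (map_one _)]
      have h3 : algebraMap ℤ_[p] ℚ_[p] (cz g) = c := by
        have h4 := congrFun (congrFun h2 a) a
        rw [Matrix.map_apply, Matrix.smul_apply, Matrix.one_apply_eq, smul_eq_mul, mul_one] at h4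
        exact h4
      apply map_inj
      rw [hc, ← h3]
      ext x y
      rw [Matrix.smul_apply, Matrix.map_apply, Matrix.map_apply, Matrix.smul_apply, smul_eq_mul,
        smul_eq_mul, map_mul]
    have hcan : ∀ x y : ℤ_[p], x • B = y • B → x = y := by
      intro x y hxy
      have h2 := congrArg (fun M => (B⁻¹ * M) a a) hxy
      simp only [mul_smul_comm, Matrix.nonsing_inv_mul _ hB, Matrix.smul_apply,
        Matrix.one_apply_eq, smul_eq_mul, mul_one] at h2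
      exact h2
    refine ⟨MonoidHom.toHomUnits
      { toFun := cz
        map_one' := hcan _ _ (by
          rw [← h1, map_one, transpose_one, one_mul, mul_one, one_smul])
        map_mul' := fun g g' => hcan _ _ (by
          rw [← h1, map_mul, transpose_mul]
          have h2 : (R g')ᵀ * (R g)ᵀ * B * (R g * R g') =
              (R g')ᵀ * ((R g)ᵀ * B * R g) * R g' := by
            simp only [Matrix.mul_assoc]
          rw [h2, h1, mul_smul_comm, smul_mul_assoc, h1, smul_smul]) }, fun g => h1 g⟩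

/-- **Semisimplicity at every prime number from transvections modulo one prime number.** -/
theorem ss_transv {K : Type} [Field K] [NumberField K] (hK : finrank ℚ K = 1)
    {Γ : Type} [Group Γ] (θ : GK K →* Γ) {n w : ℕ} (hw : 0 < w)
    {S : Set (HeightOneSpectrum (𝓞 K))} (hS : S.Finite) (P : HeightOneSpectrum (𝓞 K) → ℤ[X])
    (hP : ∀ v ∉ S, (P v).Monic ∧
      ∀ z : ℂ, aeval z (P v) = 0 → ‖z‖ ^ 2 = (Ideal.absNorm v.asIdeal : ℝ) ^ w)
    (ρ : ∀ (ℓ : ℕ) [Fact ℓ.Prime], Γ →* Matrix (Fin n) (Fin n) ℚ_[ℓ])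
    (hρ : ∀ (ℓ : ℕ) [Fact ℓ.Prime], Continuous ((ρ ℓ).comp θ))
    (J : ∀ (ℓ : ℕ) [Fact ℓ.Prime], Matrix (Fin n) (Fin n) ℚ_[ℓ])
    (hJ : ∀ (ℓ : ℕ) [Fact ℓ.Prime], (J ℓ)ᵀ = J ℓ ∨ (J ℓ)ᵀ = -J ℓ)
    (hdet : ∀ (ℓ : ℕ) [Fact ℓ.Prime], (J ℓ).det ≠ 0)
    (χ : ∀ (ℓ : ℕ) [Fact ℓ.Prime], Γ → ℚ_[ℓ])
    (hχ : ∀ (ℓ : ℕ) [Fact ℓ.Prime] (g : Γ), (ρ ℓ g)ᵀ * J ℓ * ρ ℓ g = χ ℓ g • J ℓ)
    (hfrob : ∀ (ℓ : ℕ) [Fact ℓ.Prime], ∀ v ∉ S, (ℓ : 𝓞 K) ∉ v.asIdeal → ∀ σ : GK K,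
      IsFrobenius v σ → (ρ ℓ (θ σ⁻¹)).charpoly = (P v).map (algebraMap ℤ ℚ_[ℓ]) ∧
      χ ℓ (θ σ⁻¹) = (Ideal.absNorm v.asIdeal : ℚ_[ℓ]) ^ w)
    {p : ℕ} [hp : Fact p.Prime] (hp5 : 5 ≤ p) (R : GK K →* Matrix (Fin n) (Fin n) ℤ_[p])
    (B : Matrix (Fin n) (Fin n) ℤ_[p])
    (hR : ∀ g, ρ p (θ g) = (R g).map (algebraMap ℤ_[p] ℚ_[p]))
    (hB : ∃ c : ℚ_[p], c ≠ 0 ∧ J p = c • B.map (algebraMap ℤ_[p] ℚ_[p])) (hBalt : Bᵀ = -B)
    (hBu : IsUnit B.det)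
    (hT : Submodule.span (ZMod p) {v | ∃ g, IsTrv B (R g) v} = ⊤)
    (ℓ : ℕ) [hℓ : Fact ℓ.Prime] (U : Subgroup Γ) (hU : U.FiniteIndex) :
    SSu (endRep (ρ ℓ)) U := by
  classical
  obtain ⟨c, hc, hJB⟩ := hB
  obtain ⟨κ, hκ⟩ := exists_kappa (R := R) hBu (fun g => ⟨χ p (θ g), by
    have h1 := hχ p (θ g)
    rw [hJB, hR, mul_smul_comm, smul_mul_assoc, smul_comm] at h1
    have h2 := smul_right_injective _ hc h1
    rw [Matrix.map_mul, Matrix.map_mul, transpose_map]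
    exact h2⟩)
  obtain ⟨M, hM, hMB, hno⟩ := exists_noRel_tan (R := R) (κ := κ) hp5 hBalt hBu hκ hT
  have htan : IsTangent p ((ρ p).comp θ) (M.map (algebraMap ℤ_[p] ℚ_[p])) :=
    isTangent_of_tanA ((ρ p).comp θ) (fun g => hR g) hM
  have hXJ : (M.map (algebraMap ℤ_[p] ℚ_[p]))ᵀ * J p + J p * M.map (algebraMap ℤ_[p] ℚ_[p]) =
      (0 : ℚ_[p]) • J p := by
    rw [zero_smul, hJB, mul_smul_comm, smul_mul_assoc, ← smul_add, ← transpose_map,
      ← Matrix.map_mul, ← Matrix.map_mul]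
    have h1 : (Mᵀ * B).map (algebraMap ℤ_[p] ℚ_[p]) + (B * M).map (algebraMap ℤ_[p] ℚ_[p]) = 0 := by
      ext a b
      have h2 := congrFun (congrFun hMB a) b
      rw [Matrix.add_apply] at h2
      rw [Matrix.add_apply, Matrix.map_apply, Matrix.map_apply, ← map_add, h2, Matrix.zero_apply,
        Matrix.zero_apply, map_zero]
    rw [h1, smul_zero]
  refine SSu.finite_index (fun M hM => ?_) U hU
  obtain ⟨h1, h2⟩ := semisimple_all hK θ hw hS P hP ρ hρ J hJ hdet χ hχ hfrob p htan hXJ hno ℓ M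
    (fun g x hx => hM g (Subgroup.mem_top g) x hx)
  exact ⟨_, fun g _ x hx => h2 g x hx, h1⟩

end

end Pool.Agent.U175.LP
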