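import Mathlib
import Pool.Agent.U175.LP.R5
import Pool.Agent.U175.LP.R10

/-!
# Semisimplicity at every prime number from the Lie algebra of the image modulo one prime number
-/

set_option autoImplicit false
set_option linter.unusedSectionVars false

namespace Pool.Agent.U175.LP

open Module Matrix Polynomial NumberField IsDedekindDomain Pool.Agent.U175.LP.Pub
open Pool.Agent.R932.SQ Pool.Agent.Y142.ZO Pool.Agent.Y142.ZI Pool.Agent.Y142.ZS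
open Pool.Agent.N171.TG

noncomputable section

/-- The smallest subspace which contains `S` and is closed under commutators. -/
def lieGen {p n : ℕ} (S : Set (Matrix (Fin n) (Fin n) (ZMod p))) :
    Submodule (ZMod p) (Matrix (Fin n) (Fin n) (ZMod p)) :=
  sInf {L | S ⊆ L ∧ ∀ X ∈ L, ∀ Y ∈ L, X * Y - Y * X ∈ L}

theorem lieGen_le {p : ℕ} [hp : Fact p.Prime] (hp3 : 3 ≤ p) {n : ℕ} {G : Type} [Group G]
    {R : G →* Matrix (Fin n) (Fin n) ℤ_[p]} {κ : G →* ℤ_[p]ˣ} {J : Matrix (Fin n) (Fin n) ℤ_[p]}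
    (hJ : IsUnit J.det) (hinv : ∀ g, (R g)ᵀ * J * R g = (κ g : ℤ_[p]) • J)
    {S : Set (Matrix (Fin n) (Fin n) (ZMod p))}
    (hS : ∀ X ∈ S, ∃ g, (red (R g) - 1) ^ ((p - 1) / 2) = 0 ∧ X = nlog (red (R g))) :
    lieGen S ≤ L1 R κ := by
  refine sInf_le ⟨fun X hX => ?_, fun X hX Y hY => mem_L1.2 (L1P_lie (mem_L1.1 hX) (mem_L1.1 hY))⟩
  obtain ⟨g, hg, rfl⟩ := hS X hX
  exact nlog_mem hp3 hJ hinv (by omega) (by omega) hg

/-- **Semisimplicity at every prime number from the Lie algebra of the image modulo one prime.** -/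
theorem ss_lie {K : Type} [Field K] [NumberField K] (hK : finrank ℚ K = 1)
    {Γ : Type} [Group Γ] (θ : GK K →* Γ) {n w : ℕ} (hw : 0 < w)
    {S : Set (HeightOneSpectrum (𝓞 K))} (hS : S.Finite) (P : HeightOneSpectrum (𝓞 K) → ℤ[X])
    (hP : ∀ v ∉ S, (P v).Monic ∧
      ∀ z : ℂ, aeval z (P v) = 0 → ‖z‖ ^ 2 = (Ideal.absNorm v.asIdeal : ℝ) ^ w)
    (ρ : ∀ (ℓ : ℕ) [Fact ℓ.Prime], Γ →* Matrix (Fin n) (Fin n) ℚ_[ℓ])
    (hρ : ∀ (ℓ : ℕ) [Fact ℓ.Prime], Continuous ((ρ ℓ).comp θ))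
    (J : ∀ (ℓ : ℕ) [Fact ℓ.Prime], Matrix (Fin n) (Fin n) ℚ_[ℓ])
    (hJ : ∀ (ℓ : ℕ) [Fact ℓ.Prime], (J ℓ)ᵀ = J ℓ ∨ (J ℓ)ᵀ = -J ℓ)
    (hdet : ∀ (ℓ : ℕ) [Fact ℓ.Prime], (J ℓ).det ≠ 0)
    (χ : ∀ (ℓ : ℕ) [Fact ℓ.Prime], Γ → ℚ_[ℓ])
    (hχ : ∀ (ℓ : ℕ) [Fact ℓ.Prime] (g : Γ), (ρ ℓ g)ᵀ * J ℓ * ρ ℓ g = χ ℓ g • J ℓ)
    (hfrob : ∀ (ℓ : ℕ) [Fact ℓ.Prime], ∀ v ∉ S, (ℓ : 𝓞 K) ∉ v.asIdeal → ∀ σ : GK K,
      IsFrobenius v σ → (ρ ℓ (θ σ⁻¹)).charpoly = (P v).map (algebraMap ℤ ℚ_[ℓ]) ∧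
      χ ℓ (θ σ⁻¹) = (Ideal.absNorm v.asIdeal : ℚ_[ℓ]) ^ w)
    {p : ℕ} [hp : Fact p.Prime] (hp3 : 3 ≤ p) (R : GK K →* Matrix (Fin n) (Fin n) ℤ_[p])
    (B : Matrix (Fin n) (Fin n) ℤ_[p])
    (hR : ∀ g, ρ p (θ g) = (R g).map (algebraMap ℤ_[p] ℚ_[p]))
    (hB : ∃ c : ℚ_[p], c ≠ 0 ∧ J p = c • B.map (algebraMap ℤ_[p] ℚ_[p]))
    (hBu : IsUnit B.det) {T : Set (Matrix (Fin n) (Fin n) (ZMod p))}
    (hT : ∀ X ∈ T, ∃ g, (red (R g) - 1) ^ ((p - 1) / 2) = 0 ∧ X = nlog (red (R g)))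
    {k : Type} [Field k] [Algebra (ZMod p) k] {X : Matrix (Fin n) (Fin n) k}
    (hX : X ∈ Submodule.span k {Z | ∃ Y ∈ lieGen T, Z = Y.map (algebraMap (ZMod p) k)})
    (hno : NoIso X.charpoly)
    (ℓ : ℕ) [hℓ : Fact ℓ.Prime] (U : Subgroup Γ) (hU : U.FiniteIndex) :
    SSu (endRep (ρ ℓ)) U := by
  classical
  obtain ⟨c, hc, hJB⟩ := hB
  obtain ⟨κ, hκ⟩ := exists_kappa (R := R) hBu (fun g => ⟨χ p (θ g), by
    have h1 := hχ p (θ g)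
    rw [hJB, hR, mul_smul_comm, smul_mul_assoc, smul_comm] at h1
    have h2 := smul_right_injective _ hc h1
    rw [Matrix.map_mul, Matrix.map_mul, transpose_map]
    exact h2⟩)
  obtain ⟨M, d, hM, hMB, hnr⟩ := exists_noRel_lie hp3 hBu hκ (lieGen_le hp3 hBu hκ hT) hX hno
  have htan : IsTangent p ((ρ p).comp θ) (M.map (algebraMap ℤ_[p] ℚ_[p])) :=
    isTangent_of_tanA ((ρ p).comp θ) (fun g => hR g) hM
  have hXJ : (M.map (algebraMap ℤ_[p] ℚ_[p]))ᵀ * J p + J p * M.map (algebraMap ℤ_[p] ℚ_[p]) =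
      (algebraMap ℤ_[p] ℚ_[p] d) • J p := by
    rw [hJB, mul_smul_comm, smul_mul_assoc, ← smul_add, ← transpose_map,
      ← Matrix.map_mul, ← Matrix.map_mul]
    have h1 : (Mᵀ * B).map (algebraMap ℤ_[p] ℚ_[p]) + (B * M).map (algebraMap ℤ_[p] ℚ_[p]) =
        (algebraMap ℤ_[p] ℚ_[p] d) • B.map (algebraMap ℤ_[p] ℚ_[p]) := by
      ext a b
      have h2 := congrFun (congrFun hMB a) b
      rw [Matrix.add_apply, Matrix.smul_apply, smul_eq_mul] at h2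
      rw [Matrix.add_apply, Matrix.map_apply, Matrix.map_apply, ← map_add, h2, Matrix.smul_apply,
        Matrix.map_apply, smul_eq_mul, map_mul]
    rw [h1, smul_comm]
  refine SSu.finite_index (fun M hM => ?_) U hU
  obtain ⟨h1, h2⟩ := semisimple_all hK θ hw hS P hP ρ hρ J hJ hdet χ hχ hfrob p htan hXJ hnr ℓ M
    (fun g x hx => hM g (Subgroup.mem_top g) x hx)
  exact ⟨_, fun g _ x hx => h2 g x hx, h1⟩

end

end Pool.Agent.U175.LP
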