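import Mathlib
import Pool.Agent.U175.LP.R17
import Pool.Agent.U175.LP.P1

/-!
# Primitive residual representations with a transvection: the Lie algebra
-/

set_option autoImplicit false
set_option linter.unusedSectionVars false

namespace Pool.Agent.U175.LP

open PadicInt Module Matrix Filter Topology Pool.Agent.U175.LP.Pub Pool.Agent.Y142.ZO

noncomputable section

variable {p : ℕ} [hp : Fact p.Prime] {n : ℕ} {Γ : Type} [Group Γ]

section sp

variable {J : Matrix (Fin n) (Fin n) ℤ_[p]} {R : Γ →* Matrix (Fin n) (Fin n) ℤ_[p]}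

/-- the endomorphism of the sum over one index -/
def oneE (Y : Matrix (Fin n) (Fin n) ℤ_[p]) : Module.End ℤ_[p] (∀ _ : Unit, Fin n → ℤ_[p]) :=
  LinearMap.pi fun i => Matrix.toLin' Y ∘ₗ LinearMap.proj i

theorem oneE_apply (Y : Matrix (Fin n) (Fin n) ℤ_[p]) (x : ∀ _ : Unit, Fin n → ℤ_[p]) (i : Unit) :
    oneE Y x i = Y *ᵥ x i := rfl

theorem oneE_mem (hp3 : 3 ≤ p) (ha : Jᵀ = -J) (hJd : IsUnit J.det)
    {Y : Matrix (Fin n) (Fin n) ℤ_[p]} (hY : Yᵀ * J + J * Y = 0) :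
    oneE Y ∈ Si (piB fun _ : Unit => J) (piP p fun _ : Unit => n) () := by
  classical
  obtain ⟨S, hS⟩ : ∃ S, S = Y * J⁻¹ := ⟨_, rfl⟩
  have hinv : J * J⁻¹ = 1 := Matrix.mul_nonsing_inv _ hJd
  have hinv' : J⁻¹ * J = 1 := Matrix.nonsing_inv_mul _ hJd
  have hSJ : S * J = Y := by rw [hS, mul_assoc, hinv', mul_one]
  have hJY : Yᵀ * J = -(J * Y) := eq_neg_of_add_eq_zero_left hY
  have hinvT : (J⁻¹)ᵀ = -J⁻¹ := by
    have h1 : (J⁻¹)ᵀ * Jᵀ = 1 := by rw [← transpose_mul, hinv, transpose_one]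
    rw [ha, mul_neg] at h1
    have h2 : (J⁻¹)ᵀ * J * J⁻¹ = -J⁻¹ := by
      have h3 : (J⁻¹)ᵀ * J = -1 := by rw [← h1, neg_neg]
      rw [h3, neg_mul, one_mul]
    rwa [mul_assoc, hinv, mul_one] at h2
  have hSs : Sᵀ = S := by
    rw [hS, transpose_mul, hinvT]
    have h1 : Yᵀ = -(J * Y * J⁻¹) := by
      rw [← neg_mul, ← hJY, mul_assoc, hinv, mul_one]
    rw [h1, neg_mul_neg, ← mul_assoc, ← mul_assoc, hinv', one_mul]
  have hSab : ∀ a b, S a b = S b a := fun a b => by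
    conv_lhs => rw [← hSs]
    rfl
  let e : Fin n → (∀ _ : Unit, Fin n → ℤ_[p]) := fun a => Pi.single () (Pi.single a 1)
  have he : ∀ a, piP p (fun _ : Unit => n) () (e a) = e a := by
    intro a
    rw [piP_apply]
    congr 1
  have hBe : ∀ a (x : ∀ _ : Unit, Fin n → ℤ_[p]), piB (fun _ : Unit => J) (e a) x =
      (J *ᵥ x ()) a := by
    intro a x
    rw [piB_single_left, form_apply, single_one_dotProduct]
  refine mem_of_smul_unit (isUnit_natCast hp3) ?_
  have h1 : (2 : ℤ_[p]) • oneE Y = ∑ a, ∑ b, S a b • so (piB fun _ : Unit => J) (e a) (e b) := by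
    refine LinearMap.ext fun x => funext fun i => ?_
    obtain rfl : i = () := rfl
    rw [LinearMap.smul_apply, Pi.smul_apply, oneE_apply]
    simp only [LinearMap.sum_apply, LinearMap.smul_apply, Finset.sum_apply, Pi.smul_apply, so_apply,
      Pi.add_apply, hBe]
    have h2 : ∀ a b, S a b • ((J *ᵥ x ()) a • e b () + (J *ᵥ x ()) b • e a ()) =
        (S b a * (J *ᵥ x ()) a) • e b () + (S a b * (J *ᵥ x ()) b) • e a () := by
      intro a b
      rw [smul_add, smul_smul, smul_smul, hSab a b]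
    simp only [h2, Finset.sum_add_distrib]
    have h3 : ∑ a, ∑ b, (S a b * (J *ᵥ x ()) b) • e a () = Y *ᵥ x () := by
      rw [← hSJ, ← mulVec_mulVec]
      funext k
      rw [Finset.sum_apply]
      simp only [Finset.sum_apply, Pi.smul_apply, smul_eq_mul]
      rw [Finset.sum_eq_single k]
      · rw [Matrix.mulVec, dotProduct]
        refine Finset.sum_congr rfl fun b _ => ?_
        have h4 : e k () k = 1 := by
          show (Pi.single () (Pi.single k 1) : ∀ _ : Unit, Fin n → ℤ_[p]) () k = 1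
          rw [Pi.single_eq_same, Pi.single_eq_same]
        rw [h4, mul_one]
      · intro a _ hak
        refine Finset.sum_eq_zero fun b _ => ?_
        have h4 : e a () k = 0 := by
          show (Pi.single () (Pi.single a 1) : ∀ _ : Unit, Fin n → ℤ_[p]) () k = 0
          rw [Pi.single_eq_same, Pi.single_eq_of_ne (Ne.symm hak)]
        rw [h4, mul_zero]
      · intro h
        exact absurd (Finset.mem_univ k) h
    rw [Finset.sum_comm, h3, two_smul]
  rw [h1]
  exact Submodule.sum_mem _ fun a _ => Submodule.sum_mem _ fun b _ =>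
    Submodule.smul_mem _ _ (so_mem_Si' _ _ (he a) (he b))

/-- **The Lie algebra of the image contains the symplectic Lie algebra if the residual representation
is primitive and contains a transvection.** -/
theorem sp_of_residual (hp5 : 5 ≤ p) {ρ : Γ →* Matrix (Fin n) (Fin n) ℚ_[p]}
    (hρ : ∀ g, ρ g = (R g).map (algebraMap ℤ_[p] ℚ_[p])) (ha : Jᵀ = -J)
    (hsim : ∀ g, ∃ μ : ℤ_[p]ˣ, (R g)ᵀ * J * R g = (μ : ℤ_[p]) • J) (hJ0 : red J ≠ 0)
    (hP : IsPrimitive J R)
    (hv : ∃ g v, ∃ c : ZMod p, c ≠ 0 ∧ v ≠ 0 ∧ ∀ x, red (R g) *ᵥ x = x + (c * dot J v x) • v)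
    {X : Matrix (Fin n) (Fin n) ℚ_[p]} (hX : Xᵀ * J.map (algebraMap ℤ_[p] ℚ_[p]) +
      J.map (algebraMap ℤ_[p] ℚ_[p]) * X = 0) : IsTangent p ρ X := by
  classical
  obtain ⟨g₁, v, c, hc, hv, hg₁⟩ := hv
  have hJd : IsUnit J.det := unimodular_of_primitive hsim hJ0 hP
  have hconn := connected_of_primitive ha hsim hJd hP hv
  obtain ⟨μ, hμ⟩ := Classical.axiom_of_choice hsim
  have hn : 0 < n := by
    rcases Nat.eq_zero_or_pos n with rfl | h
    · exact absurd (Subsingleton.elim v 0) hv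
    · exact h
  have hJne : J ≠ 0 := by
    rintro rfl
    exact hJ0 red_zero'
  obtain ⟨a₀, b₀, hab⟩ : ∃ a b, J a b ≠ 0 := by
    by_contra hcon
    push Not at hcon
    exact hJne (by ext a b; exact hcon a b)
  have huniq : ∀ x y : ℤ_[p], x • J = y • J → x = y := by
    intro x y h
    have h1 := congrFun (congrFun h a₀) b₀
    rw [Matrix.smul_apply, Matrix.smul_apply, smul_eq_mul, smul_eq_mul] at h1
    exact mul_right_cancel₀ hab h1
  have hmul : ∀ g h, μ (g * h) = μ g * μ h := by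
    intro g h
    apply Units.ext
    refine huniq _ _ ?_
    rw [← hμ, map_mul, transpose_mul, Units.val_mul]
    calc (R h)ᵀ * (R g)ᵀ * J * (R g * R h) = (R h)ᵀ * ((R g)ᵀ * J * R g) * R h := by
          simp only [mul_assoc]
      _ = ((μ g : ℤ_[p]) * (μ h : ℤ_[p])) • J := by
          rw [hμ, mul_smul_comm, smul_mul_assoc, hμ, smul_smul]
  let κ : Γ →* ℤ_[p]ˣ := MonoidHom.mk' μ hmul
  have hB : ∀ (_ : Unit) s x y, Matrix.toBilin' J (repT κ 0 R s x) (repT κ 0 R s y) =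
      (κ s : ℤ_[p]) * Matrix.toBilin' J x y := by
    intro _ s x y
    rw [repT_apply, repT_apply, pow_zero, Units.val_one, one_smul, one_smul, form_apply, form_apply]
    have e1 : (R s *ᵥ x) ⬝ᵥ J *ᵥ (R s *ᵥ y) = x ⬝ᵥ ((R s)ᵀ * J * R s) *ᵥ y := by
      rw [← mulVec_mulVec, ← mulVec_mulVec, dotProduct_mulVec x, vecMul_transpose]
    rw [e1, hμ, smul_mulVec, dotProduct_smul]
    rfl
  have hT : Transvects (fun _ : Unit => J) (fun _ : Unit => R)
      (1 : Γ →* Matrix (Fin 0) (Fin 0) ℤ_[p]) () v g₁ := by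
    refine ⟨⟨c, hc, hg₁⟩, fun j hj _ => absurd rfl hj, fun _ => ?_⟩
    exact Subsingleton.elim _ _
  have hlarge : ∀ i : Unit, LargeAt (fun _ : Unit => J) (fun _ : Unit => R)
      (1 : Γ →* Matrix (Fin 0) (Fin 0) ℤ_[p]) i := by
    intro i
    obtain rfl : i = () := rfl
    exact ⟨Γ, fun a => red (R a) *ᵥ v, hconn, fun a => ⟨a * g₁ * a⁻¹,
      transvects_conj (i := ()) (hsim := hsim) hT a⟩⟩
  refine so_tangent hρ (fun Y hY => ?_) hX
  have h1 := tan_large' (ι := Unit) (N := fun _ => n) (J := fun _ => J) (ρ := fun _ => R)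
    (c := fun _ => 0) (κ := κ) (τ := (1 : Γ →* Matrix (Fin 0) (Fin 0) ℤ_[p])) hp5 (fun _ => ha)
    (fun _ => hJd) hB hlarge (i := ()) (oneE_mem (by omega) ha hJd hY)
  let f : (Module.End ℤ_[p] (∀ _ : Unit, Fin n → ℤ_[p]) ×
      (Matrix (Fin 0) (Fin 0) ℤ_[p] × ℤ_[p])) →ₗ[ℤ_[p]] Matrix (Fin n) (Fin n) ℤ_[p] :=
    { toFun := fun Z => LinearMap.toMatrix' ((LinearMap.proj ()) ∘ₗ Z.1 ∘ₗ
        (LinearMap.single ℤ_[p] (fun _ : Unit => Fin n → ℤ_[p]) ()))
      map_add' := by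
        intro Z Z'
        rw [Prod.fst_add, LinearMap.add_comp, LinearMap.comp_add, map_add]
      map_smul' := by
        intro r Z
        rw [Prod.smul_fst, LinearMap.smul_comp, LinearMap.comp_smul, map_smul, RingHom.id_apply] }
  have hf : ∀ (Z : Module.End ℤ_[p] (∀ _ : Unit, Fin n → ℤ_[p])) (M)
      (Y : Matrix (Fin n) (Fin n) ℤ_[p]), (∀ x, Z x () = Y *ᵥ x ()) → f (Z, M) = Y := by
    intro Z M Y h
    show LinearMap.toMatrix' ((LinearMap.proj ()) ∘ₗ Z ∘ₗ
        (LinearMap.single ℤ_[p] (fun _ : Unit => Fin n → ℤ_[p]) ())) = Y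
    rw [← LinearMap.toMatrix'_toLin' Y]
    congr 1
    refine LinearMap.ext fun x => ?_
    rw [LinearMap.comp_apply, LinearMap.comp_apply, LinearMap.proj_apply, h, Matrix.toLin'_apply]
    congr 1
  have h2 := tanA_map (R' := R) f (hf 1 1 1 fun x => by rw [one_mulVec]; rfl) (fun s => hf _ _ _ fun x => by
    show ((κ s ^ 0 : ℤ_[p]ˣ) : ℤ_[p]) • (R s *ᵥ x ()) = R s *ᵥ x ()
    rw [pow_zero, Units.val_one, one_smul]) h1
  rwa [hf (oneE Y) 0 Y fun x => rfl] at h2

end sp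

end

end Pool.Agent.U175.LP
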