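import Mathlib
import Pool.Agent.U175.LP.Q1
import Pool.Agent.R932.PO.All

/-!
# Independence of two residual representations
-/

set_option autoImplicit false
set_option linter.unusedSectionVars false

namespace Pool.Agent.U175.LP

open PadicInt Module Matrix Filter Topology Pool.Agent.U175.LP.Pub Pool.Agent.Y142.ZO

noncomputable section

variable {p : ℕ} [hp : Fact p.Prime] {n m : ℕ} {Γ : Type} [Group Γ]

section pair

/-- a nonzero linear map between spaces of matrices has a multiple which maps integral matrices to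
integral matrices and is not zero modulo `p` -/
theorem exists_integral_map {Θ : Matrix (Fin m) (Fin m) ℚ_[p] →ₗ[ℚ_[p]] Matrix (Fin n) (Fin n) ℚ_[p]}
    (hΘ : Θ ≠ 0) : ∃ (c : ℚ_[p]), c ≠ 0 ∧
      (∀ A : Matrix (Fin m) (Fin m) ℤ_[p], ∃ A' : Matrix (Fin n) (Fin n) ℤ_[p],
        A'.map (algebraMap ℤ_[p] ℚ_[p]) = c • Θ (A.map (algebraMap ℤ_[p] ℚ_[p]))) ∧
      ∃ (A : Matrix (Fin m) (Fin m) ℤ_[p]) (A' : Matrix (Fin n) (Fin n) ℤ_[p]),
        A'.map (algebraMap ℤ_[p] ℚ_[p]) = c • Θ (A.map (algebraMap ℤ_[p] ℚ_[p])) ∧ red A' ≠ 0 := by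
  classical
  -- the entries of `Θ`
  let E : Fin m × Fin m → Matrix (Fin m) (Fin m) ℚ_[p] := fun a => Matrix.single a.1 a.2 1
  let θ : (Fin m × Fin m) × (Fin n × Fin n) → ℚ_[p] := fun q => Θ (E q.1) q.2.1 q.2.2
  have hsum : ∀ A : Matrix (Fin m) (Fin m) ℚ_[p], A = ∑ a : Fin m × Fin m, A a.1 a.2 • E a := by
    intro A
    conv_lhs => rw [Matrix.matrix_eq_sum_single A]
    rw [Fintype.sum_prod_type]
    refine Finset.sum_congr rfl fun i _ => Finset.sum_congr rfl fun j _ => ?_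
    show Matrix.single i j (A i j) = A i j • Matrix.single i j 1
    rw [Matrix.smul_single, smul_eq_mul, mul_one]
  have hne : ∃ q, θ q ≠ 0 := by
    by_contra hcon
    push Not at hcon
    apply hΘ
    refine LinearMap.ext fun A => ?_
    rw [hsum A, map_sum]
    rw [LinearMap.zero_apply]
    refine Finset.sum_eq_zero fun a _ => ?_
    rw [map_smul]
    have h1 : Θ (E a) = 0 := by
      ext k l
      exact hcon (a, (k, l))
    rw [h1, smul_zero]
  obtain ⟨q₁, hq₁⟩ := hne
  obtain ⟨q₀, -, hq₀⟩ := Finset.exists_max_image (Finset.univ) (fun q => ‖θ q‖) ⟨q₁, Finset.mem_univ q₁⟩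
  have hθ0 : θ q₀ ≠ 0 := by
    intro h
    have h1 := hq₀ q₁ (Finset.mem_univ _)
    rw [h, norm_zero] at h1
    exact hq₁ (norm_le_zero_iff.1 h1)
  refine ⟨(θ q₀)⁻¹, inv_ne_zero hθ0, ?_, ?_⟩
  · intro A
    have h1 : ∀ k l, ‖((θ q₀)⁻¹ • Θ (A.map (algebraMap ℤ_[p] ℚ_[p]))) k l‖ ≤ 1 := by
      intro k l
      rw [hsum (A.map (algebraMap ℤ_[p] ℚ_[p])), map_sum, Matrix.smul_apply, Matrix.sum_apply,
        smul_eq_mul, Finset.mul_sum]
      refine (IsUltrametricDist.norm_sum_le_of_forall_le_of_nonneg zero_le_one fun a _ => ?_)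
      rw [map_smul, Matrix.smul_apply, smul_eq_mul, norm_mul, norm_mul, norm_inv]
      have h2 : ‖(A.map (algebraMap ℤ_[p] ℚ_[p])) a.1 a.2‖ ≤ 1 := by
        rw [Matrix.map_apply]
        exact PadicInt.norm_le_one _
      have h3 : ‖Θ (E a) k l‖ ≤ ‖θ q₀‖ := hq₀ (a, (k, l)) (Finset.mem_univ _)
      have h4 : 0 < ‖θ q₀‖ := norm_pos_iff.2 hθ0
      rw [inv_mul_le_iff₀ h4, mul_one]
      calc ‖(A.map (algebraMap ℤ_[p] ℚ_[p])) a.1 a.2‖ * ‖Θ (E a) k l‖ ≤ 1 * ‖θ q₀‖ :=
            mul_le_mul h2 h3 (norm_nonneg _) zero_le_one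
        _ = ‖θ q₀‖ := one_mul _
    refine ⟨Matrix.of fun k l => ⟨_, h1 k l⟩, ?_⟩
    ext k l
    rfl
  · refine ⟨Matrix.single q₀.1.1 q₀.1.2 1, ?_⟩
    have h1 : ∀ k l, ‖((θ q₀)⁻¹ • Θ (E q₀.1)) k l‖ ≤ 1 := by
      intro k l
      rw [Matrix.smul_apply, smul_eq_mul, norm_mul, norm_inv]
      have h3 : ‖Θ (E q₀.1) k l‖ ≤ ‖θ q₀‖ := hq₀ (q₀.1, (k, l)) (Finset.mem_univ _)
      have h4 : 0 < ‖θ q₀‖ := norm_pos_iff.2 hθ0
      rw [inv_mul_le_iff₀ h4, mul_one]
      exact h3
    refine ⟨Matrix.of fun k l => ⟨_, h1 k l⟩, ?_, ?_⟩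
    · have h2 : (Matrix.single q₀.1.1 q₀.1.2 (1 : ℤ_[p])).map (algebraMap ℤ_[p] ℚ_[p]) = E q₀.1 := by
        rw [Matrix.map_single, map_one]
      rw [h2]
      ext k l
      rfl
    · intro h
      have h2 := congrFun (congrFun h q₀.2.1) q₀.2.2
      rw [red_apply, Matrix.zero_apply, toZMod_eq_zero] at h2
      obtain ⟨y, hy⟩ := h2
      have h3 := congrArg (fun z : ℤ_[p] => (z : ℚ_[p])) hy
      have h4 : ((Matrix.of (fun k l => (⟨_, h1 k l⟩ : ℤ_[p])) q₀.2.1 q₀.2.2 : ℤ_[p]) : ℚ_[p]) = 1 := by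
        show ((θ q₀)⁻¹ • Θ (E q₀.1)) q₀.2.1 q₀.2.2 = 1
        rw [Matrix.smul_apply, smul_eq_mul]
        exact inv_mul_cancel₀ hθ0
      have h3' : ((Matrix.of (fun k l => (⟨_, h1 k l⟩ : ℤ_[p])) q₀.2.1 q₀.2.2 : ℤ_[p]) : ℚ_[p]) =
          (((p : ℤ_[p]) * y : ℤ_[p]) : ℚ_[p]) := h3
      rw [h4] at h3'
      have h5 : IsUnit ((p : ℤ_[p])) := by
        have h6 : (1 : ℤ_[p]) = (p : ℤ_[p]) * y := by
          apply Subtype.ext
          exact h3'
        exact IsUnit.of_mul_eq_one y h6.symm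
      exact PadicInt.prime_p.not_isUnit h5

/-- a skew matrix which commutes with a transvection or a reflection kills its vector -/
theorem kills_of_comm (hp3 : 3 ≤ p) {J : Matrix (Fin n) (Fin n) ℤ_[p]} (hJd : IsUnit J.det)
    {r t : Matrix (Fin n) (Fin n) (ZMod p)} {v : Fin n → ZMod p} {c : ZMod p} (hc : c ≠ 0)
    (hr : ∀ x, r *ᵥ x = x + (c * dot J v x) • v) (hcomm : r * t = t * r)
    (hsk : tᵀ * red J + red J * t = 0) : t *ᵥ v = 0 := by
  by_cases hv : v = 0
  · rw [hv, mulVec_zero]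
  have hskd : ∀ x y, dot J (t *ᵥ x) y = -dot J x (t *ᵥ y) := by
    intro x y
    have h1 : dot J (t *ᵥ x) y + dot J x (t *ᵥ y) = x ⬝ᵥ (tᵀ * red J + red J * t) *ᵥ y := by
      rw [add_mulVec, dotProduct_add, dot_red, dot_red, ← mulVec_mulVec, ← mulVec_mulVec,
        dotProduct_mulVec x tᵀ, vecMul_transpose]
    rw [hsk, zero_mulVec, dotProduct_zero] at h1
    exact eq_neg_of_add_eq_zero_left h1
  -- a vector which is not orthogonal to `v`
  obtain ⟨x, hx⟩ : ∃ x, dot J v x ≠ 0 := by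
    by_contra hcon
    push Not at hcon
    have h1 : v ᵥ* red J = 0 := by
      refine dotProduct_eq_zero_iff.1 fun y => ?_
      have h2 := hcon y
      rw [dot_red, dotProduct_mulVec] at h2
      exact h2
    have h2 : (red J).det ≠ 0 := by
      have h3 : (red J).det = PadicInt.toZMod J.det := by
        rw [RingHom.map_det]
        rfl
      rw [h3]
      exact (isUnit_iff_toZMod _).1 hJd
    exact hv (Matrix.eq_zero_of_vecMul_eq_zero h2 h1)
  have h1 : ∀ y, dot J v y • (t *ᵥ v) = dot J v (t *ᵥ y) • v := by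
    intro y
    have h2 := congrArg (fun M : Matrix (Fin n) (Fin n) (ZMod p) => M *ᵥ y) hcomm
    simp only [← mulVec_mulVec] at h2
    rw [hr, hr, mulVec_add, mulVec_smul] at h2
    have h3 := add_left_cancel h2
    rw [mul_smul, mul_smul] at h3
    exact (smul_right_injective _ hc h3).symm
  have h2 : dot J v (t *ᵥ x) = -(dot J (t *ᵥ v) x) := by
    rw [hskd, neg_neg]
  obtain ⟨l, hl⟩ : ∃ l, t *ᵥ v = l • v := by
    refine ⟨(dot J v x)⁻¹ * dot J v (t *ᵥ x), ?_⟩
    rw [mul_smul, ← h1, smul_smul, inv_mul_cancel₀ hx, one_smul]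
  have h3 := h1 x
  have hdl : dot J (l • v) x = l * dot J v x := by
    rw [dot_red, dot_red, smul_dotProduct, smul_eq_mul]
  rw [h2, hl, hdl, smul_smul] at h3
  have h4 : (dot J v x * l + l * dot J v x) • v = 0 := by
    rw [add_smul, h3, neg_smul, neg_add_cancel]
  rcases smul_eq_zero.1 h4 with h5 | h5
  · have h6 : (2 : ZMod p) * (dot J v x * l) = 0 := by linear_combination h5
    rcases mul_eq_zero.1 h6 with h7 | h7
    · exact absurd h7 (two_neZ hp3)
    · rcases mul_eq_zero.1 h7 with h8 | h8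
      · exact absurd h8 hx
      · rw [hl, h8, zero_smul]
  · exact absurd h5 hv

/-- **Two residual representations are independent** if some element acts as a transvection or a
reflection on the first one, which is primitive, and trivially on the second one. -/
theorem pair_zero (hp3 : 3 ≤ p) {J : Matrix (Fin n) (Fin n) ℤ_[p]}
    {R : Γ →* Matrix (Fin n) (Fin n) ℤ_[p]} {R' : Γ →* Matrix (Fin m) (Fin m) ℤ_[p]}
    (hJd : IsUnit J.det) (hP : IsPrimitive J R)
    {g : Γ} (hg' : red (R' g) = 1) {v : Fin n → ZMod p} (hv : v ≠ 0) {c : ZMod p} (hc : c ≠ 0)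
    (hg : ∀ x, red (R g) *ᵥ x = x + (c * dot J v x) • v)
    {Θ : Matrix (Fin m) (Fin m) ℚ_[p] →ₗ[ℚ_[p]] Matrix (Fin n) (Fin n) ℚ_[p]}
    (hΘ : ∀ h A, Θ ((R' h).map (algebraMap ℤ_[p] ℚ_[p]) * A * (R' h⁻¹).map (algebraMap ℤ_[p] ℚ_[p])) =
      (R h).map (algebraMap ℤ_[p] ℚ_[p]) * Θ A * (R h⁻¹).map (algebraMap ℤ_[p] ℚ_[p]))
    (hsk : ∀ A, (Θ A)ᵀ * J.map (algebraMap ℤ_[p] ℚ_[p]) + J.map (algebraMap ℤ_[p] ℚ_[p]) * Θ A = 0) :
    Θ = 0 := by
  classical
  by_contra hne
  obtain ⟨c₀, hc₀, hT, A₀, B₀, hB₀, hB₀r⟩ := exists_integral_map hne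
  choose T hT using hT
  have hT0 : T A₀ = B₀ := map_inj (by rw [hT, hB₀])
  -- equivariance
  have heq : ∀ h A, T (R' h * A * R' h⁻¹) = R h * T A * R h⁻¹ := by
    intro h A
    apply map_inj
    rw [hT, Matrix.map_mul, Matrix.map_mul, Matrix.map_mul, Matrix.map_mul, hT, hΘ]
    rw [mul_smul_comm, smul_mul_assoc]
  have hadd : ∀ A Z, T (A + (p : ℤ_[p]) • Z) = T A + (p : ℤ_[p]) • T Z := by
    intro A Z
    apply map_inj
    rw [hT, map_add', map_add', map_smul', map_smul', hT, hT, map_add, map_smul, smul_add,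
      smul_comm c₀]
  -- all values kill `v`
  have hkill : ∀ A, red (T A) *ᵥ v = 0 := by
    intro A
    refine kills_of_comm hp3 hJd hc hg ?_ ?_
    · have h1 : red (R' g⁻¹) = 1 := by
        have h2 := red_inv_mul (ρ := R') g
        rwa [hg', mul_one] at h2
      obtain ⟨Z, hZ⟩ : ∃ Z, R' g * A * R' g⁻¹ = A + (p : ℤ_[p]) • Z := by
        obtain ⟨Z, hZ⟩ := exists_of_red (A := R' g * A * R' g⁻¹) (B := A) (by
          rw [red_mul, red_mul, hg', h1, one_mul, mul_one])
        exact ⟨Z, hZ⟩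
      have h3 := heq g A
      rw [hZ, hadd] at h3
      have h4 : red (T A) = red (R g) * red (T A) * red (R g⁻¹) := by
        rw [← red_mul, ← red_mul, ← h3]
        ext i j
        rw [red_apply, red_apply, Matrix.add_apply, Matrix.smul_apply, smul_eq_mul, map_add,
          map_mul, map_natCast, ZMod.natCast_self, zero_mul, add_zero]
      have h5 := red_inv_mul (ρ := R) g
      calc red (R g) * red (T A) = red (R g) * red (T A) * (red (R g⁻¹) * red (R g)) := by
            rw [h5, mul_one]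
        _ = (red (R g) * red (T A) * red (R g⁻¹)) * red (R g) := by simp only [mul_assoc]
        _ = red (T A) * red (R g) := by rw [← h4]
    · have h1 : (T A)ᵀ * J + J * T A = 0 := by
        apply map_inj
        rw [map_add', Matrix.map_mul, Matrix.map_mul, transpose_map, hT, transpose_smul,
          smul_mul_assoc, mul_smul_comm, ← smul_add, hsk, smul_zero, Matrix.map_zero _ (map_zero _)]
      have h2 := congrArg (red (p := p)) h1
      rw [red_zero'] at h2
      rw [← h2, ← red_transpose, ← red_mul, ← red_mul]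
      ext i j
      simp only [red_apply, Matrix.add_apply, map_add]
  -- the span of the orbit
  have hspan : Submodule.span (ZMod p) (Set.range fun h : Γ => red (R h) *ᵥ v) = ⊤ := by
    have hst : ∀ h, ∀ x ∈ Submodule.span (ZMod p) (Set.range fun h : Γ => red (R h) *ᵥ v),
        red (R h) *ᵥ x ∈ Submodule.span (ZMod p) (Set.range fun h : Γ => red (R h) *ᵥ v) := by
      intro h x hx
      induction hx using Submodule.span_induction with
      | mem x hx =>
        obtain ⟨h', rfl⟩ := hx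
        refine Submodule.subset_span ⟨h * h', ?_⟩
        show red (R (h * h')) *ᵥ v = red (R h) *ᵥ (red (R h') *ᵥ v)
        rw [mulVec_mulVec, ← red_mul, ← map_mul]
      | zero => rw [mulVec_zero]; exact Submodule.zero_mem _
      | add x y _ _ h1 h2 => rw [mulVec_add]; exact Submodule.add_mem _ h1 h2
      | smul r x _ h1 => rw [mulVec_smul]; exact Submodule.smul_mem _ _ h1
    rcases hP _ (fun h => Or.inl (map_eq_of_stable hst h)) with h1 | h1
    · exfalso
      apply hv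
      have h2 : v ∈ Submodule.span (ZMod p) (Set.range fun h : Γ => red (R h) *ᵥ v) := by
        refine Submodule.subset_span ⟨1, ?_⟩
        show red (R 1) *ᵥ v = v
        rw [map_one, red_one, one_mulVec]
      rw [h1, Submodule.mem_bot] at h2
      exact h2
    · exact h1
  have hzero : ∀ x, red (T A₀) *ᵥ x = 0 := by
    intro x
    have hx : x ∈ Submodule.span (ZMod p) (Set.range fun h : Γ => red (R h) *ᵥ v) := by
      rw [hspan]
      exact Submodule.mem_top
    induction hx using Submodule.span_induction with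
    | mem x hx =>
      obtain ⟨h, rfl⟩ := hx
      have h1 := hkill (R' h⁻¹ * A₀ * R' (h⁻¹)⁻¹)
      rw [heq, red_mul, red_mul, inv_inv, ← mulVec_mulVec, ← mulVec_mulVec] at h1
      have h2 := congrArg (fun y => red (R h) *ᵥ y) h1
      simp only [mulVec_mulVec, mulVec_zero] at h2
      rw [← mul_assoc, red_mul_inv, one_mul, ← mulVec_mulVec] at h2
      exact h2
    | zero => rw [mulVec_zero]
    | add x y _ _ h1 h2 => rw [mulVec_add, h1, h2, add_zero]
    | smul r x _ h1 => rw [mulVec_smul, h1, smul_zero]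
  apply hB₀r
  rw [← hT0]
  exact Matrix.ext_of_mulVec_single fun b => by rw [hzero, zero_mulVec]

end pair

end

end Pool.Agent.U175.LP
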