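import Mathlib
import Pool.Agent.U175.LP.Q2

/-!
# Families of residual representations: the joint Lie algebra
-/

set_option autoImplicit false
set_option linter.unusedSectionVars false

namespace Pool.Agent.U175.LP

open PadicInt Module Matrix Filter Topology Pool.Agent.U175.LP.Pub Pool.Agent.Y142.ZO
open Pool.Agent.Y142.ZS (SpLie Sim)
open Pool.Agent.R932.PO (JTan IsForm Kind Fits Allows tasks joint_full)

noncomputable section

variable {p : ℕ} [hp : Fact p.Prime]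

section fam

variable {ι : Type} {N : ι → ℕ} {Γ : Type} [Group Γ]

/-- the hypothesis on the residual representations -/
structure ResF (J : ∀ i, Matrix (Fin (N i)) (Fin (N i)) ℤ_[p])
    (R : ∀ i, Γ →* Matrix (Fin (N i)) (Fin (N i)) ℤ_[p]) : Prop where
  nz : ∀ i, red (J i) ≠ 0
  prim : ∀ i, IsPrimitive (J i) (R i)
  elt : ∀ i, ∃ (g : Γ) (v : Fin (N i) → ZMod p) (c : ZMod p), c ≠ 0 ∧ v ≠ 0 ∧
    (∀ x, red (R i g) *ᵥ x = x + (c * dot (J i) v x) • v) ∧ ∀ j, j ≠ i → red (R j g) = 1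
  unip : ∀ i, (J i)ᵀ = J i → ∃ g, red (R i g) ≠ 1 ∧ (red (R i g) - 1) ^ ((p - 1) / 2) = 0

/-- the multiplier of an integral similitude is a unit -/
theorem sim_unit {n : ℕ} (hn : 0 < n) {J R R' : Matrix (Fin n) (Fin n) ℤ_[p]} (hJ : J.det ≠ 0)
    (hR : R * R' = 1) {c : ℚ_[p]}
    (h : Sim (J.map (algebraMap ℤ_[p] ℚ_[p])) (R.map (algebraMap ℤ_[p] ℚ_[p])) c) :
    ∃ μ : ℤ_[p]ˣ, Rᵀ * J * R = (μ : ℤ_[p]) • J := by
  have hd : ∀ A : Matrix (Fin n) (Fin n) ℤ_[p], (A.map (algebraMap ℤ_[p] ℚ_[p])).det =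
      algebraMap ℤ_[p] ℚ_[p] A.det := by
    intro A
    rw [RingHom.map_det, RingHom.mapMatrix_apply]
  have hu : IsUnit R.det := by
    have h1 := congrArg Matrix.det hR
    rw [det_mul, det_one] at h1
    exact IsUnit.of_mul_eq_one _ h1
  unfold Sim at h
  have h1 := congrArg Matrix.det h
  rw [det_mul, det_mul, det_transpose, det_smul, Fintype.card_fin, hd, hd] at h1
  have hJ' : algebraMap ℤ_[p] ℚ_[p] J.det ≠ 0 := by
    rw [Ne, map_eq_zero_iff _ (IsFractionRing.injective ℤ_[p] ℚ_[p])]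
    exact hJ
  have h2 : algebraMap ℤ_[p] ℚ_[p] R.det * algebraMap ℤ_[p] ℚ_[p] R.det = c ^ n := by
    refine mul_right_cancel₀ hJ' ?_
    linear_combination h1
  have h3 : ‖algebraMap ℤ_[p] ℚ_[p] R.det‖ = 1 := by
    have h4 : ‖R.det‖ = 1 := PadicInt.isUnit_iff.1 hu
    exact h4
  have h4 : ‖c‖ ^ n = 1 := by
    rw [← norm_pow, ← h2, norm_mul, h3, one_mul]
  have h5 : ‖c‖ = 1 := by
    rcases (pow_eq_one_iff_of_nonneg (norm_nonneg c) (by omega : n ≠ 0)).1 h4 with h6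
    exact h6
  refine ⟨PadicInt.mkUnits h5, ?_⟩
  apply map_inj
  rw [Matrix.map_mul, Matrix.map_mul, transpose_map, map_smul', h]
  rfl

/-- a transvection which is an isometry of a symmetric form is a reflection -/
theorem refl_of_iso (hp3 : 3 ≤ p) {n : ℕ} {J R : Matrix (Fin n) (Fin n) ℤ_[p]} (hs : Jᵀ = J)
    (hJd : IsUnit J.det) (hJ : Rᵀ * J * R = J) {v : Fin n → ZMod p} (hv : v ≠ 0) {c : ZMod p}
    (hc : c ≠ 0) (h : ∀ x, red R *ᵥ x = x + (c * dot J v x) • v) :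
    dot J v v ≠ 0 ∧ ∀ x, red R *ᵥ x = x - (2 * dot J v x / dot J v v) • v := by
  obtain ⟨x, hx⟩ : ∃ x, dot J v x ≠ 0 := by
    by_contra hcon
    push Not at hcon
    have h1 : v ᵥ* red J = 0 := by
      refine dotProduct_eq_zero_iff.1 fun y => ?_
      have h2 := hcon y
      rw [dot_red, dotProduct_mulVec] at h2
      exact h2
    have h2 : (red J).det ≠ 0 := by
      have h3 : (red J).det = PadicInt.toZMod J.det := by
        rw [RingHom.map_det]
        rfl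
      rw [h3]
      exact (isUnit_iff_toZMod _).1 hJd
    exact hv (Matrix.eq_zero_of_vecMul_eq_zero h2 h1)
  have hiso : dot J (red R *ᵥ x) (red R *ᵥ x) = dot J x x := by
    have h1 : (red R)ᵀ * red J * red R = red J := by
      rw [← red_transpose, ← red_mul, ← red_mul, hJ]
    rw [dot_red, dot_red]
    calc (red R *ᵥ x) ⬝ᵥ red J *ᵥ (red R *ᵥ x) = x ⬝ᵥ ((red R)ᵀ * red J * red R) *ᵥ x := by
          rw [← mulVec_mulVec, ← mulVec_mulVec, dotProduct_mulVec x, vecMul_transpose]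
      _ = x ⬝ᵥ red J *ᵥ x := by rw [h1]
  have hexp : ∀ a : ZMod p, dot J (x + a • v) (x + a • v) =
      dot J x x + 2 * a * dot J v x + a * a * dot J v v := by
    intro a
    have h1 : dot J x v = dot J v x := dot_symm hs x v
    rw [dot_red, dot_red, dot_red, dot_red] at *
    rw [mulVec_add, mulVec_smul, add_dotProduct, dotProduct_add, dotProduct_add, smul_dotProduct,
      smul_dotProduct, dotProduct_smul, dotProduct_smul, h1]
    simp only [smul_eq_mul]
    ring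
  rw [h, hexp] at hiso
  have h1 : c * dot J v x * dot J v x * (2 + c * dot J v v) = 0 := by
    linear_combination hiso
  have h2 : 2 + c * dot J v v = 0 := by
    rcases mul_eq_zero.1 h1 with h3 | h3
    · exact absurd h3 (mul_ne_zero (mul_ne_zero hc hx) hx)
    · exact h3
  have hvv : dot J v v ≠ 0 := by
    intro h3
    rw [h3, mul_zero, add_zero] at h2
    exact two_neZ hp3 h2
  refine ⟨hvv, fun y => ?_⟩
  rw [h, sub_eq_add_neg, ← neg_smul]
  congr 2
  rw [← mul_div_assoc', ← neg_mul, mul_div_assoc']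
  field_simp
  linear_combination (dot J v y) * h2

variable {G : Type} [Group G] [TopologicalSpace G] [IsTopologicalGroup G] [CompactSpace G]
  [Fintype ι] [DecidableEq ι]

/-- **the joint Lie algebra from residual representations** -/
theorem joint_of_residual (hp5 : 5 ≤ p) {ρ : ∀ i, G →* Matrix (Fin (N i)) (Fin (N i)) ℚ_[p]}
    {R : ∀ i, G →* Matrix (Fin (N i)) (Fin (N i)) ℤ_[p]}
    {J : ∀ i, Matrix (Fin (N i)) (Fin (N i)) ℤ_[p]}
    {Q : ∀ i, Matrix (Fin (N i)) (Fin (N i)) ℚ_[p]}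
    (hcont : ∀ i, Continuous (ρ i)) (hρ : ∀ i g, ρ i g = (R i g).map (algebraMap ℤ_[p] ℚ_[p]))
    (hQ : ∀ i, ∃ c : ℚ_[p], c ≠ 0 ∧ (J i).map (algebraMap ℤ_[p] ℚ_[p]) = c • Q i)
    (hform : ∀ i, IsForm (Q i)) (hsim : ∀ i g, ∃ c, Sim (Q i) (ρ i g) c ∧ ((Q i)ᵀ = Q i → c = 1))
    (h : ResF J R) (X : ∀ i, Matrix (Fin (N i)) (Fin (N i)) ℚ_[p]) (hX : ∀ i, SpLie (Q i) (X i)) :
    JTan p ρ X := by
  have hd : ∀ {n : ℕ} (A : Matrix (Fin n) (Fin n) ℤ_[p]), (A.map (algebraMap ℤ_[p] ℚ_[p])).det =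
      algebraMap ℤ_[p] ℚ_[p] A.det := by
    intro n A
    rw [RingHom.map_det, RingHom.mapMatrix_apply]
  -- the forms
  have hdet : ∀ i, (J i).det ≠ 0 := by
    intro i h0
    obtain ⟨c, hc, h1⟩ := hQ i
    have h2 := hd (J i)
    rw [h1, det_smul, h0, map_zero] at h2
    rcases mul_eq_zero.1 h2 with h3 | h3
    · exact pow_ne_zero _ hc h3
    · exact (hform i).2 h3
  have hpos : ∀ i, 0 < N i := by
    intro i
    obtain ⟨g, v, c, -, hv, -⟩ := h.elt i
    rcases Nat.eq_zero_or_pos (N i) with h1 | h1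
    · exfalso
      apply hv
      funext a
      exact absurd a.2 (by omega)
    · exact h1
  have hsimJ : ∀ i g, ∃ c, Sim ((J i).map (algebraMap ℤ_[p] ℚ_[p])) (ρ i g) c ∧
      ((Q i)ᵀ = Q i → c = 1) := by
    intro i g
    obtain ⟨c, hc, h1⟩ := hQ i
    obtain ⟨d, h2, h3⟩ := hsim i g
    refine ⟨d, ?_, h3⟩
    unfold Sim at h2 ⊢
    rw [h1, mul_smul_comm, smul_mul_assoc, h2, smul_comm]
  have hunit : ∀ i g, ∃ μ : ℤ_[p]ˣ, (R i g)ᵀ * J i * R i g = (μ : ℤ_[p]) • J i := by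
    intro i g
    obtain ⟨c, hc, -⟩ := hsimJ i g
    rw [hρ] at hc
    exact sim_unit (hpos i) (hdet i) (R' := R i g⁻¹) (by rw [← map_mul, mul_inv_cancel, map_one]) hc
  have hJd : ∀ i, IsUnit (J i).det := fun i => unimodular_of_primitive (hunit i) (h.nz i) (h.prim i)
  have hJs : ∀ i, (Q i)ᵀ = Q i → (J i)ᵀ = J i := by
    intro i hi
    obtain ⟨c, hc, h1⟩ := hQ i
    apply map_inj
    rw [transpose_map, h1, transpose_smul, hi]
  have hJa : ∀ i, (Q i)ᵀ = -Q i → (J i)ᵀ = -J i := by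
    intro i hi
    obtain ⟨c, hc, h1⟩ := hQ i
    apply map_inj
    rw [transpose_map, h1, transpose_smul, hi, smul_neg, ← h1]
    ext a b
    simp [Matrix.map_apply]
  have hlie : ∀ i Y, SpLie (Q i) Y → Yᵀ * (J i).map (algebraMap ℤ_[p] ℚ_[p]) +
      (J i).map (algebraMap ℤ_[p] ℚ_[p]) * Y = 0 := by
    intro i Y hY
    obtain ⟨c, hc, h1⟩ := hQ i
    unfold SpLie at hY
    rw [h1, mul_smul_comm, smul_mul_assoc, ← smul_add, hY, smul_zero]
  have hone : ∀ i Y, SpLie (Q i) Y → IsTangent p (ρ i) Y := by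
    intro i Y hY
    rcases (hform i).1 with ⟨hs, -⟩ | ha
    · have hiso : ∀ g, (R i g)ᵀ * J i * R i g = J i := by
        intro g
        obtain ⟨c, hc, h1⟩ := hsimJ i g
        rw [h1 hs, hρ] at hc
        unfold Sim at hc
        apply map_inj
        rw [Matrix.map_mul, Matrix.map_mul, transpose_map, hc, one_smul]
      obtain ⟨g, v, c, hc, hv, hg, -⟩ := h.elt i
      obtain ⟨h1, h2⟩ := refl_of_iso (by omega) (hJs i hs) (hJd i) (hiso g) hv hc hg
      exact so_of_residual (by omega) (hρ i) (hJs i hs) hiso (h.nz i) (h.prim i) ⟨g, v, h1, h2⟩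
        (h.unip i (hJs i hs)) (hlie i Y hY)
    · obtain ⟨g, v, c, hc, hv, hg, -⟩ := h.elt i
      exact sp_of_residual hp5 (hρ i) (hJa i ha) (hunit i) (h.nz i) (h.prim i)
        ⟨g, v, c, hc, hv, hg⟩ (hlie i Y hY)
  refine joint_full tasks.jlie tasks.jlift tasks.gour tasks.pair hcont hform
    (fun i g => ⟨_, (hsim i g).choose_spec.1⟩) hone ?_ X hX
  intro i j hij Θ h1 h2 A
  obtain ⟨g, v, c, hc, hv, hg, hg'⟩ := h.elt i
  have h3 : Θ = 0 := by
    refine pair_zero (R := R i) (R' := R j) (by omega) (hJd i) (h.prim i) (hg' j (Ne.symm hij)) hv hc hg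
      (fun g A => ?_) fun A => hlie i _ (h2 A)
    rw [← hρ, ← hρ, ← hρ, ← hρ]
    exact h1 g A
  rw [h3, LinearMap.zero_apply]

end fam

end

end Pool.Agent.U175.LP
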