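import Mathlib
import Pool.Agent.U175.LP.Q3
import Pool.Agent.U273.AI.Art

/-!
# The motivic Tate and Sato-Tate conjectures from residual representations
-/

set_option autoImplicit false
set_option linter.unusedSectionVars false
set_option linter.style.haveILetI false

open Matrix Filter Topology NumberField IsDedekindDomain
open Pool.Agent.Y142.ZO Pool.Agent.Y142.ZS
open Pool.Agent.R932.PO (JTan IsForm Kind Fits Allows Sys JL det_map_ne one_of_joint several tasks)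
open Pool.Agent.R932.EV (SS SC)
open Pool.Agent.R932.GR Pool.Agent.U273.AI

namespace Pool.Agent.U175.LP

noncomputable section

section
variable {K : Type} [Field K] [NumberField K] {ι : Type} [Fintype ι] [DecidableEq ι] {N w : ι → ℕ}
  {m : ℕ} {Γ : Type} [Group Γ] [TopologicalSpace Γ] [IsTopologicalGroup Γ] [CompactSpace Γ]
  {S : Set (HeightOneSpectrum (𝓞 K))} {P : ι → HeightOneSpectrum (𝓞 K) → Polynomial ℚ}
  {kd : ι → Kind} {s : GK K →* Γ}
  {J : ∀ i, Matrix (Fin (N i)) (Fin (N i)) ℚ} {α : Γ →* Matrix (Fin m) (Fin m) ℚ}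
  {κ : ∀ (ℓ : ℕ) [Fact ℓ.Prime], Γ →* ℚ_[ℓ]}
  {ρ : ∀ (i : ι) (ℓ : ℕ) [Fact ℓ.Prime], Γ →* Matrix (Fin (N i)) (Fin (N i)) ℚ_[ℓ]}
  {Pol : Set (Pa ℚ N m)}

/-- the Galois group meets every component of the group given by the equations `Pol` -/
def MeetsAll {p : ℕ} [Fact p.Prime] (Pol : Set (Pa ℚ N m)) (J : ∀ i, Matrix (Fin (N i)) (Fin (N i)) ℚ)
    {G : Type} [Group G] (r : ∀ i, G →* Matrix (Fin (N i)) (Fin (N i)) ℚ_[p])
    (α : G →* Matrix (Fin m) (Fin m) ℚ) : Prop :=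
  ∀ (x : ∀ i, Matrix (Fin (N i)) (Fin (N i)) ℂ) (a : Matrix (Fin m) (Fin m) ℂ),
    (∀ i, (x i).det ≠ 0) → a.det ≠ 0 → (∀ f ∈ Pol, vala f x a = 0) →
    ∃ σ : G, a = (α σ).map (algebraMap ℚ ℂ) ∧
      ∀ i, (J i)ᵀ = J i → ((x i).det = 1 ↔ (r i σ).det = 1)

/-- the motivic Sato-Tate conjecture: the isometries in the Zariski closure of the image are the
isometries in the group given by the polynomials in `Pol` -/
def MSatoA {ℓ : ℕ} [Fact ℓ.Prime] {G : Type} [Group G] (Pol : Set (Pa ℚ N m))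
    (J : ∀ i, Matrix (Fin (N i)) (Fin (N i)) ℚ) (r : ∀ i, G →* Matrix (Fin (N i)) (Fin (N i)) ℚ_[ℓ])
    (α : G →* Matrix (Fin m) (Fin m) ℚ) : Prop :=
  ∀ (x : ∀ i, Matrix (Fin (N i)) (Fin (N i)) (Lc ℓ)) (a : Matrix (Fin m) (Fin m) (Lc ℓ)),
    (∀ i, (x i).det ≠ 0) → a.det ≠ 0 →
    (∀ i, (x i)ᵀ * up (JL J ℓ) i * x i = up (JL J ℓ) i) → (ClA r α x a ↔ ∀ f ∈ Pol, vala f x a = 0)

theorem sato_of_tate {ℓ : ℕ} [Fact ℓ.Prime] {G : Type} [Group G]
    {r : ∀ i, G →* Matrix (Fin (N i)) (Fin (N i)) ℚ_[ℓ]} {α : G →* Matrix (Fin m) (Fin m) ℚ}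
    (h : MTateA Pol r α) : MSatoA Pol J r α := fun x a hx ha _ => h x a hx ha

/-- **from the motivic Sato-Tate conjecture to the full joint Lie algebra** -/
theorem full_of_sato (H : Setup s S kd w P J α κ ρ Pol) (ℓ : ℕ) [Fact ℓ.Prime]
    (h : MSatoA Pol J (fun i => (ρ i ℓ).comp s) (α.comp s)) :
    ∀ X, (∀ i, SpLie (JL J ℓ i) (X i)) → JTan ℓ (fun i => (ρ i ℓ).comp s) X := by
  have hform : ∀ (i : ι), IsForm (JL J ℓ i) := fun i =>
    (H.sys i ℓ).2.1.isForm (H.sys i ℓ).2.2.1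
  have hall : ∀ f : Pf (Lc ℓ) N, (∀ σ : GK K, evf (up fun i => (ρ i ℓ).comp s σ) f = 0) →
      Van (up (JL J ℓ)) f := by
    intro f hf x hx hxd
    have h1 := (h x 1 (fun i => by rw [hxd i]; exact one_ne_zero)
      (by rw [det_one]; exact one_ne_zero) hx).2 (H.bigL ℓ x hx hxd) (inc m f)
      (fun σ => by rw [eva_inc]; exact hf σ)
    rw [eva_inc] at h1
    exact h1
  intro X hX
  exact joint_of_zar (G := GK K) (ρ := fun i => (ρ i ℓ).comp s)
    (fun i => (H.hρc i ℓ).comp H.hs) hform (fun i => (H.hfit i).pos)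
    (fun i g => ⟨_, H.hmult i ℓ (s g)⟩)
    (zarF_of (ρ := fun i => (ρ i ℓ).comp s) (fun i => form_symm (hform i))
      (fun i => (H.sys i ℓ).2.2.1) hall) X hX

theorem abs_of_sato (H : Setup s S kd w P J α κ ρ Pol) (ℓ : ℕ) [Fact ℓ.Prime]
    (h : MSatoA Pol J (fun i => (ρ i ℓ).comp s) (α.comp s)) (i : ι) : AbsIrr ℓ ((ρ i ℓ).comp s) := by
  have hform : IsForm (JL J ℓ i) := (H.sys i ℓ).2.1.isForm (H.sys i ℓ).2.2.1
  refine abs_of_full (J := JL J ℓ i) ?_ hform.2 fun X hX => one_of_joint (full_of_sato H ℓ h) i X hX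
  rcases hform.1 with h1 | h1
  · exact Or.inl ⟨h1.1, by have := h1.2; omega⟩
  · exact Or.inr h1

/-- **the motivic Tate conjecture at `ℓ` from the joint Lie algebra and the components** -/
theorem tate_of_full (H : Setup s S kd w P J α κ ρ Pol) (ℓ : ℕ) [hℓ : Fact ℓ.Prime]
    (hcomp : MeetsAll Pol J (fun i => (ρ i ℓ).comp s) (α.comp s))
    (hfull : ∀ X, (∀ i, SpLie (JL J ℓ i) (X i)) → JTan ℓ (fun i => (ρ i ℓ).comp s) X) :
    MTateA Pol (fun i => (ρ i ℓ).comp s) (α.comp s) := by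
  classical
  have H' := H.fibre
  obtain ⟨U, hU, hUα⟩ := H'.hα
  have hform : ∀ i : ι, IsForm (JL J ℓ i) := fun i => (H.sys i ℓ).2.1.isForm (H.sys i ℓ).2.2.1
  have hsymL : ∀ i : ι, (JL J ℓ i)ᵀ = JL J ℓ i → (J i)ᵀ = J i := by
    intro i h
    ext p q
    have h1 := congrFun (congrFun h p) q
    exact (algebraMap ℚ ℚ_[ℓ]).injective h1
  have hupa : ∀ σ : GK K, (((α.comp s) σ).map (algebraMap ℚ ℚ_[ℓ])).map (algebraMap ℚ_[ℓ] (Lc ℓ)) =
      upa ℓ ((α.comp s) σ) := by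
    intro σ
    ext k l
    show algebraMap ℚ_[ℓ] (Lc ℓ) (algebraMap ℚ ℚ_[ℓ] ((α.comp s) σ k l)) =
      algebraMap ℚ (Lc ℓ) ((α.comp s) σ k l)
    have h7 : (algebraMap ℚ_[ℓ] (Lc ℓ)).comp (algebraMap ℚ ℚ_[ℓ]) = algebraMap ℚ (Lc ℓ) :=
      Subsingleton.elim _ _
    exact RingHom.congr_fun h7 _
  intro g a hg hga
  constructor
  · intro hcl f hf
    rw [← eva_vala]
    refine hcl _ fun σ => ?_
    rw [eva_vala]
    have h1 := vala_map (algebraMap ℚ_[ℓ] (Lc ℓ)) f (fun i => ((ρ i ℓ).comp s) σ)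
      (((α.comp s) σ).map (algebraMap ℚ ℚ_[ℓ]))
    rw [H'.hgal ℓ σ f hf, map_zero, hupa] at h1
    exact h1
  · intro hPol f hf
    obtain ⟨e⟩ := embC ℓ
    have hJC : ∀ i : ι, (up (JL J ℓ) i).map e.toRingHom = (J i).map (algebraMap ℚ ℂ) := by
      intro i
      ext k l
      show e.toRingHom (algebraMap ℚ_[ℓ] (Lc ℓ) (algebraMap ℚ ℚ_[ℓ] (J i k l))) =
        algebraMap ℚ ℂ (J i k l)
      have h7 : e.toRingHom.comp ((algebraMap ℚ_[ℓ] (Lc ℓ)).comp (algebraMap ℚ ℚ_[ℓ])) =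
        algebraMap ℚ ℂ := Subsingleton.elim _ _
      exact RingHom.congr_fun h7 _
    have hmd : ∀ {n : ℕ} (A : Matrix (Fin n) (Fin n) (Lc ℓ)),
        (A.map e.toRingHom).det = e.toRingHom A.det := by
      intro n A
      rw [RingHom.map_det, RingHom.mapMatrix_apply]
    have hx0 : ∀ i, ((g i).map e.toRingHom).det ≠ 0 := fun i => by
      rw [hmd]; exact (map_ne_zero e.toRingHom).2 (hg i)
    have ha0 : (a.map e.toRingHom).det ≠ 0 := by
      rw [hmd]; exact (map_ne_zero e.toRingHom).2 hga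
    have hPe : ∀ f ∈ Pol, vala f (fun i => (g i).map e.toRingHom) (a.map e.toRingHom) = 0 :=
      fun f hf => by rw [vala_map, hPol f hf, map_zero]
    obtain ⟨t', ht', hxt⟩ := H.hpol (fun i => (g i).map e.toRingHom) (a.map e.toRingHom) hx0 ha0 hPe
    obtain ⟨t, ht, hgt⟩ : ∃ t : Lc ℓ, t ≠ 0 ∧ ∀ i, Sim (up (JL J ℓ) i) (g i) (t ^ w i) := by
      refine ⟨e.symm t', (map_ne_zero e.symm).2 ht', fun i => ?_⟩
      have h1 := hxt i
      unfold Sim at h1 ⊢
      rw [← hJC i, ← Matrix.transpose_map, ← Matrix.map_mul, ← Matrix.map_mul] at h1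
      ext k l
      apply e.injective
      have h2 := congrFun (congrFun h1 k) l
      rw [Matrix.smul_apply, Matrix.map_apply, Matrix.map_apply, smul_eq_mul] at h2
      rw [Matrix.smul_apply, smul_eq_mul, map_mul, map_pow, RingEquiv.apply_symm_apply]
      exact h2
    obtain ⟨σ, hσa, hσd⟩ := hcomp (fun i => (g i).map e.toRingHom) (a.map e.toRingHom) hx0 ha0 hPe
    have hαa : a = upa ℓ ((α.comp s) σ) := by
      ext k l
      have h2 := congrFun (congrFun hσa k) l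
      apply e.injective
      have h3 : e.toRingHom.comp (algebraMap ℚ (Lc ℓ)) = algebraMap ℚ ℂ := Subsingleton.elim _ _
      have h4 : e.toRingHom (algebraMap ℚ (Lc ℓ) ((α.comp s) σ k l)) =
          algebraMap ℚ ℂ ((α.comp s) σ k l) := RingHom.congr_fun h3 _
      exact h2.trans h4.symm
    have hpm : ∀ {F : Type} [Field F] {n : ℕ} {Q x : Matrix (Fin n) (Fin n) F}, Q.det ≠ 0 →
        xᵀ * Q * x = Q → x.det = 1 ∨ x.det = -1 := by
      intro F _ n Q x hQ hx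
      have h2 := congrArg Matrix.det hx
      rw [det_mul, det_mul, det_transpose] at h2
      have h4 : x.det * x.det = 1 := by
        have h5 : Q.det * (x.det * x.det - 1) = 0 := by linear_combination h2
        exact sub_eq_zero.1 ((mul_eq_zero.1 h5).resolve_left hQ)
      exact mul_self_eq_one_iff.1 h4
    have hdets : ∀ i, (JL J ℓ i)ᵀ = JL J ℓ i →
        (g i).det = algebraMap ℚ_[ℓ] (Lc ℓ) (((ρ i ℓ).comp s) σ).det := by
      intro i hi
      have hw := H.hw i (hsymL i hi)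
      have h1 : (g i).det = 1 ∨ (g i).det = -1 := by
        refine hpm (Q := up (JL J ℓ) i) ?_ ?_
        · have h2 : (up (JL J ℓ) i).det = algebraMap ℚ_[ℓ] (Lc ℓ) (JL J ℓ i).det := det_up _ _
          rw [h2]
          exact (map_ne_zero _).2 (hform i).2
        · have h2 := hgt i
          rw [hw, pow_zero] at h2
          unfold Sim at h2
          rwa [one_smul] at h2
      have h2 : (((ρ i ℓ).comp s) σ).det = 1 ∨ (((ρ i ℓ).comp s) σ).det = -1 := by
        refine hpm (hform i).2 ?_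
        have h3 : Sim (JL J ℓ i) (((ρ i ℓ).comp s) σ) (κ ℓ (s σ) ^ w i) := H.hmult i ℓ (s σ)
        rw [hw, pow_zero] at h3
        unfold Sim at h3
        rwa [one_smul] at h3
      have h3 : (g i).det = 1 ↔ (((ρ i ℓ).comp s) σ).det = 1 := by
        rw [← hσd i (hsymL i hi), hmd]
        constructor
        · intro h4
          rw [h4, map_one]
        · intro h4
          apply e.injective
          rw [map_one]
          exact h4
      have h4 : (-1 : ℚ_[ℓ]) ≠ 1 := by norm_num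
      have h5 : (-1 : Lc ℓ) ≠ 1 := by norm_num
      rcases h1 with h1 | h1 <;> rcases h2 with h2 | h2
      · rw [h1, h2, map_one]
      · exact absurd (h3.1 h1) (by rw [h2]; exact h4)
      · exact absurd (h3.2 h2) (by rw [h1]; exact h5)
      · rw [h1, h2, map_neg, map_one]
    rw [← evf_spz]
    refine closure_coset (J := JL J ℓ) (fun i => H'.hρc i ℓ) hform
      (fun i h => H.hw i (hsymL i h)) (fun i g => H'.hmult i ℓ g) ?_ hfull
      (artin_index hU) (σ₁ := σ) (fun δ hδ => ?_) ht hgt hdets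
    · obtain ⟨v, hv, σ', hσ', -⟩ := Y405.ZO.t K Set.univ isOpen_univ ⟨1, trivial⟩
        (S ∪ {v | (ℓ : 𝓞 K) ∈ v.asIdeal}) (H.hS.union (finite_above ℓ hℓ.out))
      have hvS : v ∉ S := fun h => hv (Or.inl h)
      have hvℓ : (ℓ : 𝓞 K) ∉ v.asIdeal := fun h => hv (Or.inr h)
      refine ⟨σ'⁻¹, fun k hk h => ?_⟩
      have h0 : κ ℓ (s σ'⁻¹) ^ k = 1 := h
      rw [H.hκ ℓ v hvS hvℓ σ' hσ'] at h0
      have h1 : (Ideal.absNorm v.asIdeal) ^ k = 1 := by exact_mod_cast h0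
      have h2 : Ideal.absNorm v.asIdeal = 1 := by
        rcases Nat.pow_eq_one.1 h1 with h3 | h3
        · exact h3
        · omega
      exact v.isPrime.ne_top (Ideal.absNorm_eq_one_iff.1 h2)
    · rw [evf_spz, hαa, ← artin_coset hUα σ hδ]
      exact hf _

/-- **the main theorem** -/
theorem residual_main (H : Setup s S kd w P J α κ ρ Pol) (p : ℕ) [hp : Fact p.Prime] (hp5 : 5 ≤ p)
    (hal : ∀ i, Allows (kd i) (N i) p (JL J p i))
    {R : ∀ i, GK K →* Matrix (Fin (N i)) (Fin (N i)) ℤ_[p]}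
    {JI : ∀ i, Matrix (Fin (N i)) (Fin (N i)) ℤ_[p]}
    (hρ : ∀ i g, ρ i p (s g) = (R i g).map (algebraMap ℤ_[p] ℚ_[p]))
    (hJI : ∀ i, ∃ c : ℚ_[p], c ≠ 0 ∧ (JI i).map (algebraMap ℤ_[p] ℚ_[p]) = c • JL J p i)
    (hres : ResF JI R) (hcomp : MeetsAll Pol J (fun i => (ρ i p).comp s) (α.comp s)) :
    MTateA Pol (fun i => (ρ i p).comp s) (α.comp s) ∧
    Y142.ZI.DensityZero {ℓ | ∃ _ : Fact ℓ.Prime,
      ¬ (MTateA Pol (fun i => (ρ i ℓ).comp s) (α.comp s) ∧ MTateA Pol (fun i => ρ i ℓ) α)} ∧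
    ∀ (ℓ : ℕ) [Fact ℓ.Prime],
      (MTateA Pol (fun i => (ρ i ℓ).comp s) (α.comp s) ↔ ∀ i, AbsIrr ℓ ((ρ i ℓ).comp s)) ∧
      (MTateA Pol (fun i => (ρ i ℓ).comp s) (α.comp s) → MTateA Pol (fun i => ρ i ℓ) α) := by
  have hfull : ∀ X, (∀ i, SpLie (JL J p i) (X i)) → JTan p (fun i => (ρ i p).comp s) X := by
    intro X hX
    refine joint_of_residual hp5 (R := R) (J := JI) (Q := JL J p)
      (fun i => (H.hρc i p).comp H.hs) (fun i g => hρ i g) hJI
      (fun i => (H.sys i p).2.1.isForm (H.sys i p).2.2.1) (fun i g => ?_) hres X hX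
    exact (H.sys i p).2.2.2.1 (s g)
  have hone := tate_of_full H p hcomp hfull
  exact ⟨hone, H.main p hal hone⟩

end

end

end Pool.Agent.U175.LP
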