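import Mathlib
import Pool.Agent.U175.LP.Q4

/-!
# Residual representations: suitable prime numbers
-/

set_option autoImplicit false
set_option linter.unusedSectionVars false
set_option linter.style.haveILetI false

open Matrix Filter Topology NumberField IsDedekindDomain
open Pool.Agent.Y142.ZO Pool.Agent.Y142.ZS
open Pool.Agent.R932.PO (JTan IsForm Kind Fits Allows Sys JL det_map_ne)
open Pool.Agent.R932.GR Pool.Agent.U273.AI

namespace Pool.Agent.U175.LP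

noncomputable section

variable {p : ℕ} [hp : Fact p.Prime] {n : ℕ}

/-- the valuation of the determinant is even if the rank is even -/
theorem even_val {J : Matrix (Fin n) (Fin n) ℤ_[p]} {Q : Matrix (Fin n) (Fin n) ℚ_[p]} {c : ℚ_[p]}
    (hc : c ≠ 0) (hJc : J.map (algebraMap ℤ_[p] ℚ_[p]) = c • Q) (hJd : IsUnit J.det)
    (h1 : Even n) : Even Q.det.valuation := by
  have h5 : (algebraMap ℤ_[p] ℚ_[p]) J.det = c ^ n * Q.det := by
    have h6 := congrArg Matrix.det hJc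
    rw [det_smul, Fintype.card_fin] at h6
    rw [← h6, RingHom.map_det]
    rfl
  have h7 : ‖(algebraMap ℤ_[p] ℚ_[p]) J.det‖ = 1 := by
    have h8 := PadicInt.isUnit_iff.1 hJd
    rw [← h8]
    rfl
  have hQ0 : Q.det ≠ 0 := by
    intro h0
    rw [h5, h0, mul_zero, norm_zero] at h7
    exact zero_ne_one h7
  rw [h5, norm_mul, norm_pow, Padic.norm_eq_zpow_neg_valuation hc,
    Padic.norm_eq_zpow_neg_valuation hQ0, ← zpow_natCast, ← _root_.zpow_mul, ← zpow_add₀ (by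
      exact_mod_cast (Fact.out : p.Prime).ne_zero)] at h7
  have h9 : -c.valuation * (n : ℤ) + -Q.det.valuation = 0 := by
    by_contra hne
    have hp1 : (1 : ℝ) < p := by exact_mod_cast (Fact.out : p.Prime).one_lt
    exact hne ((zpow_eq_one_iff_right₀ (by positivity) hp1.ne').1 h7)
  obtain ⟨m, hm⟩ := h1
  refine ⟨-(c.valuation * m), ?_⟩
  have hm' : (n : ℤ) = m + m := by exact_mod_cast hm
  rw [hm'] at h9
  linear_combination -h9

section
variable {K : Type} [Field K] [NumberField K] {ι : Type} [Fintype ι] [DecidableEq ι] {N w : ι → ℕ}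
  {m : ℕ} {Γ : Type} [Group Γ] [TopologicalSpace Γ] [IsTopologicalGroup Γ] [CompactSpace Γ]
  {S : Set (HeightOneSpectrum (𝓞 K))} {P : ι → HeightOneSpectrum (𝓞 K) → Polynomial ℚ}
  {s : GK K →* Γ}
  {J : ∀ i, Matrix (Fin (N i)) (Fin (N i)) ℚ} {α : Γ →* Matrix (Fin m) (Fin m) ℚ}
  {κ : ∀ (ℓ : ℕ) [Fact ℓ.Prime], Γ →* ℚ_[ℓ]}
  {ρ : ∀ (i : ι) (ℓ : ℕ) [Fact ℓ.Prime], Γ →* Matrix (Fin (N i)) (Fin (N i)) ℚ_[ℓ]}
  {Pol : Set (Pa ℚ N m)}

/-- the forms are nondegenerate, alternating of size at least one, or symmetric of size `5`, `7` or at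
least `8` -/
def Adm {n : ℕ} (J : Matrix (Fin n) (Fin n) ℚ) : Prop :=
  J.det ≠ 0 ∧ ((Jᵀ = -J ∧ 0 < n) ∨ (Jᵀ = J ∧ Odd n ∧ 5 ≤ n) ∨ (Jᵀ = J ∧ Even n ∧ 8 ≤ n))

/-- the prime number is suitable -/
def Suit {n : ℕ} (J : Matrix (Fin n) (Fin n) ℚ) (p : ℕ) : Prop :=
  (Jᵀ = J → Odd n → ¬ p ∣ n - 1) ∧ (Jᵀ = J → Even n → ¬ p ∣ (n - 2) * (n - 4))

/-- **the main theorem** -/
theorem residual_main' (hadm : ∀ i, Adm (J i))
    (H : ∀ kd : ι → Kind, (∀ i, Fits (kd i) (J i)) → Setup s S kd w P J α κ ρ Pol)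
    (p : ℕ) [hp : Fact p.Prime] (hp5 : 5 ≤ p) (hsuit : ∀ i, Suit (J i) p)
    {R : ∀ i, GK K →* Matrix (Fin (N i)) (Fin (N i)) ℤ_[p]}
    {JI : ∀ i, Matrix (Fin (N i)) (Fin (N i)) ℤ_[p]}
    (hρ : ∀ i g, ρ i p (s g) = (R i g).map (algebraMap ℤ_[p] ℚ_[p]))
    (hJI : ∀ i, ∃ c : ℚ_[p], c ≠ 0 ∧ (JI i).map (algebraMap ℤ_[p] ℚ_[p]) = c • JL J p i)
    (hres : ResF JI R) (hcomp : MeetsAll Pol J (fun i => (ρ i p).comp s) (α.comp s)) :
    MTateA Pol (fun i => (ρ i p).comp s) (α.comp s) ∧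
    Y142.ZI.DensityZero {ℓ | ∃ _ : Fact ℓ.Prime,
      ¬ (MTateA Pol (fun i => (ρ i ℓ).comp s) (α.comp s) ∧ MTateA Pol (fun i => ρ i ℓ) α)} ∧
    ∀ (ℓ : ℕ) [Fact ℓ.Prime],
      (MSatoA Pol J (fun i => (ρ i ℓ).comp s) (α.comp s) ↔ ∀ i, AbsIrr ℓ ((ρ i ℓ).comp s)) ∧
      (MTateA Pol (fun i => (ρ i ℓ).comp s) (α.comp s) ↔ ∀ i, AbsIrr ℓ ((ρ i ℓ).comp s)) ∧
      (MTateA Pol (fun i => (ρ i ℓ).comp s) (α.comp s) → MTateA Pol (fun i => ρ i ℓ) α) := by
  have hpos : ∀ i, 0 < N i := by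
    intro i
    rcases (hadm i).2 with ⟨-, h⟩ | ⟨-, -, h⟩ | ⟨-, -, h⟩ <;> omega
  -- the kinds
  obtain ⟨kd, hkd⟩ : ∃ kd : ι → Kind, ∀ i, Fits (kd i) (J i) := by
    refine Classical.axiom_of_choice (r := fun i (k : Kind) => Fits k (J i)) fun i => ?_
    rcases (hadm i).2 with h | h | h
    · exact ⟨.sym, h⟩
    · exact ⟨.odd, h⟩
    · exact ⟨.even, h⟩
  have H0 := H kd hkd
  -- the forms are unimodular
  have hJd : ∀ i, IsUnit (JI i).det := by
    intro i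
    have hdI : (JI i).det ≠ 0 := by
      intro h0
      obtain ⟨c, hc, h1⟩ := hJI i
      have h2 := congrArg Matrix.det h1
      have h3 : ((JI i).map (algebraMap ℤ_[p] ℚ_[p])).det = algebraMap ℤ_[p] ℚ_[p] (JI i).det := by
        rw [RingHom.map_det, RingHom.mapMatrix_apply]
      rw [h3, h0, map_zero, det_smul] at h2
      rcases mul_eq_zero.1 h2.symm with h4 | h4
      · exact pow_ne_zero _ hc h4
      · exact det_map_ne (algebraMap ℚ ℚ_[p]) (hadm i).1 h4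
    refine unimodular_of_primitive (ρ := R i) (fun g => ?_) (hres.nz i) (hres.prim i)
    refine sim_unit (c := κ p (s g) ^ w i) (hpos i) hdI (R' := R i g⁻¹)
      (by rw [← map_mul, mul_inv_cancel, map_one]) ?_
    obtain ⟨c, hc, h1⟩ := hJI i
    have h2 := H0.hmult i p (s g)
    unfold Sim at h2 ⊢
    rw [hρ] at h2
    rw [h1, mul_smul_comm, smul_mul_assoc, h2, smul_comm]
  have hal : ∀ i, Allows (kd i) (N i) p (JL J p i) := by
    intro i
    have h1 := hkd i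
    obtain ⟨h2, h3⟩ := hsuit i
    obtain ⟨c, hc, h4⟩ := hJI i
    cases hk : kd i with
    | sym =>
      show p ≠ 2
      omega
    | odd =>
      rw [hk] at h1
      exact h2 h1.1 h1.2.1
    | even =>
      rw [hk] at h1
      exact ⟨h3 h1.1 h1.2.1, even_val hc h4 (hJd i) h1.2.1⟩
  obtain ⟨h1, h2, h3⟩ := residual_main H0 p hp5 hal hρ hJI hres hcomp
  refine ⟨h1, h2, fun ℓ _ => ⟨⟨fun h => abs_of_sato H0 ℓ h, fun h => ?_⟩, h3 ℓ⟩⟩
  exact sato_of_tate ((h3 ℓ).1.2 h)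

end

end

end Pool.Agent.U175.LP
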