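import Mathlib

/-!
# The number of values of a polynomial map over a finite field

Let `g : F ^ d → F ^ d` be a polynomial map of degree at most `e` whose derivative at the origin is the
identity. Then the number of values is at least a constant times `q ^ d`, where the constant depends on
`d` and `e`.
-/

set_option autoImplicit false
set_option linter.unusedSectionVars false

namespace Pool.Agent.U175.LP

open MvPolynomial

noncomputable section

variable {F : Type*} [Field F] {d : ℕ}

/-- `a` and `b` agree up to the order `k`. -/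
def Agree (k : ℕ) (a b : MvPolynomial (Fin d) F) : Prop :=
  a - b ∈ idealOfVars (Fin d) F ^ (k + 1) ∧ b ∈ idealOfVars (Fin d) F ^ k

theorem Agree.mul {k l : ℕ} {a b a' b' : MvPolynomial (Fin d) F} (h : Agree k a b)
    (h' : Agree l a' b') : Agree (k + l) (a * a') (b * b') := by
  have h1 : a' ∈ idealOfVars (Fin d) F ^ l := by
    have h2 := Ideal.add_mem _ (Ideal.pow_le_pow_right (Nat.le_succ l) h'.1) h'.2
    rwa [sub_add_cancel] at h2
  refine ⟨?_, ?_⟩
  · have h3 : a * a' - b * b' = (a - b) * a' + b * (a' - b') := by ring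
    rw [h3]
    refine Ideal.add_mem _ ?_ ?_
    · have h4 := Ideal.mul_mem_mul h.1 h1
      rw [← pow_add] at h4
      have e1 : k + 1 + l = k + l + 1 := by omega
      rwa [e1] at h4
    · have h4 := Ideal.mul_mem_mul h.2 h'.1
      rw [← pow_add] at h4
      exact h4
  · have h4 := Ideal.mul_mem_mul h.2 h'.2
    rwa [← pow_add] at h4

theorem Agree.one : Agree 0 (1 : MvPolynomial (Fin d) F) 1 :=
  ⟨by rw [sub_self]; exact zero_mem _, by rw [pow_zero, Ideal.one_eq_top]; exact Submodule.mem_top⟩

theorem Agree.pow {k : ℕ} {a b : MvPolynomial (Fin d) F} (h : Agree k a b) (m : ℕ) :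
    Agree (k * m) (a ^ m) (b ^ m) := by
  induction m with
  | zero => rw [mul_zero, pow_zero, pow_zero]; exact Agree.one
  | succ m ih => rw [mul_add, mul_one, pow_succ, pow_succ]; exact ih.mul h

theorem Agree.prod {ι : Type*} (s : Finset ι) (k : ι → ℕ) (a b : ι → MvPolynomial (Fin d) F)
    (h : ∀ i ∈ s, Agree (k i) (a i) (b i)) : Agree (∑ i ∈ s, k i) (∏ i ∈ s, a i) (∏ i ∈ s, b i) := by
  classical
  induction s using Finset.induction_on with
  | empty => rw [Finset.sum_empty, Finset.prod_empty, Finset.prod_empty]; exact Agree.one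
  | insert i s hi ih =>
    rw [Finset.sum_insert hi, Finset.prod_insert hi, Finset.prod_insert hi]
    exact (h i (Finset.mem_insert_self i s)).mul
      (ih fun j hj => h j (Finset.mem_insert_of_mem hj))

/-- Polynomials whose linear parts are the variables are algebraically independent. -/
theorem aeval_ne {g : Fin d → MvPolynomial (Fin d) F}
    (hg : ∀ j, g j - X j ∈ idealOfVars (Fin d) F ^ 2) {Q : MvPolynomial (Fin d) F} (hQ : Q ≠ 0) :
    aeval g Q ≠ 0 := by
  classical
  obtain ⟨b, hb, hmin⟩ := Finset.exists_min_image Q.support (fun b => b.degree)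
    (MvPolynomial.support_nonempty.2 hQ)
  have hX : ∀ j, Agree 1 (g j) (X j) := fun j => ⟨hg j, by
    rw [pow_one]
    exact Ideal.subset_span ⟨j, rfl⟩⟩
  have hc : coeff b (aeval g Q) = coeff b Q := by
    rw [aeval_def, eval₂_eq', coeff_sum]
    have h1 : ∀ c ∈ Q.support, coeff b (algebraMap F (MvPolynomial (Fin d) F) (coeff c Q) *
        ∏ i, g i ^ c i) = if c = b then coeff b Q else 0 := by
      intro c hc
      rw [algebraMap_eq, coeff_C_mul]
      have h2 : Agree (∑ i, 1 * c i) (∏ i, g i ^ c i) (∏ i, X i ^ c i) :=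
        Agree.prod _ _ _ _ fun i _ => (hX i).pow (c i)
      have h3 := (mem_pow_idealOfVars_iff' _ _).1 h2.1 b (by
        simp only [one_mul]
        have h4 := hmin c hc
        rw [Finsupp.degree_eq_sum, Finsupp.degree_eq_sum] at h4
        rw [Finsupp.degree_eq_sum]
        omega)
      rw [coeff_sub, sub_eq_zero] at h3
      rw [h3]
      have h5 : (∏ i, (X i : MvPolynomial (Fin d) F) ^ c i) = monomial c 1 := by
        rw [monomial_eq, C_1, one_mul, Finsupp.prod_fintype _ _ (fun i => pow_zero _)]
      rw [h5, coeff_monomial]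
      split_ifs with h6
      · rw [h6, mul_one]
      · rw [mul_zero]
    rw [Finset.sum_congr rfl h1, Finset.sum_ite_eq' Q.support b, if_pos hb]
  intro h0
  rw [h0, coeff_zero] at hc
  exact (mem_support_iff.1 hb) hc.symm

/-- A relation between one variable and the polynomials `g`. -/
theorem exists_rel [Fintype F] {e M : ℕ} (g : Fin d → MvPolynomial (Fin d) F)
    (hdeg : ∀ j, (g j).totalDegree ≤ e) (hM : (M * (1 + d * e) + 1) ^ d < (M + 1) ^ (d + 1))
    (hq : M * (1 + d * e) < Fintype.card F) (i : Fin d) :
    ∃ c : Fin (M + 1) × (Fin d → Fin (M + 1)) → F, c ≠ 0 ∧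
      ∀ t : Fin d → F, ∑ ab, c ab * (t i ^ (ab.1 : ℕ) * ∏ j, eval t (g j) ^ (ab.2 j : ℕ)) = 0 := by
  classical
  obtain ⟨S, -, hS⟩ := Finset.exists_subset_card_eq (s := (Finset.univ : Finset F))
    (n := M * (1 + d * e) + 1) (by rw [Finset.card_univ]; omega)
  let ev : (Fin (M + 1) × (Fin d → Fin (M + 1)) → F) →ₗ[F] ((Fin d → S) → F) :=
    { toFun := fun c x => ∑ ab, c ab * ((x i : F) ^ (ab.1 : ℕ) *
        ∏ j, eval (fun k => (x k : F)) (g j) ^ (ab.2 j : ℕ))
      map_add' := fun c c' => by
        funext x
        simp only [Pi.add_apply, add_mul, Finset.sum_add_distrib]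
      map_smul' := fun r c => by
        funext x
        simp only [Pi.smul_apply, smul_eq_mul, RingHom.id_apply, Finset.mul_sum, mul_assoc] }
  have hker : ∃ c, c ≠ 0 ∧ ev c = 0 := by
    by_contra hno
    push_neg at hno
    have hinj : Function.Injective ev := by
      rw [← LinearMap.ker_eq_bot, Submodule.eq_bot_iff]
      intro c hc
      by_contra hc0
      exact hno c hc0 hc
    have h1 := LinearMap.finrank_le_finrank_of_injective hinj
    rw [Module.finrank_fintype_fun_eq_card, Module.finrank_fintype_fun_eq_card,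
      Fintype.card_prod, Fintype.card_fun, Fintype.card_fun, Fintype.card_fin, Fintype.card_fin,
      Fintype.card_coe, hS, ← pow_succ'] at h1
    omega
  obtain ⟨c, hc0, hc⟩ := hker
  refine ⟨c, hc0, ?_⟩
  set H : MvPolynomial (Fin d) F := ∑ ab, C (c ab) * (X i ^ (ab.1 : ℕ) *
    ∏ j, g j ^ (ab.2 j : ℕ)) with hH
  have hev : ∀ t, eval t H = ∑ ab, c ab * (t i ^ (ab.1 : ℕ) *
      ∏ j, eval t (g j) ^ (ab.2 j : ℕ)) := by
    intro t
    rw [hH, map_sum]
    refine Finset.sum_congr rfl fun ab _ => ?_
    rw [map_mul, map_mul, eval_C, map_pow, eval_X, map_prod]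
    congr 2
    exact Finset.prod_congr rfl fun j _ => map_pow _ _ _
  have hH0 : H = 0 := by
    refine eq_zero_of_eval_zero_at_prod_finset H (fun _ => S) (fun k => ?_) (fun x hx => ?_)
    · rw [hS, Nat.lt_succ_iff, hH]
      refine (degreeOf_sum_le _ _ _).trans (Finset.sup_le fun ab _ => ?_)
      refine (degreeOf_C_mul_le _ _ _).trans ?_
      refine (degreeOf_mul_le _ _ _).trans ?_
      have h2 : degreeOf k ((X i : MvPolynomial (Fin d) F) ^ (ab.1 : ℕ)) ≤ M := by
        refine (degreeOf_pow_le _ _ _).trans ?_
        have h3 : degreeOf k (X i : MvPolynomial (Fin d) F) ≤ 1 :=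
          (degreeOf_le_totalDegree _ _).trans (totalDegree_X i).le
        calc (ab.1 : ℕ) * degreeOf k (X i : MvPolynomial (Fin d) F) ≤ M * 1 :=
              Nat.mul_le_mul (Nat.lt_succ_iff.1 ab.1.2) h3
          _ = M := mul_one M
      have h3 : degreeOf k (∏ j, g j ^ (ab.2 j : ℕ)) ≤ M * (d * e) := by
        refine (degreeOf_prod_le _ _ _).trans ?_
        calc ∑ j, degreeOf k (g j ^ (ab.2 j : ℕ)) ≤ ∑ _j : Fin d, M * e := by
              refine Finset.sum_le_sum fun j _ => ?_
              refine (degreeOf_pow_le _ _ _).trans ?_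
              exact Nat.mul_le_mul (Nat.lt_succ_iff.1 (ab.2 j).2)
                ((degreeOf_le_totalDegree _ _).trans (hdeg j))
          _ = M * (d * e) := by
              rw [Finset.sum_const, Finset.card_univ, Fintype.card_fin, smul_eq_mul]
              ring
      calc _ ≤ M + M * (d * e) := Nat.add_le_add h2 h3
        _ = M * (1 + d * e) := by ring
    · rw [hev]
      have h4 := congrFun hc (fun k => ⟨x k, hx k⟩)
      exact h4
  intro t
  rw [← hev, hH0, map_zero]

/-- **The number of values of a polynomial map.** -/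
theorem card_values [Fintype F] [DecidableEq F] {e M : ℕ} (g : Fin d → MvPolynomial (Fin d) F)
    (hdeg : ∀ j, (g j).totalDegree ≤ e) (hM : (M * (1 + d * e) + 1) ^ d < (M + 1) ^ (d + 1))
    (hq : M * (1 + d * e) < Fintype.card F)
    (hg : ∀ j, g j - X j ∈ idealOfVars (Fin d) F ^ 2) :
    Fintype.card F ^ (d + 1) ≤ Fintype.card F * (M ^ d *
      (Finset.univ.image fun (t : Fin d → F) j => eval t (g j)).card) +
      d * (M * d * e) * Fintype.card F ^ d := by
  classical
  set q := Fintype.card F with hqd
  have hq0 : 0 < q := Fintype.card_pos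
  choose c hc0 hc using exists_rel g hdeg hM hq
  have hex : ∀ i, ∃ a : Fin (M + 1), ∃ b, c i (a, b) ≠ 0 := by
    intro i
    obtain ⟨⟨a, b⟩, hab⟩ := Function.ne_iff.1 (hc0 i)
    exact ⟨a, b, hab⟩
  choose a b hab using hex
  -- the leading coefficients
  let Q : Fin d → MvPolynomial (Fin d) F := fun i =>
    ∑ b', C (c i (a i, b')) * ∏ j, X j ^ (b' j : ℕ)
  let toF : (Fin d → Fin (M + 1)) → (Fin d →₀ ℕ) := fun b' =>
    Finsupp.equivFunOnFinite.symm fun j => (b' j : ℕ)
  have htoF : Function.Injective toF := by
    intro x y hxy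
    funext j
    have h1 := DFunLike.congr_fun hxy j
    exact Fin.ext h1
  have hmon : ∀ b', (∏ j, (X j : MvPolynomial (Fin d) F) ^ (b' j : ℕ)) =
      monomial (toF b') 1 := by
    intro b'
    rw [monomial_eq, C_1, one_mul, Finsupp.prod_fintype _ _ (fun i => pow_zero _)]
    rfl
  have hQ0 : ∀ i, Q i ≠ 0 := by
    intro i h0
    have h1 : coeff (toF (b i)) (Q i) = c i (a i, b i) := by
      simp only [Q]
      rw [coeff_sum, Finset.sum_eq_single (b i)]
      · rw [hmon, coeff_C_mul, coeff_monomial, if_pos rfl, mul_one]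
      · intro b' _ hne
        rw [hmon, coeff_C_mul, coeff_monomial, if_neg (fun h => hne (htoF h)), mul_zero]
      · intro h
        exact absurd (Finset.mem_univ _) h
    rw [h0, coeff_zero] at h1
    exact hab i h1.symm
  have hφQ : ∀ i, aeval g (Q i) = ∑ b', C (c i (a i, b')) * ∏ j, g j ^ (b' j : ℕ) := by
    intro i
    simp only [Q]
    rw [map_sum]
    refine Finset.sum_congr rfl fun b' _ => ?_
    rw [map_mul, map_prod, algHom_C, algebraMap_eq]
    congr 1
    refine Finset.prod_congr rfl fun j _ => ?_
    rw [map_pow, aeval_X]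
  have hφ0 : ∀ i, aeval g (Q i) ≠ 0 := fun i => aeval_ne hg (hQ0 i)
  have hφdeg : ∀ i, (aeval g (Q i)).totalDegree ≤ M * d * e := by
    intro i
    rw [hφQ]
    refine totalDegree_finsetSum_le fun b' _ => ?_
    refine (totalDegree_mul _ _).trans ?_
    rw [totalDegree_C, zero_add]
    refine (totalDegree_finset_prod _ _).trans ?_
    calc ∑ j, (g j ^ (b' j : ℕ)).totalDegree ≤ ∑ _j : Fin d, M * e := by
          refine Finset.sum_le_sum fun j _ => ?_
          refine (totalDegree_pow _ _).trans ?_
          exact Nat.mul_le_mul (Nat.lt_succ_iff.1 (b' j).2) (hdeg j)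
      _ = M * d * e := by
          rw [Finset.sum_const, Finset.card_univ, Fintype.card_fin, smul_eq_mul]
          ring
  -- the bad points
  let bad : Fin d → Finset (Fin d → F) := fun i =>
    Finset.univ.filter fun t => eval t (aeval g (Q i)) = 0
  have hbad : ∀ i, q * (bad i).card ≤ M * d * e * q ^ d := by
    intro i
    have h1 := schwartz_zippel_totalDegree (hφ0 i) (Finset.univ : Finset F)
    have h2 : (Fintype.piFinset fun _ : Fin d => (Finset.univ : Finset F)) = Finset.univ := by
      ext t
      simp
    rw [h2, Finset.card_univ, ← hqd] at h1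
    have h3 : ((bad i).card : ℚ≥0) / (q : ℚ≥0) ^ d ≤ ((aeval g (Q i)).totalDegree : ℚ≥0) / q := h1
    have hq' : (0 : ℚ≥0) < q := by exact_mod_cast hq0
    rw [div_le_div_iff₀ (by positivity) hq'] at h3
    have h4 : (bad i).card * q ≤ (aeval g (Q i)).totalDegree * q ^ d := by exact_mod_cast h3
    calc q * (bad i).card = (bad i).card * q := mul_comm _ _
      _ ≤ (aeval g (Q i)).totalDegree * q ^ d := h4
      _ ≤ M * d * e * q ^ d := Nat.mul_le_mul_right _ (hφdeg i)
  -- the good points
  let good : Finset (Fin d → F) := Finset.univ.filter fun t => ∀ i, eval t (aeval g (Q i)) ≠ 0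
  let f : (Fin d → F) → Fin d → F := fun t j => eval t (g j)
  have hgood : good.card ≤ M ^ d * (Finset.univ.image f).card := by
    have h1 : good.card ≤ M ^ d * (good.image f).card := by
      refine Finset.card_le_mul_card_image good (M ^ d) fun y hy => ?_
      let r : Fin d → Polynomial F := fun i => ∑ a' : Fin (M + 1),
        Polynomial.C (∑ b', c i (a', b') * ∏ j, y j ^ (b' j : ℕ)) * Polynomial.X ^ (a' : ℕ)
      obtain ⟨t₀, ht₀, rfl⟩ := Finset.mem_image.1 hy
      have hr0 : ∀ i, r i ≠ 0 := by
        intro i h0
        have h2 : (r i).coeff (a i : ℕ) = eval t₀ (aeval g (Q i)) := by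
          simp only [r]
          rw [Polynomial.finset_sum_coeff, Finset.sum_eq_single (a i)]
          · rw [Polynomial.coeff_C_mul, Polynomial.coeff_X_pow, if_pos rfl, mul_one, hφQ, map_sum]
            refine Finset.sum_congr rfl fun b' _ => ?_
            rw [map_mul, eval_C, map_prod]
            congr 1
            exact Finset.prod_congr rfl fun j _ => (map_pow _ _ _).symm
          · intro a' _ hne
            rw [Polynomial.coeff_C_mul, Polynomial.coeff_X_pow,
              if_neg (fun h => hne (Fin.ext h.symm)), mul_zero]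
          · intro h
            exact absurd (Finset.mem_univ _) h
        rw [h0, Polynomial.coeff_zero] at h2
        exact (Finset.mem_filter.1 ht₀).2 i h2.symm
      have hrdeg : ∀ i, (r i).natDegree ≤ M := by
        intro i
        refine Polynomial.natDegree_sum_le_of_forall_le _ _ fun a' _ => ?_
        refine (Polynomial.natDegree_C_mul_X_pow_le _ _).trans ?_
        exact Nat.lt_succ_iff.1 a'.2
      calc (good.filter fun x => f x = f t₀).card
          ≤ (Fintype.piFinset fun i => (r i).roots.toFinset).card := by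
            refine Finset.card_le_card fun t ht => ?_
            rw [Finset.mem_filter] at ht
            rw [Fintype.mem_piFinset]
            intro i
            rw [Multiset.mem_toFinset, Polynomial.mem_roots (hr0 i), Polynomial.IsRoot.def]
            simp only [r]
            rw [Polynomial.eval_finset_sum]
            have h3 := hc i t
            rw [← h3, Fintype.sum_prod_type]
            refine Finset.sum_congr rfl fun a' _ => ?_
            rw [Polynomial.eval_mul, Polynomial.eval_C, Polynomial.eval_pow, Polynomial.eval_X,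
              Finset.sum_mul]
            refine Finset.sum_congr rfl fun b' _ => ?_
            have h4 : (∏ j, f t₀ j ^ (b' j : ℕ)) = ∏ j, eval t (g j) ^ (b' j : ℕ) := by
              refine Finset.prod_congr rfl fun j _ => ?_
              rw [← ht.2]
            rw [h4]
            ring
        _ ≤ M ^ d := by
            rw [Fintype.card_piFinset]
            calc ∏ i, (r i).roots.toFinset.card ≤ ∏ _i : Fin d, M := by
                  refine Finset.prod_le_prod' fun i _ => ?_
                  exact ((r i).roots.toFinset_card_le).trans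
                    ((Polynomial.card_roots' _).trans (hrdeg i))
              _ = M ^ d := by rw [Finset.prod_const, Finset.card_univ, Fintype.card_fin]
    refine h1.trans (Nat.mul_le_mul_left _ (Finset.card_le_card ?_))
    exact Finset.image_subset_image (Finset.subset_univ _)
  have hcover : q ^ d ≤ good.card + ∑ i, (bad i).card := by
    have h1 : (Finset.univ : Finset (Fin d → F)) ⊆ good ∪ Finset.univ.biUnion bad := by
      intro t _
      rw [Finset.mem_union]
      by_cases h : ∀ i, eval t (aeval g (Q i)) ≠ 0
      · exact Or.inl (Finset.mem_filter.2 ⟨Finset.mem_univ _, h⟩)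
      · push_neg at h
        obtain ⟨i, hi⟩ := h
        exact Or.inr (Finset.mem_biUnion.2 ⟨i, Finset.mem_univ _,
          Finset.mem_filter.2 ⟨Finset.mem_univ _, hi⟩⟩)
    have h2 := Finset.card_le_card h1
    rw [Finset.card_univ, Fintype.card_fun, Fintype.card_fin] at h2
    exact h2.trans ((Finset.card_union_le _ _).trans
      (Nat.add_le_add_left Finset.card_biUnion_le _))
  calc q ^ (d + 1) = q * q ^ d := pow_succ' q d
    _ ≤ q * (good.card + ∑ i, (bad i).card) := Nat.mul_le_mul_left _ hcover
    _ = q * good.card + ∑ i, q * (bad i).card := by rw [mul_add, Finset.mul_sum]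
    _ ≤ q * (M ^ d * (Finset.univ.image f).card) + ∑ _i : Fin d, M * d * e * q ^ d :=
        Nat.add_le_add (Nat.mul_le_mul_left _ hgood) (Finset.sum_le_sum fun i _ => hbad i)
    _ = _ := by
        rw [Finset.sum_const, Finset.card_univ, Fintype.card_fin, smul_eq_mul]
        simp only [f]
        ring

end

end Pool.Agent.U175.LP
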