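import Pool.Agent.U175.LP.S9

/-!
# Unipotent elements of the residual groups
-/

set_option autoImplicit false
set_option linter.unusedSectionVars false
set_option linter.style.haveILetI false

namespace Pool.Agent.U175.LP

open PadicInt Module Matrix Filter Topology NumberField IsDedekindDomain
open Pool.Agent.U175.LP.Pub Pool.Agent.Y142.ZO
open Pool.Agent.Y142.ZI Pool.Agent.U273.AI Pool.Agent.Y95.MT Pool.Agent.R932 Pool.Agent.R932.PO
open Pool.Agent.W544.PG (HS)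

noncomputable section

variable {ℓ : ℕ} [hℓ : Fact ℓ.Prime] {n : ℕ} {J : Matrix (Fin n) (Fin n) ℤ_[ℓ]}

/-- Lifting of matrices. -/
theorem exists_red (X : Matrix (Fin n) (Fin n) (ZMod ℓ)) :
    ∃ Y : Matrix (Fin n) (Fin n) ℤ_[ℓ], red Y = X := by
  choose f hf using fun a : ZMod ℓ => ZMod.ringHom_surjective (toZMod : ℤ_[ℓ] →+* ZMod ℓ) a
  refine ⟨X.map f, ?_⟩
  ext i j
  exact hf _

theorem red_J_unit (hJd : IsUnit J.det) : IsUnit (red J).det := by
  have h4 : (red J).det = PadicInt.toZMod J.det := by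
    rw [RingHom.map_det]
    rfl
  rw [h4]
  exact hJd.map PadicInt.toZMod

/-- Lifting of skew matrices. -/
theorem lift_skew (hℓ3 : 3 ≤ ℓ) (hs : Jᵀ = J) (hJd : IsUnit J.det)
    {X : Matrix (Fin n) (Fin n) (ZMod ℓ)} (hX : Xᵀ * red J + red J * X = 0) :
    ∃ Y : Matrix (Fin n) (Fin n) ℤ_[ℓ], Yᵀ * J + J * Y = 0 ∧ red Y = X := by
  obtain ⟨Z, hZ⟩ := exists_red (red J * X)
  have h2 : (2 : ZMod ℓ) ≠ 0 := two_neZ hℓ3
  have h2u : IsUnit (2 : ℤ_[ℓ]) := by
    rw [isUnit_iff_toZMod, map_ofNat]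
    exact h2
  obtain ⟨w, hw⟩ := h2u
  set c : ℤ_[ℓ] := ((w⁻¹ : ℤ_[ℓ]ˣ) : ℤ_[ℓ]) with hc
  have hc2 : c * 2 = 1 := by rw [← hw, hc, Units.inv_mul]
  set S : Matrix (Fin n) (Fin n) ℤ_[ℓ] := c • (Z - Zᵀ) with hS
  have hSt : Sᵀ = -S := by
    rw [hS, transpose_smul, transpose_sub, transpose_transpose, ← smul_neg, neg_sub]
  have hJi : J * J⁻¹ = 1 := Matrix.mul_nonsing_inv _ hJd
  have hiJ : J⁻¹ * J = 1 := Matrix.nonsing_inv_mul _ hJd
  have hJit : (J⁻¹)ᵀ = J⁻¹ := by rw [Matrix.transpose_nonsing_inv, hs]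
  refine ⟨J⁻¹ * S, ?_, ?_⟩
  · rw [transpose_mul, hSt, hJit, Matrix.mul_assoc, hiJ, Matrix.mul_one, ← Matrix.mul_assoc, hJi,
      Matrix.one_mul, neg_add_cancel]
  · have h3 : red J * red (J⁻¹ * S) = red J * X := by
      rw [← red_mul, ← Matrix.mul_assoc, hJi, Matrix.one_mul, hS, red_smul, red_sub, red_transpose,
        hZ, transpose_mul, ← red_transpose, hs, eq_neg_of_add_eq_zero_left hX, sub_neg_eq_add,
        ← two_smul (ZMod ℓ), smul_smul]
      have h4 : (toZMod c : ZMod ℓ) * 2 = 1 := by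
        have h5 := congrArg (toZMod : ℤ_[ℓ] →+* ZMod ℓ) hc2
        rwa [map_mul, map_ofNat, map_one] at h5
      rw [h4, one_smul]
    have hu := red_J_unit hJd
    calc red (J⁻¹ * S) = (red J)⁻¹ * (red J * red (J⁻¹ * S)) := by
          rw [← Matrix.mul_assoc, Matrix.nonsing_inv_mul _ hu, Matrix.one_mul]
      _ = X := by rw [h3, ← Matrix.mul_assoc, Matrix.nonsing_inv_mul _ hu, Matrix.one_mul]

/-- The Cayley transform of a lift of a nilpotent element. -/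
theorem exists_cayley (hℓ3 : 3 ≤ ℓ) (hs : Jᵀ = J) (hJd : IsUnit J.det)
    {N : Matrix (Fin n) (Fin n) (ZMod ℓ)} (hN : Nᵀ * red J + red J * N = 0) (hN3 : N ^ 3 = 0) :
    ∃ c : Matrix (Fin n) (Fin n) ℤ_[ℓ], cᵀ * J * c = J ∧ c.det = 1 ∧
      red c = 1 - (2 : ZMod ℓ) • N + (2 : ZMod ℓ) • (N * N) := by
  obtain ⟨X, hX, hXN⟩ := lift_skew hℓ3 hs hJd hN
  have hJi : J * J⁻¹ = 1 := Matrix.mul_nonsing_inv _ hJd
  have hiJ : J⁻¹ * J = 1 := Matrix.nonsing_inv_mul _ hJd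
  have hd : IsUnit (1 + X).det := by
    rw [isUnit_iff_toZMod]
    have h4 : (red (1 + X)).det = PadicInt.toZMod (1 + X).det := by
      rw [RingHom.map_det]
      rfl
    rw [← h4, red_add, red_one, hXN]
    have h5 : IsNilpotent N := ⟨3, hN3⟩
    exact ((Matrix.isUnit_iff_isUnit_det _).1 h5.isUnit_one_add).ne_zero
  have hXt : Xᵀ = -(J * X * J⁻¹) := by
    have h1 : Xᵀ * J = -(J * X) := eq_neg_of_add_eq_zero_left hX
    calc Xᵀ = Xᵀ * J * J⁻¹ := by rw [Matrix.mul_assoc, hJi, Matrix.mul_one]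
      _ = _ := by rw [h1, Matrix.neg_mul]
  have hdet : (1 - X).det = (1 + X).det := by
    have h1 : (1 + X)ᵀ = J * (1 - X) * J⁻¹ := by
      rw [transpose_add, transpose_one, hXt, Matrix.mul_sub, Matrix.mul_one, Matrix.sub_mul, hJi]
      abel
    have h2 := congrArg Matrix.det h1
    rw [det_transpose, det_mul, det_mul] at h2
    have h3 : J.det * (J⁻¹).det = 1 := by rw [← det_mul, hJi, det_one]
    rw [h2]
    linear_combination (-(1 - X).det) * h3
  set D := (1 + X)⁻¹ with hD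
  have hD1 : (1 + X) * D = 1 := Matrix.mul_nonsing_inv _ hd
  have hD2 : D * (1 + X) = 1 := Matrix.nonsing_inv_mul _ hd
  refine ⟨(1 - X) * D, ?_, ?_, ?_⟩
  · have h1 : (1 - X)ᵀ * J * (1 - X) = (1 + X)ᵀ * J * (1 + X) := by
      have h2 : (1 - X)ᵀ * J * (1 - X) - (1 + X)ᵀ * J * (1 + X) =
          -((2 : ℤ_[ℓ]) • (Xᵀ * J + J * X)) := by
        rw [transpose_sub, transpose_add, transpose_one, two_smul]
        noncomm_ring
      rw [hX, smul_zero, neg_zero] at h2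
      exact sub_eq_zero.1 h2
    rw [transpose_mul]
    calc Dᵀ * (1 - X)ᵀ * J * ((1 - X) * D) = Dᵀ * ((1 - X)ᵀ * J * (1 - X)) * D := by
          simp only [Matrix.mul_assoc]
      _ = ((1 + X) * D)ᵀ * J * ((1 + X) * D) := by
          rw [h1, transpose_mul]
          simp only [Matrix.mul_assoc]
      _ = J := by rw [hD1, transpose_one, Matrix.one_mul, Matrix.mul_one]
  · rw [det_mul, hdet, ← det_mul, hD1, det_one]
  · have h1 : red ((1 - X) * D) * red (1 + X) = red (1 - X) := by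
      rw [← red_mul, Matrix.mul_assoc, hD2, Matrix.mul_one]
    have h2 : (1 - (2 : ZMod ℓ) • N + (2 : ZMod ℓ) • (N * N)) * red (1 + X) = red (1 - X) := by
      rw [red_add, red_sub, red_one, hXN]
      have h3 : N * N * N = 0 := by rw [← hN3]; noncomm_ring
      have h4 : (1 - (2 : ZMod ℓ) • N + (2 : ZMod ℓ) • (N * N)) * (1 + N) =
          1 - N + (2 : ZMod ℓ) • (N * N * N) := by
        simp only [mul_add, add_mul, sub_mul, one_mul, mul_one, two_smul]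
        abel
      rw [h4, h3, smul_zero, add_zero]
    have h3 : red (1 + X) * red D = 1 := by rw [← red_mul, hD1, red_one]
    calc red ((1 - X) * D) = red ((1 - X) * D) * (red (1 + X) * red D) := by rw [h3, mul_one]
      _ = (1 - (2 : ZMod ℓ) • N + (2 : ZMod ℓ) • (N * N)) * (red (1 + X) * red D) := by
          rw [← mul_assoc, h1, ← h2, mul_assoc]
      _ = _ := by rw [h3, mul_one]

theorem pow_modeq' {M : Type*} [Monoid M] {c : M} {q : ℕ} (hc : c ^ q = 1) {a b : ℕ}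
    (h : a ≡ b [MOD q]) : c ^ a = c ^ b := by
  have e : ∀ a, c ^ a = c ^ (a % q) := by
    intro a
    conv_lhs => rw [← Nat.div_add_mod a q, pow_add, pow_mul, hc, one_pow, one_mul]
  rw [e a, e b, h]

/-- Roots of powers in a group of order `ℓ`. -/
theorem mem_of_pow {M : Type*} [Monoid M] {c : M} (hc : c ^ ℓ = 1) {m : ℕ} (hm0 : 0 < m)
    (hm : m < ℓ) : ∃ k, (c ^ m) ^ k = c := by
  have hm' : ((m : ℕ) : ZMod ℓ) ≠ 0 := by
    rw [Ne, ZMod.natCast_eq_zero_iff]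
    exact fun h => absurd (Nat.le_of_dvd hm0 h) (by omega)
  refine ⟨((m : ZMod ℓ)⁻¹).val, ?_⟩
  have h1 : ((m * ((m : ZMod ℓ)⁻¹).val : ℕ) : ZMod ℓ) = ((1 : ℕ) : ZMod ℓ) := by
    rw [Nat.cast_mul, ZMod.natCast_zmod_val, mul_inv_cancel₀ hm', Nat.cast_one]
  rw [ZMod.natCast_eq_natCast_iff] at h1
  rw [← pow_mul, pow_modeq' hc h1, pow_one]

variable {T : HS n} {κ : Type} [Fintype κ] [DecidableEq κ] {G : Type} [Group G]
  {α : G →* Matrix κ κ ℚ_[ℓ]} {β : G →* Matrix (Fin n) (Fin n) ℤ_[ℓ]}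

/-- **The residual groups contain unipotent elements.** -/
theorem cay_mem (hB : FullMT T κ) (hℓ3 : 3 ≤ ℓ) {Δ : Subgroup G} {C : ℕ}
    {Bm : Matrix (κ ⊕ Fin n) (κ ⊕ Fin n) ℚ} (hBm : Bm.det ≠ 0)
    (h : HasIdx C (tot α β '' Δ) {g | Pres Bm g ∧ InMT (hM (fun _ => (1 : Matrix κ κ ℂ)) T) g})
    {Bz Bz' : Matrix (κ ⊕ Fin n) (κ ⊕ Fin n) ℤ_[ℓ]}
    (h1 : Bz.map (algebraMap ℤ_[ℓ] ℚ_[ℓ]) = Bm.map (algebraMap ℚ ℚ_[ℓ]))
    (h2 : Bz'.map (algebraMap ℤ_[ℓ] ℚ_[ℓ]) = (Bm⁻¹).map (algebraMap ℚ ℚ_[ℓ]))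
    (hs : Jᵀ = J) (hJd : IsUnit J.det)
    (hJQ : J.map (algebraMap ℤ_[ℓ] ℚ_[ℓ]) = T.Q.map (algebraMap ℚ ℚ_[ℓ])) (hC : C < ℓ)
    {N : Matrix (Fin n) (Fin n) (ZMod ℓ)} (hN : Nᵀ * red J + red J * N = 0) (hN3 : N ^ 3 = 0) :
    ∃ g, red (β g) = 1 - (2 : ZMod ℓ) • N + (2 : ZMod ℓ) • (N * N) := by
  obtain ⟨c, hc1, hc2, hc3⟩ := exists_cayley hℓ3 hs hJd hN hN3
  have h3 : Bm.map (algebraMap ℚ ℚ_[ℓ]) * (Bm⁻¹).map (algebraMap ℚ ℚ_[ℓ]) = 1 := by
    rw [← Matrix.map_mul, Matrix.mul_nonsing_inv _ (isUnit_iff_ne_zero.2 hBm),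
      Matrix.map_one _ (map_zero _) (map_one _)]
  have h3' : (Bm⁻¹).map (algebraMap ℚ ℚ_[ℓ]) * Bm.map (algebraMap ℚ ℚ_[ℓ]) = 1 :=
    mul_eq_one_comm.1 h3
  -- all powers are in the group
  have hmem : ∀ i : ℕ, (fromBlocks (1 : Matrix κ κ ℚ_[ℓ]) 0 0 (c.map (algebraMap ℤ_[ℓ] ℚ_[ℓ]))) ^ i ∈
      {g | Pres Bm g ∧ InMT (hM (fun _ => (1 : Matrix κ κ ℂ)) T) g} := by
    intro i
    have hci : (c ^ i)ᵀ * J * c ^ i = J := by
      induction i with
      | zero => rw [pow_zero, transpose_one, Matrix.one_mul, Matrix.mul_one]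
      | succ i ih =>
        rw [pow_succ, transpose_mul]
        calc cᵀ * (c ^ i)ᵀ * J * (c ^ i * c) = cᵀ * ((c ^ i)ᵀ * J * c ^ i) * c := by
              simp only [Matrix.mul_assoc]
          _ = J := by rw [ih, hc1]
    have hmp : (c.map (algebraMap ℤ_[ℓ] ℚ_[ℓ])) ^ i = (c ^ i).map (algebraMap ℤ_[ℓ] ℚ_[ℓ]) := by
      have h5 := map_pow ((algebraMap ℤ_[ℓ] ℚ_[ℓ]).mapMatrix (m := Fin n)) c i
      rw [RingHom.mapMatrix_apply, RingHom.mapMatrix_apply] at h5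
      exact h5.symm
    rw [fb_pow, hmp]
    refine ⟨?_, MT_of_block hB ?_ ?_⟩
    · -- the lattice
      refine ⟨Bz' * fromBlocks (1 : Matrix κ κ ℤ_[ℓ]) 0 0 (c ^ i) * Bz, ?_, ?_⟩
      · rw [Matrix.isUnit_iff_isUnit_det, det_mul, det_mul, fb_det, det_one, one_mul, det_pow, hc2,
          one_pow, mul_one, ← det_mul]
        have h6 : Bz' * Bz = 1 := by
          have h7 : (Bz' * Bz).map (algebraMap ℤ_[ℓ] ℚ_[ℓ]) =
              (1 : Matrix (κ ⊕ Fin n) (κ ⊕ Fin n) ℤ_[ℓ]).map (algebraMap ℤ_[ℓ] ℚ_[ℓ]) := by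
            rw [Matrix.map_mul, h1, h2, h3', Matrix.map_one _ (map_zero _) (map_one _)]
          ext a b
          have h8 := congrFun (congrFun h7 a) b
          rw [Matrix.map_apply, Matrix.map_apply] at h8
          rw [IsFractionRing.injective ℤ_[ℓ] ℚ_[ℓ] h8]
        rw [h6, det_one]
        exact isUnit_one
      · rw [Matrix.map_mul, Matrix.map_mul, h1, h2, ← Matrix.mul_assoc, ← Matrix.mul_assoc, h3,
          Matrix.one_mul]
        congr 1
        rw [fromBlocks_map, Matrix.map_one _ (map_zero _) (map_one _),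
          Matrix.map_zero _ (map_zero _), Matrix.map_zero _ (map_zero _)]
    · change ((c ^ i).map (algebraMap ℤ_[ℓ] ℚ_[ℓ]))ᵀ * T.Q.map (algebraMap ℚ ℚ_[ℓ]) *
        (c ^ i).map (algebraMap ℤ_[ℓ] ℚ_[ℓ]) = T.Q.map (algebraMap ℚ ℚ_[ℓ])
      rw [← hJQ, ← transpose_map, ← Matrix.map_mul, ← Matrix.map_mul, hci]
    · have h5 := (algebraMap ℤ_[ℓ] ℚ_[ℓ]).map_det (c ^ i)
      rw [RingHom.mapMatrix_apply] at h5
      rw [← h5, det_pow, hc2, one_pow, map_one]
  have hunit : IsUnit (fromBlocks (1 : Matrix κ κ ℚ_[ℓ]) 0 0 (c.map (algebraMap ℤ_[ℓ] ℚ_[ℓ]))) := by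
    rw [Matrix.isUnit_iff_isUnit_det, fb_det, det_one, one_mul]
    have h5 := (algebraMap ℤ_[ℓ] ℚ_[ℓ]).map_det c
    rw [RingHom.mapMatrix_apply] at h5
    rw [← h5, hc2, map_one]
    exact isUnit_one
  obtain ⟨m, hm0, hmC, δ, hδ, hδm⟩ := exists_pow h hmem hunit
  -- the reduction
  have h5 : β δ = c ^ m := by
    rw [blk_of_idx hB h hδ, fb_pow] at hδm
    have h6 := congrArg Matrix.toBlocks₂₂ hδm
    rw [toBlocks_fromBlocks₂₂, toBlocks_fromBlocks₂₂] at h6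
    have h7 : (c.map (algebraMap ℤ_[ℓ] ℚ_[ℓ])) ^ m = (c ^ m).map (algebraMap ℤ_[ℓ] ℚ_[ℓ]) := by
      have h5 := map_pow ((algebraMap ℤ_[ℓ] ℚ_[ℓ]).mapMatrix (m := Fin n)) c m
      rw [RingHom.mapMatrix_apply, RingHom.mapMatrix_apply] at h5
      exact h5.symm
    rw [h7] at h6
    exact map_inj h6
  have hN3' : N * N * N = 0 := by rw [← hN3]; noncomm_ring
  have h6 : (red c) ^ ℓ = 1 := by
    rcases Nat.eq_zero_or_pos n with h0 | hn
    · subst h0
      exact Subsingleton.elim _ _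
    · haveI : Nonempty (Fin n) := ⟨⟨0, hn⟩⟩
      haveI : CharP (Matrix (Fin n) (Fin n) (ZMod ℓ)) ℓ := inferInstance
      have h7 : (red c - 1) ^ 3 = 0 := by
        have h8 : red c - 1 = (2 : ZMod ℓ) • (N * N - N) := by
          rw [hc3, smul_sub]
          abel
        rw [h8, smul_pow]
        have h9 : (N * N - N) ^ 3 = N * N * N * (N * N * N - (3 : ℕ) • (N * N) + (3 : ℕ) • N - 1) := by
          noncomm_ring
        rw [h9, hN3', Matrix.zero_mul, smul_zero]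
      have h8 : (red c - 1) ^ ℓ = 0 := pow_eq_zero_of_le' h7 hℓ3
      rw [sub_pow_char_of_commute ℓ (Commute.one_right (red c)), one_pow] at h8
      exact sub_eq_zero.1 h8
  obtain ⟨k, hk⟩ := mem_of_pow (ℓ := ℓ) h6 hm0 (by omega : m < ℓ)
  refine ⟨δ ^ k, ?_⟩
  rw [map_pow, red_pow, h5, red_pow, hk, hc3]

/-- **The residual groups are primitive and of order divisible by `ℓ`.** -/
theorem res_of_idx (hB : FullMT T κ) (hn : 3 ≤ n) (hℓ5 : 5 ≤ ℓ) {Δ : Subgroup G} {C : ℕ}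
    {Bm : Matrix (κ ⊕ Fin n) (κ ⊕ Fin n) ℚ} (hBm : Bm.det ≠ 0)
    (h : HasIdx C (tot α β '' Δ) {g | Pres Bm g ∧ InMT (hM (fun _ => (1 : Matrix κ κ ℂ)) T) g})
    {Bz Bz' : Matrix (κ ⊕ Fin n) (κ ⊕ Fin n) ℤ_[ℓ]}
    (h1 : Bz.map (algebraMap ℤ_[ℓ] ℚ_[ℓ]) = Bm.map (algebraMap ℚ ℚ_[ℓ]))
    (h2 : Bz'.map (algebraMap ℤ_[ℓ] ℚ_[ℓ]) = (Bm⁻¹).map (algebraMap ℚ ℚ_[ℓ]))
    (hs : Jᵀ = J) (hJd : IsUnit J.det)
    (hJQ : J.map (algebraMap ℤ_[ℓ] ℚ_[ℓ]) = T.Q.map (algebraMap ℚ ℚ_[ℓ])) (hC : C < ℓ) :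
    IsPrimitive J β ∧ ∃ g, red (β g) ≠ 1 ∧ red (β g) ^ ℓ = 1 := by
  have hsy : ∀ x y, Bp J x y = Bp J y x := fun x y => by
    rw [Bp_apply, Bp_apply, dot_symm hs]
  have hnd : ∀ x, (∀ y, Bp J x y = 0) → x = 0 := by
    intro x hx
    refine Matrix.eq_zero_of_vecMul_eq_zero (red_J_unit hJd).ne_zero
      (dotProduct_eq_zero_iff.1 fun w => ?_)
    have h5 := hx w
    rw [Bp_apply, dot_red, dotProduct_mulVec] at h5
    exact h5
  have hdim : 3 ≤ finrank (ZMod ℓ) (Fin n → ZMod ℓ) := by rw [finrank_fin_fun]; exact hn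
  obtain ⟨u₀, hu₀, hu₀'⟩ := exists_isotropic hn (red J)
  have hu₀B : Bp J u₀ u₀ = 0 := by rw [Bp_apply, dot_red]; exact hu₀'
  -- the matrices of the nilpotent elements
  have hkey : ∀ u v, Bp J u u = 0 → Bp J u v = 0 →
      ∃ g, Matrix.toLin' (red (β g)) = cu (Bp J) u v := by
    intro u v hu huv
    set N := LinearMap.toMatrix' (wg (Bp J) u v) with hNd
    have hNl : Matrix.toLin' N = wg (Bp J) u v := Matrix.toLin'_toMatrix' _
    have hN3 : N ^ 3 = 0 := by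
      refine (Matrix.toLin' : _ ≃ₗ[ZMod ℓ] _).injective (LinearMap.ext fun x => ?_)
      have h5 := wg_cube hsy hu huv x
      rw [map_zero, LinearMap.zero_apply, ← h5, ← hNl, Matrix.toLin'_apply, Matrix.toLin'_apply,
        Matrix.toLin'_apply, Matrix.toLin'_apply, mulVec_mulVec, mulVec_mulVec]
      congr 1
      noncomm_ring
    have hNs : Nᵀ * red J + red J * N = 0 := by
      have h5 : ∀ x y, x ⬝ᵥ (Nᵀ * red J + red J * N) *ᵥ y = 0 := by
        intro x y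
        have e1 : x ⬝ᵥ (Nᵀ * red J) *ᵥ y = (N *ᵥ x) ⬝ᵥ red J *ᵥ y := by
          rw [← mulVec_mulVec, dotProduct_mulVec x, vecMul_transpose]
        have e2 : x ⬝ᵥ (red J * N) *ᵥ y = x ⬝ᵥ red J *ᵥ (N *ᵥ y) := by rw [mulVec_mulVec]
        have e3 : ∀ z, N *ᵥ z = wg (Bp J) u v z := fun z => by
          rw [← hNl, Matrix.toLin'_apply]
        rw [add_mulVec, dotProduct_add, e1, e2, e3, e3, ← dot_red, ← dot_red, ← Bp_apply,
          ← Bp_apply, wg_apply, wg_apply]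
        simp only [map_sub, map_smul, LinearMap.sub_apply, LinearMap.smul_apply, smul_eq_mul]
        rw [hsy x u, hsy x v]
        ring
      have h6 : ∀ i j, (Nᵀ * red J + red J * N) i j = 0 := by
        intro i j
        have h7 := h5 (Pi.single i 1) (Pi.single j 1)
        rwa [mulVec_single_one, single_one_dotProduct] at h7
      ext i j
      exact h6 i j
    obtain ⟨g, hg⟩ := cay_mem hB (by omega) hBm h h1 h2 hs hJd hJQ hC hNs hN3
    refine ⟨g, ?_⟩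
    rw [hg, cu, map_add, map_sub, map_smul, map_smul, Matrix.toLin'_mul, Matrix.toLin'_one, hNl]
    rfl
  constructor
  · intro W hW
    refine prim_of_cu (B := Bp J) hsy hℓ5 hnd hdim hu₀ hu₀B
      {f | ∃ g, Matrix.toLin' (red (β g)) = f} ⟨1, ?_⟩ ?_ hkey W ?_
    · rw [map_one, red_one, Matrix.toLin'_one]
      rfl
    · rintro _ ⟨g, rfl⟩ _ ⟨g', rfl⟩
      refine ⟨g * g', ?_⟩
      rw [map_mul, red_mul, Matrix.toLin'_mul]
      rfl
    · rintro _ ⟨g, rfl⟩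
      rcases hW g with h5 | h5
      · exact Or.inl h5
      · refine Or.inr fun x hx y hy => ?_
        rw [Bp_apply, Matrix.toLin'_apply]
        exact h5 x hx y hy
  · -- an element of order `ℓ`
    obtain ⟨u, v, hu, huv, hne⟩ : ∃ u v, Bp J u u = 0 ∧ Bp J u v = 0 ∧ wg (Bp J) u v ≠ 0 := by
      by_contra hno
      push Not at hno
      have h5 := irr_of_wg (B := Bp J) hsy (two_neZ (by omega)) hnd hdim hu₀ hu₀B
        (Submodule.span (ZMod ℓ) {u₀}) (fun u v hu huv w _ => by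
          rw [hno u v hu huv, LinearMap.zero_apply]
          exact Submodule.zero_mem _)
      rcases h5 with h5 | h5
      · rw [Submodule.span_singleton_eq_bot] at h5
        exact hu₀ h5
      · have h6 := finrank_span_singleton (K := ZMod ℓ) hu₀
        rw [h5, finrank_top] at h6
        omega
    obtain ⟨g, hg⟩ := hkey u v hu huv
    have hap : ∀ x, red (β g) *ᵥ x = cu (Bp J) u v x := fun x => by
      rw [← hg, Matrix.toLin'_apply]
    refine ⟨g, fun h5 => hne ?_, ?_⟩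
    · refine LinearMap.ext fun x => ?_
      have h6 : ∀ x, (2 : ZMod ℓ) • wg (Bp J) u v (wg (Bp J) u v x) =
          (2 : ZMod ℓ) • wg (Bp J) u v x := by
        intro x
        have h7 := hap x
        rw [h5, one_mulVec, cu_apply] at h7
        have h8 : x - (2 : ZMod ℓ) • wg (Bp J) u v x +
            (2 : ZMod ℓ) • wg (Bp J) u v (wg (Bp J) u v x) - x = 0 := by rw [← h7, sub_self]
        have h9 : (2 : ZMod ℓ) • wg (Bp J) u v (wg (Bp J) u v x) -
            (2 : ZMod ℓ) • wg (Bp J) u v x = 0 := by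
          rw [← h8]
          abel
        exact sub_eq_zero.1 h9
      have h2' := two_neZ (p := ℓ) (by omega)
      have h7 : ∀ x, wg (Bp J) u v (wg (Bp J) u v x) = wg (Bp J) u v x := by
        intro x
        have h8 := congrArg (fun z => (2 : ZMod ℓ)⁻¹ • z) (h6 x)
        simp only [smul_smul, inv_mul_cancel₀ h2', one_smul] at h8
        exact h8
      rw [LinearMap.zero_apply, ← h7, ← h7, wg_cube hsy hu huv]
    · refine (Matrix.toLin' : _ ≃ₗ[ZMod ℓ] _).injective (LinearMap.ext fun x => ?_)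
      have h6 : ∀ m : ℕ, (red (β g) ^ m) *ᵥ x = cu (Bp J) u ((m : ZMod ℓ) • v) x := by
        intro m
        induction m with
        | zero =>
          rw [pow_zero, one_mulVec, Nat.cast_zero, cu_smul]
          simp
        | succ m ih =>
          rw [pow_succ', ← mulVec_mulVec, ih, hap]
          have h7 := cu_add (B := Bp J) hsy hu huv 1 (m : ZMod ℓ) x
          rw [one_smul] at h7
          rw [h7]
          congr 2
          push_cast
          ring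
      rw [Matrix.toLin'_apply, h6, ZMod.natCast_self, cu_smul, Matrix.toLin'_apply, one_mulVec]
      simp

end

end Pool.Agent.U175.LP
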