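import Pool.Agent.U175.LP.S10

/-!
# The integral Mumford-Tate conjecture and residual groups
-/

set_option autoImplicit false
set_option linter.unusedSectionVars false
set_option linter.style.haveILetI false

namespace Pool.Agent.U175.LP

open PadicInt Module Matrix Filter Topology NumberField IsDedekindDomain
open Pool.Agent.U175.LP.Pub Pool.Agent.Y142.ZO
open Pool.Agent.Y142.ZI Pool.Agent.U273.AI Pool.Agent.Y95.MT Pool.Agent.R932 Pool.Agent.R932.PO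
open Pool.Agent.W544.PG (HS)

noncomputable section

variable {n : ℕ} {T : HS n} {κ : Type} [Fintype κ] [DecidableEq κ]
  {K : Type} [Field K] [NumberField K] {S : Set (HeightOneSpectrum (𝓞 K))}
  {P : HeightOneSpectrum (𝓞 K) → Polynomial ℚ} {Γ : Type} [Group Γ] [TopologicalSpace Γ]
  [IsTopologicalGroup Γ] [CompactSpace Γ] {s : GK K →* Γ} {kd : Kind}

/-- A uniform bound of a family of bounds. -/
theorem uniform_bound {Q : ∀ (ℓ : ℕ) [Fact ℓ.Prime], ℕ → Prop}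
    (hmono : ∀ (ℓ : ℕ) [Fact ℓ.Prime] (C C' : ℕ), C ≤ C' → Q ℓ C → Q ℓ C')
    (hall : ∀ (ℓ : ℕ) [Fact ℓ.Prime], ∃ C, Q ℓ C) {N₀ c : ℕ}
    (hbig : ∀ (ℓ : ℕ) [Fact ℓ.Prime], N₀ < ℓ → Q ℓ c) :
    ∃ C, ∀ (ℓ : ℕ) [Fact ℓ.Prime], Q ℓ C := by
  classical
  let f : ℕ → ℕ := fun ℓ => if h : ℓ.Prime then (@hall ℓ ⟨h⟩).choose else 0
  refine ⟨c + ∑ ℓ ∈ Finset.range (N₀ + 1), f ℓ, fun ℓ hℓ => ?_⟩
  by_cases hlt : N₀ < ℓ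
  · exact hmono ℓ _ _ (Nat.le_add_right _ _) (hbig ℓ hlt)
  · refine hmono ℓ (f ℓ) _ ?_ ?_
    · exact (Finset.single_le_sum (f := f) (fun _ _ => Nat.zero_le _)
        (Finset.mem_range.2 (by omega))).trans (Nat.le_add_left _ _)
    · simp only [f]
      rw [dif_pos hℓ.out]
      exact (@hall ℓ ⟨hℓ.out⟩).choose_spec

theorem finIdx_of_open {G : Type} [Group G] [TopologicalSpace G] [IsTopologicalGroup G]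
    [CompactSpace G] {Δ : Subgroup G} (hΔ : IsOpen (Δ : Set G)) : Δ.FiniteIndex := by
  haveI : Finite (G ⧸ Δ) := Subgroup.quotient_finite_of_isOpen Δ hΔ
  exact Subgroup.finiteIndex_of_finite_quotient

/-- The integral Mumford-Tate conjecture for a group `G` and a subgroup `Δ`. -/
def IMT {G : Type} [Group G] (T : HS n) (Bm : Matrix (κ ⊕ Fin n) (κ ⊕ Fin n) ℚ)
    (ρ : ∀ (ℓ : ℕ) [Fact ℓ.Prime], G →* Matrix (κ ⊕ Fin n) (κ ⊕ Fin n) ℚ_[ℓ])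
    (Δ : Subgroup G) : Prop :=
  ∃ C : ℕ, ∀ (ℓ : ℕ) [Fact ℓ.Prime], HasIdx C (ρ ℓ '' Δ)
    {g | Pres Bm g ∧ InMT (hM (fun _ => (1 : Matrix κ κ ℂ)) T) g}

theorem imt_of_cov {G : Type} [Group G] (hB : FullMT T κ)
    {α : ∀ (ℓ : ℕ) [Fact ℓ.Prime], G →* Matrix κ κ ℚ_[ℓ]}
    {β : ∀ (ℓ : ℕ) [Fact ℓ.Prime], G →* Matrix (Fin n) (Fin n) ℤ_[ℓ]}
    (hmtc : ∀ (ℓ : ℕ) [Fact ℓ.Prime],
      MTC (hM (fun _ => (1 : Matrix κ κ ℂ)) T) (tot (α ℓ) (β ℓ))) (Δ : Subgroup G)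
    [Δ.FiniteIndex]
    (hΔ : ∀ (ℓ : ℕ) [Fact ℓ.Prime], ∀ σ ∈ Δ, InG0 (tot (α ℓ) (β ℓ))
      ((tot (α ℓ) (β ℓ) σ).map (algebraMap ℚ_[ℓ] (AlgebraicClosure ℚ_[ℓ]))))
    {Bm : Matrix (κ ⊕ Fin n) (κ ⊕ Fin n) ℚ} (hBm : Bm.det ≠ 0)
    (hpres : ∀ (ℓ : ℕ) [Fact ℓ.Prime], ∀ σ, Pres Bm (tot (α ℓ) (β ℓ) σ))
    (hcov : ∀ (ℓ : ℕ) [Fact ℓ.Prime], ∃ C, Cov C (Set.range (qrep (β ℓ)))
      {t | Isom (T.Q.map (algebraMap ℚ ℚ_[ℓ])) t ∧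
      Pres Bm (fromBlocks (1 : Matrix κ κ ℚ_[ℓ]) 0 0 t)}) {N₀ c : ℕ}
    (hbig : ∀ (ℓ : ℕ) [Fact ℓ.Prime], N₀ < ℓ → Cov c (Set.range (qrep (β ℓ)))
      {t | Isom (T.Q.map (algebraMap ℚ ℚ_[ℓ])) t ∧
      Pres Bm (fromBlocks (1 : Matrix κ κ ℚ_[ℓ]) 0 0 t)}) :
    IMT T Bm (fun ℓ _ => tot (α ℓ) (β ℓ)) Δ := by
  refine uniform_bound (Q := fun ℓ _ C => HasIdx C (tot (α ℓ) (β ℓ) '' Δ)
    {g | Pres Bm g ∧ InMT (hM (fun _ => (1 : Matrix κ κ ℂ)) T) g}) ?_ ?_ (N₀ := N₀)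
    (c := c * Δ.index) ?_
  · rintro ℓ _ C C' hC ⟨h1, T', h2, h3⟩
    exact ⟨h1, T', h2.trans hC, h3⟩
  · intro ℓ _
    obtain ⟨C, hC⟩ := hcov ℓ
    exact ⟨_, idx_of_cov hB (hmtc ℓ) Δ (hΔ ℓ) hBm (hpres ℓ) hC⟩
  · intro ℓ _ hlt
    exact idx_of_cov hB (hmtc ℓ) Δ (hΔ ℓ) hBm (hpres ℓ) (hbig ℓ hlt)

/-- **The main theorem.** -/
theorem integral_main (hfit : Fits kd T.Q) (hn5 : 5 ≤ n) (hMT : FullMT T κ) (hS : S.Finite)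
    (hs : Continuous s)
    (α : ∀ (ℓ : ℕ) [Fact ℓ.Prime], Γ →* Matrix κ κ ℚ_[ℓ])
    (hα : ∀ (ℓ : ℕ) [Fact ℓ.Prime], Continuous (α ℓ) ∧ (Set.range (α ℓ)).Finite)
    (β : ∀ (ℓ : ℕ) [Fact ℓ.Prime], Γ →* Matrix (Fin n) (Fin n) ℤ_[ℓ])
    (hβ : ∀ (ℓ : ℕ) [Fact ℓ.Prime], RepT s T S P ℓ (β ℓ))
    {Bm : Matrix (κ ⊕ Fin n) (κ ⊕ Fin n) ℚ} (hBm : Bm.det ≠ 0)
    (hpres : ∀ (ℓ : ℕ) [Fact ℓ.Prime], ∀ σ, Pres Bm (tot (α ℓ) (β ℓ) σ))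
    (hrefl : {ℓ | ∃ _ : Fact ℓ.Prime, ¬ ∀ J : Matrix (Fin n) (Fin n) ℤ_[ℓ],
      (∃ c : ℚ_[ℓ], c ≠ 0 ∧ J.map (algebraMap ℤ_[ℓ] ℚ_[ℓ]) = c • T.Q.map (algebraMap ℚ ℚ_[ℓ])) →
      red J ≠ 0 → ∃ v, v ∈ RefSet J ((β ℓ).comp s)}.Finite)
    (Δ : Subgroup (GK K)) (hΔo : IsOpen (Δ : Set (GK K)))
    (hΔ : ∀ (ℓ : ℕ) [Fact ℓ.Prime], ∀ σ ∈ Δ, InG0 (tot ((α ℓ).comp s) ((β ℓ).comp s))
      ((tot ((α ℓ).comp s) ((β ℓ).comp s) σ).map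
        (algebraMap ℚ_[ℓ] (AlgebraicClosure ℚ_[ℓ])))) :
    (IMT T Bm (fun ℓ _ => tot ((α ℓ).comp s) ((β ℓ).comp s)) Δ ↔
      (∀ (ℓ : ℕ) [Fact ℓ.Prime], AbsIrr ℓ ((qrep (β ℓ)).comp s)) ∧
      {ℓ | ∃ _ : Fact ℓ.Prime, ¬ ∀ J : Matrix (Fin n) (Fin n) ℤ_[ℓ],
        (∃ c : ℚ_[ℓ], c ≠ 0 ∧ J.map (algebraMap ℤ_[ℓ] ℚ_[ℓ]) = c • T.Q.map (algebraMap ℚ ℚ_[ℓ])) →
        red J ≠ 0 → IsPrimitive J ((β ℓ).comp s) ∧
          ∃ g, red ((β ℓ).comp s g) ≠ 1 ∧ red ((β ℓ).comp s g) ^ ℓ = 1}.Finite) ∧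
    (IMT T Bm (fun ℓ _ => tot ((α ℓ).comp s) ((β ℓ).comp s)) Δ →
      ∀ Δ' : Subgroup Γ, IsOpen (Δ' : Set Γ) →
      (∀ (ℓ : ℕ) [Fact ℓ.Prime], ∀ σ ∈ Δ', InG0 (tot (α ℓ) (β ℓ))
        ((tot (α ℓ) (β ℓ) σ).map (algebraMap ℚ_[ℓ] (AlgebraicClosure ℚ_[ℓ])))) →
      IMT T Bm (fun ℓ _ => tot (α ℓ) (β ℓ)) Δ') ∧
    (IMT T Bm (fun ℓ _ => tot ((α ℓ).comp s) ((β ℓ).comp s)) Δ →
      {ℓ | ∃ _ : Fact ℓ.Prime, ¬ HasIdx (cst n * Δ.index) (tot ((α ℓ).comp s) ((β ℓ).comp s) '' Δ)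
        {g | Pres Bm g ∧ InMT (hM (fun _ => (1 : Matrix κ κ ℂ)) T) g}}.Finite) := by
  classical
  haveI : Δ.FiniteIndex := finIdx_of_open hΔo
  have hform : ∀ (ℓ : ℕ) [Fact ℓ.Prime] (σ : GK K),
      (qm ((β ℓ).comp s σ))ᵀ * T.Q.map (algebraMap ℚ ℚ_[ℓ]) * qm ((β ℓ).comp s σ) =
      T.Q.map (algebraMap ℚ ℚ_[ℓ]) := fun ℓ _ σ => (hβ ℓ).form (s σ)
  have hpres' : ∀ (ℓ : ℕ) [Fact ℓ.Prime], ∀ σ, Pres Bm (tot ((α ℓ).comp s) ((β ℓ).comp s) σ) :=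
    fun ℓ _ σ => hpres ℓ (s σ)
  obtain ⟨N₂, hN₂⟩ := exists_int Bm
  obtain ⟨N₃, hN₃⟩ := exists_int Bm⁻¹
  obtain ⟨N₄, hN₄⟩ := exists_int T.Q
  obtain ⟨N₅, hN₅⟩ := exists_int T.Q⁻¹
  have hQd : T.Q.det ≠ 0 := by
    intro h0
    haveI : Fact (Nat.Prime 2) := ⟨Nat.prime_two⟩
    have h1 := qdet (ℓ := 2) T
    have h2 := (algebraMap ℚ ℚ_[2]).map_det T.Q
    rw [RingHom.mapMatrix_apply] at h2
    rw [← h2, h0, map_zero] at h1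
    exact h1 rfl
  -- the form is unimodular at almost all prime numbers
  have hgoodJ : ∀ (ℓ : ℕ) [Fact ℓ.Prime], N₄ + N₅ < ℓ → ∃ J : Matrix (Fin n) (Fin n) ℤ_[ℓ],
      Jᵀ = J ∧ IsUnit J.det ∧ J.map (algebraMap ℤ_[ℓ] ℚ_[ℓ]) = T.Q.map (algebraMap ℚ ℚ_[ℓ]) := by
    intro ℓ _ hlt
    obtain ⟨J, hJ⟩ := hN₄ ℓ (by omega)
    obtain ⟨J', hJ'⟩ := hN₅ ℓ (by omega)
    refine ⟨J, ?_, ?_, hJ⟩
    · apply map_inj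
      rw [transpose_map, hJ, ← transpose_map, T.symm]
    · have h1 : J * J' = 1 := by
        apply map_inj
        rw [Matrix.map_mul, hJ, hJ', ← Matrix.map_mul,
          Matrix.mul_nonsing_inv _ (isUnit_iff_ne_zero.2 hQd), Matrix.map_one _ (map_zero _)
          (map_one _), Matrix.map_one _ (map_zero _) (map_one _)]
      have h2 := congrArg Matrix.det h1
      rw [det_mul, det_one] at h2
      exact IsUnit.of_mul_eq_one _ h2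
  have hunitred : ∀ {ℓ : ℕ} [Fact ℓ.Prime] {J : Matrix (Fin n) (Fin n) ℤ_[ℓ]}, IsUnit J.det →
      red J ≠ 0 := by
    intro ℓ _ J hJ h0
    have h1 := red_J_unit hJ
    haveI : Nonempty (Fin n) := ⟨⟨0, by omega⟩⟩
    rw [h0, det_zero] at h1
    exact not_isUnit_zero h1
  obtain ⟨N₆, hN₆⟩ := hrefl.bddAbove
  -- (2) implies (1), and the statement on `Γ`
  have back : (∀ (ℓ : ℕ) [Fact ℓ.Prime], AbsIrr ℓ ((qrep (β ℓ)).comp s)) →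
      {ℓ | ∃ _ : Fact ℓ.Prime, ¬ ∀ J : Matrix (Fin n) (Fin n) ℤ_[ℓ],
        (∃ c : ℚ_[ℓ], c ≠ 0 ∧ J.map (algebraMap ℤ_[ℓ] ℚ_[ℓ]) = c • T.Q.map (algebraMap ℚ ℚ_[ℓ])) →
        red J ≠ 0 → IsPrimitive J ((β ℓ).comp s) ∧
          ∃ g, red ((β ℓ).comp s g) ≠ 1 ∧ red ((β ℓ).comp s g) ^ ℓ = 1}.Finite →
      (IMT T Bm (fun ℓ _ => tot ((α ℓ).comp s) ((β ℓ).comp s)) Δ ∧
      ∀ Δ' : Subgroup Γ, IsOpen (Δ' : Set Γ) →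
      (∀ (ℓ : ℕ) [Fact ℓ.Prime], ∀ σ ∈ Δ', InG0 (tot (α ℓ) (β ℓ))
        ((tot (α ℓ) (β ℓ) σ).map (algebraMap ℚ_[ℓ] (AlgebraicClosure ℚ_[ℓ])))) →
      IMT T Bm (fun ℓ _ => tot (α ℓ) (β ℓ)) Δ') ∧
      {ℓ | ∃ _ : Fact ℓ.Prime, ¬ HasIdx (cst n * Δ.index) (tot ((α ℓ).comp s) ((β ℓ).comp s) '' Δ)
        {g | Pres Bm g ∧ InMT (hM (fun _ => (1 : Matrix κ κ ℂ)) T) g}}.Finite := by
    intro habs hfin
    obtain ⟨N₇, hN₇⟩ := hfin.bddAbove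
    have hres : {ℓ | ∃ _ : Fact ℓ.Prime, ¬ ∃ J, Res T ((β ℓ).comp s) J}.Finite := by
      refine (Set.finite_Iic (N₄ + N₅ + N₆ + N₇)).subset ?_
      rintro ℓ ⟨hℓ, hno⟩
      rw [Set.mem_Iic]
      by_contra hlt
      refine hno ?_
      obtain ⟨J, hJ1, hJ2, hJ3⟩ := hgoodJ ℓ (by omega)
      have hJ4 : ∃ c : ℚ_[ℓ], c ≠ 0 ∧
          J.map (algebraMap ℤ_[ℓ] ℚ_[ℓ]) = c • T.Q.map (algebraMap ℚ ℚ_[ℓ]) :=
        ⟨1, one_ne_zero, by rw [one_smul, hJ3]⟩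
      have hJ5 := hunitred hJ2
      have h6 : ∃ v, v ∈ RefSet J ((β ℓ).comp s) := by
        by_contra hno'
        exact absurd (hN₆ ⟨hℓ, fun h => hno' (h J hJ4 hJ5)⟩) (by omega)
      have h7 : IsPrimitive J ((β ℓ).comp s) ∧
          ∃ g, red ((β ℓ).comp s g) ≠ 1 ∧ red ((β ℓ).comp s g) ^ ℓ = 1 := by
        by_contra hno'
        exact absurd (hN₇ ⟨hℓ, fun h => hno' (h J hJ4 hJ5)⟩) (by omega)
      exact ⟨J, hJ4, hJ5, h7.1, h6, h7.2⟩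
    obtain ⟨h1, h2, N₀, h3⟩ := back_core hfit hn5 hMT hS hs α hα β hβ hBm habs hres
    refine ⟨⟨imt_of_cov hMT (fun ℓ _ => (h1 ℓ).1) Δ hΔ hBm hpres' h2 (N₀ := N₀) (c := cst n) h3,
      fun Δ' hΔ'o hΔ' => ?_⟩, ?_⟩
    swap
    · refine (Set.finite_Iic N₀).subset ?_
      rintro ℓ ⟨hℓ, hno⟩
      rw [Set.mem_Iic]
      by_contra hlt
      exact hno (idx_of_cov hMT (h1 ℓ).1 Δ (hΔ ℓ) hBm (hpres' ℓ) (h3 ℓ (by omega)))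
    haveI : Δ'.FiniteIndex := finIdx_of_open hΔ'o
    have hsub : ∀ (ℓ : ℕ) [Fact ℓ.Prime], Set.range (qrep ((β ℓ).comp s)) ⊆
        Set.range (qrep (β ℓ)) := by
      rintro ℓ _ _ ⟨g, rfl⟩
      exact ⟨s g, rfl⟩
    exact imt_of_cov hMT (fun ℓ _ => (h1 ℓ).2) Δ' hΔ' hBm hpres
      (fun ℓ _ => by
        obtain ⟨C, hC⟩ := h2 ℓ
        exact ⟨C, hC.mono_left (hsub ℓ)⟩) (N₀ := N₀) (c := cst n)
      fun ℓ _ hlt => (h3 ℓ hlt).mono_left (hsub ℓ)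
  -- (1) implies (2)
  have forth : IMT T Bm (fun ℓ _ => tot ((α ℓ).comp s) ((β ℓ).comp s)) Δ →
      (∀ (ℓ : ℕ) [Fact ℓ.Prime], AbsIrr ℓ ((qrep (β ℓ)).comp s)) ∧
      {ℓ | ∃ _ : Fact ℓ.Prime, ¬ ∀ J : Matrix (Fin n) (Fin n) ℤ_[ℓ],
        (∃ c : ℚ_[ℓ], c ≠ 0 ∧ J.map (algebraMap ℤ_[ℓ] ℚ_[ℓ]) = c • T.Q.map (algebraMap ℚ ℚ_[ℓ])) →
        red J ≠ 0 → IsPrimitive J ((β ℓ).comp s) ∧
          ∃ g, red ((β ℓ).comp s g) ≠ 1 ∧ red ((β ℓ).comp s g) ^ ℓ = 1}.Finite := by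
    rintro ⟨C, hC⟩
    constructor
    · intro ℓ hℓ
      have hopen := open_of_idx hMT ((hα ℓ).1.comp hs) (β := (β ℓ).comp s)
        ((hβ ℓ).cont.comp hs) hΔo hBm (hC ℓ)
      have hfull := Pool.Agent.R932.OP.cay ℓ n (GK K) (qrep ((β ℓ).comp s)) _ (qsymm T) (qdet T) hopen
      refine abs_of_mtc (v := (α ℓ).comp s) (β := (β ℓ).comp s) (by omega) hMT ?_
      refine mtc_of_full' hMT ((hα ℓ).1.comp hs)
        ((hα ℓ).2.subset (by rintro _ ⟨g, rfl⟩; exact ⟨s g, rfl⟩)) ((hβ ℓ).cont.comp hs) (hform ℓ) ?_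
      intro X hX
      refine hfull X ?_
      change (T.Q.map (algebraMap ℚ ℚ_[ℓ]) * X)ᵀ = -(T.Q.map (algebraMap ℚ ℚ_[ℓ]) * X)
      rw [transpose_mul, qsymm T]
      exact eq_neg_of_add_eq_zero_left hX
    · refine (Set.finite_Iic (N₂ + N₃ + N₄ + N₅ + C + 5)).subset ?_
      rintro ℓ ⟨hℓ, hno⟩
      rw [Set.mem_Iic]
      by_contra hlt
      refine hno fun J' hJ'1 hJ'2 => ?_
      obtain ⟨Bz, hBz⟩ := hN₂ ℓ (by omega)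
      obtain ⟨Bz', hBz'⟩ := hN₃ ℓ (by omega)
      obtain ⟨J, hJ1, hJ2, hJ3⟩ := hgoodJ ℓ (by omega)
      obtain ⟨h1, h2⟩ := res_of_idx (J := J) hMT (by omega) (by omega) hBm (hC ℓ) hBz hBz' hJ1 hJ2
        hJ3 (by omega)
      refine ⟨?_, h2⟩
      -- the two forms are proportional
      obtain ⟨c, hc, hcJ⟩ := hJ'1
      rw [← hJ3] at hcJ
      have hprop : ∃ u : ℤ_[ℓ], J' = u • J := by
        -- `c` is integral, since the form `J` is unimodular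
        have hJi : J * J⁻¹ = 1 := Matrix.mul_nonsing_inv _ hJ2
        have h3 : (J' * J⁻¹).map (algebraMap ℤ_[ℓ] ℚ_[ℓ]) = c • 1 := by
          rw [Matrix.map_mul, hcJ, smul_mul_assoc, ← Matrix.map_mul, hJi,
            Matrix.map_one _ (map_zero _) (map_one _)]
        have h4 := congrFun (congrFun h3 ⟨0, by omega⟩) ⟨0, by omega⟩
        rw [Matrix.map_apply, Matrix.smul_apply, Matrix.one_apply_eq, smul_eq_mul, mul_one] at h4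
        refine ⟨(J' * J⁻¹) ⟨0, by omega⟩ ⟨0, by omega⟩, ?_⟩
        apply map_inj
        rw [hcJ, ← h4]
        ext i j
        simp
      obtain ⟨u, hu⟩ := hprop
      have hu0 : (toZMod u : ZMod ℓ) ≠ 0 := by
        intro h0
        apply hJ'2
        rw [hu, red_smul, h0, zero_smul]
      intro W hW
      refine h1 W fun g => ?_
      rcases hW g with h3 | h3
      · exact Or.inl h3
      · refine Or.inr fun x hx y hy => ?_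
        have h4 := h3 x hx y hy
        rw [dot_red, hu, red_smul, smul_mulVec, dotProduct_smul, smul_eq_mul] at h4
        rw [dot_red]
        exact (mul_eq_zero.1 h4).resolve_left hu0
  exact ⟨⟨forth, fun h => (back h.1 h.2).1.1⟩, fun h => (back (forth h).1 (forth h).2).1.2,
    fun h => (back (forth h).1 (forth h).2).2⟩

/-- **One prime number.** -/
theorem one_prime {ℓ : ℕ} [Fact ℓ.Prime] {G : Type} [Group G] [TopologicalSpace G] [CompactSpace G]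
    {R : G →* Matrix (Fin n) (Fin n) ℤ_[ℓ]} (hc : Continuous R) (hn0 : 0 < n) (hℓ : cst n ≤ ℓ)
    (hform : ∀ σ, (qm (R σ))ᵀ * T.Q.map (algebraMap ℚ ℚ_[ℓ]) * qm (R σ) =
      T.Q.map (algebraMap ℚ ℚ_[ℓ])) {J : Matrix (Fin n) (Fin n) ℤ_[ℓ]} (h : Res T R J) :
    HasIdx (cst n) (Set.range R) {m : Matrix (Fin n) (Fin n) ℤ_[ℓ] | mᵀ * J * m = J} := by
  obtain ⟨v, hv⟩ := h.refl
  obtain ⟨g, hg1, hg⟩ := h.order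
  obtain ⟨T', hT', hcov⟩ := index_bound hc hn0 hℓ h.symm (h.iso hform) (h.unimod hform) h.prim hv
    hg1 (unip_of_order hg)
  refine ⟨?_, ?_⟩
  · rintro _ ⟨a, rfl⟩
    exact h.iso hform a
  · have h1 : Cov (cst n) (R '' ((⊤ : Subgroup G) : Set G))
        {m : Matrix (Fin n) (Fin n) ℤ_[ℓ] | mᵀ * J * m = J} := by
      refine ⟨T', hT', fun m hm => ?_⟩
      obtain ⟨t, ht, a, ha⟩ := hcov m hm
      exact ⟨t, ht, _, ⟨a, trivial, rfl⟩, ha⟩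
    obtain ⟨T'', h2, h3, h4⟩ := Cov.refine R ⊤ h1
    refine ⟨T'', h2, h3, fun m hm => ?_⟩
    obtain ⟨t, ht, _, ⟨a, -, rfl⟩, h5⟩ := h4 m hm
    exact ⟨t, ht, _, ⟨a, rfl⟩, h5⟩

end

end Pool.Agent.U175.LP
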