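import Mathlib

/-!
# The order of a finite orthogonal group

By the Cayley transformation the order of the orthogonal group of a nondegenerate symmetric form over a
finite field is at most `2 ^ n` times the number of skew matrices.
-/

set_option autoImplicit false
set_option linter.unusedSectionVars false

namespace Pool.Agent.U175.LP

open Matrix Module

noncomputable section

variable {F : Type*} [Field F] {n : ℕ}

/-- Some sum of a sign matrix and a given matrix is invertible. -/
theorem exists_sign (h2 : (2 : F) ≠ 0) : ∀ {n : ℕ} (g : Matrix (Fin n) (Fin n) F),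
    ∃ s : Fin n → F, (∀ i, s i = 1 ∨ s i = -1) ∧ (diagonal s + g).det ≠ 0 := by
  intro n
  induction n with
  | zero =>
    intro g
    exact ⟨fun _ => 1, fun i => i.elim0, by rw [det_fin_zero]; exact one_ne_zero⟩
  | succ n ih =>
    intro g
    obtain ⟨s', hs', hd⟩ := ih (g.submatrix Fin.succ Fin.succ)
    set D := (diagonal s' + g.submatrix Fin.succ Fin.succ).det with hD
    have key : ∀ a : F, (diagonal (Fin.cons a s' : Fin (n + 1) → F) + g).det =
        a * D + (diagonal (Fin.cons 0 s' : Fin (n + 1) → F) + g).det := by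
      intro a
      have hsub : ∀ (a : F) (f : Fin n → Fin (n + 1)),
          (diagonal (Fin.cons a s' : Fin (n + 1) → F) + g).submatrix Fin.succ f =
          (diagonal (Fin.cons 0 s' : Fin (n + 1) → F) + g).submatrix Fin.succ f := by
        intro a f
        ext i k
        rw [submatrix_apply, submatrix_apply, Matrix.add_apply, Matrix.add_apply, diagonal_apply,
          diagonal_apply, Fin.cons_succ, Fin.cons_succ]
      rw [det_succ_row_zero, det_succ_row_zero (diagonal (Fin.cons 0 s' : Fin (n + 1) → F) + g),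
        Fin.sum_univ_succ, Fin.sum_univ_succ]
      have h1 : (diagonal (Fin.cons 0 s' : Fin (n + 1) → F) + g).submatrix Fin.succ
          (Fin.succAbove 0) = diagonal s' + g.submatrix Fin.succ Fin.succ := by
        ext i k
        rw [submatrix_apply, Matrix.add_apply, Matrix.add_apply, submatrix_apply, Fin.succAbove_zero,
          diagonal_apply, diagonal_apply, Fin.cons_succ]
        by_cases hik : i = k
        · rw [if_pos hik, if_pos (by rw [hik])]
        · rw [if_neg hik, if_neg (fun h => hik (Fin.succ_injective n h))]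
      rw [hsub a, h1, ← hD]
      have h3 : ∀ (a : F) (j : Fin n), (diagonal (Fin.cons a s' : Fin (n + 1) → F) + g) 0 j.succ =
          g 0 j.succ := by
        intro a j
        rw [Matrix.add_apply, diagonal_apply, if_neg (Fin.succ_ne_zero j).symm, zero_add]
      have h4 : ∀ a : F, (diagonal (Fin.cons a s' : Fin (n + 1) → F) + g) 0 0 = a + g 0 0 := by
        intro a
        rw [Matrix.add_apply, diagonal_apply, if_pos rfl, Fin.cons_zero]
      have h5 : ∑ j : Fin n, (-1) ^ ((j.succ : Fin (n + 1)) : ℕ) *
          (diagonal (Fin.cons a s' : Fin (n + 1) → F) + g) 0 j.succ *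
          ((diagonal (Fin.cons a s' : Fin (n + 1) → F) + g).submatrix Fin.succ
            j.succ.succAbove).det = ∑ j : Fin n, (-1) ^ ((j.succ : Fin (n + 1)) : ℕ) *
          (diagonal (Fin.cons 0 s' : Fin (n + 1) → F) + g) 0 j.succ *
          ((diagonal (Fin.cons 0 s' : Fin (n + 1) → F) + g).submatrix Fin.succ
            j.succ.succAbove).det := by
        refine Finset.sum_congr rfl fun j _ => ?_
        rw [hsub, h3, h3]
      rw [h5, h4, h4]
      simp only [Fin.val_zero, pow_zero, one_mul]
      ring
    by_cases h0 : (diagonal (Fin.cons 1 s' : Fin (n + 1) → F) + g).det = 0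
    · refine ⟨Fin.cons (-1) s', fun i => ?_, ?_⟩
      · refine Fin.cases ?_ (fun i => ?_) i
        · rw [Fin.cons_zero]
          exact Or.inr rfl
        · rw [Fin.cons_succ]
          exact hs' i
      · intro h1
        rw [key] at h0 h1
        have h3 : (2 : F) * D = 0 := by linear_combination h0 - h1
        rcases mul_eq_zero.1 h3 with h4 | h4
        · exact h2 h4
        · exact hd h4
    · refine ⟨Fin.cons 1 s', fun i => ?_, h0⟩
      refine Fin.cases ?_ (fun i => ?_) i
      · rw [Fin.cons_zero]
        exact Or.inl rfl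
      · rw [Fin.cons_succ]
        exact hs' i

/-- An orthogonal basis. -/
theorem exists_diag (h2 : (2 : F) ≠ 0) {J : Matrix (Fin n) (Fin n) F} (hs : Jᵀ = J) :
    ∃ P : Matrix (Fin n) (Fin n) F, IsUnit P.det ∧ ∃ D : Fin n → F, Pᵀ * J * P = diagonal D := by
  haveI : Invertible (2 : F) := invertibleOfNonzero h2
  set B : LinearMap.BilinForm F (Fin n → F) := Matrix.toLinearMap₂' F J with hB
  have hBa : ∀ x y, B x y = x ⬝ᵥ J *ᵥ y := fun x y => by
    rw [hB, Matrix.toLinearMap₂'_apply']
  have hsymm : LinearMap.IsSymm B := ⟨fun x y => by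
    rw [RingHom.id_apply, hBa, hBa, dotProduct_mulVec, ← mulVec_transpose, hs, dotProduct_comm]⟩
  obtain ⟨v, hv⟩ := LinearMap.BilinForm.exists_orthogonal_basis hsymm
  have hn : finrank F (Fin n → F) = n := finrank_fin_fun F
  set w := v.reindex (finCongr hn) with hw
  refine ⟨(Pi.basisFun F (Fin n)).toMatrix w, ?_, fun i => B (w i) (w i), ?_⟩
  · haveI := (Pi.basisFun F (Fin n)).invertibleToMatrix w
    exact Matrix.isUnit_det_of_invertible _
  · ext i j
    have h1 : (((Pi.basisFun F (Fin n)).toMatrix w)ᵀ * J * (Pi.basisFun F (Fin n)).toMatrix w) i j =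
        B (w i) (w j) := by
      rw [hBa, Matrix.mul_assoc, Matrix.mul_apply, dotProduct]
      refine Finset.sum_congr rfl fun k _ => ?_
      rw [transpose_apply, Basis.toMatrix_apply, Pi.basisFun_repr, Matrix.mul_apply, mulVec,
        dotProduct]
      congr 1
    rw [h1, diagonal_apply]
    split_ifs with hij
    · rw [hij]
    · rw [hw, Basis.reindex_apply, Basis.reindex_apply]
      exact hv (fun h => hij ((finCongr hn).symm.injective h))

/-- **The order of the orthogonal group.** -/
theorem card_orth_le [Fintype F] [DecidableEq F] (h2 : (2 : F) ≠ 0) {J : Matrix (Fin n) (Fin n) F}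
    (hs : Jᵀ = J) (hd : IsUnit J.det) :
    Nat.card {g : Matrix (Fin n) (Fin n) F // gᵀ * J * g = J} ≤
      2 ^ n * Nat.card {X : Matrix (Fin n) (Fin n) F // Xᵀ * J + J * X = 0} := by
  classical
  obtain ⟨P, hP, D, hD⟩ := exists_diag h2 hs
  have hP1 : P * P⁻¹ = 1 := Matrix.mul_nonsing_inv P hP
  have hP2 : P⁻¹ * P = 1 := Matrix.nonsing_inv_mul P hP
  have hPt : (P⁻¹)ᵀ * Pᵀ = 1 := by rw [← transpose_mul, hP1, transpose_one]
  -- the sign matrices
  let sg : (Fin n → Bool) → Fin n → F := fun b i => if b i then 1 else -1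
  let ε : (Fin n → Bool) → Matrix (Fin n) (Fin n) F := fun b => P * diagonal (sg b) * P⁻¹
  have hsg : ∀ b i, sg b i * sg b i = 1 := by
    intro b i
    simp only [sg]
    split_ifs
    · rw [mul_one]
    · rw [neg_mul_neg, mul_one]
  have hε2 : ∀ b, ε b * ε b = 1 := by
    intro b
    simp only [ε]
    calc P * diagonal (sg b) * P⁻¹ * (P * diagonal (sg b) * P⁻¹)
        = P * diagonal (sg b) * (P⁻¹ * P) * diagonal (sg b) * P⁻¹ := by
          simp only [Matrix.mul_assoc]
      _ = P * (diagonal (sg b) * diagonal (sg b)) * P⁻¹ := by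
          rw [hP2, mul_one, Matrix.mul_assoc P]
      _ = 1 := by
          rw [diagonal_mul_diagonal]
          have h1 : (fun i => sg b i * sg b i) = fun _ => (1 : F) := funext (hsg b)
          rw [h1, diagonal_one, mul_one, hP1]
  have hJ' : J = (P⁻¹)ᵀ * diagonal D * P⁻¹ := by
    rw [← hD]
    calc J = ((P⁻¹)ᵀ * Pᵀ) * J * (P * P⁻¹) := by rw [hPt, hP1, one_mul, mul_one]
      _ = _ := by simp only [Matrix.mul_assoc]
  have hεJ : ∀ b, (ε b)ᵀ * J * ε b = J := by
    intro b
    simp only [ε]
    rw [transpose_mul, transpose_mul, diagonal_transpose]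
    calc (P⁻¹)ᵀ * (diagonal (sg b) * Pᵀ) * J * (P * diagonal (sg b) * P⁻¹)
        = (P⁻¹)ᵀ * (diagonal (sg b) * (Pᵀ * J * P) * diagonal (sg b)) * P⁻¹ := by
          simp only [Matrix.mul_assoc]
      _ = J := by
          rw [hD, diagonal_mul_diagonal, diagonal_mul_diagonal]
          have h1 : (fun i => sg b i * D i * sg b i) = D := by
            funext i
            rw [mul_right_comm, hsg, one_mul]
          rw [h1, ← hJ']
  -- choose the sign
  have hch : ∀ g : Matrix (Fin n) (Fin n) F, ∃ b, (1 + ε b * g).det ≠ 0 := by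
    intro g
    obtain ⟨s, hs, hdet⟩ := exists_sign h2 (P⁻¹ * g * P)
    refine ⟨fun i => decide (s i = 1), ?_⟩
    have h1 : sg (fun i => decide (s i = 1)) = s := by
      funext i
      simp only [sg]
      by_cases h : s i = 1
      · rw [if_pos (decide_eq_true h), h]
      · rw [if_neg (by rw [decide_eq_true_eq]; exact h)]
        exact ((hs i).resolve_left h).symm
    have h3 : 1 + ε (fun i => decide (s i = 1)) * g =
        ε (fun i => decide (s i = 1)) * (P * (diagonal s + P⁻¹ * g * P) * P⁻¹) := by
      have h4 : P * (diagonal s + P⁻¹ * g * P) * P⁻¹ = ε (fun i => decide (s i = 1)) + g := by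
        simp only [ε]
        rw [h1, Matrix.mul_add, Matrix.add_mul]
        congr 1
        calc P * (P⁻¹ * g * P) * P⁻¹ = (P * P⁻¹) * g * (P * P⁻¹) := by
              simp only [Matrix.mul_assoc]
          _ = g := by rw [hP1, one_mul, mul_one]
      rw [h4, Matrix.mul_add, hε2]
    rw [h3, det_mul, det_mul (P * (diagonal s + P⁻¹ * g * P)) P⁻¹,
      det_mul P (diagonal s + P⁻¹ * g * P)]
    have h5 : (ε (fun i => decide (s i = 1))).det ≠ 0 := by
      intro h0
      have h6 := congrArg Matrix.det (hε2 (fun i => decide (s i = 1)))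
      rw [det_mul, h0, mul_zero, det_one] at h6
      exact zero_ne_one h6
    have h6 : (P⁻¹).det ≠ 0 := by
      rw [det_nonsing_inv]
      exact (isUnit_ringInverse.2 hP).ne_zero
    exact mul_ne_zero h5 (mul_ne_zero (mul_ne_zero hP.ne_zero hdet) h6)
  choose b hb using hch
  let h : Matrix (Fin n) (Fin n) F → Matrix (Fin n) (Fin n) F := fun g => ε (b g) * g
  let A : Matrix (Fin n) (Fin n) F → Matrix (Fin n) (Fin n) F := fun g =>
    (1 - h g) * (1 + h g)⁻¹
  have hA1 : ∀ g, A g * (1 + h g) = 1 - h g := by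
    intro g
    simp only [A]
    rw [Matrix.mul_assoc, Matrix.nonsing_inv_mul _ (isUnit_iff_ne_zero.2 (hb g)), mul_one]
  have hA2 : ∀ g, (1 + A g) * h g = 1 - A g := by
    intro g
    have h1 := hA1 g
    rw [Matrix.mul_add, mul_one] at h1
    rw [Matrix.add_mul, one_mul, eq_sub_iff_add_eq, add_assoc, add_comm (A g * h g), h1]
    abel
  have hA3 : ∀ g, IsUnit (1 + A g) := by
    intro g
    have h1 : (1 + A g) * (1 + h g) = (2 : F) • 1 := by
      rw [Matrix.add_mul, one_mul, hA1, two_smul]
      abel
    rw [Matrix.isUnit_iff_isUnit_det, isUnit_iff_ne_zero]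
    intro h0
    have h3 := congrArg Matrix.det h1
    rw [det_mul, h0, zero_mul, det_smul, det_one, mul_one] at h3
    exact pow_ne_zero _ h2 h3.symm
  have hskew : ∀ g, gᵀ * J * g = J → (A g)ᵀ * J + J * A g = 0 := by
    intro g hg
    have hh : (h g)ᵀ * J * h g = J := by
      simp only [h]
      rw [transpose_mul]
      calc gᵀ * (ε (b g))ᵀ * J * (ε (b g) * g) = gᵀ * ((ε (b g))ᵀ * J * ε (b g)) * g := by
            simp only [Matrix.mul_assoc]
        _ = J := by rw [hεJ, hg]
    have hU : IsUnit (1 + h g) := (Matrix.isUnit_iff_isUnit_det _).2 (isUnit_iff_ne_zero.2 (hb g))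
    have hUt : IsUnit (1 + h g)ᵀ := by
      rw [Matrix.isUnit_iff_isUnit_det, det_transpose]
      exact isUnit_iff_ne_zero.2 (hb g)
    refine hUt.mul_left_cancel (hU.mul_right_cancel ?_)
    rw [mul_zero, zero_mul]
    have e1 : (1 + h g)ᵀ * (A g)ᵀ = (1 - h g)ᵀ := by rw [← transpose_mul, hA1]
    calc (1 + h g)ᵀ * ((A g)ᵀ * J + J * A g) * (1 + h g)
        = ((1 + h g)ᵀ * (A g)ᵀ) * J * (1 + h g) + (1 + h g)ᵀ * J * (A g * (1 + h g)) := by
          noncomm_ring
      _ = (1 - h g)ᵀ * J * (1 + h g) + (1 + h g)ᵀ * J * (1 - h g) := by rw [e1, hA1]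
      _ = 0 := by
          rw [transpose_sub, transpose_add, transpose_one]
          have e2 : (1 - (h g)ᵀ) * J * (1 + h g) = J + J * h g - (h g)ᵀ * J -
              (h g)ᵀ * J * h g := by
            noncomm_ring
          have e3 : (1 + (h g)ᵀ) * J * (1 - h g) = J - J * h g + (h g)ᵀ * J -
              (h g)ᵀ * J * h g := by
            noncomm_ring
          rw [e2, e3, hh]
          abel
  let Φ : {g : Matrix (Fin n) (Fin n) F // gᵀ * J * g = J} →
      (Fin n → Bool) × {X : Matrix (Fin n) (Fin n) F // Xᵀ * J + J * X = 0} :=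
    fun g => (b g.1, ⟨A g.1, hskew g.1 g.2⟩)
  have hinj : Function.Injective Φ := by
    rintro ⟨g, hg⟩ ⟨g', hg'⟩ heq
    have h1 : b g = b g' := congrArg Prod.fst heq
    have h3 : A g = A g' := congrArg Subtype.val (congrArg Prod.snd heq)
    have h4 : h g = h g' := by
      refine (hA3 g).mul_left_cancel ?_
      rw [hA2, h3, hA2]
    have h5 : ε (b g) * g = ε (b g) * g' := by
      have h6 : ε (b g) * g = ε (b g') * g' := h4
      rw [h6, h1]
    have h6 : g = g' := by
      calc g = ε (b g) * (ε (b g) * g) := by rw [← Matrix.mul_assoc, hε2, one_mul]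
        _ = g' := by rw [h5, ← Matrix.mul_assoc, hε2, one_mul]
    exact Subtype.ext h6
  have h7 := Nat.card_le_card_of_injective Φ hinj
  rw [Nat.card_prod, Nat.card_eq_fintype_card (α := Fin n → Bool), Fintype.card_fun,
    Fintype.card_bool, Fintype.card_fin] at h7
  exact h7

end

end Pool.Agent.U175.LP
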