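import Mathlib
import Pool.Agent.U175.LP.S1
import Pool.Agent.U175.LP.R9

/-!
# Powers of unipotent elements as polynomials, and the order of a finite linear group
-/

set_option autoImplicit false
set_option linter.unusedSectionVars false

namespace Pool.Agent.U175.LP

open Matrix Module

noncomputable section

variable {p : ℕ} [hp : Fact p.Prime]

section bk

open Polynomial

variable (p) in
/-- The binomial coefficient as a polynomial. -/
def bk (k : ℕ) : (ZMod p)[X] := C ((Nat.factorial k : ZMod p)⁻¹) * descPochhammer (ZMod p) k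

theorem fact_ne {k : ℕ} (hk : k < p) : (Nat.factorial k : ZMod p) ≠ 0 := by
  rw [Ne, ZMod.natCast_eq_zero_iff]
  exact fun h => absurd ((Nat.Prime.dvd_factorial hp.out).1 h) (by omega)

theorem bk_eval {k : ℕ} (hk : k < p) (m : ℕ) : (bk p k).eval (m : ZMod p) = (m.choose k : ℕ) := by
  rw [bk, eval_mul, eval_C, descPochhammer_eval_eq_descFactorial,
    Nat.descFactorial_eq_factorial_mul_choose, Nat.cast_mul, ← mul_assoc,
    inv_mul_cancel₀ (fact_ne hk), one_mul]

theorem bk_natDegree (k : ℕ) : (bk p k).natDegree ≤ k := by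
  refine (natDegree_C_mul_le _ _).trans ?_
  rw [descPochhammer_natDegree]

theorem bk_zero : bk p 0 = 1 := by
  rw [bk, descPochhammer_zero, Nat.factorial_zero, Nat.cast_one, inv_one, C_1, one_mul]

theorem bk_coeff_zero {k : ℕ} (hk : k ≠ 0) : (bk p k).coeff 0 = 0 := by
  rw [bk, coeff_C_mul, coeff_zero_eq_eval_zero, descPochhammer_ne_zero_eval_zero _ hk, mul_zero]

theorem bk_coeff_one {k : ℕ} (hk : k ≠ 0) (hkp : k < p) :
    (bk p k).coeff 1 = (-1) ^ (k + 1) * ((k : ℕ) : ZMod p)⁻¹ := by
  have h1 : ∀ k : ℕ, (descPochhammer (ZMod p) (k + 1)).coeff 1 =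
      (-1) ^ k * (Nat.factorial k : ZMod p) := by
    intro k
    induction k with
    | zero => rw [zero_add, descPochhammer_one, coeff_X_one, pow_zero, Nat.factorial_zero,
        Nat.cast_one, mul_one]
    | succ k ih =>
      rw [descPochhammer_succ_right, mul_sub, coeff_sub, coeff_mul_X, ← C_eq_natCast,
        coeff_mul_C, coeff_zero_eq_eval_zero,
        descPochhammer_ne_zero_eval_zero _ (Nat.succ_ne_zero k), ih, Nat.factorial_succ,
        Nat.cast_mul, pow_succ]
      ring
  obtain ⟨k, rfl⟩ := Nat.exists_eq_succ_of_ne_zero hk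
  rw [bk, coeff_C_mul, Nat.succ_eq_add_one, h1, Nat.factorial_succ, Nat.cast_mul, mul_inv]
  have h2 := fact_ne (p := p) (k := k) (by omega)
  have h3 : ((-1 : ZMod p)) ^ (k + 1 + 1) = (-1) ^ k := by
    rw [pow_succ, pow_succ]
    ring
  rw [h3]
  field_simp

end bk

variable {n : ℕ}

theorem pow_eq_zero_of_le' {R : Type*} [Ring R] {a : R} {m k : ℕ} (h : a ^ m = 0) (hk : m ≤ k) :
    a ^ k = 0 := by
  obtain ⟨l, rfl⟩ := Nat.exists_eq_add_of_le hk
  rw [pow_add, h, zero_mul]

/-- Powers of a unipotent matrix. -/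
theorem upow (hn : n ≤ p) {u : Matrix (Fin n) (Fin n) (ZMod p)} (hu : (u - 1) ^ n = 0) (m : ℕ) :
    ∑ k ∈ Finset.range n, (bk p k).eval (m : ZMod p) • (u - 1) ^ k = u ^ m := by
  have h1 : u ^ m = ∑ k ∈ Finset.range (m + 1), (m.choose k : ZMod p) • (u - 1) ^ k := by
    conv_lhs => rw [← sub_add_cancel u 1]
    rw [(Commute.one_right (u - 1)).add_pow]
    refine Finset.sum_congr rfl fun k _ => ?_
    rw [one_pow, mul_one, ← Nat.cast_comm, ← nsmul_eq_mul, Nat.cast_smul_eq_nsmul]
  rw [h1]
  have h2 : ∀ N N' : ℕ, N ≤ N' → (∀ k, N ≤ k → (m.choose k : ZMod p) • (u - 1) ^ k = 0) →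
      ∑ k ∈ Finset.range N, (m.choose k : ZMod p) • (u - 1) ^ k =
      ∑ k ∈ Finset.range N', (m.choose k : ZMod p) • (u - 1) ^ k := by
    intro N N' hN h
    refine Finset.sum_subset (Finset.range_mono hN) fun k _ hk => ?_
    rw [Finset.mem_range, not_lt] at hk
    exact h k hk
  have h3 : ∑ k ∈ Finset.range n, (bk p k).eval (m : ZMod p) • (u - 1) ^ k =
      ∑ k ∈ Finset.range n, (m.choose k : ZMod p) • (u - 1) ^ k := by
    refine Finset.sum_congr rfl fun k hk => ?_
    rw [bk_eval (by rw [Finset.mem_range] at hk; omega)]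
  rw [h3, h2 n (max n (m + 1)) (le_max_left _ _) (fun k hk => by
      rw [pow_eq_zero_of_le' hu hk, smul_zero]),
    h2 (m + 1) (max n (m + 1)) (le_max_right _ _) (fun k hk => by
      rw [Nat.choose_eq_zero_of_lt (by omega), Nat.cast_zero, zero_smul])]

/-- The logarithm as a short sum. -/
theorem nlog_eq (hn : n ≤ p) {u : Matrix (Fin n) (Fin n) (ZMod p)} (hu : (u - 1) ^ n = 0) :
    nlog u = ∑ k ∈ Finset.range n, (bk p k).coeff 1 • (u - 1) ^ k := by
  have h1 : ∑ k ∈ Finset.range n, (bk p k).coeff 1 • (u - 1) ^ k =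
      ∑ k ∈ Finset.range p, (bk p k).coeff 1 • (u - 1) ^ k := by
    refine Finset.sum_subset (Finset.range_mono hn) fun k _ hk => ?_
    rw [Finset.mem_range, not_lt] at hk
    rw [pow_eq_zero_of_le' hu hk, smul_zero]
  rw [h1, nlog, Finset.range_eq_Ico, Finset.sum_eq_sum_Ico_succ_bot hp.out.pos, bk_zero,
    Polynomial.coeff_one, if_neg (by omega), zero_smul, zero_add]
  refine Finset.sum_congr rfl fun k hk => ?_
  rw [Finset.mem_Ico] at hk
  rw [bk_coeff_one (by omega) hk.2]

section mv

open MvPolynomial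

variable {F : Type*} [Field F] {d : ℕ}

/-- All entries are in a power of the ideal of the variables. -/
def MI (k : ℕ) (A : Matrix (Fin n) (Fin n) (MvPolynomial (Fin d) F)) : Prop :=
  ∀ i j, A i j ∈ idealOfVars (Fin d) F ^ k

theorem MI.add {k : ℕ} {A B : Matrix (Fin n) (Fin n) (MvPolynomial (Fin d) F)} (hA : MI k A)
    (hB : MI k B) : MI k (A + B) := fun i j => Ideal.add_mem _ (hA i j) (hB i j)

theorem MI.mul {k l : ℕ} {A B : Matrix (Fin n) (Fin n) (MvPolynomial (Fin d) F)} (hA : MI k A)
    (hB : MI l B) : MI (k + l) (A * B) := by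
  intro i j
  rw [Matrix.mul_apply]
  refine Ideal.sum_mem _ fun m _ => ?_
  rw [pow_add]
  exact Ideal.mul_mem_mul (hA i m) (hB m j)

theorem MI.mono {k l : ℕ} (h : k ≤ l) {A : Matrix (Fin n) (Fin n) (MvPolynomial (Fin d) F)}
    (hA : MI l A) : MI k A := fun i j => Ideal.pow_le_pow_right h (hA i j)

theorem MI.zero' (A : Matrix (Fin n) (Fin n) (MvPolynomial (Fin d) F)) : MI 0 A := by
  intro i j
  rw [pow_zero, Ideal.one_eq_top]
  exact Submodule.mem_top

/-- The linear term. -/
def lin (i : Fin d) (N : Matrix (Fin n) (Fin n) F) :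
    Matrix (Fin n) (Fin n) (MvPolynomial (Fin d) F) := (X i : MvPolynomial (Fin d) F) • N.map C

theorem lin_MI (i : Fin d) (N : Matrix (Fin n) (Fin n) F) : MI 1 (lin i N) := by
  intro a b
  rw [lin, Matrix.smul_apply, smul_eq_mul, pow_one]
  exact Ideal.mul_mem_right _ _ (Ideal.subset_span ⟨i, rfl⟩)

/-- Products of matrices with given linear terms. -/
theorem prod_lin (l : List (Fin d)) (E : Fin d → Matrix (Fin n) (Fin n) (MvPolynomial (Fin d) F))
    (N : Fin d → Matrix (Fin n) (Fin n) F) (hE : ∀ i, MI 2 (E i - (1 + lin i (N i)))) :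
    MI 2 ((l.map E).prod - (1 + (l.map fun i => lin i (N i)).sum)) ∧
      MI 1 ((l.map fun i => lin i (N i)).sum) := by
  induction l with
  | nil =>
    simp only [List.map_nil, List.prod_nil, List.sum_nil]
    refine ⟨fun i j => ?_, fun i j => ?_⟩
    · rw [add_zero, sub_self, Matrix.zero_apply]
      exact zero_mem _
    · rw [Matrix.zero_apply]
      exact zero_mem _
  | cons i l ih =>
    obtain ⟨h1, h2⟩ := ih
    simp only [List.map_cons, List.prod_cons, List.sum_cons]
    set P := (l.map E).prod
    set S := (l.map fun i => lin i (N i)).sum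
    set a := lin i (N i)
    have ha : MI 1 a := lin_MI i (N i)
    refine ⟨?_, ha.add h2⟩
    have key : E i * P - (1 + (a + S)) = (E i - (1 + a)) * P + (P - (1 + S)) +
        a * (P - (1 + S)) + a * S := by
      noncomm_ring
    rw [key]
    refine MI.add (MI.add (MI.add ?_ h1) ?_) ?_
    · exact (hE i).mul (MI.zero' P)
    · exact MI.mono (by omega) (ha.mul h1)
    · exact ha.mul h2

end mv

section grp

open MvPolynomial

variable {d : ℕ}

/-- The matrix of polynomials whose values are the powers of `u`. -/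
def EP (u : Matrix (Fin n) (Fin n) (ZMod p)) (i : Fin d) :
    Matrix (Fin n) (Fin n) (MvPolynomial (Fin d) (ZMod p)) :=
  ∑ k ∈ Finset.range n, (Polynomial.aeval (X i : MvPolynomial (Fin d) (ZMod p)) (bk p k)) •
    ((u - 1) ^ k).map C

theorem EP_eval (hn : n ≤ p) {u : Matrix (Fin n) (Fin n) (ZMod p)} (hu : (u - 1) ^ n = 0)
    (i : Fin d) (t : Fin d → ZMod p) : (EP u i).map (eval t) = u ^ (t i).val := by
  rw [← upow hn hu]
  ext a b
  rw [Matrix.map_apply, EP, Matrix.sum_apply, Matrix.sum_apply, map_sum]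
  refine Finset.sum_congr rfl fun k _ => ?_
  rw [Matrix.smul_apply, Matrix.smul_apply, smul_eq_mul, smul_eq_mul, map_mul, Matrix.map_apply,
    eval_C, ZMod.natCast_zmod_val]
  congr 1
  have h1 := Polynomial.hom_eval₂ (bk p k) (algebraMap (ZMod p) (MvPolynomial (Fin d) (ZMod p)))
    (eval t) (X i)
  rw [Polynomial.aeval_def, h1, eval_X]
  have h2 : (eval t).comp (algebraMap (ZMod p) (MvPolynomial (Fin d) (ZMod p))) =
      RingHom.id _ := by
    refine RingHom.ext fun x => ?_
    rw [RingHom.comp_apply, algebraMap_eq, eval_C]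
    rfl
  rw [h2, Polynomial.eval₂_id]

theorem EP_lin (hn0 : 0 < n) (hn : n ≤ p) {u : Matrix (Fin n) (Fin n) (ZMod p)}
    (hu : (u - 1) ^ n = 0) (i : Fin d) : MI 2 (EP u i - (1 + lin i (nlog u))) := by
  have key : EP u i - (1 + lin i (nlog u)) = ∑ k ∈ Finset.range n,
      ((X i : MvPolynomial (Fin d) (ZMod p)) ^ 2 * Polynomial.aeval (X i) (bk p k).divX.divX) •
        ((u - 1) ^ k).map C := by
    have h0 : (1 : Matrix (Fin n) (Fin n) (MvPolynomial (Fin d) (ZMod p))) =
        ∑ k ∈ Finset.range n, (C ((bk p k).coeff 0) : MvPolynomial (Fin d) (ZMod p)) •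
          ((u - 1) ^ k).map C := by
      rw [Finset.sum_eq_single_of_mem 0 (Finset.mem_range.2 hn0) (fun k _ hk => by
        rw [bk_coeff_zero hk, C_0, zero_smul]), bk_zero, Polynomial.coeff_one_zero, C_1, one_smul,
        pow_zero, Matrix.map_one _ C_0 C_1]
    have h1 : lin i (nlog u) = ∑ k ∈ Finset.range n,
        ((X i : MvPolynomial (Fin d) (ZMod p)) * C ((bk p k).coeff 1)) •
          ((u - 1) ^ k).map C := by
      rw [lin, nlog_eq hn hu]
      ext a b
      simp only [Matrix.smul_apply, Matrix.map_apply, Matrix.sum_apply, smul_eq_mul, map_sum,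
        map_mul, Finset.mul_sum, mul_assoc]
    rw [h0, h1, EP, ← Finset.sum_add_distrib, ← Finset.sum_sub_distrib]
    refine Finset.sum_congr rfl fun k _ => ?_
    rw [← add_smul, ← sub_smul]
    congr 1
    have h2 : bk p k = (bk p k).divX.divX * Polynomial.X ^ 2 +
        Polynomial.C ((bk p k).coeff 1) * Polynomial.X + Polynomial.C ((bk p k).coeff 0) := by
      have e1 := Polynomial.divX_mul_X_add (bk p k)
      have e2 := Polynomial.divX_mul_X_add (bk p k).divX
      rw [Polynomial.coeff_divX] at e2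
      calc bk p k = (bk p k).divX * Polynomial.X + Polynomial.C ((bk p k).coeff 0) := e1.symm
        _ = ((bk p k).divX.divX * Polynomial.X + Polynomial.C ((bk p k).coeff (0 + 1))) *
            Polynomial.X + Polynomial.C ((bk p k).coeff 0) := by rw [e2]
        _ = _ := by ring
    have h3 := congrArg (Polynomial.aeval (X i : MvPolynomial (Fin d) (ZMod p))) h2
    rw [map_add, map_add, map_mul, map_mul, map_pow, Polynomial.aeval_X, Polynomial.aeval_C,
      Polynomial.aeval_C, algebraMap_eq] at h3
    rw [h3]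
    ring
  rw [key]
  intro a b
  rw [Matrix.sum_apply]
  refine Ideal.sum_mem _ fun k _ => ?_
  rw [Matrix.smul_apply, smul_eq_mul]
  refine Ideal.mul_mem_right _ _ (Ideal.mul_mem_right _ _ ?_)
  have h5 : (X i : MvPolynomial (Fin d) (ZMod p)) ∈ idealOfVars (Fin d) (ZMod p) :=
    Ideal.subset_span ⟨i, rfl⟩
  exact Ideal.pow_mem_pow h5 2

theorem EP_deg (u : Matrix (Fin n) (Fin n) (ZMod p)) (i : Fin d) (a b : Fin n) :
    (EP u i a b).totalDegree ≤ n := by
  rw [EP, Matrix.sum_apply]
  refine totalDegree_finsetSum_le fun k hk => ?_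
  rw [Finset.mem_range] at hk
  rw [Matrix.smul_apply, smul_eq_mul, Matrix.map_apply]
  refine (totalDegree_mul _ _).trans ?_
  rw [totalDegree_C, add_zero, Polynomial.aeval_eq_sum_range]
  refine totalDegree_finsetSum_le fun j hj => ?_
  rw [Finset.mem_range] at hj
  refine (totalDegree_smul_le _ _).trans ?_
  refine (totalDegree_pow _ _).trans ?_
  rw [totalDegree_X, mul_one]
  have := bk_natDegree (p := p) k
  omega

theorem prod_deg (l : List (Fin d)) (u : Fin d → Matrix (Fin n) (Fin n) (ZMod p)) (a b : Fin n) :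
    ((l.map fun i => EP (u i) i).prod a b).totalDegree ≤ l.length * n := by
  induction l generalizing a b with
  | nil =>
    rw [List.map_nil, List.prod_nil, Matrix.one_apply]
    split_ifs <;> simp
  | cons i l ih =>
    rw [List.map_cons, List.prod_cons, Matrix.mul_apply]
    refine totalDegree_finsetSum_le fun k _ => ?_
    refine (totalDegree_mul _ _).trans ?_
    have h1 := EP_deg (u i) i a k
    have h2 := ih k b
    rw [List.length_cons]
    calc _ ≤ n + l.length * n := Nat.add_le_add h1 h2
      _ = (l.length + 1) * n := by ring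

/-- **The order of a finite linear group** is large if there are `d` unipotent elements with linearly
independent logarithms. -/
theorem card_ge (hn0 : 0 < n) {M : ℕ} (H : Submonoid (Matrix (Fin n) (Fin n) (ZMod p)))
    (u : Fin d → Matrix (Fin n) (Fin n) (ZMod p)) (hH : ∀ i, u i ∈ H)
    (hu : ∀ i, (u i - 1) ^ n = 0) (hli : LinearIndependent (ZMod p) fun i => nlog (u i))
    (hn : n ≤ p) (hM : (M * (1 + d * (d * n)) + 1) ^ d < (M + 1) ^ (d + 1))
    (hq : M * (1 + d * (d * n)) < p) :
    p ^ (d + 1) ≤ p * (M ^ d * Nat.card H) + d * (M * d * (d * n)) * p ^ d := by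
  classical
  obtain ⟨φ, hφ⟩ : ∃ φ : Fin d → (Matrix (Fin n) (Fin n) (ZMod p) →ₗ[ZMod p] ZMod p),
      ∀ j i, φ j (nlog (u i)) = if i = j then 1 else 0 := by
    have h1 : ∀ j : Fin d, ∃ φ : Matrix (Fin n) (Fin n) (ZMod p) →ₗ[ZMod p] ZMod p,
        ∀ i, φ (nlog (u i)) = if i = j then 1 else 0 := by
      intro j
      obtain ⟨φ, hφ⟩ := LinearMap.exists_extend
        ((Finsupp.lapply j : (Fin d →₀ ZMod p) →ₗ[ZMod p] ZMod p).comp hli.repr)
      refine ⟨φ, fun i => ?_⟩
      have hmem : nlog (u i) ∈ Submodule.span (ZMod p) (Set.range fun i => nlog (u i)) :=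
        Submodule.subset_span ⟨i, rfl⟩
      have h2 := LinearMap.congr_fun hφ ⟨nlog (u i), hmem⟩
      have h3 : φ (nlog (u i)) = hli.repr ⟨nlog (u i), hmem⟩ j := h2
      rw [h3, hli.repr_eq_single i ⟨nlog (u i), hmem⟩ rfl, Finsupp.single_apply]
    choose φ hφ using h1
    exact ⟨φ, hφ⟩
  set P := ((List.finRange d).map fun i => EP (u i) i).prod with hP
  let g : Fin d → MvPolynomial (Fin d) (ZMod p) := fun j =>
    ∑ a, ∑ b, C (φ j (Matrix.single a b 1)) * (P - 1) a b
  have hφ' : ∀ j (A : Matrix (Fin n) (Fin n) (ZMod p)), φ j A =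
      ∑ a, ∑ b, φ j (Matrix.single a b 1) * A a b := by
    intro j A
    conv_lhs => rw [Matrix.matrix_eq_sum_single A]
    rw [map_sum]
    refine Finset.sum_congr rfl fun a _ => ?_
    rw [map_sum]
    refine Finset.sum_congr rfl fun b _ => ?_
    have h1 : Matrix.single a b (A a b) = A a b • Matrix.single a b (1 : ZMod p) := by
      rw [Matrix.smul_single, smul_eq_mul, mul_one]
    rw [h1, map_smul, smul_eq_mul, mul_comm]
  have hPev : ∀ t : Fin d → ZMod p, P.map (eval t) =
      ((List.finRange d).map fun i => u i ^ (t i).val).prod := by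
    intro t
    have h1 := map_list_prod ((eval t).mapMatrix (m := Fin n))
      ((List.finRange d).map fun i => EP (u i) i)
    rw [RingHom.mapMatrix_apply] at h1
    rw [hP, h1, List.map_map]
    congr 1
    refine List.map_congr_left fun i _ => ?_
    rw [Function.comp_apply, RingHom.mapMatrix_apply]
    exact EP_eval hn (hu i) i t
  have hgev : ∀ t j, eval t (g j) = φ j (P.map (eval t) - 1) := by
    intro t j
    rw [hφ']
    simp only [g]
    rw [map_sum]
    refine Finset.sum_congr rfl fun a _ => ?_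
    rw [map_sum]
    refine Finset.sum_congr rfl fun b _ => ?_
    rw [map_mul, eval_C, Matrix.sub_apply, Matrix.sub_apply, map_sub, Matrix.map_apply,
      Matrix.one_apply, Matrix.one_apply]
    congr 2
    split_ifs
    · rw [map_one]
    · rw [map_zero]
  have hglin : ∀ j, g j - X j ∈ idealOfVars (Fin d) (ZMod p) ^ 2 := by
    intro j
    have h1 := (prod_lin (List.finRange d) (fun i => EP (u i) i) (fun i => nlog (u i))
      (fun i => EP_lin hn0 hn (hu i) i)).1
    rw [← hP] at h1
    set S := ((List.finRange d).map fun i => lin i (nlog (u i))).sum with hS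
    have h2 : g j - X j = ∑ a, ∑ b, C (φ j (Matrix.single a b 1)) * (P - (1 + S)) a b := by
      have h3 : (X j : MvPolynomial (Fin d) (ZMod p)) =
          ∑ a, ∑ b, C (φ j (Matrix.single a b 1)) * S a b := by
        have h4 : ∀ a b, S a b = ∑ i, X i * C (nlog (u i) a b) := by
          intro a b
          rw [hS, ← List.ofFn_eq_map, List.sum_ofFn, Matrix.sum_apply]
          refine Finset.sum_congr rfl fun i _ => ?_
          rw [lin, Matrix.smul_apply, smul_eq_mul, Matrix.map_apply]
        calc (X j : MvPolynomial (Fin d) (ZMod p)) = ∑ i, X i * C (φ j (nlog (u i))) := by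
              rw [Finset.sum_eq_single j]
              · rw [hφ, if_pos rfl, C_1, mul_one]
              · intro i _ hne
                rw [hφ, if_neg hne, C_0, mul_zero]
              · intro h
                exact absurd (Finset.mem_univ _) h
          _ = ∑ i, ∑ a, ∑ b, C (φ j (Matrix.single a b 1)) * (X i * C (nlog (u i) a b)) := by
              refine Finset.sum_congr rfl fun i _ => ?_
              rw [hφ' j (nlog (u i)), map_sum, Finset.mul_sum]
              refine Finset.sum_congr rfl fun a _ => ?_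
              rw [map_sum, Finset.mul_sum]
              refine Finset.sum_congr rfl fun b _ => ?_
              rw [map_mul]
              ring
          _ = _ := by
              rw [Finset.sum_comm]
              refine Finset.sum_congr rfl fun a _ => ?_
              rw [Finset.sum_comm]
              refine Finset.sum_congr rfl fun b _ => ?_
              rw [h4, Finset.mul_sum]
      conv_lhs => rw [h3]
      simp only [g]
      rw [← Finset.sum_sub_distrib]
      refine Finset.sum_congr rfl fun a _ => ?_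
      rw [← Finset.sum_sub_distrib]
      refine Finset.sum_congr rfl fun b _ => ?_
      rw [← mul_sub, ← Matrix.sub_apply, sub_sub]
    rw [h2]
    refine Ideal.sum_mem _ fun a _ => Ideal.sum_mem _ fun b _ => ?_
    exact Ideal.mul_mem_left _ _ (h1 a b)
  have hgdeg : ∀ j, (g j).totalDegree ≤ d * n := by
    intro j
    simp only [g]
    refine totalDegree_finsetSum_le fun a _ => totalDegree_finsetSum_le fun b _ => ?_
    refine (totalDegree_mul _ _).trans ?_
    rw [totalDegree_C, zero_add, Matrix.sub_apply]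
    refine (totalDegree_sub _ _).trans ?_
    refine max_le ?_ ?_
    · have h1 := prod_deg (List.finRange d) u a b
      rw [List.length_finRange] at h1
      exact h1
    · rw [Matrix.one_apply]
      split_ifs <;> simp
  have hmain := card_values (F := ZMod p) g hgdeg hM (by rw [ZMod.card]; exact hq) hglin
  rw [ZMod.card] at hmain
  refine hmain.trans (Nat.add_le_add_right (Nat.mul_le_mul_left _ (Nat.mul_le_mul_left _ ?_)) _)
  -- the values come from elements of the group
  have hsub : (Finset.univ.image fun (t : Fin d → ZMod p) j => eval t (g j)) ⊆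
      (Finset.univ : Finset H).image fun (h : H) j =>
        φ j ((h : Matrix (Fin n) (Fin n) (ZMod p)) - 1) := by
    intro y hy
    obtain ⟨t, -, rfl⟩ := Finset.mem_image.1 hy
    refine Finset.mem_image.2 ⟨⟨P.map (eval t), ?_⟩, Finset.mem_univ _, ?_⟩
    · rw [hPev]
      refine Submonoid.list_prod_mem _ fun x hx => ?_
      obtain ⟨i, -, rfl⟩ := List.mem_map.1 hx
      exact Submonoid.pow_mem _ (hH i) _
    · funext j
      exact (hgev t j).symm
  calc _ ≤ ((Finset.univ : Finset H).image fun (h : H) j =>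
        φ j ((h : Matrix (Fin n) (Fin n) (ZMod p)) - 1)).card := Finset.card_le_card hsub
    _ ≤ (Finset.univ : Finset H).card := Finset.card_image_le
    _ = Nat.card H := by rw [Finset.card_univ, Nat.card_eq_fintype_card]

end grp

end

end Pool.Agent.U175.LP
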