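import Mathlib
import Pool.Agent.U175.LP.S3
import Pool.Agent.U175.LP.R17

/-!
# The span of the logarithms of unipotent elements
-/

set_option autoImplicit false
set_option linter.unusedSectionVars false

namespace Pool.Agent.U175.LP

open PadicInt Module Matrix Filter Topology Pool.Agent.U175.LP.Pub Pool.Agent.Y142.ZO

noncomputable section

variable {p : ℕ} [hp : Fact p.Prime] {n : ℕ} {Γ : Type} [Group Γ]
  {R : Γ →* Matrix (Fin n) (Fin n) ℤ_[p]} {J : Matrix (Fin n) (Fin n) ℤ_[p]}

/-- Polynomial families with values in a subspace have coefficients in the subspace. -/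
theorem coeff_mem {V : Type*} [AddCommGroup V] [Module (ZMod p) V] (W : Submodule (ZMod p) V)
    {ι : Type*} (s : Finset ι) (q : ι → Polynomial (ZMod p)) (hq : ∀ i ∈ s, (q i).natDegree < p)
    (v : ι → V) (h : ∀ t : ZMod p, ∑ i ∈ s, (q i).eval t • v i ∈ W) (m : ℕ) :
    ∑ i ∈ s, (q i).coeff m • v i ∈ W := by
  classical
  rw [← Submodule.Quotient.mk_eq_zero, ← Module.forall_dual_apply_eq_zero_iff (ZMod p)]
  intro φ
  set f : Polynomial (ZMod p) := ∑ i ∈ s, q i * Polynomial.C (φ (W.mkQ (v i))) with hf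
  have h1 : f = 0 := by
    by_contra hf0
    have h2 : (Finset.univ : Finset (ZMod p)) ⊆ f.roots.toFinset := by
      intro t _
      rw [Multiset.mem_toFinset, Polynomial.mem_roots hf0, Polynomial.IsRoot.def, hf,
        Polynomial.eval_finsetSum]
      have h3 := (Submodule.Quotient.mk_eq_zero W).2 (h t)
      have h4 : φ (W.mkQ (∑ i ∈ s, (q i).eval t • v i)) = 0 := by
        rw [Submodule.mkQ_apply, h3, map_zero]
      rw [map_sum, map_sum] at h4
      rw [← h4]
      refine Finset.sum_congr rfl fun i _ => ?_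
      rw [Polynomial.eval_mul, Polynomial.eval_C, map_smul, map_smul, smul_eq_mul]
    have h3 := Finset.card_le_card h2
    rw [Finset.card_univ, ZMod.card] at h3
    have h4 : f.natDegree < p := by
      refine lt_of_le_of_lt (Polynomial.natDegree_sum_le_of_forall_le (n := p - 1) _ _ fun i hi => ?_)
        (by have := hp.out.pos; omega)
      refine (Polynomial.natDegree_mul_C_le _ _).trans ?_
      have := hq i hi
      omega
    have h5 := (f.roots.toFinset_card_le).trans (Polynomial.card_roots' f)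
    omega
  have h2 : f.coeff m = 0 := by rw [h1, Polynomial.coeff_zero]
  rw [hf, Polynomial.finsetSum_coeff] at h2
  have h3 : φ (W.mkQ (∑ i ∈ s, (q i).coeff m • v i)) = 0 := by
    rw [map_sum, map_sum, ← h2]
    refine Finset.sum_congr rfl fun i _ => ?_
    rw [Polynomial.coeff_mul_C, map_smul, map_smul, smul_eq_mul]
  exact h3

section lie

variable {u u' : Matrix (Fin n) (Fin n) (ZMod p)}

theorem inv_unip (h : u * u' = 1) (hu : (u - 1) ^ n = 0) : (u' - 1) ^ n = 0 := by
  have h' : u' * u = 1 := mul_eq_one_comm.1 h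
  have h1 : u' - 1 = -(u' * (u - 1)) := by
    rw [mul_sub, h', mul_one]
    abel
  have hc : Commute u' (u - 1) := by
    change u' * (u - 1) = (u - 1) * u'
    rw [mul_sub, sub_mul, h, h', mul_one, one_mul]
  rw [h1, neg_pow, hc.mul_pow, hu, mul_zero, mul_zero]

theorem bkm_deg {k l : ℕ} (hn : 2 * n ≤ p) (hk : k < n) (hl : l < n) :
    (bk p k * bk p l).natDegree < p := by
  refine lt_of_le_of_lt Polynomial.natDegree_mul_le ?_
  have h1 := bk_natDegree (p := p) k
  have h2 := bk_natDegree (p := p) l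
  omega

theorem bkm_coeff (k l : ℕ) : (bk p k * bk p l).coeff 1 =
    (bk p k).coeff 0 * (bk p l).coeff 1 + (bk p k).coeff 1 * (bk p l).coeff 0 := by
  rw [Polynomial.coeff_mul, Finset.Nat.antidiagonal_succ]
  simp

theorem bk_c0 (k : ℕ) : (bk p k).coeff 0 = if k = 0 then 1 else 0 := by
  split_ifs with h
  · rw [h, bk_zero, Polynomial.coeff_one_zero]
  · exact bk_coeff_zero h

theorem sum_c0 (hn0 : 0 < n) (v : Matrix (Fin n) (Fin n) (ZMod p)) :
    ∑ k ∈ Finset.range n, (bk p k).coeff 0 • v ^ k = 1 := by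
  rw [Finset.sum_eq_single_of_mem 0 (Finset.mem_range.2 hn0) (fun k _ hk => by
    rw [bk_coeff_zero hk, zero_smul]), bk_zero, Polynomial.coeff_one_zero, one_smul, pow_zero]

/-- The derivative of a conjugation. -/
theorem conj_deriv (hn0 : 0 < n) (hn : 2 * n ≤ p) (h : u * u' = 1) (hu : (u - 1) ^ n = 0)
    (W : Submodule (ZMod p) (Matrix (Fin n) (Fin n) (ZMod p))) {X : Matrix (Fin n) (Fin n) (ZMod p)}
    (hW : ∀ m : ℕ, u ^ m * X * u' ^ m ∈ W) : nlog u * X + X * nlog u' ∈ W := by
  have hu' := inv_unip h hu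
  have h1 := coeff_mem W (Finset.range n ×ˢ Finset.range n)
    (fun kl => bk p kl.1 * bk p kl.2) (fun kl hkl => by
      rw [Finset.mem_product, Finset.mem_range, Finset.mem_range] at hkl
      exact bkm_deg hn hkl.1 hkl.2) (fun kl => (u - 1) ^ kl.1 * X * (u' - 1) ^ kl.2) (fun t => by
      have h2 := hW t.val
      rw [← upow (by omega : n ≤ p) hu, ← upow (by omega : n ≤ p) hu', ZMod.natCast_zmod_val,
        Finset.sum_mul, Finset.sum_mul_sum] at h2
      rw [Finset.sum_product]
      convert h2 using 1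
      refine Finset.sum_congr rfl fun k _ => Finset.sum_congr rfl fun l _ => ?_
      rw [Polynomial.eval_mul, smul_mul_assoc, smul_mul_assoc, mul_smul_comm, smul_smul]) 1
  convert h1 using 1
  rw [Finset.sum_product]
  have h3 : ∀ k l, (bk p k * bk p l).coeff 1 • ((u - 1) ^ k * X * (u' - 1) ^ l) =
      ((bk p k).coeff 0 • (u - 1) ^ k) * X * ((bk p l).coeff 1 • (u' - 1) ^ l) +
      ((bk p k).coeff 1 • (u - 1) ^ k) * X * ((bk p l).coeff 0 • (u' - 1) ^ l) := by
    intro k l
    rw [bkm_coeff, add_smul]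
    congr 1
    · rw [smul_mul_assoc, smul_mul_assoc, mul_smul_comm, smul_smul]
    · rw [smul_mul_assoc, smul_mul_assoc, mul_smul_comm, smul_smul]
  simp only [h3, Finset.sum_add_distrib]
  rw [← Finset.sum_mul_sum, ← Finset.sum_mul_sum, ← Finset.sum_mul, ← Finset.sum_mul,
    sum_c0 hn0, sum_c0 hn0, ← nlog_eq (by omega : n ≤ p) hu, ← nlog_eq (by omega : n ≤ p) hu',
    one_mul, mul_one, add_comm]

theorem nlog_inv (hn0 : 0 < n) (hn : 2 * n ≤ p) (h : u * u' = 1) (hu : (u - 1) ^ n = 0) :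
    nlog u' = -nlog u := by
  -- the difference with the identity
  have hu' := inv_unip h hu
  have h1 := coeff_mem (⊥ : Submodule (ZMod p) (Matrix (Fin n) (Fin n) (ZMod p)))
    (insert none (((Finset.range n ×ˢ Finset.range n)).map Function.Embedding.some))
    (fun kl => match kl with
      | none => (-1 : Polynomial (ZMod p))
      | some kl => bk p kl.1 * bk p kl.2) (fun kl hkl => by
        rcases kl with _ | ⟨k, l⟩
        · rw [Polynomial.natDegree_neg, Polynomial.natDegree_one]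
          exact hp.out.pos
        · simp only [Finset.mem_insert, reduceCtorEq, Finset.mem_map, Finset.mem_product,
            Finset.mem_range, Function.Embedding.some_apply, Option.some.injEq, Prod.exists,
            false_or] at hkl
          obtain ⟨a, b, ⟨ha, hb⟩, hab⟩ := hkl
          obtain ⟨rfl, rfl⟩ := Prod.mk.inj hab
          exact bkm_deg hn ha hb)
    (fun kl => match kl with
      | none => 1
      | some kl => (u - 1) ^ kl.1 * (u' - 1) ^ kl.2) (fun t => by
      rw [Submodule.mem_bot, Finset.sum_insert (by simp), Finset.sum_map]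
      simp only [Function.Embedding.some_apply]
      rw [Finset.sum_product]
      have h2 : u ^ t.val * u' ^ t.val = 1 := by
        have hc : Commute u u' := by
          change u * u' = u' * u
          rw [h, mul_eq_one_comm.1 h]
        rw [← hc.mul_pow, h, one_pow]
      rw [← upow (by omega : n ≤ p) hu, ← upow (by omega : n ≤ p) hu', ZMod.natCast_zmod_val,
        Finset.sum_mul_sum] at h2
      have h3 : ∑ k ∈ Finset.range n, ∑ l ∈ Finset.range n,
          Polynomial.eval t (bk p k * bk p l) • ((u - 1) ^ k * (u' - 1) ^ l) = 1 := by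
        refine Eq.trans (Finset.sum_congr rfl fun k _ => Finset.sum_congr rfl fun l _ => ?_) h2
        rw [Polynomial.eval_mul, smul_mul_smul_comm]
      rw [h3, Polynomial.eval_neg, Polynomial.eval_one, neg_one_smul, neg_add_cancel]) 1
  rw [Submodule.mem_bot, Finset.sum_insert (by simp), Finset.sum_map] at h1
  simp only [Function.Embedding.some_apply] at h1
  rw [Finset.sum_product, Polynomial.coeff_neg, Polynomial.coeff_one, if_neg (by omega), neg_zero,
    zero_smul, zero_add] at h1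
  have h3 : ∀ k l, (bk p k * bk p l).coeff 1 • ((u - 1) ^ k * (u' - 1) ^ l) =
      ((bk p k).coeff 0 • (u - 1) ^ k) * ((bk p l).coeff 1 • (u' - 1) ^ l) +
      ((bk p k).coeff 1 • (u - 1) ^ k) * ((bk p l).coeff 0 • (u' - 1) ^ l) := by
    intro k l
    rw [bkm_coeff, add_smul, smul_mul_smul_comm, smul_mul_smul_comm]
  simp only [h3, Finset.sum_add_distrib] at h1
  rw [← Finset.sum_mul_sum, ← Finset.sum_mul_sum, sum_c0 hn0, sum_c0 hn0,
    ← nlog_eq (by omega : n ≤ p) hu, ← nlog_eq (by omega : n ≤ p) hu', one_mul, mul_one] at h1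
  exact eq_neg_of_add_eq_zero_left h1

end lie

variable (R) in
/-- The span of the logarithms of the unipotent elements of the image modulo `p`. -/
def LU : Submodule (ZMod p) (Matrix (Fin n) (Fin n) (ZMod p)) :=
  Submodule.span (ZMod p) {X | ∃ g, (red (R g) - 1) ^ n = 0 ∧ X = nlog (red (R g))}

theorem conj_sub_pow {F : Type*} [Field F] {c c' : Matrix (Fin n) (Fin n) F} (h : c' * c = 1)
    (u : Matrix (Fin n) (Fin n) F) (k : ℕ) : (c * u * c' - 1) ^ k = c * (u - 1) ^ k * c' := by
  have h' : c * c' = 1 := mul_eq_one_comm.1 h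
  have h1 : c * u * c' - 1 = c * (u - 1) * c' := by
    rw [Matrix.mul_sub, Matrix.sub_mul, Matrix.mul_one, h']
  rw [h1]
  induction k with
  | zero => rw [pow_zero, pow_zero, Matrix.mul_one, h']
  | succ k ih =>
    rw [pow_succ, ih, pow_succ]
    calc c * (u - 1) ^ k * c' * (c * (u - 1) * c') = c * (u - 1) ^ k * (c' * c) * (u - 1) * c' := by
          simp only [Matrix.mul_assoc]
      _ = _ := by rw [h, Matrix.mul_one, Matrix.mul_assoc c]

theorem LU_conj (a : Γ) {X : Matrix (Fin n) (Fin n) (ZMod p)} (hX : X ∈ LU R) :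
    red (R a) * X * red (R a⁻¹) ∈ LU R := by
  induction hX using Submodule.span_induction with
  | mem X hX =>
    obtain ⟨g, hg, rfl⟩ := hX
    have h1 : red (R (a * g * a⁻¹)) = red (R a) * red (R g) * red (R a⁻¹) := by
      rw [map_mul, map_mul, red_mul, red_mul]
    have h2 : red (R a⁻¹) * red (R a) = 1 := red_inv_mul a
    refine Submodule.subset_span ⟨a * g * a⁻¹, ?_, ?_⟩
    · rw [h1, conj_sub_pow h2, hg, Matrix.mul_zero, Matrix.zero_mul]
    · rw [h1, nlog, nlog, Finset.mul_sum, Finset.sum_mul]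
      refine Finset.sum_congr rfl fun j _ => ?_
      rw [conj_sub_pow h2, Matrix.mul_smul, Matrix.smul_mul]
  | zero => rw [Matrix.mul_zero, Matrix.zero_mul]; exact Submodule.zero_mem _
  | add X Y _ _ h h' => rw [Matrix.mul_add, Matrix.add_mul]; exact Submodule.add_mem _ h h'
  | smul c X _ h => rw [Matrix.mul_smul, Matrix.smul_mul]; exact Submodule.smul_mem _ _ h

theorem LU_lie (hn0 : 0 < n) (hn : 2 * n ≤ p) {X Y : Matrix (Fin n) (Fin n) (ZMod p)}
    (hX : X ∈ LU R) (hY : Y ∈ LU R) : X * Y - Y * X ∈ LU R := by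
  induction hX using Submodule.span_induction with
  | mem X hX =>
    obtain ⟨g, hg, rfl⟩ := hX
    have h2 : red (R g) * red (R g⁻¹) = 1 := red_mul_inv g
    have h1 := conj_deriv hn0 hn h2 hg (LU R) (X := Y) (fun m => by
      have h3 := LU_conj (g ^ m) hY
      rwa [map_pow, red_pow, ← inv_pow, map_pow, red_pow] at h3)
    rwa [nlog_inv hn0 hn h2 hg, Matrix.mul_neg, ← sub_eq_add_neg] at h1
  | zero => rw [Matrix.mul_zero, Matrix.zero_mul, sub_zero]; exact Submodule.zero_mem _
  | add X X' _ _ h h' =>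
    have h1 : (X + X') * Y - Y * (X + X') = (X * Y - Y * X) + (X' * Y - Y * X') := by
      rw [Matrix.mul_add, Matrix.add_mul]
      abel
    rw [h1]
    exact Submodule.add_mem _ h h'
  | smul c X _ h =>
    rw [Matrix.mul_smul, Matrix.smul_mul, ← smul_sub]
    exact Submodule.smul_mem _ _ h

theorem LU_skew (hn : 2 * n ≤ p) (hp3 : 3 ≤ p) (hJ : ∀ g, (R g)ᵀ * J * R g = J)
    {X : Matrix (Fin n) (Fin n) (ZMod p)} (hX : X ∈ LU R) : Xᵀ * red J + red J * X = 0 := by
  induction hX using Submodule.span_induction with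
  | mem X hX =>
    obtain ⟨g, hg, rfl⟩ := hX
    obtain ⟨Y, hY, hr⟩ := nlog_mem0 (R := R) hp3 hn hg
    have h1 := congrArg red (skew_of_tan hJ hY)
    rwa [red_add, red_mul, red_mul, red_transpose, hr, red_zero'] at h1
  | zero => rw [transpose_zero, Matrix.zero_mul, Matrix.mul_zero, add_zero]
  | add X Y _ _ h h' =>
    rw [transpose_add, Matrix.add_mul, Matrix.mul_add]
    have h1 : Xᵀ * red J + Yᵀ * red J + (red J * X + red J * Y) =
        (Xᵀ * red J + red J * X) + (Yᵀ * red J + red J * Y) := by abel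
    rw [h1, h, h', add_zero]
  | smul c X _ h =>
    rw [transpose_smul, Matrix.smul_mul, Matrix.mul_smul, ← smul_add, h, smul_zero]

/-- The operators whose matrices are in `L`. -/
def toE (L : Submodule (ZMod p) (Matrix (Fin n) (Fin n) (ZMod p))) :
    Submodule (ZMod p) (Module.End (ZMod p) (Fin n → ZMod p)) :=
  L.comap (LinearMap.toMatrix' : _ ≃ₗ[ZMod p] _).toLinearMap

/-- Reflections and a Lie algebra modulo `p`. -/
theorem refHyp' (hp3 : 3 ≤ p) (hs : Jᵀ = J)
    (L : Submodule (ZMod p) (Matrix (Fin n) (Fin n) (ZMod p)))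
    (hlie : ∀ X ∈ L, ∀ Y ∈ L, X * Y - Y * X ∈ L)
    (hskew : ∀ X ∈ L, Xᵀ * red J + red J * X = 0)
    (hconj : ∀ g, ∀ X ∈ L, red (R g) * X * red (R g⁻¹) ∈ L) :
    RefHyp (Bp J) (toE L) (RefSet J R) := by
  have hXx : ∀ (X : Module.End (ZMod p) (Fin n → ZMod p)) z, X z = LinearMap.toMatrix' X *ᵥ z :=
    fun X z => (LinearMap.toMatrix'_mulVec X z).symm
  have hsk' : ∀ Y ∈ L, ∀ x y, dot J (Y *ᵥ x) y = -dot J x (Y *ᵥ y) := by
    intro Y hY x y
    have h1 := hskew Y hY
    rw [dot_red, dot_red]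
    have h2 : (Y *ᵥ x) ⬝ᵥ red J *ᵥ y = x ⬝ᵥ (Yᵀ * red J) *ᵥ y := by
      rw [← mulVec_mulVec, dotProduct_mulVec x, vecMul_transpose]
    rw [h2, eq_neg_of_add_eq_zero_left h1, neg_mulVec, dotProduct_neg, mulVec_mulVec]
  refine ⟨two_neZ hp3, fun x y => ?_, fun X hX Y hY => ?_, ?_, ?_, ?_⟩
  · rw [Bp_apply, Bp_apply, dot_symm hs]
  · have h3 : LinearMap.toMatrix' (X * Y - Y * X) = LinearMap.toMatrix' X * LinearMap.toMatrix' Y -
        LinearMap.toMatrix' Y * LinearMap.toMatrix' X := by
      rw [map_sub, LinearMap.toMatrix'_mul, LinearMap.toMatrix'_mul]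
    change LinearMap.toMatrix' (X * Y - Y * X) ∈ L
    rw [h3]
    exact hlie _ hX _ hY
  · intro X hX x y
    rw [Bp_apply, Bp_apply, hXx, hXx]
    exact hsk' _ hX x y
  · rintro v ⟨hv, -⟩
    rwa [Bp_apply]
  · rintro v ⟨hv, g, hg⟩ X hX
    set Y := LinearMap.toMatrix' X with hYd
    have hY : Y ∈ L := hX
    have hr : ∀ x, red (R g⁻¹) *ᵥ x = x - (2 * dot J v x / dot J v v) • v := by
      intro x
      have h1 : red (R g) *ᵥ (x - (2 * dot J v x / dot J v v) • v) = x := by
        have h2 : dot J v (x - (2 * dot J v x / dot J v v) • v) = -dot J v x := by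
          rw [← Bp_apply, ← Bp_apply, map_sub, map_smul, smul_eq_mul, Bp_apply, Bp_apply,
            div_mul_cancel₀ _ hv]
          ring
        rw [hg, h2]
        have h3 : (2 * -dot J v x / dot J v v) = -(2 * dot J v x / dot J v v) := by ring
        rw [h3]
        module
      have h2 : red (R g⁻¹) *ᵥ (red (R g) *ᵥ (x - (2 * dot J v x / dot J v v) • v)) =
          red (R g⁻¹) *ᵥ x := by rw [h1]
      rw [mulVec_mulVec, red_inv_mul, one_mulVec] at h2
      exact h2.symm
    have hvv : dot J v (Y *ᵥ v) = 0 := by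
      have h1 := hsk' Y hY v v
      rw [dot_symm hs] at h1
      have h2 : (2 : ZMod p) * dot J v (Y *ᵥ v) = 0 := by linear_combination h1
      exact (mul_eq_zero.1 h2).resolve_left (two_neZ hp3)
    have hL : (dot J v v / 2) • (Y - red (R g) * Y * red (R g⁻¹)) ∈ L :=
      L.smul_mem _ (L.sub_mem hY (hconj g Y hY))
    have hkey : LinearMap.toMatrix' (wg (Bp J) v (X v)) =
        (dot J v v / 2) • (Y - red (R g) * Y * red (R g⁻¹)) := by
      refine (Matrix.toLin' : _ ≃ₗ[ZMod p] _).injective (LinearMap.ext fun x => ?_)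
      rw [Matrix.toLin'_toMatrix', Matrix.toLin'_apply, wg_apply, smul_mulVec,
        sub_mulVec, ← mulVec_mulVec, ← mulVec_mulVec, hr, hXx, Bp_apply, Bp_apply, hg,
        mulVec_sub, mulVec_smul]
      have h5 : dot J v (Y *ᵥ x - (2 * dot J v x / dot J v v) • Y *ᵥ v) =
          dot J v (Y *ᵥ x) := by
        rw [← Bp_apply, map_sub, map_smul, Bp_apply, Bp_apply, hvv, smul_zero, sub_zero]
      have h6 : dot J v (Y *ᵥ x) = -dot J (Y *ᵥ v) x := by
        rw [hsk' Y hY, neg_neg]
      rw [h5, h6]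
      have h2 := two_neZ (p := p) hp3
      have h7 : (dot J v v / 2) * (2 * dot J v x / dot J v v) = dot J v x := by
        field_simp
      have h8 : (dot J v v / 2) * (2 * -dot J (Y *ᵥ v) x / dot J v v) =
          -dot J (Y *ᵥ v) x := by
        field_simp
      rw [smul_sub, smul_sub, smul_sub, smul_smul, smul_smul, h7, h8]
      module
    change LinearMap.toMatrix' (wg (Bp J) v (X v)) ∈ L
    rw [hkey]
    exact hL

/-- **The span of the logarithms contains all exterior products.** -/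
theorem wg_LU (hn0 : 0 < n) (hn : 2 * n ≤ p) (hp3 : 3 ≤ p) (hs : Jᵀ = J)
    (hJ : ∀ g, (R g)ᵀ * J * R g = J)
    (hJd : IsUnit J.det) (hP : IsPrimitive J R) {v : Fin n → ZMod p} (hv : v ∈ RefSet J R)
    {g : Γ} (hg1 : red (R g) ≠ 1) (hg : (red (R g) - 1) ^ n = 0)
    (x y : Fin n → ZMod p) : wg (Bp J) x y ∈ toE (LU R) := by
  have hv0 : v ≠ 0 := by
    rintro rfl
    apply hv.1
    rw [← Bp_apply, map_zero]
  have hc := connected_of_primitive' (J := J) (ρ := R)
    (fun x y h => by rw [dot_symm hs, h]) (fun g => ⟨1, by rw [Units.val_one, one_smul, hJ]⟩) hJd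
    hP hv0
  have hR := (refHyp' (R := R) hp3 hs (LU R) (fun X hX Y hY => LU_lie hn0 hn hX hY)
    (fun X hX => LU_skew hn hp3 hJ hX) (fun g X hX => LU_conj g hX)).mono
    (S' := Set.range fun a : Γ => red (R a) *ᵥ v) (by
    rintro _ ⟨a, rfl⟩
    exact refSet_orbit hJ hv a)
  refine hR.full hc.spans (fun x hx => ?_) ?_ ?_ x y
  · have h3 : (red J).det ≠ 0 := by
      have h4 : (red J).det = PadicInt.toZMod J.det := by
        rw [RingHom.map_det]
        rfl
      rw [h4]
      exact (isUnit_iff_toZMod _).1 hJd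
    refine Matrix.eq_zero_of_vecMul_eq_zero h3 (dotProduct_eq_zero_iff.1 fun w => ?_)
    have h5 := hx w
    rw [Bp_apply, dot_red, dotProduct_mulVec] at h5
    exact h5
  · rintro C ⟨_, ⟨a, rfl⟩, ha⟩ hC _ ⟨b, rfl⟩
    have h1 := hc.chain a b
    induction h1 with
    | refl => exact ha
    | @tail b c _ hbc ih =>
      refine hC _ ⟨b, rfl⟩ _ ⟨c, rfl⟩ ?_ ih
      rwa [Bp_apply]
  · refine ⟨Matrix.toLin' (nlog (red (R g))), ?_, ?_⟩
    · change LinearMap.toMatrix' (Matrix.toLin' (nlog (red (R g)))) ∈ LU R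
      rw [LinearMap.toMatrix'_toLin']
      exact Submodule.subset_span ⟨g, hg, rfl⟩
    · intro h0
      refine nlog_ne hg1 hg ?_
      rw [← LinearMap.toMatrix'_toLin' (nlog (red (R g))), h0, map_zero]

/-- All skew matrices are in `L`. -/
theorem so_mem' (hp3 : 3 ≤ p) (hs : Jᵀ = J) (hJd : IsUnit J.det)
    {L : Submodule (ZMod p) (Matrix (Fin n) (Fin n) (ZMod p))}
    (hwg : ∀ x y, wg (Bp J) x y ∈ toE L) {X : Matrix (Fin n) (Fin n) (ZMod p)}
    (hX : Xᵀ * red J + red J * X = 0) : X ∈ L := by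
  classical
  have h3 : IsUnit (red J).det := by
    have h4 : (red J).det = PadicInt.toZMod J.det := by
      rw [RingHom.map_det]
      rfl
    rw [h4]
    exact hJd.map PadicInt.toZMod
  have hJs : (red J)ᵀ = red J := by rw [← red_transpose, hs]
  have h2 := two_neZ (p := p) hp3
  set K := (red J)⁻¹ with hK
  have hKJ : K * red J = 1 := Matrix.nonsing_inv_mul _ h3
  have hKs : Kᵀ = K := by rw [hK, Matrix.transpose_nonsing_inv, hJs]
  have key : Matrix.toLin' X = (2 : ZMod p)⁻¹ • ∑ i : Fin n,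
      wg (Bp J) (K *ᵥ Pi.single i 1) (X *ᵥ Pi.single i 1) := by
    refine LinearMap.ext fun x => ?_
    rw [LinearMap.smul_apply, LinearMap.sum_apply, Matrix.toLin'_apply]
    have e1 : ∀ i, Bp J (K *ᵥ Pi.single i 1) x = x i := by
      intro i
      rw [Bp_apply, dot_red]
      have h5 : (K *ᵥ Pi.single i 1) ⬝ᵥ red J *ᵥ x = (Pi.single i 1) ⬝ᵥ (Kᵀ * red J) *ᵥ x := by
        rw [← mulVec_mulVec, dotProduct_mulVec (Pi.single i 1), vecMul_transpose]
      rw [h5, hKs, hKJ, one_mulVec, single_one_dotProduct]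
    have e2 : ∀ i, Bp J (X *ᵥ Pi.single i 1) x = -(red J *ᵥ (X *ᵥ x)) i := by
      intro i
      rw [Bp_apply, dot_red]
      have h5 : (X *ᵥ Pi.single i 1) ⬝ᵥ red J *ᵥ x = (Pi.single i 1) ⬝ᵥ (Xᵀ * red J) *ᵥ x := by
        rw [← mulVec_mulVec, dotProduct_mulVec (Pi.single i 1), vecMul_transpose]
      rw [h5, eq_neg_of_add_eq_zero_left hX, neg_mulVec, dotProduct_neg, single_one_dotProduct,
        mulVec_mulVec]
    have e3 : ∀ (A : Matrix (Fin n) (Fin n) (ZMod p)) (z : Fin n → ZMod p),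
        ∑ i, z i • (A *ᵥ Pi.single i 1) = A *ᵥ z := by
      intro A z
      funext j
      rw [Finset.sum_apply, mulVec, dotProduct]
      refine Finset.sum_congr rfl fun i _ => ?_
      rw [Pi.smul_apply, mulVec_single_one, smul_eq_mul, mul_comm]
      rfl
    have e4 : ∑ i : Fin n, wg (Bp J) (K *ᵥ Pi.single i 1) (X *ᵥ Pi.single i 1) x =
        X *ᵥ x + K *ᵥ (red J *ᵥ (X *ᵥ x)) := by
      rw [← e3 X x, ← e3 K (red J *ᵥ (∑ i, x i • X *ᵥ Pi.single i 1)), ← Finset.sum_add_distrib]
      refine Finset.sum_congr rfl fun i _ => ?_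
      rw [wg_apply, e1, e2, e3, neg_smul, sub_neg_eq_add]
    rw [e4, mulVec_mulVec, hKJ, one_mulVec, ← two_smul (ZMod p), smul_smul, inv_mul_cancel₀ h2,
      one_smul]
  have h6 : Matrix.toLin' X ∈ toE L := by
    rw [key]
    exact Submodule.smul_mem _ _ (Submodule.sum_mem _ fun i _ => hwg _ _)
  change LinearMap.toMatrix' (Matrix.toLin' X) ∈ L at h6
  rwa [LinearMap.toMatrix'_toLin'] at h6

end

end Pool.Agent.U175.LP
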