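import Mathlib
import Pool.Agent.U175.LP.S2
import Pool.Agent.U175.LP.S4

/-!
# The index of a `p`-adic group in the orthogonal group
-/

set_option autoImplicit false
set_option linter.unusedSectionVars false

namespace Pool.Agent.U175.LP

open PadicInt Module Matrix Filter Topology Pool.Agent.U175.LP.Pub Pool.Agent.Y142.ZO

noncomputable section

variable {p : ℕ} [hp : Fact p.Prime] {n : ℕ} {Γ : Type} [Group Γ]
  {R : Γ →* Matrix (Fin n) (Fin n) ℤ_[p]} {J : Matrix (Fin n) (Fin n) ℤ_[p]}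

variable (R) in
/-- The reduction of a representation. -/
def rd : Γ →* Matrix (Fin n) (Fin n) (ZMod p) :=
  (((toZMod : ℤ_[p] →+* ZMod p).mapMatrix :
    Matrix (Fin n) (Fin n) ℤ_[p] →+* Matrix (Fin n) (Fin n) (ZMod p)) :
    Matrix (Fin n) (Fin n) ℤ_[p] →* Matrix (Fin n) (Fin n) (ZMod p)).comp R

theorem rd_apply (g : Γ) : rd R g = red (R g) := rfl

/-- An auxiliary constant. -/
def cstM (n : ℕ) : ℕ := (1 + (n * n) * ((n * n) * n)) ^ (n * n)

/-- The constant in the theorem on the index. -/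
def cst (n : ℕ) : ℕ := 2 ^ (n + 1) * cstM n ^ (n * n) +
  2 * ((n * n) * (cstM n * (n * n) * ((n * n) * n))) + cstM n * (1 + (n * n) * ((n * n) * n)) +
  2 * n + 3

theorem arith_M {d n N : ℕ} (hd : d ≤ N) :
    (1 + d * (d * n)) ^ d ≤ (1 + N * (N * n)) ^ N := by
  have h1 : 1 + d * (d * n) ≤ 1 + N * (N * n) :=
    Nat.add_le_add_left (Nat.mul_le_mul hd (Nat.mul_le_mul_right n hd)) 1
  exact (Nat.pow_le_pow_left h1 d).trans (Nat.pow_le_pow_right (by omega) hd)

theorem arith_final {p d n x : ℕ} (hd : d ≤ n * n) (hp : cst n ≤ p)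
    (h : p ^ (d + 1) ≤ p * ((1 + d * (d * n)) ^ d) ^ d * x +
      d * ((1 + d * (d * n)) ^ d * d * (d * n)) * p ^ d) :
    2 ^ n * p ^ d ≤ cst n * x := by
  set N := n * n with hN
  set M := (1 + d * (d * n)) ^ d with hM
  have hMM : M ≤ cstM n := arith_M hd
  have hM1 : 1 ≤ M := Nat.one_le_pow _ _ (by omega)
  have hc1 : 1 ≤ cstM n := hM1.trans hMM
  have hp0 : 0 < p := by
    have : 3 ≤ cst n := by unfold cst; omega
    omega
  have h1 : 2 * (d * (M * d * (d * n))) ≤ p := by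
    have h2 : d * (M * d * (d * n)) ≤ N * (cstM n * N * (N * n)) :=
      Nat.mul_le_mul hd (Nat.mul_le_mul (Nat.mul_le_mul hMM hd) (Nat.mul_le_mul_right n hd))
    have h3 : 2 * (N * (cstM n * N * (N * n))) ≤ cst n := by
      unfold cst
      rw [← hN]
      omega
    omega
  have h2 : 2 * (d * (M * d * (d * n)) * p ^ d) ≤ p ^ (d + 1) := by
    calc 2 * (d * (M * d * (d * n)) * p ^ d) = 2 * (d * (M * d * (d * n))) * p ^ d := by ring
      _ ≤ p * p ^ d := Nat.mul_le_mul_right _ h1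
      _ = p ^ (d + 1) := by ring
  have h3 : p ^ (d + 1) ≤ 2 * (p * M ^ d * x) := by omega
  have h4 : p ^ d ≤ 2 * (M ^ d * x) := by
    refine Nat.le_of_mul_le_mul_left ?_ hp0
    calc p * p ^ d = p ^ (d + 1) := by ring
      _ ≤ 2 * (p * M ^ d * x) := h3
      _ = p * (2 * (M ^ d * x)) := by ring
  have h5 : M ^ d ≤ cstM n ^ N :=
    (Nat.pow_le_pow_left hMM d).trans (Nat.pow_le_pow_right hc1 hd)
  calc 2 ^ n * p ^ d ≤ 2 ^ n * (2 * (M ^ d * x)) := Nat.mul_le_mul_left _ h4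
    _ = 2 ^ (n + 1) * M ^ d * x := by ring
    _ ≤ 2 ^ (n + 1) * cstM n ^ N * x :=
        Nat.mul_le_mul_right _ (Nat.mul_le_mul_left _ h5)
    _ ≤ cst n * x := by
        refine Nat.mul_le_mul_right _ ?_
        unfold cst
        rw [← hN]
        omega

/-- **The order of the residual group.** -/
theorem card_bound (hn0 : 0 < n) (hpc : cst n ≤ p) (hs : Jᵀ = J)
    (hJ : ∀ g, (R g)ᵀ * J * R g = J)
    (hJd : IsUnit J.det) (hP : IsPrimitive J R) {v : Fin n → ZMod p} (hv : v ∈ RefSet J R)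
    {g : Γ} (hg1 : red (R g) ≠ 1) (hg : (red (R g) - 1) ^ n = 0) :
    Nat.card {g : Matrix (Fin n) (Fin n) (ZMod p) // gᵀ * red J * g = red J} ≤
      cst n * Nat.card (MonoidHom.mrange (rd R)) := by
  classical
  have hn : 2 * n ≤ p := by
    have : 2 * n ≤ cst n := by unfold cst; omega
    omega
  have hp3 : 3 ≤ p := by
    have : 3 ≤ cst n := by unfold cst; omega
    omega
  have hred : IsUnit (red J).det := by
    have h4 : (red J).det = PadicInt.toZMod J.det := by
      rw [RingHom.map_det]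
      rfl
    rw [h4]
    exact hJd.map PadicInt.toZMod
  have hJs : (red J)ᵀ = red J := by rw [← red_transpose, hs]
  -- the span of the logarithms is everything
  have hLU : ∀ X : Matrix (Fin n) (Fin n) (ZMod p), Xᵀ * red J + red J * X = 0 ↔ X ∈ LU R :=
    fun X => ⟨fun hX => so_mem' hp3 hs hJd
      (fun x y => wg_LU hn0 hn hp3 hs hJ hJd hP hv hg1 hg x y) hX, fun hX => LU_skew hn hp3 hJ hX⟩
  obtain ⟨b, hbs, hspan, hli⟩ := exists_linearIndependent (ZMod p)
    {X | ∃ g, (red (R g) - 1) ^ n = 0 ∧ X = nlog (red (R g))}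
  have hbfin : b.Finite := Set.toFinite b
  haveI : Fintype b := hbfin.fintype
  set d := Fintype.card b with hd
  have hfr : finrank (ZMod p) (LU R) = d := by
    rw [LU, ← hspan]
    have h1 := finrank_span_eq_card hli
    rw [Subtype.range_coe_subtype] at h1
    exact h1
  have hdn : d ≤ n * n := by
    rw [← hfr]
    refine (Submodule.finrank_le _).trans ?_
    rw [Module.finrank_matrix, Fintype.card_fin, Module.finrank_self, mul_one]
  have hskew : Nat.card {X : Matrix (Fin n) (Fin n) (ZMod p) // Xᵀ * red J + red J * X = 0} =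
      p ^ d := by
    have h1 : Nat.card {X : Matrix (Fin n) (Fin n) (ZMod p) // Xᵀ * red J + red J * X = 0} =
        Nat.card (LU R) := Nat.card_congr (Equiv.subtypeEquivRight hLU)
    have h2 := Module.card_eq_pow_finrank (K := ZMod p) (V := LU R)
    rw [h1, Nat.card_eq_fintype_card, h2, ZMod.card, hfr]
  -- choose unipotent elements
  have hch : ∀ i : Fin d, ∃ g, (red (R g) - 1) ^ n = 0 ∧
      (((Fintype.equivFin b).symm i : b) : Matrix (Fin n) (Fin n) (ZMod p)) = nlog (red (R g)) :=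
    fun i => hbs ((Fintype.equivFin b).symm i).2
  choose γ hγ1 hγ2 using hch
  have hli' : LinearIndependent (ZMod p) fun i => nlog (red (R (γ i))) := by
    have h1 : (fun i => nlog (red (R (γ i)))) = (fun x : b => (x : Matrix (Fin n) (Fin n) (ZMod p))) ∘
        (Fintype.equivFin b).symm := by
      funext i
      exact (hγ2 i).symm
    rw [h1]
    exact hli.comp _ (Fintype.equivFin b).symm.injective
  have hM1 : (1 + d * (d * n)) ^ d ≤ cstM n := arith_M hdn
  have hmain := card_ge (p := p) hn0 (M := (1 + d * (d * n)) ^ d) (MonoidHom.mrange (rd R))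
    (fun i => red (R (γ i))) (fun i => ⟨γ i, rfl⟩) hγ1 hli' (by omega) (by
      set a := 1 + d * (d * n) with ha
      have h1 : a ^ d * a + 1 ≤ (a ^ d + 1) * a := by
        have : 1 ≤ a := by omega
        nlinarith
      calc (a ^ d * a + 1) ^ d ≤ ((a ^ d + 1) * a) ^ d := Nat.pow_le_pow_left h1 d
        _ = (a ^ d + 1) ^ d * a ^ d := mul_pow _ _ _
        _ < (a ^ d + 1) ^ d * (a ^ d + 1) :=
            Nat.mul_lt_mul_of_pos_left (Nat.lt_succ_self _) (by positivity)
        _ = (a ^ d + 1) ^ (d + 1) := (pow_succ _ _).symm) (by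
      have h1 : (1 + d * (d * n)) ≤ 1 + n * n * (n * n * n) :=
        Nat.add_le_add_left (Nat.mul_le_mul hdn (Nat.mul_le_mul_right n hdn)) 1
      have h2 := Nat.mul_le_mul hM1 h1
      have h3 : cstM n * (1 + n * n * (n * n * n)) < cst n := by
        unfold cst
        omega
      omega)
  have h2 := card_orth_le (n := n) (two_neZ (p := p) hp3) hJs hred
  rw [hskew] at h2
  refine h2.trans (arith_final hdn hpc ?_)
  calc p ^ (d + 1) ≤ p * (((1 + d * (d * n)) ^ d) ^ d * Nat.card (MonoidHom.mrange (rd R))) +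
        d * ((1 + d * (d * n)) ^ d * d * (d * n)) * p ^ d := hmain
    _ = _ := by ring

/-! ### Elements congruent to one -/

variable (R) in
/-- The elements congruent to one modulo `p ^ k` with a given leading term. -/
def GrP (k : ℕ) (X : Matrix (Fin n) (Fin n) (ZMod p)) : Prop :=
  ∃ g Y, R g = 1 + (p : ℤ_[p]) ^ k • Y ∧ red Y = X

theorem hp0' : (toZMod (p : ℤ_[p]) : ZMod p) = 0 := by rw [map_natCast, ZMod.natCast_self]

theorem GrP_zero (k : ℕ) : GrP R k 0 :=
  ⟨1, 0, by rw [map_one, smul_zero, add_zero], red_zero'⟩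

theorem GrP_add {k : ℕ} (hk : 1 ≤ k) {X X' : Matrix (Fin n) (Fin n) (ZMod p)} (h : GrP R k X)
    (h' : GrP R k X') : GrP R k (X + X') := by
  obtain ⟨g, Y, hg, hY⟩ := h
  obtain ⟨g', Y', hg', hY'⟩ := h'
  refine ⟨g * g', Y + Y' + (p : ℤ_[p]) ^ k • (Y * Y'), ?_, ?_⟩
  · rw [map_mul, hg, hg']
    rw [mul_add, mul_one, add_mul, one_mul, smul_mul_smul_comm]
    simp only [smul_add, smul_smul]
    abel
  · rw [red_add, red_add, red_smul, map_pow, hp0', zero_pow (by omega), zero_smul, add_zero, hY,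
      hY']

theorem GrP_nsmul {k : ℕ} (hk : 1 ≤ k) {X : Matrix (Fin n) (Fin n) (ZMod p)} (h : GrP R k X)
    (m : ℕ) : GrP R k (m • X) := by
  induction m with
  | zero => rw [zero_smul]; exact GrP_zero k
  | succ m ih => rw [succ_nsmul]; exact GrP_add hk ih h

theorem GrP_succ (hp3 : 3 ≤ p) {k : ℕ} (hk : 1 ≤ k) {X : Matrix (Fin n) (Fin n) (ZMod p)}
    (h : GrP R k X) : GrP R (k + 1) X := by
  obtain ⟨g, Y, hg, hY⟩ := h
  obtain ⟨Y', hY'⟩ := pow_step (A := Matrix (Fin n) (Fin n) ℤ_[p]) hp3 k hk Y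
  refine ⟨g ^ p, Y + (p : ℤ_[p]) ^ k • Y', by rw [map_pow, hg, hY'], ?_⟩
  rw [red_add, red_smul, map_pow, hp0', zero_pow (by omega), zero_smul, add_zero, hY]

theorem GrP_nlog {g : Γ} (hn : 2 * n ≤ p) (hg : (red (R g) - 1) ^ n = 0) :
    GrP R 1 (nlog (red (R g))) := by
  set N : Matrix (Fin n) (Fin n) ℤ_[p] := R g - 1 with hN
  have hredN : red N = red (R g) - 1 := by rw [hN, red_sub, red_one]
  obtain ⟨F₁, hF₁⟩ : ∃ F₁ : Matrix (Fin n) (Fin n) ℤ_[p], N ^ n = (p : ℤ_[p]) • F₁ := by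
    have h1 : red (N ^ n) = red 0 := by rw [red_pow, hredN, hg, red_zero']
    obtain ⟨Z, hZ⟩ := exists_of_red h1
    exact ⟨Z, by rw [hZ, zero_add]⟩
  have h1 := nlog_pow hn hF₁
  have h2 : R (g ^ p) = (1 + N) ^ p := by rw [map_pow, hN, add_sub_cancel]
  rw [← h2] at h1
  refine ⟨g ^ p, _, by rw [pow_one]; exact h1, ?_⟩
  rw [red_add, red_smul, hp0', zero_smul, add_zero, red_sum, nlog]
  refine Finset.sum_congr rfl fun j hj => ?_
  rw [Finset.mem_Ico] at hj
  rw [red_smul, red_pow, hredN, map_natCast, dj_cast (by omega) hj.2]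

theorem GrP_LU (hn : 2 * n ≤ p) {X : Matrix (Fin n) (Fin n) (ZMod p)} (hX : X ∈ LU R) :
    GrP R 1 X := by
  induction hX using Submodule.span_induction with
  | mem X hX =>
    obtain ⟨g, hg, rfl⟩ := hX
    exact GrP_nlog hn hg
  | zero => exact GrP_zero 1
  | add X Y _ _ h h' => exact GrP_add le_rfl h h'
  | smul c X _ h =>
    have h1 : c • X = c.val • X := by
      rw [← Nat.cast_smul_eq_nsmul (ZMod p), ZMod.natCast_zmod_val]
    rw [h1]
    exact GrP_nsmul le_rfl h _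

/-- **All isometries congruent to one are in the image.** -/
theorem mem_range_of_red [TopologicalSpace Γ] [CompactSpace Γ] (hc : Continuous R) (hp3 : 3 ≤ p)
    (hJ : ∀ g, (R g)ᵀ * J * R g = J)
    (hgr : ∀ X : Matrix (Fin n) (Fin n) (ZMod p), Xᵀ * red J + red J * X = 0 → GrP R 1 X)
    {h : Matrix (Fin n) (Fin n) ℤ_[p]} (hh : hᵀ * J * h = J) (h1 : red h = 1) : ∃ g, R g = h := by
  have hgrk : ∀ k, 1 ≤ k → ∀ X : Matrix (Fin n) (Fin n) (ZMod p),
      Xᵀ * red J + red J * X = 0 → GrP R k X := by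
    intro k hk
    induction k, hk using Nat.le_induction with
    | base => exact hgr
    | succ k hk ih => exact fun X hX => GrP_succ hp3 hk (ih X hX)
  have key : ∀ k : ℕ, ∃ g Z, R g⁻¹ * h = 1 + (p : ℤ_[p]) ^ (k + 1) • Z := by
    intro k
    induction k with
    | zero =>
      obtain ⟨Z, hZ⟩ := exists_of_red (A := h) (B := 1) (by rw [h1, red_one])
      exact ⟨1, Z, by rw [inv_one, map_one, one_mul, zero_add, pow_one, hZ]⟩
    | succ k ih =>
      obtain ⟨g, Z, hZ⟩ := ih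
      have hiso : (R g⁻¹ * h)ᵀ * J * (R g⁻¹ * h) = J := by
        rw [transpose_mul]
        calc hᵀ * (R g⁻¹)ᵀ * J * (R g⁻¹ * h) = hᵀ * ((R g⁻¹)ᵀ * J * R g⁻¹) * h := by
              simp only [Matrix.mul_assoc]
          _ = J := by rw [hJ, hh]
      rw [hZ, transpose_add, transpose_one, transpose_smul] at hiso
      have h2 : (p : ℤ_[p]) ^ (k + 1) • (Zᵀ * J + J * Z + (p : ℤ_[p]) ^ (k + 1) • (Zᵀ * J * Z)) =
          0 := by
        have h3 : (1 + (p : ℤ_[p]) ^ (k + 1) • Zᵀ) * J * (1 + (p : ℤ_[p]) ^ (k + 1) • Z) =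
            J + (p : ℤ_[p]) ^ (k + 1) • (Zᵀ * J + J * Z + (p : ℤ_[p]) ^ (k + 1) • (Zᵀ * J * Z)) := by
          simp only [add_mul, mul_add, one_mul, mul_one, smul_mul_assoc, mul_smul_comm, smul_add,
            smul_smul]
          abel
        rw [h3] at hiso
        exact add_eq_left.1 hiso
      have h3 := (smul_eq_zero.1 h2).resolve_left
        (pow_ne_zero _ (by exact_mod_cast hp.out.ne_zero))
      have h4 : (red Z)ᵀ * red J + red J * red Z = 0 := by
        have h5 := congrArg red h3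
        rwa [red_add, red_add, red_smul, map_pow, hp0', zero_pow (by omega), zero_smul, add_zero,
          red_mul, red_mul, red_transpose, red_zero'] at h5
      obtain ⟨g', Y, hg', hY⟩ := hgrk (k + 1) (by omega) (red Z) h4
      obtain ⟨Z', hZ'⟩ := exists_of_red hY.symm
      refine ⟨g * g', R g'⁻¹ * Z', ?_⟩
      have h6 : R g'⁻¹ * R g' = 1 := by rw [← map_mul, inv_mul_cancel, map_one]
      have h7 : R g⁻¹ * h = R g' + (p : ℤ_[p]) ^ (k + 1 + 1) • Z' := by
        rw [hZ, hg', hZ', smul_add, smul_smul, pow_succ (p : ℤ_[p]) (k + 1)]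
        abel
      rw [_root_.mul_inv_rev, map_mul, Matrix.mul_assoc, h7, Matrix.mul_add, h6, Matrix.mul_smul]
  choose g Z hgZ using key
  have hlim : Tendsto (fun k => R (g k)) atTop (𝓝 h) := by
    refine tendsto_pi_nhds.2 fun a => tendsto_pi_nhds.2 fun b => ?_
    rw [← tendsto_sub_nhds_zero_iff]
    have h2 : ∀ k, R (g k) a b - h a b = (p : ℤ_[p]) ^ (k + 1) * -(R (g k) * Z k) a b := by
      intro k
      have h3 : h = R (g k) + (p : ℤ_[p]) ^ (k + 1) • (R (g k) * Z k) := by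
        have h4 : R (g k) * (R (g k)⁻¹ * h) = h := by
          rw [← Matrix.mul_assoc, ← map_mul, mul_inv_cancel, map_one, Matrix.one_mul]
        rw [hgZ, Matrix.mul_add, Matrix.mul_one, Matrix.mul_smul] at h4
        exact h4.symm
      have h4 := congrFun (congrFun h3 a) b
      rw [Matrix.add_apply, Matrix.smul_apply, smul_eq_mul] at h4
      rw [h4]
      ring
    rw [show (fun k => R (g k) a b - h a b) = fun k => (p : ℤ_[p]) ^ (k + 1) *
      -(R (g k) * Z k) a b from funext h2]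
    refine squeeze_zero_norm (a := fun k => ‖(p : ℤ_[p])‖ ^ (k + 1)) (fun k => ?_) ?_
    · rw [norm_mul, norm_pow]
      calc _ ≤ ‖(p : ℤ_[p])‖ ^ (k + 1) * 1 :=
            mul_le_mul_of_nonneg_left (PadicInt.norm_le_one _) (by positivity)
        _ = _ := mul_one _
    · exact (tendsto_pow_atTop_nhds_zero_of_lt_one (norm_nonneg _)
        (by rw [PadicInt.norm_p]; exact inv_lt_one_of_one_lt₀ (by exact_mod_cast hp.out.one_lt))).comp
        (tendsto_add_atTop_nat 1)
  have hcl : IsClosed (Set.range R) := (isCompact_range hc).isClosed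
  obtain ⟨g₀, hg₀⟩ := hcl.mem_of_tendsto hlim (Eventually.of_forall fun k => ⟨g k, rfl⟩)
  exact ⟨g₀, hg₀⟩

/-- **The theorem on the index.** The isometries of the lattice are in the union of at most `cst n` cosets
of the image. -/
theorem index_bound [TopologicalSpace Γ] [CompactSpace Γ] (hc : Continuous R) (hn0 : 0 < n)
    (hpc : cst n ≤ p) (hs : Jᵀ = J) (hJ : ∀ g, (R g)ᵀ * J * R g = J)
    (hJd : IsUnit J.det) (hP : IsPrimitive J R) {v : Fin n → ZMod p} (hv : v ∈ RefSet J R)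
    {g : Γ} (hg1 : red (R g) ≠ 1) (hg : (red (R g) - 1) ^ n = 0) :
    ∃ T : Finset (Matrix (Fin n) (Fin n) ℤ_[p]), T.card ≤ cst n ∧
      ∀ h : Matrix (Fin n) (Fin n) ℤ_[p], hᵀ * J * h = J → ∃ t ∈ T, ∃ a, h = t * R a := by
  classical
  have hn : 2 * n ≤ p := by
    have : 2 * n ≤ cst n := by unfold cst; omega
    omega
  have hp3 : 3 ≤ p := by
    have : 3 ≤ cst n := by unfold cst; omega
    omega
  have hgr : ∀ X : Matrix (Fin n) (Fin n) (ZMod p), Xᵀ * red J + red J * X = 0 → GrP R 1 X :=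
    fun X hX => GrP_LU hn (so_mem' hp3 hs hJd
      (fun x y => wg_LU hn0 hn hp3 hs hJ hJd hP hv hg1 hg x y) hX)
  -- the finite groups
  let Ob : Subgroup (Matrix (Fin n) (Fin n) (ZMod p))ˣ :=
    { carrier := {u | (u : Matrix (Fin n) (Fin n) (ZMod p))ᵀ * red J * u = red J}
      mul_mem' := by
        intro a b ha hb
        simp only [Set.mem_ofPred_eq] at ha hb ⊢
        rw [Units.val_mul, transpose_mul]
        calc (b : Matrix (Fin n) (Fin n) (ZMod p))ᵀ * (a : Matrix (Fin n) (Fin n) (ZMod p))ᵀ *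
              red J * (a * b) = (b : Matrix (Fin n) (Fin n) (ZMod p))ᵀ *
              ((a : Matrix (Fin n) (Fin n) (ZMod p))ᵀ * red J * a) * b := by
              simp only [Matrix.mul_assoc]
          _ = red J := by rw [ha, hb]
      one_mem' := by
        simp only [Set.mem_ofPred_eq]
        rw [Units.val_one, transpose_one, one_mul, mul_one]
      inv_mem' := by
        intro a ha
        simp only [Set.mem_ofPred_eq] at ha ⊢
        have h1 : (a : Matrix (Fin n) (Fin n) (ZMod p)) *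
            ((a⁻¹ : (Matrix (Fin n) (Fin n) (ZMod p))ˣ) : Matrix (Fin n) (Fin n) (ZMod p)) = 1 :=
          Units.mul_inv a
        have h2 : ((a⁻¹ : (Matrix (Fin n) (Fin n) (ZMod p))ˣ) :
            Matrix (Fin n) (Fin n) (ZMod p))ᵀ * (a : Matrix (Fin n) (Fin n) (ZMod p))ᵀ = 1 := by
          rw [← transpose_mul, h1, transpose_one]
        calc ((a⁻¹ : (Matrix (Fin n) (Fin n) (ZMod p))ˣ) :
              Matrix (Fin n) (Fin n) (ZMod p))ᵀ * red J *
              ((a⁻¹ : (Matrix (Fin n) (Fin n) (ZMod p))ˣ) : Matrix (Fin n) (Fin n) (ZMod p))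
            = ((a⁻¹ : (Matrix (Fin n) (Fin n) (ZMod p))ˣ) : Matrix (Fin n) (Fin n) (ZMod p))ᵀ *
              ((a : Matrix (Fin n) (Fin n) (ZMod p))ᵀ * red J * a) *
              ((a⁻¹ : (Matrix (Fin n) (Fin n) (ZMod p))ˣ) : Matrix (Fin n) (Fin n) (ZMod p)) := by
              rw [ha]
          _ = (((a⁻¹ : (Matrix (Fin n) (Fin n) (ZMod p))ˣ) :
              Matrix (Fin n) (Fin n) (ZMod p))ᵀ * (a : Matrix (Fin n) (Fin n) (ZMod p))ᵀ) * red J *
              ((a : Matrix (Fin n) (Fin n) (ZMod p)) *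
              ((a⁻¹ : (Matrix (Fin n) (Fin n) (ZMod p))ˣ) :
                Matrix (Fin n) (Fin n) (ZMod p))) := by
              simp only [Matrix.mul_assoc]
          _ = red J := by rw [h1, h2, one_mul, mul_one] }
  have hredJ : ∀ h : Matrix (Fin n) (Fin n) ℤ_[p], hᵀ * J * h = J →
      (red h)ᵀ * red J * red h = red J := by
    intro h hh
    rw [← red_transpose, ← red_mul, ← red_mul, hh]
  have hunit : ∀ a : Matrix (Fin n) (Fin n) (ZMod p), aᵀ * red J * a = red J → IsUnit a := by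
    intro a ha
    rw [Matrix.isUnit_iff_isUnit_det, isUnit_iff_ne_zero]
    intro h0
    have h1 := congrArg Matrix.det ha
    rw [det_mul, h0, mul_zero] at h1
    have h4 : (red J).det = PadicInt.toZMod J.det := by
      rw [RingHom.map_det]
      rfl
    rw [h4] at h1
    exact (isUnit_iff_toZMod _).1 hJd h1.symm
  let θ : Γ →* Ob :=
    { toFun := fun a => ⟨(rd R).toHomUnits a, hredJ _ (hJ a)⟩
      map_one' := Subtype.ext (map_one _)
      map_mul' := fun a b => Subtype.ext (map_mul _ a b) }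
  have hθ : ∀ a, ((θ a : (Matrix (Fin n) (Fin n) (ZMod p))ˣ) : Matrix (Fin n) (Fin n) (ZMod p)) =
      red (R a) := fun a => rfl
  have hcardOb : Nat.card Ob ≤
      Nat.card {g : Matrix (Fin n) (Fin n) (ZMod p) // gᵀ * red J * g = red J} := by
    refine Nat.card_le_card_of_injective (fun u : Ob => ⟨((u : (Matrix (Fin n) (Fin n) (ZMod p))ˣ) :
      Matrix (Fin n) (Fin n) (ZMod p)), u.2⟩) fun u u' h => ?_
    exact Subtype.ext (Units.ext (congrArg Subtype.val h))
  have hcardH : Nat.card (MonoidHom.mrange (rd R)) ≤ Nat.card θ.range := by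
    refine Nat.card_le_card_of_surjective (fun x : θ.range =>
      (⟨((x.1 : (Matrix (Fin n) (Fin n) (ZMod p))ˣ) : Matrix (Fin n) (Fin n) (ZMod p)), by
        obtain ⟨a, ha⟩ := x.2
        exact ⟨a, by rw [← ha]; rfl⟩⟩ : MonoidHom.mrange (rd R))) ?_
    rintro ⟨_, ⟨a, rfl⟩⟩
    exact ⟨⟨θ a, ⟨a, rfl⟩⟩, rfl⟩
  have hidx : θ.range.index ≤ cst n := by
    have h1 := Subgroup.card_mul_index θ.range
    have h2 := card_bound hn0 hpc hs hJ hJd hP hv hg1 hg
    have h3 : 0 < Nat.card θ.range := Nat.card_pos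
    refine Nat.le_of_mul_le_mul_left ?_ h3
    rw [h1]
    calc Nat.card Ob ≤ cst n * Nat.card (MonoidHom.mrange (rd R)) := hcardOb.trans h2
      _ ≤ cst n * Nat.card θ.range := Nat.mul_le_mul_left _ hcardH
      _ = _ := mul_comm _ _
  -- representatives
  have hrep : ∀ q : Ob ⧸ θ.range, ∃ t : Matrix (Fin n) (Fin n) ℤ_[p],
      (∃ h : Matrix (Fin n) (Fin n) ℤ_[p], ∃ hh : hᵀ * J * h = J,
        (QuotientGroup.mk (⟨(hunit _ (hredJ h hh)).unit, hredJ h hh⟩ : Ob) : Ob ⧸ θ.range) = q) →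
      ∃ ht : tᵀ * J * t = J,
        (QuotientGroup.mk (⟨(hunit _ (hredJ t ht)).unit, hredJ t ht⟩ : Ob) : Ob ⧸ θ.range) = q := by
    intro q
    by_cases hq : ∃ h : Matrix (Fin n) (Fin n) ℤ_[p], ∃ hh : hᵀ * J * h = J,
        (QuotientGroup.mk (⟨(hunit _ (hredJ h hh)).unit, hredJ h hh⟩ : Ob) : Ob ⧸ θ.range) = q
    · obtain ⟨h, hh, hq'⟩ := hq
      exact ⟨h, fun _ => ⟨hh, hq'⟩⟩
    · exact ⟨1, fun h => absurd h hq⟩
  choose t ht using hrep
  haveI : Fintype (Ob ⧸ θ.range) := Fintype.ofFinite _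
  refine ⟨Finset.univ.image t, ?_, fun h hh => ?_⟩
  · refine Finset.card_image_le.trans ?_
    rw [Finset.card_univ, ← Nat.card_eq_fintype_card]
    exact hidx
  · let q : Ob ⧸ θ.range := QuotientGroup.mk (⟨(hunit _ (hredJ h hh)).unit, hredJ h hh⟩ : Ob)
    obtain ⟨ht1, ht2⟩ := ht q ⟨h, hh, rfl⟩
    refine ⟨t q, Finset.mem_image.2 ⟨q, Finset.mem_univ _, rfl⟩, ?_⟩
    set t₀ := t q with ht₀
    rw [QuotientGroup.eq] at ht2
    obtain ⟨a, ha⟩ := ht2
    -- `red h = red t₀ * red (R a)`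
    have h1 : red h = red t₀ * red (R a) := by
      have h2 : (⟨(hunit _ (hredJ h hh)).unit, hredJ h hh⟩ : Ob) =
          (⟨(hunit _ (hredJ t₀ ht1)).unit, hredJ t₀ ht1⟩ : Ob) * θ a := by
        rw [ha, mul_inv_cancel_left]
      have h3 := congrArg (fun u : Ob => ((u : (Matrix (Fin n) (Fin n) (ZMod p))ˣ) :
        Matrix (Fin n) (Fin n) (ZMod p))) h2
      exact h3
    have ht0u : IsUnit t₀.det := by
      have h4 := congrArg Matrix.det ht1
      rw [det_mul] at h4
      exact isUnit_of_mul_isUnit_right (h4 ▸ hJd)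
    have hti : t₀ * t₀⁻¹ = 1 := Matrix.mul_nonsing_inv _ ht0u
    have hit : t₀⁻¹ * t₀ = 1 := Matrix.nonsing_inv_mul _ ht0u
    obtain ⟨a', ha'⟩ := mem_range_of_red hc hp3 hJ hgr (h := R a⁻¹ * (t₀⁻¹ * h)) (by
      have h5 : (t₀⁻¹)ᵀ * J * t₀⁻¹ = J := by
        calc (t₀⁻¹)ᵀ * J * t₀⁻¹ = (t₀⁻¹)ᵀ * (t₀ᵀ * J * t₀) * t₀⁻¹ := by rw [ht1]
          _ = ((t₀⁻¹)ᵀ * t₀ᵀ) * J * (t₀ * t₀⁻¹) := by simp only [Matrix.mul_assoc]
          _ = J := by
              rw [hti, ← transpose_mul, hti, transpose_one, Matrix.one_mul, Matrix.mul_one]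
      rw [transpose_mul, transpose_mul]
      calc hᵀ * (t₀⁻¹)ᵀ * (R a⁻¹)ᵀ * J * (R a⁻¹ * (t₀⁻¹ * h))
          = hᵀ * ((t₀⁻¹)ᵀ * ((R a⁻¹)ᵀ * J * R a⁻¹) * t₀⁻¹) * h := by
            simp only [Matrix.mul_assoc]
        _ = J := by rw [hJ, h5, hh]) (by
      rw [red_mul, red_mul, h1, ← Matrix.mul_assoc (red t₀⁻¹), ← red_mul t₀⁻¹, hit, red_one,
        Matrix.one_mul, ← red_mul, ← map_mul, inv_mul_cancel, map_one, red_one])
    refine ⟨a * a', ?_⟩
    rw [map_mul, ha', ← Matrix.mul_assoc (R a), ← map_mul, mul_inv_cancel, map_one, Matrix.one_mul,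
      ← Matrix.mul_assoc, hti, Matrix.one_mul]

end

end Pool.Agent.U175.LP
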