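import Pool.Agent.U273.AI.H2Main
import Pool.Agent.R932.OP.NtCay
import Pool.Agent.Y884.ZI.Open
import Pool.Agent.U175.LP.S5

/-!
# Coverings by cosets, and the integral points of the Mumford-Tate group
-/

set_option autoImplicit false
set_option linter.unusedSectionVars false
set_option linter.style.haveILetI false

namespace Pool.Agent.U175.LP

open PadicInt Module Matrix Filter Topology Pool.Agent.U175.LP.Pub Pool.Agent.Y142.ZO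
open Pool.Agent.Y142.ZI Pool.Agent.U273.AI Pool.Agent.Y95.MT Pool.Agent.R932
open Pool.Agent.W544.PG (HS)

noncomputable section

section cov

/-- `S` is in the union of at most `C` cosets of `A`. -/
def Cov {M : Type*} [Monoid M] (C : ℕ) (A S : Set M) : Prop :=
  ∃ T : Finset M, T.card ≤ C ∧ ∀ g ∈ S, ∃ t ∈ T, ∃ a ∈ A, g = t * a

variable {M : Type*} [Monoid M] {C C' : ℕ} {A A' S S' : Set M} {G : Type*} [Group G]

theorem Cov.mono (h : Cov C A S) (hC : C ≤ C') (hS : S' ⊆ S) : Cov C' A S' := by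
  obtain ⟨T, hT, h⟩ := h
  exact ⟨T, hT.trans hC, fun g hg => h g (hS hg)⟩

theorem Cov.mono_left (h : Cov C A S) (hA : A ⊆ A') : Cov C A' S := by
  obtain ⟨T, hT, h⟩ := h
  refine ⟨T, hT, fun g hg => ?_⟩
  obtain ⟨t, ht, a, ha, h1⟩ := h g hg
  exact ⟨t, ht, a, hA ha, h1⟩

theorem Cov.sub (ρ : G →* M) (Δ : Subgroup G) [hΔ : Δ.FiniteIndex]
    (h : Cov C (Set.range ρ) S) : Cov (C * Δ.index) (ρ '' Δ) S := by
  classical
  obtain ⟨T, hT, h⟩ := h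
  haveI : Finite (G ⧸ Δ) := Subgroup.finite_quotient_of_finiteIndex
  haveI : Fintype (G ⧸ Δ) := Fintype.ofFinite _
  refine ⟨(T ×ˢ (Finset.univ : Finset (G ⧸ Δ))).image fun x => x.1 * ρ x.2.out, ?_,
    fun g hg => ?_⟩
  · refine Finset.card_image_le.trans ?_
    rw [Finset.card_product, Finset.card_univ, ← Nat.card_eq_fintype_card]
    exact Nat.mul_le_mul_right _ hT
  · obtain ⟨t, ht, _, ⟨a, rfl⟩, rfl⟩ := h g hg
    refine ⟨t * ρ (QuotientGroup.mk a : G ⧸ Δ).out, Finset.mem_image.2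
      ⟨(t, QuotientGroup.mk a), Finset.mem_product.2 ⟨ht, Finset.mem_univ _⟩, rfl⟩,
      ρ ((QuotientGroup.mk a : G ⧸ Δ).out⁻¹ * a), ⟨_, ?_, rfl⟩, ?_⟩
    · have h1 : (QuotientGroup.mk (QuotientGroup.mk a : G ⧸ Δ).out : G ⧸ Δ) =
          QuotientGroup.mk a := QuotientGroup.out_eq' _
      exact QuotientGroup.eq.1 h1
    · rw [mul_assoc, ← map_mul, mul_inv_cancel_left]

theorem Cov.refine (ρ : G →* M) (Δ : Subgroup G) (h : Cov C (ρ '' Δ) S) :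
    ∃ T : Finset M, T.card ≤ C ∧ (T : Set M) ⊆ S ∧
      ∀ g ∈ S, ∃ t ∈ T, ∃ a ∈ ρ '' (Δ : Set G), g = t * a := by
  classical
  obtain ⟨T, hT, h⟩ := h
  have hch : ∀ t : M, ∃ x : M, (∃ a ∈ ρ '' (Δ : Set G), t * a ∈ S) →
      x ∈ S ∧ ∃ a ∈ ρ '' (Δ : Set G), x = t * a := by
    intro t
    by_cases ht : ∃ a ∈ ρ '' (Δ : Set G), t * a ∈ S
    · obtain ⟨a, ha, hs⟩ := ht
      exact ⟨t * a, fun _ => ⟨hs, a, ha, rfl⟩⟩
    · exact ⟨1, fun h => absurd h ht⟩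
  choose x hx using hch
  refine ⟨(T.filter fun t => ∃ a ∈ ρ '' (Δ : Set G), t * a ∈ S).image x, ?_, ?_, fun g hg => ?_⟩
  · exact (Finset.card_image_le.trans (Finset.card_filter_le _ _)).trans hT
  · intro y hy
    rw [Finset.mem_coe, Finset.mem_image] at hy
    obtain ⟨t, ht, rfl⟩ := hy
    exact (hx t (Finset.mem_filter.1 ht).2).1
  · obtain ⟨t, ht, a, ha, rfl⟩ := h g hg
    obtain ⟨h1, a', ha', h2⟩ := hx t ⟨a, ha, hg⟩
    refine ⟨x t, Finset.mem_image.2 ⟨t, Finset.mem_filter.2 ⟨ht, a, ha, hg⟩, rfl⟩, ?_⟩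
    obtain ⟨δ, hδ, rfl⟩ := ha
    obtain ⟨δ', hδ', rfl⟩ := ha'
    refine ⟨ρ (δ'⁻¹ * δ), ⟨_, Δ.mul_mem (Δ.inv_mem hδ') hδ, rfl⟩, ?_⟩
    rw [h2, mul_assoc, ← map_mul, mul_inv_cancel_left]

end cov

variable {ℓ : ℕ} [hℓ : Fact ℓ.Prime] {n : ℕ}

/-- **Open images and compact sets of isometries.** -/
theorem cov_of_open {G : Type} [Group G] {ρ : G →* Matrix (Fin n) (Fin n) ℚ_[ℓ]}
    {Q : Matrix (Fin n) (Fin n) ℚ_[ℓ]} (hQ : Q.det ≠ 0) (hopen : OpenImage ℓ ρ Q)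
    {K : Set (Matrix (Fin n) (Fin n) ℚ_[ℓ])} (hK : IsCompact K) (hiso : ∀ t ∈ K, Isom Q t) :
    ∃ C, Cov C (Set.range ρ) K := by
  classical
  obtain ⟨ε, hε, hopen⟩ := hopen
  have hdet : ∀ t, Isom Q t → IsUnit t.det := by
    intro t ht
    rw [isUnit_iff_ne_zero]
    intro h0
    have h1 := congrArg Matrix.det (show tᵀ * Q * t = Q from ht)
    rw [det_mul, h0, mul_zero] at h1
    exact hQ h1.symm
  let U : Matrix (Fin n) (Fin n) ℚ_[ℓ] → Set (Matrix (Fin n) (Fin n) ℚ_[ℓ]) := fun t =>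
    {t' | ∀ i j, ‖(t⁻¹ * t' - 1) i j‖ < ε}
  obtain ⟨T, hT, hcov⟩ := hK.elim_nhds_subcover U (by
    intro t ht
    change ∀ᶠ t' in 𝓝 t, ∀ i j, ‖(t⁻¹ * t' - 1) i j‖ < ε
    rw [Filter.eventually_all]
    intro i
    rw [Filter.eventually_all]
    intro j
    have hc : Continuous fun t' : Matrix (Fin n) (Fin n) ℚ_[ℓ] => ‖(t⁻¹ * t' - 1) i j‖ := by
      have h1 : Continuous fun t' : Matrix (Fin n) (Fin n) ℚ_[ℓ] => t⁻¹ * t' - 1 :=
        (continuous_const.matrix_mul continuous_id).sub continuous_const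
      exact (h1.matrix_elem i j).norm
    have h0 : ‖(t⁻¹ * t - 1) i j‖ < ε := by
      rw [Matrix.nonsing_inv_mul _ (hdet t (hiso t ht)), sub_self, Matrix.zero_apply, norm_zero]
      exact hε
    exact hc.continuousAt.eventually_lt continuousAt_const h0)
  refine ⟨T.card, T, le_rfl, fun g hg => ?_⟩
  obtain ⟨t, ht, hgt⟩ := Set.mem_iUnion₂.1 (hcov hg)
  have htu := hdet t (hiso t (hT t ht))
  have h1 : Isom Q (t⁻¹ * g) := by
    have h2 : tᵀ * Q * t = Q := hiso t (hT t ht)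
    have h3 : gᵀ * Q * g = Q := hiso g hg
    have hti : t * t⁻¹ = 1 := Matrix.mul_nonsing_inv _ htu
    have h5 : (t⁻¹)ᵀ * Q * t⁻¹ = Q := by
      calc (t⁻¹)ᵀ * Q * t⁻¹ = (t⁻¹)ᵀ * (tᵀ * Q * t) * t⁻¹ := by rw [h2]
        _ = ((t⁻¹)ᵀ * tᵀ) * Q * (t * t⁻¹) := by simp only [Matrix.mul_assoc]
        _ = Q := by rw [hti, ← transpose_mul, hti, transpose_one, Matrix.one_mul, Matrix.mul_one]
    change (t⁻¹ * g)ᵀ * Q * (t⁻¹ * g) = Q
    rw [transpose_mul]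
    calc gᵀ * (t⁻¹)ᵀ * Q * (t⁻¹ * g) = gᵀ * ((t⁻¹)ᵀ * Q * t⁻¹) * g := by
          simp only [Matrix.mul_assoc]
      _ = Q := by rw [h5, h3]
  obtain ⟨σ, hσ⟩ := hopen _ h1 hgt
  refine ⟨t, ht, _, ⟨σ, rfl⟩, ?_⟩
  rw [hσ, ← Matrix.mul_assoc, Matrix.mul_nonsing_inv _ htu, Matrix.one_mul]

variable {κ : Type} [Fintype κ] [DecidableEq κ]

/-- The matrix `g` maps the lattice generated by the columns of `B` onto itself. -/
def Pres {ι : Type} [Fintype ι] [DecidableEq ι] (B : Matrix ι ι ℚ) (g : Matrix ι ι ℚ_[ℓ]) : Prop :=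
  ∃ m : Matrix ι ι ℤ_[ℓ], IsUnit m ∧
    g * B.map (algebraMap ℚ ℚ_[ℓ]) = B.map (algebraMap ℚ ℚ_[ℓ]) * m.map (algebraMap ℤ_[ℓ] ℚ_[ℓ])

/-- The isometries `t` such that `(1, t)` is in a compact set. -/
theorem compact_pres {B : Matrix (κ ⊕ Fin n) (κ ⊕ Fin n) ℚ} (hB : B.det ≠ 0)
    (Q : Matrix (Fin n) (Fin n) ℚ_[ℓ]) :
    ∃ K : Set (Matrix (Fin n) (Fin n) ℚ_[ℓ]), IsCompact K ∧ (∀ t ∈ K, Isom Q t) ∧
      ∀ t, Isom Q t → Pres B (fromBlocks (1 : Matrix κ κ ℚ_[ℓ]) 0 0 t) → t ∈ K := by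
  set B' : Matrix (κ ⊕ Fin n) (κ ⊕ Fin n) ℚ_[ℓ] := B.map (algebraMap ℚ ℚ_[ℓ]) with hB'
  have hBu : IsUnit B'.det := by
    rw [isUnit_iff_ne_zero, hB']
    have h1 := (algebraMap ℚ ℚ_[ℓ]).map_det B
    rw [RingHom.mapMatrix_apply] at h1
    rw [← h1]
    exact (map_ne_zero _).2 hB
  set I : Set (Matrix (κ ⊕ Fin n) (κ ⊕ Fin n) ℚ_[ℓ]) :=
    Set.pi Set.univ fun _ => Set.pi Set.univ fun _ => Metric.closedBall 0 1 with hI
  have hIc : IsCompact I := isCompact_univ_pi fun _ => isCompact_univ_pi fun _ =>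
    isCompact_closedBall _ _
  have hmap : Continuous fun m : Matrix (κ ⊕ Fin n) (κ ⊕ Fin n) ℚ_[ℓ] => B' * m * B'⁻¹ :=
    (continuous_const.matrix_mul continuous_id).matrix_mul continuous_const
  have hPc : IsCompact ((fun m => B' * m * B'⁻¹) '' I) := hIc.image hmap
  have hblk : Continuous fun m : Matrix (κ ⊕ Fin n) (κ ⊕ Fin n) ℚ_[ℓ] => m.toBlocks₂₂ := by
    refine continuous_matrix fun i j => ?_
    exact continuous_id.matrix_elem _ _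
  have hfb : Continuous fun t : Matrix (Fin n) (Fin n) ℚ_[ℓ] =>
      (fromBlocks (1 : Matrix κ κ ℚ_[ℓ]) 0 0 t : Matrix (κ ⊕ Fin n) (κ ⊕ Fin n) ℚ_[ℓ]) :=
    continuous_const.matrix_fromBlocks continuous_const continuous_const continuous_id
  refine ⟨{t | Isom Q t} ∩ (fun t => (fromBlocks (1 : Matrix κ κ ℚ_[ℓ]) 0 0 t :
    Matrix (κ ⊕ Fin n) (κ ⊕ Fin n) ℚ_[ℓ])) ⁻¹' ((fun m => B' * m * B'⁻¹) '' I), ?_,
    fun t ht => ht.1, fun t ht hp => ⟨ht, ?_⟩⟩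
  · refine IsCompact.of_isClosed_subset (hPc.image hblk) ?_ ?_
    · refine IsClosed.inter ?_ (hPc.isClosed.preimage hfb)
      have h1 : Continuous fun t : Matrix (Fin n) (Fin n) ℚ_[ℓ] => tᵀ * Q * t :=
        (continuous_id.matrix_transpose.matrix_mul continuous_const).matrix_mul continuous_id
      exact isClosed_eq h1 continuous_const
    · rintro t ⟨-, ht⟩
      exact ⟨_, ht, toBlocks_fromBlocks₂₂ _ _ _ _⟩
  · obtain ⟨m, -, hm⟩ := hp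
    refine ⟨m.map (algebraMap ℤ_[ℓ] ℚ_[ℓ]), ?_, ?_⟩
    · intro i _ j _
      rw [Metric.mem_closedBall, dist_zero_right, Matrix.map_apply]
      exact PadicInt.norm_le_one _
    · change B' * m.map (algebraMap ℤ_[ℓ] ℚ_[ℓ]) * B'⁻¹ = _
      rw [← hm, Matrix.mul_assoc, Matrix.mul_nonsing_inv _ hBu, Matrix.mul_one]

/-- Almost all rational matrices are integral. -/
theorem exists_int {ι ι' : Type} [Fintype ι] [Fintype ι'] (B : Matrix ι ι' ℚ) :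
    ∃ N₀ : ℕ, ∀ (ℓ : ℕ) [Fact ℓ.Prime], N₀ < ℓ →
      ∃ Bz : Matrix ι ι' ℤ_[ℓ], Bz.map (algebraMap ℤ_[ℓ] ℚ_[ℓ]) = B.map (algebraMap ℚ ℚ_[ℓ]) := by
  refine ⟨∏ i, ∏ j, (B i j).den, fun ℓ _ hlt => ?_⟩
  have hpos : 0 < ∏ i, ∏ j, (B i j).den :=
    Finset.prod_pos fun i _ => Finset.prod_pos fun j _ => (B i j).den_pos
  have h1 : ∀ i j, ‖((B i j : ℚ) : ℚ_[ℓ])‖ ≤ 1 := by
    intro i j
    refine Padic.norm_rat_le_one fun hd => ?_
    have h2 : (B i j).den ∣ ∏ i, ∏ j, (B i j).den :=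
      (Finset.dvd_prod_of_mem (fun j => (B i j).den) (Finset.mem_univ j)).trans
        (Finset.dvd_prod_of_mem (fun i => ∏ j, (B i j).den) (Finset.mem_univ i))
    exact absurd (Nat.le_of_dvd hpos (hd.trans h2)) (by omega)
  refine ⟨Matrix.of fun i j => ⟨((B i j : ℚ) : ℚ_[ℓ]), h1 i j⟩, ?_⟩
  ext i j
  rw [Matrix.map_apply, Matrix.map_apply, eq_ratCast]
  rfl

/-- Integrality of the isometries. -/
theorem int_of_pres {B : Matrix (κ ⊕ Fin n) (κ ⊕ Fin n) ℚ} (hB : B.det ≠ 0)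
    {Bz Bz' : Matrix (κ ⊕ Fin n) (κ ⊕ Fin n) ℤ_[ℓ]}
    (h1 : Bz.map (algebraMap ℤ_[ℓ] ℚ_[ℓ]) = B.map (algebraMap ℚ ℚ_[ℓ]))
    (h2 : Bz'.map (algebraMap ℤ_[ℓ] ℚ_[ℓ]) = (B⁻¹).map (algebraMap ℚ ℚ_[ℓ]))
    {t : Matrix (Fin n) (Fin n) ℚ_[ℓ]} (ht : Pres B (fromBlocks (1 : Matrix κ κ ℚ_[ℓ]) 0 0 t)) :
    ∃ h : Matrix (Fin n) (Fin n) ℤ_[ℓ], h.map (algebraMap ℤ_[ℓ] ℚ_[ℓ]) = t := by
  obtain ⟨m, -, hm⟩ := ht
  have h3 : B.map (algebraMap ℚ ℚ_[ℓ]) * (B⁻¹).map (algebraMap ℚ ℚ_[ℓ]) = 1 := by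
    rw [← Matrix.map_mul, Matrix.mul_nonsing_inv _ (isUnit_iff_ne_zero.2 hB),
      Matrix.map_one _ (map_zero _) (map_one _)]
  have h4 : fromBlocks (1 : Matrix κ κ ℚ_[ℓ]) 0 0 t =
      (Bz * m * Bz').map (algebraMap ℤ_[ℓ] ℚ_[ℓ]) := by
    rw [Matrix.map_mul, Matrix.map_mul, h1, h2, ← hm, Matrix.mul_assoc, h3, Matrix.mul_one]
  refine ⟨(Bz * m * Bz').toBlocks₂₂, ?_⟩
  have h5 := congrArg Matrix.toBlocks₂₂ h4
  rw [toBlocks_fromBlocks₂₂] at h5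
  rw [h5]
  rfl

end

end Pool.Agent.U175.LP
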