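import Pool.Agent.U175.LP.S6

/-!
# From residual groups to the integral Mumford-Tate conjecture
-/

set_option autoImplicit false
set_option linter.unusedSectionVars false
set_option linter.style.haveILetI false

namespace Pool.Agent.U175.LP

open PadicInt Module Matrix Filter Topology NumberField IsDedekindDomain
open Pool.Agent.U175.LP.Pub Pool.Agent.Y142.ZO
open Pool.Agent.Y142.ZI Pool.Agent.U273.AI Pool.Agent.Y95.MT Pool.Agent.R932 Pool.Agent.R932.PO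
open Pool.Agent.W544.PG (HS)

noncomputable section

theorem nil_pow {F : Type*} [Field F] {n : ℕ} {N : Matrix (Fin n) (Fin n) F} (h : IsNilpotent N) :
    N ^ n = 0 := by
  have h1 := Matrix.isNilpotent_charpoly_sub_pow_of_isNilpotent h
  have h2 : N.charpoly = Polynomial.X ^ n := by
    have h3 := isNilpotent_iff_eq_zero.1 h1
    rw [Fintype.card_fin] at h3
    exact sub_eq_zero.1 h3
  have h3 := Matrix.aeval_self_charpoly N
  rwa [h2, map_pow, Polynomial.aeval_X] at h3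

/-- Elements of order `p` are unipotent. -/
theorem unip_of_order {p : ℕ} [hp : Fact p.Prime] {n : ℕ} {u : Matrix (Fin n) (Fin n) (ZMod p)}
    (hu : u ^ p = 1) : (u - 1) ^ n = 0 := by
  rcases Nat.eq_zero_or_pos n with h0 | hn
  · subst h0
    rw [pow_zero]
    exact Subsingleton.elim _ _
  · haveI : Nonempty (Fin n) := ⟨⟨0, hn⟩⟩
    haveI : CharP (Matrix (Fin n) (Fin n) (ZMod p)) p := inferInstance
    refine nil_pow ⟨p, ?_⟩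
    rw [sub_pow_char_of_commute p (Commute.one_right u), hu, one_pow, sub_self]

variable {n : ℕ} {T : HS n} {κ : Type} [Fintype κ] [DecidableEq κ]

/-- `A` is a subset of `G` and `G` is the union of at most `C` cosets of `A` with representatives in
`G`. -/
def HasIdx {M : Type*} [Monoid M] (C : ℕ) (A G : Set M) : Prop :=
  A ⊆ G ∧ ∃ T : Finset M, T.card ≤ C ∧ (T : Set M) ⊆ G ∧ ∀ g ∈ G, ∃ t ∈ T, ∃ a ∈ A, g = t * a

section one

variable {ℓ : ℕ} [hℓ : Fact ℓ.Prime] {G : Type} [Group G]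
  {α : G →* Matrix κ κ ℚ_[ℓ]} {β : G →* Matrix (Fin n) (Fin n) ℤ_[ℓ]}

theorem inMT_of_closure {ι : Type} [Fintype ι] [DecidableEq ι] {h : ℂ → Matrix ι ι ℂ}
    {g : Matrix ι ι ℚ_[ℓ]}
    (hg : InMT h (g.map (algebraMap ℚ_[ℓ] (AlgebraicClosure ℚ_[ℓ])))) : InMT h g := by
  intro f hf
  have h1 := hg f hf
  rw [vQ_map (algebraMap ℚ_[ℓ] (AlgebraicClosure ℚ_[ℓ]))] at h1
  exact (map_eq_zero _).1 h1

/-- The block form of the points of the Mumford-Tate group. -/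
theorem block_of_MT (hB : FullMT T κ) {g : Matrix (κ ⊕ Fin n) (κ ⊕ Fin n) ℚ_[ℓ]}
    (hg : g.det ≠ 0) (h : InMT (hM (fun _ => (1 : Matrix κ κ ℂ)) T) g) :
    g = fromBlocks 1 0 0 g.toBlocks₂₂ ∧ Isom (T.Q.map (algebraMap ℚ ℚ_[ℓ])) g.toBlocks₂₂ ∧
      g.toBlocks₂₂.det = 1 := by
  obtain ⟨e⟩ := Pool.Agent.Y95.MT.exists_emb ℓ
  obtain ⟨h1, h2⟩ := (hB ℚ_[ℓ] (e.comp (algebraMap ℚ_[ℓ] (AlgebraicClosure ℚ_[ℓ]))) g hg).1 h
  obtain ⟨h3, h4⟩ := inSO_one1.1 h2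
  exact ⟨h1, h3, h4⟩

theorem MT_of_block (hB : FullMT T κ) {t : Matrix (Fin n) (Fin n) ℚ_[ℓ]}
    (ht : Isom (T.Q.map (algebraMap ℚ ℚ_[ℓ])) t) (hd : t.det = 1) :
    InMT (hM (fun _ => (1 : Matrix κ κ ℂ)) T) (fromBlocks (1 : Matrix κ κ ℚ_[ℓ]) 0 0 t) := by
  obtain ⟨e⟩ := Pool.Agent.Y95.MT.exists_emb ℓ
  refine (hB ℚ_[ℓ] (e.comp (algebraMap ℚ_[ℓ] (AlgebraicClosure ℚ_[ℓ]))) _ ?_).2 ⟨?_, ?_⟩
  · rw [fb_det, det_one, one_mul, hd]
    exact one_ne_zero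
  · rw [toBlocks_fromBlocks₂₂]
  · rw [toBlocks_fromBlocks₂₂]
    exact inSO_one1.2 ⟨ht, hd⟩

theorem tot_det_ne (σ : G) : (tot α β σ).det ≠ 0 := by
  intro h0
  have h1 : tot α β σ * tot α β σ⁻¹ = 1 := by rw [← map_mul, mul_inv_cancel, map_one]
  have h2 := congrArg Matrix.det h1
  rw [det_mul, h0, zero_mul, det_one] at h2
  exact zero_ne_one h2

theorem pres_det {ι : Type} [Fintype ι] [DecidableEq ι] {B : Matrix ι ι ℚ} (hB : B.det ≠ 0)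
    {g : Matrix ι ι ℚ_[ℓ]} (h : Pres B g) : g.det ≠ 0 := by
  obtain ⟨m, hm, h1⟩ := h
  intro h0
  have h2 := congrArg Matrix.det h1
  rw [det_mul, h0, zero_mul, det_mul] at h2
  have h3 : (B.map (algebraMap ℚ ℚ_[ℓ])).det ≠ 0 := by
    have h4 := (algebraMap ℚ ℚ_[ℓ]).map_det B
    rw [RingHom.mapMatrix_apply] at h4
    rw [← h4]
    exact (map_ne_zero _).2 hB
  have h5 : (m.map (algebraMap ℤ_[ℓ] ℚ_[ℓ])).det ≠ 0 := by
    have h4 := (algebraMap ℤ_[ℓ] ℚ_[ℓ]).map_det m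
    rw [RingHom.mapMatrix_apply] at h4
    rw [← h4]
    exact (((Matrix.isUnit_iff_isUnit_det _).1 hm).map (algebraMap ℤ_[ℓ] ℚ_[ℓ])).ne_zero
  exact mul_ne_zero h3 h5 h2.symm

/-- **The index, from a covering of the isometries.** -/
theorem idx_of_cov (hB : FullMT T κ)
    (hmtc : MTC (hM (fun _ => (1 : Matrix κ κ ℂ)) T) (tot α β)) (Δ : Subgroup G)
    [Δ.FiniteIndex]
    (hΔ : ∀ σ ∈ Δ, InG0 (tot α β) ((tot α β σ).map (algebraMap ℚ_[ℓ] (AlgebraicClosure ℚ_[ℓ]))))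
    {Bm : Matrix (κ ⊕ Fin n) (κ ⊕ Fin n) ℚ} (hBm : Bm.det ≠ 0)
    (hpres : ∀ σ, Pres Bm (tot α β σ)) {C : ℕ}
    (hcov : Cov C (Set.range (qrep β)) {t | Isom (T.Q.map (algebraMap ℚ ℚ_[ℓ])) t ∧
      Pres Bm (fromBlocks (1 : Matrix κ κ ℚ_[ℓ]) 0 0 t)}) :
    HasIdx (C * Δ.index) (tot α β '' Δ)
      {g | Pres Bm g ∧ InMT (hM (fun _ => (1 : Matrix κ κ ℂ)) T) g} := by
  classical
  have hMT : ∀ σ ∈ Δ, InMT (hM (fun _ => (1 : Matrix κ κ ℂ)) T) (tot α β σ) := by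
    intro σ hσ
    refine inMT_of_closure ((hmtc _ ?_).1 (hΔ σ hσ))
    have h1 := (algebraMap ℚ_[ℓ] (AlgebraicClosure ℚ_[ℓ])).map_det (tot α β σ)
    rw [RingHom.mapMatrix_apply] at h1
    rw [← h1]
    exact (map_ne_zero _).2 (tot_det_ne σ)
  have hblk : ∀ σ ∈ Δ, tot α β σ = fromBlocks 1 0 0 (qrep β σ) := by
    intro σ hσ
    exact (block_of_MT hB (tot_det_ne σ) (hMT σ hσ)).1
  refine ⟨?_, ?_⟩
  · rintro _ ⟨σ, hσ, rfl⟩
    exact ⟨hpres σ, hMT σ hσ⟩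
  · refine Cov.refine (tot α β) Δ ?_
    obtain ⟨T', hT', h⟩ := Cov.sub (qrep β) Δ hcov
    refine ⟨T'.image fun t => fromBlocks 1 0 0 t, Finset.card_image_le.trans hT', ?_⟩
    rintro g ⟨hg1, hg2⟩
    obtain ⟨h1, h2, h3⟩ := block_of_MT hB (pres_det hBm hg1) hg2
    obtain ⟨t, ht, _, ⟨δ, hδ, rfl⟩, h4⟩ := h g.toBlocks₂₂ ⟨h2, by rwa [← h1]⟩
    refine ⟨_, Finset.mem_image.2 ⟨t, ht, rfl⟩, _, ⟨δ, hδ, rfl⟩, ?_⟩
    rw [hblk δ hδ, h1, h4, fromBlocks_multiply]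
    simp

variable [TopologicalSpace G] [IsTopologicalGroup G] [CompactSpace G]

/-- **A covering for every prime number.** -/
theorem cov_all (hn5 : 5 ≤ n) (hB : FullMT T κ) (hβ : Continuous β)
    (hform : ∀ σ, (qm (β σ))ᵀ * T.Q.map (algebraMap ℚ ℚ_[ℓ]) * qm (β σ) =
      T.Q.map (algebraMap ℚ ℚ_[ℓ]))
    (hmtc : MTC (hM (fun _ => (1 : Matrix κ κ ℂ)) T) (tot α β))
    {Bm : Matrix (κ ⊕ Fin n) (κ ⊕ Fin n) ℚ} (hBm : Bm.det ≠ 0) :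
    ∃ C, Cov C (Set.range (qrep β)) {t | Isom (T.Q.map (algebraMap ℚ ℚ_[ℓ])) t ∧
      Pres Bm (fromBlocks (1 : Matrix κ κ ℚ_[ℓ]) 0 0 t)} := by
  have hfull := full_of_mtc hn5 hB hβ hform hmtc
  have hopen : OpenImage ℓ (qrep β) (T.Q.map (algebraMap ℚ ℚ_[ℓ])) :=
    Pool.Agent.Y884.ZI.t ℓ n G (qrep β) (continuous_qm.comp hβ) _ (qsymm T) (qdet T) hform
      fun X hX => hfull X (by
        have h1 : (T.Q.map (algebraMap ℚ ℚ_[ℓ]) * X)ᵀ = -(T.Q.map (algebraMap ℚ ℚ_[ℓ]) * X) := hX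
        rw [transpose_mul, qsymm T] at h1
        change Xᵀ * _ + _ * X = 0
        rw [h1, neg_add_cancel])
  obtain ⟨K, hK1, hK2, hK3⟩ := compact_pres hBm (T.Q.map (algebraMap ℚ ℚ_[ℓ])) (κ := κ)
  obtain ⟨C, hC⟩ := cov_of_open (qdet T) hopen hK1 hK2
  exact ⟨C, hC.mono le_rfl fun t ht => hK3 t ht.1 ht.2⟩

end one

section res

variable {p : ℕ} [hp : Fact p.Prime] {G : Type} [Group G]

/-- The residual hypothesis. -/
structure Res (T : HS n) (R : G →* Matrix (Fin n) (Fin n) ℤ_[p]) (J : Matrix (Fin n) (Fin n) ℤ_[p]) :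
    Prop where
  form : ∃ c : ℚ_[p], c ≠ 0 ∧ J.map (algebraMap ℤ_[p] ℚ_[p]) = c • T.Q.map (algebraMap ℚ ℚ_[p])
  ne : red J ≠ 0
  prim : IsPrimitive J R
  refl : ∃ v, v ∈ RefSet J R
  order : ∃ g, red (R g) ≠ 1 ∧ red (R g) ^ p = 1

variable {R : G →* Matrix (Fin n) (Fin n) ℤ_[p]} {J : Matrix (Fin n) (Fin n) ℤ_[p]}

theorem Res.symm (h : Res T R J) : Jᵀ = J := by
  obtain ⟨c, -, hJc⟩ := h.form
  apply map_inj
  rw [transpose_map, hJc, transpose_smul, ← transpose_map, T.symm]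

theorem Res.iso (h : Res T R J)
    (hform : ∀ σ, (qm (R σ))ᵀ * T.Q.map (algebraMap ℚ ℚ_[p]) * qm (R σ) =
      T.Q.map (algebraMap ℚ ℚ_[p])) (g : G) : (R g)ᵀ * J * R g = J := by
  obtain ⟨c, -, hJc⟩ := h.form
  apply map_inj
  rw [Matrix.map_mul, Matrix.map_mul, transpose_map, hJc, mul_smul_comm, smul_mul_assoc]
  congr 1
  exact hform g

theorem Res.unimod (h : Res T R J)
    (hform : ∀ σ, (qm (R σ))ᵀ * T.Q.map (algebraMap ℚ ℚ_[p]) * qm (R σ) =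
      T.Q.map (algebraMap ℚ ℚ_[p])) : IsUnit J.det :=
  unimodular_of_primitive (fun g => ⟨1, by rw [Units.val_one, one_smul, h.iso hform]⟩) h.ne h.prim

/-- The Lie algebra. -/
theorem Res.full (h : Res T R J) (hp2 : 2 * n < p)
    (hform : ∀ σ, (qm (R σ))ᵀ * T.Q.map (algebraMap ℚ ℚ_[p]) * qm (R σ) =
      T.Q.map (algebraMap ℚ ℚ_[p])) (hp3 : 3 ≤ p) :
    ∀ X, Pool.Agent.Y142.ZS.SpLie (T.Q.map (algebraMap ℚ ℚ_[p])) X → IsTangent p (qrep R) X := by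
  intro X hX
  obtain ⟨c, hc, hJc⟩ := h.form
  obtain ⟨v, hv⟩ := h.refl
  obtain ⟨g, hg1, hg⟩ := h.order
  refine so_of_residual (R := R) (J := J) hp3 (fun g => rfl) h.symm (h.iso hform) h.ne h.prim
    ⟨_, v, hv.1, hv.2.choose_spec⟩ ⟨g, hg1, ?_⟩ ?_
  · exact pow_eq_zero_of_le' (unip_of_order hg) (by omega)
  · rw [hJc, mul_smul_comm, smul_mul_assoc, ← smul_add]
    have h1 : Xᵀ * T.Q.map (algebraMap ℚ ℚ_[p]) + T.Q.map (algebraMap ℚ ℚ_[p]) * X = 0 := hX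
    rw [h1, smul_zero]

/-- The valuation of the determinant is even if the rank is even. -/
theorem Res.even (h : Res T R J)
    (hform : ∀ σ, (qm (R σ))ᵀ * T.Q.map (algebraMap ℚ ℚ_[p]) * qm (R σ) =
      T.Q.map (algebraMap ℚ ℚ_[p])) (hn : Even n) :
    Even (T.Q.map (algebraMap ℚ ℚ_[p])).det.valuation := by
  obtain ⟨c, hc, hJc⟩ := h.form
  have hJd := h.unimod hform
  have h5 : (algebraMap ℤ_[p] ℚ_[p]) J.det =
      c ^ n * (T.Q.map (algebraMap ℚ ℚ_[p])).det := by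
    have h6 := congrArg Matrix.det hJc
    rw [det_smul, Fintype.card_fin] at h6
    rw [← h6, RingHom.map_det]
    rfl
  have h7 : ‖(algebraMap ℤ_[p] ℚ_[p]) J.det‖ = 1 := by
    have h8 := PadicInt.isUnit_iff.1 hJd
    rw [← h8]
    rfl
  have hQ0 : (T.Q.map (algebraMap ℚ ℚ_[p])).det ≠ 0 := qdet T
  rw [h5, norm_mul, norm_pow, Padic.norm_eq_zpow_neg_valuation hc,
    Padic.norm_eq_zpow_neg_valuation hQ0, ← zpow_natCast, ← _root_.zpow_mul, ← zpow_add₀ (by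
      exact_mod_cast (Fact.out : p.Prime).ne_zero)] at h7
  have h9 : -c.valuation * (n : ℤ) + -(T.Q.map (algebraMap ℚ ℚ_[p])).det.valuation = 0 := by
    by_contra hne
    have hp1 : (1 : ℝ) < p := by exact_mod_cast (Fact.out : p.Prime).one_lt
    exact hne ((zpow_eq_one_iff_right₀ (by positivity) hp1.ne').1 h7)
  obtain ⟨m, hm⟩ := hn
  refine ⟨-(c.valuation * m), ?_⟩
  have hm' : (n : ℤ) = m + m := by exact_mod_cast hm
  rw [hm'] at h9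
  linear_combination -h9

/-- **The uniform covering.** -/
theorem Res.cov [TopologicalSpace G] [CompactSpace G] (h : Res T R J) (hc : Continuous R)
    (hn0 : 0 < n) (hpc : cst n ≤ p)
    (hform : ∀ σ, (qm (R σ))ᵀ * T.Q.map (algebraMap ℚ ℚ_[p]) * qm (R σ) =
      T.Q.map (algebraMap ℚ ℚ_[p])) :
    Cov (cst n) (Set.range (qrep R)) {t | Isom (T.Q.map (algebraMap ℚ ℚ_[p])) t ∧
      ∃ m : Matrix (Fin n) (Fin n) ℤ_[p], m.map (algebraMap ℤ_[p] ℚ_[p]) = t} := by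
  classical
  obtain ⟨c, hc0, hJc⟩ := h.form
  obtain ⟨v, hv⟩ := h.refl
  obtain ⟨g, hg1, hg⟩ := h.order
  obtain ⟨T', hT', hcov⟩ := index_bound hc hn0 hpc h.symm (h.iso hform) (h.unimod hform) h.prim hv
    hg1 (unip_of_order hg)
  refine ⟨T'.image fun m => m.map (algebraMap ℤ_[p] ℚ_[p]), Finset.card_image_le.trans hT', ?_⟩
  rintro t ⟨ht, m, rfl⟩
  obtain ⟨t', ht', a, ha⟩ := hcov m (by
    apply map_inj
    rw [Matrix.map_mul, Matrix.map_mul, transpose_map, hJc, mul_smul_comm, smul_mul_assoc]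
    congr 1)
  refine ⟨_, Finset.mem_image.2 ⟨t', ht', rfl⟩, _, ⟨a, rfl⟩, ?_⟩
  rw [ha, Matrix.map_mul]
  rfl

end res

section back

variable {K : Type} [Field K] [NumberField K] {S : Set (HeightOneSpectrum (𝓞 K))}
  {P : HeightOneSpectrum (𝓞 K) → Polynomial ℚ} {Γ : Type} [Group Γ] [TopologicalSpace Γ]
  [IsTopologicalGroup Γ] [CompactSpace Γ] {s : GK K →* Γ} {kd : Kind}

/-- **From residual groups to the integral Mumford-Tate conjecture.** -/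
theorem back_core (hfit : Fits kd T.Q) (hn5 : 5 ≤ n) (hMT : FullMT T κ) (hS : S.Finite)
    (hs : Continuous s)
    (α : ∀ (ℓ : ℕ) [Fact ℓ.Prime], Γ →* Matrix κ κ ℚ_[ℓ])
    (hα : ∀ (ℓ : ℕ) [Fact ℓ.Prime], Continuous (α ℓ) ∧ (Set.range (α ℓ)).Finite)
    (β : ∀ (ℓ : ℕ) [Fact ℓ.Prime], Γ →* Matrix (Fin n) (Fin n) ℤ_[ℓ])
    (hβ : ∀ (ℓ : ℕ) [Fact ℓ.Prime], RepT s T S P ℓ (β ℓ))
    {Bm : Matrix (κ ⊕ Fin n) (κ ⊕ Fin n) ℚ} (hBm : Bm.det ≠ 0)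
    (habs : ∀ (ℓ : ℕ) [Fact ℓ.Prime], AbsIrr ℓ ((qrep (β ℓ)).comp s))
    (hres : {ℓ | ∃ _ : Fact ℓ.Prime, ¬ ∃ J, Res T ((β ℓ).comp s) J}.Finite) :
    (∀ (ℓ : ℕ) [Fact ℓ.Prime],
      MTC (hM (fun _ => (1 : Matrix κ κ ℂ)) T) (tot ((α ℓ).comp s) ((β ℓ).comp s)) ∧
      MTC (hM (fun _ => (1 : Matrix κ κ ℂ)) T) (tot (α ℓ) (β ℓ))) ∧
    (∀ (ℓ : ℕ) [Fact ℓ.Prime], ∃ C, Cov C (Set.range (qrep ((β ℓ).comp s)))
      {t | Isom (T.Q.map (algebraMap ℚ ℚ_[ℓ])) t ∧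
      Pres Bm (fromBlocks (1 : Matrix κ κ ℚ_[ℓ]) 0 0 t)}) ∧
    ∃ N₀ : ℕ, ∀ (ℓ : ℕ) [Fact ℓ.Prime], N₀ < ℓ → Cov (cst n) (Set.range (qrep ((β ℓ).comp s)))
      {t | Isom (T.Q.map (algebraMap ℚ ℚ_[ℓ])) t ∧
      Pres Bm (fromBlocks (1 : Matrix κ κ ℚ_[ℓ]) 0 0 t)} := by
  classical
  obtain ⟨N₁, hN₁⟩ := hres.bddAbove
  have hres' : ∀ (ℓ : ℕ) [Fact ℓ.Prime], N₁ < ℓ → ∃ J, Res T ((β ℓ).comp s) J := by
    intro ℓ hℓ hlt
    by_contra hno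
    exact absurd (hN₁ ⟨hℓ, hno⟩) (by omega)
  have hform : ∀ (ℓ : ℕ) [Fact ℓ.Prime] (σ : GK K),
      (qm ((β ℓ).comp s σ))ᵀ * T.Q.map (algebraMap ℚ ℚ_[ℓ]) * qm ((β ℓ).comp s σ) =
      T.Q.map (algebraMap ℚ ℚ_[ℓ]) := fun ℓ _ σ => (hβ ℓ).form (s σ)
  -- one large prime number
  obtain ⟨p, hplt, hpp⟩ := Nat.exists_infinite_primes (N₁ + 2 * n + (n - 2) * (n - 4) + 5)
  haveI : Fact p.Prime := ⟨hpp⟩
  obtain ⟨J, hJ⟩ := hres' p (by omega)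
  have hfull := hJ.full (by omega) (hform p) (by omega)
  have hal : Allows kd n p (T.Q.map (algebraMap ℚ ℚ_[p])) := by
    cases kd with
    | sym =>
      have : p ≠ 2 := by omega
      exact this
    | odd =>
      intro hd
      exact absurd (Nat.le_of_dvd (by omega) hd) (by omega)
    | even =>
      refine ⟨fun hd => ?_, hJ.even (hform p) hfit.2.1⟩
      have h8 : 8 ≤ n := hfit.2.2
      have h9 : 0 < (n - 2) * (n - 4) := Nat.mul_pos (by omega) (by omega)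
      exact absurd (Nat.le_of_dvd h9 hd) (by omega)
  have hone := mtc_of_full' (v := (α p).comp s) hMT ((hα p).1.comp hs)
    ((hα p).2.subset (by rintro _ ⟨g, rfl⟩; exact ⟨s g, rfl⟩)) ((hβ p).cont.comp hs) (hform p) hfull
  obtain ⟨-, h2, -⟩ := h2_main hfit hMT hS hs α hα β hβ p hal hone
  have hM1 : ∀ (ℓ : ℕ) [Fact ℓ.Prime],
      MTC (hM (fun _ => (1 : Matrix κ κ ℂ)) T) (tot ((α ℓ).comp s) ((β ℓ).comp s)) :=
    fun ℓ _ => (h2 ℓ).1.2 (habs ℓ)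
  refine ⟨fun ℓ _ => ⟨hM1 ℓ, (h2 ℓ).2 (hM1 ℓ)⟩, fun ℓ _ => ?_, ?_⟩
  · have hc : Continuous ((β ℓ).comp s) := (hβ ℓ).cont.comp hs
    exact cov_all hn5 hMT hc (hform ℓ) (hM1 ℓ) hBm
  · obtain ⟨N₂, hN₂⟩ := exists_int Bm
    obtain ⟨N₃, hN₃⟩ := exists_int Bm⁻¹
    refine ⟨N₁ + N₂ + N₃ + cst n, fun ℓ _ hlt => ?_⟩
    obtain ⟨J, hJ⟩ := hres' ℓ (by omega)
    obtain ⟨Bz, hBz⟩ := hN₂ ℓ (by omega)
    obtain ⟨Bz', hBz'⟩ := hN₃ ℓ (by omega)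
    have hc : Continuous ((β ℓ).comp s) := (hβ ℓ).cont.comp hs
    refine (hJ.cov hc (by omega) (by omega) (hform ℓ)).mono le_rfl ?_
    rintro t ⟨ht1, ht2⟩
    exact ⟨ht1, int_of_pres hBm hBz hBz' ht2⟩

end back

end

end Pool.Agent.U175.LP
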