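import Mathlib
import Pool.Agent.U175.LP.R15

/-!
# Groups which contain the unipotent elements of order three are primitive
-/

set_option autoImplicit false
set_option linter.unusedSectionVars false

namespace Pool.Agent.U175.LP

open Module

noncomputable section

section irr

variable {k : Type*} [Field k] {V : Type*} [AddCommGroup V] [Module k V]
  {B : V →ₗ[k] V →ₗ[k] k}

theorem wg_sq (hs : ∀ x y, B x y = B y x) {u v : V} (hu : B u u = 0) (huv : B u v = 0) (x : V) :
    wg B u v (wg B u v x) = -((B u x * B v v) • u) := by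
  rw [wg_apply, wg_apply]
  simp only [map_sub, map_smul, smul_eq_mul, hu, huv, hs v u, mul_zero, sub_zero, zero_smul,
    zero_sub]

theorem wg_cube (hs : ∀ x y, B x y = B y x) {u v : V} (hu : B u u = 0) (huv : B u v = 0) (x : V) :
    wg B u v (wg B u v (wg B u v x)) = 0 := by
  rw [wg_sq hs hu huv]
  have h1 : B u (wg B u v x) = 0 := by
    rw [wg_apply]
    simp only [map_sub, map_smul, smul_eq_mul, hu, huv, mul_zero, sub_zero]
  rw [h1, zero_mul, zero_smul, neg_zero]

/-- A hyperbolic pair. -/
theorem exists_pair (hs : ∀ x y, B x y = B y x) (h2 : (2 : k) ≠ 0)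
    (hnd : ∀ x, (∀ y, B x y = 0) → x = 0) {u : V} (hu0 : u ≠ 0) (hu : B u u = 0) :
    ∃ u' : V, B u' u' = 0 ∧ B u u' = 1 := by
  obtain ⟨x, hx⟩ : ∃ x, B u x ≠ 0 := by
    by_contra hno
    push Not at hno
    exact hu0 (hnd u hno)
  set y := (B u x)⁻¹ • x with hy
  have huy : B u y = 1 := by rw [hy, map_smul, smul_eq_mul, inv_mul_cancel₀ hx]
  refine ⟨y - (B y y / 2) • u, ?_, ?_⟩
  · simp only [map_sub, map_smul, LinearMap.sub_apply, LinearMap.smul_apply, smul_eq_mul, hu, huy,
      hs y u]
    field_simp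
    ring
  · simp only [map_sub, map_smul, smul_eq_mul, hu, huy, mul_zero, sub_zero]

/-- **Irreducibility.** -/
theorem irr_of_wg [FiniteDimensional k V] (hs : ∀ x y, B x y = B y x) (h2 : (2 : k) ≠ 0)
    (hnd : ∀ x, (∀ y, B x y = 0) → x = 0) (hdim : 3 ≤ finrank k V) {u₀ : V} (hu₀ : u₀ ≠ 0)
    (hu₀' : B u₀ u₀ = 0) (W : Submodule k V)
    (hW : ∀ u v, B u u = 0 → B u v = 0 → ∀ w ∈ W, wg B u v w ∈ W) : W = ⊥ ∨ W = ⊤ := by
  classical
  by_cases hA : ∃ w ∈ W, ∃ u, B u u = 0 ∧ B u w ≠ 0
  · right
    obtain ⟨w, hw, u, hu, huw⟩ := hA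
    have hu0 : u ≠ 0 := by
      rintro rfl
      rw [map_zero, LinearMap.zero_apply] at huw
      exact huw rfl
    obtain ⟨u', hu', huu'⟩ := exists_pair hs h2 hnd hu0 hu
    -- a vector which is not isotropic
    obtain ⟨v, huv, hvv⟩ : ∃ v, B u v = 0 ∧ B v v ≠ 0 := by
      by_contra hno
      push Not at hno
      have hpol : ∀ v v', B u v = 0 → B u v' = 0 → B v v' = 0 := by
        intro v v' hv hv'
        have h3 := hno (v + v') (by rw [map_add, hv, hv', add_zero])
        simp only [map_add, LinearMap.add_apply, hno v hv, hno v' hv', hs v' v, zero_add,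
          add_zero] at h3
        have h4 : (2 : k) * B v v' = 0 := by linear_combination h3
        exact (mul_eq_zero.1 h4).resolve_left h2
      have hcomp : ∀ v, B u v = 0 → v = B v u' • u := by
        intro v hv
        refine sub_eq_zero.1 (hnd _ fun y => ?_)
        have h3 := hpol v (y - B u y • u') hv (by
          rw [map_sub, map_smul, huu', smul_eq_mul, mul_one, sub_self])
        rw [map_sub, map_smul, smul_eq_mul] at h3
        rw [map_sub, LinearMap.sub_apply, map_smul, LinearMap.smul_apply, smul_eq_mul]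
        linear_combination h3
      have hspan : (⊤ : Submodule k V) ≤ Submodule.span k (({u, u'} : Finset V) : Set V) := by
        intro y _
        have h3 := hcomp (y - B u y • u') (by
          rw [map_sub, map_smul, huu', smul_eq_mul, mul_one, sub_self])
        have h4 : y = B (y - B u y • u') u' • u + B u y • u' := by
          rw [← h3, sub_add_cancel]
        rw [h4]
        refine Submodule.add_mem _ (Submodule.smul_mem _ _ (Submodule.subset_span ?_))
          (Submodule.smul_mem _ _ (Submodule.subset_span ?_))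
        · rw [Finset.coe_insert, Finset.coe_singleton]
          exact Set.mem_insert _ _
        · rw [Finset.coe_insert, Finset.coe_singleton]
          exact Set.mem_insert_of_mem _ rfl
      have h3 := (Submodule.finrank_mono hspan).trans (finrank_span_finset_le_card _)
      rw [finrank_top] at h3
      have h4 : ({u, u'} : Finset V).card ≤ 2 := Finset.card_le_two
      omega
    have huW : u ∈ W := by
      have h3 := hW u v hu huv _ (hW u v hu huv w hw)
      rw [wg_sq hs hu huv] at h3
      have h4 := W.smul_mem (B u w * B v v)⁻¹ (W.neg_mem h3)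
      rwa [neg_neg, smul_smul, inv_mul_cancel₀ (mul_ne_zero huw hvv), one_smul] at h4
    have hperp : ∀ v', B u v' = 0 → v' ∈ W := by
      intro v' hv'
      have h3 := hW u v' hu hv' w hw
      rw [wg_apply] at h3
      have h4 := W.add_mem h3 (W.smul_mem (B v' w) huW)
      rw [sub_add_cancel] at h4
      have h5 := W.smul_mem (B u w)⁻¹ h4
      rwa [smul_smul, inv_mul_cancel₀ huw, one_smul] at h5
    rw [eq_top_iff]
    intro y _
    have h3 : y - (B u y / B u w) • w ∈ W := hperp _ (by
      rw [map_sub, map_smul, smul_eq_mul, div_mul_cancel₀ _ huw, sub_self])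
    have h4 := W.add_mem h3 (W.smul_mem (B u y / B u w) hw)
    rwa [sub_add_cancel] at h4
  · left
    push Not at hA
    rw [Submodule.eq_bot_iff]
    intro w hw
    obtain ⟨u', hu', huu'⟩ := exists_pair hs h2 hnd hu₀ hu₀'
    refine hnd w fun y => ?_
    set y₀ := y - B u' y • u₀ - B u₀ y • u' with hy₀
    have e1 : B u₀ y₀ = 0 := by
      rw [hy₀]
      simp only [map_sub, map_smul, smul_eq_mul, hu₀', huu']
      ring
    have e2 : B u' y₀ = 0 := by
      rw [hy₀]
      simp only [map_sub, map_smul, smul_eq_mul, hu', hs u' u₀, huu']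
      ring
    have e3 : B (y₀ + u₀ - (B y₀ y₀ / 2) • u') (y₀ + u₀ - (B y₀ y₀ / 2) • u') = 0 := by
      simp only [map_sub, map_add, map_smul, LinearMap.sub_apply, LinearMap.add_apply,
        LinearMap.smul_apply, smul_eq_mul, hs y₀ u₀, hs y₀ u', e1, e2, hs u' u₀, huu', hu', hu₀']
      field_simp
      ring
    have h3 := hA w hw _ e3
    have h4 := hA w hw _ hu₀'
    have h5 := hA w hw _ hu'
    have h6 : B y₀ w = 0 := by
      simp only [map_sub, map_add, map_smul, LinearMap.sub_apply, LinearMap.add_apply,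
        LinearMap.smul_apply, smul_eq_mul, h4, h5, add_zero, mul_zero, sub_zero] at h3
      exact h3
    have h7 : B y w = B y₀ w + B u' y * B u₀ w + B u₀ y * B u' w := by
      rw [hy₀]
      simp only [map_sub, map_smul, LinearMap.sub_apply, LinearMap.smul_apply, smul_eq_mul]
      ring
    rw [hs, h7, h6, h4, h5, mul_zero, mul_zero, add_zero, add_zero]

end irr

section prim

variable {p : ℕ} [hp : Fact p.Prime] {V : Type*} [AddCommGroup V] [Module (ZMod p) V]
  {B : V →ₗ[ZMod p] V →ₗ[ZMod p] ZMod p}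

/-- The unipotent element of `u` and `v`. -/
def cu (B : V →ₗ[ZMod p] V →ₗ[ZMod p] ZMod p) (u v : V) : Module.End (ZMod p) V :=
  1 - (2 : ZMod p) • wg B u v + (2 : ZMod p) • (wg B u v * wg B u v)

theorem cu_apply (u v x : V) : cu B u v x =
    x - (2 : ZMod p) • wg B u v x + (2 : ZMod p) • wg B u v (wg B u v x) := rfl

theorem cu_smul (a : ZMod p) (u v x : V) : cu B u (a • v) x =
    x - (2 * a) • wg B u v x + (2 * a ^ 2) • wg B u v (wg B u v x) := by
  rw [cu_apply, wg_smul_right]
  simp only [LinearMap.smul_apply, map_smul, smul_smul]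
  congr 2
  ring

theorem cu_add (hs : ∀ x y, B x y = B y x) {u v : V} (hu : B u u = 0) (huv : B u v = 0)
    (a b : ZMod p) (x : V) :
    cu B u (a • v) (cu B u (b • v) x) = cu B u ((a + b) • v) x := by
  have h3 := wg_cube hs hu huv x
  rw [cu_smul, cu_smul, cu_smul]
  simp only [map_sub, map_add, map_smul, h3, smul_zero, add_zero, sub_zero]
  module

/-- **Primitivity.** -/
theorem prim_of_cu [FiniteDimensional (ZMod p) V] (hs : ∀ x y, B x y = B y x) (hp5 : 5 ≤ p)
    (hnd : ∀ x, (∀ y, B x y = 0) → x = 0) (hdim : 3 ≤ finrank (ZMod p) V) {u₀ : V} (hu₀ : u₀ ≠ 0)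
    (hu₀' : B u₀ u₀ = 0) (𝒢 : Set (Module.End (ZMod p) V)) (h1 : 1 ∈ 𝒢)
    (hmul : ∀ g ∈ 𝒢, ∀ h ∈ 𝒢, g * h ∈ 𝒢)
    (hcu : ∀ u v, B u u = 0 → B u v = 0 → cu B u v ∈ 𝒢) (W : Submodule (ZMod p) V)
    (hW : ∀ g ∈ 𝒢, W.map g = W ∨ ∀ x ∈ W, ∀ y ∈ W, B (g x) y = 0) : W = ⊥ ∨ W = ⊤ := by
  have h2 : (2 : ZMod p) ≠ 0 := by
    intro h
    have h3 : ((2 : ℕ) : ZMod p) = 0 := by exact_mod_cast h
    rw [ZMod.natCast_eq_zero_iff] at h3
    exact absurd (Nat.le_of_dvd (by norm_num) h3) (by omega)
  -- stable subspaces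
  have hirr : ∀ U : Submodule (ZMod p) V, (∀ g ∈ 𝒢, ∀ x ∈ U, g x ∈ U) → U = ⊥ ∨ U = ⊤ := by
    intro U hU
    refine irr_of_wg hs h2 hnd hdim hu₀ hu₀' U fun u v hu huv w hw => ?_
    have e1 := hU _ (hcu u v hu huv) w hw
    have e2 := hU _ (hcu u (-v) hu (by rw [map_neg, huv, neg_zero])) w hw
    have e3 : cu B u (-v) w = w + (2 : ZMod p) • wg B u v w +
        (2 : ZMod p) • wg B u v (wg B u v w) := by
      have h3 := cu_smul (B := B) (-1 : ZMod p) u v w
      rw [neg_one_smul] at h3
      rw [h3]
      module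
    rw [cu_apply] at e1
    rw [e3] at e2
    have e4 := U.sub_mem e2 e1
    have e5 : w + (2 : ZMod p) • wg B u v w + (2 : ZMod p) • wg B u v (wg B u v w) -
        (w - (2 : ZMod p) • wg B u v w + (2 : ZMod p) • wg B u v (wg B u v w)) =
        (4 : ZMod p) • wg B u v w := by module
    rw [e5] at e4
    have h4 : (4 : ZMod p) ≠ 0 := by
      have : (4 : ZMod p) = 2 * 2 := by norm_num
      rw [this]
      exact mul_ne_zero h2 h2
    have e6 := U.smul_mem (4 : ZMod p)⁻¹ e4
    rwa [smul_smul, inv_mul_cancel₀ h4, one_smul] at e6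
  by_cases hiso : ∀ x ∈ W, ∀ y ∈ W, B x y = 0
  · -- totally isotropic
    have hall : ∀ g ∈ 𝒢, ∀ x ∈ W, ∀ y ∈ W, B (g x) y = 0 := by
      intro g hg x hx y hy
      rcases hW g hg with h | h
      · refine hiso _ ?_ y hy
        rw [← h]
        exact ⟨x, hx, rfl⟩
      · exact h x hx y hy
    let U : Submodule (ZMod p) V := Submodule.span (ZMod p) {y | ∃ g ∈ 𝒢, ∃ x ∈ W, y = g x}
    have hWU : W ≤ U := fun x hx => Submodule.subset_span ⟨1, h1, x, hx, rfl⟩
    rcases hirr U (fun g hg y hy => by
      induction hy using Submodule.span_induction with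
      | mem y hy =>
        obtain ⟨g', hg', x, hx, rfl⟩ := hy
        exact Submodule.subset_span ⟨g * g', hmul g hg g' hg', x, hx, rfl⟩
      | zero => rw [map_zero]; exact U.zero_mem
      | add a b _ _ ha hb => rw [map_add]; exact U.add_mem ha hb
      | smul c a _ ha => rw [map_smul]; exact U.smul_mem _ ha) with hU | hU
    · left
      rw [eq_bot_iff, ← hU]
      exact hWU
    · left
      rw [Submodule.eq_bot_iff]
      intro w hw
      refine hnd w fun y => ?_
      have hy : y ∈ U := by rw [hU]; exact Submodule.mem_top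
      rw [hs]
      induction hy using Submodule.span_induction with
      | mem y hy =>
        obtain ⟨g', hg', x, hx, rfl⟩ := hy
        exact hall g' hg' x hx w hw
      | zero => rw [map_zero, LinearMap.zero_apply]
      | add a b _ _ ha hb => rw [map_add, LinearMap.add_apply, ha, hb, add_zero]
      | smul c a _ ha => rw [map_smul, LinearMap.smul_apply, ha, smul_zero]
  · -- not totally isotropic
    push Not at hiso
    obtain ⟨x₀, hx₀, y₀, hy₀, hxy⟩ := hiso
    refine irr_of_wg hs h2 hnd hdim hu₀ hu₀' W fun u v hu huv w hw => ?_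
    -- some element of the one-parameter group maps `W` to itself
    have hex : ∃ a : ZMod p, a ≠ 0 ∧ W.map (cu B u (a • v)) = W := by
      by_contra hno
      push Not at hno
      have hz : ∀ a : ZMod p, a ≠ 0 → B (cu B u (a • v) x₀) y₀ = 0 := by
        intro a ha
        rcases hW _ (hcu u (a • v) hu (by rw [map_smul, huv, smul_zero])) with h | h
        · exact absurd h (hno a ha)
        · exact h x₀ hx₀ y₀ hy₀
      have hf : ∀ a : ZMod p, B (cu B u (a • v) x₀) y₀ = B x₀ y₀ - 2 * a * B (wg B u v x₀) y₀ +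
          2 * a ^ 2 * B (wg B u v (wg B u v x₀)) y₀ := by
        intro a
        rw [cu_smul]
        simp only [map_sub, map_add, map_smul, LinearMap.sub_apply, LinearMap.add_apply,
          LinearMap.smul_apply, smul_eq_mul]
      have hne : ∀ m : ℕ, 0 < m → m < 5 → ((m : ℕ) : ZMod p) ≠ 0 := by
        intro m hm hm5 h
        rw [ZMod.natCast_eq_zero_iff] at h
        exact absurd (Nat.le_of_dvd hm h) (by omega)
      have z1 := hz 1 one_ne_zero
      have z2 := hz (-1) (neg_ne_zero.2 one_ne_zero)
      have z3 := hz 2 h2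
      rw [hf] at z1 z2 z3
      have h3 : (3 : ZMod p) ≠ 0 := by exact_mod_cast hne 3 (by norm_num) (by norm_num)
      -- interpolation
      set α := B x₀ y₀
      set β := B (wg B u v x₀) y₀
      set γ := B (wg B u v (wg B u v x₀)) y₀
      have h5 : (3 : ZMod p) * α = 0 := by
        linear_combination (3 : ZMod p) * z1 + z2 - z3
      exact hxy ((mul_eq_zero.1 h5).resolve_left h3)
    obtain ⟨a, ha, haW⟩ := hex
    have hpow : ∀ m : ℕ, W.map (cu B u (((m : ZMod p) * a) • v)) = W := by
      intro m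
      induction m with
      | zero =>
        rw [Nat.cast_zero, zero_mul]
        have h3 : cu B u ((0 : ZMod p) • v) = LinearMap.id := by
          refine LinearMap.ext fun x => ?_
          rw [cu_smul]
          simp
        rw [h3, Submodule.map_id]
      | succ m ih =>
        have h3 : cu B u (((((m + 1 : ℕ) : ZMod p)) * a) • v) =
            (cu B u (a • v)).comp (cu B u (((m : ZMod p) * a) • v)) := by
          refine LinearMap.ext fun x => ?_
          rw [LinearMap.comp_apply, cu_add hs hu huv]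
          congr 2
          push_cast
          ring
        rw [h3, Submodule.map_comp, ih, haW]
    have hall : ∀ b : ZMod p, W.map (cu B u (b • v)) = W := by
      intro b
      have h3 := hpow (b * a⁻¹).val
      rwa [ZMod.natCast_zmod_val, mul_assoc, inv_mul_cancel₀ ha, mul_one] at h3
    have e1 : cu B u ((1 : ZMod p) • v) w ∈ W := by
      have h3 := Submodule.mem_map_of_mem (f := cu B u ((1 : ZMod p) • v)) hw
      rwa [hall 1] at h3
    have e2 : cu B u ((-1 : ZMod p) • v) w ∈ W := by
      have h3 := Submodule.mem_map_of_mem (f := cu B u ((-1 : ZMod p) • v)) hw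
      rwa [hall (-1)] at h3
    rw [cu_smul] at e1 e2
    have e4 := W.sub_mem e2 e1
    have e5 : w - (2 * -1 : ZMod p) • wg B u v w + (2 * (-1) ^ 2 : ZMod p) •
        wg B u v (wg B u v w) - (w - (2 * 1 : ZMod p) • wg B u v w +
        (2 * 1 ^ 2 : ZMod p) • wg B u v (wg B u v w)) = (4 : ZMod p) • wg B u v w := by
      module
    rw [e5] at e4
    have h4 : (4 : ZMod p) ≠ 0 := by
      have : (4 : ZMod p) = 2 * 2 := by norm_num
      rw [this]
      exact mul_ne_zero h2 h2
    have e6 := W.smul_mem (4 : ZMod p)⁻¹ e4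
    rwa [smul_smul, inv_mul_cancel₀ h4, one_smul] at e6

end prim

/-- Isotropic vectors over finite fields. -/
theorem exists_isotropic {p : ℕ} [hp : Fact p.Prime] {n : ℕ} (hn : 3 ≤ n)
    (Q : Matrix (Fin n) (Fin n) (ZMod p)) : ∃ u : Fin n → ZMod p, u ≠ 0 ∧
      dotProduct u (Matrix.mulVec Q u) = 0 := by
  classical
  set f : MvPolynomial (Fin n) (ZMod p) := ∑ i, ∑ j, MvPolynomial.C (Q i j) *
    (MvPolynomial.X i * MvPolynomial.X j) with hf
  have hdeg : f.totalDegree < Fintype.card (Fin n) := by
    rw [Fintype.card_fin]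
    refine lt_of_le_of_lt ?_ (by omega : 2 < n)
    refine MvPolynomial.totalDegree_finsetSum_le fun i _ =>
      MvPolynomial.totalDegree_finsetSum_le fun j _ => ?_
    refine (MvPolynomial.totalDegree_mul _ _).trans ?_
    rw [MvPolynomial.totalDegree_C, zero_add]
    refine (MvPolynomial.totalDegree_mul _ _).trans ?_
    rw [MvPolynomial.totalDegree_X, MvPolynomial.totalDegree_X]
  have hev : ∀ x : Fin n → ZMod p, MvPolynomial.eval x f = dotProduct x (Matrix.mulVec Q x) := by
    intro x
    rw [hf, map_sum, dotProduct]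
    refine Finset.sum_congr rfl fun i _ => ?_
    rw [map_sum, Matrix.mulVec, dotProduct, Finset.mul_sum]
    refine Finset.sum_congr rfl fun j _ => ?_
    rw [map_mul, map_mul, MvPolynomial.eval_C, MvPolynomial.eval_X, MvPolynomial.eval_X]
    ring
  have hd := char_dvd_card_solutions p hdeg
  by_contra hno
  push Not at hno
  have h1 : Fintype.card {x : Fin n → ZMod p // MvPolynomial.eval x f = 0} = 1 := by
    rw [Fintype.card_eq_one_iff]
    refine ⟨⟨0, by rw [hev, zero_dotProduct]⟩, ?_⟩
    rintro ⟨x, hx⟩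
    rw [hev] at hx
    refine Subtype.ext ?_
    by_contra hx0
    exact hno x hx0 hx
  rw [h1] at hd
  exact hp.out.one_lt.ne' (Nat.dvd_one.1 hd)

end

end Pool.Agent.U175.LP
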