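import Pool.Agent.U175.LP.S7
import Pool.Agent.U175.LP.S8

/-!
# From the integral Mumford-Tate conjecture to the residual groups
-/

set_option autoImplicit false
set_option linter.unusedSectionVars false
set_option linter.style.haveILetI false

namespace Pool.Agent.U175.LP

open PadicInt Module Matrix Filter Topology NumberField IsDedekindDomain
open Pool.Agent.U175.LP.Pub Pool.Agent.Y142.ZO
open Pool.Agent.Y142.ZI Pool.Agent.U273.AI Pool.Agent.Y95.MT Pool.Agent.R932 Pool.Agent.R932.PO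
open Pool.Agent.W544.PG (HS)

noncomputable section

variable {n : ℕ} {T : HS n} {κ : Type} [Fintype κ] [DecidableEq κ]
  {ℓ : ℕ} [hℓ : Fact ℓ.Prime] {G : Type} [Group G]
  {α : G →* Matrix κ κ ℚ_[ℓ]} {β : G →* Matrix (Fin n) (Fin n) ℤ_[ℓ]}

section nhds

attribute [local instance] Matrix.normedAddCommGroup

theorem exists_eps {V : Set (Matrix (Fin n) (Fin n) ℚ_[ℓ])} (hV : V ∈ 𝓝 (1 : Matrix (Fin n) (Fin n) ℚ_[ℓ])) :
    ∃ ε : ℝ, 0 < ε ∧ ∀ g : Matrix (Fin n) (Fin n) ℚ_[ℓ], (∀ i j, ‖(g - 1) i j‖ < ε) → g ∈ V := by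
  obtain ⟨ε, hε, h⟩ := Metric.mem_nhds_iff.1 hV
  refine ⟨ε, hε, fun g hg => h ?_⟩
  rw [Metric.mem_ball, dist_eq_norm, Matrix.norm_lt_iff hε]
  exact hg

end nhds

/-- Powers in a subgroup of finite index. -/
theorem exists_pow {M : Type*} [Monoid M] {ρ : G →* M} {Δ : Subgroup G} {C : ℕ} {S : Set M}
    (h : HasIdx C (ρ '' (Δ : Set G)) S) {c : M} (hc : ∀ i : ℕ, c ^ i ∈ S) (hu : IsUnit c) :
    ∃ m, 0 < m ∧ m ≤ C ∧ c ^ m ∈ ρ '' (Δ : Set G) := by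
  classical
  obtain ⟨-, T', hT', -, hcov⟩ := h
  choose t ht a ha hta using fun i : Fin (C + 1) => hcov (c ^ (i : ℕ)) (hc i)
  obtain ⟨i, -, j, -, hij, hteq⟩ := Finset.exists_ne_map_eq_of_card_lt_of_maps_to
    (s := (Finset.univ : Finset (Fin (C + 1)))) (t := T') (f := t)
    (by rw [Finset.card_univ, Fintype.card_fin]; omega) (fun i _ => ht i)
  have key : ∀ i j : Fin (C + 1), i < j → t i = t j → ∃ m, 0 < m ∧ m ≤ C ∧
      c ^ m ∈ ρ '' (Δ : Set G) := by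
    intro i j hij hteq
    refine ⟨j - i, by have := Fin.lt_def.1 hij; omega, by have := j.2; omega, ?_⟩
    obtain ⟨δ, hδ, hδa⟩ := ha i
    obtain ⟨δ', hδ', hδa'⟩ := ha j
    refine ⟨δ⁻¹ * δ', Δ.mul_mem (Δ.inv_mem hδ) hδ', ?_⟩
    have h1 : c ^ (j : ℕ) = c ^ (i : ℕ) * ρ (δ⁻¹ * δ') := by
      rw [hta i, hta j, hteq, ← hδa, ← hδa', mul_assoc, ← map_mul, mul_inv_cancel_left]
    have h2 : c ^ (i : ℕ) * c ^ ((j : ℕ) - (i : ℕ)) = c ^ (j : ℕ) := by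
      rw [← pow_add]
      congr 1
      have := Fin.lt_def.1 hij
      omega
    exact (((hu.pow (i : ℕ)).mul_left_cancel (h2.trans h1))).symm
  rcases lt_or_gt_of_ne hij with h1 | h1
  · exact key i j h1 hteq
  · exact key j i h1 hteq.symm

theorem fb_pow (t : Matrix (Fin n) (Fin n) ℚ_[ℓ]) (i : ℕ) :
    (fromBlocks (1 : Matrix κ κ ℚ_[ℓ]) 0 0 t) ^ i = fromBlocks (1 : Matrix κ κ ℚ_[ℓ]) 0 0 (t ^ i) := by
  induction i with
  | zero => rw [pow_zero, pow_zero, fromBlocks_one]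
  | succ i ih =>
    rw [pow_succ, ih, fromBlocks_multiply, pow_succ]
    simp

/-- The image of the subgroup in block form. -/
theorem blk_of_idx (hB : FullMT T κ) {Δ : Subgroup G} {C : ℕ}
    {Bm : Matrix (κ ⊕ Fin n) (κ ⊕ Fin n) ℚ}
    (h : HasIdx C (tot α β '' Δ) {g | Pres Bm g ∧ InMT (hM (fun _ => (1 : Matrix κ κ ℂ)) T) g})
    {σ : G} (hσ : σ ∈ Δ) : tot α β σ = fromBlocks 1 0 0 (qrep β σ) :=
  (block_of_MT hB (tot_det_ne σ) (h.1 ⟨σ, hσ, rfl⟩).2).1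

/-- **Finite index implies that the image is open.** -/
theorem open_of_idx [TopologicalSpace G] [IsTopologicalGroup G] [CompactSpace G]
    (hB : FullMT T κ) (hα : Continuous α) (hβ : Continuous β) {Δ : Subgroup G}
    (hΔ : IsOpen (Δ : Set G)) {C : ℕ} {Bm : Matrix (κ ⊕ Fin n) (κ ⊕ Fin n) ℚ} (hBm : Bm.det ≠ 0)
    (h : HasIdx C (tot α β '' Δ) {g | Pres Bm g ∧ InMT (hM (fun _ => (1 : Matrix κ κ ℂ)) T) g}) :
    OpenImage ℓ (qrep β) (T.Q.map (algebraMap ℚ ℚ_[ℓ])) := by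
  classical
  have hcont : Continuous (tot α β) := by
    show Continuous fun s => (fromBlocks (α s) 0 0 (qm (β s)) :
      Matrix (κ ⊕ Fin n) (κ ⊕ Fin n) ℚ_[ℓ])
    exact hα.matrix_fromBlocks continuous_const continuous_const (continuous_qm.comp hβ)
  have hblk := fun {σ : G} (hσ : σ ∈ Δ) => blk_of_idx hB h hσ
  obtain ⟨-, T', hT', hTS, hcov⟩ := h
  have hΔc : IsCompact (Δ : Set G) := (Subgroup.isClosed_of_isOpen Δ hΔ).isCompact
  have hA : IsCompact (tot α β '' (Δ : Set G)) := hΔc.image hcont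
  -- the cosets which do not contain the identity
  let Z : Set (Matrix (κ ⊕ Fin n) (κ ⊕ Fin n) ℚ_[ℓ]) :=
    ⋃ t ∈ T'.filter (fun t => (1 : Matrix (κ ⊕ Fin n) (κ ⊕ Fin n) ℚ_[ℓ]) ∉
      (fun a => t * a) '' (tot α β '' (Δ : Set G))), (fun a => t * a) '' (tot α β '' (Δ : Set G))
  have hZ : IsClosed Z := by
    refine Set.Finite.isClosed_biUnion (Finset.finite_toSet _) fun t _ => ?_
    exact (hA.image (continuous_const.matrix_mul continuous_id)).isClosed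
  have h1Z : (1 : Matrix (κ ⊕ Fin n) (κ ⊕ Fin n) ℚ_[ℓ]) ∉ Z := by
    intro h1
    obtain ⟨t, ht, h2⟩ := Set.mem_iUnion₂.1 h1
    exact (Finset.mem_filter.1 ht).2 h2
  have hfb : Continuous fun t : Matrix (Fin n) (Fin n) ℚ_[ℓ] =>
      (fromBlocks (1 : Matrix κ κ ℚ_[ℓ]) 0 0 t : Matrix (κ ⊕ Fin n) (κ ⊕ Fin n) ℚ_[ℓ]) :=
    continuous_const.matrix_fromBlocks continuous_const continuous_const continuous_id
  have hfb1 : (fromBlocks (1 : Matrix κ κ ℚ_[ℓ]) 0 0 (1 : Matrix (Fin n) (Fin n) ℚ_[ℓ])) = 1 :=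
    fromBlocks_one
  -- the conditions near the identity
  set B' : Matrix (κ ⊕ Fin n) (κ ⊕ Fin n) ℚ_[ℓ] := Bm.map (algebraMap ℚ ℚ_[ℓ]) with hB'
  have hBu : IsUnit B'.det := by
    rw [isUnit_iff_ne_zero, hB']
    have h1 := (algebraMap ℚ ℚ_[ℓ]).map_det Bm
    rw [RingHom.mapMatrix_apply] at h1
    rw [← h1]
    exact (map_ne_zero _).2 hBm
  have e1 : ∀ᶠ t in 𝓝 (1 : Matrix (Fin n) (Fin n) ℚ_[ℓ]), fromBlocks (1 : Matrix κ κ ℚ_[ℓ]) 0 0 t ∉ Z := by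
    refine ContinuousAt.eventually_mem (s := Zᶜ) hfb.continuousAt ?_
    rw [hfb1]
    exact hZ.isOpen_compl.mem_nhds h1Z
  have e2 : ∀ᶠ t in 𝓝 (1 : Matrix (Fin n) (Fin n) ℚ_[ℓ]), ∀ i j,
      ‖(B'⁻¹ * fromBlocks (1 : Matrix κ κ ℚ_[ℓ]) 0 0 t * B' - 1) i j‖ < 1 := by
    rw [Filter.eventually_all]
    intro i
    rw [Filter.eventually_all]
    intro j
    have hc : Continuous fun t : Matrix (Fin n) (Fin n) ℚ_[ℓ] =>
        ‖(B'⁻¹ * fromBlocks (1 : Matrix κ κ ℚ_[ℓ]) 0 0 t * B' - 1) i j‖ :=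
      ((((continuous_const.matrix_mul hfb).matrix_mul continuous_const).sub
        continuous_const).matrix_elem i j).norm
    refine hc.continuousAt.eventually_lt continuousAt_const ?_
    rw [hfb1, Matrix.mul_one, Matrix.nonsing_inv_mul _ hBu, sub_self, Matrix.zero_apply, norm_zero]
    exact one_pos
  have e3 : ∀ᶠ t in 𝓝 (1 : Matrix (Fin n) (Fin n) ℚ_[ℓ]), ‖t.det - 1‖ < ‖(2 : ℚ_[ℓ])‖ := by
    have hc : Continuous fun t : Matrix (Fin n) (Fin n) ℚ_[ℓ] => ‖t.det - 1‖ :=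
      ((Continuous.matrix_det continuous_id).sub continuous_const).norm
    refine hc.continuousAt.eventually_lt continuousAt_const ?_
    rw [det_one, sub_self, norm_zero]
    exact norm_pos_iff.2 two_ne_zero
  obtain ⟨ε, hε, hgood⟩ := exists_eps ((e1.and (e2.and e3)))
  refine ⟨ε, hε, fun u hu hnear => ?_⟩
  obtain ⟨g1, g2, g3⟩ := hgood u hnear
  -- determinant one
  have hdet : u.det = 1 := by
    have h1 := congrArg Matrix.det (show uᵀ * T.Q.map (algebraMap ℚ ℚ_[ℓ]) * u =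
      T.Q.map (algebraMap ℚ ℚ_[ℓ]) from hu)
    rw [det_mul, det_mul, det_transpose] at h1
    have h2 : u.det * u.det = 1 := by
      refine mul_right_cancel₀ (qdet (ℓ := ℓ) T) ?_
      linear_combination h1
    rcases mul_self_eq_one_iff.1 h2 with h3 | h3
    · exact h3
    · rw [h3, show (-1 : ℚ_[ℓ]) - 1 = -2 by norm_num, norm_neg] at g3
      exact absurd g3 (lt_irrefl _)
  -- the lattice
  have hpres : Pres Bm (fromBlocks (1 : Matrix κ κ ℚ_[ℓ]) 0 0 u) := by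
    have hint : ∀ i j, ‖(B'⁻¹ * fromBlocks (1 : Matrix κ κ ℚ_[ℓ]) 0 0 u * B') i j‖ ≤ 1 := by
      intro i j
      have h1 := (g2 i j).le
      have h2 : ‖(1 : Matrix (κ ⊕ Fin n) (κ ⊕ Fin n) ℚ_[ℓ]) i j‖ ≤ 1 := by
        rw [Matrix.one_apply]
        split_ifs
        · rw [norm_one]
        · rw [norm_zero]
          exact zero_le_one
      have h3 : (B'⁻¹ * fromBlocks (1 : Matrix κ κ ℚ_[ℓ]) 0 0 u * B') i j =
          (B'⁻¹ * fromBlocks (1 : Matrix κ κ ℚ_[ℓ]) 0 0 u * B' - 1) i j +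
          (1 : Matrix (κ ⊕ Fin n) (κ ⊕ Fin n) ℚ_[ℓ]) i j := by
        rw [Matrix.sub_apply, sub_add_cancel]
      rw [h3]
      exact (IsUltrametricDist.norm_add_le_max _ _).trans (max_le h1 h2)
    let m : Matrix (κ ⊕ Fin n) (κ ⊕ Fin n) ℤ_[ℓ] := Matrix.of fun i j => ⟨_, hint i j⟩
    have hm : m.map (algebraMap ℤ_[ℓ] ℚ_[ℓ]) =
        B'⁻¹ * fromBlocks (1 : Matrix κ κ ℚ_[ℓ]) 0 0 u * B' := by
      ext i j
      rfl
    refine ⟨m, ?_, ?_⟩
    · rw [Matrix.isUnit_iff_isUnit_det]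
      have h1 : algebraMap ℤ_[ℓ] ℚ_[ℓ] m.det = 1 := by
        have h2 := (algebraMap ℤ_[ℓ] ℚ_[ℓ]).map_det m
        rw [RingHom.mapMatrix_apply] at h2
        rw [h2, hm, det_mul, det_mul, fb_det, det_one, one_mul, hdet, mul_one, ← det_mul,
          Matrix.nonsing_inv_mul _ hBu, det_one]
      have h2 : m.det = 1 := by
        apply IsFractionRing.injective ℤ_[ℓ] ℚ_[ℓ]
        rw [h1, map_one]
      rw [h2]
      exact isUnit_one
    · rw [hm, ← Matrix.mul_assoc, ← Matrix.mul_assoc, Matrix.mul_nonsing_inv _ hBu, Matrix.one_mul]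
  obtain ⟨t, ht, a, ha, hta⟩ := hcov _ ⟨hpres, MT_of_block hB hu hdet⟩
  have h1t : (1 : Matrix (κ ⊕ Fin n) (κ ⊕ Fin n) ℚ_[ℓ]) ∈
      (fun a => t * a) '' (tot α β '' (Δ : Set G)) := by
    by_contra hno
    exact g1 (Set.mem_iUnion₂.2 ⟨t, Finset.mem_filter.2 ⟨ht, hno⟩, a, ha, hta.symm⟩)
  obtain ⟨_, ⟨δ', hδ', rfl⟩, h1'⟩ := h1t
  obtain ⟨δ, hδ, rfl⟩ := ha
  have h2 : fromBlocks (1 : Matrix κ κ ℚ_[ℓ]) 0 0 u = tot α β (δ'⁻¹ * δ) := by
    have h3 : t * tot α β δ' = 1 := h1'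
    have h4 : t = tot α β δ'⁻¹ := by
      calc t = t * (tot α β δ' * tot α β δ'⁻¹) := by
            rw [← map_mul, mul_inv_cancel, map_one, Matrix.mul_one]
        _ = tot α β δ'⁻¹ := by rw [← Matrix.mul_assoc, h3, Matrix.one_mul]
    rw [hta, h4, ← map_mul]
  refine ⟨δ'⁻¹ * δ, ?_⟩
  rw [hblk (Δ.mul_mem (Δ.inv_mem hδ') hδ)] at h2
  have h3 := congrArg Matrix.toBlocks₂₂ h2
  rw [toBlocks_fromBlocks₂₂, toBlocks_fromBlocks₂₂] at h3
  exact h3.symm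

end

end Pool.Agent.U175.LP
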